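import Pool.Agent.Lib.MP_f80667_ag.Dq.Dg

/-!
The discriminant of a member on the tangent space at a point, in the coordinates of the simultaneous
orthogonal basis. `gm A B a b` is the Gram matrix of the member.
-/

namespace Dq

open ZC Tq Dp Matrix

variable {k : Type*} [Field k] (A B : Matrix (Fin 5) (Fin 5) k) {E : Type*} [Field E] [Algebra k E]

/-- The Gram matrix of the member `(a, b)`. -/
noncomputable def gm (a b : E) : Matrix (Fin 5) (Fin 5) E :=
  a • (A + Aᵀ).map (algebraMap k E) + b • (B + Bᵀ).map (algebraMap k E)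

variable {A B}

/-- Proof: see `nd_iff` in `Dp/Sing.lean` (`Ts.nd_bv_dot`, `Ts.nd_mulVec`). -/
theorem gm_mB (a b : E) (x y : Fin 5 → E) : x ⬝ᵥ (gm A B a b *ᵥ y) = mB A B a b x y := by
  rw [mB, bv_comm A x y, bv_comm B x y, Ts.nd_bv_dot, Ts.nd_bv_dot, gm, Matrix.add_mulVec,
    Matrix.smul_mulVec, Matrix.smul_mulVec, dotProduct_add, dotProduct_smul, dotProduct_smul,
    smul_eq_mul, smul_eq_mul, dotProduct_comm x, dotProduct_comm x]

section expl

variable (G : Matrix (Fin 5) (Fin 5) E) (h0 : G 0 0 = 0) (h1 : G 0 1 = 0) (h2 : G 0 2 = 0)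
  (h3 : G 1 0 = 0) (h4 : G 2 0 = 0)

include h0 h1 h2 h3 h4

private theorem Adj_33 :
    G.adjugate 3 3 = - (G 0 4 * G 4 0 * (G 1 1 * G 2 2 - G 1 2 * G 2 1)) := by
  rw [Matrix.adjugate_fin_succ_eq_det_submatrix]
  simp only [Matrix.det_succ_row_zero, Fin.sum_univ_succ, Matrix.submatrix_apply]
  simp [Fin.succAbove, h0, h1, h2, h3, h4]
  ring

private theorem Adj_44 :
    G.adjugate 4 4 = - (G 0 3 * G 3 0 * (G 1 1 * G 2 2 - G 1 2 * G 2 1)) := by
  rw [Matrix.adjugate_fin_succ_eq_det_submatrix]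
  simp only [Matrix.det_succ_row_zero, Fin.sum_univ_succ, Matrix.submatrix_apply]
  simp [Fin.succAbove, h0, h1, h2, h3, h4]
  ring

private theorem Adj_34 :
    G.adjugate 3 4 = G 0 4 * G 3 0 * (G 1 1 * G 2 2 - G 1 2 * G 2 1) := by
  rw [Matrix.adjugate_fin_succ_eq_det_submatrix]
  simp only [Matrix.det_succ_row_zero, Fin.sum_univ_succ, Matrix.submatrix_apply]
  simp [Fin.succAbove, h0, h1, h2, h3, h4]
  ring

private theorem Adj_43 :
    G.adjugate 4 3 = G 0 3 * G 4 0 * (G 1 1 * G 2 2 - G 1 2 * G 2 1) := by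
  rw [Matrix.adjugate_fin_succ_eq_det_submatrix]
  simp only [Matrix.det_succ_row_zero, Fin.sum_univ_succ, Matrix.submatrix_apply]
  simp [Fin.succAbove, h0, h1, h2, h3, h4]
  ring

private theorem Adj_all (c : Fin 5 → E) (c0 : c 0 = 0) (c1 : c 1 = 0) (c2 : c 2 = 0) :
    c ⬝ᵥ (G.adjugate *ᵥ c) = - ((G 1 1 * G 2 2 - G 1 2 * G 2 1) *
      (G 0 4 * c 3 - G 0 3 * c 4) * (G 4 0 * c 3 - G 3 0 * c 4)) := by
  simp only [Matrix.mulVec, dotProduct, Fin.sum_univ_five, c0, c1, c2]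
  rw [Adj_33 G h0 h1 h2 h3 h4, Adj_44 G h0 h1 h2 h3 h4, Adj_34 G h0 h1 h2 h3 h4,
    Adj_43 G h0 h1 h2 h3 h4]
  ring

end expl

/-- The value of the adjugate in another basis. -/
theorem Adj_basis (M S : Matrix (Fin 5) (Fin 5) E) (h : Fin 5 → E) :
    (M *ᵥ h) ⬝ᵥ ((M * S * Mᵀ).adjugate *ᵥ (M *ᵥ h)) =
      M.det ^ 2 * (h ⬝ᵥ (S.adjugate *ᵥ h)) := by
  rw [adjugate_mul_distrib, adjugate_mul_distrib, ← Matrix.mulVec_mulVec, ← Matrix.mulVec_mulVec,
    Matrix.mulVec_mulVec h M.adjugate M, Matrix.adjugate_mul, Matrix.smul_mulVec, Matrix.one_mulVec,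
    Matrix.dotProduct_mulVec, ← Matrix.adjugate_transpose, Matrix.vecMul_transpose,
    Matrix.mulVec_mulVec, Matrix.adjugate_mul, Matrix.smul_mulVec, Matrix.one_mulVec,
    Matrix.mulVec_smul, smul_dotProduct, dotProduct_smul, smul_eq_mul, smul_eq_mul]
  ring

/-- The entries of the matrix of a member in a basis. -/
theorem Adj_entry (r : Fin 5 → Fin 5 → E) (a b : E) (i j : Fin 5) :
    (Matrix.of r * gm A B a b * (Matrix.of r)ᵀ) i j = mB A B a b (r i) (r j) := by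
  rw [← gm_mB, Matrix.mul_assoc]
  rfl

/-- **In a basis adapted to the tangent space.** Let `M` be the matrix with the rows
`P, u₁, u₂, w₁, w₂` and `h = gm a' b' P`. The matrix `G = M * gm a b * Mᵀ` is
`(0, 0, 0, a, b; 0, p, q, r, s; 0, q, t, m, n; a, r, m, *, *; b, s, n, *, *)` with `p = 2 mQ u₁`,
`q = mB u₁ u₂`, `t = 2 mQ u₂`, and `M h = (0, 0, 0, a', b')`. The value of `adj G` at the vector
`(0, 0, 0, a', b')` is `-(p t - q ^ 2) (b a' - a b') ^ 2` (only four entries of the adjugate occur: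
determinants of `4 × 4` matrices, `Matrix.adjugate_fin_succ..` or `Matrix.adjugate_apply` and expansion
of the explicit matrix, `ring`); and `M h ⬝ adj G (M h) = det M ^ 2 (h ⬝ adj (gm a b) h)` since
`adj G = adj Mᵀ * adj (gm a b) * adj M` (`adjugate_mul_distrib`) and `adj M * M = det M`. -/
theorem adj_tb {P u₁ u₂ w₁ w₂ : Fin 5 → E} (aP : qv A P = 0) (bP : qv B P = 0)
    (t1 : u₁ ∈ TP A B P) (t2 : u₂ ∈ TP A B P) (a1 : bv A P w₁ = 1) (b1 : bv B P w₁ = 0)
    (a2 : bv A P w₂ = 0) (b2 : bv B P w₂ = 1) (a b a' b' : E) :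
    (Matrix.of ![P, u₁, u₂, w₁, w₂]).det ^ 2 *
        ((gm A B a' b' *ᵥ P) ⬝ᵥ ((gm A B a b).adjugate *ᵥ (gm A B a' b' *ᵥ P))) =
      (b * a' - a * b') ^ 2 *
        (mB A B a b u₁ u₂ ^ 2 - 4 * mQ A B a b u₁ * mQ A B a b u₂) := by
  rw [← Adj_basis]
  have hG := Adj_entry (A := A) (B := B) ![P, u₁, u₂, w₁, w₂] a b
  have e1 : ∀ c d : E, ∀ u : Fin 5 → E, mB A B c d P u = c * bv A P u + d * bv B P u :=
    fun c d u => rfl
  have e2 : ∀ c d : E, ∀ u : Fin 5 → E, mB A B c d u P = c * bv A P u + d * bv B P u :=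
    fun c d u => by rw [mB, bv_comm A u P, bv_comm B u P]
  have e3 : bv A P P = 0 := by rw [bv_self, aP, mul_zero]
  have e4 : bv B P P = 0 := by rw [bv_self, bP, mul_zero]
  obtain ⟨t1a, t1b⟩ := t1
  obtain ⟨t2a, t2b⟩ := t2
  have hc : ∀ i, (Matrix.of ![P, u₁, u₂, w₁, w₂] *ᵥ (gm A B a' b' *ᵥ P)) i =
      mB A B a' b' (![P, u₁, u₂, w₁, w₂] i) P := fun i => gm_mB a' b' _ P
  rw [Adj_all]
  · rw [hG, hG, hG, hG, hG, hG, hG, hG, hc, hc]
    simp only [Matrix.cons_val]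
    rw [e1, e1, e2, e2, e2, e2, a1, a2, b1, b2, mB_comm a b u₂ u₁, mB_self, mB_self]
    ring
  · rw [hG]
    simp only [Matrix.cons_val]
    rw [e1, e3, e4]
    ring
  · rw [hG]
    simp only [Matrix.cons_val]
    rw [e1, t1a, t1b]
    ring
  · rw [hG]
    simp only [Matrix.cons_val]
    rw [e1, t2a, t2b]
    ring
  · rw [hG]
    simp only [Matrix.cons_val]
    rw [e2, t1a, t1b]
    ring
  · rw [hG]
    simp only [Matrix.cons_val]
    rw [e2, t2a, t2b]
    ring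
  · rw [hc]
    simp only [Matrix.cons_val]
    rw [e1, e3, e4]
    ring
  · rw [hc]
    simp only [Matrix.cons_val]
    rw [e2, t1a, t1b]
    ring
  · rw [hc]
    simp only [Matrix.cons_val]
    rw [e2, t2a, t2b]
    ring

end Dq
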