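import Pool.Agent.Lib.MP_f80667_ag.Dq.Adj

/-! The adjugate of the Gram matrix in the orthogonal basis. -/

namespace Dq

open ZC Tq Dp Matrix

variable {k : Type*} [Field k] {A B : Matrix (Fin 5) (Fin 5) k} {E : Type*} [Field E] [Algebra k E]

/-- **In the orthogonal basis.** The matrix `V * gm a b * Vᵀ` is diagonal with the entries
`2 mQ a b (v i)`; `Matrix.adjugate_diagonal`, `adjugate_mul_distrib` as in `adj_tb`. -/
theorem adj_dg {v : Fin 5 → Fin 5 → E} (hv : DG A B v) (a b : E) (h : Fin 5 → E) :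
    (Matrix.of v).det ^ 2 * (h ⬝ᵥ ((gm A B a b).adjugate *ᵥ h)) =
      ∑ i, (v i ⬝ᵥ h) ^ 2 * ∏ j ∈ Finset.univ.erase i, (2 * mQ A B a b (v j)) := by
  have hD : Matrix.of v * gm A B a b * (Matrix.of v)ᵀ =
      Matrix.diagonal fun i => 2 * mQ A B a b (v i) := by
    ext i j
    rw [Adj_entry]
    by_cases hij : i = j
    · subst hij
      rw [Matrix.diagonal_apply_eq, mB_self]
    · rw [Matrix.diagonal_apply_ne _ hij, mB, hv.oA i j hij, hv.oB i j hij]
      ring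
  rw [← Adj_basis, hD, Matrix.adjugate_diagonal]
  refine Finset.sum_congr rfl fun i _ => ?_
  rw [Matrix.mulVec_diagonal]
  change (v i ⬝ᵥ h) * (_ * (v i ⬝ᵥ h)) = _
  ring

/-- **The discriminant at a degenerate member.** For the member `c = (qv B (v i), - qv A (v i))`, which
vanishes at `v i`. Proof: `adj_tb`, `adj_dg` for `h = gm a' b' P`; in the sum only the term `i` remains,
`v i ⬝ h = mB a' b' (v i) P`. -/
theorem disc_dg {v : Fin 5 → Fin 5 → E} (hv : DG A B v) {P u₁ u₂ w₁ w₂ : Fin 5 → E}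
    (aP : qv A P = 0) (bP : qv B P = 0) (t1 : u₁ ∈ TP A B P) (t2 : u₂ ∈ TP A B P)
    (a1 : bv A P w₁ = 1) (b1 : bv B P w₁ = 0) (a2 : bv A P w₂ = 0) (b2 : bv B P w₂ = 1)
    (i : Fin 5) (a b a' b' : E) (ha : a = qv B (v i)) (hb : b = -qv A (v i)) :
    (Matrix.of ![P, u₁, u₂, w₁, w₂]).det ^ 2 * (mB A B a' b' (v i) P) ^ 2 *
        ∏ j ∈ Finset.univ.erase i, (2 * mQ A B a b (v j)) =
      (Matrix.of v).det ^ 2 * (b * a' - a * b') ^ 2 *
        (mB A B a b u₁ u₂ ^ 2 - 4 * mQ A B a b u₁ * mQ A B a b u₂) := by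
  have h1 := adj_tb aP bP t1 t2 a1 b1 a2 b2 a b a' b'
  have h2 := adj_dg hv a b (gm A B a' b' *ᵥ P)
  have h0 : mQ A B a b (v i) = 0 := by
    rw [mQ, ha, hb]
    ring
  rw [Finset.sum_eq_single i] at h2
  · rw [gm_mB] at h2
    rw [mul_assoc, ← h2, mul_assoc, ← h1]
    ring
  · intro l _ hl
    have h3 : ∏ j ∈ Finset.univ.erase l, (2 * mQ A B a b (v j)) = 0 := by
      refine Finset.prod_eq_zero (Finset.mem_erase.2 ⟨hl.symm, Finset.mem_univ i⟩) ?_
      rw [h0, mul_zero]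
    rw [h3, mul_zero]
  · intro h
    exact absurd (Finset.mem_univ i) h

end Dq
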