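import Mathlib

/-! The embeddings of a number field, grouped by places. -/

open Polynomial IntermediateField

namespace Dq

universe u

section aux

/-- The embedding of a simple extension given by a root. -/
theorem AtomK0_emb {F M L : Type*} [Field F] [Field M] [Algebra F M] [FiniteDimensional F M]
    [Field L] [Algebra F L] {α : M} (hα : F⟮α⟯ = ⊤) {β : L} (hβ : aeval β (minpoly F α) = 0) :
    ∃ s : M →ₐ[F] L, s α = β := by
  have hint : IsIntegral F α := Algebra.IsIntegral.isIntegral α
  have h0 : minpoly F α ≠ 0 := minpoly.ne_zero hint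
  let e : F⟮α⟯ ≃ₐ[F] M := (IntermediateField.equivOfEq hα).trans IntermediateField.topEquiv
  let σ : F⟮α⟯ →ₐ[F] L := (IntermediateField.algHomAdjoinIntegralEquiv F hint).symm
    ⟨β, by rw [Polynomial.mem_aroots]; exact ⟨h0, hβ⟩⟩
  have hσ : σ (AdjoinSimple.gen F α) = β :=
    IntermediateField.algHomAdjoinIntegralEquiv_symm_apply_gen F hint _
  have he : e (AdjoinSimple.gen F α) = α := rfl
  refine ⟨σ.comp (e.symm : M →ₐ[F] F⟮α⟯), ?_⟩
  have h1 : e.symm α = AdjoinSimple.gen F α := by
    rw [AlgEquiv.symm_apply_eq, he]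
  show σ (e.symm α) = β
  rw [h1, hσ]

/-- Two embeddings of a simple extension which agree at the generator are equal. -/
theorem AtomK0_ext {F M L : Type*} [Field F] [Field M] [Algebra F M] [Field L] [Algebra F L]
    {α : M} (hα : F⟮α⟯ = ⊤) {s t : M →ₐ[F] L} (h : s α = t α) : s = t := by
  have h1 : s.comp F⟮α⟯.val = t.comp F⟮α⟯.val := by
    refine IntermediateField.adjoin_algHom_ext F fun z hz' => ?_
    rw [Set.mem_singleton_iff] at hz'
    subst hz'
    exact h
  refine AlgHom.ext fun z => ?_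
  have hz : z ∈ F⟮α⟯ := by rw [hα]; trivial
  exact DFunLike.congr_fun h1 ⟨z, hz⟩

end aux

/-- The embeddings of a simple extension, grouped by the factors of the minimal polynomial. -/
theorem emb_decomp (F k Ω : Type u) [Field F] [CharZero F] [Field k] [Algebra F k] [Field Ω]
    [Algebra F Ω] [Algebra k Ω] [IsScalarTower F k Ω] [IsAlgClosure k Ω] (K : Type u) [Field K]
    [Algebra F K] [FiniteDimensional F K] :
    ∃ (m : ℕ) (M : Fin m → IntermediateField k Ω) (_ : ∀ j, FiniteDimensional k (M j))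
      (s : ∀ j, K →ₐ[F] M j), (∑ j, Module.finrank k (M j) = Module.finrank F K) ∧
      ∀ {G : Type u} [AddCommMonoid G] (f : (K →ₐ[F] Ω) → G),
        ∑ σ, f σ = ∑ j, ∑ τ : M j →ₐ[k] Ω, f (((τ.restrictScalars F).comp (s j))) := by
  classical
  have : Algebra.IsAlgebraic k Ω := IsAlgClosure.isAlgebraic
  have : IsAlgClosed Ω := IsAlgClosure.isAlgClosed k
  obtain ⟨α, hα⟩ := Field.exists_primitive_element F K
  have : CharZero k := charZero_of_injective_algebraMap (algebraMap F k).injective
  -- the classes of embeddings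
  let cl : (K →ₐ[F] Ω) → k[X] := fun σ => minpoly k (σ α)
  let Q : Finset k[X] := Finset.univ.image cl
  let e := Q.equivFin
  have hQ : ∀ j : Fin Q.card, ∃ σ : K →ₐ[F] Ω, cl σ = (e.symm j : k[X]) := by
    intro j
    have h1 := (e.symm j).2
    obtain ⟨σ, -, hσ⟩ := Finset.mem_image.1 h1
    exact ⟨σ, hσ⟩
  choose r hr using hQ
  have hfin : ∀ j, FiniteDimensional k k⟮r j α⟯ := fun j =>
    adjoin.finiteDimensional (Algebra.IsIntegral.isIntegral _)
  have hs : ∀ j, ∃ s : K →ₐ[F] k⟮r j α⟯, s α = AdjoinSimple.gen k (r j α) := by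
    intro j
    apply AtomK0_emb hα
    rw [← aeval_map_algebraMap k]
    apply (algebraMap k⟮r j α⟯ Ω).injective
    rw [map_zero, ← aeval_algebraMap_apply, AdjoinSimple.algebraMap_gen, aeval_map_algebraMap,
      aeval_algHom_apply, minpoly.aeval, map_zero]
  choose s hs using hs
  have hmp : ∀ (j : Fin Q.card) (τ : k⟮r j α⟯ →ₐ[k] Ω),
      minpoly k (τ (AdjoinSimple.gen k (r j α))) = minpoly k (r j α) := by
    intro j τ
    rw [minpoly.algHom_eq τ τ.toRingHom.injective]
    exact minpoly_gen k (r j α)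
  let Φ : (Σ j, (k⟮r j α⟯ →ₐ[k] Ω)) → (K →ₐ[F] Ω) :=
    fun p => (p.2.restrictScalars F).comp (s p.1)
  have hΦα : ∀ p, Φ p α = p.2 (AdjoinSimple.gen k (r p.1 α)) := by
    intro p
    show p.2 (s p.1 α) = _
    rw [hs]
  have hΦ : Function.Bijective Φ := by
    constructor
    · rintro ⟨i, τ⟩ ⟨j, τ'⟩ hij
      have h3 : τ (AdjoinSimple.gen k (r i α)) = τ' (AdjoinSimple.gen k (r j α)) := by
        have h2 := DFunLike.congr_fun hij α
        rwa [hΦα, hΦα] at h2
      have h4 : i = j := by
        apply e.symm.injective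
        apply Subtype.ext
        rw [← hr i, ← hr j]
        show minpoly k (r i α) = minpoly k (r j α)
        rw [← hmp i τ, ← hmp j τ', h3]
      subst h4
      have h5 : τ = τ' := by
        refine IntermediateField.adjoin_algHom_ext k fun z hz' => ?_
        rw [Set.mem_singleton_iff] at hz'
        subst hz'
        exact h3
      rw [h5]
    · intro σ
      have h1 : cl σ ∈ Q := Finset.mem_image_of_mem cl (Finset.mem_univ σ)
      let j := e ⟨cl σ, h1⟩
      have h2 : minpoly k (r j α) = minpoly k (σ α) := by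
        show cl (r j) = cl σ
        rw [hr j]
        show ((e.symm (e ⟨cl σ, h1⟩)) : k[X]) = cl σ
        rw [Equiv.symm_apply_apply]
      let τ : k⟮r j α⟯ →ₐ[k] Ω := (IntermediateField.algHomAdjoinIntegralEquiv k
        (Algebra.IsIntegral.isIntegral (r j α))).symm
        ⟨σ α, by
          rw [Polynomial.mem_aroots]
          exact ⟨minpoly.ne_zero (Algebra.IsIntegral.isIntegral _), by rw [h2, minpoly.aeval]⟩⟩
      refine ⟨⟨j, τ⟩, AtomK0_ext hα ?_⟩
      rw [hΦα]
      exact IntermediateField.algHomAdjoinIntegralEquiv_symm_apply_gen k _ _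
  refine ⟨Q.card, fun j => k⟮r j α⟯, hfin, s, ?_, ?_⟩
  · rw [← AlgHom.card F K Ω, ← Fintype.card_congr (Equiv.ofBijective Φ hΦ), Fintype.card_sigma]
    exact Finset.sum_congr rfl fun j _ => (AlgHom.card k k⟮r j α⟯ Ω).symm
  · intro G _ f
    rw [← hΦ.sum_comp f, Fintype.sum_sigma]

end Dq
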