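import Pool.Agent.Lib.MP_f80667_ag.Dq.RepM
import Pool.Agent.Lib.MP_f80667_ag.Dq.AtomK0

/-! A line over a number field gives a list of atoms over a completion. -/

open Polynomial IntermediateField
open scoped LinearAlgebra.Projectivization

namespace Dq

open ZC Tq Dp

universe u

variable {k : Type u} [Field k] [CharZero k] {Ω : Type u} [NormedField Ω] [Algebra k Ω]
  [IsAlgClosure k Ω] {n : ℕ}

/-- Proof: `emb_decomp` for `f σ = Ph (mapPt σ t)`; for every `j` the sum over `τ` is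
`PhL (trPt k Ω (mapPt (s j) t))`, and `mapPt (s j) t` is the tensor of a line on the member
`(s j a, s j b)` over `M j` (`IsM.hom`, `Lm_mat`: see `dat_class`), which is nondegenerate (`ND.hom`, for
the matrices mapped to `k`), so it is an atom by `atom_of`. -/
theorem atoms_of_line (h : Lc k Ω) (hn : 5 ≤ n) {F : Type u} [Field F] [CharZero F] [Algebra F k]
    [Algebra F Ω] [IsScalarTower F k Ω] {A B : Matrix (Fin n) (Fin n) F}
    (hs : Sm Ω (A.map (algebraMap F k)) (B.map (algebraMap F k))) {K : Type u} [Field K]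
    [Algebra F K] [FiniteDimensional F K] {a b : K} (hnd : ND A B a b)
    {t : ℙ K (Fin (n * n) → K)} (ht : IsM A B a b t) :
    ∃ l₀ : List (ℕ × (ℙ Ω (Fin n → Ω) →₀ ℤ)),
      (∀ c ∈ l₀, Atom (A.map (algebraMap F k)) (B.map (algebraMap F k)) c.1 c.2) ∧
      (l₀.map Prod.fst).sum = Module.finrank F K ∧
      (l₀.map Prod.snd).sum = ∑ σ : K →ₐ[F] Ω, Ph (mapPt (σ : K →+* Ω) t) := by
  classical
  obtain ⟨m, M, hfin, s, hdeg, hsum⟩ := emb_decomp F k Ω K
  refine ⟨List.ofFn fun j =>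
    (Module.finrank k (M j), PhL (trPt k Ω (mapPt (s j : K →+* M j) t))), ?_, ?_, ?_⟩
  · intro c hc
    rw [List.mem_ofFn] at hc
    obtain ⟨j, rfl⟩ := hc
    have hnd1 : ND (A.map (algebraMap F k)) (B.map (algebraMap F k)) (s j a) (s j b) :=
      ND_mat.2 ((ND.hom (s j)).2 hnd)
    obtain ⟨p, x, hL⟩ := ht.hom (s j)
    exact atom_of h hs hn hnd1 ⟨p, x, Lm_mat.2 hL⟩
  · rw [List.map_ofFn, List.sum_ofFn]
    exact hdeg
  · rw [List.map_ofFn, List.sum_ofFn, hsum]
    refine Finset.sum_congr rfl fun j _ => ?_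
    show PhL (trPt k Ω (mapPt (s j : K →+* M j) t)) = _
    rw [nearQ_sum]
    refine Finset.sum_congr rfl fun τ _ => ?_
    rw [mapPt_comp]
    rfl

end Dq
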