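import Pool.Agent.Lib.MP_f80667_ag.Dq.Iso

/-! Quadratic forms which vanish at most of the zeros of a quadratic form; squares on a hyperplane. -/

namespace Dq

open ZC Tq Dp

universe u

private theorem lemZ2_map {K : Type*} [Field K] {V : Type*} [AddCommGroup V] [Module K V]
    (F : QuadraticMap K V K) (a b : K) (x y z : V) :
    F (a • x + b • y + z) = a ^ 2 * F x + b ^ 2 * F y + F z + a * b * QuadraticMap.polar F x y +
      a * QuadraticMap.polar F x z + b * QuadraticMap.polar F y z := by
  rw [QuadraticMap.map_add F (a • x + b • y) z, QuadraticMap.map_add F (a • x) (b • y),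
    QuadraticMap.map_smul, QuadraticMap.map_smul, QuadraticMap.polar_add_left,
    QuadraticMap.polar_smul_left, QuadraticMap.polar_smul_left, QuadraticMap.polar_smul_left,
    QuadraticMap.polar_smul_right]
  simp only [smul_eq_mul]
  ring

private theorem lemZ2_poly {K : Type*} [Field K] [CharZero K] {c0 c1 c2 c3 c4 : K}
    (h : ∀ s : K, s ≠ 0 → c0 + c1 * s + c2 * s ^ 2 + c3 * s ^ 3 + c4 * s ^ 4 = 0) :
    c0 = 0 ∧ c1 = 0 ∧ c2 = 0 ∧ c3 = 0 ∧ c4 = 0 := by
  have h1 := h 1 one_ne_zero
  have h1' := h (-1) (neg_ne_zero.2 one_ne_zero)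
  have h2 := h 2 two_ne_zero
  have h2' := h (-2) (neg_ne_zero.2 two_ne_zero)
  have h3 := h 3 three_ne_zero
  have h3' := h (-3) (neg_ne_zero.2 three_ne_zero)
  have e4 : c4 = 0 := by
    have : (240 : K) * c4 = 0 := by linear_combination 3 * (h3 + h3') - 8 * (h2 + h2') + 5 * (h1 + h1')
    exact (mul_eq_zero.1 this).resolve_left (by norm_num)
  have e2 : c2 = 0 := by
    have : (6 : K) * c2 = 0 := by linear_combination (h2 + h2') - (h1 + h1') - 30 * e4
    exact (mul_eq_zero.1 this).resolve_left (by norm_num)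
  have e0 : c0 = 0 := by
    have : (2 : K) * c0 = 0 := by linear_combination (h1 + h1') - 2 * e4 - 2 * e2
    exact (mul_eq_zero.1 this).resolve_left (by norm_num)
  have e3 : c3 = 0 := by
    have : (12 : K) * c3 = 0 := by linear_combination (h2 - h2') - 2 * (h1 - h1')
    exact (mul_eq_zero.1 this).resolve_left (by norm_num)
  have e1 : c1 = 0 := by
    have : (2 : K) * c1 = 0 := by linear_combination (h1 - h1') - 2 * e3
    exact (mul_eq_zero.1 this).resolve_left (by norm_num)
  exact ⟨e0, e1, e2, e3, e4⟩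

/-- A quadratic form `F` on `U` which vanishes at all zeros `y` of `Q` in `U` with
`polar Q e y ≠ 0`, where `e`, `f` are zeros of `Q` in `U` with `polar Q e f ≠ 0`, is a multiple of `Q`,
if `Q` does not vanish on the orthogonal space of `e`, `f` in `U`. Proof: scale `f` such that
`polar Q e f = 1`. Let `z ∈ U` with `polar Q e z = polar Q f z = 0`. For `s ≠ 0` the vector
`w = s f - (Q z / s) e + z` is a zero of `Q` in `U` with `polar Q e w = s ≠ 0`, so
`0 = F w = s ^ 2 F f + (Q z / s) ^ 2 F e + F z - Q z polar F e f + s polar F f z - (Q z / s) polar F e z`.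
Multiply by `s ^ 2`: a polynomial of degree `4` in `s` with infinitely many zeros is zero (`K` is
infinite; or five values of `s`). So `F f = 0`, `polar F f z = 0`, `F z = Q z polar F e f`,
`Q z polar F e z = 0`, `Q z ^ 2 F e = 0`. With the given `z₀` (`Q z₀ ≠ 0`): `F e = 0`,
`polar F e z₀ = 0`; and for every `z` one of `z`, `z + z₀`, `z - z₀` has `Q ≠ 0` or
(`Q z = Q (z + z₀) = Q (z - z₀) = 0` gives `2 Q z₀ = 0`), so `polar F e z = 0` for all `z`. Every `u` of
`U` is `α e + β f + z`, `F u = α β polar F e f + F z = polar F e f * Q u`. -/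
theorem lemZ2 {K : Type*} [Field K] [CharZero K] {V : Type*} [AddCommGroup V] [Module K V]
    (U : Submodule K V) (Q F : QuadraticMap K V K) {e f z₀ : V} (he : e ∈ U) (hf : f ∈ U)
    (hz : z₀ ∈ U) (hQe : Q e = 0) (hQf : Q f = 0) (hef : QuadraticMap.polar Q e f ≠ 0)
    (hez : QuadraticMap.polar Q e z₀ = 0) (hfz : QuadraticMap.polar Q f z₀ = 0) (hQz : Q z₀ ≠ 0)
    (h : ∀ y ∈ U, Q y = 0 → QuadraticMap.polar Q e y ≠ 0 → F y = 0) :
    ∃ c : K, ∀ u ∈ U, F u = c * Q u := by
  set π : K := QuadraticMap.polar Q e f with hπ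
  obtain ⟨f', hf', hQf', hef', hfz'⟩ : ∃ f' ∈ U, Q f' = 0 ∧ QuadraticMap.polar Q e f' = 1 ∧
      QuadraticMap.polar Q f' z₀ = 0 := by
    refine ⟨π⁻¹ • f, U.smul_mem _ hf, ?_, ?_, ?_⟩
    · rw [QuadraticMap.map_smul, hQf, smul_zero]
    · rw [QuadraticMap.polar_smul_right, ← hπ, smul_eq_mul]
      exact inv_mul_cancel₀ hef
    · rw [QuadraticMap.polar_smul_left, hfz, smul_zero]
  have hee : QuadraticMap.polar Q e e = 0 := by
    rw [QuadraticMap.polar_self, hQe, smul_zero]
  have hff : QuadraticMap.polar Q f' f' = 0 := by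
    rw [QuadraticMap.polar_self, hQf', smul_zero]
  have hfe : QuadraticMap.polar Q f' e = 1 := by rw [QuadraticMap.polar_comm, hef']
  have key : ∀ z ∈ U, QuadraticMap.polar Q e z = 0 → QuadraticMap.polar Q f' z = 0 →
      Q z ^ 2 * F e = 0 ∧ -(Q z * QuadraticMap.polar F e z) = 0 ∧
      F z - Q z * QuadraticMap.polar F e f' = 0 ∧ QuadraticMap.polar F f' z = 0 ∧ F f' = 0 := by
    intro z hzU h1 h2
    refine lemZ2_poly fun s hs => ?_
    have hw : F ((-(Q z / s)) • e + s • f' + z) = 0 := by
      refine h _ (U.add_mem (U.add_mem (U.smul_mem _ he) (U.smul_mem _ hf')) hzU) ?_ ?_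
      · rw [lemZ2_map, hQe, hQf', hef', h1, h2]
        field_simp
        ring
      · rw [QuadraticMap.polar_add_right, QuadraticMap.polar_add_right,
          QuadraticMap.polar_smul_right, QuadraticMap.polar_smul_right, hee, hef', h1]
        simpa using hs
    rw [lemZ2_map] at hw
    have h3 : s ^ 2 * ((-(Q z / s)) ^ 2 * F e + s ^ 2 * F f' + F z +
        (-(Q z / s)) * s * QuadraticMap.polar F e f' + (-(Q z / s)) * QuadraticMap.polar F e z +
        s * QuadraticMap.polar F f' z) = Q z ^ 2 * F e + -(Q z * QuadraticMap.polar F e z) * s +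
        (F z - Q z * QuadraticMap.polar F e f') * s ^ 2 + QuadraticMap.polar F f' z * s ^ 3 +
        F f' * s ^ 4 := by
      field_simp
      ring
    rw [← h3, hw, mul_zero]
  obtain ⟨k0, k1, -, -, hFf⟩ := key z₀ hz hez hfz'
  have hFe : F e = 0 := (mul_eq_zero.1 k0).resolve_left (pow_ne_zero 2 hQz)
  have hFez₀ : QuadraticMap.polar F e z₀ = 0 :=
    (mul_eq_zero.1 (neg_eq_zero.1 k1)).resolve_left hQz
  have hFez : ∀ z ∈ U, QuadraticMap.polar Q e z = 0 → QuadraticMap.polar Q f' z = 0 →
      QuadraticMap.polar F e z = 0 := by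
    intro z hzU h1 h2
    by_cases hq : Q z = 0
    · have hgen : ∀ c : K, Q (z + c • z₀) ≠ 0 → QuadraticMap.polar F e z = 0 := by
        intro c hc
        have h3 := key (z + c • z₀) (U.add_mem hzU (U.smul_mem _ hz))
          (by rw [QuadraticMap.polar_add_right, QuadraticMap.polar_smul_right, h1, hez]; simp)
          (by rw [QuadraticMap.polar_add_right, QuadraticMap.polar_smul_right, h2, hfz']; simp)
        have h4 := (mul_eq_zero.1 (neg_eq_zero.1 h3.2.1)).resolve_left hc
        rw [QuadraticMap.polar_add_right, QuadraticMap.polar_smul_right, hFez₀, smul_zero,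
          add_zero] at h4
        exact h4
      by_cases hp : Q (z + (1 : K) • z₀) = 0
      · refine hgen (-1) fun h3 => ?_
        rw [QuadraticMap.map_add Q, QuadraticMap.map_smul, QuadraticMap.polar_smul_right] at h3 hp
        simp only [smul_eq_mul] at h3 hp
        have h4 : (2 : K) * Q z₀ = 0 := by linear_combination hp + h3 - 2 * hq
        exact hQz ((mul_eq_zero.1 h4).resolve_left two_ne_zero)
      · exact hgen 1 hp
    · exact (mul_eq_zero.1 (neg_eq_zero.1 (key z hzU h1 h2).2.1)).resolve_left hq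
  refine ⟨QuadraticMap.polar F e f', fun u hu => ?_⟩
  set a : K := QuadraticMap.polar Q f' u with ha
  set b : K := QuadraticMap.polar Q e u with hb
  obtain ⟨z, hzU, hu', hez', hfz''⟩ : ∃ z ∈ U, u = a • e + b • f' + z ∧
      QuadraticMap.polar Q e z = 0 ∧ QuadraticMap.polar Q f' z = 0 := by
    refine ⟨u + ((-a) • e + (-b) • f'), U.add_mem hu (U.add_mem (U.smul_mem _ he)
      (U.smul_mem _ hf')), ?_, ?_, ?_⟩
    · module
    · rw [QuadraticMap.polar_add_right, QuadraticMap.polar_add_right,
        QuadraticMap.polar_smul_right, QuadraticMap.polar_smul_right, hee, hef', ← hb]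
      simp
    · rw [QuadraticMap.polar_add_right, QuadraticMap.polar_add_right,
        QuadraticMap.polar_smul_right, QuadraticMap.polar_smul_right, hff, hfe, ← ha]
      simp
  obtain ⟨-, -, k2, k3, -⟩ := key z hzU hez' hfz''
  rw [hu', lemZ2_map, lemZ2_map, hFe, hFf, hQe, hQf', hef', hez', hfz'', k3,
    hFez z hzU hez' hfz'']
  linear_combination k2

variable {k : Type u} [Field k] [CharZero k] {Ω : Type u} [Field Ω] [Algebra k Ω] [IsAlgClosed Ω]
  {n : ℕ} {A B : Matrix (Fin n) (Fin n) k} {M : Type u} [Field M] [Algebra k M]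

/-- A member of the pencil does not agree with the square of a linear form on a hyperplane, for
`n ≥ 5`. Proof: let `N = U ∩ ker ℓ` (dimension at least `n - 2`), on which the member `m` and its polar
form vanish; for `y ∈ N`, `x ∈ U` the polar form is `2 ℓ x ℓ y = 0`, so the orthogonal space of `U` for
`m` contains `N`, and `finrank U + finrank (orthogonal of U) = n + finrank (U ⊓ radical) ≤ n + 1`
(`LinearMap.BilinForm.finrank_add_finrank_orthogonal` as in `iso_dim`, and `rad_one`), so
`(n - 1) + (n - 2) ≤ n + 1`, i.e. `n ≤ 4` (if `U` is the whole space: `rad_sub` for `U ∩ ker ℓ`). -/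
theorem no_sq5 (hs : Sm Ω A B) (σ : M →ₐ[k] Ω) (hn : 5 ≤ n) (U : Submodule M (Fin n → M))
    (hU : n ≤ Module.finrank M U + 1) {a b : M} (hab : a ≠ 0 ∨ b ≠ 0)
    (ℓ : (Fin n → M) →ₗ[M] M) : ∃ y ∈ U, mQ A B a b y ≠ ℓ y ^ 2 := by
  by_contra hcon
  push Not at hcon
  have h1 := LinearMap.finrank_range_add_finrank_ker (ℓ.domRestrict U)
  have h3 : Module.finrank M (LinearMap.range (ℓ.domRestrict U)) ≤ 1 := by
    have := Submodule.finrank_le (LinearMap.range (ℓ.domRestrict U))
    rwa [Module.finrank_self] at this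
  have h4 := Submodule.finrank_map_subtype_eq U (LinearMap.ker (ℓ.domRestrict U))
  have hrefl : (bvB A B a b).IsRefl := by
    intro x y h
    rw [bvB_apply] at h ⊢
    rw [bv_comm A y x, bv_comm B y x]
    exact h
  have hle : (LinearMap.ker (ℓ.domRestrict U)).map U.subtype ≤ (bvB A B a b).orthogonal U := by
    rintro y ⟨⟨z, hz⟩, hzk, rfl⟩
    have hz0 : ℓ z = 0 := hzk
    rw [LinearMap.BilinForm.mem_orthogonal_iff]
    intro x hx
    change bvB A B a b x z = 0
    rw [bvB_apply]
    have e1 := hcon x hx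
    have e2 := hcon z hz
    have e3 := hcon (x + z) (U.add_mem hx hz)
    rw [map_add] at e3
    rw [mQ] at e1 e2
    rw [mQ, qv_add, qv_add] at e3
    linear_combination e3 - e1 - e2 + 2 * ℓ x * hz0
  have h5 := Submodule.finrank_mono hle
  have h6 := LinearMap.BilinForm.finrank_add_finrank_orthogonal hrefl U
  have h7 := rad_one (two_ne_zero) hs σ hab U
  rw [Module.finrank_fin_fun] at h6
  omega

end Dq
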