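import Pool.Agent.Lib.MP_f80667_ag.Dq.Iso

/-!
One degenerate member of the pencil: its radical vector and the functional.
-/

namespace Dq

open ZC Tq Dp

universe u

/-- `r` is a radical vector of the member `c`, and `φ` the functional to which the polar forms of all
members at `r` are proportional. -/
structure Cn {k : Type u} [Field k] {Ω : Type u} [Field Ω] [Algebra k Ω] {n : ℕ}
    (A B : Matrix (Fin n) (Fin n) k) (c : Ω × Ω) (r : Fin n → Ω) (φ : (Fin n → Ω) →ₗ[Ω] Ω) :
    Prop where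
  c0 : c.1 ≠ 0 ∨ c.2 ≠ 0
  r0 : r ≠ 0
  hA : ∀ y, bv A r y = c.2 * φ y
  hB : ∀ y, bv B r y = -c.1 * φ y

variable {k : Type u} [Field k] {Ω : Type u} [Field Ω] [Algebra k Ω]
  {n : ℕ} {A B : Matrix (Fin n) (Fin n) k} {M : Type u} [Field M] [Algebra k M]

theorem exists_cn {c : Ω × Ω} (c0 : c.1 ≠ 0 ∨ c.2 ≠ 0) (h : ¬ ND A B c.1 c.2) :
    ∃ (r : Fin n → Ω) (φ : (Fin n → Ω) →ₗ[Ω] Ω), Cn A B c r φ := by
  rw [ND] at h
  push Not at h
  obtain ⟨r, hr0, hr⟩ := h
  by_cases h2 : c.2 = 0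
  · have h1 : c.1 ≠ 0 := c0.resolve_right (not_not.2 h2)
    refine ⟨r, (-c.1)⁻¹ • bvl B r, c0, hr0, fun y => ?_, fun y => ?_⟩
    · have h3 := hr y
      rw [mB, h2, zero_mul, add_zero] at h3
      rw [h2, zero_mul]
      exact (mul_eq_zero.1 h3).resolve_left h1
    · rw [LinearMap.smul_apply, smul_eq_mul, mul_inv_cancel_left₀ (neg_ne_zero.2 h1)]
      rfl
  · refine ⟨r, c.2⁻¹ • bvl A r, c0, hr0, fun y => ?_, fun y => ?_⟩
    · rw [LinearMap.smul_apply, smul_eq_mul, mul_inv_cancel_left₀ h2]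
      rfl
    · have h3 := hr y
      rw [mB] at h3
      have e : bvl A r y = bv A r y := rfl
      rw [LinearMap.smul_apply, smul_eq_mul, e]
      field_simp
      linear_combination h3

variable {c : Ω × Ω} {r : Fin n → Ω} {φ : (Fin n → Ω) →ₗ[Ω] Ω}

theorem Cn.mB (h : Cn A B c r φ) (a b : Ω) (y : Fin n → Ω) :
    mB A B a b r y = (a * c.2 - b * c.1) * φ y := by
  rw [Dp.mB, h.hA, h.hB]
  ring

theorem Cn.r_ne [IsAlgClosed Ω] (h2 : (2 : k) ≠ 0) (hs : Sm Ω A B) (h : Cn A B c r φ) :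
    φ r ≠ 0 := by
  have h2Ω : (2 : Ω) ≠ 0 := rad_two_ne h2
  intro h0
  have qA : qv A r = 0 := by
    have e := h.hA r
    rw [bv_self, h0, mul_zero] at e
    exact (mul_eq_zero.1 e).resolve_left h2Ω
  have qB : qv B r = 0 := by
    have e := h.hB r
    rw [bv_self, h0, mul_zero] at e
    exact (mul_eq_zero.1 e).resolve_left h2Ω
  have h3 := sm_pt hs (AlgHom.id k Ω) h.r0 qA qB (a := c.1) (b := c.2) (fun y => by
    rw [h.mB]
    ring)
  rcases h.c0 with h4 | h4
  · exact h4 h3.1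
  · exact h4 h3.2

theorem Cn.ne [IsAlgClosed Ω] (h2 : (2 : k) ≠ 0) (hs : Sm Ω A B) (h : Cn A B c r φ) : φ ≠ 0 := by
  rintro rfl
  exact h.r_ne h2 hs rfl

theorem Cn.sub [IsAlgClosed Ω] (h2 : (2 : k) ≠ 0) (hs : Sm Ω A B) (hn : 5 ≤ n)
    (h : Cn A B c r φ) {a b : Ω} (hab : a ≠ 0 ∨ b ≠ 0) (U : Submodule Ω (Fin n → Ω))
    (hU : U ≤ LinearMap.ker φ) (hd : n ≤ Module.finrank Ω U + 2) :
    ∃ y ∈ U, mQ A B a b y ≠ 0 := by
  by_contra hcon
  push Not at hcon
  have hr := h.r_ne h2 hs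
  have hrU : r ∉ U := fun h1 => hr (hU h1)
  have hrefl : (bvB A B a b).IsRefl := by
    intro x y h
    rw [bvB_apply] at h ⊢
    rw [bv_comm A y x, bv_comm B y x]
    exact h
  have hle : U ⊔ Submodule.span Ω {r} ≤ (bvB A B a b).orthogonal U := by
    refine sup_le (fun y hy => ?_) ?_
    · rw [LinearMap.BilinForm.mem_orthogonal_iff]
      intro x hx
      change bvB A B a b x y = 0
      rw [bvB_apply]
      have h1 := hcon x hx
      have h2 := hcon y hy
      have h3 := hcon (x + y) (U.add_mem hx hy)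
      rw [mQ] at h1 h2
      rw [mQ, qv_add, qv_add] at h3
      linear_combination h3 - h1 - h2
    · rw [Submodule.span_singleton_le_iff_mem, LinearMap.BilinForm.mem_orthogonal_iff]
      intro x hx
      change bvB A B a b x r = 0
      rw [bvB_apply, bv_comm A x r, bv_comm B x r]
      have h1 := h.mB a b x
      rw [Dp.mB] at h1
      have h3 : φ x = 0 := hU hx
      rw [h1, h3, mul_zero]
  have h3 : Module.finrank Ω U + 1 ≤ Module.finrank Ω (U ⊔ Submodule.span Ω {r} :
      Submodule Ω (Fin n → Ω)) := by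
    have h4 : U < U ⊔ Submodule.span Ω {r} := by
      refine lt_of_le_of_ne le_sup_left fun he => hrU ?_
      rw [he]
      exact Submodule.mem_sup_right (Submodule.mem_span_singleton_self r)
    exact Submodule.finrank_lt_finrank_of_lt h4
  have h4 := Submodule.finrank_mono hle
  have h5 := LinearMap.BilinForm.finrank_add_finrank_orthogonal hrefl U
  have h6 := rad_one h2 hs (AlgHom.id k Ω) hab U
  rw [Module.finrank_fin_fun] at h5
  omega

theorem nsa_mul {V : Type*} [AddCommGroup V] [Module Ω V] (f g : V →ₗ[Ω] Ω)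
    (h : ∀ y, f y = 0 → g y = 0) : ∃ c : Ω, ∀ y, g y = c * f y := by
  by_cases hf : ∃ z, f z ≠ 0
  · obtain ⟨z, hz⟩ := hf
    refine ⟨g z / f z, fun y => ?_⟩
    have h1 : f (f z • y - f y • z) = 0 := by
      rw [map_sub, map_smul, map_smul, smul_eq_mul, smul_eq_mul]
      ring
    have h2 := h _ h1
    rw [map_sub, map_smul, map_smul, smul_eq_mul, smul_eq_mul] at h2
    field_simp
    linear_combination h2
  · push Not at hf
    exact ⟨0, fun y => by rw [h y (hf y), zero_mul]⟩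

theorem Cn.pp [IsAlgClosed Ω] (h2 : (2 : k) ≠ 0) (hs : Sm Ω A B) (h : Cn A B c r φ) {a b : Ω}
    (hnd : ND A B a b) (p : Fin n → Ω) (hp : ∀ y, Dp.mB A B a b p y = 0 → φ y = 0) : φ p ≠ 0 := by
  obtain ⟨e, he⟩ := nsa_mul (mBl A B a b p) φ (fun y hy => hp y hy)
  intro h0
  have h1 : r - ((a * c.2 - b * c.1) * e) • p = 0 := by
    by_contra hne
    obtain ⟨y, hy⟩ := hnd _ hne
    apply hy
    have h3 : r - ((a * c.2 - b * c.1) * e) • p = r + (-((a * c.2 - b * c.1) * e)) • p := by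
      rw [neg_smul, sub_eq_add_neg]
    rw [h3, mB_add, mB_smul, h.mB]
    have h4 := he y
    rw [mBl_apply] at h4
    rw [h4]
    ring
  have h3 := h.r_ne h2 hs
  rw [sub_eq_zero.1 h1, map_smul, h0, smul_zero] at h3
  exact h3 rfl

theorem Cn.pt [IsAlgClosed Ω] (h2 : (2 : k) ≠ 0) (hs : Sm Ω A B) (h : Cn A B c r φ)
    (P : Fin n → Ω) {a b : Ω} (hab : a ≠ 0 ∨ b ≠ 0) (hT : ∀ u ∈ TP A B P, mQ A B a b u = 0)
    (r' : Fin n → Ω) (hr'0 : r' ≠ 0) (hr' : ∀ y, Dp.mB A B a b r' y = 0) :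
    φ P ≠ 0 ∨ φ r' ≠ 0 := by
  by_contra hcon
  push Not at hcon
  obtain ⟨h0, h1⟩ := hcon
  have hr := h.r_ne h2 hs
  have h3 : r ∈ TP A B P := by
    rw [mem_TP, bv_comm A P r, bv_comm B P r, h.hA, h.hB, h0]
    exact ⟨mul_zero _, mul_zero _⟩
  have h4 := hT r h3
  have h5 : (a * c.2 - b * c.1) * φ r = 0 := by
    rw [← h.mB, mB_self, h4, mul_zero]
  have h6 := (mul_eq_zero.1 h5).resolve_right hr
  have h7 : ∀ y, Dp.mB A B a b r y = 0 := fun y => by rw [h.mB, h6, zero_mul]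
  refine Dp.rad_le h2 hs (AlgHom.id k Ω) hab (u := r) (u' := r') ?_ h7 hr'
  rw [LinearIndependent.pair_iff]
  intro s t hst
  have h8 : s * φ r = 0 := by
    have h9 := congrArg φ hst
    rwa [map_add, map_smul, map_smul, h1, smul_zero, add_zero, map_zero] at h9
  have hs0 := (mul_eq_zero.1 h8).resolve_right hr
  refine ⟨hs0, ?_⟩
  rw [hs0, zero_smul, zero_add] at hst
  exact (smul_eq_zero.1 hst).resolve_right hr'0

/-- Linear independence is preserved by extension of the field. -/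
theorem nsa_ind (σ : M →ₐ[k] Ω) {ι : Type} [Fintype ι] {v : ι → Fin n → M}
    (hv : LinearIndependent M v) : LinearIndependent Ω (fun i => fun j => σ (v i j)) := by
  classical
  obtain ⟨g, hg⟩ := LinearMap.exists_leftInverse_of_injective (Fintype.linearCombination M v)
    (LinearMap.ker_eq_bot.2 hv.fintypeLinearCombination_injective)
  have h1 : ∀ i j, ∑ l, v i l * g (Pi.single l 1) j = (Pi.single i (1 : M) : ι → M) j := by
    intro i j
    have h2 := LinearMap.congr_fun hg (Pi.single i 1)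
    rw [LinearMap.comp_apply, Fintype.linearCombination_apply_single, one_smul,
      LinearMap.id_apply] at h2
    rw [← h2]
    have h3 : v i = ∑ l, v i l • (Pi.single l (1 : M) : Fin n → M) := by
      funext m
      rw [Finset.sum_apply]
      simp [Pi.single_apply]
    conv_rhs => rw [h3, map_sum, Finset.sum_apply]
    refine Finset.sum_congr rfl fun l _ => ?_
    rw [map_smul, Pi.smul_apply, smul_eq_mul]
  rw [Fintype.linearIndependent_iff]
  intro w hw j
  have h2 : ∀ l, ∑ i, w i * σ (v i l) = 0 := by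
    intro l
    have h3 := congrFun hw l
    rw [Finset.sum_apply] at h3
    exact h3
  have h3 : ∑ l, (∑ i, w i * σ (v i l)) * σ (g (Pi.single l 1) j) = w j := by
    simp only [Finset.sum_mul]
    rw [Finset.sum_comm]
    have h4 : ∀ i, ∑ l, w i * σ (v i l) * σ (g (Pi.single l 1) j) =
        w i * σ ((Pi.single i (1 : M) : ι → M) j) := by
      intro i
      rw [← h1, map_sum, Finset.mul_sum]
      refine Finset.sum_congr rfl fun l _ => ?_
      rw [map_mul, mul_assoc]
    simp only [h4]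
    rw [Finset.sum_eq_single j]
    · rw [Pi.single_eq_same, map_one, mul_one]
    · intro i _ hij
      rw [Pi.single_eq_of_ne (Ne.symm hij), map_zero, mul_zero]
    · intro hj
      exact absurd (Finset.mem_univ j) hj
  rw [← h3]
  refine Finset.sum_eq_zero fun l _ => ?_
  rw [h2, zero_mul]

theorem nsa_prop {a b : Ω} (hab : a ≠ 0 ∨ b ≠ 0) {c : Ω × Ω} (c0 : c.1 ≠ 0 ∨ c.2 ≠ 0)
    (h : a * c.2 - b * c.1 = 0) : ∃ l : Ω, l ≠ 0 ∧ a = l * c.1 ∧ b = l * c.2 := by
  rcases c0 with h1 | h1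
  · have e1 : a = a / c.1 * c.1 := (div_mul_cancel₀ a h1).symm
    have e2 : b = a / c.1 * c.2 := by
      field_simp
      linear_combination -h
    refine ⟨a / c.1, fun h0 => ?_, e1, e2⟩
    rw [h0, zero_mul] at e1 e2
    exact hab.elim (fun h3 => h3 e1) (fun h3 => h3 e2)
  · have e1 : b = b / c.2 * c.2 := (div_mul_cancel₀ b h1).symm
    have e2 : a = b / c.2 * c.1 := by
      field_simp
      linear_combination h
    refine ⟨b / c.2, fun h0 => ?_, e2, e1⟩
    rw [h0, zero_mul] at e1 e2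
    exact hab.elim (fun h3 => h3 e2) (fun h3 => h3 e1)

/-- The member vanishes on the extension of the tangent space. -/
theorem nsa_ext [IsAlgClosed Ω] (h2 : (2 : k) ≠ 0) (hs : Sm Ω A B) (σ : M →ₐ[k] Ω)
    {P : Fin n → M} (hP : P ≠ 0) (aP : qv A P = 0) (bP : qv B P = 0) {a b : M}
    (h : ∀ u ∈ TP A B P, mQ A B a b u = 0) :
    ∃ T : Submodule Ω (Fin n → Ω), n ≤ Module.finrank Ω T + 2 ∧
      (∀ y ∈ T, mQ A B (σ a) (σ b) y = 0) ∧ T ≤ TP A B (fun i => σ (P i)) := by
  have h2Ω : (2 : Ω) ≠ 0 := rad_two_ne h2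
  set S : Set (Fin n → Ω) := {x | ∃ u ∈ TP A B P, x = fun i => σ (u i)} with hS
  refine ⟨Submodule.span Ω S, ?_, ?_, ?_⟩
  · have hr := TP_rank hs σ hP aP bP
    let b := Module.finBasis M (TP A B P)
    have hb : LinearIndependent M (fun i => (b i : Fin n → M)) :=
      b.linearIndependent.map' (Submodule.subtype _) (Submodule.ker_subtype _)
    have h3 := finrank_span_eq_card (nsa_ind σ hb)
    rw [Fintype.card_fin] at h3
    have h4 : Submodule.span Ω (Set.range fun i => fun j => σ ((b i : Fin n → M) j)) ≤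
        Submodule.span Ω S := by
      refine Submodule.span_mono ?_
      rintro _ ⟨i, rfl⟩
      exact ⟨(b i : Fin n → M), (b i).2, rfl⟩
    have h5 := Submodule.finrank_mono h4
    rw [h3] at h5
    omega
  · have h3 : ∀ u ∈ TP A B P, ∀ u' ∈ TP A B P, Dp.mB A B a b u u' = 0 := by
      intro u hu u' hu'
      have h4 := h _ ((TP A B P).add_mem hu hu')
      rw [mQ_add, h u hu, h u' hu'] at h4
      linear_combination h4
    have h4 : ∀ x ∈ S, Submodule.span Ω S ≤ LinearMap.ker (mBl A B (σ a) (σ b) x) := by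
      rintro x ⟨u, hu, rfl⟩
      rw [Submodule.span_le]
      rintro y ⟨u', hu', rfl⟩
      show Dp.mB A B (σ a) (σ b) _ _ = 0
      rw [mB_hom, h3 u hu u' hu', map_zero]
    have h5 : ∀ y ∈ Submodule.span Ω S,
        Submodule.span Ω S ≤ LinearMap.ker (mBl A B (σ a) (σ b) y) := by
      intro y hy
      rw [Submodule.span_le]
      intro x hx
      show Dp.mB A B (σ a) (σ b) y x = 0
      rw [mB_comm]
      exact h4 x hx hy
    intro y hy
    have h6 : Dp.mB A B (σ a) (σ b) y y = 0 := h5 y hy hy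
    rw [mB_self] at h6
    exact (mul_eq_zero.1 h6).resolve_left h2Ω
  · rw [Submodule.span_le]
    rintro x ⟨u, hu, rfl⟩
    obtain ⟨h3, h4⟩ := mem_TP.1 hu
    refine mem_TP.2 ⟨?_, ?_⟩
    · rw [bv_hom, h3, map_zero]
    · rw [bv_hom, h4, map_zero]

end Dq
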