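import Pool.Agent.Lib.MP_f80667_ag.Dq.Iso
import Pool.Agent.Lib.MP_f80667_ag.Dq.NSa

/-!
Points at which no member of the pencil vanishes on the tangent space (for six and more variables:
all points of `X`), and a finite family of functionals which detects them.
-/

namespace Dq

open ZC Tq Dp

universe u

section defs

variable {k : Type*} [Field k] {n : ℕ} (A B : Matrix (Fin n) (Fin n) k) {M : Type*} [Field M]
  [Algebra k M]

/-- No member of the pencil vanishes on the tangent space at `P`. -/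
def NS (P : Fin n → M) : Prop :=
  ∀ a b : M, a ≠ 0 ∨ b ≠ 0 → ∃ u ∈ TP A B P, mQ A B a b u ≠ 0

end defs

/-- A finite family of functionals over the algebraically closed field `Ω`, such that the points of
`X` at which none of them vanishes satisfy `NS`, and no member vanishes on a subspace of codimension
`2` which is contained in the kernel of one of the functionals. -/
structure NF {k : Type u} [Field k] {Ω : Type u} [Field Ω] [Algebra k Ω] {n : ℕ}
    (A B : Matrix (Fin n) (Fin n) k) {ι : Type} (φ : ι → (Fin n → Ω) →ₗ[Ω] Ω) : Prop where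
  ne : ∀ i, φ i ≠ 0
  sub : ∀ i (a b : Ω), a ≠ 0 ∨ b ≠ 0 → ∀ U : Submodule Ω (Fin n → Ω), U ≤ LinearMap.ker (φ i) →
    n ≤ Module.finrank Ω U + 2 → ∃ y ∈ U, mQ A B a b y ≠ 0
  ns : ∀ (M : Type u) [Field M] [Algebra k M] (σ : M →ₐ[k] Ω) (P : Fin n → M), P ≠ 0 →
    Zer (Pl A B) M P → (∀ i, φ i (fun j => σ (P j)) ≠ 0) → NS A B P
  pt : ∀ i (P : Fin n → Ω), P ≠ 0 → Zer (Pl A B) Ω P → ∀ a b : Ω, a ≠ 0 ∨ b ≠ 0 →
    (∀ u ∈ TP A B P, mQ A B a b u = 0) → ∀ r : Fin n → Ω, r ≠ 0 → (∀ y, mB A B a b r y = 0) →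
    φ i P ≠ 0 ∨ φ i r ≠ 0
  pp : ∀ i (a b : Ω), ND A B a b → ∀ p : Fin n → Ω,
    (∀ y, mB A B a b p y = 0 → φ i y = 0) → φ i p ≠ 0

variable {k : Type u} [Field k] {Ω : Type u} [Field Ω] [Algebra k Ω] [IsAlgClosed Ω]
  {n : ℕ} {A B : Matrix (Fin n) (Fin n) k} {M : Type u} [Field M] [Algebra k M]

/-- Proof: `no_sub`, `TP_rank`. -/
theorem ns_six (h2 : (2 : k) ≠ 0) (hs : Sm Ω A B) (σ : M →ₐ[k] Ω) (hn : 6 ≤ n) {P : Fin n → M}
    (hP : P ≠ 0) (aP : qv A P = 0) (bP : qv B P = 0) : NS A B P := by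
  intro a b hab
  have h := TP_rank hs σ hP aP bP
  exact Dp.no_sub h2 hs σ hn (TP A B P) (by omega) hab

/-- Two tangent vectors for which the values of the two forms are independent. Proof: `NS` for
`(1, 0)` gives `u₁` with `qv A u₁ ≠ 0`, and `NS` for `(qv B u₁, - qv A u₁)` gives `u₂`. -/
theorem NS.two {P : Fin n → M} (h : NS A B P) : ∃ u₁ ∈ TP A B P, ∃ u₂ ∈ TP A B P,
    qv B u₁ * qv A u₂ - qv A u₁ * qv B u₂ ≠ 0 := by
  obtain ⟨u₁, hu₁, h1⟩ := h 1 0 (Or.inl one_ne_zero)
  have h1' : qv A u₁ ≠ 0 := by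
    intro h0
    apply h1
    rw [mQ, h0, mul_zero, zero_mul, add_zero]
  obtain ⟨u₂, hu₂, h3⟩ := h (qv B u₁) (-qv A u₁) (Or.inr (neg_ne_zero.2 h1'))
  refine ⟨u₁, hu₁, u₂, hu₂, fun h0 => h3 ?_⟩
  rw [mQ]
  linear_combination h0

/-- **The family.** Let `s` be the set of `fin_sing` (the degenerate members over `Ω` up to factors
are among the `c ∈ s`); the index set is the set of `c ∈ s` which are degenerate; `r c ≠ 0` a radical
vector of `c`, `H c = A` if `c.2 ≠ 0` and `H c = B` otherwise, so that `c` and `H c` are independent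
members, and `φ c = bv (H c) (r c)`. All members `(a, b)` satisfy `mB a b (r c) y = e * φ c y` for a
constant `e`, which is `0` only for the multiples of `c`. In particular `φ c (r c) = 2 qv (H c) (r c)`
is not zero: otherwise `r c` is a point of `X` in the radical of `c` (`sm_pt`). This gives `ne`.

`sub`: let the member `m = (a, b)` vanish on `U ≤ ker (φ c)`, of codimension `≤ 2`. If `m` is
nondegenerate: `nd_sub`. Otherwise let `w` be a radical vector of `m`; `w ∈ U` by `rad_mem`. If `m` is a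
multiple of `c` then `r c ∈ U` by `rad_mem`, but `φ c (r c) ≠ 0`. Otherwise `mB m (r c) y = e * φ c y`
with `e ≠ 0`; the space `U + span (r c)` has dimension `finrank U + 1 ≥ n - 1 ≥ 4` (`r c ∉ U`); the
orthogonal space of `U` for `m` contains `U` and `r c`, so it has dimension `≥ finrank U + 1`, and
`finrank U + finrank (orthogonal) = n + finrank (U ⊓ radical) ≤ n + 1`
(`LinearMap.BilinForm.finrank_add_finrank_orthogonal`, see `iso_dim`, `rad_one`), so
`2 finrank U + 1 ≤ n + 1`, i.e. `2 (n - 2) ≤ n`, a contradiction for `n ≥ 5`.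

`ns`: suppose `(a, b) ≠ 0` over `M` and the member vanishes on `TP A B P`. The span `T` over `Ω` of the
`σ u`, `u ∈ TP A B P`, is `TP A B (σ P)` (the dimension of both is `n - 2`: `TP_rank` over `M` and
over `Ω`; or use only that its finrank is at least `n - 2`, since `σ` of a basis is independent), and
the member `(σ a, σ b)` vanishes on it (`mQ` and the polar form vanish on the generators:
`Submodule.span_induction` for `mB A B (σ a) (σ b)` in both arguments). It is degenerate by `nd_sub`, so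
proportional to some `c ∈ s` by `fin_sing`, `c` is degenerate, and `r c ∈ T` by `rad_mem`, so
`bv (H c) (r c) (σ P) = 0`, against `φ c (σ P) ≠ 0`.

`pt`: let `m = (a, b)` vanish on `TP A B P`, `r` a radical vector of `m`, and suppose `φ c P = 0`. Since
`bv c (r c) P = 0` too, `r c ∈ TP A B P` (`c`, `H c` independent), so `mQ m (r c) = 0`. If `m` is not a
multiple of `c` then `r c` is on `X` (both `m` and `c` vanish), and in the radical of `c`: `sm_pt`. So
`m` is a multiple of `c`, so `r` is a multiple of `r c` (`rad_le`), and `φ c r ≠ 0`.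

`pp`: `φ c` vanishes on the kernel of `mB a b p`, so `φ c = e₁ mB a b p` (`Dp.fl_mul`), `e₁ ≠ 0`
(`ne`); and `mB a b (r c) = e φ c` with `e ≠ 0` (`(a, b)` is nondegenerate, so not a multiple of `c`).
So `mB a b (r c - e e₁ p) = 0`, `r c = e e₁ p` (`ND`), and `φ c (r c) ≠ 0` gives `φ c p ≠ 0`. -/
theorem exists_NF (h2 : (2 : k) ≠ 0) [CharZero k] (hs : Sm Ω A B) (hn : 5 ≤ n) :
    ∃ (m : ℕ) (φ : Fin m → (Fin n → Ω) →ₗ[Ω] Ω), NF A B φ := by
  classical
  obtain ⟨s, hs0, hsN⟩ := fin_sing (A := A) (B := B) hs (by omega)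
  set T : Finset (Ω × Ω) := s.filter (fun c => ¬ ND A B c.1 c.2) with hT
  have hex : ∀ c : T, ∃ (r : Fin n → Ω) (φ : (Fin n → Ω) →ₗ[Ω] Ω), Cn A B c.1 r φ := by
    rintro ⟨c, hc⟩
    obtain ⟨hc1, hc2⟩ := Finset.mem_filter.1 hc
    exact exists_cn (hs0 c hc1) hc2
  choose r φ hφ using hex
  refine ⟨T.card, fun i => φ (T.equivFin.symm i), ?_, ?_, ?_, ?_, ?_⟩
  · intro i
    exact (hφ _).ne h2 hs
  · intro i a b hab U hU hd
    exact (hφ _).sub h2 hs hn hab U hU hd
  · intro M _ _ σ P hP hz hall a b hab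
    by_contra hcon
    push Not at hcon
    obtain ⟨aP, bP⟩ := (zer_iff A B).1 hz
    obtain ⟨V, hV1, hV2, hV3⟩ := nsa_ext h2 hs σ hP aP bP hcon
    have hab' : σ a ≠ 0 ∨ σ b ≠ 0 := by
      rcases hab with h3 | h3
      · exact Or.inl ((map_ne_zero σ).2 h3)
      · exact Or.inr ((map_ne_zero σ).2 h3)
    have hnd : ¬ ND A B (σ a) (σ b) := by
      intro h3
      obtain ⟨y, hy, hy0⟩ := nd_sub hn h3 V hV1
      exact hy0 (hV2 y hy)
    have hc : ∃ c ∈ s, σ a * c.2 - σ b * c.1 = 0 := by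
      by_contra h3
      push Not at h3
      exact hnd (hsN _ _ h3)
    obtain ⟨c, hcs, hc0⟩ := hc
    obtain ⟨l, hl, e1, e2⟩ := nsa_prop hab' (hs0 c hcs) hc0
    have hcT : c ∈ T := by
      refine Finset.mem_filter.2 ⟨hcs, fun h3 => hnd ?_⟩
      rw [e1, e2]
      exact (ND.scale hl).2 h3
    have hC := hφ ⟨c, hcT⟩
    have hr : r ⟨c, hcT⟩ ∈ V := by
      refine rad_mem h2 hs (AlgHom.id k Ω) hn hab' V hV1 hV2 fun y => ?_
      rw [hC.mB, hc0, zero_mul]
    have h3 := mem_TP.1 (hV3 hr)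
    rw [bv_comm A _ (r ⟨c, hcT⟩), bv_comm B _ (r ⟨c, hcT⟩), hC.hA, hC.hB] at h3
    have h4 := hall (T.equivFin ⟨c, hcT⟩)
    rw [Equiv.symm_apply_apply] at h4
    rcases hs0 c hcs with h5 | h5
    · exact h4 ((mul_eq_zero.1 h3.2).resolve_left (neg_ne_zero.2 h5))
    · exact h4 ((mul_eq_zero.1 h3.1).resolve_left h5)
  · intro i P _ _ a b hab hT r' hr'0 hr'
    exact (hφ _).pt h2 hs P hab hT r' hr'0 hr'
  · intro i a b hnd p hp
    exact (hφ _).pp h2 hs hnd p hp

end Dq
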