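import Pool.Agent.Lib.MP_f80667_ag.Dq.LineA
import Pool.Agent.Lib.MP_f80667_ag.Dq.LineS0
import Pool.Agent.Lib.MP_f80667_ag.Dq.NS
import Pool.Agent.Lib.MP_f80667_ag.Dp.Wf

/-! Lines on a member which meet `X` in two different points, both with `NS`. -/

open scoped LinearAlgebra.Projectivization

namespace Dq

open ZC Tq Dp

universe u

section pm

variable {Ω : Type*} [Field Ω] {n : ℕ}

/-- Polynomial functions. -/
def PM (f : (Fin n → Ω) → Ω) : Prop :=
  ∃ G : MvPolynomial (Fin n) Ω, ∀ z, MvPolynomial.eval z G = f z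

theorem PM.const (c : Ω) : PM (fun _ : Fin n → Ω => c) :=
  ⟨MvPolynomial.C c, fun z => by rw [MvPolynomial.eval_C]⟩

theorem PM.coord (i : Fin n) : PM (fun z : Fin n → Ω => z i) :=
  ⟨MvPolynomial.X i, fun z => by rw [MvPolynomial.eval_X]⟩

theorem PM.add {f g : (Fin n → Ω) → Ω} (hf : PM f) (hg : PM g) : PM (fun z => f z + g z) := by
  obtain ⟨F, hF⟩ := hf
  obtain ⟨G, hG⟩ := hg
  exact ⟨F + G, fun z => by rw [map_add, hF, hG]⟩

theorem PM.mul {f g : (Fin n → Ω) → Ω} (hf : PM f) (hg : PM g) : PM (fun z => f z * g z) := by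
  obtain ⟨F, hF⟩ := hf
  obtain ⟨G, hG⟩ := hg
  exact ⟨F * G, fun z => by rw [map_mul, hF, hG]⟩

theorem PM.sub {f g : (Fin n → Ω) → Ω} (hf : PM f) (hg : PM g) : PM (fun z => f z - g z) := by
  obtain ⟨F, hF⟩ := hf
  obtain ⟨G, hG⟩ := hg
  exact ⟨F - G, fun z => by rw [map_sub, hF, hG]⟩

theorem PM.pow {f : (Fin n → Ω) → Ω} (hf : PM f) (m : ℕ) : PM (fun z => f z ^ m) := by
  obtain ⟨F, hF⟩ := hf
  exact ⟨F ^ m, fun z => by rw [map_pow, hF]⟩

theorem PM.sum {ι : Type*} (s : Finset ι) {f : ι → (Fin n → Ω) → Ω} (hf : ∀ i, PM (f i)) :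
    PM (fun z => ∑ i ∈ s, f i z) := by
  choose F hF using hf
  exact ⟨∑ i ∈ s, F i, fun z => by
    rw [map_sum]
    exact Finset.sum_congr rfl fun i _ => hF i z⟩

theorem PM.qv {k : Type*} [Field k] [Algebra k Ω] (H : Matrix (Fin n) (Fin n) k)
    {f : (Fin n → Ω) → Fin n → Ω} (hf : ∀ i, PM (fun z => f z i)) :
    PM (fun z => ZC.qv H (f z)) := by
  unfold ZC.qv
  exact PM.sum _ fun i => PM.sum _ fun j => (PM.const _).mul ((hf i).mul (hf j))

theorem PM.bv {k : Type*} [Field k] [Algebra k Ω] (H : Matrix (Fin n) (Fin n) k)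
    {f g : (Fin n → Ω) → Fin n → Ω} (hf : ∀ i, PM (fun z => f z i))
    (hg : ∀ i, PM (fun z => g z i)) : PM (fun z => ZC.bv H (f z) (g z)) := by
  unfold ZC.bv
  exact PM.sum _ fun i => PM.sum _ fun j =>
    (PM.const _).mul (((hf i).mul (hg j)).add ((hg i).mul (hf j)))

theorem PM.fnl (φ : (Fin n → Ω) →ₗ[Ω] Ω) {f : (Fin n → Ω) → Fin n → Ω}
    (hf : ∀ i, PM (fun z => f z i)) : PM (fun z => φ (f z)) := by
  have h : (fun z => φ (f z)) = fun z => ∑ i, f z i * φ (Pi.single i 1) := by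
    funext z
    conv_lhs => rw [LinearMap.pi_apply_eq_sum_univ φ (f z)]
    refine Finset.sum_congr rfl fun j _ => ?_
    rw [smul_eq_mul]
    congr 2
    funext i
    rw [Pi.single_apply]
    by_cases h : i = j
    · rw [if_pos h, if_pos h.symm]
    · rw [if_neg h, if_neg (Ne.symm h)]
  rw [h]
  exact PM.sum _ fun i => (hf i).mul (PM.const _)

/-- Finitely many nonzero polynomial functions have a common nonzero over an infinite subfield. -/
theorem PM.exists_ne {M : Type*} [Field M] [Infinite M] (σ : M →+* Ω) {ι : Type*} [Finite ι]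
    (f : ι → (Fin n → Ω) → Ω) (hf : ∀ i, PM (f i)) (h : ∀ i, ∃ z, f i z ≠ 0) :
    ∃ z : Fin n → M, ∀ i, f i (fun j => σ (z j)) ≠ 0 := by
  have := Fintype.ofFinite ι
  choose F hF using hf
  obtain ⟨z, hz⟩ := exists_eval_ne σ (∏ i, F i) (Finset.prod_ne_zero_iff.2 fun i _ h0 => by
    obtain ⟨z, hz⟩ := h i
    apply hz
    rw [← hF, h0, map_zero])
  refine ⟨z, fun i => ?_⟩
  rw [map_prod, Finset.prod_ne_zero_iff] at hz
  rw [← hF]
  exact hz i (Finset.mem_univ i)

end pm

section px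

variable {k : Type u} [Field k] {n : ℕ} {A B : Matrix (Fin n) (Fin n) k} {Ω : Type u} [Field Ω]
  [Algebra k Ω]

theorem PM.px (a b : Ω) (P u w : Fin n → Ω) (i : Fin n) :
    PM (fun z => px A B a b u (pg A B a b P w z) i) := by
  have hz : ∀ i, PM (fun z : Fin n → Ω => z i) := PM.coord
  have hc : ∀ (v : Fin n → Ω) (i : Fin n), PM (fun _ : Fin n → Ω => v i) := fun v i => PM.const _
  have h1 : PM (fun z : Fin n → Ω => mB A B a b P z) :=
    ((PM.const a).mul (PM.bv A (hc P) hz)).add ((PM.const b).mul (PM.bv B (hc P) hz))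
  have hg : ∀ i, PM (fun z : Fin n → Ω => pg A B a b P w z i) := fun i =>
    ((PM.const (mB A B a b P w)).mul (hz i)).sub (h1.mul (PM.const (w i)))
  have h2 : PM (fun z : Fin n → Ω => mB A B a b u (pg A B a b P w z)) :=
    ((PM.const a).mul (PM.bv A (hc u) hg)).add ((PM.const b).mul (PM.bv B (hc u) hg))
  have h3 : PM (fun z : Fin n → Ω => mQ A B a b (pg A B a b P w z)) :=
    ((PM.const a).mul (PM.qv A hg)).add ((PM.const b).mul (PM.qv B hg))
  exact (h2.mul (hg i)).sub (h3.mul (PM.const (u i)))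

theorem ls_hom {R S : Type*} [CommRing R] [Algebra k R] [CommRing S] [Algebra k S] (f : R →ₐ[k] S)
    (a b : R) (P u w z : Fin n → R) :
    px A B (f a) (f b) (fun i => f (u i)) (pg A B (f a) (f b) (fun i => f (P i))
      (fun i => f (w i)) (fun i => f (z i))) = fun i => f (px A B a b u (pg A B a b P w z) i) := by
  have hpg : pg A B (f a) (f b) (fun i => f (P i)) (fun i => f (w i)) (fun i => f (z i)) =
      fun i => f (pg A B a b P w z i) := by
    funext i
    simp only [pg, mB_hom, Pi.sub_apply, Pi.smul_apply, smul_eq_mul, map_sub, map_mul]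
  rw [hpg]
  funext i
  simp only [Dp.px, mB_hom, mQ_hom, Pi.sub_apply, Pi.smul_apply, smul_eq_mul, map_sub, map_mul]

/-- A form which does not vanish at `P` is independent from a member which vanishes at `P`. -/
theorem ls_coef {H : Matrix (Fin n) (Fin n) k} {a b : Ω} (hab : a ≠ 0 ∨ b ≠ 0) {P : Fin n → Ω}
    (hq : mQ A B a b P = 0) (hH : H = A ∨ H = B) (hHP : qv H P ≠ 0) : ∃ c d : Ω,
    (∀ s e : Ω, s ≠ 0 → s * c + e * a ≠ 0 ∨ s * d + e * b ≠ 0) ∧
    ∀ y : Fin n → Ω, qv H y = mQ A B c d y := by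
  have hq : a * qv A P + b * qv B P = 0 := hq
  rcases hH with rfl | rfl
  · refine ⟨1, 0, fun s e hs => ?_, fun y => by rw [mQ]; ring⟩
    have hb : b ≠ 0 := by
      rintro rfl
      rw [zero_mul, add_zero] at hq
      rcases hab with h5 | h5
      · exact (mul_ne_zero h5 hHP) hq
      · exact h5 rfl
    by_cases he : e = 0
    · left
      rw [he, zero_mul, add_zero, mul_one]
      exact hs
    · right
      rw [mul_zero, zero_add]
      exact mul_ne_zero he hb
  · refine ⟨0, 1, fun s e hs => ?_, fun y => by rw [mQ]; ring⟩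
    have ha : a ≠ 0 := by
      rintro rfl
      rw [zero_mul, zero_add] at hq
      rcases hab with h5 | h5
      · exact h5 rfl
      · exact (mul_ne_zero h5 hHP) hq
    by_cases he : e = 0
    · right
      rw [he, zero_mul, add_zero, mul_one]
      exact hs
    · left
      rw [mul_zero, zero_add]
      exact mul_ne_zero he ha

/-- There is a vector orthogonal to `P`, `u`, `f` which is not a zero of the member. -/
theorem ls_z0 (hn : 5 ≤ n) {a b : Ω} (hnd : ND A B a b) {P u f : Fin n → Ω}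
    (hu : mQ A B a b u = 0) (hfu : mB A B a b f u ≠ 0) : ∃ z : Fin n → Ω,
    mB A B a b P z = 0 ∧ mB A B a b u z = 0 ∧ mB A B a b f z = 0 ∧ mQ A B a b z ≠ 0 := by
  obtain ⟨T, hT⟩ : ∃ T : (Fin n → Ω) →ₗ[Ω] (Fin 3 → Ω), ∀ z, T z =
      ![mB A B a b P z, mB A B a b u z, mB A B a b f z] := by
    refine ⟨LinearMap.pi ![mBl A B a b P, mBl A B a b u, mBl A B a b f], fun z => ?_⟩
    funext i
    fin_cases i
    · rfl
    · rfl
    · rfl
  have h1 := LinearMap.finrank_range_add_finrank_ker T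
  have h2 : Module.finrank Ω (LinearMap.range T) ≤ 3 := by
    refine (Submodule.finrank_le _).trans ?_
    rw [Module.finrank_fin_fun]
  rw [Module.finrank_fin_fun] at h1
  have hk : ∀ z ∈ LinearMap.ker T, mB A B a b P z = 0 ∧ mB A B a b u z = 0 ∧
      mB A B a b f z = 0 := by
    intro z hz
    rw [LinearMap.mem_ker, hT] at hz
    exact ⟨congrFun hz 0, congrFun hz 1, congrFun hz 2⟩
  have h3 : Module.finrank Ω (LinearMap.ker T) + 1 ≤
      Module.finrank Ω (LinearMap.ker T ⊔ Submodule.span Ω {u} : Submodule Ω (Fin n → Ω)) := by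
    have h4 : LinearMap.ker T < LinearMap.ker T ⊔ Submodule.span Ω {u} := by
      refine lt_of_le_of_ne le_sup_left fun he => hfu ?_
      have h5 : u ∈ LinearMap.ker T := by
        rw [he]
        exact Submodule.mem_sup_right (Submodule.mem_span_singleton_self u)
      exact (hk u h5).2.2
    exact Submodule.finrank_lt_finrank_of_lt h4
  obtain ⟨y, hy, hy0⟩ := nd_sub hn hnd (LinearMap.ker T ⊔ Submodule.span Ω {u}) (by omega)
  obtain ⟨z, hz, v, hv, rfl⟩ := Submodule.mem_sup.1 hy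
  obtain ⟨c, rfl⟩ := Submodule.mem_span_singleton.1 hv
  obtain ⟨e1, e2, e3⟩ := hk z hz
  refine ⟨z, e1, e2, e3, fun h0 => hy0 ?_⟩
  rw [mQ_add, mQ_smul, hu, h0, mB_smul_right, mB_comm, e2]
  ring

/-- If a quadratic form is not a multiple of the member on the orthogonal space of `P` then it does
not vanish at all points of the parametrised family. -/
theorem ls_exists [CharZero Ω] (hn : 5 ≤ n) {a b : Ω} (hnd : ND A B a b) {P u w : Fin n → Ω}
    (hi : LinearIndependent Ω ![P, u]) (hu : mQ A B a b u = 0)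
    (hPu : mB A B a b P u = 0) (hw : mB A B a b P w ≠ 0) (F : QuadraticMap Ω (Fin n → Ω) Ω)
    (hF : ∀ c : Ω, ∃ y, mB A B a b P y = 0 ∧ F y ≠ c * mQ A B a b y) :
    ∃ z, F (px A B a b u (pg A B a b P w z)) ≠ 0 := by
  by_contra hcon
  push Not at hcon
  obtain ⟨g, hg, hug⟩ := lna_g hnd hi
  have hg : mB A B a b P g = 0 := hg
  obtain ⟨f, hf⟩ : ∃ f, f = g + (-(mQ A B a b g / mB A B a b u g)) • u := ⟨_, rfl⟩
  have hPf : mB A B a b P f = 0 := by
    rw [hf, mB_add_right, mB_smul_right, hg, hPu]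
    ring
  have hQf : mQ A B a b f = 0 := by
    rw [hf, mQ_add, mQ_smul, mB_smul_right, hu, mB_comm a b g u]
    field_simp
    ring
  have huf : mB A B a b u f ≠ 0 := by
    rw [hf, mB_add_right, mB_smul_right, mB_self, hu]
    simpa using hug
  obtain ⟨z₀, h1, h2, h3, h4⟩ := ls_z0 (P := P) hn hnd hu (f := f)
    (by rwa [mB_comm])
  obtain ⟨c, hc⟩ := lemZ2 (LinearMap.ker (mBl A B a b P)) (mqf A B a b) F (e := u) (f := f)
    (z₀ := z₀) hPu hPf h1 hu hQf (by rwa [mqf_polar]) (by rwa [mqf_polar]) (by rwa [mqf_polar]) h4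
    (by
      intro y hy hQy huy
      have hy : mB A B a b P y = 0 := hy
      rw [mqf_apply] at hQy
      rw [mqf_polar] at huy
      have e1 := hcon y
      have e2 : px A B a b u y = mB A B a b u y • y := by
        rw [Dp.px, hQy, zero_smul, sub_zero]
      rw [pg_of_perp hy, px_smul, e2, QuadraticMap.map_smul, QuadraticMap.map_smul, smul_eq_mul,
        smul_eq_mul] at e1
      have e3 := (mul_eq_zero.1 e1).resolve_left (mul_self_ne_zero.2 (pow_ne_zero _ hw))
      exact (mul_eq_zero.1 e3).resolve_left (mul_self_ne_zero.2 huy))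
  obtain ⟨y, hy, hFy⟩ := hF c
  exact hFy (hc y hy)

end px

section claims

variable {k : Type u} [Field k] [CharZero k] {Ω : Type u} [Field Ω] [Algebra k Ω] [IsAlgClosed Ω]
  {n : ℕ} {A B : Matrix (Fin n) (Fin n) k}

/-- The form `F₀` is not a multiple of the member on the orthogonal space of `P`. -/
theorem ls_zero (hs : Sm Ω A B) (hn : 5 ≤ n) {a b : Ω} (hab : a ≠ 0 ∨ b ≠ 0) {P : Fin n → Ω}
    (hq : mQ A B a b P = 0) {H : Matrix (Fin n) (Fin n) k} (hH : H = A ∨ H = B)
    (hHP : qv H P ≠ 0) (e : Ω) : ∃ y, mB A B a b P y = 0 ∧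
      bv H P y ^ 2 - 4 * qv H P * qv H y ≠ e * mQ A B a b y := by
  have : CharZero Ω := charZero_of_injective_algebraMap (algebraMap k Ω).injective
  obtain ⟨c, d, hcd, hHm⟩ := ls_coef hab hq hH hHP
  obtain ⟨y, hy, hy'⟩ := no_sq5 hs (AlgHom.id k Ω) hn (LinearMap.ker (mBl A B a b P))
    (lna_rank (A := A) (B := B) a b P)
    (hcd (4 * qv H P) e (mul_ne_zero (by norm_num) hHP)) (bvl H P)
  refine ⟨y, hy, fun h3 => hy' ?_⟩
  have e1 : bvl H P y = bv H P y := rfl
  have h6 : qv H y = c * qv A y + d * qv B y := hHm y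
  rw [mQ] at h3
  rw [mQ, e1]
  linear_combination -(4 * qv H P) * h6 - h3

/-- The forms `F i` are not multiples of the member on the orthogonal space of `P`. -/
theorem ls_fam (hs : Sm Ω A B) (hn : 5 ≤ n) {a b : Ω} (hab : a ≠ 0 ∨ b ≠ 0) (hnd : ND A B a b)
    {P : Fin n → Ω} (hq : mQ A B a b P = 0) {H : Matrix (Fin n) (Fin n) k} (hH : H = A ∨ H = B)
    (hHP : qv H P ≠ 0) {ι : Type} {φ : ι → (Fin n → Ω) →ₗ[Ω] Ω} (hφ : NF A B φ) (i : ι) (e : Ω) :
    ∃ y, mB A B a b P y = 0 ∧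
      φ i y ^ 2 * qv H P - φ i y * φ i P * bv H P y + φ i P ^ 2 * qv H y ≠
        e * mQ A B a b y := by
  obtain ⟨c, d, hcd, hHm⟩ := ls_coef hab hq hH hHP
  by_cases hi : φ i P = 0
  · by_cases he : e = 0
    · by_contra hcon
      push Not at hcon
      refine hφ.pp i a b hnd P (fun y hy => ?_) hi
      have h1 := hcon y hy
      rw [hi, he] at h1
      have h2 : φ i y ^ 2 * qv H P = 0 := by linear_combination h1
      exact pow_eq_zero_iff (two_ne_zero) |>.1 ((mul_eq_zero.1 h2).resolve_right hHP)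
    · have hne : e / qv H P ≠ 0 := div_ne_zero he hHP
      obtain ⟨y, hy, hy'⟩ := no_sq5 (a := e / qv H P * a) (b := e / qv H P * b) hs
        (AlgHom.id k Ω) hn (LinearMap.ker (mBl A B a b P)) (lna_rank (A := A) (B := B) a b P)
        (hab.imp (mul_ne_zero hne) (mul_ne_zero hne)) (φ i)
      refine ⟨y, hy, fun h3 => hy' ?_⟩
      rw [hi] at h3
      rw [mQ_scale, div_mul_eq_mul_div, div_eq_iff hHP]
      linear_combination -h3
  · have h1 := LinearMap.finrank_range_add_finrank_ker ((mBl A B a b P).prod (φ i))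
    have h2 : Module.finrank Ω (LinearMap.range ((mBl A B a b P).prod (φ i))) ≤ 2 := by
      refine (Submodule.finrank_le _).trans ?_
      rw [Module.finrank_prod, Module.finrank_self]
    rw [Module.finrank_fin_fun] at h1
    have hk : ∀ z ∈ LinearMap.ker ((mBl A B a b P).prod (φ i)), mB A B a b P z = 0 ∧
        φ i z = 0 := by
      intro z hz
      rw [LinearMap.mem_ker] at hz
      have e1 : (mB A B a b P z, φ i z) = (0, 0) := hz
      simp only [Prod.mk.injEq] at e1
      exact e1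
    obtain ⟨y, hy, hy'⟩ := hφ.sub i _ _ (hcd (φ i P ^ 2) (-e) (pow_ne_zero _ hi))
      (LinearMap.ker ((mBl A B a b P).prod (φ i))) (fun z hz => (hk z hz).2) (by omega)
    refine ⟨y, (hk y hy).1, fun h3 => hy' ?_⟩
    have h6 : qv H y = c * qv A y + d * qv B y := hHm y
    rw [(hk y hy).2, mQ] at h3
    rw [mQ]
    linear_combination h3 - φ i P ^ 2 * h6

end claims

variable {k : Type u} [Field k] [CharZero k] {Ω : Type u} [Field Ω] [Algebra k Ω] [IsAlgClosed Ω]
  {n : ℕ} {A B : Matrix (Fin n) (Fin n) k} {M : Type u} [Field M] [Algebra k M]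

/-- **Split lines.** Proof. Let `Lm a b p u t` with `p` not on `X` (`Lm.exists_np`), `H` with
`qv H p ≠ 0` (`H` and `q = (a, b)` are independent members since `mQ a b p = 0`). Everything in the
following is over `Ω` (via `σ`; `ND.hom`). Let `U` be the orthogonal space of `p` for `q`, of dimension
`≥ n - 1` (`lna_rank`), and consider the quadratic forms
`F₀ y = bv H p y ^ 2 - 4 qv H p qv H y` and
`F i y = φ i y ^ 2 qv H p - φ i y φ i p bv H p y + φ i p ^ 2 qv H y` (`= qv H (φ i y p - φ i p y)`).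
Claim: none of them is a multiple `c Q` of `Q = mQ q` on `U`. (0) `F₀ = c Q`: the member
`4 qv H p H + c q` is the square of `bv H p` on `U`, against `no_sq5`. (i) If `φ i p ≠ 0`: the member
`φ i p ^ 2 H - c q` vanishes on `U ∩ ker φ i`, of dimension `≥ n - 2`, against `NF.sub` (for
`U ∩ ker φ i`). If `φ i p = 0` and `c ≠ 0`: `qv H p φ i ^ 2 = c Q` on `U`, against `no_sq5` (take a
square root of `qv H p / c` in `Ω`). If `φ i p = 0`, `c = 0`: `φ i`
vanishes on `U`, so `φ i p ≠ 0` by `NF.pp`, a contradiction. By `lemZ2` (for `e = u`,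
`f = (g - (Q g / polar Q u g) u)` for `g ∈ U` with `mB a b u g ≠ 0`, `lna_g`, and `z₀` in the
orthogonal space of `p`, `u`, `f` with `Q z₀ ≠ 0`: this space has dimension `≥ n - 3 ≥ 2` and contains
`p`; if `Q` vanishes on it then `p`, `u`, and a further vector span a totally isotropic space of
dimension `3`; use `nd_sub` for the sum of the orthogonal space and `u`, of dimension `≥ n - 2`) there is
for each of the forms `F` a zero `y ∈ U` of `Q` (over `Ω`) with `mB u y ≠ 0`, `F y ≠ 0`, and `y` is up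
to the factor `mB u y` the vector `px A B a b u y`. So the polynomials `F (px A B a b u (pg A B a b p w z))`
in `z` (`w` over `M` with `mB a b p w ≠ 0`, `pg_of_perp`, `px_smul`) are not zero; choose `z` over `M` at
which none of them vanishes (`exists_eval_ne` for the product, or `PL.exists_ne` for `E = M`,
`R = Ω`), and `x = px A B a b u (pg A B a b p w z)` (`px_zero`, `px_perp`). `p`, `x` are independent since
`F₀ p = 0`, `F₀ x ≠ 0` (`lna_ind`). -/
theorem exists_split (hs : Sm Ω A B) (σ : M →ₐ[k] Ω) (hn : 5 ≤ n) {a b : M} (hnd : ND A B a b)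
    {t : ℙ M (Fin (n * n) → M)} (h : IsM A B a b t) {ι : Type} [Finite ι]
    {φ : ι → (Fin n → Ω) →ₗ[Ω] Ω} (hφ : NF A B φ) :
    ∃ (p x : Fin n → M) (t' : ℙ M (Fin (n * n) → M)) (H : Matrix (Fin n) (Fin n) k),
      Lm A B a b p x t' ∧ (H = A ∨ H = B) ∧ qv H p ≠ 0 ∧
      bv H p x ^ 2 - 4 * qv H p * qv H x ≠ 0 ∧
      ∀ i, φ i (fun j => σ (x j)) ^ 2 * σ (qv H p) -
        φ i (fun j => σ (x j)) * φ i (fun j => σ (p j)) * σ (bv H p x) +
        φ i (fun j => σ (p j)) ^ 2 * σ (qv H x) ≠ 0 := by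
  have : CharZero M := charZero_of_injective_algebraMap (algebraMap k M).injective
  have : CharZero Ω := charZero_of_injective_algebraMap (algebraMap k Ω).injective
  obtain ⟨p₀, x₀, h₀⟩ := h
  obtain ⟨p, u, hL, hpn, -⟩ := h₀.exists_np
  have hp0 : p ≠ 0 := hL.ind.ne_zero 0
  have hab : a ≠ 0 ∨ b ≠ 0 := by
    obtain ⟨y, hy⟩ := hnd p hp0
    by_contra hcon
    push Not at hcon
    apply hy
    rw [mB, hcon.1, hcon.2]
    ring
  obtain ⟨H, hH, hHp⟩ : ∃ H, (H = A ∨ H = B) ∧ qv H p ≠ 0 := by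
    by_contra hcon
    push Not at hcon
    exact hpn ((zer_iff A B).2 ⟨hcon A (Or.inl rfl), hcon B (Or.inr rfl)⟩)
  obtain ⟨w, hw⟩ := hnd p hp0
  -- over `Ω`
  obtain ⟨P, hP⟩ : ∃ P : Fin n → Ω, P = fun j => σ (p j) := ⟨_, rfl⟩
  obtain ⟨v, hv⟩ : ∃ v : Fin n → Ω, v = fun j => σ (u j) := ⟨_, rfl⟩
  obtain ⟨ω, hω⟩ : ∃ ω : Fin n → Ω, ω = fun j => σ (w j) := ⟨_, rfl⟩
  have hab' : σ a ≠ 0 ∨ σ b ≠ 0 :=
    hab.imp (fun h => (map_ne_zero σ).2 h) (fun h => (map_ne_zero σ).2 h)
  have hnd' : ND A B (σ a) (σ b) := (ND.hom σ).2 hnd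
  have hq' : mQ A B (σ a) (σ b) P = 0 := by rw [hP, mQ_hom, hL.qp, map_zero]
  have hqv' : mQ A B (σ a) (σ b) v = 0 := by rw [hv, mQ_hom, hL.qx, map_zero]
  have hPv : mB A B (σ a) (σ b) P v = 0 := by rw [hP, hv, mB_hom, hL.b, map_zero]
  have hHP : qv H P = σ (qv H p) := by rw [hP, qv_hom]
  have hHP0 : qv H P ≠ 0 := by
    rw [hHP]
    exact (map_ne_zero σ).2 hHp
  have hw' : mB A B (σ a) (σ b) P ω ≠ 0 := by
    rw [hP, hω, mB_hom]
    exact (map_ne_zero σ).2 hw
  have hi : LinearIndependent Ω ![P, v] := by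
    obtain ⟨i, j, hij⟩ := exists_minor hL.ind
    refine ind_of_minor (i := i) (j := j) ?_
    intro h2
    apply hij
    apply (σ : M →+* Ω).injective
    rw [hP, hv] at h2
    simpa using h2
  obtain ⟨c, d, -, hHm⟩ := ls_coef hab' hq' hH hHP0
  -- the forms
  obtain ⟨F₀, hF₀⟩ : ∃ F : QuadraticMap Ω (Fin n → Ω) Ω, ∀ y, F y =
      bv H P y ^ 2 - 4 * qv H P * qv H y := by
    refine ⟨QuadraticMap.linMulLin (bvl H P) (bvl H P) - (4 * qv H P) • mqf A B c d,
      fun y => ?_⟩
    have e1 : bvl H P y = bv H P y := rfl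
    rw [sub_apply, QuadraticMap.linMulLin_apply, smul_apply, mqf_apply,
      ← hHm, e1, smul_eq_mul]
    ring
  obtain ⟨F, hF⟩ : ∃ F : ι → QuadraticMap Ω (Fin n → Ω) Ω, ∀ i y, F i y =
      φ i y ^ 2 * qv H P - φ i y * φ i P * bv H P y + φ i P ^ 2 * qv H y := by
    refine ⟨fun i => qv H P • QuadraticMap.linMulLin (φ i) (φ i) -
      φ i P • QuadraticMap.linMulLin (φ i) (bvl H P) + (φ i P ^ 2) • mqf A B c d,
      fun i y => ?_⟩
    have e1 : bvl H P y = bv H P y := rfl
    rw [add_apply, sub_apply, smul_apply,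
      smul_apply, smul_apply, QuadraticMap.linMulLin_apply,
      QuadraticMap.linMulLin_apply, mqf_apply, ← hHm, e1]
    simp only [smul_eq_mul]
    ring
  obtain ⟨X, hX⟩ : ∃ X : (Fin n → Ω) → Fin n → Ω, X = fun z => px A B (σ a) (σ b) v
    (pg A B (σ a) (σ b) P ω z) := ⟨_, rfl⟩
  have hXp : ∀ j, PM (fun z => X z j) := by
    rw [hX]
    exact fun j => PM.px (σ a) (σ b) P v ω j
  obtain ⟨z, hz⟩ := PM.exists_ne (σ : M →+* Ω) (fun (o : Option ι) (z : Fin n → Ω) =>
      o.elim (F₀ (X z)) (fun i => F i (X z))) (by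
    have hb : PM (fun z => bv H P (X z)) := PM.bv H (fun j => PM.const _) hXp
    have hqq : PM (fun z => qv H (X z)) := PM.qv H hXp
    rintro (_ | i)
    · simp only [Option.elim, hF₀]
      exact (hb.pow 2).sub ((PM.const _).mul hqq)
    · simp only [Option.elim, hF]
      have hf : PM (fun z => φ i (X z)) := PM.fnl (φ i) hXp
      exact (((hf.pow 2).mul (PM.const _)).sub ((hf.mul (PM.const _)).mul hb)).add
        ((PM.const _).mul hqq)) (by
    rintro (_ | i)
    · simp only [Option.elim, hX]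
      refine ls_exists hn hnd' hi hqv' hPv hw' F₀ fun e => ?_
      simp only [hF₀]
      exact ls_zero hs hn hab' hq' hH hHP0 e
    · simp only [Option.elim, hX]
      refine ls_exists hn hnd' hi hqv' hPv hw' (F i) fun e => ?_
      simp only [hF]
      exact ls_fam hs hn hab' hnd' hq' hH hHP0 hφ i e)
  obtain ⟨x, hx⟩ : ∃ x, x = px A B a b u (pg A B a b p w z) := ⟨_, rfl⟩
  have hXz : X (fun j => (σ : M →+* Ω) (z j)) = fun j => σ (x j) := by
    rw [hX, hx, hP, hv, hω]
    exact ls_hom σ a b p u w z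
  have hbx : bv H P (fun j => σ (x j)) = σ (bv H p x) := by rw [hP, bv_hom]
  have hqx : qv H (fun j => σ (x j)) = σ (qv H x) := by rw [qv_hom]
  have h0 := hz none
  have hs' := fun i => hz (some i)
  simp only [Option.elim, hXz, hF₀, hF] at h0 hs'
  have hne : bv H p x ^ 2 - 4 * qv H p * qv H x ≠ 0 := by
    intro h1
    apply h0
    rw [hbx, hqx, hHP]
    have h2 := congrArg σ h1
    rwa [map_sub, map_mul, map_mul, map_pow, map_zero, map_ofNat] at h2
  have hpx : LinearIndependent M ![p, x] := by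
    obtain ⟨c', d', -, hHm'⟩ := ls_coef hab hL.qp hH hHp
    refine lna_ind hp0 (QuadraticMap.linMulLin (bvl H p) (bvl H p) - (4 * qv H p) • mqf A B c' d')
      ?_ ?_
    · have e1 : bvl H p p = bv H p p := rfl
      rw [sub_apply, QuadraticMap.linMulLin_apply, smul_apply, mqf_apply,
        ← hHm', e1, smul_eq_mul, bv_self]
      ring
    · have e1 : bvl H p x = bv H p x := rfl
      rw [sub_apply, QuadraticMap.linMulLin_apply, smul_apply, mqf_apply,
        ← hHm', e1, smul_eq_mul]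
      intro h1
      apply hne
      linear_combination h1
  refine ⟨p, x, Projectivization.mk M (tn H p x) (tn_ne_zero hpx hHp), H,
    ⟨hpx, hL.qp, ?_, ?_, H, hH, tn_ne_zero hpx hHp, rfl⟩, hH, hHp, hne, fun i => ?_⟩
  · rw [hx]
    exact px_zero hL.qx _
  · rw [hx]
    exact px_perp hL.b (pg_perp _ _ _ _ _)
  · have h1 := hs' i
    rw [hbx, hqx, hHP] at h1
    rw [hP] at h1
    exact h1

end Dq
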