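import Pool.Agent.Lib.MP_f80667_ag.Dq.SpPt

/-! Good tangent vectors. -/

namespace Dq

open ZC Tq Dp

universe u

variable {k : Type u} [Field k] [CharZero k] {Ω : Type u} [Field Ω] [Algebra k Ω] [IsAlgClosed Ω]
  {n : ℕ} {A B : Matrix (Fin n) (Fin n) k} {M : Type u} [Field M] [Algebra k M]

/-- **Good tangent vectors.** For a point `P` of `X` and a finite set of members there is a tangent
vector `u` at `P` such that the member through the tangent line is nondegenerate and not in the finite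
set, and `u` is not orthogonal to the tangent space for this member. Proof: the conditions are that
finitely many polynomial functions on `TP A B P` do not vanish (`PL.exists_ne` for `V = TP A B P`,
`R = Ω`): (1) `c.1 * σ (qv A u) + c.2 * σ (qv B u)` for `c` in the finite set and in the set of
`fin_sing` (which contains the condition that `u` is not on `X`, add `(1, 0)` to be safe): not zero by
`no_sub` over `Ω` (for the span of `σ (TP)`, or the functions are not zero on `TP A B P` since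
otherwise, with `c.1`, `c.2` over `Ω`, the two forms on `TP A B P` are proportional over `M` or one of
them is zero, against `no_sub` over `M`). (2) for some `g ∈ TP A B P` the function
`qv B u * bv A u g - qv A u * bv B u g`: let `u₁`, `u₂ ∈ TP A B P` with
`qv A u₁ * qv B u₂ ≠ qv A u₂ * qv B u₁` (the forms are not proportional on `TP A B P`, `no_sub`), and
`g = u₂`: the difference of the values at `u₁ + u₂` and `u₁ - u₂` is
`± 4 (qv A u₁ qv B u₂ - qv A u₂ qv B u₁)`. -/
theorem exists_u (hs : Sm Ω A B) (σ : M →ₐ[k] Ω) (hn : 5 ≤ n) {P : Fin n → M} (hP : P ≠ 0)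
    (zP : Zer (Pl A B) M P) (hN : NS A B P) (s : Finset (Ω × Ω)) (h0 : ∀ c ∈ s, c.1 ≠ 0 ∨ c.2 ≠ 0) :
    ∃ u g : Fin n → M, Tg A B (qv B u) (-qv A u) P u ∧ ND A B (qv B u) (-qv A u) ∧
      g ∈ TP A B P ∧ mB A B (qv B u) (-qv A u) u g ≠ 0 ∧
      ∀ c ∈ s, c.1 * σ (qv A u) + c.2 * σ (qv B u) ≠ 0 := by
  classical
  obtain ⟨aP, bP⟩ := (zer_iff A B).1 zP
  haveI : CharZero M := charZero_of_injective_algebraMap (algebraMap k M).injective
  obtain ⟨u₁, hu₁, u₂, hu₂, hD⟩ := hN.two
  obtain ⟨s1, hs1, hs1'⟩ := fin_sing hs (by omega : 1 ≤ n)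
  letI : Algebra M Ω := (σ : M →+* Ω).toAlgebra
  have hσ : ∀ m : M, algebraMap M Ω m = σ m := fun _ => rfl
  -- the coordinates are polynomial functions
  have hco : ∀ i : Fin n, PL M (fun v : TP A B P => σ ((v : Fin n → M) i)) := fun i =>
    PL.lin ((Algebra.linearMap M Ω).comp ((LinearMap.proj i).comp (TP A B P).subtype))
  have hqv : ∀ H : Matrix (Fin n) (Fin n) k,
      PL M (fun v : TP A B P => σ (qv H (v : Fin n → M))) := by
    intro H
    have h1 := PL.qv (R := Ω) H hco
    have h2 : (fun v : TP A B P => σ (qv H (v : Fin n → M))) =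
        fun v : TP A B P => ZC.qv H (fun i => σ ((v : Fin n → M) i)) := by
      funext v
      exact (qv_hom σ _).symm
    rw [h2]
    exact h1
  have hbv : ∀ H : Matrix (Fin n) (Fin n) k,
      PL M (fun v : TP A B P => σ (bv H (v : Fin n → M) u₂)) := by
    intro H
    have h1 := PL.bv (R := Ω) H hco (fun i => PL.const (E := M) (V := TP A B P) (σ (u₂ i)))
    have h2 : (fun v : TP A B P => σ (bv H (v : Fin n → M) u₂)) =
        fun v : TP A B P => ZC.bv H (fun i => σ ((v : Fin n → M) i)) (fun i => σ (u₂ i)) := by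
      funext v
      exact (bv_hom σ _ _).symm
    rw [h2]
    exact h1
  -- the functions
  let f : Option {c : Ω × Ω // c ∈ s ∪ s1 ∪ {(1, 0)}} → TP A B P → Ω := fun o v =>
    o.elim (σ (qv B (v : Fin n → M)) * σ (bv A (v : Fin n → M) u₂) -
        σ (qv A (v : Fin n → M)) * σ (bv B (v : Fin n → M) u₂))
      (fun c => (c : Ω × Ω).1 * σ (qv A (v : Fin n → M)) +
        (c : Ω × Ω).2 * σ (qv B (v : Fin n → M)))
  obtain ⟨x, hx⟩ := PL.exists_ne (E := M) f (by
    rintro (_ | c)
    · exact ((hqv B).mul (hbv A)).sub ((hqv A).mul (hbv B))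
    · exact ((PL.const _).mul (hqv A)).add ((PL.const _).mul (hqv B))) (by
    rintro (_ | c)
    · by_contra hcon
      push Not at hcon
      have e1 := hcon (⟨u₁, hu₁⟩ + ⟨u₂, hu₂⟩)
      have e2 := hcon (⟨u₁, hu₁⟩ + (-1 : M) • ⟨u₂, hu₂⟩)
      change σ (qv B (u₁ + u₂)) * σ (bv A (u₁ + u₂) u₂) -
        σ (qv A (u₁ + u₂)) * σ (bv B (u₁ + u₂) u₂) = 0 at e1
      change σ (qv B (u₁ + (-1 : M) • u₂)) * σ (bv A (u₁ + (-1 : M) • u₂) u₂) -
        σ (qv A (u₁ + (-1 : M) • u₂)) * σ (bv B (u₁ + (-1 : M) • u₂) u₂) = 0 at e2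
      rw [← map_mul, ← map_mul, ← map_sub, map_eq_zero] at e1 e2
      simp only [qv_add, bv_add, qv_smul, bv_smul, bv_smul_right, bv_self] at e1 e2
      have e3 : 4 * (qv B u₁ * qv A u₂ - qv A u₁ * qv B u₂) = 0 := by
        linear_combination e1 - e2
      exact hD ((mul_eq_zero.1 e3).resolve_left (by norm_num))
    · by_contra hcon
      push Not at hcon
      have e1 := hcon ⟨u₁, hu₁⟩
      have e2 := hcon ⟨u₂, hu₂⟩
      change (c : Ω × Ω).1 * σ (qv A u₁) + (c : Ω × Ω).2 * σ (qv B u₁) = 0 at e1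
      change (c : Ω × Ω).1 * σ (qv A u₂) + (c : Ω × Ω).2 * σ (qv B u₂) = 0 at e2
      have hD' : σ (qv B u₁) * σ (qv A u₂) - σ (qv A u₁) * σ (qv B u₂) ≠ 0 := by
        rw [← map_mul, ← map_mul, ← map_sub]
        exact (map_ne_zero σ).2 hD
      have e3 : (c : Ω × Ω).1 *
          (σ (qv B u₁) * σ (qv A u₂) - σ (qv A u₁) * σ (qv B u₂)) = 0 := by
        linear_combination σ (qv B u₁) * e2 - σ (qv B u₂) * e1
      have e4 : (c : Ω × Ω).2 *
          (σ (qv B u₁) * σ (qv A u₂) - σ (qv A u₁) * σ (qv B u₂)) = 0 := by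
        linear_combination σ (qv A u₂) * e1 - σ (qv A u₁) * e2
      have e5 := (mul_eq_zero.1 e3).resolve_right hD'
      have e6 := (mul_eq_zero.1 e4).resolve_right hD'
      have hc : (c : Ω × Ω).1 ≠ 0 ∨ (c : Ω × Ω).2 ≠ 0 := by
        rcases Finset.mem_union.1 c.2 with h | h
        · rcases Finset.mem_union.1 h with h | h
          · exact h0 _ h
          · exact hs1 _ h
        · rw [Finset.mem_singleton.1 h]
          exact Or.inl one_ne_zero
      rcases hc with h | h
      · exact h e5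
      · exact h e6)
  have hxn := hx none
  change σ (qv B (x : Fin n → M)) * σ (bv A (x : Fin n → M) u₂) -
    σ (qv A (x : Fin n → M)) * σ (bv B (x : Fin n → M) u₂) ≠ 0 at hxn
  have hxc : ∀ c : Ω × Ω, c ∈ s ∪ s1 ∪ {(1, 0)} →
      c.1 * σ (qv A (x : Fin n → M)) + c.2 * σ (qv B (x : Fin n → M)) ≠ 0 := fun c hc =>
    hx (some ⟨c, hc⟩)
  have hxA : qv A (x : Fin n → M) ≠ 0 := by
    have h := hxc (1, 0) (Finset.mem_union_right _ (Finset.mem_singleton_self _))
    rw [one_mul, zero_mul, add_zero] at h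
    exact (map_ne_zero σ).1 h
  refine ⟨x, u₂, ⟨hP, aP, bP, x.2.1, x.2.2, ?_, fun h => hxA h.1⟩, ?_, hu₂, ?_, ?_⟩
  · rw [mQ]
    ring
  · rw [← ND.hom σ]
    refine hs1' _ _ fun c hc => ?_
    have h := hxc c (Finset.mem_union_left _ (Finset.mem_union_right _ hc))
    rw [map_neg]
    intro h1
    apply h
    linear_combination h1
  · intro h
    apply hxn
    rw [← map_mul, ← map_mul, ← map_sub]
    have h1 : qv B (x : Fin n → M) * bv A (x : Fin n → M) u₂ -
        qv A (x : Fin n → M) * bv B (x : Fin n → M) u₂ = 0 := by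
      rw [mB] at h
      linear_combination h
    rw [h1, map_zero]
  · exact fun c hc => hxc c (Finset.mem_union_left _ (Finset.mem_union_left _ hc))

end Dq
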