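import Pool.Agent.Lib.MP_f80667_ag.Dp.PtCls
import Pool.Agent.Lib.MP_f80667_ag.Dq.GoodU

/-! The class of a point of `X` is locally constant. -/

open Filter Topology
open scoped LinearAlgebra.Projectivization

namespace Dq

open ZC Tq Dp

universe u

variable {k : Type u} [Field k] [CharZero k] {Ω : Type u} [NormedField Ω] [Algebra k Ω]
  [IsAlgClosed Ω] {n : ℕ} {A B : Matrix (Fin n) (Fin n) k} {α : Type*} {l : Filter α}

/-- **The class of a point is locally constant.** Proof. By `exists_u` (with the empty set) there are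
`u`, `g`; let `(a, b) = (qv B u, -qv A u)`. There is `R` on `X` with `mB a b P R = 0`,
`bv A P R ≠ 0 ∨ bv B P R ≠ 0`: `R = pW H P (px u y)` for `H = A` or `B` with `qv H u ≠ 0` and `y` with
`mB a b P y = 0`, `mB a b u y ≠ 0`, `bv H P y ≠ 0` (two functionals which are not multiples of
`mB a b P`: `ND`, `sm_pt`); `bv H P R = - bv H P x ^ 2`, `bv H P x = mB u y * bv H P y`, `x = px u y`.
So `(a, b)` is a multiple of `(bv B P R, -bv A P R)` and `[P] = [R]` by `propT` (with the tangent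
vector `u`). For `P'` near `P` let `(a', b') = (bv B P' R, -bv A P' R)`, near `c (a, b)`, `c ≠ 0`, and
by `near_TP` `u''`, `g''` in `TP (P' q)` near `u`, `g`. `Lc.solve` for `mQ a' b' (u'' + s g'') = 0`
(`c₁ = mB a' b' u'' g''` tends to `c mB a b u g ≠ 0`). `u' = u'' + s g''` is a tangent vector at `P'`
near `u`, on the member `(a', b')`, not on `X`: `[P'] = [R]` by `propT`. -/
theorem pt_near (h : Lc k Ω) (hs : Sm Ω A B) (hn : 5 ≤ n) (K : IntermediateField k Ω)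
    [FiniteDimensional k K] {P : Fin n → K} (hP : P ≠ 0) (zP : Zer (Pl A B) K P) (hN : NS A B P)
    {P' : α → Fin n → K} (hl : ∀ i, Tendsto (fun q => (P' q i : Ω)) l (𝓝 (P i : Ω)))
    (hz : ∀ᶠ q in l, Zer (Pl A B) K (P' q)) :
    ∀ᶠ q in l, ∀ hq : P' q ≠ 0, trPt k Ω (Projectivization.mk K (P' q) hq) -
      trPt k Ω (Projectivization.mk K P hP) ∈ ratEq Ω (Pl A B) := by
  obtain ⟨u, g, hT, hnd, hg, hug, -⟩ := exists_u hs K.val hn hP zP hN ∅ (by simp)
  obtain ⟨a, ha⟩ : ∃ a : K, a = qv B u := ⟨_, rfl⟩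
  obtain ⟨b, hb⟩ : ∃ b : K, b = -qv A u := ⟨_, rfl⟩
  rw [← ha, ← hb] at hT hnd hug
  have hab : a ≠ 0 ∨ b ≠ 0 := by
    rw [ha, hb]
    by_cases hA : qv A u = 0
    · exact Or.inl fun hB => hT.nu ⟨hA, hB⟩
    · exact Or.inr (neg_ne_zero.2 hA)
  obtain ⟨R, zR, hPR, hPR0⟩ := ptc_exists hs K.val hab hnd hT
  obtain ⟨c, hc, hca, hcb⟩ := prop_of_mB hab hPR hPR0
  have hR : R ≠ 0 := by
    rintro rfl
    have hz : ∀ G : Matrix (Fin n) (Fin n) k, bv G P (0 : Fin n → K) = 0 := fun G => by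
      have h1 := bv_smul_right (A := G) (0 : K) P (0 : Fin n → K)
      rwa [zero_smul, zero_mul] at h1
    rcases hPR with h1 | h1
    · exact h1 (hz A)
    · exact h1 (hz B)
  have hQu : mQ A B (bv B P R) (-bv A P R) u = 0 := by
    have h1 := hT.qu
    rw [hca, hcb, mQ_scale] at h1
    exact (mul_eq_zero.1 h1).resolve_left hc
  have hBug : mB A B (bv B P R) (-bv A P R) u g ≠ 0 := by
    intro h1
    apply hug
    rw [hca, hcb, mB_scale, h1, mul_zero]
  have hPcl := propT (k := k) (Ω := Ω) hs (by omega : 5 ≤ n) hR zR hPR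
    (u := u) ⟨hP, hT.aP, hT.bP, hT.aPu, hT.bPu, hQu, hT.nu⟩
  -- the near points
  have tR : ∀ i, Tendsto (fun _ : α => (R i : Ω)) l (𝓝 (R i : Ω)) := fun i => tendsto_const_nhds
  have tA := tendsto_bv (l := l) A hl tR
  have tB := tendsto_bv (l := l) B hl tR
  have tA' := ptc_neg_tendsto tA
  obtain ⟨u₁, tu₁, hu₁⟩ := near_TP hs K hP zP hl (u := u) ⟨hT.aPu, hT.bPu⟩
  obtain ⟨g₁, tg₁, hg₁⟩ := near_TP hs K hP zP hl hg
  have t0 := tendsto_mQ (A := A) (B := B) tB tA' tu₁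
  have t1 := tendsto_mB (A := A) (B := B) tB tA' tu₁ tg₁
  have t2 := tendsto_mQ (A := A) (B := B) tB tA' tg₁
  rw [hQu] at t0
  have hBug' : ((mB A B (bv B P R) (-bv A P R) u g : K) : Ω) ≠ 0 := by
    intro h1
    exact hBug (by exact_mod_cast h1)
  obtain ⟨s, ts, hs'⟩ := h.solve K (by simpa using t0) t1 hBug' t2
  -- the tangent vector
  obtain ⟨w, hw⟩ : ∃ w : α → Fin n → K, w = fun q => u₁ q + s q • g₁ q := ⟨_, rfl⟩
  have tw : ∀ i, Tendsto (fun q => (w q i : Ω)) l (𝓝 (u i : Ω)) := by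
    intro i
    have h1 : Tendsto (fun q => (s q : Ω)) l (𝓝 ((0 : K) : Ω)) := by simpa using ts
    have h2 := ptc_add_tendsto (tu₁ i) (ptc_mul_tendsto h1 (tg₁ i))
    rw [zero_mul, add_zero] at h2
    rw [hw]
    exact h2
  have hwX : ∀ᶠ q in l, ¬ (qv A (w q) = 0 ∧ qv B (w q) = 0) := by
    by_cases hA : qv A u = 0
    · filter_upwards [ptc_ne (tendsto_qv B tw) fun hB => hT.nu ⟨hA, hB⟩] with q hq h1
      exact hq h1.2
    · filter_upwards [ptc_ne (tendsto_qv A tw) hA] with q hq h1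
      exact hq h1.1
  have hPR' : ∀ᶠ q in l, bv A (P' q) R ≠ 0 ∨ bv B (P' q) R ≠ 0 := by
    rcases hPR with h1 | h1
    · filter_upwards [ptc_ne tA h1] with q hq
      exact Or.inl hq
    · filter_upwards [ptc_ne tB h1] with q hq
      exact Or.inr hq
  filter_upwards [hz, hu₁, hg₁, hs', hwX, hPR'] with q zq huq hgq hsq hwq hRq hq
  obtain ⟨aq, bq⟩ := (zer_iff A B).1 zq
  have hwT : w q ∈ TP A B (P' q) := by
    rw [hw]
    exact Submodule.add_mem _ huq (Submodule.smul_mem _ _ hgq)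
  have hwQ : mQ A B (bv B (P' q) R) (-bv A (P' q) R) (w q) = 0 := by
    have h1 : w q = (1 : K) • u₁ q + s q • g₁ q := by
      rw [hw, one_smul]
    rw [h1, mQ_lin]
    linear_combination hsq
  have h2 := propT (k := k) (Ω := Ω) hs (by omega : 5 ≤ n) hR zR hRq
    (u := w q) ⟨hq, aq, bq, hwT.1, hwT.2, hwQ, hwq⟩
  have h3 := AddSubgroup.sub_mem _ hPcl h2
  have e : ∀ x y z : ℙ Ω (Fin n → Ω) →₀ ℤ, x - y - (x - z) = z - y := by
    intro x y z
    abel
  rwa [e] at h3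

end Dq
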