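import Pool.Agent.Lib.MP_f80667_ag.Dp.LineC
import Pool.Agent.Lib.MP_f80667_ag.Dq.LineS
import Pool.Agent.Lib.MP_f80667_ag.Dq.PtCls

/-! Lines on near members of the pencil: the class. -/

open Filter Topology
open scoped LinearAlgebra.Projectivization

namespace Dq

open ZC Tq Dp

universe u

variable {k : Type u} [Field k] [CharZero k] {Ω : Type u} [NormedField Ω] [Algebra k Ω]
  [IsAlgClosed Ω] {n : ℕ} {A B : Matrix (Fin n) (Fin n) k} {α : Type*} {l : Filter α}

/-- The two points of `X` on a split line satisfy `NS`. -/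
theorem ns_root {k : Type u} [Field k] {Ω : Type u} [Field Ω] [Algebra k Ω] {n : ℕ}
    {A B : Matrix (Fin n) (Fin n) k} {ι : Type} {φ : ι → (Fin n → Ω) →ₗ[Ω] Ω} (hφ : NF A B φ)
    {M : Type u} [Field M] [Algebra k M] [CharZero M] (σ : M →ₐ[k] Ω) {p x : Fin n → M}
    {c e h d : M} (hh : h ≠ 0) (hd : d ^ 2 = c ^ 2 - 4 * h * e)
    (hne : ∀ i, φ i (fun j => σ (x j)) ^ 2 * σ h -
        φ i (fun j => σ (x j)) * φ i (fun j => σ (p j)) * σ c +
        φ i (fun j => σ (p j)) ^ 2 * σ e ≠ 0) (h0 : (-c + d) • p + (2 * h) • x ≠ 0)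
    (hz : Zer (Pl A B) M ((-c + d) • p + (2 * h) • x)) :
    NS A B ((-c + d) • p + (2 * h) • x) := by
  refine hφ.ns M σ _ h0 hz fun i hi => ?_
  have e1 : (fun j => σ (((-c + d) • p + (2 * h) • x) j)) =
      (-σ c + σ d) • (fun j => σ (p j)) + (2 * σ h) • (fun j => σ (x j)) := by
    funext j
    simp only [Pi.add_apply, Pi.smul_apply, smul_eq_mul, map_add, map_mul, map_neg, map_ofNat]
  rw [e1, map_add, map_smul, map_smul, smul_eq_mul, smul_eq_mul] at hi
  have hd' : σ d ^ 2 = σ c ^ 2 - 4 * σ h * σ e := by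
    rw [← map_pow, hd]
    simp only [map_sub, map_mul, map_pow, map_ofNat]
  have h4 : (4 : Ω) * σ h ≠ 0 := by
    rw [show (4 : Ω) * σ h = σ (4 * h) by rw [map_mul, map_ofNat]]
    exact (map_ne_zero σ).2 (mul_ne_zero (by norm_num) hh)
  have h5 : (4 * σ h) * (φ i (fun j => σ (x j)) ^ 2 * σ h -
        φ i (fun j => σ (x j)) * φ i (fun j => σ (p j)) * σ c +
        φ i (fun j => σ (p j)) ^ 2 * σ e) = 0 := by
    linear_combination ((-σ c - σ d) * φ i (fun j => σ (p j)) +
      2 * σ h * φ i (fun j => σ (x j))) * hi + φ i (fun j => σ (p j)) ^ 2 * hd'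
  exact hne i ((mul_eq_zero.1 h5).resolve_left h4)

/-- **Near members contain lines, with the same class.** Proof. `exists_split` gives a line `p`, `x`,
`t₀` with `D = bv H p x ^ 2 - 4 qv H p qv H x ≠ 0`; `[t₀] = [t]` by `mem_line`. `p'`, `x'` from
`line_near_aux`; `D' q` tends to `D`, `D' q / D` tends to `1`, so `D' q = D (e q) ^ 2`, `e q ∈ K` tends
to `1` (`Lc.exists_sqrt`). If `D = d ^ 2` with `d ∈ K`: `roots_cls` for both lines, with `d` and
`d * e q`; the two points for `q` tend to the two points of `(p, x)`; `pt_near` twice. Otherwise let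
`d : Ω` with `d ^ 2 = D` and `K'` the intermediate field generated by `K` and `d`, of degree `2` over
`K` (as an extension of `k`; `IntermediateField.extendScalars` or `IntermediateField.adjoin` over `k`
of `K ∪ {d}` with the inclusion `K →ₐ[k] K'`); `roots_cls2` for both lines with `d` and `d * e q`;
`pt_near` over `K'`. -/
theorem line_near (h : Lc k Ω) (hs : Sm Ω A B) (hn : 5 ≤ n) (K : IntermediateField k Ω)
    [FiniteDimensional k K] {a b : K} (hnd : ND A B a b) {t : ℙ K (Fin (n * n) → K)}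
    (ht : IsM A B a b t) {a' b' : α → K} (ha : Tendsto (fun q => (a' q : Ω)) l (𝓝 (a : Ω)))
    (hb : Tendsto (fun q => (b' q : Ω)) l (𝓝 (b : Ω))) :
    ∀ᶠ q in l, ND A B (a' q) (b' q) ∧ ∃ t', IsM A B (a' q) (b' q) t' ∧
      PhL (trPt k Ω t') - PhL (trPt k Ω t) ∈ ratEq Ω (Pl A B) := by
  have hcK : CharZero K := charZero_of_injective_algebraMap (algebraMap k K).injective
  have hn0 : 0 < n := by omega
  have hab0 : ∀ {a b : K}, ND A B a b → a ≠ 0 ∨ b ≠ 0 := by
    intro a b h
    by_contra hcon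
    push Not at hcon
    obtain ⟨y, hy⟩ := h (fun _ => 1) (fun h0 => one_ne_zero (congrFun h0 ⟨0, hn0⟩))
    apply hy
    rw [mB, hcon.1, hcon.2]
    ring
  obtain ⟨m, φ, hφ⟩ := exists_NF (k := k) (Ω := Ω) two_ne_zero hs hn
  obtain ⟨p, x, t₀, H, hL, hH, hp, hD, hne⟩ := exists_split hs K.val hn hnd ht hφ
  have h0 : PhL (trPt k Ω t₀) - PhL (trPt k Ω t) ∈ ratEq Ω (Pl A B) :=
    mem_line hs (by omega) (hab0 hnd) ⟨p, x, hL⟩ ht
  obtain ⟨p', x', hp', hx', hev⟩ := line_near_aux h K hnd hL hH hp ha hb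
  have hnd' := nd_near K hnd ha hb
  -- the discriminants
  have hbv := tendsto_bv H hp' hx'
  have hqp := tendsto_qv H hp'
  have hqx := tendsto_qv H hx'
  obtain ⟨D, hDdef⟩ : ∃ D : K, D = bv H p x ^ 2 - 4 * qv H p * qv H x := ⟨_, rfl⟩
  obtain ⟨D', hD'def⟩ : ∃ D' : α → K,
      D' = fun q => bv H (p' q) (x' q) ^ 2 - 4 * qv H (p' q) * qv H (x' q) := ⟨_, rfl⟩
  rw [← hDdef] at hD
  have hDΩ : (D : Ω) ≠ 0 := fun h1 => hD (Subtype.ext h1)
  have hDl : Tendsto (fun q => (D' q : Ω)) l (𝓝 (D : Ω)) := by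
    have h4 := (hbv.pow 2).sub ((hqp.const_mul 4).mul hqx)
    have e1 : ∀ u v w : K, ((u ^ 2 - 4 * v * w : K) : Ω) = (u : Ω) ^ 2 - 4 * (v : Ω) * (w : Ω) := by
      intro u v w
      rfl
    rw [hDdef, hD'def, e1]
    refine h4.congr fun q => ?_
    rw [e1]
  have hfl : Tendsto (fun q => ((D' q / D : K) : Ω)) l (𝓝 1) := by
    have h4 := hDl.div_const (D : Ω)
    rw [div_self hDΩ] at h4
    exact h4
  obtain ⟨e, he, hee⟩ := h.exists_sqrt K hfl
  have he0 : ∀ᶠ q in l, e q ≠ 0 := by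
    have h4 := he.eventually_ne (one_ne_zero (α := Ω))
    filter_upwards [h4] with q hq h5
    exact hq (by rw [h5]; rfl)
  have hDe : ∀ᶠ q in l, D' q = D * e q ^ 2 := by
    filter_upwards [hee] with q hq
    rw [hq, mul_div_cancel₀ _ hD]
  -- reduction to the line `t₀`
  suffices hsuff : ∀ᶠ q in l, ∃ t', IsM A B (a' q) (b' q) t' ∧
      PhL (trPt k Ω t') - PhL (trPt k Ω t₀) ∈ ratEq Ω (Pl A B) by
    filter_upwards [hnd', hsuff] with q hq1 hq2
    obtain ⟨t', ht', hcl⟩ := hq2
    refine ⟨hq1, t', ht', ?_⟩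
    have h3 := (ratEq Ω (Pl A B)).add_mem hcl h0
    rwa [sub_add_sub_cancel] at h3
  by_cases hsq : ∃ d : K, d ^ 2 = D
  · obtain ⟨d, hd⟩ := hsq
    have hd0 : d ≠ 0 := by
      rintro rfl
      apply hD
      rw [← hd]
      ring
    obtain ⟨h₁, h₂, z₁, z₂, hcl⟩ := roots_cls (Ω := Ω) (hab0 hnd) hL hH hp hd0 (hd.trans hDdef)
    -- the roots for `q`
    have hroots : ∀ᶠ q in l, ∃ t', IsM A B (a' q) (b' q) t' ∧
        ∃ (h₁ : ((-bv H (p' q) (x' q) + d * e q) • p' q + (2 * qv H (p' q)) • x' q) ≠ 0)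
          (h₂ : ((-bv H (p' q) (x' q) - d * e q) • p' q + (2 * qv H (p' q)) • x' q) ≠ 0),
          Zer (Pl A B) K ((-bv H (p' q) (x' q) + d * e q) • p' q + (2 * qv H (p' q)) • x' q) ∧
          Zer (Pl A B) K ((-bv H (p' q) (x' q) - d * e q) • p' q + (2 * qv H (p' q)) • x' q) ∧
          PhL (trPt k Ω t') = trPt k Ω (Projectivization.mk K _ h₁) +
            trPt k Ω (Projectivization.mk K _ h₂) := by
      filter_upwards [hnd', hev, he0, hDe] with q hq1 hq2 hq3 hq4
      obtain ⟨t', ht', hpq⟩ := hq2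
      refine ⟨t', ⟨p' q, x' q, ht'⟩, ?_⟩
      refine roots_cls (Ω := Ω) (hab0 hq1) ht' hH hpq (mul_ne_zero hd0 hq3) ?_
      rw [mul_pow, hd, ← hq4, hD'def]
    have hl₁ : ∀ i, Tendsto (fun q => ((((-bv H (p' q) (x' q) + d * e q) • p' q +
        (2 * qv H (p' q)) • x' q) i : K) : Ω)) l
        (𝓝 ((((-bv H p x + d) • p + (2 * qv H p) • x) i : K) : Ω)) := by
      intro i
      have h4 := ((hbv.neg.add (he.const_mul (d : Ω))).mul (hp' i)).add
        ((hqp.const_mul 2).mul (hx' i))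
      rw [mul_one] at h4
      exact h4
    have hl₂ : ∀ i, Tendsto (fun q => ((((-bv H (p' q) (x' q) - d * e q) • p' q +
        (2 * qv H (p' q)) • x' q) i : K) : Ω)) l
        (𝓝 ((((-bv H p x - d) • p + (2 * qv H p) • x) i : K) : Ω)) := by
      intro i
      have h4 := ((hbv.neg.sub (he.const_mul (d : Ω))).mul (hp' i)).add
        ((hqp.const_mul 2).mul (hx' i))
      rw [mul_one] at h4
      exact h4
    have n₁ := pt_near h hs hn K h₁ z₁ (ns_root hφ K.val hp (hd.trans hDdef) hne h₁ z₁) hl₁ (by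
      filter_upwards [hroots] with q hq
      obtain ⟨_, _, _, _, h5, _, _⟩ := hq
      exact h5)
    have hN₂ : NS A B ((-bv H p x - d) • p + (2 * qv H p) • x) := by
      have e7 : -bv H p x - d = -bv H p x + -d := sub_eq_add_neg _ _
      rw [e7] at h₂ z₂ ⊢
      exact ns_root hφ K.val hp (by rw [neg_sq]; exact hd.trans hDdef) hne h₂ z₂
    have n₂ := pt_near h hs hn K h₂ z₂ hN₂ hl₂ (by
      filter_upwards [hroots] with q hq
      obtain ⟨_, _, _, _, _, h5, _⟩ := hq
      exact h5)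
    filter_upwards [hroots, n₁, n₂] with q hq m₁ m₂
    obtain ⟨t', ht', g₁, g₂, _, _, hcl'⟩ := hq
    refine ⟨t', ht', ?_⟩
    rw [hcl, hcl']
    have h3 := (ratEq Ω (Pl A B)).add_mem (m₁ g₁) (m₂ g₂)
    rwa [← add_sub_add_comm] at h3
  · push Not at hsq
    obtain ⟨d, hd⟩ := IsAlgClosed.exists_pow_nat_eq (D : Ω) (n := 2) two_pos
    obtain ⟨K', i1, i2, i3, hdK, h2, hal⟩ := exists_quad_ext K hd hsq
    obtain ⟨d', hd'⟩ : ∃ d' : K', (d' : Ω) = d := ⟨⟨d, hdK⟩, rfl⟩
    have hdM : ∀ c : K, algebraMap K K' c ≠ d' := by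
      intro c hc
      apply hsq c
      apply Subtype.ext
      have h4 := congrArg (fun z : K' => (z : Ω)) hc
      simp only [hal, hd'] at h4
      change (c : Ω) ^ 2 = (D : Ω)
      rw [h4, hd]
    have hd2 : d' ^ 2 = algebraMap K K' D := by
      apply Subtype.ext
      rw [hal]
      change (d' : Ω) ^ 2 = (D : Ω)
      rw [hd', hd]
    obtain ⟨h₁, z₁, hcl⟩ := roots_cls2 (Ω := Ω) h2 (hab0 hnd) hL hH hp hdM
      (by rw [hd2, hDdef])
    have hroots : ∀ᶠ q in l, ∃ t', IsM A B (a' q) (b' q) t' ∧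
        ∃ h₁ : ((-algebraMap K K' (bv H (p' q) (x' q)) + d' * algebraMap K K' (e q)) •
            (fun i => algebraMap K K' (p' q i)) +
            (2 * algebraMap K K' (qv H (p' q))) • (fun i => algebraMap K K' (x' q i))) ≠ 0,
          Zer (Pl A B) K' ((-algebraMap K K' (bv H (p' q) (x' q)) + d' * algebraMap K K' (e q)) •
            (fun i => algebraMap K K' (p' q i)) +
            (2 * algebraMap K K' (qv H (p' q))) • (fun i => algebraMap K K' (x' q i))) ∧
          PhL (trPt k Ω t') = trPt k Ω (Projectivization.mk K' _ h₁) := by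
      filter_upwards [hnd', hev, he0, hDe] with q hq1 hq2 hq3 hq4
      obtain ⟨t', ht', hpq⟩ := hq2
      refine ⟨t', ⟨p' q, x' q, ht'⟩, ?_⟩
      refine roots_cls2 (Ω := Ω) h2 (hab0 hq1) ht' hH hpq ?_ ?_
      · intro c hc
        have he' : algebraMap K K' (e q) ≠ 0 := (map_ne_zero _).2 hq3
        apply hdM (c / e q)
        rw [map_div₀, hc, mul_div_cancel_right₀ _ he']
      · rw [mul_pow, hd2, ← map_pow, ← map_mul, ← hq4, hD'def]
    have hl₁ : ∀ i, Tendsto (fun q => ((((-algebraMap K K' (bv H (p' q) (x' q)) +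
        d' * algebraMap K K' (e q)) • (fun i => algebraMap K K' (p' q i)) +
        (2 * algebraMap K K' (qv H (p' q))) • (fun i => algebraMap K K' (x' q i))) i : K') : Ω)) l
        (𝓝 ((((-algebraMap K K' (bv H p x) + d') • (fun i => algebraMap K K' (p i)) +
        (2 * algebraMap K K' (qv H p)) • (fun i => algebraMap K K' (x i))) i : K') : Ω)) := by
      intro i
      have h4 := ((hbv.neg.add (he.const_mul d)).mul (hp' i)).add
        ((hqp.const_mul 2).mul (hx' i))
      rw [mul_one] at h4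
      have e2 : ∀ (c u v w : K) (f : K'), (((-algebraMap K K' c + f) * algebraMap K K' u +
          (2 * algebraMap K K' v) * algebraMap K K' w : K') : Ω) =
          (-(c : Ω) + (f : Ω)) * (u : Ω) + 2 * (v : Ω) * (w : Ω) := by
        intro c u v w f
        rw [← hal c, ← hal u, ← hal v, ← hal w]
        rfl
      have e3 := e2 (bv H p x) (p i) (qv H p) (x i) d'
      rw [hd'] at e3
      have e4 : ((((-algebraMap K K' (bv H p x) + d') • (fun i => algebraMap K K' (p i)) +
        (2 * algebraMap K K' (qv H p)) • (fun i => algebraMap K K' (x i))) i : K') : Ω) =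
        (-((bv H p x : K) : Ω) + d) * (p i : Ω) + 2 * ((qv H p : K) : Ω) * (x i : Ω) := e3
      rw [e4]
      refine h4.congr fun q => ?_
      have e5 := e2 (bv H (p' q) (x' q)) (p' q i) (qv H (p' q)) (x' q i)
        (d' * algebraMap K K' (e q))
      have e6 : ((d' * algebraMap K K' (e q) : K') : Ω) = d * (e q : Ω) := by
        rw [← hal (e q), ← hd']
        rfl
      rw [e6] at e5
      exact e5.symm
    have hcK' : CharZero K' := charZero_of_injective_algebraMap (algebraMap k K').injective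
    have hN₁ := ns_root hφ K'.val (p := fun i => algebraMap K K' (p i))
      (x := fun i => algebraMap K K' (x i)) (c := algebraMap K K' (bv H p x))
      (e := algebraMap K K' (qv H x)) (h := algebraMap K K' (qv H p)) (d := d')
      ((map_ne_zero _).2 hp) (by rw [hd2, hDdef]; simp only [map_sub, map_mul, map_pow, map_ofNat])
      (by
        intro i
        have e8 : ∀ c : K, K'.val (algebraMap K K' c) = K.val c := hal
        simp only [e8]
        exact hne i) h₁ z₁
    have n₁ := pt_near h hs hn K' h₁ z₁ hN₁ hl₁ (by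
      filter_upwards [hroots] with q hq
      obtain ⟨_, _, _, h5, _⟩ := hq
      exact h5)
    filter_upwards [hroots, n₁] with q hq m₁
    obtain ⟨t', ht', g₁, _, hcl'⟩ := hq
    refine ⟨t', ht', ?_⟩
    rw [hcl, hcl']
    exact m₁ g₁

end Dq
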