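import Pool.Agent.Lib.MP_f80667_ag.Dq.Sm2

/-! Pencils of binary quadratic forms over a finite field. -/

namespace Dq

variable {κ : Type*} [Field κ]

/-- The binary form with the coefficients `α`. -/
def bf (α : Fin 3 → κ) (x y : κ) : κ := α 0 * x ^ 2 + α 1 * (x * y) + α 2 * y ^ 2

/-- The coefficients of the discriminant of the pencil. -/
def dsc (α β : Fin 3 → κ) : Fin 3 → κ :=
  ![α 1 ^ 2 - 4 * α 0 * α 2, 2 * α 1 * β 1 - 4 * (α 0 * β 2 + α 2 * β 0), β 1 ^ 2 - 4 * β 0 * β 2]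

theorem ev_dsc (α β : Fin 3 → κ) (l : Option κ) : ev (dsc α β) l =
    (pr1 l * α 1 + pr2 l * β 1) ^ 2 -
      4 * (pr1 l * α 0 + pr2 l * β 0) * (pr1 l * α 2 + pr2 l * β 2) := by
  simp only [ev, dsc, Matrix.cons_val]
  ring

theorem bf_eq_ev (α : Fin 3 → κ) (m : Option κ) : bf α (pr1 m) (pr2 m) = ev α m := rfl

theorem bf_smul (α : Fin 3 → κ) (c x y : κ) : bf α (c * x) (c * y) = c ^ 2 * bf α x y := by
  simp only [bf]
  ring

/-- The forms vanishing at two different points are the multiples of one form. -/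
theorem bin_two {m m' : Option κ} (hne : m ≠ m') : ∃ N : Fin 3 → κ, N 1 ^ 2 - 4 * N 0 * N 2 ≠ 0 ∧
    ∀ α : Fin 3 → κ, ev α m = 0 → ev α m' = 0 → ∃ u, ∀ i, α i = u * N i := by
  have hns : ∀ t : κ, ∃ N : Fin 3 → κ, N 1 ^ 2 - 4 * N 0 * N 2 ≠ 0 ∧
      ∀ α : Fin 3 → κ, ev α none = 0 → ev α (some t) = 0 → ∃ u, ∀ i, α i = u * N i := by
    intro t
    refine ⟨![-t, 1, 0], ?_, ?_⟩
    · simp only [Matrix.cons_val]
      rw [mul_zero, sub_zero, one_pow]
      exact one_ne_zero
    · intro α h1 h2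
      simp only [ev, pr1_none, pr2_none, pr1_some, pr2_some] at h1 h2
      refine ⟨α 1, fun i => ?_⟩
      fin_cases i
      · simp only [Fin.zero_eta, Matrix.cons_val]
        linear_combination h2 - t ^ 2 * h1
      · simp only [Fin.mk_one, Matrix.cons_val]
        ring
      · simp only [Fin.reduceFinMk, Matrix.cons_val]
        linear_combination h1
  cases m with
  | none =>
    cases m' with
    | none => exact absurd rfl hne
    | some t => exact hns t
  | some s =>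
    cases m' with
    | none =>
      obtain ⟨N, hN, hN'⟩ := hns s
      exact ⟨N, hN, fun α h1 h2 => hN' α h2 h1⟩
    | some t =>
      have hst : s - t ≠ 0 := by
        intro h0
        apply hne
        rw [sub_eq_zero.mp h0]
      refine ⟨![s * t, -(s + t), 1], ?_, ?_⟩
      · simp only [Matrix.cons_val]
        have : (-(s + t)) ^ 2 - 4 * (s * t) * 1 = (s - t) ^ 2 := by ring
        rw [this]
        exact pow_ne_zero 2 hst
      · intro α h1 h2
        simp only [ev, pr1_some, pr2_some] at h1 h2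
        have h3 : α 1 = α 2 * -(s + t) := by
          apply mul_left_cancel₀ hst
          linear_combination h1 - h2
        refine ⟨α 2, fun i => ?_⟩
        fin_cases i
        · simp only [Fin.zero_eta, Matrix.cons_val]
          linear_combination h1 - s * h3
        · simp only [Fin.mk_one, Matrix.cons_val]
          exact h3
        · simp only [Fin.reduceFinMk, Matrix.cons_val]
          ring

/-- A form with three different zeros is zero. -/
theorem bin_three {d : Fin 3 → κ} {l m n : Option κ} (hlm : l ≠ m) (hln : l ≠ n) (hmn : m ≠ n)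
    (h1 : ev d l = 0) (h2 : ev d m = 0) (h3 : ev d n = 0) : ∀ i, d i = 0 := by
  have e1 : pr1 l * pr2 m - pr1 m * pr2 l ≠ 0 := fun h0 => hlm (pr_inj (sub_eq_zero.mp h0))
  have e2 : pr1 l * pr2 n - pr1 n * pr2 l ≠ 0 := fun h0 => hln (pr_inj (sub_eq_zero.mp h0))
  have e3 : pr1 m * pr2 n - pr1 n * pr2 m ≠ 0 := fun h0 => hmn (pr_inj (sub_eq_zero.mp h0))
  have e := mul_ne_zero (mul_ne_zero e1 e2) e3
  simp only [ev] at h1 h2 h3
  intro i
  apply mul_left_cancel₀ e
  rw [mul_zero]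
  fin_cases i
  · simp only [Fin.zero_eta]
    linear_combination (pr2 m * pr2 n * (pr1 m * pr2 n - pr1 n * pr2 m)) * h1 -
      (pr2 l * pr2 n * (pr1 l * pr2 n - pr1 n * pr2 l)) * h2 +
      (pr2 l * pr2 m * (pr1 l * pr2 m - pr1 m * pr2 l)) * h3
  · simp only [Fin.mk_one]
    linear_combination (-((pr1 m * pr2 n) ^ 2 - (pr1 n * pr2 m) ^ 2)) * h1 +
      ((pr1 l * pr2 n) ^ 2 - (pr1 n * pr2 l) ^ 2) * h2 -
      ((pr1 l * pr2 m) ^ 2 - (pr1 m * pr2 l) ^ 2) * h3
  · simp only [Fin.reduceFinMk]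
    linear_combination (pr1 m * pr1 n * (pr1 m * pr2 n - pr1 n * pr2 m)) * h1 -
      (pr1 l * pr1 n * (pr1 l * pr2 n - pr1 n * pr2 l)) * h2 +
      (pr1 l * pr1 m * (pr1 l * pr2 m - pr1 m * pr2 l)) * h3

/-- A form which is not zero has at most two zeros. -/
theorem bin_ncard [Fintype κ] {d : Fin 3 → κ} (hd : ∃ i, d i ≠ 0) :
    {l | ev d l = 0}.ncard ≤ 2 := by
  by_contra hc
  rw [not_le, Set.two_lt_ncard_iff (Set.toFinite _)] at hc
  obtain ⟨l, m, n, h1, h2, h3, hlm, hln, hmn⟩ := hc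
  obtain ⟨i, hi⟩ := hd
  exact hi (bin_three hlm hln hmn h1 h2 h3 i)

theorem bin_dsc_ne (h2 : (2 : κ) ≠ 0) {α β : Fin 3 → κ}
    (h : ∀ a b : κ, a ≠ 0 ∨ b ≠ 0 → ∃ i, a * α i + b * β i ≠ 0) : ∃ i, dsc α β i ≠ 0 := by
  by_contra hc
  push Not at hc
  have c0 := hc 0
  have c1 := hc 1
  have c2 := hc 2
  simp only [dsc, Matrix.cons_val] at c0 c1 c2
  -- the main case, for a pair of forms
  have main : ∀ α β : Fin 3 → κ, α 1 ^ 2 - 4 * α 0 * α 2 = 0 →
      2 * α 1 * β 1 - 4 * (α 0 * β 2 + α 2 * β 0) = 0 → β 1 ^ 2 - 4 * β 0 * β 2 = 0 →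
      α 0 ≠ 0 → ∀ i, β 0 * α i + (-α 0) * β i = 0 := by
    intro α β c0 c1 c2 h0
    have k1 : β 0 * α 1 - α 0 * β 1 = 0 := by
      apply pow_eq_zero_iff (two_ne_zero) |>.mp
      linear_combination β 0 ^ 2 * c0 - α 0 * β 0 * c1 + α 0 ^ 2 * c2
    have k2 : β 0 * α 2 - α 0 * β 2 = 0 := by
      apply mul_left_cancel₀ (mul_ne_zero (mul_ne_zero h2 h2) h0)
      linear_combination α 0 * c1 - 2 * β 0 * c0 + 2 * α 1 * k1
    intro i
    fin_cases i
    · simp only [Fin.zero_eta]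
      ring
    · simp only [Fin.mk_one]
      linear_combination k1
    · simp only [Fin.reduceFinMk]
      linear_combination k2
  by_cases ha : α 0 = 0
  · by_cases hb : β 0 = 0
    · have a1 : α 1 = 0 := by
        apply pow_eq_zero_iff (two_ne_zero) |>.mp
        linear_combination c0 + 4 * α 2 * ha
      have b1 : β 1 = 0 := by
        apply pow_eq_zero_iff (two_ne_zero) |>.mp
        linear_combination c2 + 4 * β 2 * hb
      by_cases a2 : α 2 = 0
      · obtain ⟨i, hi⟩ := h 1 0 (Or.inl one_ne_zero)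
        apply hi
        fin_cases i
        · simp [ha]
        · simp [a1]
        · simp [a2]
      · obtain ⟨i, hi⟩ := h (β 2) (-α 2) (Or.inr (neg_ne_zero.mpr a2))
        apply hi
        fin_cases i
        · simp [ha, hb]
        · simp [a1, b1]
        · simp only [Fin.reduceFinMk]
          ring
    · obtain ⟨i, hi⟩ := h (-β 0) (α 0) (Or.inl (neg_ne_zero.mpr hb))
      have := main β α c2 (by linear_combination c1) c0 hb i
      apply hi
      linear_combination this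
  · obtain ⟨i, hi⟩ := h (β 0) (-α 0) (Or.inr (neg_ne_zero.mpr ha))
    exact hi (main α β c0 c1 c2 ha i)

/-- Two different points are not both common zeros. -/
theorem bin_common {α β : Fin 3 → κ}
    (h : ∀ a b : κ, a ≠ 0 ∨ b ≠ 0 → ∃ i, a * α i + b * β i ≠ 0) {m m' : Option κ} (hne : m ≠ m')
    (h1 : ev α m = 0) (h2 : ev β m = 0) (h3 : ev α m' = 0) (h4 : ev β m' = 0) : False := by
  obtain ⟨N, -, hN⟩ := bin_two hne
  obtain ⟨u, hu⟩ := hN α h1 h3
  obtain ⟨v, hv⟩ := hN β h2 h4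
  by_cases hu0 : u = 0
  · obtain ⟨i, hi⟩ := h 1 0 (Or.inl one_ne_zero)
    apply hi
    rw [hu, hu0]
    ring
  · obtain ⟨i, hi⟩ := h v (-u) (Or.inr (neg_ne_zero.mpr hu0))
    apply hi
    rw [hu, hv]
    ring

/-- Proof. `l ↦ ev (dsc α β) l` is a binary quadratic form; it is not zero: otherwise
`α 1 ^ 2 = 4 α 0 α 2` and the same for `β` and for `α + t β` for all `t`, so `α` and `β` are
proportional (squares of linear forms up to factors, whose sums are such, characteristic not `2`;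
algebra: the three coefficients of `dsc α β` vanish). A nonzero binary quadratic form has at most two
zeros in `Option κ` (quadratic polynomial, or degree `1` and the point `none`). -/
theorem dsc_zero [Fintype κ] (h2 : (2 : κ) ≠ 0) {α β : Fin 3 → κ}
    (h : ∀ a b : κ, a ≠ 0 ∨ b ≠ 0 → ∃ i, a * α i + b * β i ≠ 0) :
    {l | ev (dsc α β) l = 0}.ncard ≤ 2 :=
  bin_ncard (bin_dsc_ne h2 h)

/-- Two independent binary quadratic forms have at most one common zero in `Option κ`. Proof: if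
there are two different common zeros then both forms are multiples of the product of the two linear
forms. -/
theorem bf_common [Fintype κ] {α β : Fin 3 → κ}
    (h : ∀ a b : κ, a ≠ 0 ∨ b ≠ 0 → ∃ i, a * α i + b * β i ≠ 0) :
    {m : Option κ | bf α (pr1 m) (pr2 m) = 0 ∧ bf β (pr1 m) (pr2 m) = 0}.ncard ≤ 1 := by
  rw [Set.ncard_le_one_iff (Set.toFinite _)]
  rintro m m' ⟨h1, h2⟩ ⟨h3, h4⟩
  by_contra hne
  exact bin_common h hne h1 h2 h3 h4

/-- The member of the pencil. -/
def bin_mem (α β : Fin 3 → κ) (l : Option κ) : Fin 3 → κ := fun i => pr1 l * α i + pr2 l * β i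

theorem bin_mem_ne {α β : Fin 3 → κ}
    (h : ∀ a b : κ, a ≠ 0 ∨ b ≠ 0 → ∃ i, a * α i + b * β i ≠ 0) (l : Option κ) :
    ∃ i, bin_mem α β l i ≠ 0 := h _ _ (pr_ne l)

theorem bin_mem_bf (α β : Fin 3 → κ) (l : Option κ) (x y : κ) :
    bf (bin_mem α β l) x y = pr1 l * bf α x y + pr2 l * bf β x y := by
  simp only [bf, bin_mem]
  ring

theorem bin_mem_dsc (α β : Fin 3 → κ) (l : Option κ) : ev (dsc α β) l =
    bin_mem α β l 1 ^ 2 - 4 * bin_mem α β l 0 * bin_mem α β l 2 := ev_dsc α β l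

theorem bin_id0 (γ : Fin 3 → κ) (x y : κ) : (2 * γ 0 * x + γ 1 * y) ^ 2 =
    4 * γ 0 * bf γ x y + (γ 1 ^ 2 - 4 * γ 0 * γ 2) * y ^ 2 := by
  simp only [bf]
  ring

theorem bin_id2 (γ : Fin 3 → κ) (x y : κ) : (γ 1 * x + 2 * γ 2 * y) ^ 2 =
    4 * γ 2 * bf γ x y + (γ 1 ^ 2 - 4 * γ 0 * γ 2) * x ^ 2 := by
  simp only [bf]
  ring

/-- The number of zeros of a form of discriminant zero. -/
theorem bin_zero_one [Fintype κ] {γ : Fin 3 → κ} (hγ : ∃ i, γ i ≠ 0)
    (hd : γ 1 ^ 2 - 4 * γ 0 * γ 2 = 0) : {m | ev γ m = 0}.ncard ≤ 1 := by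
  rw [Set.ncard_le_one_iff (Set.toFinite _)]
  intro m m' h1 h2
  by_contra hne
  obtain ⟨N, hN, hN'⟩ := bin_two hne
  obtain ⟨u, hu⟩ := hN' γ h1 h2
  have h3 : u ^ 2 * (N 1 ^ 2 - 4 * N 0 * N 2) = 0 := by
    rw [← hd, hu 0, hu 1, hu 2]
    ring
  have h4 : u = 0 := pow_eq_zero_iff (two_ne_zero) |>.mp ((mul_eq_zero.mp h3).resolve_right hN)
  obtain ⟨i, hi⟩ := hγ
  apply hi
  rw [hu, h4, zero_mul]

/-- A form with a zero has a square discriminant. -/
theorem bin_zero_sq {γ : Fin 3 → κ} {m : Option κ} (h : ev γ m = 0) :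
    IsSquare (γ 1 ^ 2 - 4 * γ 0 * γ 2) := by
  rw [← bf_eq_ev] at h
  rcases pr_ne m with h1 | h1
  · have h3 := bin_id2 γ (pr1 m) (pr2 m)
    rw [h, mul_zero, zero_add] at h3
    refine ⟨(γ 1 * pr1 m + 2 * γ 2 * pr2 m) / pr1 m, ?_⟩
    rw [div_mul_div_comm, ← sq, ← sq, h3, mul_div_cancel_right₀ _ (pow_ne_zero 2 h1)]
  · have h3 := bin_id0 γ (pr1 m) (pr2 m)
    rw [h, mul_zero, zero_add] at h3
    refine ⟨(2 * γ 0 * pr1 m + γ 1 * pr2 m) / pr2 m, ?_⟩
    rw [div_mul_div_comm, ← sq, ← sq, h3, mul_div_cancel_right₀ _ (pow_ne_zero 2 h1)]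

theorem bin_le [Fintype κ] [DecidableEq κ] {α β : Fin 3 → κ}
    (h : ∀ a b : κ, a ≠ 0 ∨ b ≠ 0 → ∃ i, a * α i + b * β i ≠ 0) (l : Option κ) :
    {m | ev (bin_mem α β l) m = 0}.ncard ≤
      2 * (if quadraticChar κ (ev (dsc α β) l) = 1 then 1 else 0) +
        (if ev (dsc α β) l = 0 then 1 else 0) := by
  by_cases h0 : ev (dsc α β) l = 0
  · rw [if_pos h0]
    have := bin_zero_one (bin_mem_ne h l) ((bin_mem_dsc α β l).symm.trans h0)
    omega
  · rw [if_neg h0, add_zero]
    by_cases h1 : quadraticChar κ (ev (dsc α β) l) = 1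
    · rw [if_pos h1]
      exact bin_ncard (bin_mem_ne h l)
    · rw [if_neg h1, mul_zero, Nat.le_zero, Set.ncard_eq_zero (Set.toFinite _),
        Set.eq_empty_iff_forall_notMem]
      intro m hm
      apply h1
      rw [quadraticChar_one_iff_isSquare h0, bin_mem_dsc]
      exact bin_zero_sq hm

/-- Proof. For a point `m` of `Option κ` which is not a common zero of the forms `α`, `β` let `l m` be
the point of the pair `(bf β, - bf α)` (values at `m`), `exists_pr`; then `m` is a zero of the member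
`l m`. A member has at most two zeros, and exactly one zero if its discriminant `ev (dsc α β) l` is
`0` (then it is a nonzero multiple of a square); if the discriminant is not `0` and there is a zero then
the discriminant is a square. So `q + 1 ≤ 1 + 2 * #{l | χ = 1} + 2` by `bf_common` and `dsc_zero`. -/
theorem dsc_count [Fintype κ] [DecidableEq κ] (h2 : (2 : κ) ≠ 0) {α β : Fin 3 → κ}
    (h : ∀ a b : κ, a ≠ 0 ∨ b ≠ 0 → ∃ i, a * α i + b * β i ≠ 0) :
    Fintype.card κ ≤ 2 * {l | quadraticChar κ (ev (dsc α β) l) = 1}.ncard + 2 := by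
  classical
  set C : Finset (Option κ) := Finset.univ.filter fun m => ev α m = 0 ∧ ev β m = 0 with hC
  set S : Finset (Option κ) := Finset.univ.filter fun m => ¬ (ev α m = 0 ∧ ev β m = 0) with hS
  have hCc : C.card ≤ 1 := by
    have := bf_common h
    rw [Set.ncard_eq_toFinset_card'] at this
    refine le_trans (le_of_eq ?_) this
    congr 1
    ext m
    simp [hC, bf_eq_ev]
  have hCS : C.card + S.card = Fintype.card κ + 1 := by
    rw [← Fintype.card_option, ← Finset.card_univ]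
    exact Finset.card_filter_add_card_filter_not _
  have hex : ∀ m : Option κ, ∃ l : Option κ, m ∈ S → ev (bin_mem α β l) m = 0 := by
    intro m
    by_cases hm : ev α m = 0 ∧ ev β m = 0
    · exact ⟨none, fun hmS => absurd hm (Finset.mem_filter.mp hmS).2⟩
    · have hm' : ev β m ≠ 0 ∨ -ev α m ≠ 0 := by
        by_contra hc
        push Not at hc
        exact hm ⟨neg_eq_zero.mp hc.2, hc.1⟩
      obtain ⟨l, c, hc, h1, h3⟩ := exists_pr hm'
      refine ⟨l, fun _ => ?_⟩
      rw [← bf_eq_ev, bin_mem_bf, bf_eq_ev, bf_eq_ev]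
      apply mul_left_cancel₀ hc
      rw [mul_zero]
      linear_combination (-ev α m) * h1 - ev β m * h3
  choose f hf using hex
  have h1 : S.card = ∑ l : Option κ, (S.filter fun m => f m = l).card :=
    Finset.card_eq_sum_card_fiberwise fun m _ => Finset.mem_coe.mpr (Finset.mem_univ _)
  have h3 : ∀ l : Option κ, (S.filter fun m => f m = l).card ≤
      2 * (if quadraticChar κ (ev (dsc α β) l) = 1 then 1 else 0) +
        (if ev (dsc α β) l = 0 then 1 else 0) := by
    intro l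
    refine le_trans ?_ (bin_le h l)
    rw [← Set.ncard_coe_finset]
    apply Set.ncard_le_ncard _ (Set.toFinite _)
    intro m hm
    rw [Finset.mem_coe, Finset.mem_filter] at hm
    rw [Set.mem_setOf_eq, ← hm.2]
    exact hf m hm.1
  have h4 : S.card ≤ 2 * {l | quadraticChar κ (ev (dsc α β) l) = 1}.ncard +
      {l | ev (dsc α β) l = 0}.ncard := by
    rw [h1]
    refine le_trans (Finset.sum_le_sum fun l _ => h3 l) ?_
    rw [Finset.sum_add_distrib, ← Finset.mul_sum, Finset.sum_boole, Finset.sum_boole,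
      Set.ncard_eq_toFinset_card', Set.ncard_eq_toFinset_card', Set.toFinset_setOf,
      Set.toFinset_setOf]
    exact le_of_eq rfl
  have h5 := dsc_zero h2 h
  omega

/-- A member whose discriminant is a nonzero square has a simple zero which is not a common zero of the
pencil. Proof: the member has two different zeros (quadratic formula), both simple (the gradient
is not zero since the discriminant is not zero), and by the argument of `bf_common` not both are
common zeros of `α` and `β`. -/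
theorem dsc_zero_of_sq (h2 : (2 : κ) ≠ 0) {α β : Fin 3 → κ}
    (h : ∀ a b : κ, a ≠ 0 ∨ b ≠ 0 → ∃ i, a * α i + b * β i ≠ 0) {l : Option κ} {c : κ}
    (hc : c ≠ 0) (hl : ev (dsc α β) l = c ^ 2) : ∃ x y : κ, (x ≠ 0 ∨ y ≠ 0) ∧
      pr1 l * bf α x y + pr2 l * bf β x y = 0 ∧ ¬ (bf α x y = 0 ∧ bf β x y = 0) ∧
      (2 * (pr1 l * α 0 + pr2 l * β 0) * x + (pr1 l * α 1 + pr2 l * β 1) * y ≠ 0 ∨
        (pr1 l * α 1 + pr2 l * β 1) * x + 2 * (pr1 l * α 2 + pr2 l * β 2) * y ≠ 0) := by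
  obtain ⟨γ, hγ⟩ : ∃ γ : Fin 3 → κ, γ = bin_mem α β l := ⟨_, rfl⟩
  have hd : γ 1 ^ 2 - 4 * γ 0 * γ 2 = c ^ 2 := by rw [← hl, bin_mem_dsc, hγ]
  have hbf : ∀ x y, bf γ x y = pr1 l * bf α x y + pr2 l * bf β x y := by
    intro x y
    rw [hγ, bin_mem_bf]
  have hgr : ∀ m : Option κ, ev γ m = 0 → 2 * γ 0 * pr1 m + γ 1 * pr2 m ≠ 0 ∨
      γ 1 * pr1 m + 2 * γ 2 * pr2 m ≠ 0 := by
    intro m hm
    rw [← bf_eq_ev] at hm
    rcases pr_ne m with h1 | h1
    · right
      intro h3
      have h4 := bin_id2 γ (pr1 m) (pr2 m)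
      rw [h3, hm, mul_zero, zero_add, hd, zero_pow two_ne_zero, ← mul_pow] at h4
      exact mul_ne_zero hc h1 (pow_eq_zero_iff (two_ne_zero) |>.mp h4.symm)
    · left
      intro h3
      have h4 := bin_id0 γ (pr1 m) (pr2 m)
      rw [h3, hm, mul_zero, zero_add, hd, zero_pow two_ne_zero, ← mul_pow] at h4
      exact mul_ne_zero hc h1 (pow_eq_zero_iff (two_ne_zero) |>.mp h4.symm)
  have htwo : ∃ m m' : Option κ, m ≠ m' ∧ ev γ m = 0 ∧ ev γ m' = 0 := by
    have hpt : ∀ x y : κ, bf γ x y = 0 → (x ≠ 0 ∨ y ≠ 0) → ∃ (m : Option κ) (e : κ), e ≠ 0 ∧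
        x = e * pr1 m ∧ y = e * pr2 m ∧ ev γ m = 0 := by
      intro x y h1 h3
      obtain ⟨m, e, he, h4, h5⟩ := exists_pr h3
      refine ⟨m, e, he, h4, h5, ?_⟩
      rw [h4, h5, bf_smul, bf_eq_ev] at h1
      exact (mul_eq_zero.mp h1).resolve_left (pow_ne_zero 2 he)
    by_cases h0 : γ 0 = 0
    · have h1 : γ 1 ≠ 0 := by
        intro h3
        rw [h3, h0] at hd
        apply hc
        apply pow_eq_zero_iff (two_ne_zero) |>.mp
        rw [← hd]
        ring
      obtain ⟨m, e, he, h4, h5, h6⟩ := hpt (-γ 2) (γ 1)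
        (by simp only [bf]; rw [h0]; ring) (Or.inr h1)
      obtain ⟨m', e', he', h4', h5', h6'⟩ := hpt 1 0
        (by simp only [bf]; rw [h0]; ring) (Or.inl one_ne_zero)
      refine ⟨m, m', ?_, h6, h6'⟩
      intro hmm
      rw [hmm] at h5
      apply h1
      rw [h5, (mul_eq_zero.mp h5'.symm).resolve_left he', mul_zero]
    · have h20 : 2 * γ 0 ≠ 0 := mul_ne_zero h2 h0
      obtain ⟨m, e, he, h4, h5, h6⟩ := hpt (-γ 1 + c) (2 * γ 0)
        (by simp only [bf]; linear_combination (-γ 0) * hd) (Or.inr h20)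
      obtain ⟨m', e', he', h4', h5', h6'⟩ := hpt (-γ 1 - c) (2 * γ 0)
        (by simp only [bf]; linear_combination (-γ 0) * hd) (Or.inr h20)
      refine ⟨m, m', ?_, h6, h6'⟩
      intro hmm
      rw [hmm] at h4 h5
      have h7 : pr2 m' ≠ 0 := by
        intro h8
        apply h20
        rw [h5, h8, mul_zero]
      have h9 : e = e' := mul_right_cancel₀ h7 (h5.symm.trans h5')
      rw [h9, ← h4'] at h4
      have h10 : 2 * c = 0 := by linear_combination h4
      exact mul_ne_zero h2 hc h10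
  obtain ⟨m, m', hne, hm, hm'⟩ := htwo
  have hfin : ∀ m : Option κ, ev γ m = 0 → ¬ (ev α m = 0 ∧ ev β m = 0) →
      ∃ x y : κ, (x ≠ 0 ∨ y ≠ 0) ∧
      pr1 l * bf α x y + pr2 l * bf β x y = 0 ∧ ¬ (bf α x y = 0 ∧ bf β x y = 0) ∧
      (2 * (pr1 l * α 0 + pr2 l * β 0) * x + (pr1 l * α 1 + pr2 l * β 1) * y ≠ 0 ∨
        (pr1 l * α 1 + pr2 l * β 1) * x + 2 * (pr1 l * α 2 + pr2 l * β 2) * y ≠ 0) := by
    intro m h1 h3
    refine ⟨pr1 m, pr2 m, pr_ne m, ?_, h3, ?_⟩
    · rw [← hbf]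
      exact h1
    · have := hgr m h1
      rw [hγ] at this
      exact this
  by_cases h3 : ev α m = 0 ∧ ev β m = 0
  · by_cases h4 : ev α m' = 0 ∧ ev β m' = 0
    · exact (bin_common h hne h3.1 h3.2 h4.1 h4.2).elim
    · exact hfin m' hm' h4
  · exact hfin m hm h3

end Dq
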