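import Pool.Agent.Lib.MP_f80667_ag.Dq.Sm2

/-! The combinatorial core of the argument at the places of good reduction. -/

namespace Dq

theorem z2_eq : ∀ x y : ZMod 2, x + y = 0 → x = y := by decide

theorem z2_add : ∀ x y u v : ZMod 2, x + y = u + v → u = v → x = y := by decide

theorem ncard_of_mem {γ : Type*} (F : Finset γ) {p : γ → Prop} (h : ∀ T, T ∈ F ↔ p T) :
    {T | p T}.ncard = F.card := by
  rw [← Set.ncard_coe_finset]
  congr 1
  ext T
  exact (h T).symm

/-- Counting a union of disjoint fibres from below. -/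
theorem le_card_of_rel {α β : Type*} [DecidableEq α] {A : Finset β} {V : Finset α} {n : ℕ}
    (F : β → Finset α) (hF : ∀ l ∈ A, F l ⊆ V) (hn : ∀ l ∈ A, n ≤ (F l).card)
    (hd : ∀ l ∈ A, ∀ l' ∈ A, ∀ T, T ∈ F l → T ∈ F l' → l = l') : A.card * n ≤ V.card := by
  calc A.card * n = ∑ _l ∈ A, n := by rw [Finset.sum_const, smul_eq_mul]
    _ ≤ ∑ l ∈ A, (F l).card := Finset.sum_le_sum hn
    _ = (A.biUnion F).card := by
        rw [Finset.card_biUnion]
        intro l hl l' hl' hne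
        rw [Function.onFun, Finset.disjoint_left]
        intro T hT hT'
        exact hne (hd l hl l' hl' T hT hT')
    _ ≤ V.card := Finset.card_le_card (Finset.biUnion_subset.mpr hF)

/-- The numerical step of part (1). -/
theorem num_one {a b q : ℤ} (hq : 1000 ≤ q) (hab : a + b ≤ q + 1)
    (h : a * ((q - 1) * (q - 21)) ≤ 12 * q ^ 2 + b * ((q - 1) * (q + 1))) : a ≤ b + 34 := by
  by_contra hlt
  have h1 : b + 35 ≤ a := by omega
  have h2 : (0 : ℤ) ≤ (q - 1) * (q - 21) := mul_nonneg (by linarith) (by linarith)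
  have h3 : (b + 35) * ((q - 1) * (q - 21)) ≤ a * ((q - 1) * (q - 21)) :=
    mul_le_mul_of_nonneg_right h1 h2
  have h4 : b ≤ q + 1 := by linarith
  have h5 : b * (q - 1) ≤ (q + 1) * (q - 1) := mul_le_mul_of_nonneg_right h4 (by linarith)
  nlinarith

/-- The numerical step of part (3). -/
theorem num_three {q w : ℤ} (hq : 1000 ≤ q) (hw : (q - 4) * ((q - 1) * (q - 21)) ≤ w)
    (h : w * (q - 1) * (q - 54) ^ 2 ≤ 32 * (q - 1) * ((q + 1) * q ^ 2 * (q - 1))) : False := by
  have h1 : (q - 4) * ((q - 1) * (q - 21)) * ((q - 1) * (q - 54) ^ 2) ≤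
      w * ((q - 1) * (q - 54) ^ 2) :=
    mul_le_mul_of_nonneg_right hw (mul_nonneg (by linarith) (sq_nonneg _))
  have h2 : (q - 1) ^ 2 * ((q - 4) * (q - 21) * (q - 54) ^ 2) ≤
      (q - 1) ^ 2 * (32 * (q + 1) * q ^ 2) := by
    calc (q - 1) ^ 2 * ((q - 4) * (q - 21) * (q - 54) ^ 2)
        = (q - 4) * ((q - 1) * (q - 21)) * ((q - 1) * (q - 54) ^ 2) := by ring
      _ ≤ w * ((q - 1) * (q - 54) ^ 2) := h1
      _ = w * (q - 1) * (q - 54) ^ 2 := by ring
      _ ≤ 32 * (q - 1) * ((q + 1) * q ^ 2 * (q - 1)) := h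
      _ = _ := by ring
  have h3 : (0 : ℤ) < (q - 1) ^ 2 := by
    have : (0 : ℤ) < q - 1 := by linarith
    positivity
  have h4 := le_of_mul_le_mul_left h2 h3
  obtain ⟨t, ht⟩ : ∃ t : ℤ, q = 1000 + t := ⟨q - 1000, by ring⟩
  have ht0 : 0 ≤ t := by linarith
  rw [ht] at h4
  have h5 : (0 : ℤ) < (1000 + t - 4) * (1000 + t - 21) * (1000 + t - 54) ^ 2 -
      32 * (1000 + t + 1) * (1000 + t) ^ 2 := by
    ring_nf
    positivity
  linarith

/-- **The core.** `W` is the set of points, `L` the set of nondegenerate members (all but at most five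
points `l` of the projective line), `Rel P T l`: the line through `P` and `T` is on the member `l`.
Proof. Suppose that `s` takes both values `0`, `1` on `W`; `W₀`, `W₁` the two parts. By `c1l` every `l ∈ L`
has a pair `P, T ∈ W` with `Rel P T l`; let `f l = 1` if `s P = s T` and `f l = -1` if not (by `c4` this
does not depend on the pair), and `f l = 0` for `l ∉ L`. Let `a`, `b` be the numbers of `l ∈ L` with
`f l = 1`, `f l = -1`; `a + b ≥ q + 1 - 5`, `a + b ≤ q + 1`. (1) For `P ∈ W₀` the sets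
`{T ∈ W | Rel P T l}`, `f l = 1`, are disjoint (`c3`) and contained in `W₀`, so
`a (q - 1) (q - 21) ≤ |W₀|`. For `R ∈ W₁` every `T ∈ W₀` is in the set of `c2` for `R` or satisfies
`Rel R T l` with `l ∈ L`, and then `f l = -1`; so `|W₀| ≤ 12 q² + b (q - 1) (q + 1)`. Hence
`a (q - 21) ≤ b (q - 21) + 22 (q + 1) + 12 q + 13`, and `a ≤ b + 35`, `2 a ≤ q + 36`. (2) Let `P ∈ W`.
If `l ∈ L` and `χ (ev (d P) l) = 1` then `f l = 1` (`c5`, for a `T` with `Rel P T l`). So by `c6` the
number of `l ∈ L` with `f l = 1`, `χ (ev (d P) l) ≠ 1` is at most `a - ((q - 2) / 2 - 5)`, at most `24`.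
For `f l = -1`: `χ (ev (d P) l)` is `-1`, or `0` for at most two `l` (`c7`). So
`S (d P) = ∑ l, f l χ (ev (d P) l) ≥ (q - 4) - 2 * 24 - 2 = q - 54`. In particular `d P ≠ 0`. (3) For
`c ≠ 0`: `S (c • d) = χ c S d`, so `S (c • d P) ^ 2 ≥ (q - 54) ^ 2` for all `P ∈ W` and all
`c ≠ 0`. For `d₀ ≠ 0` there are at most `32 (q - 1)` pairs `(P, c)` with `c • d P = d₀` (`c8`; `c` is
determined by `P`). So by `sm_bound`:
`|W| (q - 1) (q - 54) ^ 2 ≤ 32 (q - 1) (q + 1) q ^ 2 (q - 1)`. By (1) (all `l ∈ L`)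
`|W| ≥ (q - 4) (q - 1) (q - 21)`. So `(q - 4) (q - 21) (q - 54) ^ 2 ≤ 32 (q + 1) q ^ 2`, which is false
for `q ≥ 1000`. -/
theorem core {κ : Type*} [Field κ] [Fintype κ] [DecidableEq κ] (h2 : ringChar κ ≠ 2) {q : ℕ}
    (hq : q = Fintype.card κ) (hq0 : 1000 ≤ q) {α : Type*} [Finite α] (W : Set α)
    (L : Set (Option κ)) (hL : Lᶜ.ncard ≤ 5) (Rel : α → α → Option κ → Prop) (s : α → ZMod 2)
    (d : α → Fin 3 → κ)
    (c1l : ∀ P ∈ W, ∀ l ∈ L, (q - 1) * (q - 21) ≤ {T | T ∈ W ∧ Rel P T l}.ncard)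
    (c1u : ∀ P ∈ W, ∀ l ∈ L, {T | T ∈ W ∧ Rel P T l}.ncard ≤ (q - 1) * (q + 1))
    (c2 : ∀ P ∈ W, {T | T ∈ W ∧ ∀ l ∈ L, ¬ Rel P T l}.ncard ≤ 12 * q ^ 2)
    (c3 : ∀ P T l l', Rel P T l → Rel P T l' → l = l')
    (c4 : ∀ P ∈ W, ∀ T ∈ W, ∀ P' ∈ W, ∀ T' ∈ W, ∀ l ∈ L, Rel P T l → Rel P' T' l →
      s P + s T = s P' + s T')
    (c5 : ∀ P ∈ W, ∀ T ∈ W, ∀ l ∈ L, Rel P T l → quadraticChar κ (ev (d P) l) = 1 → s P = s T)
    (c6 : ∀ P ∈ W, q ≤ 2 * {l | quadraticChar κ (ev (d P) l) = 1}.ncard + 2)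
    (c7 : ∀ P ∈ W, {l | ev (d P) l = 0}.ncard ≤ 2)
    (c8 : ∀ d₀ : Fin 3 → κ, d₀ ≠ 0 →
      {P | P ∈ W ∧ ∃ c : κ, c ≠ 0 ∧ c • d P = d₀}.ncard ≤ 32 * (q - 1)) :
    ∀ P ∈ W, ∀ T ∈ W, s P = s T := by
  classical
  by_contra hne
  push Not at hne
  obtain ⟨P₀, hP₀, R₀, hR₀, hPR⟩ := hne
  have : Fintype α := Fintype.ofFinite α
  have hcO : Fintype.card (Option κ) = q + 1 := by rw [Fintype.card_option, hq]
  let N : α → Option κ → Finset α := fun P l => Finset.univ.filter fun T => T ∈ W ∧ Rel P T l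
  have hN : ∀ P l T, T ∈ N P l ↔ T ∈ W ∧ Rel P T l := fun P l T => by
    simp only [N, Finset.mem_filter, Finset.mem_univ, true_and]
  have c1l' : ∀ P ∈ W, ∀ l ∈ L, (q - 1) * (q - 21) ≤ (N P l).card := fun P hP l hl =>
    (c1l P hP l hl).trans_eq (ncard_of_mem _ (hN P l))
  have c1u' : ∀ P ∈ W, ∀ l ∈ L, (N P l).card ≤ (q - 1) * (q + 1) := fun P hP l hl =>
    (ncard_of_mem _ (hN P l)).symm.trans_le (c1u P hP l hl)
  have hpair : ∀ P ∈ W, ∀ l ∈ L, ∃ T ∈ W, Rel P T l := by
    intro P hP l hl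
    have h1 := c1l' P hP l hl
    have h0 : 0 < (q - 1) * (q - 21) := Nat.mul_pos (by omega) (by omega)
    obtain ⟨T, hT⟩ := Finset.card_pos.mp (lt_of_lt_of_le h0 h1)
    rw [hN] at hT
    exact ⟨T, hT.1, hT.2⟩
  -- the sign of a member
  let E : Option κ → Prop := fun l => ∃ P ∈ W, ∃ T ∈ W, Rel P T l ∧ s P = s T
  have hE : ∀ P ∈ W, ∀ T ∈ W, ∀ l ∈ L, Rel P T l → (E l ↔ s P = s T) := by
    intro P hP T hT l hl hr
    constructor
    · rintro ⟨P', hP', T', hT', hr', he⟩
      exact z2_add _ _ _ _ (c4 P hP T hT P' hP' T' hT' l hl hr hr') he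
    · intro he
      exact ⟨P, hP, T, hT, hr, he⟩
  let LF : Finset (Option κ) := Finset.univ.filter fun l => l ∈ L
  let A : Finset (Option κ) := LF.filter fun l => E l
  let B : Finset (Option κ) := LF.filter fun l => ¬ E l
  have hAB : A.card + B.card = LF.card := Finset.card_filter_add_card_filter_not _
  have hLF1 : LF.card ≤ q + 1 := by
    rw [← hcO]
    exact Finset.card_le_univ _
  have hLF2 : q + 1 ≤ LF.card + 5 := by
    have h1 : LF.card = L.ncard := by
      have := ncard_of_mem LF (p := fun l => l ∈ L) (fun l => by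
        simp only [LF, Finset.mem_filter, Finset.mem_univ, true_and])
      exact this.symm
    have h2 := Set.ncard_add_ncard_compl L
    rw [Nat.card_eq_fintype_card, hcO] at h2
    omega
  have hA : ∀ l, l ∈ A ↔ l ∈ L ∧ E l := fun l => by
    simp only [A, LF, Finset.mem_filter, Finset.mem_univ, true_and]
  have hB : ∀ l, l ∈ B ↔ l ∈ L ∧ ¬ E l := fun l => by
    simp only [B, LF, Finset.mem_filter, Finset.mem_univ, true_and]
  have hLFm : ∀ l, l ∈ LF ↔ l ∈ L := fun l => by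
    simp only [LF, Finset.mem_filter, Finset.mem_univ, true_and]
  have hNd : ∀ P l l' T, T ∈ N P l → T ∈ N P l' → l = l' := fun P l l' T h h' =>
    c3 P T l l' ((hN P l T).1 h).2 ((hN P l' T).1 h').2
  let W0 : Finset α := Finset.univ.filter fun T => T ∈ W ∧ s T = s P₀
  let WF : Finset α := Finset.univ.filter fun T => T ∈ W
  have hWF : ∀ T, T ∈ WF ↔ T ∈ W := fun T => by
    simp only [WF, Finset.mem_filter, Finset.mem_univ, true_and]
  -- part (1)
  have e1 : A.card * ((q - 1) * (q - 21)) ≤ W0.card := by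
    refine le_card_of_rel (N P₀) (fun l hl T hT => ?_) (fun l hl => ?_)
      (fun l _ l' _ T hT hT' => hNd P₀ l l' T hT hT')
    · rw [hN] at hT
      simp only [W0, Finset.mem_filter, Finset.mem_univ, true_and]
      exact ⟨hT.1, ((hE P₀ hP₀ T hT.1 l ((hA l).1 hl).1 hT.2).1 ((hA l).1 hl).2).symm⟩
    · exact c1l' P₀ hP₀ l ((hA l).1 hl).1
  have e2 : W0.card ≤ 12 * q ^ 2 + B.card * ((q - 1) * (q + 1)) := by
    have hsub : W0 ⊆ (Finset.univ.filter fun T => T ∈ W ∧ ∀ l ∈ L, ¬ Rel R₀ T l) ∪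
        B.biUnion (N R₀) := by
      intro T hT
      simp only [W0, Finset.mem_filter, Finset.mem_univ, true_and] at hT
      rw [Finset.mem_union, Finset.mem_biUnion, Finset.mem_filter]
      by_cases h : ∃ l ∈ L, Rel R₀ T l
      · obtain ⟨l, hl, hr⟩ := h
        refine Or.inr ⟨l, (hB l).2 ⟨hl, fun hEl => ?_⟩, (hN _ _ _).2 ⟨hT.1, hr⟩⟩
        exact hPR (((hE R₀ hR₀ T hT.1 l hl hr).1 hEl).trans hT.2).symm
      · push Not at h
        exact Or.inl ⟨Finset.mem_univ _, hT.1, h⟩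
    calc W0.card ≤ _ := Finset.card_le_card hsub
      _ ≤ (Finset.univ.filter fun T => T ∈ W ∧ ∀ l ∈ L, ¬ Rel R₀ T l).card +
          (B.biUnion (N R₀)).card := Finset.card_union_le _ _
      _ ≤ 12 * q ^ 2 + ∑ l ∈ B, (N R₀ l).card :=
          Nat.add_le_add ((ncard_of_mem _ fun T => by
            simp only [Finset.mem_filter, Finset.mem_univ, true_and]).symm.trans_le (c2 R₀ hR₀))
            Finset.card_biUnion_le
      _ ≤ 12 * q ^ 2 + ∑ _l ∈ B, (q - 1) * (q + 1) :=
          Nat.add_le_add_left (Finset.sum_le_sum fun l hl => c1u' R₀ hR₀ l ((hB l).1 hl).1) _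
      _ = _ := by rw [Finset.sum_const, smul_eq_mul]
  have c1' : ((q - 1 : ℕ) : ℤ) = (q : ℤ) - 1 := by
    rw [Nat.cast_sub (by omega)]
    norm_num
  have c21 : ((q - 21 : ℕ) : ℤ) = (q : ℤ) - 21 := by
    rw [Nat.cast_sub (by omega)]
    norm_num
  have hqz : (1000 : ℤ) ≤ (q : ℤ) := by exact_mod_cast hq0
  have hab : (A.card : ℤ) ≤ (B.card : ℤ) + 34 := by
    refine num_one hqz ?_ ?_
    · have : A.card + B.card ≤ q + 1 := by omega
      exact_mod_cast this
    · have h3 := e1.trans e2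
      have h4 : ((A.card * ((q - 1) * (q - 21)) : ℕ) : ℤ) ≤
          ((12 * q ^ 2 + B.card * ((q - 1) * (q + 1)) : ℕ) : ℤ) := by exact_mod_cast h3
      push_cast [c1', c21] at h4
      exact h4
  have hab' : A.card ≤ B.card + 34 := by exact_mod_cast hab
  -- the function
  let f : Option κ → ℤ := fun l => if l ∈ L then (if E l then 1 else -1) else 0
  have hf : ∀ l, |f l| ≤ 1 := by
    intro l
    simp only [f]
    split_ifs <;> simp
  let S : (Fin 3 → κ) → ℤ := fun e => ∑ l, f l * quadraticChar κ (ev e l)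
  -- part (2)
  have hS : ∀ P ∈ W, (q : ℤ) - 54 ≤ S (d P) := by
    intro P hP
    let X : Finset (Option κ) := Finset.univ.filter fun l => quadraticChar κ (ev (d P) l) = 1
    let Z : Finset (Option κ) := Finset.univ.filter fun l => ev (d P) l = 0
    have hxm : ∀ l, l ∈ X ↔ quadraticChar κ (ev (d P) l) = 1 := fun l => by
      simp only [X, Finset.mem_filter, Finset.mem_univ, true_and]
    have hzm : ∀ l, l ∈ Z ↔ ev (d P) l = 0 := fun l => by
      simp only [Z, Finset.mem_filter, Finset.mem_univ, true_and]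
    have hX : q ≤ 2 * X.card + 2 := by
      rw [← ncard_of_mem X hxm]
      exact c6 P hP
    have hZ : Z.card ≤ 2 := by
      rw [← ncard_of_mem Z hzm]
      exact c7 P hP
    have hX' : ∀ l ∈ L, quadraticChar κ (ev (d P) l) = 1 → E l := by
      intro l hl hχ
      obtain ⟨T, hT, hr⟩ := hpair P hP l hl
      exact (hE P hP T hT l hl hr).2 (c5 P hP T hT l hl hr hχ)
    have hXA : X.card ≤ (A ∩ X).card + 5 := by
      have hsub : X ⊆ (A ∩ X) ∪ LFᶜ := by
        intro l hl
        rw [Finset.mem_union, Finset.mem_inter, Finset.mem_compl, hLFm, hA]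
        by_cases h : l ∈ L
        · exact Or.inl ⟨⟨h, hX' l h (Finset.mem_filter.1 hl).2⟩, hl⟩
        · exact Or.inr h
      have h1 := (Finset.card_le_card hsub).trans (Finset.card_union_le _ _)
      have h2 : LFᶜ.card ≤ 5 := by
        rw [Finset.card_compl, hcO]
        omega
      omega
    have hAX : (A \ X).card + (A ∩ X).card = A.card := Finset.card_sdiff_add_card_inter _ _
    have hAX' : (A \ X).card ≤ 23 := by omega
    have hpt : ∀ l, (if l ∈ LF then (1 : ℤ) else 0) - 2 * (if l ∈ A \ X then (1 : ℤ) else 0) -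
        (if l ∈ Z then (1 : ℤ) else 0) ≤ f l * quadraticChar κ (ev (d P) l) := by
      intro l
      have hz := hzm l
      have hx := hxm l
      have hax : l ∈ A \ X ↔ (l ∈ L ∧ E l) ∧ ¬ quadraticChar κ (ev (d P) l) = 1 := by
        rw [Finset.mem_sdiff, hA, hx]
      simp only [hLFm, hz, hax, f]
      by_cases hl : l ∈ L
      · by_cases h0 : ev (d P) l = 0
        · have h1 : quadraticChar κ (ev (d P) l) = 0 := by rw [h0, MulChar.map_zero]
          rw [h1]
          simp only [hl, h0, if_true, mul_zero, true_and]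
          split_ifs <;> norm_num
        · have h5 := hX' l hl
          rcases quadraticChar_dichotomy h0 with h1 | h1
          · have h6 := h5 h1
            rw [h1]
            simp [hl, h0, h6]
          · rw [h1]
            by_cases h6 : E l
            · simp [hl, h0, h6]
            · simp [hl, h0, h6]
      · simp only [hl, if_false, false_and, zero_mul, mul_zero]
        split_ifs <;> norm_num
    have hsum := Finset.sum_le_sum fun (l : Option κ) (_ : l ∈ Finset.univ) => hpt l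
    rw [Finset.sum_sub_distrib, Finset.sum_sub_distrib, ← Finset.mul_sum] at hsum
    have hi : ∀ V : Finset (Option κ), ∑ l, (if l ∈ V then (1 : ℤ) else 0) = (V.card : ℤ) := by
      intro V
      rw [Finset.sum_boole]
      congr 1
      congr 1
      ext l
      simp
    rw [hi, hi, hi] at hsum
    have hS0 : S (d P) = ∑ l, f l * quadraticChar κ (ev (d P) l) := rfl
    rw [hS0]
    refine le_trans ?_ hsum
    omega
  -- part (3)
  have hSsm : ∀ (c : κ) (e : Fin 3 → κ), c ≠ 0 → S (c • e) ^ 2 = S e ^ 2 := by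
    intro c e hc
    have h1 : S (c • e) = quadraticChar κ c * S e := by
      simp only [S]
      rw [Finset.mul_sum]
      refine Finset.sum_congr rfl fun l _ => ?_
      rw [ev_smul, map_mul]
      ring
    rw [h1, mul_pow, quadraticChar_sq_one hc, one_mul]
  have hS00 : S 0 = 0 := by
    simp only [S]
    refine Finset.sum_eq_zero fun l _ => ?_
    have : ev (0 : Fin 3 → κ) l = 0 := by simp [ev]
    rw [this, MulChar.map_zero, mul_zero]
  have hdP : ∀ P ∈ W, d P ≠ 0 := by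
    intro P hP h0
    have h1 := hS P hP
    rw [h0, hS00] at h1
    omega
  let K : Finset κ := Finset.univ.filter fun c => c ≠ 0
  have hK : (K.card : ℤ) = (q : ℤ) - 1 := by
    have h1 : K = Finset.univ.erase 0 := by
      ext c
      simp [K]
    rw [h1, Finset.card_erase_of_mem (Finset.mem_univ _), Finset.card_univ, ← hq, c1']
  have hKm : ∀ c, c ∈ K ↔ c ≠ 0 := fun c => by
    simp only [K, Finset.mem_filter, Finset.mem_univ, true_and]
  have hlow : (WF.card : ℤ) * ((q : ℤ) - 1) * ((q : ℤ) - 54) ^ 2 ≤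
      ∑ x ∈ WF ×ˢ K, S (x.2 • d x.1) ^ 2 := by
    calc (WF.card : ℤ) * ((q : ℤ) - 1) * ((q : ℤ) - 54) ^ 2
        = ∑ _x ∈ WF ×ˢ K, ((q : ℤ) - 54) ^ 2 := by
          rw [Finset.sum_const, Finset.card_product, nsmul_eq_mul]
          push_cast
          rw [hK]
      _ ≤ _ := by
          refine Finset.sum_le_sum fun x hx => ?_
          rw [Finset.mem_product, hWF, hKm] at hx
          rw [hSsm _ _ hx.2]
          exact pow_le_pow_left₀ (by linarith) (hS _ hx.1) 2
  have hup : ∑ x ∈ WF ×ˢ K, S (x.2 • d x.1) ^ 2 ≤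
      32 * ((q : ℤ) - 1) * ∑ e : Fin 3 → κ, S e ^ 2 := by
    rw [← Finset.sum_fiberwise (WF ×ˢ K) (fun x => x.2 • d x.1), Finset.mul_sum]
    refine Finset.sum_le_sum fun e _ => ?_
    have h1 : ∑ x ∈ (WF ×ˢ K).filter (fun x => x.2 • d x.1 = e), S (x.2 • d x.1) ^ 2 =
        (((WF ×ˢ K).filter (fun x => x.2 • d x.1 = e)).card : ℤ) * S e ^ 2 := by
      rw [← nsmul_eq_mul, ← Finset.sum_const]
      refine Finset.sum_congr rfl fun x hx => ?_
      rw [(Finset.mem_filter.1 hx).2]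
    rw [h1]
    by_cases he : e = 0
    · rw [he, hS00]
      simp
    · refine mul_le_mul_of_nonneg_right ?_ (sq_nonneg _)
      have h2 : ((WF ×ˢ K).filter (fun x => x.2 • d x.1 = e)).card ≤
          {P | P ∈ W ∧ ∃ c : κ, c ≠ 0 ∧ c • d P = e}.ncard := by
        rw [← Set.ncard_coe_finset]
        refine Set.ncard_le_ncard_of_injOn (fun x => x.1) ?_ ?_ (Set.toFinite _)
        · intro x hx
          rw [Finset.mem_coe, Finset.mem_filter, Finset.mem_product, hWF, hKm] at hx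
          exact ⟨hx.1.1, x.2, hx.1.2, hx.2⟩
        · intro x hx y hy hxy
          rw [Finset.mem_coe, Finset.mem_filter, Finset.mem_product, hWF, hKm] at hx hy
          simp only at hxy
          refine Prod.ext hxy ?_
          have h3 : x.2 • d x.1 = y.2 • d x.1 := by rw [hx.2, hxy, hy.2]
          rw [← sub_eq_zero, ← sub_smul, smul_eq_zero] at h3
          exact sub_eq_zero.mp (h3.resolve_right (hdP _ hx.1.1))
      have h4 := h2.trans (c8 e he)
      have h5 : ((((WF ×ˢ K).filter (fun x => x.2 • d x.1 = e)).card : ℕ) : ℤ) ≤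
          ((32 * (q - 1) : ℕ) : ℤ) := by exact_mod_cast h4
      push_cast [c1'] at h5
      exact h5
  have hsm : ∑ e : Fin 3 → κ, S e ^ 2 ≤ ((q : ℤ) + 1) * (q : ℤ) ^ 2 * ((q : ℤ) - 1) := by
    have h1 := sm_bound h2 f hf
    rw [← hq] at h1
    exact h1
  have hWb : ((q : ℤ) - 4) * (((q : ℤ) - 1) * ((q : ℤ) - 21)) ≤ (WF.card : ℤ) := by
    have h1 : LF.card * ((q - 1) * (q - 21)) ≤ WF.card := by
      refine le_card_of_rel (N P₀) (fun l hl T hT => ?_) (fun l hl => ?_)
        (fun l _ l' _ T hT hT' => hNd P₀ l l' T hT hT')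
      · rw [hN] at hT
        exact (hWF T).2 hT.1
      · exact c1l' P₀ hP₀ l ((hLFm l).1 hl)
    have h2 : ((LF.card * ((q - 1) * (q - 21)) : ℕ) : ℤ) ≤ (WF.card : ℤ) := by exact_mod_cast h1
    push_cast [c1', c21] at h2
    refine le_trans (mul_le_mul_of_nonneg_right ?_ ?_) h2
    · omega
    · exact mul_nonneg (by linarith) (by linarith)
  refine num_three hqz hWb (hlow.trans (hup.trans ?_))
  exact mul_le_mul_of_nonneg_left hsm (by linarith)

end Dq
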