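import Pool.Agent.Lib.MP_f80667_ag.Dq.NS
import Pool.Agent.Lib.MP_f80667_ag.Dq.Bin2
import Pool.Agent.Lib.MP_f80667_ag.Dp.Spread

/-!
Five variables: the simultaneous orthogonal basis of the pencil over an algebraically closed field, and
definitions for the argument over a finite field.

* `DG A B v`: the vectors `v i` are a basis, orthogonal for all members, and the pairs
  `(qv A (v i), qv B (v i))` are pairwise not proportional. The member `(a, b)` is degenerate if and only
  if `mQ A B a b (v i) = 0` for some `i`.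
* `chp A B`: the polynomial `det (A + Aᵀ - X (B + Bᵀ))`; `SepR A B`: it is separable (over a ring: coprime
  to its derivative) and `det (B + Bᵀ)` is a unit.
* `TB A B P u₁ u₂`: `P`, `u₁`, `u₂` is a basis of the tangent space at `P`.
* `WS A B`: the vectors of the points of `X` with `NS`; `LS A B`: the nondegenerate members, among the
  points of the projective line; `Rl A B P T l`: the line through `P` and `T` is on the member `l` and
  not in `X`.
-/

namespace Dq

open ZC Tq Dp Polynomial

universe u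

/-- A simultaneous orthogonal basis. -/
structure DG {k : Type*} [Field k] (A B : Matrix (Fin 5) (Fin 5) k) {E : Type*} [Field E]
    [Algebra k E] (v : Fin 5 → Fin 5 → E) : Prop where
  ind : LinearIndependent E v
  oA : ∀ i j, i ≠ j → bv A (v i) (v j) = 0
  oB : ∀ i j, i ≠ j → bv B (v i) (v j) = 0
  np : ∀ i j, i ≠ j → qv A (v i) * qv B (v j) - qv A (v j) * qv B (v i) ≠ 0

/-- The characteristic polynomial of the pencil. -/
noncomputable def chp {R : Type*} [CommRing R] (A B : Matrix (Fin 5) (Fin 5) R) : R[X] :=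
  ((A + A.transpose).map C - (X : R[X]) • (B + B.transpose).map C).det

/-- The characteristic polynomial has degree five and no multiple zeros, over all fields over `R`. -/
def SepR {R : Type*} [CommRing R] (A B : Matrix (Fin 5) (Fin 5) R) : Prop :=
  IsUnit (B + B.transpose).det ∧ (chp A B).Separable

/-- A basis of the tangent space. -/
structure TB {k : Type*} [Field k] (A B : Matrix (Fin 5) (Fin 5) k) {E : Type*} [Field E]
    [Algebra k E] (P u₁ u₂ : Fin 5 → E) : Prop where
  t1 : u₁ ∈ TP A B P
  t2 : u₂ ∈ TP A B P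
  sp : ∀ u ∈ TP A B P, ∃ x y z : E, u = x • P + y • u₁ + z • u₂
  ind : LinearIndependent E ![P, u₁, u₂]

/-- The coefficients of a form on the span of two vectors. -/
def cf {k : Type*} [Field k] {n : ℕ} (H : Matrix (Fin n) (Fin n) k) {E : Type*} [Field E]
    [Algebra k E] (u₁ u₂ : Fin n → E) : Fin 3 → E := ![qv H u₁, bv H u₁ u₂, qv H u₂]

section fin

variable {κ : Type*} [Field κ] (A B : Matrix (Fin 5) (Fin 5) κ)

/-- The vectors of the points with `NS`. -/
def WS : Set (Fin 5 → κ) := {P | P ≠ 0 ∧ qv A P = 0 ∧ qv B P = 0 ∧ NS A B P}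

/-- The nondegenerate members. -/
def LS : Set (Option κ) := {l | ND A B (pr1 l) (pr2 l)}

/-- The line through `P` and `T` is on the member `l`, and not in `X` if `P` and `T` are on `X`. -/
def Rl (P T : Fin 5 → κ) (l : Option κ) : Prop :=
  (bv A P T ≠ 0 ∨ bv B P T ≠ 0) ∧ mB A B (pr1 l) (pr2 l) P T = 0

end fin

section lem

theorem bf_cf {k : Type*} [Field k] {n : ℕ} (H : Matrix (Fin n) (Fin n) k) {E : Type*} [Field E]
    [Algebra k E] (u₁ u₂ : Fin n → E) (x y : E) :
    bf (cf H u₁ u₂) x y = qv H (x • u₁ + y • u₂) := by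
  rw [qv_lin, bf, cf]
  simp only [Matrix.cons_val]
  ring

theorem ev_cf {κ : Type*} [Field κ] {n : ℕ} {A B : Matrix (Fin n) (Fin n) κ}
    (u₁ u₂ : Fin n → κ) (l : Option κ) : ev (dsc (cf A u₁ u₂) (cf B u₁ u₂)) l =
      mB A B (pr1 l) (pr2 l) u₁ u₂ ^ 2 - 4 * mQ A B (pr1 l) (pr2 l) u₁ *
        mQ A B (pr1 l) (pr2 l) u₂ := by
  rw [ev_dsc, mB, mQ, mQ]
  simp only [cf, Matrix.cons_val]

theorem rl_unique {κ : Type*} [Field κ] {A B : Matrix (Fin 5) (Fin 5) κ} {P T : Fin 5 → κ}
    {l l' : Option κ} (h : Rl A B P T l) (h' : Rl A B P T l') : l = l' := by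
  apply pr_inj
  have e1 := h.2
  have e2 := h'.2
  rw [mB] at e1 e2
  rcases h.1 with h1 | h1
  · have e3 : (pr1 l * pr2 l' - pr1 l' * pr2 l) * bv A P T = 0 := by
      linear_combination pr2 l' * e1 - pr2 l * e2
    exact sub_eq_zero.1 ((mul_eq_zero.1 e3).resolve_right h1)
  · have e3 : (pr1 l * pr2 l' - pr1 l' * pr2 l) * bv B P T = 0 := by
      linear_combination pr1 l * e2 - pr1 l' * e1
    exact sub_eq_zero.1 ((mul_eq_zero.1 e3).resolve_right h1)

end lem

end Dq
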