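import Pool.Agent.Lib.MP_f80667_ag.Dq.Dg

/-! Elementary facts about the simultaneous orthogonal basis and the tangent spaces. -/

namespace Dq

open ZC Tq Dp Polynomial

universe u

variable {k : Type u} [Field k] {Ω : Type u} [Field Ω] [Algebra k Ω]
  {A B : Matrix (Fin 5) (Fin 5) k} {M : Type u} [Field M] [Algebra k M]

/-- The polar form of a member on two vectors of the basis. -/
theorem DG.mB_ne {v : Fin 5 → Fin 5 → M} (h : DG A B v) {a b : M} {i j : Fin 5} (hij : i ≠ j) :
    mB A B a b (v i) (v j) = 0 := by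
  rw [mB, h.oA i j hij, h.oB i j hij, mul_zero, mul_zero, add_zero]

/-- The basis of a simultaneous orthogonal basis. -/
noncomputable def DG.bas {v : Fin 5 → Fin 5 → M} (h : DG A B v) : Module.Basis (Fin 5) M (Fin 5 → M) :=
  basisOfLinearIndependentOfCardEqFinrank h.ind (by rw [Fintype.card_fin, Module.finrank_fin_fun])

theorem DG.bas_apply {v : Fin 5 → Fin 5 → M} (h : DG A B v) (i : Fin 5) : h.bas i = v i := by
  rw [DG.bas, coe_basisOfLinearIndependentOfCardEqFinrank]

/-- Proof: in the basis `v` the member is `x ↦ ∑ x i ^ 2 mQ (v i)`; a radical vector `r` satisfies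
`mB r (v i) = 2 x i mQ (v i) = 0`. -/
theorem DG.nd_iff {v : Fin 5 → Fin 5 → M} (h : DG A B v) (h2 : (2 : M) ≠ 0) {a b : M} :
    ND A B a b ↔ ∀ i, mQ A B a b (v i) ≠ 0 := by
  constructor
  · intro hnd i hi
    obtain ⟨y, hy⟩ := hnd (v i) (h.ind.ne_zero i)
    apply hy
    have h1 : mBl A B a b (v i) = 0 := by
      refine h.bas.ext fun j => ?_
      rw [h.bas_apply, mBl_apply, LinearMap.zero_apply]
      by_cases hij : i = j
      · subst hij
        rw [mB_self, hi, mul_zero]
      · exact h.mB_ne hij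
    have h3 := LinearMap.congr_fun h1 y
    rwa [mBl_apply, LinearMap.zero_apply] at h3
  · intro hi x hx
    by_contra hcon
    push Not at hcon
    apply hx
    have h1 : ∀ j, h.bas.repr x j = 0 := by
      intro j
      have h4 : mBl A B a b (v j) x = 0 := by
        rw [mBl_apply, mB_comm]
        exact hcon (v j)
      rw [← h.bas.sum_repr x, map_sum, Finset.sum_eq_single j] at h4
      · rw [map_smul, h.bas_apply, mBl_apply, mB_self, smul_eq_mul] at h4
        exact (mul_eq_zero.1 h4).resolve_right (mul_ne_zero h2 (hi j))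
      · intro i _ hij
        rw [map_smul, h.bas_apply, mBl_apply, h.mB_ne (Ne.symm hij), smul_zero]
      · intro hj
        exact absurd (Finset.mem_univ j) hj
    rw [← h.bas.sum_repr x]
    exact Finset.sum_eq_zero fun i _ => by rw [h1 i, zero_smul]

/-- There are at most five degenerate members. Proof: `ND.hom`, `DG.nd_iff` over `M`; for every `i` the
equation `mQ A B (pr1 l) (pr2 l) (v i) = 0` has at most one solution `l` (`pr_inj`;
`(qv A (v i), qv B (v i)) ≠ 0` by `np`). -/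
theorem DG.card_le [Finite k] {v : Fin 5 → Fin 5 → M} (h : DG A B v) (h2 : (2 : M) ≠ 0) :
    (LS A B)ᶜ.ncard ≤ 5 := by
  classical
  have h1 : ∀ l : Option k, l ∈ (LS A B)ᶜ → ∃ i,
      algebraMap k M (pr1 l) * qv A (v i) + algebraMap k M (pr2 l) * qv B (v i) = 0 := by
    intro l hl
    by_contra hcon
    push Not at hcon
    apply hl
    have h3 : ND A B (Algebra.ofId k M (pr1 l)) (Algebra.ofId k M (pr2 l)) :=
      (h.nd_iff h2).2 hcon
    exact (ND.hom (Algebra.ofId k M)).1 h3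
  choose! g hg using h1
  have h5 : (LS A B)ᶜ.ncard ≤ (Set.univ : Set (Fin 5)).ncard := by
    refine Set.ncard_le_ncard_of_injOn g (fun _ _ => Set.mem_univ _) ?_ Set.finite_univ
    intro l hl l' hl' he
    have e1 := hg l hl
    have e2 := hg l' hl'
    rw [← he] at e2
    apply pr_inj
    obtain ⟨j, hj⟩ : ∃ j : Fin 5, g l ≠ j := by
      obtain ⟨j, hj⟩ := exists_ne (g l)
      exact ⟨j, hj.symm⟩
    have hnp := h.np (g l) j hj
    apply (algebraMap k M).injective
    rw [map_mul, map_mul]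
    rw [← sub_eq_zero]
    have e3 : (algebraMap k M (pr1 l) * algebraMap k M (pr2 l') -
        algebraMap k M (pr1 l') * algebraMap k M (pr2 l)) *
        (qv A (v (g l)) * qv B (v j) - qv A (v j) * qv B (v (g l))) = 0 := by
      linear_combination (algebraMap k M (pr2 l') * qv B (v j) + algebraMap k M (pr1 l') * qv A (v j)) *
        e1 - (algebraMap k M (pr2 l) * qv B (v j) + algebraMap k M (pr1 l) * qv A (v j)) * e2
    exact (mul_eq_zero.1 e3).resolve_right hnp
  rwa [Set.ncard_univ, Nat.card_eq_fintype_card, Fintype.card_fin] at h5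

/-- Proof: `TP_rank`: the tangent space has dimension `3` and contains `P`. -/
theorem exists_tb [IsAlgClosed Ω] (hs : Sm Ω A B) (σ : M →ₐ[k] Ω) {P : Fin 5 → M} (hP : P ≠ 0)
    (aP : qv A P = 0) (bP : qv B P = 0) : ∃ u₁ u₂, TB A B P u₁ u₂ := by
  have hr := TP_rank hs σ hP aP bP
  have hPT : P ∈ TP A B P := by
    rw [mem_TP, bv_self, bv_self, aP, bP, mul_zero]
    exact ⟨rfl, rfl⟩
  have hP0 : (⟨P, hPT⟩ : TP A B P) ≠ 0 := fun h0 => hP (congrArg Subtype.val h0)
  obtain ⟨u₁, h1⟩ := exists_linearIndependent_pair_of_one_lt_finrank (R := M)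
    (M := TP A B P) (by omega) hP0
  obtain ⟨u₂, h2⟩ := exists_linearIndependent_snoc_of_lt_finrank (R := M) (M := TP A B P) h1
    (by omega)
  have e1 : (Fin.snoc ![(⟨P, hPT⟩ : TP A B P), u₁] u₂ : Fin 3 → TP A B P) =
      ![⟨P, hPT⟩, u₁, u₂] := by
    funext i
    fin_cases i <;> rfl
  rw [e1] at h2
  refine ⟨u₁, u₂, u₁.2, u₂.2, ?_, ?_⟩
  · intro u hu
    let b := basisOfLinearIndependentOfCardEqFinrank h2 (by rw [Fintype.card_fin]; omega)
    have hb : ⇑b = ![⟨P, hPT⟩, u₁, u₂] := coe_basisOfLinearIndependentOfCardEqFinrank _ _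
    have h3 := b.sum_repr ⟨u, hu⟩
    rw [Fin.sum_univ_three, hb] at h3
    exact ⟨b.repr ⟨u, hu⟩ 0, b.repr ⟨u, hu⟩ 1, b.repr ⟨u, hu⟩ 2, (congrArg Subtype.val h3).symm⟩
  · have h3 := h2.map' (Submodule.subtype _) (Submodule.ker_subtype _)
    have e : (Submodule.subtype (TP A B P)) ∘ ![(⟨P, hPT⟩ : TP A B P), u₁, u₂] =
        ![P, (u₁ : Fin 5 → M), (u₂ : Fin 5 → M)] := by
      funext i
      fin_cases i <;> rfl
    rwa [e] at h3

/-- The restrictions of the two forms to the tangent space modulo `P` are independent. Proof: `TB.sp`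
and `mQ A B a b (x • P + u) = mQ A B a b u` for `u ∈ TP A B P`. -/
theorem NS.indep {P u₁ u₂ : Fin 5 → M} (h : NS A B P) (aP : qv A P = 0) (bP : qv B P = 0)
    (ht : TB A B P u₁ u₂) (a b : M) (hab : a ≠ 0 ∨ b ≠ 0) :
    ∃ i, a * cf A u₁ u₂ i + b * cf B u₁ u₂ i ≠ 0 := by
  obtain ⟨u, hu, hu0⟩ := h a b hab
  by_contra hcon
  push Not at hcon
  apply hu0
  obtain ⟨x, y, z, rfl⟩ := ht.sp u hu
  have c0 := hcon 0
  have c1 := hcon 1
  have c2 := hcon 2
  simp only [cf, Matrix.cons_val] at c0 c1 c2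
  have t1 := mem_TP.1 ht.t1
  have t2 := mem_TP.1 ht.t2
  rw [add_assoc, mQ_add, mQ_smul, mB_add_right, mB_smul, mB_smul, mB_smul_right, mB_smul_right,
    mQ_lin]
  have e1 : mQ A B a b P = 0 := by rw [mQ, aP, bP]; ring
  have e2 : mB A B a b P u₁ = 0 := by rw [mB, t1.1, t1.2]; ring
  have e3 : mB A B a b P u₂ = 0 := by rw [mB, t2.1, t2.2]; ring
  rw [e1, e2, e3]
  rw [mQ, mQ, mB]
  linear_combination y ^ 2 * c0 + y * z * c1 + z ^ 2 * c2

end Dq
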