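import Pool.Agent.Lib.MP_f80667_ag.Dq.Dg

/-! Existence of the simultaneous orthogonal basis. -/

namespace Dq

open ZC Tq Dp Polynomial

universe u

variable {k : Type u} [Field k] {Ω : Type u} [Field Ω] [Algebra k Ω]
  {A B : Matrix (Fin 5) (Fin 5) k} {M : Type u} [Field M] [Algebra k M]

theorem chp_map {R S : Type*} [CommRing R] [CommRing S] (f : R →+* S)
    (A B : Matrix (Fin 5) (Fin 5) R) : chp (A.map f) (B.map f) = (chp A B).map f := by
  rw [chp, chp, ← coe_mapRingHom, RingHom.map_det]
  congr 1
  ext1 i j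
  simp [Matrix.map_apply]

/-- The value of the characteristic polynomial. -/
theorem chp_eval {R : Type*} [CommRing R] (A B : Matrix (Fin 5) (Fin 5) R) (t : R) :
    (chp A B).eval t = ((1 : R) • (A + A.transpose) + (-t) • (B + B.transpose)).det := by
  rw [chp, ← coe_evalRingHom, RingHom.map_det]
  congr 1
  ext1 i j
  simp [Matrix.map_apply]
  ring

theorem chp_natDegree {R : Type*} [Field R] {A B : Matrix (Fin 5) (Fin 5) R}
    (h : (B + B.transpose).det ≠ 0) : (chp A B).natDegree = 5 := by
  have e : chp A B = ((X : R[X]) • (-(B + B.transpose)).map C + (A + A.transpose).map C).det := by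
    rw [chp]
    congr 1
    ext1 i j
    simp [Matrix.map_apply]
    ring
  refine le_antisymm ?_ ?_
  · rw [e]
    exact (natDegree_det_X_add_C_le _ _).trans_eq (Fintype.card_fin 5)
  · refine le_natDegree_of_ne_zero ?_
    have h1 := coeff_det_X_add_C_card (-(B + B.transpose)) (A + A.transpose)
    rw [Fintype.card_fin] at h1
    rw [e, h1, Matrix.det_neg]
    exact mul_ne_zero (pow_ne_zero _ (neg_ne_zero.2 one_ne_zero)) h

/-- Five different roots. -/
theorem exists_roots {E : Type*} [Field E] [IsAlgClosed E] {p : E[X]} (hp : p.Separable)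
    (hd : p.natDegree = 5) : ∃ t : Fin 5 → E, Function.Injective t ∧ ∀ i, p.eval (t i) = 0 := by
  classical
  have h1 : p.roots.card = 5 := by
    rw [← hd]
    exact (splits_iff_card_roots.1 (IsAlgClosed.splits p))
  have h2 : p.roots.toFinset.card = 5 := by
    rw [Multiset.toFinset_card_of_nodup (nodup_roots hp), h1]
  refine ⟨fun i => ((p.roots.toFinset.equivFinOfCardEq h2).symm i : E), ?_, ?_⟩
  · intro i j hij
    exact (p.roots.toFinset.equivFinOfCardEq h2).symm.injective (Subtype.ext hij)
  · intro i
    have h3 := ((p.roots.toFinset.equivFinOfCardEq h2).symm i).2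
    rw [Multiset.mem_toFinset] at h3
    exact (mem_roots'.1 h3).2

theorem SepR.map {R S : Type*} [CommRing R] [CommRing S] (f : R →+* S)
    {A B : Matrix (Fin 5) (Fin 5) R} (h : SepR A B) : SepR (A.map f) (B.map f) := by
  refine ⟨?_, ?_⟩
  · have e : B.map f + (B.map f).transpose = f.mapMatrix (B + B.transpose) := by
      ext i j
      simp
    rw [e, ← RingHom.map_det]
    exact h.1.map f
  · rw [chp_map]
    exact h.2.map

/-- Proof. The polynomial `chp A B` has degree `5` with leading coefficient `- det (B + Bᵀ)`, and is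
separable, so over `Ω` it has five different roots `t i`. The member `(1, - t i)` is degenerate
(`nd_iff`); let `v i ≠ 0` be in its radical. For `i ≠ j` two different members vanish on the pair
`(v i, v j)`, so `bv A`, `bv B` do. `v i` is not on `X` (smoothness: `hs` at a point in the radical of a
member), so `qv B (v i) ≠ 0` (`qv A (v i) = t i qv B (v i)`), and
`qv A (v i) qv B (v j) - qv A (v j) qv B (v i) = (t i - t j) qv B (v i) qv B (v j) ≠ 0`. Independence: a
relation `∑ c i v i = 0` paired with `v j` by `bv B` gives `2 c j qv B (v j) = 0`. -/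
theorem exists_dg [IsAlgClosed Ω] (h2 : (2 : Ω) ≠ 0) (hs : Sm Ω A B)
    (h : SepR (A.map (algebraMap k Ω)) (B.map (algebraMap k Ω))) :
    ∃ v : Fin 5 → Fin 5 → Ω, DG A B v := by
  have hB : (B.map (algebraMap k Ω) + (B.map (algebraMap k Ω)).transpose).det ≠ 0 := h.1.ne_zero
  obtain ⟨t, ht, hr⟩ := exists_roots h.2 (chp_natDegree hB)
  have hv : ∀ i, ∃ v : Fin 5 → Ω, v ≠ 0 ∧ ∀ y, mB A B (1 : Ω) (-t i) v y = 0 := by
    intro i
    by_contra hcon
    push Not at hcon
    have h1 : ND A B (1 : Ω) (-t i) := hcon
    rw [nd_iff] at h1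
    apply h1
    have h2 := hr i
    rw [chp_eval] at h2
    have e : ∀ H : Matrix (Fin 5) (Fin 5) k, (H + H.transpose).map (algebraMap k Ω) =
        H.map (algebraMap k Ω) + (H.map (algebraMap k Ω)).transpose := by
      intro H
      ext a b
      simp
    rw [e, e]
    exact h2
  choose v hv0 hvr using hv
  have hrel : ∀ i y, bv A (v i) y = t i * bv B (v i) y := by
    intro i y
    have h1 := hvr i y
    rw [mB] at h1
    linear_combination h1
  have oB : ∀ i j, i ≠ j → bv B (v i) (v j) = 0 := by
    intro i j hij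
    have h1 := hrel i (v j)
    have h3 := hrel j (v i)
    rw [bv_comm A (v j) (v i), bv_comm B (v j) (v i)] at h3
    have h4 : (t i - t j) * bv B (v i) (v j) = 0 := by linear_combination h3 - h1
    exact (mul_eq_zero.1 h4).resolve_left (sub_ne_zero.2 fun h5 => hij (ht h5))
  have hqA : ∀ i, qv A (v i) = t i * qv B (v i) := by
    intro i
    have h1 := hrel i (v i)
    rw [bv_self, bv_self] at h1
    have h3 : (2 : Ω) * (qv A (v i) - t i * qv B (v i)) = 0 := by linear_combination h1
    exact sub_eq_zero.1 ((mul_eq_zero.1 h3).resolve_left h2)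
  have hqB : ∀ i, qv B (v i) ≠ 0 := by
    intro i h0
    have h1 : qv A (v i) = 0 := by rw [hqA, h0, mul_zero]
    exact one_ne_zero (hs (v i) (hv0 i) h1 h0 1 (-t i) (hvr i)).1
  refine ⟨v, ?_, ?_, oB, ?_⟩
  · rw [Fintype.linearIndependent_iff]
    intro c hc j
    have h1 : bvl B (v j) (∑ i, c i • v i) = 0 := by rw [hc, map_zero]
    rw [map_sum, Finset.sum_eq_single j] at h1
    · rw [map_smul, smul_eq_mul] at h1
      have h3 : bvl B (v j) (v j) = bv B (v j) (v j) := rfl
      rw [h3, bv_self] at h1
      exact (mul_eq_zero.1 h1).resolve_right (mul_ne_zero h2 (hqB j))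
    · intro i _ hij
      rw [map_smul, smul_eq_mul]
      have h3 : bvl B (v j) (v i) = bv B (v j) (v i) := rfl
      rw [h3, oB j i hij.symm, mul_zero]
    · intro h3
      exact absurd (Finset.mem_univ j) h3
  · intro i j hij
    rw [hrel, oB i j hij, mul_zero]
  · intro i j hij
    rw [hqA i, hqA j]
    have e : t i * qv B (v i) * qv B (v j) - t j * qv B (v j) * qv B (v i) =
        (t i - t j) * (qv B (v i) * qv B (v j)) := by ring
    rw [e]
    exact mul_ne_zero (sub_ne_zero.2 fun h5 => hij (ht h5)) (mul_ne_zero (hqB i) (hqB j))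

end Dq
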