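import Pool.Agent.Lib.MP_f80667_ag.Fa.Dfs
import Pool.Agent.Lib.MP_f80667_ag.Hm.Rl

/-! The completion at a place embeds in the algebraic closure of the completion at the place below. -/

open NumberField IsDedekindDomain

namespace Dq

open ZC

variable (F M : Type) [Field F] [NumberField F] [Field M] [NumberField M] [Algebra F M]

/-- The statement for the completions themselves. -/
private theorem exists_embU0 (w : HeightOneSpectrum (𝓞 M)) :
    ∃ (e₀ : (w.under (𝓞 F)).adicCompletion F →+* w.adicCompletion M)
      (e : w.adicCompletion M →+* AlgebraicClosure ((w.under (𝓞 F)).adicCompletion F)),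
      (∀ x : F, e₀ (algebraMap F ((w.under (𝓞 F)).adicCompletion F) x) =
        algebraMap M (w.adicCompletion M) (algebraMap F M x)) ∧ Continuous e₀ ∧
      (∀ x : F, e (algebraMap M (w.adicCompletion M) (algebraMap F M x)) =
        algebraMap ((w.under (𝓞 F)).adicCompletion F) _
          (algebraMap F ((w.under (𝓞 F)).adicCompletion F) x)) ∧
      ∀ y : (w.under (𝓞 F)).adicCompletion F,
        e (e₀ y) = algebraMap ((w.under (𝓞 F)).adicCompletion F) _ y := by
  classical
  let v : HeightOneSpectrum (𝓞 F) := w.under (𝓞 F)
  have hlo : w.asIdeal.LiesOver v.asIdeal := ⟨rfl⟩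
  have huc := HeightOneSpectrum.uniformContinuous_algebraMap_liesOver (A := 𝓞 F) (K := F) M v w
  let e1 : (v.valuation F).Completion →+* (w.valuation M).Completion :=
    UniformSpace.Completion.mapRingHom _ huc.continuous
  let e0 : v.adicCompletion F →+* w.adicCompletion M :=
    ((HeightOneSpectrum.adicCompletion.equiv M w).symm.toRingHom.comp e1).comp
      (HeightOneSpectrum.adicCompletion.equiv F v).toRingHom
  have hcont : Continuous e0 :=
    (HeightOneSpectrum.adicCompletion.continuous_ofCompletion M w).comp
      (UniformSpace.Completion.continuous_map.comp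
        (HeightOneSpectrum.adicCompletion.continuous_toCompletion F v))
  have he0 : ∀ x : F, e0 (algebraMap F (v.adicCompletion F) x) =
      algebraMap M (w.adicCompletion M) (algebraMap F M x) := by
    intro x
    apply HeightOneSpectrum.adicCompletion.ext
    change e1 _ = _
    exact UniformSpace.Completion.mapRingHom_coe huc.continuous _
  let _ : Algebra (v.adicCompletion F) (w.adicCompletion M) := e0.toAlgebra
  have : IsScalarTower F (v.adicCompletion F) (w.adicCompletion M) :=
    .of_algebraMap_eq fun x => (he0 x).symm
  have : ContinuousSMul (v.adicCompletion F) (w.adicCompletion M) :=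
    ⟨(hcont.comp continuous_fst).mul continuous_snd⟩
  have : Module.Finite (v.adicCompletion F) (w.adicCompletion M) := inferInstance
  have : Algebra.IsAlgebraic (v.adicCompletion F) (w.adicCompletion M) := inferInstance
  let e : w.adicCompletion M →ₐ[v.adicCompletion F] AlgebraicClosure (v.adicCompletion F) :=
    IsAlgClosed.lift
  refine ⟨e0, e.toRingHom, he0, hcont, fun x => ?_, fun y => ?_⟩
  · rw [← he0]
    exact e.commutes _
  · exact e.commutes y

/-- The completion of `M` at a finite place embeds in the algebraic closure of the completion of `F` at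
the place below, and the image contains this completion. -/
theorem exists_embU (w : HeightOneSpectrum (𝓞 M)) :
    ∃ (e : w.adicCompletion M →+* AlgebraicClosure (FK F (w.under (𝓞 F)))),
      (∀ x : F, e (algebraMap M (w.adicCompletion M) (algebraMap F M x)) =
        algebraMap (FK F (w.under (𝓞 F))) _ (algebraMap F (FK F (w.under (𝓞 F))) x)) ∧
      ∀ y : FK F (w.under (𝓞 F)), ∃ z, e z = algebraMap (FK F (w.under (𝓞 F))) _ y := by
  obtain ⟨e₀, e, -, -, h1, h2⟩ := exists_embU0 F M w
  exact ⟨e, h1, fun y => ⟨e₀ y, h2 y⟩⟩

end Dq
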