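import Pool.Agent.Lib.MP_f80667_ag.Dq.Surj5
import Pool.Agent.Lib.MP_f80667_ag.Dp.Top
import Pool.Agent.Lib.MP_f80667_ag.Dr.BrH

/-! Smooth intersections of two quadrics in five variables over number fields. -/

open NumberField IsDedekindDomain Polynomial
open scoped LinearAlgebra.Projectivization

namespace Dq

open ZC Tq Dp

theorem Res.sp {F : Type} [Field F] {ι : Type} [Fintype ι] {D : F[X]} {K : ι → Type}
    [∀ i, Field (K i)] [∀ i, Algebra F (K i)] {θ : ∀ i, K i} (h : Res D K θ) : Dr.Sp D K θ where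
  int := h.int
  gen := fun i => by
    have h1 := IntermediateField.adjoin_simple_toSubalgebra_of_isAlgebraic (h.int i).isAlgebraic
    rw [← h1, h.top]
    rfl
  inj := h.inj
  prod := h.prod.symm

/-- An element of the completion of a group of finite exponent comes from the group. -/
theorem LHat_all {G : Type*} [AddCommGroup G] {e : ℕ} (he : 0 < e) (h : ∀ a : G, e • a = 0)
    (z : LHat G) : ∃ a : G, ∀ m : ℕ+, z.Rep m a := by
  obtain ⟨a, ha⟩ := z.exists_rep ⟨e, he⟩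
  refine ⟨a, fun m => ?_⟩
  obtain ⟨b, hb⟩ := z.exists_rep (m * ⟨e, he⟩)
  have h1 : z.Rep ⟨e, he⟩ b := z.2 _ _ (dvd_mul_left _ _) b hb
  have h2 : z.Rep m b := z.2 _ _ (dvd_mul_right _ _) b hb
  have h3 : (QuotientAddGroup.mk a : G ⧸ mlt G (⟨e, he⟩ : ℕ+)) = QuotientAddGroup.mk b :=
    ha.symm.trans h1
  have h4 := QuotientAddGroup.eq.1 h3
  obtain ⟨c, hc⟩ := h4
  have h5 : e • c = -a + b := hc
  rw [h c] at h5
  have h6 : b = a := by
    rw [eq_comm, neg_add_eq_zero] at h5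
    exact h5.symm
  rwa [← h6]

variable {F : Type} [Field F] [NumberField F] {A B : Matrix (Fin 5) (Fin 5) F}

omit [NumberField F] in
theorem fin5_cyc {E : Type} [Field E] [Algebra F E]
    {c : ℙ (AlgebraicClosure E) (Fin 5 → AlgebraicClosure E) →₀ ℤ} :
    c ∈ cyc (AlgebraicClosure E) (hE E (Pl A B)) ↔
      c ∈ cyc (AlgebraicClosure E) (Pl (A.map (algebraMap F E)) (B.map (algebraMap F E))) := by
  rw [Ts.hE_Pl]

omit [NumberField F] in
theorem fin5_cyc0 {E : Type} [Field E] [Algebra F E]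
    {c : ℙ (AlgebraicClosure E) (Fin 5 → AlgebraicClosure E) →₀ ℤ} :
    c ∈ cyc0 (AlgebraicClosure E) (hE E (Pl A B)) ↔
      c ∈ cyc0 (AlgebraicClosure E) (Pl (A.map (algebraMap F E)) (B.map (algebraMap F E))) := by
  rw [Ts.hE_Pl]

/-- The representing cycle of degree `0` of a datum. -/
theorem rep_y (hh : ∀ j, ∃ d, (Pl A B j).IsHomogeneous d) {E : Type} [Field E] [CharZero E]
    [Algebra F E] {K₀ : Type} [Field K₀] [Algebra F K₀] [FiniteDimensional F K₀] {a b : K₀}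
    (hab : a ≠ 0 ∨ b ≠ 0) {t : ℙ K₀ (Fin (5 * 5) → K₀)} (ht : IsM A B a b t) {m : ℕ} (hm : Even m)
    (z : Z1 E (hE E (Pl A B)))
    {w : ℙ (AlgebraicClosure E) (Fin 5 → AlgebraicClosure E) →₀ ℤ} {P : E[X]}
    (hD : Dat (A.map (algebraMap F E)) (B.map (algebraMap F E)) P w)
    (h : z.1 + m • (∑ σ : K₀ →ₐ[F] AlgebraicClosure E, Ph (mapPt (σ : K₀ →+* _) t)) - w ∈
      ratEq (AlgebraicClosure E) (hE E (Pl A B))) :
    ∃ (y : Z1 E (hE E (Pl A B)))
      (z₀ : ℙ (AlgebraicClosure E) (Fin 5 → AlgebraicClosure E) →₀ ℤ),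
      z.1 - y.1 ∈ ratEq (AlgebraicClosure E) (hE E (Pl A B)) ∧
      z₀ ∈ cyc (AlgebraicClosure E) (Pl (A.map (algebraMap F E)) (B.map (algebraMap F E))) ∧
      Dat (A.map (algebraMap F E)) (B.map (algebraMap F E)) P (y.1 + (2 : ℤ) • z₀) := by
  have : CharZero K₀ := charZero_of_injective_algebraMap (algebraMap F K₀).injective
  obtain ⟨q, x, hL⟩ := ht
  obtain ⟨p, x', hL1, hp, -⟩ := hL.exists_np
  have hT := hL1.isT hab hp
  have h1 := Ts.PhL_mem (F := F) (Ω := AlgebraicClosure F) hT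
  have h2 : bc (emb' F E) (PhL (trPt F (AlgebraicClosure F) t)) ∈
      cyc (AlgebraicClosure E) (hE E (Pl A B)) :=
    bc_mem (emb' F E) hh h1.1
  rw [Ts.bc_PhL (emb' F E) hT] at h2
  obtain ⟨k, rfl⟩ := hm
  have h3 := nsmul_mem h2 k
  obtain ⟨c, hc, hwc⟩ : ∃ c ∈ cyc (AlgebraicClosure E)
      (Pl (A.map (algebraMap F E)) (B.map (algebraMap F E))), w - c ∈ ratEq (AlgebraicClosure E)
        (Pl (A.map (algebraMap F E)) (B.map (algebraMap F E))) := by
    obtain ⟨m, x, t, -, -, hR, hz⟩ := hD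
    refine ⟨_, sum_mem fun j _ => ?_, hz⟩
    have : CharZero (IntermediateField.adjoin E {x j}) :=
      charZero_of_injective_algebraMap (algebraMap E _).injective
    obtain ⟨p, y, hL⟩ := (hR j).1
    obtain ⟨p', y', hL', hp', -⟩ := hL.exists_np
    exact (Ts.PhL_mem (F := E) (Ω := AlgebraicClosure E) (hL'.isT (Or.inl one_ne_zero) hp')).1
  set Z := ∑ σ : K₀ →ₐ[F] AlgebraicClosure E, Ph (mapPt (σ : K₀ →+* AlgebraicClosure E) t) with hZ
  have hwc' : w - c ∈ ratEq (AlgebraicClosure E) (hE E (Pl A B)) := surj5_rat.2 hwc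
  have h4 : z.1 - (c - (k + k) • Z) ∈ ratEq (AlgebraicClosure E) (hE E (Pl A B)) := by
    have h5 := add_mem h hwc'
    convert h5 using 1
    abel
  have h6 : c - (k + k) • Z ∈ D0 E (hE E (Pl A B)) := by
    refine AddSubgroup.mem_inf.2 ⟨sub_mem (fin5_cyc.2 hc) (nsmul_mem h2 _), ?_⟩
    have h7 := Dz.ratEq_le_deg (hE E (Pl A B)) h4
    rw [AddMonoidHom.mem_ker, map_sub] at h7
    have h8 : ZC.deg (AlgebraicClosure E) z.1 = 0 := (AddSubgroup.mem_inf.1 z.2).2
    rw [h8, zero_sub, neg_eq_zero] at h7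
    exact h7
  refine ⟨⟨_, h6⟩, k • Z, h4, fin5_cyc.1 h3, ?_⟩
  obtain ⟨m, x, t, e1, e2, e3, e4⟩ := hD
  refine ⟨m, x, t, e1, e2, e3, ?_⟩
  have e5 := sub_mem e4 hwc
  convert e5 using 1
  change c - (k + k) • Z + (2 : ℤ) • k • Z - _ = _
  rw [two_zsmul, add_nsmul]
  abel

/-- **Orthogonal families come from `F`.** -/
theorem dl_orth5 (hs : ∀ x : Fin 5 → AlgebraicClosure F, x ≠ 0 →
      Zer (Pl A B) (AlgebraicClosure F) x →
      LinearIndependent (AlgebraicClosure F) fun (i : Fin 2) (j : Fin 5) =>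
        MvPolynomial.aeval x (MvPolynomial.pderiv j (Pl A B i)))
    (hA : ND A B (1 : F) 0) (hB : ND A B (0 : F) 1)
    (hh : ∀ j, ∃ d, (Pl A B j).IsHomogeneous d) (w : Fin 5 → F)
    (hw : IsCoprime (chp A B) (dlp A B w)) (a : FA (Pl A B))
    (ho : ∀ (g g' s : F[X]) (c' d : F), g.Monic → g.natDegree = 2 → d ≠ 0 →
      chp A B = C c' * (g * g') → g ∣ dlp A B w - C d * s ^ 2 → ¬ Dr.Sqm g (dlp A B w) →
      ¬ Dr.Sqm g' (dlp A B w) → Dr.Orth A B w g d a) :
    ∃ c : G1 F (Pl A B), dl (h := Pl A B) hh c = a := by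
  classical
  have hsF : Sm (AlgebraicClosure F) A B := sm_closure A B hs
  obtain ⟨hmon, hdeg⟩ := mf_monic hB
  obtain ⟨hchp, -⟩ := chp_mf hB
  have hsep : (chp A B).Separable := (sep_of_sm hsF hB).2
  have hdl : Dr.dl A B w = dlp A B w := rfl
  have hmfs : (mf A B).Separable := hsep.of_dvd ⟨_, by rw [hchp, mul_comm]⟩
  obtain ⟨ι, _, K, _, _, _, θ, hres⟩ := exists_res hmon hmfs
  have hne : ∀ i, aeval (θ i) (dlp A B w) ≠ 0 := by
    intro i h0
    obtain ⟨u, v, huv⟩ := hw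
    have h1 : aeval (θ i) (chp A B) = 0 := by
      rw [hchp, ← hres.prod, map_mul, map_prod, Finset.prod_eq_zero (Finset.mem_univ i)
        (minpoly.aeval F (θ i)), mul_zero]
    have h2 := congrArg (aeval (θ i)) huv
    rw [map_add, map_mul, map_mul, h0, h1, mul_zero, mul_zero, add_zero, map_one] at h2
    exact zero_ne_one h2
  let δ : ∀ i, (K i)ˣ := fun i => Units.mk0 _ (hne i)
  have hδ : ∀ i, (δ i : K i) = aeval (θ i) (dlp A B w) := fun i => Units.val_mk0 _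
  obtain ⟨S₁, hS₁⟩ := exists_gd hsF hA hB hres hne
  obtain ⟨S₂, hS₂⟩ := exists_S5 F hsF hB
  obtain ⟨S₃, hS₃⟩ := Dr.hyp_orth hsF hres.sp hdeg (neg_ne_zero.2 (det_ne_zero_B hB)) hchp hsep
    δ hδ a (by rw [hdl]; exact ho)
  have hz1 : ∀ v, ∃ z : Z1 (FK F v) (hE (FK F v) (Pl A B)), G1.cls z = a.1 v := fun v =>
    Quotient.exists_rep _
  have hz2 : ∀ v, ∃ z : Z1 (IK F v) (hE (IK F v) (Pl A B)), G1b.cls z = a.2 v := fun v =>
    Quotient.exists_rep _
  choose z1 hz1 using hz1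
  choose z2 hz2 using hz2
  obtain ⟨c, hc⟩ := surj5 hs hA hB hh hres hδ
    (Sb := S₁ ∪ S₂ ∪ S₃)
    (fun v hv => hS₁ v fun h => hv (Finset.mem_union_left _ (Finset.mem_union_left _ h)))
    (fun v hv => (hS₂ v fun h => hv (Finset.mem_union_left _ (Finset.mem_union_right _ h))).2)
    z1 z2
    (by
      intro K₀ _ _ _ a' b' t hnd ht m m' hm hm' P₀ R₀ w₁ w₂ hP hR
      have hab : a' ≠ 0 ∨ b' ≠ 0 := by
        by_contra hcon
        push Not at hcon
        obtain ⟨y, hy⟩ := hnd (fun _ => 1) (fun h0 => one_ne_zero (congrFun h0 0))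
        rw [hcon.1, hcon.2, mB, zero_mul, zero_mul, add_zero] at hy
        exact hy rfl
      refine hS₃ _ Finset.subset_union_right P₀ R₀ ⟨fun v hv => ?_, fun v hv => ?_⟩
      · obtain ⟨h1, h2, h3⟩ := hP v hv
        have : CharZero (FK F v) :=
          charZero_of_injective_algebraMap (algebraMap F (FK F v)).injective
        obtain ⟨y, z₀, h4, h5, h6⟩ := rep_y hh hab ht hm (z1 v) h2 h3
        refine ⟨by rw [h1]; exact hm.mul_right _, y, z₀, ?_, h5, h6⟩
        rw [← hz1 v]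
        exact (surj6_eq h4).symm
      · obtain ⟨h1, h2, h3⟩ := hR v hv
        have : CharZero (IK F v) :=
          charZero_of_injective_algebraMap (algebraMap F (IK F v)).injective
        obtain ⟨y, z₀, h4, h5, h6⟩ := rep_y hh hab ht hm' (z2 v) h2 h3
        refine ⟨by rw [h1]; exact hm'.mul_right _, y, z₀, ?_, h5, h6⟩
        rw [← hz2 v]
        exact (surj5_eqb (AddSubgroup.mem_sup_left h4)).symm)
  refine ⟨c, ?_⟩
  rw [hc]
  refine Prod.ext (funext fun v => ?_) (funext fun v => ?_)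
  · exact hz1 v
  · exact hz2 v

theorem exp_G1 {E : Type} [Field E] [CharZero E] [Algebra F E]
    (hs : Sm (AlgebraicClosure E) (A.map (algebraMap F E)) (B.map (algebraMap F E))) :
    ∃ e : ℕ, 0 < e ∧ ∀ a : G1 E (hE E (Pl A B)), e • a = 0 := by
  obtain ⟨e, he, h⟩ := exists_exp (k := E) (Ω := AlgebraicClosure E) hs le_rfl
  refine ⟨e, he, fun a => ?_⟩
  obtain ⟨z, rfl⟩ : ∃ z : D0 E (hE E (Pl A B)), G1.cls z = a := Quotient.exists_rep a
  have hz : z.1 ∈ cyc0 (AlgebraicClosure E) (Pl (A.map (algebraMap F E))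
      (B.map (algebraMap F E))) := fin5_cyc0.1 z.2
  have h2 := surj5_rat.2 (h _ hz)
  change (QuotientAddGroup.mk (e • z : D0 E (hE E (Pl A B))) :
      D0 E (hE E (Pl A B)) ⧸ (ratEq (AlgebraicClosure E) (hE E (Pl A B))).addSubgroupOf
        (D0 E (hE E (Pl A B)))) = 0
  exact (QuotientAddGroup.eq_zero_iff _).2 (AddSubgroup.mem_addSubgroupOf.2 h2)

/-- The adelic group has finite exponent. -/
theorem exp_FA (hs : ∀ x : Fin 5 → AlgebraicClosure F, x ≠ 0 →
      Zer (Pl A B) (AlgebraicClosure F) x →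
      LinearIndependent (AlgebraicClosure F) fun (i : Fin 2) (j : Fin 5) =>
        MvPolynomial.aeval x (MvPolynomial.pderiv j (Pl A B i)))
    (hB : ND A B (0 : F) 1) (hh : ∀ j, ∃ d, (Pl A B j).IsHomogeneous d) :
    ∃ e : ℕ, 0 < e ∧ ∀ a : FA (Pl A B), e • a = 0 := by
  classical
  have hsF : Sm (AlgebraicClosure F) A B := sm_closure A B hs
  obtain ⟨S, hS⟩ := exists_S5 F hsF hB
  have h1 : ∀ v : HeightOneSpectrum (𝓞 F), ∃ e : ℕ, 0 < e ∧
      ∀ a : G1 (FK F v) (hE (FK F v) (Pl A B)), e • a = 0 := fun v => by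
    have : CharZero (FK F v) :=
      charZero_of_injective_algebraMap (algebraMap F (FK F v)).injective
    exact exp_G1 (Ts.sm_ext A B hs (FK F v) (AlgebraicClosure (FK F v)) (algebraMap F (FK F v)))
  choose e he h1 using h1
  refine ⟨2 * ∏ v ∈ S, e v, Nat.mul_pos Nat.two_pos (Finset.prod_pos fun v _ => he v),
    fun a => Prod.ext (funext fun v => ?_) (funext fun v => ?_)⟩
  · change (2 * ∏ v ∈ S, e v) • a.1 v = 0
    by_cases hv : v ∈ S
    · rw [← Finset.mul_prod_erase S e hv, ← mul_assoc, mul_comm 2 (e v), mul_assoc, mul_comm,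
        mul_smul, h1, smul_zero]
    · have h2 : Subsingleton (G1 (FK F v) (hE (FK F v) (Pl A B))) := (hS v hv).2
      exact Subsingleton.elim _ _
  · change (2 * ∏ v ∈ S, e v) • a.2 v = 0
    by_cases hv : v.IsReal
    · obtain ⟨z, hz⟩ : ∃ z : D0 (IK F v) (hE (IK F v) (Pl A B)), G1b.cls z = a.2 v :=
        Quotient.exists_rep _
      have hzc : z.1 ∈ cyc (AlgebraicClosure (IK F v)) (Pl (A.map (algebraMap F (IK F v)))
          (B.map (algebraMap F (IK F v)))) := fin5_cyc.1 (AddSubgroup.mem_inf.1 z.2).1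
      have : CharZero (IK F v) :=
        charZero_of_injective_algebraMap (algebraMap F (IK F v)).injective
      have h2 := two_cyc (finrank_IK F v hv) hzc
      have h3 : (2 : ℕ) • z.1 ∈ ratEq (AlgebraicClosure (IK F v)) (hE (IK F v) (Pl A B)) ⊔
          normCyc (AlgebraicClosure (IK F v)) (hE (IK F v) (Pl A B)) :=
        surj5_ratn.2 (AddSubgroup.mem_sup_right h2)
      have h4 : (2 : ℕ) • a.2 v = 0 := by
        rw [← hz]
        change (QuotientAddGroup.mk ((2 : ℕ) • z : D0 (IK F v) (hE (IK F v) (Pl A B))) :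
          D0 (IK F v) (hE (IK F v) (Pl A B)) ⧸ (ratEq (AlgebraicClosure (IK F v))
            (hE (IK F v) (Pl A B)) ⊔ normCyc (AlgebraicClosure (IK F v))
              (hE (IK F v) (Pl A B))).addSubgroupOf (D0 (IK F v) (hE (IK F v) (Pl A B)))) = 0
        exact (QuotientAddGroup.eq_zero_iff _).2 (AddSubgroup.mem_addSubgroupOf.2 h3)
      rw [mul_comm, mul_smul, h4, smul_zero]
    · have h1 := (sub_G1b (A := fun i : Fin 0 => (i.elim0 : Matrix (Fin 0) (Fin 0)
        (MvPolynomial (Fin 5) F))) hh v (Or.inl (InfinitePlace.not_isReal_iff_isComplex.1 hv))).1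
      exact Subsingleton.elim _ _

/-- **Five variables.** -/
theorem q1_five (hs : ∀ x : Fin 5 → AlgebraicClosure F, x ≠ 0 →
      Zer (Pl A B) (AlgebraicClosure F) x →
      LinearIndependent (AlgebraicClosure F) fun (i : Fin 2) (j : Fin 5) =>
        MvPolynomial.aeval x (MvPolynomial.pderiv j (Pl A B i)))
    (hA : ND A B (1 : F) 0) (hB : ND A B (0 : F) 1)
    (hh : ∀ j, ∃ d, (Pl A B j).IsHomogeneous d) (w : Fin 5 → F)
    (hw : IsCoprime (chp A B) (dlp A B w)) (z : LHat (FA (Pl A B)))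
    (ho : ∀ (g g' s : F[X]) (c' d : F), g.Monic → g.natDegree = 2 → d ≠ 0 →
      chp A B = C c' * (g * g') → g ∣ dlp A B w - C d * s ^ 2 → ¬ Dr.Sqm g (dlp A B w) →
      ¬ Dr.Sqm g' (dlp A B w) → ∀ a, z.Rep 2 a → Dr.Orth A B w g d a) : ImD hh z := by
  obtain ⟨e, he, hexp⟩ := exp_FA hs hB hh
  obtain ⟨a, ha⟩ := LHat_all he hexp z
  obtain ⟨x, hx⟩ := dl_orth5 hs hA hB hh w hw a fun g g' s c' d h1 h2 h3 h4 h5 h6 h7 =>
    ho g g' s c' d h1 h2 h3 h4 h5 h6 h7 a (ha 2)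
  obtain ⟨c, rfl⟩ := G1.cls_surj x
  refine ⟨⟨fun m => QuotientAddGroup.mk (G1.cls c), fun m m' hm b hb => ?_⟩, fun m =>
    ⟨c, rfl, ?_⟩⟩
  · refine QuotientAddGroup.eq.2 ?_
    obtain ⟨y, hy⟩ := QuotientAddGroup.eq.1 hb
    obtain ⟨k, hk⟩ := hm
    refine ⟨(k : ℕ) • y, ?_⟩
    rw [← hy]
    change (m : ℕ) • (k : ℕ) • y = (m' : ℕ) • y
    rw [hk, PNat.mul_coe, mul_smul]
  · rw [← dl_cls, hx]
    exact ha m

end Dq
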