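import Pool.Agent.Lib.MP_f80667_ag.Dq.Dg
import Pool.Agent.Lib.MP_f80667_ag.Dp.FfA
import Pool.Agent.Lib.MP_f80667_ag.Dp.Wf
import Pool.Agent.Lib.MP_f80667_ag.Dp.LemZ

/-!
The points `T` of `X` over a finite field such that the line through `P` and `T` is on a given
nondegenerate member: parametrisation by a conic. `xm e f z c m` are the zeros of the member in the
space of `e`, `f`, `z`, and `T` is a multiple of `pW H P (xm e f z c m)`.
-/

namespace Dq

open ZC Tq Dp

universe u

/-- A basis `P, e, f, z` of the orthogonal space of `P`, in which the member is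
`x₁ x₂ + c x₃ ^ 2`. -/
structure Frm {k : Type*} [Field k] (A B : Matrix (Fin 5) (Fin 5) k) (a b : k)
    (P e f z : Fin 5 → k) (c : k) : Prop where
  qP : mQ A B a b P = 0
  pe : mB A B a b P e = 0
  pf : mB A B a b P f = 0
  pz : mB A B a b P z = 0
  qe : mQ A B a b e = 0
  qf : mQ A B a b f = 0
  ef : mB A B a b e f = 1
  ez : mB A B a b e z = 0
  fz : mB A B a b f z = 0
  qz : mQ A B a b z = c
  c0 : c ≠ 0
  sp : ∀ y, mB A B a b P y = 0 → ∃ x₀ x₁ x₂ x₃ : k, y = x₀ • P + x₁ • e + x₂ • f + x₃ • z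
  ind : LinearIndependent k ![P, e, f, z]

/-- The zeros of `x₁ x₂ + c x₃ ^ 2`. -/
def xm {k : Type*} [Field k] (e f z : Fin 5 → k) (c : k) (m : Option k) : Fin 5 → k :=
  (-(c * pr2 m ^ 2)) • e + pr1 m ^ 2 • f + (pr1 m * pr2 m) • z

section frm

variable {k : Type u} [Field k] {A B : Matrix (Fin 5) (Fin 5) k}

/-- A hyperbolic pair. -/
theorem exists_hyp {a b : k} {x w : Fin 5 → k} (hx : mQ A B a b x = 0)
    (hw : mB A B a b x w ≠ 0) : ∃ c d : k, c ≠ 0 ∧ mQ A B a b (c • w + d • x) = 0 ∧
      mB A B a b x (c • w + d • x) = 1 := by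
  refine ⟨(mB A B a b x w)⁻¹, -((mB A B a b x w)⁻¹ ^ 2 * mQ A B a b w), inv_ne_zero hw, ?_, ?_⟩
  · rw [mQ_lin, hx, mB_comm a b w x]
    field_simp
    ring
  · rw [mB_add_right, mB_smul_right, mB_smul_right, mB_self, hx, inv_mul_cancel₀ hw]
    ring

/-- Proof: the orthogonal space `N` of `P` has dimension `4` and contains `P`; on a complement of `P` in
`N` the member is nondegenerate, and has a zero `e ≠ 0` (`exists_zero3`); `f` in the complement with
`mB e f ≠ 0`, corrected to `mQ f = 0` and scaled to `mB e f = 1` (`2 ≠ 0` is not needed); `z` in the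
complement, orthogonal to `e` and `f`; `mQ z ≠ 0` since the member is nondegenerate. -/
theorem exists_frm [Finite k] (h2 : (2 : k) ≠ 0) {a b : k} (hnd : ND A B a b) {P : Fin 5 → k}
    (hP : P ≠ 0) (hq : mQ A B a b P = 0) : ∃ (e f z : Fin 5 → k) (c : k), Frm A B a b P e f z c := by
  have _ := h2
  -- a hyperbolic pair `P`, `P'`
  obtain ⟨w, hw⟩ := hnd P hP
  obtain ⟨c0, d0, -, hP'q, hPP'⟩ := exists_hyp hq hw
  set P' : Fin 5 → k := c0 • w + d0 • P with hP'
  -- the orthogonal space of the pair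
  have hker : 3 ≤ Module.finrank k
      (LinearMap.ker ((mBl A B a b P).prod (mBl A B a b P'))) := by
    have h1 := LinearMap.finrank_range_add_finrank_ker ((mBl A B a b P).prod (mBl A B a b P'))
    have h3 := Submodule.finrank_le (LinearMap.range ((mBl A B a b P).prod (mBl A B a b P')))
    rw [Module.finrank_fin_fun] at h1
    rw [Module.finrank_prod, Module.finrank_self] at h3
    omega
  have hmem : ∀ y, y ∈ LinearMap.ker ((mBl A B a b P).prod (mBl A B a b P')) ↔
      mB A B a b P y = 0 ∧ mB A B a b P' y = 0 := by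
    intro y
    rw [LinearMap.mem_ker]
    exact Prod.mk_eq_zero
  obtain ⟨e, heW, he0, hqe'⟩ := exists_zero3 _ hker (mqf A B a b)
  have hqe : mQ A B a b e = 0 := hqe'
  obtain ⟨hPe, hP'e⟩ := (hmem e).1 heW
  have hBP : mB A B a b P P = 0 := by rw [mB_self, hq, mul_zero]
  have hBP' : mB A B a b P' P' = 0 := by rw [mB_self, hP'q, mul_zero]
  have hBe : mB A B a b e e = 0 := by rw [mB_self, hqe, mul_zero]
  have hP'P : mB A B a b P' P = 1 := by rw [mB_comm, hPP']
  have heP : mB A B a b e P = 0 := by rw [mB_comm, hPe]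
  have heP' : mB A B a b e P' = 0 := by rw [mB_comm, hP'e]
  -- the second vector
  obtain ⟨w1, hw1⟩ := hnd e he0
  set w2 : Fin 5 → k := w1 + (-(mB A B a b P' w1)) • P + (-(mB A B a b P w1)) • P' with hw2
  have hPw2 : mB A B a b P w2 = 0 := by
    rw [hw2, mB_add_right, mB_add_right, mB_smul_right, mB_smul_right, hBP, hPP']
    ring
  have hP'w2 : mB A B a b P' w2 = 0 := by
    rw [hw2, mB_add_right, mB_add_right, mB_smul_right, mB_smul_right, hBP', hP'P]
    ring
  have hew2 : mB A B a b e w2 ≠ 0 := by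
    rw [hw2, mB_add_right, mB_add_right, mB_smul_right, mB_smul_right, heP, heP']
    rw [mul_zero, mul_zero, add_zero, add_zero]
    exact hw1
  obtain ⟨c1, d1, -, hqf, hef⟩ := exists_hyp hqe hew2
  set f : Fin 5 → k := c1 • w2 + d1 • e with hf
  have hPf : mB A B a b P f = 0 := by
    rw [hf, mB_add_right, mB_smul_right, mB_smul_right, hPw2, hPe]
    ring
  have hP'f : mB A B a b P' f = 0 := by
    rw [hf, mB_add_right, mB_smul_right, mB_smul_right, hP'w2, hP'e]
    ring
  have hBf : mB A B a b f f = 0 := by rw [mB_self, hqf, mul_zero]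
  have hfe : mB A B a b f e = 1 := by rw [mB_comm, hef]
  have hfP : mB A B a b f P = 0 := by rw [mB_comm, hPf]
  have hfP' : mB A B a b f P' = 0 := by rw [mB_comm, hP'f]
  -- the third vector
  obtain ⟨z, hz, hz0⟩ := Submodule.exists_mem_ne_zero_of_ne_bot
    (LinearMap.ker_ne_bot_of_finrank_lt (f := LinearMap.pi ![mBl A B a b P, mBl A B a b P',
      mBl A B a b e, mBl A B a b f]) (by
        rw [Module.finrank_fin_fun, Module.finrank_fin_fun]
        omega))
  have hz1 : ∀ i, (![mBl A B a b P, mBl A B a b P', mBl A B a b e, mBl A B a b f] i) z = 0 :=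
    fun i => congrFun (LinearMap.mem_ker.1 hz) i
  have hPz : mB A B a b P z = 0 := hz1 0
  have hP'z : mB A B a b P' z = 0 := hz1 1
  have hez : mB A B a b e z = 0 := hz1 2
  have hfz : mB A B a b f z = 0 := hz1 3
  -- a basis
  have hind5 : LinearIndependent k ![P, P', e, f, z] := by
    rw [Fintype.linearIndependent_iff]
    intro g hg
    rw [Fin.sum_univ_five] at hg
    simp only [Matrix.cons_val] at hg
    have hap : ∀ y : Fin 5 → k, g 0 * mB A B a b y P + g 1 * mB A B a b y P' +
        g 2 * mB A B a b y e + g 3 * mB A B a b y f + g 4 * mB A B a b y z = 0 := by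
      intro y
      have h3 := congrArg (mBl A B a b y) hg
      rw [map_add, map_add, map_add, map_add, map_smul, map_smul, map_smul, map_smul, map_smul,
        map_zero, mBl_apply, mBl_apply, mBl_apply, mBl_apply, mBl_apply] at h3
      exact h3
    have g0 : g 0 = 0 := by
      have h3 := hap P'
      rw [hP'P, hBP', hP'e, hP'f, hP'z] at h3
      linear_combination h3
    have g1 : g 1 = 0 := by
      have h3 := hap P
      rw [hBP, hPP', hPe, hPf, hPz] at h3
      linear_combination h3
    have g2 : g 2 = 0 := by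
      have h3 := hap f
      rw [hfP, hfP', hfe, hBf, hfz] at h3
      linear_combination h3
    have g3 : g 3 = 0 := by
      have h3 := hap e
      rw [heP, heP', hBe, hef, hez] at h3
      linear_combination h3
    have g4 : g 4 = 0 := by
      rw [g0, g1, g2, g3, zero_smul, zero_smul, zero_smul, zero_smul, zero_add, zero_add,
        zero_add, zero_add] at hg
      exact (smul_eq_zero.1 hg).resolve_right hz0
    intro i
    fin_cases i
    · exact g0
    · exact g1
    · exact g2
    · exact g3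
    · exact g4
  let bs := basisOfLinearIndependentOfCardEqFinrank hind5
    (by rw [Fintype.card_fin, Module.finrank_fin_fun])
  have hbs : ⇑bs = ![P, P', e, f, z] := coe_basisOfLinearIndependentOfCardEqFinrank _ _
  have hspan : ∀ y, ∃ x0 x1 x2 x3 x4 : k,
      y = x0 • P + x1 • P' + x2 • e + x3 • f + x4 • z := by
    intro y
    have h3 := bs.sum_repr y
    rw [Fin.sum_univ_five, hbs] at h3
    exact ⟨_, _, _, _, _, h3.symm⟩
  have hqz : mQ A B a b z ≠ 0 := by
    intro h0
    obtain ⟨y, hy⟩ := hnd z hz0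
    apply hy
    obtain ⟨x0, x1, x2, x3, x4, rfl⟩ := hspan y
    rw [mB_add_right, mB_add_right, mB_add_right, mB_add_right, mB_smul_right, mB_smul_right,
      mB_smul_right, mB_smul_right, mB_smul_right, mB_comm a b z P, mB_comm a b z P',
      mB_comm a b z e, mB_comm a b z f, mB_self, hPz, hP'z, hez, hfz, h0]
    ring
  refine ⟨e, f, z, mQ A B a b z, hq, hPe, hPf, hPz, hqe, hqf, hef, hez, hfz, rfl, hqz, ?_, ?_⟩
  · intro y hy
    obtain ⟨x0, x1, x2, x3, x4, rfl⟩ := hspan y
    have h3 : x1 = 0 := by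
      rw [mB_add_right, mB_add_right, mB_add_right, mB_add_right, mB_smul_right, mB_smul_right,
        mB_smul_right, mB_smul_right, mB_smul_right, hBP, hPP', hPe, hPf, hPz] at hy
      linear_combination hy
    exact ⟨x0, x2, x3, x4, by rw [h3, zero_smul, add_zero]⟩
  · have h3 := hind5.comp ![0, 2, 3, 4] (by decide)
    have h4 : (![P, P', e, f, z] : Fin 5 → Fin 5 → k) ∘ ![0, 2, 3, 4] = ![P, e, f, z] := by
      funext i
      fin_cases i <;> rfl
    rwa [h4] at h3

variable {a b : k} {P e f z : Fin 5 → k} {c : k}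

/-- The values of the member on the span of `P`, `e`, `f`, `z`. -/
theorem Frm.q_comb (h : Frm A B a b P e f z c) (x₀ x₁ x₂ x₃ : k) :
    mQ A B a b (x₀ • P + x₁ • e + x₂ • f + x₃ • z) = x₁ * x₂ + c * x₃ ^ 2 := by
  rw [mQ_add, mQ_add, mQ_add, mB_add, mB_add, mB_add]
  simp only [mQ_smul, mB_smul, mB_smul_right, h.qP, h.qe, h.qf, h.qz, h.pe, h.pf, h.pz, h.ef, h.ez,
    h.fz]
  ring

theorem Frm.b_comb (h : Frm A B a b P e f z c) (y : Fin 5 → k) (x₀ x₁ x₂ x₃ : k) :
    mB A B a b y (x₀ • P + x₁ • e + x₂ • f + x₃ • z) = x₀ * mB A B a b y P +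
      x₁ * mB A B a b y e + x₂ * mB A B a b y f + x₃ * mB A B a b y z := by
  have _ := h
  rw [mB_add_right, mB_add_right, mB_add_right, mB_smul_right, mB_smul_right, mB_smul_right,
    mB_smul_right]

theorem xm_eq (P e f z : Fin 5 → k) (c : k) (m : Option k) : xm e f z c m =
    (0 : k) • P + (-(c * pr2 m ^ 2)) • e + pr1 m ^ 2 • f + (pr1 m * pr2 m) • z := by
  rw [xm, zero_smul, zero_add]

theorem Frm.q_xm (h : Frm A B a b P e f z c) (m : Option k) :
    mQ A B a b (xm e f z c m) = 0 ∧ mB A B a b P (xm e f z c m) = 0 ∧ xm e f z c m ≠ 0 := by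
  rw [xm_eq P]
  refine ⟨?_, ?_, ?_⟩
  · rw [h.q_comb]
    ring
  · rw [h.b_comb, h.pe, h.pf, h.pz]
    ring
  · intro h0
    have h1 := Fintype.linearIndependent_iff.1 h.ind
      ![0, -(c * pr2 m ^ 2), pr1 m ^ 2, pr1 m * pr2 m] (by
        rw [Fin.sum_univ_four]
        exact h0)
    have h3 : -(c * pr2 m ^ 2) = 0 := h1 1
    have h4 : pr1 m ^ 2 = 0 := h1 2
    rcases pr_ne m with h5 | h5
    · exact h5 (pow_eq_zero_iff two_ne_zero |>.1 h4)
    · rw [neg_eq_zero] at h3
      exact h5 (pow_eq_zero_iff two_ne_zero |>.1 ((mul_eq_zero.1 h3).resolve_left h.c0))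

/-- Every zero of the member in the orthogonal space of `P` is `α P + r xm m`. Proof: the zero is
`x₀ P + x₁ e + x₂ f + x₃ z` with `x₁ x₂ + c x₃ ^ 2 = 0`. If `x₂ ≠ 0`: `m = some (x₃ / x₂)`, `r = x₂`; if
`x₂ = 0`: `x₃ = 0`, `m = none`, `r = -x₁ / c`. -/
theorem Frm.surj (h : Frm A B a b P e f z c) {y : Fin 5 → k} (hy : mQ A B a b y = 0)
    (hPy : mB A B a b P y = 0) : ∃ (α r : k) (m : Option k), y = α • P + r • xm e f z c m := by
  obtain ⟨x₀, x₁, x₂, x₃, rfl⟩ := h.sp y hPy
  rw [h.q_comb] at hy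
  by_cases hx : x₂ = 0
  · rw [hx, mul_zero, zero_add] at hy
    have h3 : x₃ = 0 := pow_eq_zero_iff two_ne_zero |>.1 ((mul_eq_zero.1 hy).resolve_left h.c0)
    refine ⟨x₀, -(x₁ / c), none, ?_⟩
    rw [xm, hx, h3, pr1_none, pr2_none]
    have h4 : -(x₁ / c) * -(c * 1 ^ 2) = x₁ := by
      have := h.c0
      field_simp
    rw [smul_add, smul_add, smul_smul, h4]
    simp
  · refine ⟨x₀, x₂, some (x₃ / x₂), ?_⟩
    rw [xm, pr1_some, pr2_some, smul_add, smul_add, smul_smul, smul_smul, smul_smul]
    have e1 : x₂ * -(c * (x₃ / x₂) ^ 2) = x₁ := by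
      field_simp
      linear_combination -hy
    have e2 : x₂ * 1 ^ 2 = x₂ := by ring
    have e3 : x₂ * (1 * (x₃ / x₂)) = x₃ := by field_simp
    rw [e1, e2, e3]
    abel

theorem Frm.inj (h : Frm A B a b P e f z c) {α α' r r' : k} {m m' : Option k} (hr : r ≠ 0)
    (he : α • P + r • xm e f z c m = α' • P + r' • xm e f z c m') : r = r' ∧ m = m' ∧ α = α' := by
  have h1 := Fintype.linearIndependent_iff.1 h.ind
    ![α - α', r * -(c * pr2 m ^ 2) - r' * -(c * pr2 m' ^ 2), r * pr1 m ^ 2 - r' * pr1 m' ^ 2,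
      r * (pr1 m * pr2 m) - r' * (pr1 m' * pr2 m')] (by
      rw [Fin.sum_univ_four]
      simp only [Matrix.cons_val]
      have he' := sub_eq_zero.2 he
      rw [xm, xm] at he'
      rw [← he']
      module)
  have e0 : α - α' = 0 := h1 0
  have e1 : r * -(c * pr2 m ^ 2) - r' * -(c * pr2 m' ^ 2) = 0 := h1 1
  have e2 : r * pr1 m ^ 2 - r' * pr1 m' ^ 2 = 0 := h1 2
  have e3 : r * (pr1 m * pr2 m) - r' * (pr1 m' * pr2 m') = 0 := h1 3
  have hc := h.c0
  have e1' : r * pr2 m ^ 2 - r' * pr2 m' ^ 2 = 0 := by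
    have h5 : c * (r * pr2 m ^ 2 - r' * pr2 m' ^ 2) = 0 := by linear_combination -e1
    exact (mul_eq_zero.1 h5).resolve_left hc
  have hm : m = m' ∧ r = r' := by
    cases m with
    | none =>
      cases m' with
      | none =>
        simp only [pr2_none] at e1'
        exact ⟨rfl, by linear_combination e1'⟩
      | some s =>
        simp only [pr1_none, pr1_some, pr2_none, pr2_some] at e1' e2 e3
        exfalso
        have : r' = 0 := by linear_combination -e2
        rw [this] at e1'
        exact hr (by linear_combination e1')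
    | some s =>
      cases m' with
      | none =>
        simp only [pr1_none, pr1_some, pr2_none, pr2_some] at e1' e2 e3
        exfalso
        exact hr (by linear_combination e2)
      | some s' =>
        simp only [pr1_some, pr2_some] at e1' e2 e3
        have h5 : r = r' := by linear_combination e2
        refine ⟨?_, h5⟩
        rw [← h5] at e3
        have h6 : r * (s - s') = 0 := by linear_combination e3
        rw [sub_eq_zero.1 ((mul_eq_zero.1 h6).resolve_left hr)]
  exact ⟨hm.2, hm.1, sub_eq_zero.1 e0⟩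

end frm

end Dq
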