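import Pool.Agent.Lib.MP_f80667_ag.Dq.DgA
import Pool.Agent.Lib.MP_f80667_ag.Dq.Frm5

/-! The numbers of points over a finite field: upper bound. -/

namespace Dq

open ZC Tq Dp

universe u

variable {κ : Type u} [Field κ] [Finite κ] {A B : Matrix (Fin 5) (Fin 5) κ} {Ω : Type u} [Field Ω]
  [Algebra κ Ω] [IsAlgClosed Ω]

/-- A criterion for `NS`. Proof: if the member `(a, b)` vanishes on `TP A B T` (dimension `3`,
`TP_rank`) it is degenerate (`nd_sub`), a multiple of the member of some `l ∉ LS` (`exists_pr`,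
`ND.scale`); let `r ≠ 0` be in its radical; `r ∈ TP A B T` by `rad_mem`. -/
theorem ns_of (h2 : (2 : κ) ≠ 0) (hs : Sm Ω A B) {T : Fin 5 → κ} (hT : T ≠ 0)
    (aT : qv A T = 0) (bT : qv B T = 0)
    (h : ∀ l ∉ LS A B, ∀ r : Fin 5 → κ, r ≠ 0 → (∀ y, mB A B (pr1 l) (pr2 l) r y = 0) →
      bv A r T ≠ 0 ∨ bv B r T ≠ 0) : NS A B T := by
  intro a b hab
  by_contra hcon
  push Not at hcon
  have hr := TP_rank hs (Algebra.ofId κ Ω) hT aT bT
  have hnd : ¬ ND A B a b := by
    intro hnd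
    obtain ⟨y, hy, hy0⟩ := nd_sub (le_refl 5) hnd (TP A B T) (by omega)
    exact hy0 (hcon y hy)
  obtain ⟨l, c, hc, ea, eb⟩ := exists_pr hab
  have hl : l ∉ LS A B := by
    intro h3
    apply hnd
    rw [ea, eb]
    exact (ND.scale hc).2 h3
  have h4 : ∃ r : Fin 5 → κ, r ≠ 0 ∧ ∀ y, mB A B (pr1 l) (pr2 l) r y = 0 := by
    by_contra h5
    push Not at h5
    exact hl h5
  obtain ⟨r, hr0, hr1⟩ := h4
  have h5 : r ∈ TP A B T := by
    refine rad_mem h2 hs (Algebra.ofId κ Ω) (le_refl 5) hab (TP A B T) (by omega) hcon fun y => ?_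
    rw [ea, eb, mB_scale, hr1, mul_zero]
  rcases h l hl r hr0 hr1 with h6 | h6
  · exact h6 (by rw [bv_comm]; exact (mem_TP.1 h5).1)
  · exact h6 (by rw [bv_comm]; exact (mem_TP.1 h5).2)

omit [Finite κ] in
/-- A form of the pencil which is independent of the member `l`. -/
theorem exists_indep (l : Option κ) : ∃ H : Matrix (Fin 5) (Fin 5) κ,
    (H = A ∧ pr2 l ≠ 0 ∨ H = B ∧ pr1 l ≠ 0) ∧
      ∀ P T : Fin 5 → κ, Rl A B P T l → bv H P T ≠ 0 := by
  by_cases h : pr2 l = 0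
  · have h1 : pr1 l ≠ 0 := (pr_ne l).resolve_right fun h2 => h2 h
    refine ⟨B, Or.inr ⟨rfl, h1⟩, fun P T hR h0 => ?_⟩
    have h3 := hR.2
    rw [mB, h0, mul_zero, add_zero] at h3
    have h4 := (mul_eq_zero.1 h3).resolve_left h1
    rcases hR.1 with h5 | h5
    · exact h5 h4
    · exact h5 h0
  · refine ⟨A, Or.inl ⟨rfl, h⟩, fun P T hR h0 => ?_⟩
    have h3 := hR.2
    rw [mB, h0, mul_zero, zero_add] at h3
    have h4 := (mul_eq_zero.1 h3).resolve_left h
    rcases hR.1 with h5 | h5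
    · exact h5 h0
    · exact h5 h4

/-- The number of nonzero elements times the number of points of the projective line. -/
theorem ncard_pairs {q : ℕ} (hq : q = Nat.card κ) (s : Set (Option κ)) :
    ({t : κ | t ≠ 0} ×ˢ s : Set (κ × Option κ)).ncard = (q - 1) * s.ncard := by
  have h1 : {t : κ | t ≠ 0}.ncard = q - 1 := by
    have h2 : {t : κ | t ≠ 0} = ({0} : Set κ)ᶜ := rfl
    have h3 := Set.ncard_add_ncard_compl ({0} : Set κ)
    rw [Set.ncard_singleton] at h3
    rw [h2, hq]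
    omega
  rw [Set.ncard_prod, h1]

/-- **Upper bound.** Proof: `exists_frm`; let `H = A` or `B` be independent of the member `l`. A point
`T` of the set is a zero of the member orthogonal to `P`, so `T = α P + r xm m` (`Frm.surj`), with
`r ≠ 0` and `bv H P (xm m) ≠ 0` (otherwise `bv H P T = 0` and `mB P T = 0`, so both `bv A P T`,
`bv B P T` vanish), and `α` is determined by `r`, `m` (`qv H T = r ^ 2 qv H (xm m) + α r bv H P (xm m)`).
So the set has at most `(q - 1) (q + 1)` elements. -/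
theorem c1_upper (h2 : (2 : κ) ≠ 0) {q : ℕ} (hq : q = Nat.card κ) {P : Fin 5 → κ} (hP : P ≠ 0)
    (aP : qv A P = 0) (bP : qv B P = 0) {l : Option κ} (hl : l ∈ LS A B) :
    {T | T ≠ 0 ∧ qv A T = 0 ∧ qv B T = 0 ∧ Rl A B P T l}.ncard ≤ (q - 1) * (q + 1) := by
  obtain ⟨e, f, z, c, hF⟩ := exists_frm h2 hl hP
    (show mQ A B (pr1 l) (pr2 l) P = 0 by rw [mQ, aP, bP, mul_zero, mul_zero, add_zero])
  obtain ⟨H, hH, hHR⟩ := exists_indep (A := A) (B := B) l
  have hHP : qv H P = 0 := by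
    rcases hH with ⟨rfl, _⟩ | ⟨rfl, _⟩
    · exact aP
    · exact bP
  let g : κ × Option κ → Fin 5 → κ := fun p =>
    (-(p.1 * qv H (xm e f z c p.2)) / bv H P (xm e f z c p.2)) • P + p.1 • xm e f z c p.2
  have hsub : {T | T ≠ 0 ∧ qv A T = 0 ∧ qv B T = 0 ∧ Rl A B P T l} ⊆
      g '' ({t : κ | t ≠ 0} ×ˢ (Set.univ : Set (Option κ))) := by
    rintro T ⟨_, aT, bT, hR⟩
    have hHT : qv H T = 0 := by
      rcases hH with ⟨rfl, _⟩ | ⟨rfl, _⟩
      · exact aT
      · exact bT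
    obtain ⟨α, r, m, hT⟩ := hF.surj
      (show mQ A B (pr1 l) (pr2 l) T = 0 by rw [mQ, aT, bT, mul_zero, mul_zero, add_zero]) hR.2
    have h1 := hHR P T hR
    have h3 : bv H P T = r * bv H P (xm e f z c m) := by
      rw [hT, bv_add_right, bv_smul_right, bv_smul_right, bv_self, hHP]
      ring
    rw [h3] at h1
    have hr : r ≠ 0 := left_ne_zero_of_mul h1
    have hb : bv H P (xm e f z c m) ≠ 0 := right_ne_zero_of_mul h1
    have h4 : r * (α * bv H P (xm e f z c m) + r * qv H (xm e f z c m)) = 0 := by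
      rw [hT, qv_lin, hHP] at hHT
      linear_combination hHT
    have h5 := (mul_eq_zero.1 h4).resolve_left hr
    refine ⟨(r, m), ⟨hr, trivial⟩, ?_⟩
    have h6 : -(r * qv H (xm e f z c m)) / bv H P (xm e f z c m) = α := by
      rw [div_eq_iff hb]
      linear_combination -h5
    change (-(r * qv H (xm e f z c m)) / bv H P (xm e f z c m)) • P + r • xm e f z c m = T
    rw [h6, hT]
  calc {T | T ≠ 0 ∧ qv A T = 0 ∧ qv B T = 0 ∧ Rl A B P T l}.ncard
      ≤ (g '' ({t : κ | t ≠ 0} ×ˢ (Set.univ : Set (Option κ)))).ncard :=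
        Set.ncard_le_ncard hsub (Set.toFinite _)
    _ ≤ ({t : κ | t ≠ 0} ×ˢ (Set.univ : Set (Option κ)) : Set (κ × Option κ)).ncard :=
        Set.ncard_image_le (Set.toFinite _)
    _ = (q - 1) * (q + 1) := by
        rw [ncard_pairs hq, Set.ncard_univ, Finite.card_option, hq]

end Dq
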