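import Pool.Agent.Lib.MP_f80667_ag.Dq.Frm5

/-! The parametrised points are not in a hyperplane given by a radical vector. -/

namespace Dq

open ZC Tq Dp

universe u

variable {k : Type u} [Field k] {A B : Matrix (Fin 5) (Fin 5) k} {a b : k} {P e f z : Fin 5 → k}
  {c : k}

/-- The other form is a member which is independent of `(a, b)`. -/
theorem FrmB_H {H : Matrix (Fin 5) (Fin 5) k} (hH : H = A ∧ b ≠ 0 ∨ H = B ∧ a ≠ 0) :
    ∃ h₁ h₂ : k, (∀ x : Fin 5 → k, qv H x = mQ A B h₁ h₂ x) ∧
      (∀ x y : Fin 5 → k, bv H x y = mB A B h₁ h₂ x y) ∧ a * h₂ - b * h₁ ≠ 0 := by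
  rcases hH with ⟨rfl, hb⟩ | ⟨rfl, ha⟩
  · refine ⟨1, 0, fun x => ?_, fun x y => ?_, ?_⟩
    · rw [mQ]; ring
    · rw [mB]; ring
    · rw [mul_zero, mul_one, zero_sub]
      exact neg_ne_zero.2 hb
  · refine ⟨0, 1, fun x => ?_, fun x y => ?_, ?_⟩
    · rw [mQ]; ring
    · rw [mB]; ring
    · rw [mul_zero, mul_one, sub_zero]
      exact ha

/-- The functional `bv H P` of the other form does not vanish at all `xm m`. Proof: otherwise it
vanishes on `e`, `f`, `z` (`m = none`, `some 0`, `some 1`), so on the kernel of `mB P`, so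
`bv H P = κ mB P`, against smoothness at `P` (`sm_pt`; `H` and the member are independent). -/
theorem Frm.exists_bv {Ω : Type u} [Field Ω] [Algebra k Ω] [IsAlgClosed Ω] (hs : Sm Ω A B)
    (h : Frm A B a b P e f z c) (hab : a ≠ 0 ∨ b ≠ 0) (hP : P ≠ 0) (aP : qv A P = 0)
    (bP : qv B P = 0) {H : Matrix (Fin 5) (Fin 5) k} (hH : H = A ∧ b ≠ 0 ∨ H = B ∧ a ≠ 0) :
    ∃ m, bv H P (xm e f z c m) ≠ 0 := by
  by_contra hcon
  push Not at hcon
  let σ : k →ₐ[k] Ω := Algebra.ofId k Ω
  obtain ⟨h₁, h₂, -, hb, hδ⟩ := FrmB_H hH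
  simp only [hb] at hcon
  have e1 : mB A B h₁ h₂ P e = 0 := by
    have h1 := hcon none
    rw [xm, pr1_none, pr2_none, mB_add_right, mB_add_right, mB_smul_right, mB_smul_right,
      mB_smul_right] at h1
    have h2 : c * mB A B h₁ h₂ P e = 0 := by linear_combination -h1
    exact (mul_eq_zero.1 h2).resolve_left h.c0
  have e2 : mB A B h₁ h₂ P f = 0 := by
    have h1 := hcon (some 0)
    rw [xm, pr1_some, pr2_some, mB_add_right, mB_add_right, mB_smul_right, mB_smul_right,
      mB_smul_right] at h1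
    linear_combination h1
  have e3 : mB A B h₁ h₂ P z = 0 := by
    have h1 := hcon (some 1)
    rw [xm, pr1_some, pr2_some, mB_add_right, mB_add_right, mB_smul_right, mB_smul_right,
      mB_smul_right, e1, e2] at h1
    linear_combination h1
  have e0 : mB A B h₁ h₂ P P = 0 := by
    rw [mB_self, mQ, aP, bP]
    ring
  have e4 : ∀ y, mB A B a b P y = 0 → mB A B h₁ h₂ P y = 0 := by
    intro y hy
    obtain ⟨x₀, x₁, x₂, x₃, rfl⟩ := h.sp y hy
    rw [mB_add_right, mB_add_right, mB_add_right, mB_smul_right, mB_smul_right, mB_smul_right,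
      mB_smul_right, e0, e1, e2, e3]
    ring
  obtain ⟨w, hw⟩ : ∃ w, mB A B a b P w ≠ 0 := by
    by_contra hcon
    push Not at hcon
    obtain ⟨z1, z2⟩ := sm_pt hs σ hP aP bP hcon
    rcases hab with h | h
    · exact h z1
    · exact h z2
  have e5 : ∀ y, mB A B (mB A B a b P w * h₁ - mB A B h₁ h₂ P w * a)
      (mB A B a b P w * h₂ - mB A B h₁ h₂ P w * b) P y = 0 := by
    intro y
    have h1 := e4 (y + (-(mB A B a b P y / mB A B a b P w)) • w) (by
      rw [mB_add_right, mB_smul_right, neg_mul, div_mul_cancel₀ _ hw]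
      ring)
    rw [mB_add_right, mB_smul_right] at h1
    have h2 : mB A B a b P w * mB A B h₁ h₂ P y - mB A B h₁ h₂ P w * mB A B a b P y = 0 := by
      field_simp at h1
      linear_combination h1
    rw [← h2]
    simp only [mB]
    ring
  obtain ⟨z1, z2⟩ := sm_pt hs σ hP aP bP e5
  have h6 : mB A B a b P w * (a * h₂ - b * h₁) = 0 := by
    linear_combination a * z2 - b * z1
  exact (mul_ne_zero hw hδ) h6

/-- Let `r ≠ 0` be a radical vector of another member `(a', b')`. The point `pW H P (xm m)` is not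
orthogonal to `r` for all `m`. Proof. Let `φ = mB A B a b r`; since `(a', b')` and `(a, b)` are
independent, `bv H r` is a multiple `e' φ`, `e' ≠ 0`, and `φ r ≠ 0` (otherwise `r` is on `X` and in the
radical of `(a', b')`: `sm_pt`). Let `F x = φ (pW H P x) = qv H x * φ P - bv H P x * φ x`, a quadratic
form on the orthogonal space `N` of `P`, with `F (x + α P) = F x` for `x ∈ N`. Suppose `F (xm m) = 0` for
all `m`. By `Frm.surj` `F` vanishes at all zeros of `Q = mQ a b` in `N`, so `F = c' Q` on `N` by `lemZ`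
(zero `e`, `g = f`; `s₀ = 2`, or any `s₀` different from `0`, `1`, `-1`: `hs0`). (1) `φ P ≠ 0`: the
member `m' = φ P H - c' Q` is not zero and vanishes on `U = N ∩ ker φ` of dimension at least `3`; `U`
and `r` are orthogonal for `m'` and `r ∉ U`, so the orthogonal space of `U` has dimension at least `4`,
against `finrank_add_finrank_orthogonal` and `rad_one` (`3 + 4 ≤ 5 + 1`). (2) `φ P = 0`:
`- bv H P x * φ x = c' Q x` on `N`. If `c' ≠ 0` then `Q` vanishes on `N ∩ ker φ`, of dimension at least
`3`, against `nd_sub`. If `c' = 0` then one of the functionals `bv H P`, `φ` vanishes on `N` (a vector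
space is not the union of two subspaces). `bv H P` does not (`Frm.exists_bv`). If `φ` vanishes on
`N = ker (mB P)` then `mB r = φ = κ mB P`, so `r = κ P` (`ND`), `κ ≠ 0`, and `P` is in the radical of
`(a', b')`, against smoothness at `P`. -/
theorem Frm.exists_f {Ω : Type u} [Field Ω] [Algebra k Ω] [IsAlgClosed Ω] (h2 : (2 : k) ≠ 0)
    {s₀ : k} (hs0 : s₀ ≠ 0) (hs1 : s₀ ≠ 1) (hs2 : s₀ ≠ -1) (hs : Sm Ω A B)
    (hnd : ND A B a b) (h : Frm A B a b P e f z c) (hP : P ≠ 0) (aP : qv A P = 0)
    (bP : qv B P = 0) {H : Matrix (Fin 5) (Fin 5) k} (hH : H = A ∧ b ≠ 0 ∨ H = B ∧ a ≠ 0)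
    {a' b' : k} (hab' : a' ≠ 0 ∨ b' ≠ 0) {r : Fin 5 → k} (hr : r ≠ 0)
    (hr' : ∀ y, mB A B a' b' r y = 0) :
    ∃ m, mB A B a b r (pW H P (xm e f z c m)) ≠ 0 := by
  by_contra hcon
  push Not at hcon
  let σ : k →ₐ[k] Ω := Algebra.ofId k Ω
  have hab : a ≠ 0 ∨ b ≠ 0 := by
    rcases hH with ⟨-, h1⟩ | ⟨-, h1⟩
    · exact Or.inr h1
    · exact Or.inl h1
  obtain ⟨m₀, hm₀⟩ := h.exists_bv hs hab hP aP bP hH
  obtain ⟨h₁, h₂, hq, hb, hδ⟩ := FrmB_H hH
  -- the two members are independent
  have hδ' : a * b' - a' * b ≠ 0 := by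
    intro h0
    obtain ⟨y, hy⟩ := hnd r hr
    apply hy
    have e1 := hr' y
    rw [mB] at e1 ⊢
    rcases hab' with h3 | h3
    · have e2 : a' * (a * bv A r y + b * bv B r y) = 0 := by
        linear_combination a * e1 - bv B r y * h0
      exact (mul_eq_zero.1 e2).resolve_left h3
    · have e2 : b' * (a * bv A r y + b * bv B r y) = 0 := by
        linear_combination b * e1 + bv A r y * h0
      exact (mul_eq_zero.1 e2).resolve_left h3
  -- all members are multiples of `φ` on `r`
  have hmul : ∀ (x₁ x₂ : k) (y : Fin 5 → k), (a * b' - a' * b) * mB A B x₁ x₂ r y =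
      (x₁ * b' - x₂ * a') * mB A B a b r y := by
    intro x₁ x₂ y
    have e1 := hr' y
    rw [mB] at e1
    rw [mB, mB]
    linear_combination (a * x₂ - b * x₁) * e1
  have hφr : mB A B a b r r ≠ 0 := by
    intro h0
    have e1 : mQ A B a b r = 0 := by
      rw [mB_self] at h0
      exact (mul_eq_zero.1 h0).resolve_left h2
    have e2 : mQ A B a' b' r = 0 := by
      have e3 := hr' r
      rw [mB_self] at e3
      exact (mul_eq_zero.1 e3).resolve_left h2
    rw [mQ] at e1 e2
    have aR : qv A r = 0 := by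
      have e4 : (a * b' - a' * b) * qv A r = 0 := by linear_combination b' * e1 - b * e2
      exact (mul_eq_zero.1 e4).resolve_left hδ'
    have bR : qv B r = 0 := by
      have e4 : (a * b' - a' * b) * qv B r = 0 := by linear_combination a * e2 - a' * e1
      exact (mul_eq_zero.1 e4).resolve_left hδ'
    obtain ⟨z1, z2⟩ := sm_pt hs σ hr aR bR hr'
    rcases hab' with h | h
    · exact h z1
    · exact h z2
  -- the quadratic form
  let F : QuadraticMap k (Fin 5 → k) k := mB A B a b r P • mqf A B h₁ h₂ -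
    QuadraticMap.linMulLin (mBl A B h₁ h₂ P) (mBl A B a b r)
  have hF : ∀ x, F x = mB A B a b r P * mQ A B h₁ h₂ x - mB A B h₁ h₂ P x * mB A B a b r x := by
    intro x
    rfl
  have hFp : ∀ x, F x = mB A B a b r (pW H P x) := by
    intro x
    have e : pW H P x = qv H x • P + (-bv H P x) • x := by
      rw [pW, neg_smul, sub_eq_add_neg]
    rw [hF, e, mB_add_right, mB_smul_right, mB_smul_right, hq, hb]
    ring
  have hPH : mQ A B h₁ h₂ P = 0 := by rw [mQ, aP, bP]; ring
  have hPPH : mB A B h₁ h₂ P P = 0 := by rw [mB_self, hPH, mul_zero]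
  have hFinv : ∀ (α t : k) (x : Fin 5 → k), F (α • P + t • x) = t ^ 2 * F x := by
    intro α t x
    rw [hF, hF, mQ_add, mQ_smul, mQ_smul, mB_smul, mB_smul_right, mB_add_right, mB_add_right,
      mB_smul_right, mB_smul_right, mB_smul_right, mB_smul_right, hPH, hPPH]
    ring
  let N : Submodule k (Fin 5 → k) := LinearMap.ker (mBl A B a b P)
  have hN : ∀ x, x ∈ N ↔ mB A B a b P x = 0 := fun x => LinearMap.mem_ker
  obtain ⟨c', hc'⟩ := lemZ h2 hs0 hs1 hs2 N (mqf A B a b) F (e := e) (g := f) ((hN e).2 h.pe)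
    ((hN f).2 h.pf) (by rw [mqf_apply]; exact h.qe) (by
      rw [mqf_polar, h.ef]
      exact one_ne_zero) (by
    intro u hu hu0
    rw [mqf_apply] at hu0
    obtain ⟨α, t, m, rfl⟩ := h.surj hu0 ((hN u).1 hu)
    rw [hFinv, hFp, hcon, mul_zero])
  -- the space of the vectors orthogonal to `P` and `r`
  let U : Submodule k (Fin 5 → k) := LinearMap.ker ((mBl A B a b P).prod (mBl A B a b r))
  have hU : ∀ x, x ∈ U ↔ mB A B a b P x = 0 ∧ mB A B a b r x = 0 := by
    intro x
    rw [LinearMap.mem_ker]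
    exact Prod.mk_eq_zero
  have hUf : 3 ≤ Module.finrank k U := by
    have e1 := LinearMap.finrank_range_add_finrank_ker ((mBl A B a b P).prod (mBl A B a b r))
    have e2 := Submodule.finrank_le (LinearMap.range ((mBl A B a b P).prod (mBl A B a b r)))
    rw [Module.finrank_prod, Module.finrank_self] at e2
    rw [Module.finrank_fin_fun] at e1
    show 3 ≤ Module.finrank k (LinearMap.ker ((mBl A B a b P).prod (mBl A B a b r)))
    omega
  by_cases hφP : mB A B a b r P = 0
  · by_cases hc0 : c' = 0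
    · -- `φ` vanishes on `N`
      have hφN : ∀ x ∈ N, mB A B a b r x = 0 := by
        have k1 : ∀ x ∈ N, mB A B h₁ h₂ P x * mB A B a b r x = 0 := by
          intro x hx
          have k2 := hc' x hx
          rw [hF, hφP, hc0] at k2
          linear_combination -k2
        have hx₀ : xm e f z c m₀ ∈ N := (hN _).2 (h.q_xm m₀).2.1
        rw [hb] at hm₀
        have k3 := (mul_eq_zero.1 (k1 _ hx₀)).resolve_left hm₀
        intro x hx
        have k4 := k1 _ (N.add_mem hx hx₀)
        rw [mB_add_right, mB_add_right, k3, add_zero] at k4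
        have k5 := k1 x hx
        have k6 : mB A B h₁ h₂ P (xm e f z c m₀) * mB A B a b r x = 0 := by
          linear_combination k4 - k5
        exact (mul_eq_zero.1 k6).resolve_left hm₀
      obtain ⟨w, hw⟩ := hnd P hP
      have k7 : r + (-(mB A B a b r w / mB A B a b P w)) • P = 0 := by
        by_contra hne
        obtain ⟨y, hy⟩ := hnd _ hne
        apply hy
        have k8 := hφN (y + (-(mB A B a b P y / mB A B a b P w)) • w) ((hN _).2 (by
          rw [mB_add_right, mB_smul_right, neg_mul, div_mul_cancel₀ _ hw]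
          ring))
        rw [mB_add_right, mB_smul_right] at k8
        rw [mB_add, mB_smul]
        field_simp at k8 ⊢
        linear_combination k8
      have k9 : r = (mB A B a b r w / mB A B a b P w) • P := by
        rw [neg_smul, add_neg_eq_zero] at k7
        exact k7
      have k10 : mB A B a b r w / mB A B a b P w ≠ 0 := by
        intro h0
        rw [h0, zero_smul] at k9
        exact hr k9
      obtain ⟨z1, z2⟩ := sm_pt hs σ hP aP bP (a := a') (b := b') (fun y => by
        have k11 := hr' y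
        rw [k9, mB_smul] at k11
        exact (mul_eq_zero.1 k11).resolve_left k10)
      rcases hab' with h | h
      · exact h z1
      · exact h z2
    · -- the member vanishes on `U`
      obtain ⟨y, hy, hy0⟩ := nd_sub le_rfl hnd U (by omega)
      apply hy0
      rw [hU] at hy
      have k2 := hc' y ((hN y).2 hy.1)
      rw [hF, hφP, hy.2, mqf_apply] at k2
      have k3 : c' * mQ A B a b y = 0 := by linear_combination -k2
      exact (mul_eq_zero.1 k3).resolve_left hc0
  · -- the member `m'` vanishes on `U`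
    obtain ⟨x₁, hx₁⟩ : ∃ x₁, x₁ = mB A B a b r P * h₁ - c' * a := ⟨_, rfl⟩
    obtain ⟨x₂, hx₂⟩ : ∃ x₂, x₂ = mB A B a b r P * h₂ - c' * b := ⟨_, rfl⟩
    have hx : x₁ ≠ 0 ∨ x₂ ≠ 0 := by
      by_contra hcon
      push Not at hcon
      obtain ⟨k1, k2⟩ := hcon
      have k3 : mB A B a b r P * (a * h₂ - b * h₁) = 0 := by
        rw [hx₁] at k1
        rw [hx₂] at k2
        linear_combination a * k2 - b * k1
      exact (mul_ne_zero hφP hδ) k3
    have hUq : ∀ y ∈ U, mQ A B x₁ x₂ y = 0 := by
      intro y hy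
      rw [hU] at hy
      have k2 := hc' y ((hN y).2 hy.1)
      rw [hF, hy.2, mqf_apply] at k2
      rw [hx₁, hx₂]
      rw [mQ, mQ] at k2
      rw [mQ]
      linear_combination k2
    have hrefl : (bvB A B x₁ x₂).IsRefl := by
      intro x y h
      rw [bvB_apply] at h ⊢
      rw [bv_comm A y x, bv_comm B y x]
      exact h
    have hU1 : U ≤ (bvB A B x₁ x₂).orthogonal U := by
      intro y hy
      rw [LinearMap.BilinForm.mem_orthogonal_iff]
      intro x hx
      change bvB A B x₁ x₂ x y = 0
      rw [bvB_apply]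
      have k1 := hUq x hx
      have k2 := hUq y hy
      have k3 := hUq (x + y) (U.add_mem hx hy)
      rw [mQ] at k1 k2
      rw [mQ, qv_add, qv_add] at k3
      linear_combination k3 - k1 - k2
    have hr1 : r ∈ (bvB A B x₁ x₂).orthogonal U := by
      rw [LinearMap.BilinForm.mem_orthogonal_iff]
      intro x hx
      change bvB A B x₁ x₂ x r = 0
      rw [bvB_apply, bv_comm A x r, bv_comm B x r]
      have k1 := hmul x₁ x₂ x
      rw [((hU x).1 hx).2, mul_zero] at k1
      exact (mul_eq_zero.1 k1).resolve_left hδ'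
    have hr2 : r ∉ U := fun hr3 => hφr ((hU r).1 hr3).2
    have hlt : U < (bvB A B x₁ x₂).orthogonal U := by
      refine lt_of_le_of_ne hU1 fun he => hr2 ?_
      rw [he]
      exact hr1
    have k4 := LinearMap.BilinForm.finrank_add_finrank_orthogonal hrefl U
    have k5 := Submodule.finrank_lt_finrank_of_lt hlt
    have k6 := rad_one h2 hs σ hx U
    rw [Module.finrank_fin_fun] at k4
    omega

end Dq
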