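import Pool.Agent.Lib.MP_f80667_ag.Dq.Frm5

/-! Zeros of binary forms. -/

namespace Dq

variable {κ : Type*} [Field κ]

open Polynomial in
/-- A binary form of degree `n` which is not zero has at most `n` zeros. -/
theorem form_le [Finite κ] {n : ℕ} (g : Fin (n + 1) → κ)
    (h : ∃ m, ∑ i, g i * pr2 m ^ (i : ℕ) * pr1 m ^ (n - (i : ℕ)) ≠ 0) :
    {m | ∑ i, g i * pr2 m ^ (i : ℕ) * pr1 m ^ (n - (i : ℕ)) = 0}.ncard ≤ n := by
  classical
  obtain ⟨P, hP⟩ : ∃ P : κ[X], P = ∑ i : Fin (n + 1), monomial (i : ℕ) (g i) := ⟨_, rfl⟩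
  have hs : ∀ s : κ, ∑ i, g i * pr2 (some s) ^ (i : ℕ) * pr1 (some s) ^ (n - (i : ℕ)) =
      P.eval s := by
    intro s
    rw [hP, eval_finsetSum]
    refine Finset.sum_congr rfl fun i _ => ?_
    rw [eval_monomial, pr2_some, pr1_some, one_pow, mul_one]
  have hn : ∑ i, g i * pr2 (none : Option κ) ^ (i : ℕ) * pr1 (none : Option κ) ^ (n - (i : ℕ)) =
      g (Fin.last n) := by
    rw [Finset.sum_eq_single (Fin.last n)]
    · rw [pr2_none, one_pow, mul_one, Fin.val_last, Nat.sub_self, pow_zero, mul_one]
    · intro i _ hi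
      have h1 : (i : ℕ) < n := Fin.val_lt_last hi
      rw [pr1_none, zero_pow (by omega), mul_zero]
    · intro h1
      exact absurd (Finset.mem_univ _) h1
  have hc : P.coeff n = g (Fin.last n) := by
    rw [hP, finsetSum_coeff, Finset.sum_eq_single (Fin.last n)]
    · rw [Fin.val_last, coeff_monomial, if_pos rfl]
    · intro i _ hi
      have h1 : (i : ℕ) < n := Fin.val_lt_last hi
      rw [coeff_monomial, if_neg (by omega)]
    · intro h1
      exact absurd (Finset.mem_univ _) h1
  have hd : P.natDegree ≤ n := by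
    rw [hP]
    refine natDegree_sum_le_of_forall_le _ _ fun i _ => ?_
    exact (natDegree_monomial_le _).trans (Nat.lt_succ_iff.1 i.2)
  have hP0 : P ≠ 0 := by
    intro h0
    obtain ⟨m, hm⟩ := h
    cases m with
    | none =>
      rw [hn, ← hc, h0, coeff_zero] at hm
      exact hm rfl
    | some s =>
      rw [hs, h0, eval_zero] at hm
      exact hm rfl
  have hR : P.roots.toFinset.card ≤ P.natDegree :=
    (Multiset.toFinset_card_le _).trans (card_roots' P)
  have hi : ((some '' (P.roots.toFinset : Set κ)) : Set (Option κ)).ncard =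
      P.roots.toFinset.card := by
    rw [Set.ncard_image_of_injective _ (Option.some_injective κ), Set.ncard_coe_finset]
  by_cases h0 : g (Fin.last n) = 0
  · have hlt : P.natDegree ≠ n := by
      intro h1
      apply hP0
      rw [← leadingCoeff_eq_zero, leadingCoeff, h1, hc, h0]
    have hsub : {m | ∑ i, g i * pr2 m ^ (i : ℕ) * pr1 m ^ (n - (i : ℕ)) = 0} ⊆
        insert none (some '' (P.roots.toFinset : Set κ)) := by
      intro m hm
      cases m with
      | none => exact Set.mem_insert _ _
      | some s =>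
        refine Set.mem_insert_of_mem _ ⟨s, ?_, rfl⟩
        rw [Finset.mem_coe, Multiset.mem_toFinset, mem_roots hP0]
        exact (hs s).symm.trans hm
    have h1 := Set.ncard_le_ncard hsub (Set.toFinite _)
    have h3 := Set.ncard_insert_le (none : Option κ) (some '' (P.roots.toFinset : Set κ))
    omega
  · have hsub : {m | ∑ i, g i * pr2 m ^ (i : ℕ) * pr1 m ^ (n - (i : ℕ)) = 0} ⊆
        some '' (P.roots.toFinset : Set κ) := by
      intro m hm
      cases m with
      | none => exact absurd (hn.symm.trans hm) h0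
      | some s =>
        refine ⟨s, ?_, rfl⟩
        rw [Finset.mem_coe, Multiset.mem_toFinset, mem_roots hP0]
        exact (hs s).symm.trans hm
    have h1 := Set.ncard_le_ncard hsub (Set.toFinite _)
    omega

theorem ev_form (d : Fin 3 → κ) (l : Option κ) :
    ev d l = ∑ i, d i * pr2 l ^ (i : ℕ) * pr1 l ^ (2 - (i : ℕ)) := by
  rw [Fin.sum_univ_three, ev]
  simp
  ring

/-- A binary quadratic form which is not zero has at most two zeros. -/
theorem ev_le [Finite κ] {d : Fin 3 → κ} (h : ∃ l, ev d l ≠ 0) : {l | ev d l = 0}.ncard ≤ 2 := by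
  simp only [ev_form] at h ⊢
  exact form_le d h

/-- A binary quartic form which is not zero has at most four zeros. Proof: for `m = some s` a
polynomial in `s` of degree at most four; if the value at `none` (the leading coefficient) is `0` its
degree is at most three. -/
theorem quart_le [Finite κ] (g : Fin 5 → κ)
    (h : ∃ m, ∑ i, g i * pr2 m ^ (i : ℕ) * pr1 m ^ (4 - (i : ℕ)) ≠ 0) :
    {m | ∑ i, g i * pr2 m ^ (i : ℕ) * pr1 m ^ (4 - (i : ℕ)) = 0}.ncard ≤ 4 :=
  form_le g h

/-- The values of a quadratic form at the vectors `xm` are the values of a binary quartic form. -/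
theorem quart_xm (G : QuadraticMap κ (Fin 5 → κ) κ) (e f z : Fin 5 → κ) (c : κ) :
    ∃ g : Fin 5 → κ, ∀ m, G (xm e f z c m) =
      ∑ i, g i * pr2 m ^ (i : ℕ) * pr1 m ^ (4 - (i : ℕ)) := by
  refine ⟨![G f, QuadraticMap.polar G f z, G z - c * QuadraticMap.polar G e f,
    -(c * QuadraticMap.polar G e z), c ^ 2 * G e], fun m => ?_⟩
  rw [Fin.sum_univ_five, xm, QuadraticMap.map_add ⇑G, QuadraticMap.map_add ⇑G,
    QuadraticMap.polar_add_left]
  simp only [QuadraticMap.map_smul, QuadraticMap.polar_smul_left, QuadraticMap.polar_smul_right,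
    smul_eq_mul, Matrix.cons_val]
  simp
  ring

end Dq
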