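import Pool.Agent.Lib.MP_f80667_ag.Dq.FinB1
import Pool.Agent.Lib.MP_f80667_ag.Dq.FrmB
import Pool.Agent.Lib.MP_f80667_ag.Dq.Zer

/-! The numbers of points over a finite field: lower bound. -/

namespace Dq

open ZC Tq Dp

universe u

variable {κ : Type u} [Field κ] [Finite κ] {A B : Matrix (Fin 5) (Fin 5) κ} {Ω : Type u} [Field Ω]
  [Algebra κ Ω] [IsAlgClosed Ω]

omit [Finite κ] in
/-- Two radical vectors of a member are proportional. -/
theorem rad_prop (h2 : (2 : κ) ≠ 0) (hs : Sm Ω A B) {a b : κ} (hab : a ≠ 0 ∨ b ≠ 0)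
    {r r' : Fin 5 → κ} (hr0 : r ≠ 0) (hr : ∀ y, mB A B a b r y = 0)
    (hr' : ∀ y, mB A B a b r' y = 0) : ∃ c : κ, r' = c • r := by
  by_contra hcon
  push Not at hcon
  refine Dp.rad_le h2 hs (Algebra.ofId κ Ω) hab (u := r) (u' := r') ?_ hr hr'
  rw [LinearIndependent.pair_iff' hr0]
  intro c hc
  exact hcon c hc.symm

omit [Finite κ] in
/-- The functional of the second member as a quadratic form. -/
theorem exists_quad (H : Matrix (Fin 5) (Fin 5) κ) (a b : κ) (P r : Fin 5 → κ) :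
    ∃ G : QuadraticMap κ (Fin 5 → κ) κ, ∀ x, G x = mB A B a b r (pW H P x) := by
  refine ⟨(mB A B a b r P) • mqf H H 1 0 +
    (-1 : κ) • QuadraticMap.linMulLin (bvl H P) (mBl A B a b r), fun x => ?_⟩
  rw [add_apply, smul_apply, smul_apply,
    QuadraticMap.linMulLin_apply, mBl_apply, mqf_apply, pW, sub_eq_add_neg, ← neg_smul,
    mB_add_right, mB_smul_right, mB_smul_right, mQ]
  change mB A B a b r P • (1 * qv H x + 0 * qv H x) + -1 • (bv H P x * mB A B a b r x) = _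
  rw [smul_eq_mul, smul_eq_mul]
  ring

omit [Finite κ] in
/-- The second point is on `X`. -/
theorem pw_mem {H : Matrix (Fin 5) (Fin 5) κ} {a b : κ} (hH : H = A ∧ b ≠ 0 ∨ H = B ∧ a ≠ 0)
    {P x : Fin 5 → κ} (aP : qv A P = 0) (bP : qv B P = 0) (hx : mQ A B a b x = 0)
    (hPx : mB A B a b P x = 0) : qv A (pW H P x) = 0 ∧ qv B (pW H P x) = 0 := by
  have hq : ∀ G : Matrix (Fin 5) (Fin 5) κ, qv G P = 0 → qv G (pW H P x) =
      -(qv H x * bv H P x * bv G P x) + bv H P x ^ 2 * qv G x := by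
    intro G hG
    rw [pW, sub_eq_add_neg, ← neg_smul, qv_lin, hG]
    ring
  have hA := hq A aP
  have hB := hq B bP
  have hsum : a * qv A (pW H P x) + b * qv B (pW H P x) = 0 := by
    rw [hA, hB]
    rw [mQ] at hx
    rw [mB] at hPx
    linear_combination (-(qv H x * bv H P x)) * hPx + bv H P x ^ 2 * hx
  rcases hH with ⟨rfl, hb⟩ | ⟨rfl, ha⟩
  · have h1 : qv H (pW H P x) = 0 := by
      rw [hA]
      ring
    rw [h1, mul_zero, zero_add] at hsum
    exact ⟨h1, (mul_eq_zero.1 hsum).resolve_left hb⟩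
  · have h1 : qv H (pW H P x) = 0 := by
      rw [hB]
      ring
    rw [h1, mul_zero, add_zero] at hsum
    exact ⟨(mul_eq_zero.1 hsum).resolve_left ha, h1⟩

/-- **Lower bound.** Proof: `exists_frm`, `H` as in `c1_upper`. For every `l' ∉ LS` (at most five,
`DG.card_le`) choose a radical vector `r l' ≠ 0`. For `m` with `bv H P (xm m) ≠ 0` and
`mB l (r l') (pW H P (xm m)) ≠ 0` for all `l' ∉ LS` and `t ≠ 0` the vector `T = t pW H P (xm m)` is on
`X` (`pW_zer` or directly), `Rl A B P T l` (`bv H P T = - t bv H P (xm m) ^ 2`), and satisfies `NS` by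
`ns_of` (`mB l r T ≠ 0` implies that `bv A r T`, `bv B r T` are not both `0`). Different pairs `(t, m)`
give different `T` (`Frm.inj`: `T = (..) P - t bv H P (xm m) xm m`). The function
`m ↦ bv H P (xm m)` is a binary quadratic form in `m`, not zero (`Frm.exists_bv`), so at most two `m` are
excluded (`ev_le`); `m ↦ mB l (r l') (pW H P (xm m))` is the value at `xm m` of a quadratic form, not
zero (`Frm.exists_f`, `s₀` exists since `q ≥ 22`), so at most four `m` are excluded (`quart_xm`,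
`quart_le`). So at least `(q - 1) (q + 1 - 2 - 20)` vectors. -/
theorem c1_lower (h2 : (2 : κ) ≠ 0) (hs : Sm Ω A B) {v : Fin 5 → Fin 5 → Ω} (hv : DG A B v)
    {q : ℕ} (hq : q = Nat.card κ) (hq0 : 22 ≤ q) {P : Fin 5 → κ} (hP : P ≠ 0)
    (aP : qv A P = 0) (bP : qv B P = 0) {l : Option κ} (hl : l ∈ LS A B) :
    (q - 1) * (q - 21) ≤ {T | T ∈ WS A B ∧ Rl A B P T l}.ncard := by
  classical
  have : Fintype κ := Fintype.ofFinite κ
  have h2' : (2 : Ω) ≠ 0 := rad_two_ne h2
  obtain ⟨e, f, z, c, hF⟩ := exists_frm h2 hl hP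
    (show mQ A B (pr1 l) (pr2 l) P = 0 by rw [mQ, aP, bP, mul_zero, mul_zero, add_zero])
  obtain ⟨H, hH, -⟩ := exists_indep (A := A) (B := B) l
  have hHP : qv H P = 0 := by
    rcases hH with ⟨rfl, _⟩ | ⟨rfl, _⟩
    · exact aP
    · exact bP
  -- the radical vectors
  have hrad : ∀ l' : Option κ, l' ∉ LS A B → ∃ r : Fin 5 → κ, r ≠ 0 ∧
      ∀ y, mB A B (pr1 l') (pr2 l') r y = 0 := by
    intro l' hl'
    by_contra h5
    push Not at h5
    exact hl' h5
  choose! r hr0 hr1 using hrad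
  -- the excluded parameters
  obtain ⟨s₀, hs0, hs1, hs2⟩ : ∃ s₀ : κ, s₀ ≠ 0 ∧ s₀ ≠ 1 ∧ s₀ ≠ -1 := by
    have h3 : ({0, 1, -1} : Finset κ).card < Fintype.card κ := by
      have h4 : ({0, 1, -1} : Finset κ).card ≤ 3 := Finset.card_le_three
      rw [Nat.card_eq_fintype_card] at hq
      omega
    obtain ⟨s₀, hs⟩ := Finset.exists_mem_notMem_of_card_lt_card
      (s := ({0, 1, -1} : Finset κ)) (t := Finset.univ) (by rwa [Finset.card_univ])
    simp only [Finset.mem_insert, Finset.mem_singleton, not_or] at hs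
    exact ⟨s₀, hs.2.1, hs.2.2.1, hs.2.2.2⟩
  let B0 : Set (Option κ) := {m | bv H P (xm e f z c m) = 0}
  let BL : Option κ → Set (Option κ) := fun l' =>
    {m | mB A B (pr1 l) (pr2 l) (r l') (pW H P (xm e f z c m)) = 0}
  have hB0 : B0.ncard ≤ 2 := by
    have h3 : ∀ m, ev ![bv H P f, bv H P z, -(c * bv H P e)] m = bv H P (xm e f z c m) := by
      intro m
      rw [xm, bv_add_right, bv_add_right, bv_smul_right, bv_smul_right, bv_smul_right, ev]
      simp only [Matrix.cons_val]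
      ring
    obtain ⟨m, hm⟩ := hF.exists_bv hs (pr_ne l) hP aP bP hH
    have h4 := ev_le (d := ![bv H P f, bv H P z, -(c * bv H P e)]) ⟨m, by rwa [h3]⟩
    simp only [h3] at h4
    exact h4
  have hBL : ∀ l' ∉ LS A B, (BL l').ncard ≤ 4 := by
    intro l' hl'
    obtain ⟨G, hG⟩ := exists_quad (A := A) (B := B) H (pr1 l) (pr2 l) P (r l')
    obtain ⟨g, hg⟩ := quart_xm G e f z c
    obtain ⟨m, hm⟩ := hF.exists_f h2 hs0 hs1 hs2 hs hl hP aP bP hH (pr_ne l') (hr0 l' hl')
      (hr1 l' hl')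
    have h4 := quart_le g ⟨m, by rwa [← hg, hG]⟩
    simp only [← hg, hG] at h4
    exact h4
  let N : Finset (Option κ) := (Set.toFinite (LS A B)ᶜ).toFinset
  have hN : N.card ≤ 5 := by
    rw [← Set.ncard_eq_toFinset_card]
    exact hv.card_le h2'
  have hNm : ∀ l', l' ∈ N ↔ l' ∉ LS A B := fun l' => by
    simp only [N, Set.Finite.mem_toFinset, Set.mem_compl_iff]
  let G : Set (Option κ) := {m | m ∉ B0 ∧ ∀ l' ∉ LS A B, m ∉ BL l'}
  have hGc : Gᶜ.ncard ≤ 22 := by
    have h3 : Gᶜ ⊆ B0 ∪ ⋃ l' ∈ N, BL l' := by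
      intro m hm
      by_contra h4
      apply hm
      refine ⟨fun h5 => h4 (Or.inl h5), fun l' hl' h5 => h4 (Or.inr ?_)⟩
      rw [Set.mem_iUnion₂]
      exact ⟨l', (hNm l').2 hl', h5⟩
    calc Gᶜ.ncard ≤ (B0 ∪ ⋃ l' ∈ N, BL l').ncard := Set.ncard_le_ncard h3 (Set.toFinite _)
      _ ≤ B0.ncard + (⋃ l' ∈ N, BL l').ncard := Set.ncard_union_le _ _
      _ ≤ 2 + ∑ l' ∈ N, (BL l').ncard :=
          Nat.add_le_add hB0 (Finset.set_ncard_biUnion_le N BL)
      _ ≤ 2 + N.card * 4 := by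
          refine Nat.add_le_add_left ?_ 2
          rw [← smul_eq_mul]
          exact Finset.sum_le_card_nsmul _ _ _ fun l' hl' => hBL l' ((hNm l').1 hl')
      _ ≤ 22 := by omega
  have hG : q - 21 ≤ G.ncard := by
    have h3 := Set.ncard_add_ncard_compl G
    rw [Finite.card_option, ← hq] at h3
    omega
  -- the vectors
  let g : κ × Option κ → Fin 5 → κ := fun p => p.1 • pW H P (xm e f z c p.2)
  have hbv : ∀ m, bv H P (pW H P (xm e f z c m)) = -(bv H P (xm e f z c m)) ^ 2 := by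
    intro m
    rw [pW, sub_eq_add_neg, ← neg_smul, bv_add_right, bv_smul_right, bv_smul_right, bv_self, hHP]
    ring
  have hgm : ∀ p ∈ ({t : κ | t ≠ 0} ×ˢ G : Set (κ × Option κ)),
      g p ∈ {T | T ∈ WS A B ∧ Rl A B P T l} := by
    rintro ⟨t, m⟩ ⟨ht, hm0, hmL⟩
    have ht' : t ≠ 0 := ht
    have hq1 := hF.q_xm m
    have hz := pw_mem hH aP bP hq1.1 hq1.2.1
    have hb1 : bv H P (t • pW H P (xm e f z c m)) ≠ 0 := by
      rw [bv_smul_right, hbv]
      exact mul_ne_zero ht' (neg_ne_zero.2 (pow_ne_zero 2 hm0))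
    have hT0 : t • pW H P (xm e f z c m) ≠ 0 := by
      intro h3
      apply hb1
      rw [h3]
      have h4 := bv_smul_right H (0 : κ) P (0 : Fin 5 → κ)
      rwa [zero_smul, zero_mul] at h4
    have hTA : qv A (t • pW H P (xm e f z c m)) = 0 := by rw [qv_smul, hz.1, mul_zero]
    have hTB : qv B (t • pW H P (xm e f z c m)) = 0 := by rw [qv_smul, hz.2, mul_zero]
    refine ⟨⟨hT0, hTA, hTB, ?_⟩, ?_, ?_⟩
    · refine ns_of h2 hs hT0 hTA hTB fun l' hl' r' hr' hr'1 => ?_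
      obtain ⟨c', hc'⟩ := rad_prop h2 hs (pr_ne l') (hr0 l' hl') (hr1 l' hl') hr'1
      have hc0 : c' ≠ 0 := by
        intro h3
        rw [h3, zero_smul] at hc'
        exact hr' hc'
      by_contra h3
      push Not at h3
      apply hmL l' hl'
      have h5 : mB A B (pr1 l) (pr2 l) r' (t • pW H P (xm e f z c m)) = 0 := by
        rw [mB, h3.1, h3.2, mul_zero, mul_zero, add_zero]
      rw [hc', mB_smul, mB_smul_right] at h5
      exact (mul_eq_zero.1 ((mul_eq_zero.1 h5).resolve_left hc0)).resolve_left ht'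
    · rcases hH with ⟨rfl, _⟩ | ⟨rfl, _⟩
      · exact Or.inl hb1
      · exact Or.inr hb1
    · have h3 : mB A B (pr1 l) (pr2 l) P P = 0 := by
        rw [mB_self, mQ, aP, bP, mul_zero, mul_zero, add_zero, mul_zero]
      rw [mB_smul_right, pW, sub_eq_add_neg, ← neg_smul, mB_add_right, mB_smul_right,
        mB_smul_right, h3, hq1.2.1]
      ring
  have hinj : Set.InjOn g ({t : κ | t ≠ 0} ×ˢ G : Set (κ × Option κ)) := by
    rintro ⟨t, m⟩ ⟨ht, hm0, -⟩ ⟨t', m'⟩ ⟨-, -, -⟩ he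
    have ht' : t ≠ 0 := ht
    have hm0' : bv H P (xm e f z c m) ≠ 0 := hm0
    have e1 : ∀ (t : κ) (m : Option κ), g (t, m) = (t * qv H (xm e f z c m)) • P +
        (-(t * bv H P (xm e f z c m))) • xm e f z c m := by
      intro t m
      change t • pW H P (xm e f z c m) = _
      rw [pW, smul_sub, smul_smul, smul_smul, neg_smul, sub_eq_add_neg]
    rw [e1, e1] at he
    obtain ⟨h3, h4, -⟩ := hF.inj (neg_ne_zero.2 (mul_ne_zero ht' hm0')) he
    subst h4
    have h5 : t = t' := mul_right_cancel₀ hm0' (neg_injective h3)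
    rw [h5]
  calc (q - 1) * (q - 21) ≤ (q - 1) * G.ncard := Nat.mul_le_mul_left _ hG
    _ = ({t : κ | t ≠ 0} ×ˢ G : Set (κ × Option κ)).ncard := (ncard_pairs hq G).symm
    _ = (g '' ({t : κ | t ≠ 0} ×ˢ G : Set (κ × Option κ))).ncard :=
        hinj.ncard_image.symm
    _ ≤ _ := by
        refine Set.ncard_le_ncard ?_ (Set.toFinite _)
        rintro _ ⟨p, hp, rfl⟩
        exact hgm p hp

end Dq
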