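import Pool.Agent.Lib.MP_f80667_ag.Dq.DgA

/-! The numbers of points over a finite field: the exceptional points. -/

namespace Dq

open ZC Tq Dp

universe u

section zeros

variable {κ : Type u} [Field κ] [Finite κ]

/-- A nonzero quadratic form in `m + 1` variables has at most `2 q ^ m` zeros: on every line in the
direction of a vector at which it does not vanish there are at most two. -/
theorem FinB3_zeros {m q : ℕ} (hq : q = Nat.card κ) (G : QuadraticMap κ (Fin (m + 1) → κ) κ)
    (hG : ∃ x, G x ≠ 0) : {x | G x = 0}.ncard ≤ 2 * q ^ m := by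
  classical
  have : Fintype κ := Fintype.ofFinite κ
  obtain ⟨x₀, hx₀⟩ := hG
  obtain ⟨i, hi⟩ : ∃ i, x₀ i ≠ 0 := by
    by_contra hcon
    push Not at hcon
    apply hx₀
    have : x₀ = 0 := funext hcon
    rw [this, QuadraticMap.map_zero]
  let f : (Fin (m + 1) → κ) → ({j // j ≠ i} → κ) := fun y j => y j - y i / x₀ i * x₀ j
  have hfib : ∀ y y', f y = f y' → y' = y + ((y' i - y i) / x₀ i) • x₀ := by
    intro y y' h
    funext j
    rw [Pi.add_apply, Pi.smul_apply, smul_eq_mul]
    by_cases hj : j = i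
    · subst hj
      field_simp
      ring
    · have h1 := congrFun h ⟨j, hj⟩
      have h1 : y j - y i / x₀ i * x₀ j = y' j - y' i / x₀ i * x₀ j := h1
      field_simp at h1 ⊢
      linear_combination -h1
  have hval : ∀ y (t : κ), G (y + t • x₀) = G x₀ * t ^ 2 + QuadraticMap.polar G y x₀ * t + G y := by
    intro y t
    rw [QuadraticMap.map_add G, QuadraticMap.map_smul, QuadraticMap.polar_smul_right]
    simp only [smul_eq_mul]
    ring
  rw [Set.ncard_eq_toFinset_card']
  refine (Finset.card_le_mul_card_image (f := f) _ 2 ?_).trans ?_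
  · intro a ha
    obtain ⟨y, hy, rfl⟩ := Finset.mem_image.1 ha
    let p : Polynomial κ := Polynomial.C (G x₀) * Polynomial.X ^ 2 +
      Polynomial.C (QuadraticMap.polar G y x₀) * Polynomial.X + Polynomial.C (G y)
    have hp : p.natDegree = 2 := Polynomial.natDegree_quadratic hx₀
    have hp0 : p ≠ 0 := by
      intro h0
      rw [h0, Polynomial.natDegree_zero] at hp
      omega
    have h1 : p.roots.toFinset.card ≤ 2 :=
      (Multiset.toFinset_card_le _).trans ((Polynomial.card_roots' p).trans hp.le)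
    refine le_trans (Finset.card_le_card_of_injOn (fun x => (x i - y i) / x₀ i) ?_ ?_) h1
    · intro x hx
      rw [Finset.mem_coe, Finset.mem_filter, Set.mem_toFinset] at hx
      obtain ⟨hx0, hxf⟩ := hx
      rw [Finset.mem_coe, Multiset.mem_toFinset, Polynomial.mem_roots hp0, Polynomial.IsRoot.def]
      have h2 := hfib y x hxf.symm
      have hx0 : G x = 0 := hx0
      rw [h2, hval] at hx0
      simp only [p, Polynomial.eval_add, Polynomial.eval_mul, Polynomial.eval_C,
        Polynomial.eval_pow, Polynomial.eval_X]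
      exact hx0
    · intro x hx x' hx' he
      rw [Finset.mem_coe, Finset.mem_filter] at hx hx'
      have h2 := hfib y x hx.2.symm
      have h3 := hfib y x' hx'.2.symm
      have he : (x i - y i) / x₀ i = (x' i - y i) / x₀ i := he
      rw [h2, h3, he]
  · refine Nat.mul_le_mul_left 2 ((Finset.card_le_univ _).trans ?_)
    rw [Fintype.card_fun, Fintype.card_subtype_compl, Fintype.card_fin, Fintype.card_subtype_eq,
      hq, Nat.card_eq_fintype_card, Nat.add_sub_cancel]

theorem FinB3_zerosV {m q : ℕ} (hq : q = Nat.card κ) {V : Type u} [AddCommGroup V] [Module κ V]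
    (hV : Module.finrank κ V = m + 1) (G : QuadraticMap κ V κ)
    (hG : ∃ x, G x ≠ 0) : {x | G x = 0}.ncard ≤ 2 * q ^ m := by
  have : Module.Finite κ V := Module.finite_of_finrank_pos (by omega)
  let e : (Fin (m + 1) → κ) ≃ₗ[κ] V := (Module.finBasisOfFinrankEq κ V hV).equivFun.symm
  have h1 : {x | G x = 0} = e '' {v | G.comp (e : (Fin (m + 1) → κ) →ₗ[κ] V) v = 0} := by
    ext x
    constructor
    · intro hx
      refine ⟨e.symm x, ?_, e.apply_symm_apply x⟩
      show G (e (e.symm x)) = 0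
      rw [e.apply_symm_apply]
      exact hx
    · rintro ⟨v, hv, rfl⟩
      exact hv
  rw [h1, Set.ncard_image_of_injective _ e.injective]
  refine FinB3_zeros hq _ ?_
  obtain ⟨x, hx⟩ := hG
  refine ⟨e.symm x, ?_⟩
  show G (e (e.symm x)) ≠ 0
  rwa [e.apply_symm_apply]

theorem FinB3_zerosU {m q n : ℕ} (hq : q = Nat.card κ) {A B : Matrix (Fin n) (Fin n) κ}
    (U : Submodule κ (Fin n → κ)) (hU : Module.finrank κ U = m + 1) (a b : κ)
    (h : ∃ y ∈ U, mQ A B a b y ≠ 0) : {x | x ∈ U ∧ mQ A B a b x = 0}.ncard ≤ 2 * q ^ m := by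
  have h1 : {x | x ∈ U ∧ mQ A B a b x = 0} =
      Subtype.val '' {x : U | (mqf A B a b).comp U.subtype x = 0} := by
    ext x
    constructor
    · rintro ⟨hx, h0⟩
      exact ⟨⟨x, hx⟩, h0, rfl⟩
    · rintro ⟨⟨x, hx⟩, h0, rfl⟩
      exact ⟨hx, h0⟩
  rw [h1, Set.ncard_image_of_injective _ Subtype.val_injective]
  refine FinB3_zerosV hq hU _ ?_
  obtain ⟨y, hy, h0⟩ := h
  exact ⟨⟨y, hy⟩, h0⟩

end zeros

variable {κ : Type u} [Field κ] [Finite κ] {A B : Matrix (Fin 5) (Fin 5) κ} {Ω : Type u} [Field Ω]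
  [Algebra κ Ω] [IsAlgClosed Ω]

/-- A nonzero quadratic form in three variables has at most `2 q ^ 2` zeros. Proof:
`MvPolynomial.schwartz_zippel_totalDegree` (or: for fixed two coordinates at most two values of the
third one, after a choice of a coordinate with nonzero square coefficient or a linear change of
coordinates). Here for the form `mQ a b` on the span of three vectors. -/
theorem zeros3 {q : ℕ} (hq : q = Nat.card κ) (G : QuadraticMap κ (Fin 3 → κ) κ)
    (hG : ∃ x, G x ≠ 0) : {x | G x = 0}.ncard ≤ 2 * q ^ 2 := FinB3_zeros hq G hG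

theorem zeros2 {q : ℕ} (hq : q = Nat.card κ) (G : QuadraticMap κ (Fin 2 → κ) κ)
    (hG : ∃ x, G x ≠ 0) : {x | G x = 0}.ncard ≤ 2 * q := by
  have := FinB3_zeros hq G hG
  rwa [pow_one] at this

/-- The points on the lines through `P` of a given member. -/
theorem FinB3_line (h2 : (2 : κ) ≠ 0) (hs : Sm Ω A B) {q : ℕ} (hq : q = Nat.card κ)
    {P : Fin 5 → κ} (hP : P ≠ 0) (aP : qv A P = 0) (bP : qv B P = 0) {a b : κ}
    (hab : a ≠ 0 ∨ b ≠ 0) :
    {T : Fin 5 → κ | (qv A T = 0 ∧ qv B T = 0) ∧ (bv A P T ≠ 0 ∨ bv B P T ≠ 0) ∧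
      mB A B a b P T = 0}.ncard ≤ 2 * q ^ 2 := by
  classical
  let σ : κ →ₐ[κ] Ω := Algebra.ofId κ Ω
  have hPQ : mQ A B a b P = 0 := by rw [mQ, aP, bP]; ring
  have hPP : mB A B a b P P = 0 := by rw [mB_self, hPQ, mul_zero]
  obtain ⟨i, hi⟩ : ∃ i, P i ≠ 0 := Function.ne_iff.1 hP
  obtain ⟨w, hw⟩ : ∃ w, mB A B a b P w ≠ 0 := by
    by_contra hcon
    push Not at hcon
    obtain ⟨z1, z2⟩ := sm_pt hs σ hP aP bP hcon
    rcases hab with h | h
    · exact h z1
    · exact h z2
  -- the orthogonal space of `P`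
  have hN : Module.finrank κ (LinearMap.ker (mBl A B a b P)) = 4 := by
    have h1 := LinearMap.finrank_range_add_finrank_ker (mBl A B a b P)
    have h3 : LinearMap.range (mBl A B a b P) = ⊤ := by
      rw [LinearMap.range_eq_top]
      intro c
      refine ⟨(c / mB A B a b P w) • w, ?_⟩
      rw [mBl_apply, mB_smul_right, div_mul_cancel₀ _ hw]
    rw [h3, finrank_top, Module.finrank_self, Module.finrank_fin_fun] at h1
    omega
  -- the complement
  let L : (Fin 5 → κ) →ₗ[κ] κ × κ := (mBl A B a b P).prod (LinearMap.proj i)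
  have hL : Module.finrank κ (LinearMap.ker L) = 2 + 1 := by
    have h1 := LinearMap.finrank_range_add_finrank_ker L
    have h3 : LinearMap.range L = ⊤ := by
      rw [LinearMap.range_eq_top]
      rintro ⟨c, d⟩
      refine ⟨(c / mB A B a b P w) • w + ((d - c / mB A B a b P w * w i) / P i) • P, ?_⟩
      refine Prod.ext ?_ ?_
      · show mB A B a b P _ = c
        rw [mB_add_right, mB_smul_right, mB_smul_right, hPP, mul_zero, add_zero,
          div_mul_cancel₀ _ hw]
      · show c / mB A B a b P w * w i + (d - c / mB A B a b P w * w i) / P i * P i = d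
        rw [div_mul_cancel₀ _ hi]
        ring
    rw [h3, finrank_top, Module.finrank_prod, Module.finrank_self, Module.finrank_fin_fun] at h1
    omega
  have hmem : ∀ x, x ∈ LinearMap.ker L ↔ mB A B a b P x = 0 ∧ x i = 0 := by
    intro x
    rw [LinearMap.mem_ker]
    exact Prod.mk_eq_zero
  have hproj : ∀ T, mB A B a b P T = 0 → T + (-(T i / P i)) • P ∈ LinearMap.ker L ∧
      mQ A B a b (T + (-(T i / P i)) • P) = mQ A B a b T := by
    intro T hT
    constructor
    · rw [hmem]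
      constructor
      · rw [mB_add_right, mB_smul_right, hPP, hT]
        ring
      · rw [Pi.add_apply, Pi.smul_apply, smul_eq_mul, neg_mul, div_mul_cancel₀ _ hi]
        ring
    · rw [mQ_add, mQ_smul, mB_smul_right, mB_comm, hT, hPQ]
      ring
  have hne : ∃ y ∈ LinearMap.ker L, mQ A B a b y ≠ 0 := by
    obtain ⟨y, hy, h0⟩ := rad_sub h2 hs σ le_rfl hab (LinearMap.ker (mBl A B a b P)) (by omega)
    have hy : mB A B a b P y = 0 := hy
    exact ⟨_, (hproj y hy).1, by rwa [(hproj y hy).2]⟩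
  have hcount := FinB3_zerosU hq (LinearMap.ker L) hL a b hne
  refine le_trans (Set.ncard_le_ncard_of_injOn (fun T => T + (-(T i / P i)) • P) ?_ ?_
    (Set.toFinite _)) hcount
  · rintro T ⟨⟨aT, bT⟩, -, hT⟩
    refine ⟨(hproj T hT).1, ?_⟩
    show mQ A B a b (T + (-(T i / P i)) • P) = 0
    rw [(hproj T hT).2, mQ, aT, bT]
    ring
  · rintro T ⟨⟨aT, bT⟩, hPT, -⟩ T' ⟨⟨aT', bT'⟩, -, -⟩ he
    have he : T + (-(T i / P i)) • P = T' + (-(T' i / P i)) • P := he
    obtain ⟨t, ht⟩ : ∃ t : κ, T' = T + t • P := by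
      refine ⟨T' i / P i - T i / P i, ?_⟩
      have h3 : T' = T + (-(T i / P i)) • P - (-(T' i / P i)) • P := by
        rw [he]
        abel
      refine h3.trans ?_
      module
    have k1 : ∀ H : Matrix (Fin 5) (Fin 5) κ, qv H P = 0 → qv H T = 0 → qv H T' = 0 →
        t * bv H P T = 0 := by
      intro H h3 h4 h5
      rw [ht, qv_add, qv_smul, h3, h4, bv_comm, bv_smul] at h5
      linear_combination h5
    have ht0 : t = 0 := by
      rcases hPT with h3 | h3
      · exact (mul_eq_zero.1 (k1 A aP aT aT')).resolve_right h3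
      · exact (mul_eq_zero.1 (k1 B bP bT bT')).resolve_right h3
    rw [ht, ht0, zero_smul, add_zero]

/-- **The exceptional points.** Proof. Let `T` be in the set. Case 1: `bv A P T = bv B P T = 0`, so
`T ∈ TP A B P`, `T = x P + y u₁ + z u₂` (`exists_tb`), `qv A (y u₁ + z u₂) = 0`, a nonzero binary form
(`NS` for `(1, 0)`): at most `2 q` pairs `(y, z)` (`zeros2`) and `q` values of `x`. Case 2: otherwise
`Rl A B P T l` for some `l` (`exists_pr`), `l ∉ LS`, at most five `l` (`DG.card_le`). For fixed `l` the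
orthogonal space `N` of `P` has dimension `4` (`P` is not in the radical: smoothness), let `x₁, x₂, x₃`
be a basis of a complement of `P` in `N`; `T = α P + ∑ y i x i`, `mQ (∑ y i x i) = 0`, a nonzero form
(`rad_sub`: the member does not vanish on `N`), at most `2 q ^ 2` vectors `y` (`zeros3`), and `α` is
determined by `y` (`qv H T = 0`, `bv H P T ≠ 0`). Together `2 q ^ 2 + 5 * 2 q ^ 2`. -/
theorem c2_bound (h2 : (2 : κ) ≠ 0) (hs : Sm Ω A B) {v : Fin 5 → Fin 5 → Ω} (hv : DG A B v)
    {q : ℕ} (hq : q = Nat.card κ) {P : Fin 5 → κ} (hP : P ∈ WS A B) :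
    {T | T ∈ WS A B ∧ ∀ l ∈ LS A B, ¬ Rl A B P T l}.ncard ≤ 12 * q ^ 2 := by
  classical
  have : Fintype κ := Fintype.ofFinite κ
  obtain ⟨hP0, aP, bP, hNS⟩ := hP
  let σ : κ →ₐ[κ] Ω := Algebra.ofId κ Ω
  let S₁ : Set (Fin 5 → κ) := {x | x ∈ TP A B P ∧ mQ A B 1 0 x = 0}
  let S : Option κ → Set (Fin 5 → κ) := fun l =>
    {T : Fin 5 → κ | (qv A T = 0 ∧ qv B T = 0) ∧ (bv A P T ≠ 0 ∨ bv B P T ≠ 0) ∧
      mB A B (pr1 l) (pr2 l) P T = 0}
  let D : Finset (Option κ) := (LS A B)ᶜ.toFinset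
  have hD : D.card ≤ 5 := by
    have h3 := hv.card_le (rad_two_ne h2)
    rwa [Set.ncard_eq_toFinset_card'] at h3
  have hsub : {T | T ∈ WS A B ∧ ∀ l ∈ LS A B, ¬ Rl A B P T l} ⊆ S₁ ∪ ⋃ l ∈ D, S l := by
    rintro T ⟨⟨hT0, aT, bT, -⟩, hT⟩
    by_cases hc : bv A P T ≠ 0 ∨ bv B P T ≠ 0
    · right
      obtain ⟨l, c, hc0, h3, h4⟩ := exists_pr (a := bv B P T) (b := -bv A P T) (by
        rcases hc with hc | hc
        · exact Or.inr (neg_ne_zero.2 hc)
        · exact Or.inl hc)
      have h5 : mB A B (pr1 l) (pr2 l) P T = 0 := by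
        have h6 : c * mB A B (pr1 l) (pr2 l) P T = 0 := by
          rw [mB]
          linear_combination (-bv A P T) * h3 - bv B P T * h4
        exact (mul_eq_zero.1 h6).resolve_left hc0
      have hl : l ∉ LS A B := fun hl => hT l hl ⟨hc, h5⟩
      refine Set.mem_biUnion (x := l) ?_ ⟨⟨aT, bT⟩, hc, h5⟩
      show l ∈ D
      rw [Set.mem_toFinset]
      exact hl
    · left
      push Not at hc
      refine ⟨mem_TP.2 hc, ?_⟩
      rw [mQ, aT, bT]
      ring
  have h3 : S₁.ncard ≤ 2 * q ^ 2 := by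
    have hr := TP_rank hs σ hP0 aP bP
    exact FinB3_zerosU hq (TP A B P) (by omega) 1 0 (hNS 1 0 (Or.inl one_ne_zero))
  have h4 : ∀ l, (S l).ncard ≤ 2 * q ^ 2 := fun l =>
    FinB3_line (Ω := Ω) h2 hs hq hP0 aP bP (pr_ne l)
  have h5 : (⋃ l ∈ D, S l).ncard ≤ D.card * (2 * q ^ 2) := by
    have h6 : (⋃ l ∈ D, S l) = ((D.biUnion fun l => (S l).toFinset : Finset _) : Set _) := by
      ext x
      simp
    rw [h6, Set.ncard_coe_finset]
    refine Finset.card_biUnion_le_card_mul _ _ _ fun l _ => ?_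
    rw [← Set.ncard_eq_toFinset_card']
    exact h4 l
  calc _ ≤ (S₁ ∪ ⋃ l ∈ D, S l).ncard := Set.ncard_le_ncard hsub (Set.toFinite _)
    _ ≤ S₁.ncard + (⋃ l ∈ D, S l).ncard := Set.ncard_union_le _ _
    _ ≤ 2 * q ^ 2 + D.card * (2 * q ^ 2) := Nat.add_le_add h3 h5
    _ ≤ 2 * q ^ 2 + 5 * (2 * q ^ 2) := by
      exact Nat.add_le_add_left (Nat.mul_le_mul_right _ hD) _
    _ = 12 * q ^ 2 := by ring

end Dq
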