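import Pool.Agent.Lib.MP_f80667_ag.Dq.AdjB
import Pool.Agent.Lib.MP_f80667_ag.Dq.DgA

/-! The discriminant of the pencil on the tangent space determines the point up to finitely many. -/

namespace Dq

open ZC Tq Dp

universe u

section aux

variable {κ : Type u} [Field κ] {A B : Matrix (Fin 5) (Fin 5) κ} {Ω : Type u} [Field Ω]
  [Algebra κ Ω]

/-- There is a member over `Ω` which does not vanish at the vectors `v i`. -/
theorem c8_nd [IsAlgClosed Ω] {v : Fin 5 → Fin 5 → Ω} (hv : DG A B v) :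
    ∃ t : Ω, ∀ i, mQ A B (1 : Ω) t (v i) ≠ 0 := by
  classical
  have : Infinite Ω := IsAlgClosed.instInfinite
  have hne : ∀ i, Polynomial.C (qv A (v i)) + Polynomial.C (qv B (v i)) * Polynomial.X ≠ 0 := by
    intro i h0
    have h1 : qv A (v i) = 0 := by
      have := congrArg (Polynomial.eval 0) h0
      simpa using this
    have h3 : qv B (v i) = 0 := by
      have := congrArg (Polynomial.eval 1) h0
      simpa [h1] using this
    obtain ⟨j, hj⟩ : ∃ j : Fin 5, i ≠ j := ⟨i + 1, by fin_cases i <;> decide⟩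
    exact hv.np i j hj (by rw [h1, h3]; ring)
  have hprod : ∏ i, (Polynomial.C (qv A (v i)) + Polynomial.C (qv B (v i)) * Polynomial.X) ≠ 0 :=
    Finset.prod_ne_zero_iff.2 fun i _ => hne i
  by_contra hcon
  push Not at hcon
  apply hprod
  apply Polynomial.funext
  intro t
  obtain ⟨i, hi⟩ := hcon t
  rw [Polynomial.eval_prod, Polynomial.eval_zero]
  refine Finset.prod_eq_zero (Finset.mem_univ i) ?_
  rw [mQ] at hi
  simp only [Polynomial.eval_add, Polynomial.eval_C, Polynomial.eval_mul, Polynomial.eval_X]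
  linear_combination hi

theorem c8_det {P u₁ u₂ w₁ w₂ : Fin 5 → κ} (aP : qv A P = 0) (bP : qv B P = 0)
    (ht : TB A B P u₁ u₂) (a1 : bv A P w₁ = 1) (b1 : bv B P w₁ = 0) (a2 : bv A P w₂ = 0)
    (b2 : bv B P w₂ = 1) : (Matrix.of ![P, u₁, u₂, w₁, w₂]).det ≠ 0 := by
  intro h0
  rw [← Matrix.exists_vecMul_eq_zero_iff] at h0
  obtain ⟨c, hc0, hc⟩ := h0
  have hs : c 0 • P + c 1 • u₁ + c 2 • u₂ + c 3 • w₁ + c 4 • w₂ = 0 := by
    rw [← hc]
    funext j
    simp [Matrix.vecMul, dotProduct, Fin.sum_univ_five]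
  have hPP : ∀ H : Matrix (Fin 5) (Fin 5) κ, qv H P = 0 → bv H P P = 0 := fun H h => by
    rw [bv_self, h, mul_zero]
  have h0' : ∀ H : Matrix (Fin 5) (Fin 5) κ, bv H P (0 : Fin 5 → κ) = 0 := fun H => by
    have h1 := bv_smul_right H (0 : κ) P (0 : Fin 5 → κ)
    rwa [zero_smul, zero_mul] at h1
  have e1 : bv A P (c 0 • P + c 1 • u₁ + c 2 • u₂ + c 3 • w₁ + c 4 • w₂) = c 3 := by
    simp only [bv_add_right, bv_smul_right, hPP A aP, (mem_TP.1 ht.t1).1, (mem_TP.1 ht.t2).1, a1, a2]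
    ring
  have e2 : bv B P (c 0 • P + c 1 • u₁ + c 2 • u₂ + c 3 • w₁ + c 4 • w₂) = c 4 := by
    simp only [bv_add_right, bv_smul_right, hPP B bP, (mem_TP.1 ht.t1).2, (mem_TP.1 ht.t2).2, b1, b2]
    ring
  rw [hs, h0'] at e1 e2
  have h3 := ht.ind
  rw [Fintype.linearIndependent_iff] at h3
  have h4 := h3 ![c 0, c 1, c 2] (by
    rw [Fin.sum_univ_three]
    simp only [Matrix.cons_val]
    rw [← e1, ← e2] at hs
    simpa using hs)
  apply hc0
  funext j
  have h5 := h4 0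
  have h6 := h4 1
  have h7 := h4 2
  simp only [Matrix.cons_val] at h5 h6 h7
  fin_cases j
  · exact h5
  · exact h6
  · exact h7
  · exact e1.symm
  · exact e2.symm

/-- The value over `Ω` of a binary quadratic form over `κ`. -/
def evO (d : Fin 3 → κ) (a b : Ω) : Ω :=
  algebraMap κ Ω (d 0) * a ^ 2 + algebraMap κ Ω (d 1) * (a * b) + algebraMap κ Ω (d 2) * b ^ 2

theorem evO_smul (c : κ) (d : Fin 3 → κ) (a b : Ω) :
    evO (c • d) a b = algebraMap κ Ω c * evO d a b := by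
  simp only [evO, Pi.smul_apply, smul_eq_mul, map_mul]
  ring

theorem evO_dsc (u₁ u₂ : Fin 5 → κ) (a b : Ω) : evO (dsc (cf A u₁ u₂) (cf B u₁ u₂)) a b =
    mB A B a b (fun i => algebraMap κ Ω (u₁ i)) (fun i => algebraMap κ Ω (u₂ i)) ^ 2 -
      4 * mQ A B a b (fun i => algebraMap κ Ω (u₁ i)) *
        mQ A B a b (fun i => algebraMap κ Ω (u₂ i)) := by
  have e1 : ∀ (H : Matrix (Fin 5) (Fin 5) κ) (x : Fin 5 → κ),
      qv H (fun i => algebraMap κ Ω (x i)) = algebraMap κ Ω (qv H x) := fun H x =>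
    qv_hom (Algebra.ofId κ Ω) x
  have e2 : ∀ (H : Matrix (Fin 5) (Fin 5) κ) (x y : Fin 5 → κ),
      bv H (fun i => algebraMap κ Ω (x i)) (fun i => algebraMap κ Ω (y i)) =
        algebraMap κ Ω (bv H x y) := fun H x y => bv_hom (Algebra.ofId κ Ω) x y
  rw [mB, mQ, mQ, e1, e1, e1, e1, e2, e2]
  simp only [evO, dsc, cf, Matrix.cons_val, map_sub, map_mul, map_add, map_pow, map_ofNat]
  ring

/-- The key relation. -/
theorem c8_rel [IsAlgClosed Ω] (hs : Sm Ω A B) {v : Fin 5 → Fin 5 → Ω} (hv : DG A B v)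
    (a' b' : Ω) {P u₁ u₂ : Fin 5 → κ} (hP : P ≠ 0) (aP : qv A P = 0) (bP : qv B P = 0)
    (ht : TB A B P u₁ u₂) : ∃ D : Ω, D ≠ 0 ∧ ∀ i,
      D ^ 2 * mB A B a' b' (v i) (fun j => algebraMap κ Ω (P j)) ^ 2 *
        ∏ j ∈ Finset.univ.erase i, (2 * mQ A B (qv B (v i)) (-qv A (v i)) (v j)) =
      (Matrix.of v).det ^ 2 * (-qv A (v i) * a' - qv B (v i) * b') ^ 2 *
        evO (dsc (cf A u₁ u₂) (cf B u₁ u₂)) (qv B (v i)) (-qv A (v i)) := by
  obtain ⟨w₁, a1, b1⟩ := TP_surj hs (Algebra.ofId κ Ω) hP aP bP 1 0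
  obtain ⟨w₂, a2, b2⟩ := TP_surj hs (Algebra.ofId κ Ω) hP aP bP 0 1
  have e1 : ∀ (H : Matrix (Fin 5) (Fin 5) κ) (x : Fin 5 → κ),
      qv H (fun i => algebraMap κ Ω (x i)) = algebraMap κ Ω (qv H x) := fun H x =>
    qv_hom (Algebra.ofId κ Ω) x
  have e2 : ∀ (H : Matrix (Fin 5) (Fin 5) κ) (x y : Fin 5 → κ),
      bv H (fun i => algebraMap κ Ω (x i)) (fun i => algebraMap κ Ω (y i)) =
        algebraMap κ Ω (bv H x y) := fun H x y => bv_hom (Algebra.ofId κ Ω) x y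
  refine ⟨(Matrix.of ![fun j => algebraMap κ Ω (P j), fun j => algebraMap κ Ω (u₁ j),
    fun j => algebraMap κ Ω (u₂ j), fun j => algebraMap κ Ω (w₁ j),
    fun j => algebraMap κ Ω (w₂ j)]).det, ?_, fun i => ?_⟩
  · have h1 : (Matrix.of ![fun j => algebraMap κ Ω (P j), fun j => algebraMap κ Ω (u₁ j),
        fun j => algebraMap κ Ω (u₂ j), fun j => algebraMap κ Ω (w₁ j),
        fun j => algebraMap κ Ω (w₂ j)]) =
        (algebraMap κ Ω).mapMatrix (Matrix.of ![P, u₁, u₂, w₁, w₂]) := by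
      ext i j
      fin_cases i <;> rfl
    rw [h1, ← RingHom.map_det]
    exact (map_ne_zero (algebraMap κ Ω)).2 (c8_det aP bP ht a1 b1 a2 b2)
  · rw [evO_dsc]
    refine disc_dg hv (by rw [e1, aP, map_zero]) (by rw [e1, bP, map_zero]) ?_ ?_ ?_ ?_ ?_ ?_ i
      (qv B (v i)) (-qv A (v i)) a' b' rfl rfl
    · exact ⟨by rw [e2, (mem_TP.1 ht.t1).1, map_zero], by rw [e2, (mem_TP.1 ht.t1).2, map_zero]⟩
    · exact ⟨by rw [e2, (mem_TP.1 ht.t2).1, map_zero], by rw [e2, (mem_TP.1 ht.t2).2, map_zero]⟩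
    · rw [e2, a1, map_one]
    · rw [e2, b1, map_zero]
    · rw [e2, a2, map_zero]
    · rw [e2, b2, map_one]

/-- Two points with proportional discriminants: the coordinates agree up to signs and a factor. -/
theorem c8_sign [IsAlgClosed Ω] (h2 : (2 : Ω) ≠ 0) (hs : Sm Ω A B) {v : Fin 5 → Fin 5 → Ω}
    (hv : DG A B v) (a' b' : Ω) {P u₁ u₂ P' u₁' u₂' : Fin 5 → κ} (hP : P ≠ 0) (aP : qv A P = 0)
    (bP : qv B P = 0) (ht : TB A B P u₁ u₂) (hP' : P' ≠ 0) (aP' : qv A P' = 0)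
    (bP' : qv B P' = 0) (ht' : TB A B P' u₁' u₂') {c c' : κ} (hc : c ≠ 0) (hc' : c' ≠ 0)
    (he : c • dsc (cf A u₁ u₂) (cf B u₁ u₂) = c' • dsc (cf A u₁' u₂') (cf B u₁' u₂')) :
    ∃ (ε : Fin 5 → Bool) (ρ : Ω), ρ ≠ 0 ∧ ∀ i,
      mB A B a' b' (v i) (fun j => algebraMap κ Ω (P' j)) =
        ρ * (if ε i then 1 else -1) * mB A B a' b' (v i) (fun j => algebraMap κ Ω (P j)) := by
  obtain ⟨D, hD, hr⟩ := c8_rel hs hv a' b' hP aP bP ht
  obtain ⟨D', hD', hr'⟩ := c8_rel hs hv a' b' hP' aP' bP' ht'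
  have hcΩ : algebraMap κ Ω c ≠ 0 := (map_ne_zero _).2 hc
  have hcΩ' : algebraMap κ Ω c' ≠ 0 := (map_ne_zero _).2 hc'
  obtain ⟨ρ, hρ⟩ := IsAlgClosed.exists_pow_nat_eq
    (algebraMap κ Ω c * D ^ 2 * (algebraMap κ Ω c' * D' ^ 2)⁻¹) (n := 2) (by norm_num)
  have hρ0 : ρ ≠ 0 := by
    intro h0
    rw [h0] at hρ
    have : algebraMap κ Ω c * D ^ 2 * (algebraMap κ Ω c' * D' ^ 2)⁻¹ ≠ 0 :=
      mul_ne_zero (mul_ne_zero hcΩ (pow_ne_zero 2 hD))
        (inv_ne_zero (mul_ne_zero hcΩ' (pow_ne_zero 2 hD')))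
    apply this
    rw [← hρ]
    ring
  have hsq : ∀ i, mB A B a' b' (v i) (fun j => algebraMap κ Ω (P' j)) ^ 2 =
      (ρ * mB A B a' b' (v i) (fun j => algebraMap κ Ω (P j))) ^ 2 := by
    intro i
    have hK : ∏ j ∈ Finset.univ.erase i, (2 * mQ A B (qv B (v i)) (-qv A (v i)) (v j)) ≠ 0 := by
      refine Finset.prod_ne_zero_iff.2 fun j hj => mul_ne_zero h2 ?_
      have h3 := hv.np i j (Finset.ne_of_mem_erase hj).symm
      intro h4
      apply h3
      rw [mQ] at h4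
      linear_combination -h4
    have h3 := hr i
    have h4 := hr' i
    have h5 : algebraMap κ Ω c * evO (dsc (cf A u₁ u₂) (cf B u₁ u₂)) (qv B (v i)) (-qv A (v i)) =
        algebraMap κ Ω c' * evO (dsc (cf A u₁' u₂') (cf B u₁' u₂')) (qv B (v i))
          (-qv A (v i)) := by
      rw [← evO_smul, ← evO_smul, he]
    have h6 : (algebraMap κ Ω c' * D' ^ 2) * mB A B a' b' (v i)
        (fun j => algebraMap κ Ω (P' j)) ^ 2 = (algebraMap κ Ω c * D ^ 2) * mB A B a' b' (v i)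
        (fun j => algebraMap κ Ω (P j)) ^ 2 := by
      apply mul_right_cancel₀ hK
      linear_combination algebraMap κ Ω c' * h4 - algebraMap κ Ω c * h3 -
        (Matrix.of v).det ^ 2 * (-qv A (v i) * a' - qv B (v i) * b') ^ 2 * h5
    rw [mul_pow, hρ]
    have h7 : algebraMap κ Ω c' * D' ^ 2 ≠ 0 := mul_ne_zero hcΩ' (pow_ne_zero 2 hD')
    apply mul_left_cancel₀ h7
    rw [h6]
    field_simp
  classical
  refine ⟨fun i => decide (mB A B a' b' (v i) (fun j => algebraMap κ Ω (P' j)) =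
    ρ * mB A B a' b' (v i) (fun j => algebraMap κ Ω (P j))), ρ, hρ0, fun i => ?_⟩
  by_cases h : mB A B a' b' (v i) (fun j => algebraMap κ Ω (P' j)) =
      ρ * mB A B a' b' (v i) (fun j => algebraMap κ Ω (P j))
  · rw [if_pos (decide_eq_true h), mul_one]
    exact h
  · rw [if_neg (by simpa using h)]
    rcases sq_eq_sq_iff_eq_or_eq_neg.1 (hsq i) with h3 | h3
    · exact absurd h3 h
    · rw [h3]
      ring

/-- The coordinates determine the vector. -/
theorem c8_eq (h2 : (2 : Ω) ≠ 0) {v : Fin 5 → Fin 5 → Ω} (hv : DG A B v) {a' b' : Ω}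
    (hnd : ∀ i, mQ A B a' b' (v i) ≠ 0) {x : Fin 5 → Ω} (hx : ∀ i, mB A B a' b' (v i) x = 0) :
    x = 0 := by
  by_contra hx0
  obtain ⟨y, hy⟩ := (hv.nd_iff h2).2 hnd x hx0
  apply hy
  have hsp : Submodule.span Ω (Set.range v) = ⊤ :=
    hv.ind.span_eq_top_of_card_eq_finrank (by rw [Module.finrank_fin_fun, Fintype.card_fin])
  have hle : Submodule.span Ω (Set.range v) ≤ LinearMap.ker (mBl A B a' b' x) := by
    rw [Submodule.span_le]
    rintro _ ⟨i, rfl⟩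
    rw [SetLike.mem_coe, LinearMap.mem_ker, mBl_apply, mB_comm]
    exact hx i
  have hy' : y ∈ LinearMap.ker (mBl A B a' b' x) := hle (hsp ▸ Submodule.mem_top)
  rw [LinearMap.mem_ker, mBl_apply] at hy'
  exact hy'

/-- Two vectors over `κ` which are proportional over `Ω`. -/
theorem c8_prop {P P' : Fin 5 → κ} (hP : P ≠ 0) (hP' : P' ≠ 0) {τ : Ω}
    (h : ∀ j, algebraMap κ Ω (P' j) = τ * algebraMap κ Ω (P j)) :
    ∃ c : κ, c ≠ 0 ∧ P' = c • P := by
  obtain ⟨j, hj⟩ := Function.ne_iff.1 hP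
  have hj' : P j ≠ 0 := hj
  have hjΩ : algebraMap κ Ω (P j) ≠ 0 := (map_ne_zero _).2 hj'
  have hτ : τ = algebraMap κ Ω (P' j / P j) := by
    rw [map_div₀, h j, mul_div_cancel_right₀ _ hjΩ]
  have he : P' = (P' j / P j) • P := by
    funext i
    apply (algebraMap κ Ω).injective
    rw [h i, hτ, Pi.smul_apply, smul_eq_mul, map_mul]
  refine ⟨P' j / P j, ?_, he⟩
  intro h0
  apply hP'
  rw [he, h0, zero_smul]

end aux

variable {κ : Type u} [Field κ] [Finite κ] {A B : Matrix (Fin 5) (Fin 5) κ} {Ω : Type u} [Field Ω]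
  [Algebra κ Ω] [IsAlgClosed Ω]

/-- **Fibres.** `d P` is the discriminant of the pencil in a basis `u₁ P`, `u₂ P` of the tangent space
at `P`. Proof. Let `(a', b')` be a nondegenerate member over `Ω` (one which is not among the five
degenerate ones, `DG.nd_iff`). Write `x i P = mB a' b' (v i) (P)` (over `Ω`); since the `v i` are a
basis and the member is nondegenerate, `P` is determined by the `x i P`. Let `P` be in the set,
`c • d P = d₀`. By `disc_dg` for the member `c i = (qv B (v i), - qv A (v i))` (with `w₁`, `w₂` from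
`TP_surj`; the identity `ev_dsc`, `ev_cf` extended to `(a, b)` over `Ω`: the discriminant is
`d 0 a ^ 2 + d 1 a b + d 2 b ^ 2`): `x i P ^ 2 = μ P * K i * (d₀ (c i)) / c` with `μ P ≠ 0` independent
of `i`, `K i` independent of `P` (the product over `j ≠ i` is not `0` by `np`, and
`b a' - a b' ≠ 0` since `(a', b')` is not a multiple of `c i`). So for two points `P`, `P'` of the set
there is `τ ≠ 0` in `Ω` with `x i P' ^ 2 = τ ^ 2 * x i P ^ 2` for all `i`. Fix `P₀` in the set; every `P`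
of the set has signs `ε i = ± 1` and `τ` with `x i P = τ ε i x i P₀`. Two points with the same signs are
proportional over `Ω`, so over `κ`: at most `q - 1` vectors for each of the `32` sign vectors. -/
theorem c8_bound (h2 : (2 : κ) ≠ 0) (hs : Sm Ω A B) {v : Fin 5 → Fin 5 → Ω} (hv : DG A B v)
    {q : ℕ} (hq : q = Nat.card κ) {u₁ u₂ : (Fin 5 → κ) → Fin 5 → κ}
    (hu : ∀ P ∈ WS A B, TB A B P (u₁ P) (u₂ P)) {d₀ : Fin 3 → κ} (hd₀ : d₀ ≠ 0) :
    {P | P ∈ WS A B ∧ ∃ c : κ, c ≠ 0 ∧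
      c • dsc (cf A (u₁ P) (u₂ P)) (cf B (u₁ P) (u₂ P)) = d₀}.ncard ≤ 32 * (q - 1) := by
  classical
  have hΩ2 : (2 : Ω) ≠ 0 := rad_two_ne h2
  obtain ⟨t, ht⟩ := c8_nd hv
  obtain ⟨S, hS⟩ : ∃ S : Set (Fin 5 → κ), S = {P | P ∈ WS A B ∧ ∃ c : κ, c ≠ 0 ∧
      c • dsc (cf A (u₁ P) (u₂ P)) (cf B (u₁ P) (u₂ P)) = d₀} := ⟨_, rfl⟩
  rw [← hS]
  rcases S.eq_empty_or_nonempty with h0 | ⟨P₀, hP₀⟩
  · rw [h0, Set.ncard_empty]
    exact Nat.zero_le _
  have hSm : ∀ P ∈ S, P ∈ WS A B ∧ ∃ c : κ, c ≠ 0 ∧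
      c • dsc (cf A (u₁ P) (u₂ P)) (cf B (u₁ P) (u₂ P)) = d₀ := by
    intro P hP
    rw [hS] at hP
    exact hP
  obtain ⟨hW₀, c₀, hc₀, he₀⟩ := hSm P₀ hP₀
  have hex : ∀ P, ∃ ε : Fin 5 → Bool, P ∈ S → ∃ ρ : Ω, ρ ≠ 0 ∧ ∀ i,
      mB A B (1 : Ω) t (v i) (fun j => algebraMap κ Ω (P j)) =
        ρ * (if ε i then 1 else -1) *
          mB A B (1 : Ω) t (v i) (fun j => algebraMap κ Ω (P₀ j)) := by
    intro P
    by_cases hP : P ∈ S
    · obtain ⟨hW, c, hc, he⟩ := hSm P hP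
      obtain ⟨ε, ρ, hρ, h⟩ := c8_sign hΩ2 hs hv (1 : Ω) t hW₀.1 hW₀.2.1 hW₀.2.2.1 (hu P₀ hW₀)
        hW.1 hW.2.1 hW.2.2.1 (hu P hW) hc₀ hc (he₀.trans he.symm)
      exact ⟨ε, fun _ => ⟨ρ, hρ, h⟩⟩
    · exact ⟨fun _ => true, fun h => absurd h hP⟩
  choose ε hε using hex
  have hfin : S.Finite := Set.toFinite S
  rw [Set.ncard_eq_toFinset_card S hfin]
  have : Fintype κ := Fintype.ofFinite κ
  have hfib : ∀ e ∈ hfin.toFinset.image ε, (hfin.toFinset.filter fun P => ε P = e).card ≤ q - 1 := by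
    intro e he
    obtain ⟨R, hR, rfl⟩ := Finset.mem_image.1 he
    rw [Set.Finite.mem_toFinset] at hR
    have hsub : (hfin.toFinset.filter fun P => ε P = ε R) ⊆
        (Finset.univ.erase (0 : κ)).image (fun c => c • R) := by
      intro P hP
      rw [Finset.mem_filter, Set.Finite.mem_toFinset] at hP
      obtain ⟨hPS, hPe⟩ := hP
      obtain ⟨ρ, hρ, h⟩ := hε P hPS
      obtain ⟨ρ', hρ', h'⟩ := hε R hR
      have hx := c8_eq hΩ2 hv ht (x := (fun j => algebraMap κ Ω (P j)) +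
        (-(ρ / ρ')) • (fun j => algebraMap κ Ω (R j))) (fun i => by
          rw [mB_add_right, mB_smul_right, h i, h' i, hPe]
          field_simp
          ring)
      obtain ⟨c, hc, hcP⟩ := c8_prop (hSm R hR).1.1 (hSm P hPS).1.1 (τ := ρ / ρ') (fun j => by
        have h3 := congrFun hx j
        simp only [Pi.add_apply, Pi.smul_apply, smul_eq_mul, Pi.zero_apply] at h3
        linear_combination h3)
      exact Finset.mem_image.2 ⟨c, Finset.mem_erase.2 ⟨hc, Finset.mem_univ c⟩, hcP.symm⟩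
    calc (hfin.toFinset.filter fun P => ε P = ε R).card ≤ _ := Finset.card_le_card hsub
      _ ≤ (Finset.univ.erase (0 : κ)).card := Finset.card_image_le
      _ = q - 1 := by
          rw [Finset.card_erase_of_mem (Finset.mem_univ _), Finset.card_univ, hq,
            Nat.card_eq_fintype_card]
  have h3 := Finset.card_le_mul_card_image hfin.toFinset (q - 1) hfib
  have h4 : (hfin.toFinset.image ε).card ≤ 32 := by
    refine (Finset.card_le_univ _).trans ?_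
    simp
  calc hfin.toFinset.card ≤ (q - 1) * (hfin.toFinset.image ε).card := h3
    _ ≤ (q - 1) * 32 := Nat.mul_le_mul_left _ h4
    _ = 32 * (q - 1) := Nat.mul_comm _ _

end Dq
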