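import Mathlib

/-! Homomorphisms to `ZMod 2`. -/

namespace Dq

/-- An element of order two is not in the kernel of some homomorphism to `ZMod 2` on the elements
annihilated by `2`. Proof: `{x | 2 • x = 0}` is a vector space over `ZMod 2`
(`AddCommGroup.zmodModule`), with a linear functional which does not vanish at `w`
(`Module.exists_dual_forall_apply_ne_zero` or `Basis`). -/
theorem exists_two_hom {V : Type*} [AddCommGroup V] (w : V) (hw : w ≠ 0) (h2 : 2 • w = 0) :
    ∃ f : V → ZMod 2, f w = 1 ∧
      ∀ x y : V, 2 • x = 0 → 2 • y = 0 → f (x + y) = f x + f y := by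
  classical
  let W : AddSubgroup V :=
    { carrier := {x | 2 • x = 0}
      add_mem' := by
        intro a b ha hb
        rw [Set.mem_ofPred_eq] at ha hb ⊢
        rw [smul_add, ha, hb, add_zero]
      zero_mem' := smul_zero 2
      neg_mem' := by
        intro a ha
        rw [Set.mem_ofPred_eq] at ha ⊢
        rw [smul_neg, ha, neg_zero] }
  let _ : Module (ZMod 2) W := AddCommGroup.zmodModule fun x => Subtype.ext x.2
  have hw0 : (⟨w, h2⟩ : W) ≠ 0 := fun h => hw (congrArg Subtype.val h)
  obtain ⟨φ, hφ⟩ : ∃ φ : Module.Dual (ZMod 2) W, φ ⟨w, h2⟩ ≠ 0 := by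
    by_contra hcon
    push Not at hcon
    exact hw0 ((Module.forall_dual_apply_eq_zero_iff (ZMod 2) _).1 hcon)
  have h01 : ∀ a : ZMod 2, a ≠ 0 → a = 1 := by decide
  refine ⟨fun x => if h : 2 • x = 0 then φ ⟨x, h⟩ else 0, ?_, ?_⟩
  · simp only
    rw [dif_pos h2]
    exact h01 _ hφ
  · intro x y hx hy
    have hxy : 2 • (x + y) = 0 := by rw [smul_add, hx, hy, add_zero]
    simp only
    rw [dif_pos hx, dif_pos hy, dif_pos hxy, ← map_add]
    rfl

end Dq
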