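import Pool.Agent.Lib.MP_f80667_ag.Dq.DgA

/-! A simple zero of a member in the tangent space from a square discriminant. -/

namespace Dq

open ZC Tq Dp

universe u

variable {κ : Type u} [Field κ] {A B : Matrix (Fin 5) (Fin 5) κ}

theorem char_ne_two (h2 : (2 : κ) ≠ 0) : ringChar κ ≠ 2 := by
  intro h
  apply h2
  have h1 := (ringChar.spec κ 2).2 (by rw [h])
  exact_mod_cast h1

/-- A member whose discriminant on the tangent space is a nonzero square has a simple zero in the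
tangent space, which is not on `X`. -/
theorem tan_of_sq [Fintype κ] [DecidableEq κ] (h2 : (2 : κ) ≠ 0) {P u₁ u₂ : Fin 5 → κ}
    (hns : NS A B P) (aP : qv A P = 0) (bP : qv B P = 0) (ht : TB A B P u₁ u₂) {l : Option κ}
    (hl : quadraticChar κ (ev (dsc (cf A u₁ u₂) (cf B u₁ u₂)) l) = 1) :
    ∃ u ∈ TP A B P, mQ A B (pr1 l) (pr2 l) u = 0 ∧ ¬ (qv A u = 0 ∧ qv B u = 0) ∧
      ∃ g ∈ TP A B P, mB A B (pr1 l) (pr2 l) u g ≠ 0 := by
  have hne : ev (dsc (cf A u₁ u₂) (cf B u₁ u₂)) l ≠ 0 := by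
    intro h0
    rw [h0, MulChar.map_zero] at hl
    exact zero_ne_one hl
  obtain ⟨c, hc⟩ := (quadraticChar_one_iff_isSquare hne).1 hl
  have hc0 : c ≠ 0 := by
    intro h0
    rw [h0, mul_zero] at hc
    exact hne hc
  obtain ⟨x, y, -, hz, hn, hg⟩ := dsc_zero_of_sq h2 (hns.indep aP bP ht) hc0 (hc.trans (sq c).symm)
  have hu : x • u₁ + y • u₂ ∈ TP A B P :=
    (TP A B P).add_mem ((TP A B P).smul_mem x ht.t1) ((TP A B P).smul_mem y ht.t2)
  refine ⟨x • u₁ + y • u₂, hu, ?_, ?_, ?_⟩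
  · rw [bf_cf, bf_cf] at hz
    exact hz
  · rw [bf_cf, bf_cf] at hn
    exact hn
  · rcases hg with h | h
    · refine ⟨u₁, ht.t1, ?_⟩
      simp only [cf, Matrix.cons_val] at h
      rw [mB_add, mB_smul, mB_smul, mB_self, mB_comm _ _ u₂ u₁, mB, mQ]
      intro h0
      apply h
      linear_combination h0
    · refine ⟨u₂, ht.t2, ?_⟩
      simp only [cf, Matrix.cons_val] at h
      rw [mB_add, mB_smul, mB_smul, mB_self, mB, mQ]
      intro h0
      apply h
      linear_combination h0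

end Dq
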