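import Pool.Agent.Lib.MP_f80667_ag.Dq.FinB2
import Pool.Agent.Lib.MP_f80667_ag.Dq.FinB3
import Pool.Agent.Lib.MP_f80667_ag.Dq.FinC
import Pool.Agent.Lib.MP_f80667_ag.Dq.Core
import Pool.Agent.Lib.MP_f80667_ag.Dq.FinD0
import Pool.Agent.Lib.MP_f80667_ag.Dq.FinT

/-! A function on the points over a finite field with the formal properties of the classes of points of
a lift is constant. -/

namespace Dq

open ZC Tq Dp

universe u

variable {κ : Type u} [Field κ] [Finite κ] {A B : Matrix (Fin 5) (Fin 5) κ} {Ω : Type u} [Field Ω]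
  [Algebra κ Ω] [IsAlgClosed Ω]

/-- **The finite field theorem.** Proof. Suppose `w = x P₀ - x T₀ ≠ 0`; `2 • w = 0` (`h0`). Let `f` be as in
`exists_two_hom` and `s P = f (x P - x T₀)`. Apply `core` (with `Fintype`, `DecidableEq` from
`Fintype.ofFinite`, `Classical`) to `W = WS A B`, `L = LS A B`, `Rel = Rl A B`, `s`,
`d P = dsc (cf A (u₁ P) (u₂ P)) (cf B (u₁ P) (u₂ P))` for bases `u₁ P`, `u₂ P` of the tangent spaces
(`exists_tb`; arbitrary outside `WS`): `hL`: `DG.card_le`; `c1l`: `c1_lower`; `c1u`: `c1_upper` (subset);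
`c2`: `c2_bound`; `c3`: `rl_unique`; `c4`: `h1` (`x P + x T - 2 x T₀` is a sum of two elements
annihilated by `2`); `c5`: `dsc_zero_of_sq` for the coefficients of `NS.indep` gives `(x, y)`, and
`u = x u₁ + y u₂` is a simple zero of the member in the tangent space, not on `X` (`bf_cf`; the gradient
gives `g = u₁` or `u₂` with `mB u g ≠ 0`), so `h2` applies; `c6`: `dsc_count`; `c7`: `dsc_zero`; `c8`:
`c8_bound`. So `s P₀ = s T₀`, i.e. `f w = f 0 = 0`, a contradiction. -/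
theorem ffc (h2 : (2 : κ) ≠ 0) (hs : Sm Ω A B) {v : Fin 5 → Fin 5 → Ω} (hv : DG A B v)
    (hq : 1000 ≤ Nat.card κ) {V : Type*} [AddCommGroup V] (x : (Fin 5 → κ) → V)
    (h0 : ∀ P ∈ WS A B, ∀ T ∈ WS A B, 2 • x P = 2 • x T)
    (h1 : ∀ P ∈ WS A B, ∀ T ∈ WS A B, ∀ P' ∈ WS A B, ∀ T' ∈ WS A B, ∀ l ∈ LS A B,
      Rl A B P T l → Rl A B P' T' l → x P + x T = x P' + x T')
    (h2' : ∀ P ∈ WS A B, ∀ T ∈ WS A B, ∀ l ∈ LS A B, Rl A B P T l →
      (∃ u ∈ TP A B P, mQ A B (pr1 l) (pr2 l) u = 0 ∧ ¬ (qv A u = 0 ∧ qv B u = 0) ∧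
        ∃ g ∈ TP A B P, mB A B (pr1 l) (pr2 l) u g ≠ 0) → x P = x T) :
    ∀ P ∈ WS A B, ∀ T ∈ WS A B, x P = x T := by
  classical
  have : Fintype κ := Fintype.ofFinite κ
  intro P₀ hP₀ T₀ hT₀
  by_contra hne
  have hw2 : 2 • (x P₀ - x T₀) = 0 := by rw [smul_sub, h0 P₀ hP₀ T₀ hT₀, sub_self]
  obtain ⟨f, hf1, hf⟩ := exists_two_hom _ (sub_ne_zero.2 hne) hw2
  have hf0 : f 0 = 0 := by
    have h3 := hf 0 0 (smul_zero 2) (smul_zero 2)
    rw [add_zero] at h3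
    exact left_eq_add.1 h3
  have hd : ∀ P ∈ WS A B, 2 • (x P - x T₀) = 0 := fun P hP => by
    rw [smul_sub, h0 P hP T₀ hT₀, sub_self]
  have hTB : ∀ P, ∃ u₁ u₂ : Fin 5 → κ, P ∈ WS A B → TB A B P u₁ u₂ := by
    intro P
    by_cases hP : P ∈ WS A B
    · obtain ⟨u₁, u₂, h⟩ := exists_tb hs (Algebra.ofId κ Ω) hP.1 hP.2.1 hP.2.2.1
      exact ⟨u₁, u₂, fun _ => h⟩
    · exact ⟨0, 0, fun h => absurd h hP⟩
  choose u₁ u₂ hu using hTB
  have hc := core (char_ne_two h2) (Nat.card_eq_fintype_card (α := κ)) hq (WS A B) (LS A B)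
    (hv.card_le (rad_two_ne h2)) (Rl A B) (fun P => f (x P - x T₀))
    (fun P => dsc (cf A (u₁ P) (u₂ P)) (cf B (u₁ P) (u₂ P)))
    (fun P hP l hl => c1_lower h2 hs hv rfl (by omega) hP.1 hP.2.1 hP.2.2.1 hl)
    (fun P hP l hl => ?_) (fun P hP => c2_bound h2 hs hv rfl hP)
    (fun P T l l' h h' => rl_unique h h') (fun P hP T hT P' hP' T' hT' l hl hr hr' => ?_)
    (fun P hP T hT l hl hr hχ => ?_) (fun P hP => ?_) (fun P hP => ?_)
    (fun d₀ hd₀ => c8_bound h2 hs hv rfl hu hd₀)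
  · have h3 : f (x P₀ - x T₀) = f (x T₀ - x T₀) := hc P₀ hP₀ T₀ hT₀
    rw [hf1, sub_self, hf0] at h3
    exact one_ne_zero h3
  · refine le_trans (Set.ncard_le_ncard ?_ (Set.toFinite _))
      (c1_upper h2 rfl hP.1 hP.2.1 hP.2.2.1 hl)
    intro T hT
    exact ⟨hT.1.1, hT.1.2.1, hT.1.2.2.1, hT.2⟩
  · have h3 := h1 P hP T hT P' hP' T' hT' l hl hr hr'
    change f (x P - x T₀) + f (x T - x T₀) = f (x P' - x T₀) + f (x T' - x T₀)
    rw [← hf _ _ (hd P hP) (hd T hT), ← hf _ _ (hd P' hP') (hd T' hT')]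
    congr 1
    have h4 : x P - x T₀ + (x T - x T₀) = x P + x T - (x T₀ + x T₀) := by abel
    have h5 : x P' - x T₀ + (x T' - x T₀) = x P' + x T' - (x T₀ + x T₀) := by abel
    rw [h4, h5, h3]
  · have h3 := h2' P hP T hT l hl hr
      (tan_of_sq h2 hP.2.2.2 hP.2.1 hP.2.2.1 (hu P hP) hχ)
    change f (x P - x T₀) = f (x T - x T₀)
    rw [h3]
  · rw [Nat.card_eq_fintype_card]
    exact dsc_count h2 (hP.2.2.2.indep hP.2.1 hP.2.2.1 (hu P hP))
  · exact dsc_zero h2 (hP.2.2.2.indep hP.2.1 hP.2.2.1 (hu P hP))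

/-- For every point and every nondegenerate member there is a point with `NS` on it. Proof:
`c1_lower`. -/
theorem exists_rl (h2 : (2 : κ) ≠ 0) (hs : Sm Ω A B) {v : Fin 5 → Fin 5 → Ω} (hv : DG A B v)
    (hq : 1000 ≤ Nat.card κ) {P : Fin 5 → κ} (hP : P ≠ 0) (aP : qv A P = 0) (bP : qv B P = 0)
    {l : Option κ} (hl : l ∈ LS A B) : ∃ T ∈ WS A B, Rl A B P T l := by
  have h := c1_lower h2 hs hv rfl (by omega) hP aP bP hl
  have h3 : 0 < (Nat.card κ - 1) * (Nat.card κ - 21) := Nat.mul_pos (by omega) (by omega)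
  have h4 : {T | T ∈ WS A B ∧ Rl A B P T l}.Nonempty := by
    rw [Set.nonempty_iff_ne_empty]
    intro h5
    rw [h5, Set.ncard_empty] at h
    omega
  obtain ⟨T, hT, hT'⟩ := h4
  exact ⟨T, hT, hT'⟩

end Dq
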