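import Pool.Agent.Lib.MP_f80667_ag.Dq.FinB2
import Pool.Agent.Lib.MP_f80667_ag.Dq.FinC
import Pool.Agent.Lib.MP_f80667_ag.Dq.FinT

/-! Tangent vectors with a point on the same member. -/

namespace Dq

open ZC Tq Dp

universe u

variable {κ : Type u} [Field κ] [Finite κ] {A B : Matrix (Fin 5) (Fin 5) κ} {Ω : Type u} [Field Ω]
  [Algebra κ Ω] [IsAlgClosed Ω]

/-- For every point with `NS` there are a nondegenerate member and a point `T` with `NS` as in the
hypothesis `h2'` of `ffc`. Proof: by `dsc_count` there are at least `(q - 2) / 2 > 5` points `l` with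
`χ = 1`, one of them in `LS` (`DG.card_le`); `c1_lower`; the tangent vector as in the proof of `ffc`. -/
theorem exists_tan (h2 : (2 : κ) ≠ 0) (hs : Sm Ω A B) {v : Fin 5 → Fin 5 → Ω} (hv : DG A B v)
    (hq : 1000 ≤ Nat.card κ) {P : Fin 5 → κ} (hP : P ∈ WS A B) :
    ∃ l ∈ LS A B, ∃ T ∈ WS A B, Rl A B P T l ∧
      ∃ u ∈ TP A B P, mQ A B (pr1 l) (pr2 l) u = 0 ∧ ¬ (qv A u = 0 ∧ qv B u = 0) ∧
        ∃ g ∈ TP A B P, mB A B (pr1 l) (pr2 l) u g ≠ 0 := by
  classical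
  have : Fintype κ := Fintype.ofFinite κ
  obtain ⟨hP0, aP, bP, hns⟩ := hP
  obtain ⟨u₁, u₂, ht⟩ := exists_tb hs (Algebra.ofId κ Ω) hP0 aP bP
  have h3 := dsc_count h2 (hns.indep aP bP ht)
  have h4 := hv.card_le (rad_two_ne h2)
  rw [Nat.card_eq_fintype_card] at hq
  have h5 : ∃ l, l ∈ LS A B ∧
      quadraticChar κ (ev (dsc (cf A u₁ u₂) (cf B u₁ u₂)) l) = 1 := by
    by_contra hcon
    push Not at hcon
    have h6 : {l | quadraticChar κ (ev (dsc (cf A u₁ u₂) (cf B u₁ u₂)) l) = 1} ⊆ (LS A B)ᶜ :=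
      fun l hl hl' => hcon l hl' hl
    have h7 := Set.ncard_le_ncard h6 (Set.toFinite _)
    omega
  obtain ⟨l, hl, hχ⟩ := h5
  have h6 := c1_lower h2 hs hv rfl (by rw [Nat.card_eq_fintype_card]; omega) hP0 aP bP hl
  rw [Nat.card_eq_fintype_card] at h6
  have h7 : 0 < (Fintype.card κ - 1) * (Fintype.card κ - 21) := Nat.mul_pos (by omega) (by omega)
  have h8 : {T | T ∈ WS A B ∧ Rl A B P T l}.Nonempty := by
    rw [Set.nonempty_iff_ne_empty]
    intro h9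
    rw [h9, Set.ncard_empty] at h6
    omega
  obtain ⟨T, hT, hr⟩ := h8
  exact ⟨l, hl, T, hT, hr, tan_of_sq h2 hns aP bP ht hχ⟩

end Dq
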