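import Pool.Agent.Lib.MP_f80667_ag.Dp.Sing
import Pool.Agent.Lib.MP_f80667_ag.Dp.Rad

/-! Totally isotropic subspaces of the members of the pencil, for at least five variables. -/

namespace Dq

open ZC Tq Dp

universe u

section gen

variable {k : Type u} [Field k] {n : ℕ} {A B : Matrix (Fin n) (Fin n) k} {M : Type u} [Field M]
  [Algebra k M]

/-- The dimension of a totally isotropic space: `U` is contained in its orthogonal space. -/
theorem iso_dim {a b : M} (U : Submodule M (Fin n → M)) (hU : ∀ y ∈ U, mQ A B a b y = 0) :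
    2 * Module.finrank M U ≤ n +
      Module.finrank M (U ⊓ (bvB A B a b).orthogonal ⊤ : Submodule M (Fin n → M)) := by
  have hrefl : (bvB A B a b).IsRefl := by
    intro x y h
    rw [bvB_apply] at h ⊢
    rw [bv_comm A y x, bv_comm B y x]
    exact h
  have hU1 : U ≤ (bvB A B a b).orthogonal U := by
    intro y hy
    rw [LinearMap.BilinForm.mem_orthogonal_iff]
    intro x hx
    change bvB A B a b x y = 0
    rw [bvB_apply]
    have h1 := hU x hx
    have h2 := hU y hy
    have h3 := hU (x + y) (U.add_mem hx hy)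
    rw [mQ] at h1 h2
    rw [mQ, qv_add, qv_add] at h3
    linear_combination h3 - h1 - h2
  have h1 := LinearMap.BilinForm.finrank_add_finrank_orthogonal hrefl U
  have h2' := Submodule.finrank_mono hU1
  rw [Module.finrank_fin_fun] at h1
  omega

theorem rad_of_mem {a b : M} {U : Submodule M (Fin n → M)} {z : Fin n → M}
    (hz : z ∈ U ⊓ (bvB A B a b).orthogonal ⊤) (w : Fin n → M) : mB A B a b z w = 0 := by
  have h5 := (LinearMap.BilinForm.mem_orthogonal_iff.1 hz.2) w trivial
  change bvB A B a b w z = 0 at h5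
  rw [bvB_apply, bv_comm A, bv_comm B] at h5
  exact h5

/-- A nondegenerate member does not vanish on a subspace of codimension `2`. -/
theorem nd_sub (hn : 5 ≤ n) {a b : M} (hnd : ND A B a b) (U : Submodule M (Fin n → M))
    (hU : n ≤ Module.finrank M U + 2) : ∃ y ∈ U, mQ A B a b y ≠ 0 := by
  by_contra hcon
  push Not at hcon
  have h1 := iso_dim U hcon
  have h2 : (U ⊓ (bvB A B a b).orthogonal ⊤ : Submodule M (Fin n → M)) = ⊥ := by
    rw [eq_bot_iff]
    intro z hz
    by_contra hz0
    obtain ⟨y, hy⟩ := hnd z (fun h => hz0 (by rw [h]; exact Submodule.zero_mem _))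
    exact hy (rad_of_mem hz y)
  rw [h2, finrank_bot] at h1
  omega

end gen

variable {k : Type u} [Field k] {Ω : Type u} [Field Ω] [Algebra k Ω] [IsAlgClosed Ω]
  {n : ℕ} {A B : Matrix (Fin n) (Fin n) k} {M : Type u} [Field M] [Algebra k M]

/-- The radical has dimension at most one. -/
theorem rad_one (h2 : (2 : k) ≠ 0) (hs : Sm Ω A B) (σ : M →ₐ[k] Ω) {a b : M}
    (hab : a ≠ 0 ∨ b ≠ 0) (U : Submodule M (Fin n → M)) :
    Module.finrank M (U ⊓ (bvB A B a b).orthogonal ⊤ : Submodule M (Fin n → M)) ≤ 1 := by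
  by_contra h4
  rw [not_le] at h4
  have : Nontrivial (U ⊓ (bvB A B a b).orthogonal ⊤ : Submodule M (Fin n → M)) :=
    Module.nontrivial_of_finrank_pos (R := M) (lt_trans Nat.zero_lt_one h4)
  obtain ⟨x, hx⟩ := exists_ne (0 : (U ⊓ (bvB A B a b).orthogonal ⊤ : Submodule M (Fin n → M)))
  obtain ⟨y, hy⟩ := exists_linearIndependent_pair_of_one_lt_finrank h4 hx
  have hxy := hy.map' (Submodule.subtype _) (Submodule.ker_subtype _)
  have e : (Submodule.subtype (U ⊓ (bvB A B a b).orthogonal ⊤ : Submodule M (Fin n → M))) ∘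
      ![x, y] = ![(x : Fin n → M), (y : Fin n → M)] := by
    funext i
    fin_cases i <;> rfl
  rw [e] at hxy
  exact Dp.rad_le h2 hs σ hab hxy (rad_of_mem x.2) (rad_of_mem y.2)

/-- A member does not vanish on a subspace of codimension `1`. -/
theorem rad_sub (h2 : (2 : k) ≠ 0) (hs : Sm Ω A B) (σ : M →ₐ[k] Ω) (hn : 5 ≤ n) {a b : M}
    (hab : a ≠ 0 ∨ b ≠ 0) (U : Submodule M (Fin n → M)) (hU : n ≤ Module.finrank M U + 1) :
    ∃ y ∈ U, mQ A B a b y ≠ 0 := by
  by_contra hcon
  push Not at hcon
  have h1 := iso_dim U hcon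
  have h3 := rad_one h2 hs σ hab U
  omega

/-- A member which vanishes on a space of codimension `2` vanishes on a space which contains the
radical (for five variables). Proof: otherwise the member vanishes on the sum of the space and a
radical vector, a space of codimension `1` (`rad_sub`). -/
theorem rad_mem (h2 : (2 : k) ≠ 0) (hs : Sm Ω A B) (σ : M →ₐ[k] Ω) (hn : 5 ≤ n) {a b : M}
    (hab : a ≠ 0 ∨ b ≠ 0) (U : Submodule M (Fin n → M)) (hU : n ≤ Module.finrank M U + 2)
    (h : ∀ y ∈ U, mQ A B a b y = 0) {r : Fin n → M} (hr : ∀ y, mB A B a b r y = 0) : r ∈ U := by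
  by_contra hrU
  have h2M : (2 : M) ≠ 0 := rad_two_ne h2
  have hq : mQ A B a b r = 0 := by
    have h1 := hr r
    rw [mB_self] at h1
    exact (mul_eq_zero.1 h1).resolve_left h2M
  have h3 : Module.finrank M U + 1 ≤ Module.finrank M (U ⊔ Submodule.span M {r} :
      Submodule M (Fin n → M)) := by
    have h4 : U < U ⊔ Submodule.span M {r} := by
      refine lt_of_le_of_ne le_sup_left fun he => hrU ?_
      rw [he]
      exact Submodule.mem_sup_right (Submodule.mem_span_singleton_self r)
    exact Submodule.finrank_lt_finrank_of_lt h4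
  obtain ⟨y, hy, hy0⟩ := rad_sub h2 hs σ hn hab (U ⊔ Submodule.span M {r}) (by omega)
  apply hy0
  obtain ⟨u, hu, v, hv, rfl⟩ := Submodule.mem_sup.1 hy
  obtain ⟨c, rfl⟩ := Submodule.mem_span_singleton.1 hv
  rw [mQ_add, mQ_smul, hq, h u hu, mB_smul_right, mB_comm, hr u]
  ring

end Dq
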