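import Pool.Agent.Lib.MP_f80667_ag.Dq.SA

/-! A global polynomial `H` near given local ones. -/

open Polynomial IsDedekindDomain NumberField
open scoped WithZero

namespace Dq

variable {F : Type} [Field F] [NumberField F]

/-- The monic polynomial with given lower coefficients. -/
noncomputable def GPoly_mk {K : Type} [Field K] (D : ℕ) (x : ℕ → K) : K[X] :=
  X ^ D + ∑ j ∈ Finset.range D, C (x j) * X ^ j

theorem GPoly_mk_deg {K : Type} [Field K] (D : ℕ) (x : ℕ → K) :
    (∑ j ∈ Finset.range D, C (x j) * X ^ j).degree < (D : WithBot ℕ) := by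
  rw [degree_lt_iff_coeff_zero]
  intro m hm
  rw [finsetSum_coeff]
  refine Finset.sum_eq_zero fun j hj => ?_
  rw [Finset.mem_range] at hj
  rw [coeff_C_mul, coeff_X_pow, if_neg (by omega), mul_zero]

theorem GPoly_mk_monic {K : Type} [Field K] (D : ℕ) (x : ℕ → K) : (GPoly_mk D x).Monic :=
  monic_X_pow_add (GPoly_mk_deg D x)

theorem GPoly_mk_natDegree {K : Type} [Field K] (D : ℕ) (x : ℕ → K) :
    (GPoly_mk D x).natDegree = D := by
  refine natDegree_eq_of_degree_eq_some ?_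
  rw [GPoly_mk, degree_add_eq_left_of_degree_lt]
  · exact degree_X_pow D
  · rw [degree_X_pow]
    exact GPoly_mk_deg D x

theorem GPoly_mk_coeff {K : Type} [Field K] {D : ℕ} (x : ℕ → K) {j : ℕ} (hj : j < D) :
    (GPoly_mk D x).coeff j = x j := by
  rw [GPoly_mk, coeff_add, coeff_X_pow, if_neg (by omega), zero_add, finsetSum_coeff,
    Finset.sum_eq_single j]
  · rw [coeff_C_mul, coeff_X_pow, if_pos rfl, mul_one]
  · intro i _ hi
    rw [coeff_C_mul, coeff_X_pow, if_neg (fun h => hi h.symm), mul_zero]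
  · intro h
    exact absurd (Finset.mem_range.2 hj) h

/-- Bounds for the coefficients of a polynomial. -/
theorem GPoly_bound (f : F[X]) (v : HeightOneSpectrum (𝓞 F)) :
    ∃ b : ℤᵐ⁰, 1 ≤ b ∧ ∀ j, v.valuation F (f.coeff j) ≤ b := by
  refine ⟨max 1 ((Finset.range (f.natDegree + 1)).sup fun j => v.valuation F (f.coeff j)),
    le_max_left _ _, fun j => ?_⟩
  by_cases hj : j ≤ f.natDegree
  · exact (Finset.le_sup (f := fun j => v.valuation F (f.coeff j))
      (Finset.mem_range.2 (by omega))).trans (le_max_right _ _)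
  · rw [coeff_eq_zero_of_natDegree_lt (by omega), map_zero]
    exact zero_le

/-- There are finitely many real embeddings. -/
theorem GPoly_finite : Finite (F →+* ℝ) := by
  refine Finite.of_injective (fun φ : F →+* ℝ => Complex.ofRealHom.comp φ) ?_
  intro φ ψ h
  ext x
  have := congrArg (fun f : F →+* ℂ => f x) h
  exact Complex.ofReal_injective this

/-- The difference of two monic polynomials of the same degree. -/
theorem GPoly_sub_coeff {K : Type} [Field K] {D : ℕ} {P Q : K[X]} (hP : P.Monic)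
    (hPd : P.natDegree = D) (hQ : Q.Monic) (hQd : Q.natDegree = D) {j : ℕ} (hj : D ≤ j) :
    (P - Q).coeff j = 0 := by
  rw [coeff_sub]
  rcases eq_or_lt_of_le hj with h | h
  · have h1 : P.coeff j = 1 := by rw [← h, ← hPd]; exact hP
    have h2 : Q.coeff j = 1 := by rw [← h, ← hQd]; exact hQ
    rw [h1, h2, sub_self]
  · rw [coeff_eq_zero_of_natDegree_lt (by omega), coeff_eq_zero_of_natDegree_lt (by omega),
      sub_self]

theorem GPoly_monic_C {K : Type} [Field K] {D : ℕ} (hD : 1 ≤ D) {Q : K[X]} (hQ : Q.Monic)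
    (hQd : Q.natDegree = D) (c : K) : (Q + C c).Monic ∧ (Q + C c).natDegree = D := by
  refine ⟨hQ.add_of_left ?_, by rw [natDegree_add_C, hQd]⟩
  refine lt_of_le_of_lt degree_C_le ?_
  rw [degree_eq_natDegree hQ.ne_zero, hQd]
  exact_mod_cast hD

/-- **Approximation of polynomials.** `g`: the precision at the places of `S` and `V`; at the places of
`V` the given polynomials are integral; `Hv v` (`v ∈ S ∪ V`) and `Hr φ` (real embeddings) are monic of
degree `D`. Proof: `strong` for every coefficient of index `j < D` (with the finite set `S ∪ V`), to get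
`Q`; `exists_dom` with a precision at most `g` and with bounds larger than the valuations of the
coefficients of `Q` and `1`. -/
theorem exists_H {S V : Finset (HeightOneSpectrum (𝓞 F))} (hSV : Disjoint S V) {p : ℕ}
    (hp : p.Prime) (hpS : ∀ v ∈ S, v.valuation F (p : F) = 1)
    (hpV : ∀ v ∈ V, v.valuation F (p : F) = 1) {D : ℕ} (hD : 1 ≤ D)
    (Hv : HeightOneSpectrum (𝓞 F) → F[X])
    (h1 : ∀ v, v ∈ S ∨ v ∈ V → (Hv v).Monic ∧ (Hv v).natDegree = D)
    (h2 : ∀ v ∈ V, ∀ j, v.valuation F ((Hv v).coeff j) ≤ 1)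
    (Hr : (F →+* ℝ) → ℝ[X]) (h3 : ∀ φ, (Hr φ).Monic ∧ (Hr φ).natDegree = D)
    (g : HeightOneSpectrum (𝓞 F) → ℤᵐ⁰) (hg : ∀ v, g v ≠ 0) (hgV : ∀ v ∈ V, g v ≤ 1)
    {ε : ℝ} (hε : 0 < ε) :
    ∃ (Q : F[X]) (m d : F), Q.Monic ∧ Q.natDegree = D ∧ m ≠ 0 ∧ d ≠ 0 ∧
      (∀ v ∈ S, ∀ j, v.valuation F ((Q + C (m / d ^ 2) - Hv v).coeff j) < g v) ∧
      (∀ v ∈ V, ∀ j, v.valuation F ((Q + C (m / d ^ 2) - Hv v).coeff j) < g v) ∧
      (∀ v : HeightOneSpectrum (𝓞 F), v ∉ S → v.valuation F (p : F) = 1 →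
        ∀ j, v.valuation F ((Q + C (m / d ^ 2)).coeff j) ≤ 1) ∧
      (∀ v : HeightOneSpectrum (𝓞 F), v.valuation F (p : F) ≠ 1 → v.valuation F m = 1 ∧
        ∀ j, v.valuation F (Q.coeff j) < v.valuation F (m / d ^ 2)) ∧
      ∀ (φ : F →+* ℝ) (j : ℕ), |((Q + C (m / d ^ 2)).map φ - Hr φ).coeff j| < ε := by
  classical
  have hpU : ∀ v ∈ S ∪ V, v.valuation F (p : F) = 1 := by
    intro v hv
    rcases Finset.mem_union.1 hv with h | h
    · exact hpS v h
    · exact hpV v h
  choose x hx1 hx2 hx3 using fun j : ℕ => strong F hp hpU (fun v => (Hv v).coeff j) g hg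
    (fun φ => (Hr φ).coeff j) (half_pos hε)
  set Q : F[X] := GPoly_mk D x with hQ
  have hQm : Q.Monic := GPoly_mk_monic D x
  have hQd : Q.natDegree = D := GPoly_mk_natDegree D x
  choose b hb1 hb2 using GPoly_bound Q
  obtain ⟨m, d, hm0, hd0, hmS, hmi, hmp, hmr⟩ := exists_dom F hp hpU g hg b (half_pos hε)
  have hT := GPoly_monic_C hD hQm hQd (m / d ^ 2)
  have hcoef : ∀ v, v ∈ S ∨ v ∈ V → ∀ j,
      v.valuation F ((Q + C (m / d ^ 2) - Hv v).coeff j) < g v := by
    intro v hv j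
    have hvU : v ∈ S ∪ V := Finset.mem_union.2 hv
    by_cases hj : j < D
    · have e : (Q + C (m / d ^ 2) - Hv v).coeff j =
          (x j - (Hv v).coeff j) + (C (m / d ^ 2)).coeff j := by
        rw [coeff_sub, coeff_add, hQ, GPoly_mk_coeff x hj]
        ring
      rw [e]
      refine lt_of_le_of_lt (Valuation.map_add _ _ _) (max_lt (hx1 j v hvU) ?_)
      rw [coeff_C]
      split_ifs
      · exact hmS v hvU
      · rw [map_zero]
        exact zero_lt_iff.2 (hg v)
    · rw [GPoly_sub_coeff hT.1 hT.2 (h1 v hv).1 (h1 v hv).2 (not_lt.1 hj), map_zero]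
      exact zero_lt_iff.2 (hg v)
  refine ⟨Q, m, d, hQm, hQd, hm0, hd0, ?_, ?_, ?_, ?_, ?_⟩
  · exact fun v hv j => hcoef v (Or.inl hv) j
  · exact fun v hv j => hcoef v (Or.inr hv) j
  · intro v hvS hvp j
    by_cases hvV : v ∈ V
    · have e : (Q + C (m / d ^ 2)).coeff j =
          (Q + C (m / d ^ 2) - Hv v).coeff j + (Hv v).coeff j := by
        rw [coeff_sub, sub_add_cancel]
      rw [e]
      refine (Valuation.map_add _ _ _).trans (max_le ?_ (h2 v hvV j))
      exact ((hcoef v (Or.inr hvV) j).trans_le (hgV v hvV)).le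
    · have hvU : v ∉ S ∪ V := by
        rw [Finset.mem_union]
        tauto
      rcases lt_or_ge j D with hj | hj
      · rw [coeff_add, hQ, GPoly_mk_coeff x hj]
        refine (Valuation.map_add _ _ _).trans (max_le (hx2 j v hvU hvp) ?_)
        rw [coeff_C]
        split_ifs
        · exact hmi v hvp
        · rw [map_zero]
          exact zero_le
      · rcases eq_or_lt_of_le hj with h | h
        · have h4 : (Q + C (m / d ^ 2)).coeff j = 1 := by
            rw [← h]
            conv_lhs => rw [← hT.2]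
            exact hT.1
          rw [h4, map_one]
        · rw [coeff_eq_zero_of_natDegree_lt (by rw [hT.2]; exact h), map_zero]
          exact zero_le
  · intro v hv
    obtain ⟨h4, h5⟩ := hmp v hv
    exact ⟨h4, fun j => lt_of_le_of_lt (hb2 v j) h5⟩
  · intro φ j
    rcases lt_or_ge j D with hj | hj
    · have e : ((Q + C (m / d ^ 2)).map φ - Hr φ).coeff j =
          (φ (x j) - (Hr φ).coeff j) + φ ((C (m / d ^ 2)).coeff j) := by
        rw [coeff_sub, coeff_map, coeff_add, hQ, GPoly_mk_coeff x hj, map_add]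
        ring
      rw [e]
      have h4 : |φ ((C (m / d ^ 2)).coeff j)| < ε / 2 := by
        rw [coeff_C]
        split_ifs
        · exact hmr φ
        · rw [map_zero, abs_zero]
          exact half_pos hε
      calc |(φ (x j) - (Hr φ).coeff j) + φ ((C (m / d ^ 2)).coeff j)| ≤ _ := abs_add_le _ _
        _ < ε / 2 + ε / 2 := add_lt_add (hx3 j φ) h4
        _ = ε := add_halves ε
    · rw [GPoly_sub_coeff (hT.1.map φ) (by rw [natDegree_map, hT.2]) (h3 φ).1 (h3 φ).2 hj,
        abs_zero]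
      exact hε

/-- The local polynomials from the quotients. `f` monic of degree `5`, `P v`, `v ∈ S`, monic of degree
`N`, such that the remainder of `P v - ρ` modulo `f` is small; `R φ` such that `f` divides `R φ - ρ`.
Proof: `exists_H` with `D = N - 5`, `Hv v = (P v - ρ) /ₘ f` for `v ∈ S`, `Hr φ` the quotient of
`R φ - ρ` by `f`, and smaller precisions `g'`, `ε'` (`ρ + f * H - P v = f * (H - Hv v) - r`; the
coefficients of `f` are bounded). -/
theorem exists_gpoly {S V : Finset (HeightOneSpectrum (𝓞 F))} (hSV : Disjoint S V) {p : ℕ}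
    (hp : p.Prime) (hpS : ∀ v ∈ S, v.valuation F (p : F) = 1)
    (hpV : ∀ v ∈ V, v.valuation F (p : F) = 1) {f ρ : F[X]} (hf : f.Monic)
    (hfd : f.natDegree = 5) (hρ : ρ.degree < f.degree) {N : ℕ} (hN : 6 ≤ N)
    (P : HeightOneSpectrum (𝓞 F) → F[X]) (hP : ∀ v ∈ S, (P v).Monic ∧ (P v).natDegree = N)
    (g : HeightOneSpectrum (𝓞 F) → ℤᵐ⁰) (hg : ∀ v, g v ≠ 0) (hgV : ∀ v ∈ V, g v ≤ 1)
    (hPr : ∀ v ∈ S, ∀ j, v.valuation F (((P v - ρ) %ₘ f).coeff j) < g v)
    (Hv : HeightOneSpectrum (𝓞 F) → F[X])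
    (hH : ∀ v ∈ V, (Hv v).Monic ∧ (Hv v).natDegree = N - 5)
    (hHi : ∀ v ∈ V, ∀ j, v.valuation F ((Hv v).coeff j) ≤ 1)
    (R : (F →+* ℝ) → ℝ[X]) (hR : ∀ φ, (R φ).Monic ∧ (R φ).natDegree = N ∧
      f.map φ ∣ R φ - ρ.map φ) {ε : ℝ} (hε : 0 < ε) :
    ∃ (Q : F[X]) (m d : F), Q.Monic ∧ Q.natDegree = N - 5 ∧ m ≠ 0 ∧ d ≠ 0 ∧
      (ρ + f * (Q + C (m / d ^ 2))).Monic ∧ (ρ + f * (Q + C (m / d ^ 2))).natDegree = N ∧
      (∀ v ∈ S, ∀ j, v.valuation F ((ρ + f * (Q + C (m / d ^ 2)) - P v).coeff j) < g v) ∧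
      (∀ v ∈ V, ∀ j, v.valuation F ((Q + C (m / d ^ 2) - Hv v).coeff j) < g v) ∧
      (∀ v : HeightOneSpectrum (𝓞 F), v ∉ S → v.valuation F (p : F) = 1 →
        ∀ j, v.valuation F ((Q + C (m / d ^ 2)).coeff j) ≤ 1) ∧
      (∀ v : HeightOneSpectrum (𝓞 F), v.valuation F (p : F) ≠ 1 → v.valuation F m = 1 ∧
        ∀ j, v.valuation F (Q.coeff j) < v.valuation F (m / d ^ 2)) ∧
      ∀ (φ : F →+* ℝ) (j : ℕ), |((ρ + f * (Q + C (m / d ^ 2))).map φ - R φ).coeff j| < ε := by
  classical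
  have hf0 : f ≠ 0 := hf.ne_zero
  have hρ5 : ρ.degree < 5 := by
    rw [degree_eq_natDegree hf0, hfd] at hρ
    exact_mod_cast hρ
  -- the quotients
  have hquot : ∀ {K : Type} [Field K] {A B G : K[X]}, A.Monic → A.natDegree = N →
      B.degree < 5 → G.Monic → G.natDegree = 5 →
      ((A - B) /ₘ G).Monic ∧ ((A - B) /ₘ G).natDegree = N - 5 := by
    intro K _ A B G hA hAd hB hG hGd
    have h1 : B.degree < A.degree := by
      rw [degree_eq_natDegree hA.ne_zero, hAd]
      refine hB.trans ?_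
      exact_mod_cast (by omega : 5 < N)
    have h2 : (A - B).Monic := hA.sub_of_left h1
    have h3 : (A - B).degree = A.degree := degree_sub_eq_left_of_degree_lt h1
    have h4 : (A - B).natDegree = N := by
      rw [natDegree, h3, ← natDegree, hAd]
    refine ⟨?_, by rw [natDegree_divByMonic _ hG, h4, hGd]⟩
    rw [Monic, leadingCoeff_divByMonic_of_monic hG]
    · exact h2
    · rw [h3, degree_eq_natDegree hA.ne_zero, degree_eq_natDegree hG.ne_zero, hAd, hGd]
      exact_mod_cast (by omega : 5 ≤ N)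
  choose M hM1 hM2 using GPoly_bound f
  have hM0 : ∀ v, M v ≠ 0 := fun v h => by
    have := hM1 v
    rw [h] at this
    exact absurd this (not_le.2 zero_lt_one)
  set g' : HeightOneSpectrum (𝓞 F) → ℤᵐ⁰ := fun v => if v ∈ S then g v / M v else g v with hg'
  have hg'0 : ∀ v, g' v ≠ 0 := by
    intro v
    simp only [hg']
    split_ifs
    · exact div_ne_zero (hg v) (hM0 v)
    · exact hg v
  have hg'S : ∀ v ∈ S, g' v = g v / M v := fun v hv => if_pos hv
  have hg'V : ∀ v ∈ V, g' v = g v := fun v hv => if_neg (Finset.disjoint_right.1 hSV hv)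
  set Hv' : HeightOneSpectrum (𝓞 F) → F[X] := fun v => if v ∈ S then (P v - ρ) /ₘ f else Hv v
    with hHv'
  have hHS : ∀ v ∈ S, Hv' v = (P v - ρ) /ₘ f := fun v hv => if_pos hv
  have hHV : ∀ v ∈ V, Hv' v = Hv v := fun v hv => if_neg (Finset.disjoint_right.1 hSV hv)
  have := GPoly_finite (F := F)
  obtain ⟨B, hB⟩ : ∃ B : ℝ, ∀ φ : F →+* ℝ,
      ∑ a ∈ Finset.range 6, |φ (f.coeff a)| ≤ B := by
    obtain ⟨B, hB⟩ := (Set.finite_range fun φ : F →+* ℝ =>
      ∑ a ∈ Finset.range 6, |φ (f.coeff a)|).bddAbove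
    exact ⟨B, fun φ => hB ⟨φ, rfl⟩⟩
  have hB1 : 0 < |B| + 1 := by positivity
  have hR1 : ∀ φ, ((R φ - ρ.map φ) /ₘ f.map φ).Monic ∧
      ((R φ - ρ.map φ) /ₘ f.map φ).natDegree = N - 5 := fun φ =>
    hquot (hR φ).1 (hR φ).2.1 (by rw [degree_map]; exact hρ5) (hf.map φ)
      (by rw [natDegree_map, hfd])
  obtain ⟨Q, m, d, hQ, hQd, hm, hd, h1, h2, h3, h4, h5⟩ := exists_H hSV hp hpS hpV
    (D := N - 5) (by omega) Hv' (by
      intro v hv
      rcases hv with h | h
      · rw [hHS v h]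
        exact hquot (hP v h).1 (hP v h).2 hρ5 hf hfd
      · rw [hHV v h]
        exact hH v h) (by
      intro v hv j
      rw [hHV v hv]
      exact hHi v hv j) (fun φ => (R φ - ρ.map φ) /ₘ f.map φ) hR1 g' hg'0 (by
      intro v hv
      rw [hg'V v hv]
      exact hgV v hv)
      (ε := ε / (|B| + 1)) (div_pos hε hB1)
  have hT := GPoly_monic_C (D := N - 5) (by omega) hQ hQd (m / d ^ 2)
  have hfT : (f * (Q + C (m / d ^ 2))).Monic := hf.mul hT.1
  have hfTd : (f * (Q + C (m / d ^ 2))).natDegree = N := by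
    rw [hf.natDegree_mul hT.1, hfd, hT.2]
    omega
  have hlt : ρ.degree < (f * (Q + C (m / d ^ 2))).degree := by
    rw [degree_eq_natDegree hfT.ne_zero, hfTd]
    refine hρ5.trans ?_
    exact_mod_cast (by omega : 5 < N)
  refine ⟨Q, m, d, hQ, hQd, hm, hd, hfT.add_of_right hlt, ?_, ?_, ?_, h3, h4, ?_⟩
  · rw [natDegree, degree_add_eq_right_of_degree_lt hlt, ← natDegree, hfTd]
  · intro v hv j
    have e1 := modByMonic_add_div (P v - ρ) f
    have e : ρ + f * (Q + C (m / d ^ 2)) - P v =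
        f * (Q + C (m / d ^ 2) - Hv' v) - (P v - ρ) %ₘ f := by
      rw [hHS v hv]
      linear_combination e1
    rw [e, coeff_sub]
    refine lt_of_le_of_lt (Valuation.map_sub _ _ _) (max_lt ?_ (hPr v hv j))
    rw [coeff_mul]
    refine Valuation.map_sum_lt _ (hg v) fun i _ => ?_
    rw [map_mul]
    have h6 := h1 v hv i.2
    calc v.valuation F (f.coeff i.1) *
          v.valuation F ((Q + C (m / d ^ 2) - Hv' v).coeff i.2)
        ≤ M v * v.valuation F ((Q + C (m / d ^ 2) - Hv' v).coeff i.2) :=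
          mul_le_mul_left (hM2 v _) _
      _ < M v * g' v := mul_lt_mul_of_pos_left h6 (zero_lt_iff.2 (hM0 v))
      _ = g v := by rw [hg'S v hv, mul_div_cancel₀ _ (hM0 v)]
  · intro v hv j
    have h6 := h2 v hv j
    rwa [hHV v hv, hg'V v hv] at h6
  · intro φ j
    obtain ⟨q, hq⟩ := (hR φ).2.2
    have e1 : R φ - ρ.map φ = f.map φ * ((R φ - ρ.map φ) /ₘ f.map φ) := by
      rw [hq, mul_divByMonic_cancel_left _ (hf.map φ)]
    have e : (ρ + f * (Q + C (m / d ^ 2))).map φ - R φ =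
        f.map φ * ((Q + C (m / d ^ 2)).map φ - (R φ - ρ.map φ) /ₘ f.map φ) := by
      rw [Polynomial.map_add, Polynomial.map_mul]
      linear_combination -e1
    rw [e, coeff_mul, Finset.Nat.sum_antidiagonal_eq_sum_range_succ_mk]
    have h6 : ∀ a, |(f.map φ).coeff a *
        ((Q + C (m / d ^ 2)).map φ - (R φ - ρ.map φ) /ₘ f.map φ).coeff (j - a)| ≤
        |φ (f.coeff a)| * (ε / (|B| + 1)) := by
      intro a
      rw [abs_mul, coeff_map]
      exact mul_le_mul_of_nonneg_left (h5 φ (j - a)).le (abs_nonneg _)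
    have h7 : ∑ a ∈ Finset.range (j + 1), |φ (f.coeff a)| ≤ B := by
      refine le_trans ?_ (hB φ)
      rw [← Finset.sum_filter_add_sum_filter_not (Finset.range (j + 1)) (fun a => a < 6)]
      have h8 : ∑ a ∈ Finset.range (j + 1) with ¬ a < 6, |φ (f.coeff a)| = 0 := by
        refine Finset.sum_eq_zero fun a ha => ?_
        rw [Finset.mem_filter] at ha
        rw [coeff_eq_zero_of_natDegree_lt (by omega), map_zero, abs_zero]
      rw [h8, add_zero]
      refine Finset.sum_le_sum_of_subset_of_nonneg ?_ fun _ _ _ => abs_nonneg _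
      intro a ha
      rw [Finset.mem_filter] at ha
      exact Finset.mem_range.2 ha.2
    have h9 : |∑ a ∈ Finset.range (j + 1), (f.map φ).coeff a *
        ((Q + C (m / d ^ 2)).map φ - (R φ - ρ.map φ) /ₘ f.map φ).coeff (j - a)| ≤
        ∑ a ∈ Finset.range (j + 1), |φ (f.coeff a)| * (ε / (|B| + 1)) :=
      (Finset.abs_sum_le_sum_abs _ _).trans (Finset.sum_le_sum fun a _ => h6 a)
    refine lt_of_le_of_lt h9 ?_
    rw [← Finset.sum_mul]
    have h10 : 0 < ε / (|B| + 1) := div_pos hε hB1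
    calc (∑ a ∈ Finset.range (j + 1), |φ (f.coeff a)|) * (ε / (|B| + 1))
        ≤ |B| * (ε / (|B| + 1)) :=
          mul_le_mul_of_nonneg_right (h7.trans (le_abs_self B)) h10.le
      _ < (|B| + 1) * (ε / (|B| + 1)) := mul_lt_mul_of_pos_right (lt_add_one _) h10
      _ = ε := mul_div_cancel₀ _ hB1.ne'

end Dq
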