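import Pool.Agent.Lib.MP_f80667_ag.Dq.LocB2
import Pool.Agent.Lib.MP_f80667_ag.Dp.GoodV
import Pool.Agent.Lib.MP_f80667_ag.Dq.DgB

/-! Local fields with smooth reduction. -/

open scoped LinearAlgebra.Projectivization

namespace Dq

open ZC Tq Dp

open IsLocalRing Pool.Agent.Lib.MP_f80667_ag in
/-- **All points have the same class.** The template is `Dp.tg_local`: for `L / k` finite
`R = LF.O k L`, `g : O →+* R`; `SmR.map`, `SepR.map` along `O → R → ResidueField R`; the residue field
of `R` has at least as many elements as the one of `LF.O k k` (`LF.q_le`); `pp_dvr`. -/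
theorem pp_local (k : Type) [NontriviallyNormedField k] [IsUltrametricDist k] [ProperSpace k]
    [CharZero k] (hq : 1000 ≤ Pool.Agent.Lib.MP_f80667_ag.LF.q k k)
    {A₀ B₀ : Matrix (Fin 5) (Fin 5) k} (hs : Sm (AlgebraicClosure k) A₀ B₀) {O : Type}
    [CommRing O] [Algebra O k] (hO : ∀ x : O, ‖algebraMap O k x‖ ≤ 1) (h2 : IsUnit (2 : O))
    {A' B' : Matrix (Fin 5) (Fin 5) O} (hA : A'.map (algebraMap O k) = A₀)
    (hB : B'.map (algebraMap O k) = B₀) (hS : SmR A' B') (hS' : SepR A' B') (L : Type) [Field L]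
    [Algebra k L] [FiniteDimensional k L] {P T : Fin 5 → L} (hP : P ≠ 0) (hT : T ≠ 0)
    (zP : Zer (Pl A₀ B₀) L P) (zT : Zer (Pl A₀ B₀) L T) :
    trPt k (AlgebraicClosure k) (Projectivization.mk L P hP) -
      trPt k (AlgebraicClosure k) (Projectivization.mk L T hT) ∈
        ratEq (AlgebraicClosure k) (Pl A₀ B₀) := by
  have hmem : ∀ x : O, algebraMap k L (algebraMap O k x) ∈ LF.O k L := by
    intro x
    rw [LF.mem_O, spectralNorm_extends]
    exact hO x
  let g : O →+* LF.O k L := ((algebraMap k L).comp (algebraMap O k)).codRestrict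
    (LF.O k L).toSubring hmem
  have hg : ∀ x : O, algebraMap (LF.O k L) L (g x) = algebraMap k L (algebraMap O k x) :=
    fun _ => rfl
  have e : ∀ H : Matrix (Fin 5) (Fin 5) O, (H.map g).map (algebraMap (LF.O k L) L) =
      (H.map (algebraMap O k)).map (algebraMap k L) := by
    intro H
    ext i j
    exact hg (H i j)
  have hS2 : SmR ((A'.map g).map (residue (LF.O k L))) ((B'.map g).map (residue (LF.O k L))) :=
    (hS.map g).map (residue (LF.O k L))
  have h2' : (2 : ResidueField (LF.O k L)) ≠ 0 := by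
    have h1 := h2.map ((residue (LF.O k L)).comp g)
    rw [map_ofNat] at h1
    exact h1.ne_zero
  have hq' : 1000 ≤ Nat.card (ResidueField (LF.O k L)) :=
    le_trans hq (LF.q_le k (Algebra.ofId k L))
  exact pp_dvr (k := k) (Ω := AlgebraicClosure k) (R := LF.O k L) (L := L) (A := A'.map g)
    (B := B'.map g) hs (by rw [e, hA]) (by rw [e, hB])
    (fun x hx ha hb a b hy => hS2.sm x hx ha hb a b hy) h2' hq'
    ((hS'.map g).map (residue (LF.O k L))) hP hT zP zT

open IsLocalRing Pool.Agent.Lib.MP_f80667_ag in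
/-- Proof: `exists_pt_dvr` for `R = LF.O k k`. -/
theorem exists_pt_local (k : Type) [NontriviallyNormedField k] [IsUltrametricDist k] [ProperSpace k]
    {A₀ B₀ : Matrix (Fin 5) (Fin 5) k} {O : Type}
    [CommRing O] [Algebra O k] (hO : ∀ x : O, ‖algebraMap O k x‖ ≤ 1)
    {A' B' : Matrix (Fin 5) (Fin 5) O} (hA : A'.map (algebraMap O k) = A₀)
    (hB : B'.map (algebraMap O k) = B₀) (hS : SmR A' B') :
    ∃ P : Fin 5 → k, P ≠ 0 ∧ Zer (Pl A₀ B₀) k P := by
  have hmem : ∀ x : O, algebraMap k k (algebraMap O k x) ∈ LF.O k k := by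
    intro x
    rw [LF.mem_O, spectralNorm_extends]
    exact hO x
  let g : O →+* LF.O k k := ((algebraMap k k).comp (algebraMap O k)).codRestrict
    (LF.O k k).toSubring hmem
  have hg : ∀ x : O, algebraMap (LF.O k k) k (g x) = algebraMap k k (algebraMap O k x) :=
    fun _ => rfl
  have e : ∀ H : Matrix (Fin 5) (Fin 5) O, (H.map g).map (algebraMap (LF.O k k) k) =
      (H.map (algebraMap O k)).map (algebraMap k k) := by
    intro H
    ext i j
    exact hg (H i j)
  have hS2 : SmR ((A'.map g).map (residue (LF.O k k))) ((B'.map g).map (residue (LF.O k k))) :=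
    (hS.map g).map (residue (LF.O k k))
  exact exists_pt_dvr (k := k) (R := LF.O k k) (L := k) (A := A'.map g)
    (B := B'.map g) (by rw [e, hA]) (by rw [e, hB])
    (fun x hx ha hb a b hy => hS2.sm x hx ha hb a b hy)

end Dq
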