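import Pool.Agent.Lib.MP_f80667_ag.Dq.Genr

/-! `F^1` is zero if all points have the same class. -/

open scoped LinearAlgebra.Projectivization

namespace Dq

open ZC Tq Dp

/-- The equations are homogeneous. -/
private theorem locC0_hom {k : Type} [Field k] {n : ℕ} {A B : Matrix (Fin n) (Fin n) k} :
    ∀ i, (Pl A B i).IsHomogeneous 2 := by
  have hm : ∀ H : Matrix (Fin n) (Fin n) k, (ml H).IsHomogeneous 2 := by
    intro H
    refine MvPolynomial.IsHomogeneous.sum _ _ _ fun i _ =>
      MvPolynomial.IsHomogeneous.sum _ _ _ fun j _ => ?_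
    have h1 := ((MvPolynomial.isHomogeneous_C (Fin n) (H i j)).mul
      ((MvPolynomial.isHomogeneous_X k i).mul (MvPolynomial.isHomogeneous_X k j)))
    simpa using h1
  intro i
  fin_cases i
  · exact hm A
  · exact hm B

/-- **`F^1` is zero if all points have the same class.** Proof: `z` is a combination of traces of points
(`mem_closure_tr`, as in `generation`); `P₀` over `M`: `trPt P₀ = [M : k] • trPt P₀` (`trPt_tower`, as
`trPt_ext`), so `z` is equivalent to `deg z • trPt P₀ = 0`. -/
theorem f1_of_pp {k : Type} [Field k] [CharZero k] {Ω : Type} [Field Ω] [Algebra k Ω]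
    [IsAlgClosure k Ω] {A B : Matrix (Fin 5) (Fin 5) k} {P₀ : Fin 5 → k} (hP₀ : P₀ ≠ 0)
    (zP₀ : Zer (Pl A B) k P₀)
    (h : ∀ (L : Type) [Field L] [Algebra k L] [FiniteDimensional k L] (P T : Fin 5 → L)
      (hP : P ≠ 0) (hT : T ≠ 0), Zer (Pl A B) L P → Zer (Pl A B) L T →
        trPt k Ω (Projectivization.mk L P hP) - trPt k Ω (Projectivization.mk L T hT) ∈
          ratEq Ω (Pl A B)) :
    ∀ z ∈ cyc0 Ω (Pl A B), z ∈ ratEq Ω (Pl A B) := by
  have hcl : IsAlgClosed Ω := IsAlgClosure.isAlgClosed k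
  have key : ∀ w ∈ cyc Ω (Pl A B),
      w - deg Ω w • trPt k Ω (Projectivization.mk k P₀ hP₀) ∈ ratEq Ω (Pl A B) := by
    intro w hw
    refine AddSubgroup.closure_induction (p := fun w _ =>
      w - deg Ω w • trPt k Ω (Projectivization.mk k P₀ hP₀) ∈ ratEq Ω (Pl A B))
      ?_ ?_ ?_ ?_ (mem_closure_tr locC0_hom w hw)
    · rintro t ⟨M, hM, y, hy, rfl⟩
      have hne : (fun i => algebraMap k M (P₀ i)) ≠ 0 := comp_ne (algebraMap k M) hP₀
      have hz : Zer (Pl A B) M (fun i => algebraMap k M (P₀ i)) :=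
        (zer_comp (IsScalarTower.toAlgHom k k M) P₀).2 zP₀
      have h1 := h M y.rep _ y.rep_nonzero hne hy hz
      rw [Projectivization.mk_rep, ← mapPt_mk (algebraMap k M) P₀ hP₀, trPt_tower,
        ← natCast_zsmul] at h1
      rw [deg_trPt]
      exact h1
    · rw [map_zero, zero_smul, sub_zero]
      exact zero_mem _
    · intro a b _ _ h1 h2
      have h3 := add_mem h1 h2
      rw [map_add, add_smul]
      convert h3 using 1
      abel
    · intro a _ h1
      have h3 := neg_mem h1
      rw [map_neg, neg_smul]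
      convert h3 using 1
      abel
  intro z hz
  obtain ⟨hzc, hz0⟩ := AddSubgroup.mem_inf.1 hz
  rw [AddMonoidHom.mem_ker] at hz0
  have h1 := key z hzc
  rwa [hz0, zero_smul, sub_zero] at h1

end Dq
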