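import Pool.Agent.Lib.MP_f80667_ag.Dq.SepG
import Pool.Agent.Lib.MP_f80667_ag.Dq.LocC
import Pool.Agent.Lib.MP_f80667_ag.Dq.LocC0

/-! The places of good reduction. -/

open IsDedekindDomain NumberField

namespace Dq

open ZC Tq Dp

open IsLocalRing in
/-- the residue field of `F` embeds in the one of the completion -/
theorem card_residue_ge (F : Type) [Field F] [NumberField F] (v : HeightOneSpectrum (𝓞 F)) :
    Ideal.absNorm v.asIdeal ≤ Nat.card (ResidueField (v.adicCompletionIntegers F)) := by
  have hmax : v.asIdeal.IsMaximal := v.isMaximal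
  let φ : 𝓞 F →+* ResidueField (v.adicCompletionIntegers F) :=
    (residue _).comp (algebraMap (𝓞 F) (v.adicCompletionIntegers F))
  have hφ : ∀ a ∈ v.asIdeal, φ a = 0 := by
    intro a ha
    change residue _ (algebraMap (𝓞 F) (v.adicCompletionIntegers F) a) = 0
    rw [residue_eq_zero_iff, Pool.Agent.Lib.MP_f80667_ag.LF.mem_max_iff]
    have h1 : Valued.v (((algebraMap (𝓞 F) (v.adicCompletionIntegers F) a :
        v.adicCompletionIntegers F)) : v.adicCompletion F) = v.valuation F (algebraMap (𝓞 F) F a) :=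
      HeightOneSpectrum.valuedAdicCompletion_eq_valuation' v (algebraMap (𝓞 F) F a)
    rw [h1]
    exact (v.valuation_lt_one_iff_mem a).2 ha
  let ψ : 𝓞 F ⧸ v.asIdeal →+* ResidueField (v.adicCompletionIntegers F) :=
    Ideal.Quotient.lift v.asIdeal φ hφ
  have h1 : Function.Injective ψ := by
    let i1 : Field (𝓞 F ⧸ v.asIdeal) := Ideal.Quotient.field v.asIdeal
    exact ψ.injective
  have h2 : Ideal.absNorm v.asIdeal = Nat.card (𝓞 F ⧸ v.asIdeal) := by
    rw [Ideal.absNorm_apply, Submodule.cardQuot_apply]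
  rw [h2]
  exact Nat.card_le_card_of_injective ψ h1

/-- The residue fields are large at almost all places. Proof: `𝓞 F` maps to the ring of integers and
the kernel of the map to the residue field is a prime ideal which contains `v.asIdeal`, so it is
`v.asIdeal`; hence the residue field has at least `Ideal.absNorm v.asIdeal` elements
(`Ideal.finite_setOf_absNorm_le`; `finite_residueField` in `LF/Adic.lean`). -/
theorem card_residue (F : Type) [Field F] [NumberField F] (C : ℕ) :
    ∃ S : Finset (HeightOneSpectrum (𝓞 F)), ∀ v ∉ S,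
      C ≤ Nat.card (IsLocalRing.ResidueField (v.adicCompletionIntegers F)) := by
  have h1 : {v : HeightOneSpectrum (𝓞 F) | Ideal.absNorm v.asIdeal ≤ C}.Finite := by
    refine Set.Finite.of_finite_image (f := fun v => v.asIdeal)
      ((Ideal.finite_setOfPred_absNorm_le (S := 𝓞 F) C).subset ?_) ?_
    · rintro I ⟨v, hv, rfl⟩
      exact hv
    · intro v _ w _ h
      exact HeightOneSpectrum.ext h
  refine ⟨h1.toFinset, fun v hv => ?_⟩
  rw [Set.Finite.mem_toFinset, Set.mem_ofPred_eq, not_le] at hv
  exact hv.le.trans (card_residue_ge F v)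

open IsLocalRing Pool.Agent.Lib.MP_f80667_ag in
/-- comparison of the residue fields -/
theorem card_le_q (k : Type) [NontriviallyNormedField k] [IsUltrametricDist k] [ProperSpace k]
    {O : Type} [CommRing O] [IsLocalRing O] [Algebra O k] (hO : ∀ x : O, ‖algebraMap O k x‖ ≤ 1)
    (hO' : ∀ x ∈ maximalIdeal O, ‖algebraMap O k x‖ < 1) :
    Nat.card (ResidueField O) ≤ LF.q k k := by
  have hmem : ∀ x : O, algebraMap O k x ∈ LF.O k k := by
    intro x
    rw [LF.mem_O]
    have h1 := spectralNorm_extends (K := k) (L := k) (algebraMap O k x)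
    rw [Algebra.algebraMap_self_apply] at h1
    rw [h1]
    exact hO x
  let g : O →+* LF.O k k := (algebraMap O k).codRestrict (LF.O k k).toSubring hmem
  have hg : IsLocalHom g := by
    refine ⟨fun x hx => ?_⟩
    by_contra hcon
    have h1 := hO' x ((mem_maximalIdeal x).2 hcon)
    rw [LF.isUnit_iff] at hx
    have h2 := spectralNorm_extends (K := k) (L := k) (algebraMap O k x)
    rw [Algebra.algebraMap_self_apply] at h2
    have h3 : ((g x : LF.O k k) : k) = algebraMap O k x := rfl
    rw [h3, h2] at hx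
    exact absurd hx h1.ne
  exact Nat.card_le_card_of_injective _ (ResidueField.map g).injective

open IsLocalRing Pool.Agent.Lib.MP_f80667_ag in
/-- a local field with good reduction -/
theorem s5_local (k : Type) [NontriviallyNormedField k] [IsUltrametricDist k] [ProperSpace k]
    [CharZero k] {O : Type} [CommRing O] [IsLocalRing O] [Algebra O k]
    (hO : ∀ x : O, ‖algebraMap O k x‖ ≤ 1)
    (hO' : ∀ x ∈ maximalIdeal O, ‖algebraMap O k x‖ < 1)
    (hq : 1000 ≤ Nat.card (ResidueField O)) {A₀ B₀ : Matrix (Fin 5) (Fin 5) k}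
    (hs : Sm (AlgebraicClosure k) A₀ B₀) (h2 : IsUnit (2 : O))
    {A' B' : Matrix (Fin 5) (Fin 5) O} (hA : A'.map (algebraMap O k) = A₀)
    (hB : B'.map (algebraMap O k) = B₀) (hS : SmR A' B') (hS' : SepR A' B') :
    (∃ P : Fin 5 → k, P ≠ 0 ∧ Zer (Pl A₀ B₀) k P) ∧
      ∀ z ∈ cyc0 (AlgebraicClosure k) (Pl A₀ B₀), z ∈ ratEq (AlgebraicClosure k) (Pl A₀ B₀) := by
  obtain ⟨P, hP, zP⟩ := exists_pt_local k hO hA hB hS
  refine ⟨⟨P, hP, zP⟩, ?_⟩
  refine f1_of_pp hP zP ?_
  intro L _ _ _ P T hP hT zP zT
  exact pp_local k (hq.trans (card_le_q k hO hO')) hs hO h2 hA hB hS hS' L hP hT zP zT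

open scoped Valued in
/-- **`F^1` is zero at the places of good reduction.** Proof: `exists_good5`, `card_residue`, the places
where `2` is a unit; `pp_local`, `exists_pt_local`, `f1_of_pp` for `k = v.adicCompletion F` with the norm
instances as in `Dp.exists_S`, `O = v.adicCompletionIntegers F`; the ring of integers of the norm
`LF.O k k` and `v.adicCompletionIntegers F` are the same subring of `k`, so the residue fields are
isomorphic (or compare with `𝓞 F` directly). Smoothness over the completion: `Ts.sm_ext`. -/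
theorem exists_S5 (F : Type) [Field F] [NumberField F] {A B : Matrix (Fin 5) (Fin 5) F}
    (hs : Sm (AlgebraicClosure F) A B) (hB : ND A B (0 : F) 1) :
    ∃ S : Finset (HeightOneSpectrum (𝓞 F)), ∀ v ∉ S,
      (∃ P : Fin 5 → FK F v, P ≠ 0 ∧ Zer (Pl (A.map (algebraMap F (FK F v)))
        (B.map (algebraMap F (FK F v)))) (FK F v) P) ∧
      Subsingleton (G1 (FK F v) (hE (FK F v) (Pl A B))) := by
  classical
  obtain ⟨S₁, hS₁⟩ := exists_good5 F hs hB
  obtain ⟨S₂, hS₂⟩ := card_residue F 1000
  have h20 : (2 : F) ≠ 0 := by norm_num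
  refine ⟨S₁ ∪ S₂ ∪ (Hm.finite_val_ne_one (Units.mk0 (2 : F) h20)).toFinset, fun v hv => ?_⟩
  rw [Finset.mem_union, not_or, Finset.mem_union, not_or] at hv
  obtain ⟨⟨hv1, hv2⟩, hv3⟩ := hv
  obtain ⟨A', B', hA, hB', hSm, hSep⟩ := hS₁ v hv1
  have hq := hS₂ v hv2
  have hval : v.valuation F (2 : F) = 1 := by
    by_contra hcon
    exact hv3 ((Set.Finite.mem_toFinset _).2 hcon)
  have hu : IsUnit (2 : v.adicCompletionIntegers F) := by
    rw [HeightOneSpectrum.adicCompletionIntegers.isUnit_iff_valued_eq_one]
    have h2 := HeightOneSpectrum.valuedAdicCompletion_eq_valuation' v (2 : F)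
    rw [hval] at h2
    rw [← h2]
    exact congrArg _ (map_ofNat (algebraMap F (v.adicCompletion F)) 2).symm
  have hc : CharZero (v.adicCompletion F) :=
    charZero_of_injective_algebraMap (algebraMap F (v.adicCompletion F)).injective
  have hsm : Sm (AlgebraicClosure (v.adicCompletion F)) (A.map (algebraMap F (v.adicCompletion F)))
      (B.map (algebraMap F (v.adicCompletion F))) := by
    intro x hx hA hB a b h
    exact ((smR_of (E := AlgebraicClosure F) hs).map (algebraMap F (v.adicCompletion F))).sm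
      x hx hA hB a b h
  have hf : Finite ((𝓞 F) ⧸ v.asIdeal) := Pool.Agent.Lib.MP_f80667_ag.LF.finite_quot F v
  let i1 : NontriviallyNormedField (v.adicCompletion F) :=
    Valued.toNontriviallyNormedField (v.adicCompletion F) (WithZero (Multiplicative ℤ))
  have h1 : @ProperSpace (v.adicCompletion F) i1.toNormedField.toMetricSpace.toPseudoMetricSpace := by
    refine Valued.integer.properSpace_iff_completeSpace_and_isDiscreteValuationRing_integer_and_finite_residueField.mpr ?_
    exact ⟨inferInstance, (inferInstance : IsDiscreteValuationRing (v.adicCompletionIntegers F)),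
      Pool.Agent.Lib.MP_f80667_ag.LF.finite_residueField F v⟩
  have hO : ∀ x : v.adicCompletionIntegers F,
      ‖algebraMap (v.adicCompletionIntegers F) (v.adicCompletion F) x‖ ≤ 1 := by
    intro x
    rw [Valued.toNormedField.norm_le_one_iff]
    exact x.2
  have hO' : ∀ x ∈ IsLocalRing.maximalIdeal (v.adicCompletionIntegers F),
      ‖algebraMap (v.adicCompletionIntegers F) (v.adicCompletion F) x‖ < 1 := by
    intro x hx
    rw [Valued.toNormedField.norm_lt_one_iff]
    exact (Pool.Agent.Lib.MP_f80667_ag.LF.mem_max_iff F v).1 hx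
  have key := @s5_local (v.adicCompletion F) i1 _ h1 hc (v.adicCompletionIntegers F) _ _ _ hO hO' hq
    _ _ hsm hu A' B' hA hB' hSm hSep
  refine ⟨key.1, ?_⟩
  have h1 : ∀ z ∈ cyc0 (AlgebraicClosure (FK F v)) (hE (FK F v) (Pl A B)),
      z ∈ ratEq (AlgebraicClosure (FK F v)) (hE (FK F v) (Pl A B)) := by
    rw [Ts.hE_Pl]
    exact key.2
  refine ⟨fun x y => ?_⟩
  induction x using QuotientAddGroup.induction_on with
  | H x =>
    induction y using QuotientAddGroup.induction_on with
    | H y =>
      refine QuotientAddGroup.eq.2 ?_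
      rw [AddSubgroup.mem_addSubgroupOf]
      exact h1 _ (-x + y).2

end Dq
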