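import Pool.Agent.Lib.MP_f80667_ag.Hm.NI
import Pool.Agent.Lib.MP_f80667_ag.Hm.Res
import Pool.Agent.Lib.MP_f80667_ag.LF.Adic
import Pool.Agent.Lib.MP_f80667_ag.Dr.Loc3

/-!
The place of a number field `K` defined by an embedding of `K` in a completion `M_w`, and local norms at
places where everything is a unit.
-/

open IsDedekindDomain NumberField
open scoped WithZero

namespace Dq

section embed

variable {M K : Type} [Field M] [NumberField M] [Field K] [NumberField K]

/-- Integers of `K` are integral in `M_w`. -/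
theorem und_int (w : HeightOneSpectrum (𝓞 M)) (ι : K →+* w.adicCompletion M) (x : 𝓞 K) :
    Valued.v (ι (algebraMap (𝓞 K) K x)) ≤ 1 := by
  obtain ⟨p, hp, h0⟩ := RingOfIntegers.isIntegral_coe x
  have h3 : IsIntegral (w.adicCompletionIntegers M) (ι (algebraMap (𝓞 K) K x)) := by
    refine ⟨p.map (Int.castRingHom _), hp.map _, ?_⟩
    rw [Polynomial.eval₂_map]
    have e : (algebraMap (w.adicCompletionIntegers M) (w.adicCompletion M)).comp
        (Int.castRingHom _) = ι.comp (algebraMap ℤ K) := RingHom.ext_int _ _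
    rw [e, ← Polynomial.hom_eval₂]
    rw [h0, map_zero]
  obtain ⟨y, hy⟩ := IsIntegrallyClosed.isIntegral_iff.1 h3
  have h4 := y.2
  rw [HeightOneSpectrum.mem_adicCompletionIntegers] at h4
  rw [← hy]
  exact h4

/-- Proof: the elements `x` with `ι x` integral form a valuation subring of `K`, which contains `𝓞 K`
(integral elements) and is not `K` (a prime number in the maximal ideal of `w` is not a unit there); its
maximal ideal meets `𝓞 K` in a nonzero prime ideal `u`, and the valuation ring of `u` is a maximal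
proper subring (or: both are valuation subrings dominating the localization at `u`). -/
theorem exists_und (w : HeightOneSpectrum (𝓞 M)) (ι : K →+* w.adicCompletion M) :
    ∃ u : HeightOneSpectrum (𝓞 K), ∀ x : K, u.valuation K x ≤ 1 ↔ Valued.v (ι x) ≤ 1 := by
  have hval : ∀ z : M, Valued.v (algebraMap M (w.adicCompletion M) z) = w.valuation M z :=
    fun z => w.valuedAdicCompletion_eq_valuation' z
  let P : Ideal (𝓞 K) :=
    { carrier := {x | Valued.v (ι (algebraMap (𝓞 K) K x)) < 1}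
      add_mem' := by
        intro a b ha hb
        change Valued.v (ι (algebraMap (𝓞 K) K (a + b))) < 1
        rw [map_add, map_add]
        exact lt_of_le_of_lt (Valuation.map_add _ _ _) (max_lt ha hb)
      zero_mem' := by
        change Valued.v (ι (algebraMap (𝓞 K) K 0)) < 1
        rw [map_zero, map_zero, map_zero]
        exact zero_lt_one
      smul_mem' := by
        intro c a ha
        change Valued.v (ι (algebraMap (𝓞 K) K (c * a))) < 1
        rw [map_mul, map_mul, map_mul]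
        exact mul_lt_one_of_nonneg_of_lt_one_right (und_int w ι c) zero_le ha }
  have hP : ∀ x : 𝓞 K, x ∈ P ↔ Valued.v (ι (algebraMap (𝓞 K) K x)) < 1 := fun x => Iff.rfl
  have hprime : P.IsPrime := by
    refine ⟨?_, ?_⟩
    · rw [Ne, Ideal.eq_top_iff_one, hP, map_one, map_one, map_one]
      exact lt_irrefl _
    · intro x y hxy
      rw [hP, map_mul, map_mul, map_mul] at hxy
      by_contra hcon
      rw [not_or, hP, hP, not_lt, not_lt] at hcon
      have h1 := le_antisymm (und_int w ι x) hcon.1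
      have h2 := le_antisymm (und_int w ι y) hcon.2
      rw [h1, h2, one_mul] at hxy
      exact lt_irrefl _ hxy
  have hbot : P ≠ ⊥ := by
    obtain ⟨m, hm, hm0⟩ : ∃ m : ℤ, algebraMap ℤ (𝓞 M) m ∈ w.asIdeal ∧ m ≠ 0 := by
      obtain ⟨m, hm, hm0⟩ := (Submodule.ne_bot_iff _).1
        (Ideal.IsIntegral.comap_ne_bot (R := ℤ) (A := 𝓞 M) w.ne_bot)
      exact ⟨m, hm, hm0⟩
    intro h
    have h1 : algebraMap ℤ (𝓞 K) m ∈ P := by
      rw [hP]
      have e : ι (algebraMap (𝓞 K) K (algebraMap ℤ (𝓞 K) m)) =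
          algebraMap M (w.adicCompletion M) (algebraMap (𝓞 M) M (algebraMap ℤ (𝓞 M) m)) := by
        simp
      rw [e, hval]
      exact (w.valuation_lt_one_iff_mem _).2 hm
    rw [h, Ideal.mem_bot] at h1
    rw [eq_intCast, Int.cast_eq_zero] at h1
    exact hm0 h1
  let u : HeightOneSpectrum (𝓞 K) := ⟨P, hprime, hbot⟩
  have key : ∀ x : K, u.valuation K x ≤ 1 → ∃ n d : 𝓞 K, d ∉ P ∧
      x * algebraMap (𝓞 K) K d = algebraMap (𝓞 K) K n := by
    intro x hx
    obtain ⟨n, d, hnd⟩ := u.exists_primeCompl_mul_eq_of_integer x hx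
    exact ⟨n, d, d.2, hnd⟩
  have hd1 : ∀ d : 𝓞 K, d ∉ P → Valued.v (ι (algebraMap (𝓞 K) K d)) = 1 := by
    intro d hd
    rw [hP, not_lt] at hd
    exact le_antisymm (und_int w ι d) hd
  have hle : ∀ x : K, u.valuation K x ≤ 1 → Valued.v (ι x) ≤ 1 := by
    intro x hx
    obtain ⟨n, d, hd, h⟩ := key x hx
    have h2 := congrArg (fun t => Valued.v (ι t)) h
    simp only [map_mul, hd1 d hd, mul_one] at h2
    rw [h2]
    exact und_int w ι n
  have hlt : ∀ x : K, u.valuation K x < 1 → Valued.v (ι x) < 1 := by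
    intro x hx
    obtain ⟨n, d, hd, h⟩ := key x hx.le
    have h2 := congrArg (fun t => Valued.v (ι t)) h
    simp only [map_mul, hd1 d hd, mul_one] at h2
    rw [h2]
    have h3 := congrArg (u.valuation K) h
    rw [map_mul, u.valuation_eq_one_iff_notMem.2 hd, mul_one] at h3
    rw [h3] at hx
    exact (u.valuation_lt_one_iff_mem n).1 hx
  refine ⟨u, fun x => ⟨hle x, fun h => ?_⟩⟩
  by_contra hcon
  rw [not_le] at hcon
  have hx0 : x ≠ 0 := by
    rintro rfl
    rw [map_zero] at hcon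
    exact absurd hcon (not_lt.2 zero_le)
  have h1 := hlt x⁻¹ (by
    rw [map_inv₀]
    exact inv_lt_one_of_one_lt₀ hcon)
  rw [map_inv₀, map_inv₀] at h1
  have h2 : 0 < Valued.v (ι x) := by
    rw [zero_lt_iff, Ne, map_eq_zero, map_eq_zero]
    exact hx0
  rw [inv_lt_one₀ h2] at h1
  exact absurd h (not_le.2 h1)

/-- Proof: inverses. -/
theorem und_lt {w : HeightOneSpectrum (𝓞 M)} {ι : K →+* w.adicCompletion M}
    {u : HeightOneSpectrum (𝓞 K)} (h : ∀ x : K, u.valuation K x ≤ 1 ↔ Valued.v (ι x) ≤ 1) (x : K) :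
    u.valuation K x < 1 ↔ Valued.v (ι x) < 1 := by
  by_cases hx0 : x = 0
  · rw [hx0, map_zero, map_zero, map_zero]
  have h1 : 0 < u.valuation K x := by
    rw [zero_lt_iff, Ne, map_eq_zero]
    exact hx0
  have h2 : 0 < Valued.v (ι x) := by
    rw [zero_lt_iff, Ne, map_eq_zero, map_eq_zero]
    exact hx0
  have h3 := h x⁻¹
  rw [map_inv₀, map_inv₀, map_inv₀, inv_le_one₀ h1, inv_le_one₀ h2] at h3
  rw [← not_le, h3, not_le]

/-- The places of the base field are the same. Proof: both places of `F` have the valuation ring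
`{x | Valued.v (ι x) ≤ 1}`. -/
theorem und_under {F : Type} [Field F] [NumberField F] [Algebra F M] [Algebra F K]
    {w : HeightOneSpectrum (𝓞 M)} {ι : K →+* w.adicCompletion M}
    {u : HeightOneSpectrum (𝓞 K)} (h : ∀ x : K, u.valuation K x ≤ 1 ↔ Valued.v (ι x) ≤ 1)
    (hF : ∀ x : F, ι (algebraMap F K x) =
      algebraMap M (w.adicCompletion M) (algebraMap F M x)) :
    u.under (𝓞 F) = w.under (𝓞 F) := by
  have hval : ∀ z : M, Valued.v (algebraMap M (w.adicCompletion M) z) = w.valuation M z :=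
    fun z => w.valuedAdicCompletion_eq_valuation' z
  apply HeightOneSpectrum.ext
  ext x
  have h1 : x ∈ (u.under (𝓞 F)).asIdeal ↔ algebraMap (𝓞 F) (𝓞 K) x ∈ u.asIdeal := Iff.rfl
  have h2 : x ∈ (w.under (𝓞 F)).asIdeal ↔ algebraMap (𝓞 F) (𝓞 M) x ∈ w.asIdeal := Iff.rfl
  rw [h1, h2, ← u.valuation_lt_one_iff_mem (K := K), ← w.valuation_lt_one_iff_mem (K := M),
    und_lt h]
  change Valued.v (ι (algebraMap (𝓞 K) K (algebraMap (𝓞 F) (𝓞 K) x))) < 1 ↔
    w.valuation M (algebraMap (𝓞 M) M (algebraMap (𝓞 F) (𝓞 M) x)) < 1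
  have e1 : algebraMap (𝓞 K) K (algebraMap (𝓞 F) (𝓞 K) x) = algebraMap F K (x : F) := rfl
  have e2 : algebraMap (𝓞 M) M (algebraMap (𝓞 F) (𝓞 M) x) = algebraMap F M (x : F) := rfl
  rw [e1, e2, hF, hval]

end embed

section norms

variable {K : Type} [Field K] [NumberField K] {u : HeightOneSpectrum (𝓞 K)}

/-- A unit is a local square iff it is a square modulo `u` (`u` not dyadic). -/
theorem mem_LSq_iff (h2 : u.valuation K 2 = 1) {x : Kˣ} (hx : u.valuation K (x : K) = 1) :
    x ∈ Hm.LSq u ↔ ∃ y : K, u.valuation K ((x : K) - y ^ 2) < 1 := by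
  rw [Hm.mem_LSq, Hm.val4_eq_one h2]
  constructor
  · rintro ⟨y, hy⟩
    refine ⟨(y : K)⁻¹, ?_⟩
    have h1 : u.valuation K ((y : K) ^ 2) = 1 := by
      have e : (x : K) * (y : K) ^ 2 = 1 + ((x : K) * (y : K) ^ 2 - 1) := by ring
      have h3 := Valuation.map_add_eq_of_lt_left (u.valuation K) (x := (1 : K))
        (y := (x : K) * (y : K) ^ 2 - 1) (by rw [map_one]; exact hy)
      rw [← e, map_mul, hx, one_mul, map_one] at h3
      exact h3
    have e : (x : K) - (y : K)⁻¹ ^ 2 = ((x : K) * (y : K) ^ 2 - 1) / (y : K) ^ 2 := by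
      have := y.ne_zero
      field_simp
    rw [e, map_div₀, h1, div_one]
    exact hy
  · rintro ⟨y, hy⟩
    have h1 : u.valuation K (y ^ 2) = 1 := by
      have h3 := Valuation.map_sub_eq_of_lt_left (u.valuation K) (x := (x : K))
        (y := (x : K) - y ^ 2) (by rw [hx]; exact hy)
      rw [sub_sub_cancel, hx] at h3
      exact h3
    have hy0 : y ≠ 0 := by
      rintro rfl
      rw [zero_pow two_ne_zero, map_zero] at h1
      exact zero_ne_one h1
    refine ⟨(Units.mk0 y hy0)⁻¹, ?_⟩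
    have e : (x : K) * (((Units.mk0 y hy0)⁻¹ : Kˣ) : K) ^ 2 - 1 = ((x : K) - y ^ 2) / y ^ 2 := by
      rw [Units.val_inv_eq_inv_val, Units.val_mk0]
      field_simp
    rw [e, map_div₀, h1, div_one]
    exact hy

/-- Local norms for a nonsquare unit have even valuation. Proof: `Hm.mem_LNm`: `x s = a ^ 2 - δ b ^ 2`; the
valuation of `a ^ 2 - δ b ^ 2` is the maximum of those of `a ^ 2` and `b ^ 2`, since `δ` is not a
square modulo `u` (`mem_LSq_iff`); local squares have even valuation. -/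
theorem even_of_LNm (h2 : u.valuation K 2 = 1) {δ x : Kˣ} (hδ : u.valuation K (δ : K) = 1)
    (hn : δ ∉ Hm.LSq u) (hx : x ∈ Hm.LNm u δ) : ∃ m : ℤ,
      u.valuation K (x : K) = WithZero.exp m ^ 2 := by
  obtain ⟨n, hn'⟩ := Hm.exists_exp u x
  rcases Int.even_or_odd n with he | ho
  · obtain ⟨m, rfl⟩ := he
    refine ⟨m, ?_⟩
    rw [hn', WithZero.exp_add, pow_two]
  · exact absurd hx (Dr.odd_notMem_LNm h2 hδ hn ho hn')

/-- A unit is a local norm for a unit. Proof: `a ^ 2 - δ b ^ 2` takes all nonzero values over the residue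
field (`Dp.binary_value`); `Hm` files. -/
theorem unit_mem_LNm (h2 : u.valuation K 2 = 1) {δ x : Kˣ} (hδ : u.valuation K (δ : K) = 1)
    (hx : u.valuation K (x : K) = 1) : x ∈ Hm.LNm u δ :=
  Dr.unit_mem_LNm h2 hδ hx

/-- A unit which is not a square modulo `u`. -/
theorem exists_nonsq (h2 : u.valuation K 2 = 1) : ∃ n : K, u.valuation K n = 1 ∧
    ∀ y : K, ¬ u.valuation K (n - y ^ 2) < 1 := by
  classical
  have hm : u.asIdeal.IsMaximal := u.isMaximal
  let _ : Field (𝓞 K ⧸ u.asIdeal) := Ideal.Quotient.field u.asIdeal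
  have : Finite (𝓞 K ⧸ u.asIdeal) := Ideal.finiteQuotientOfFreeOfNeBot u.asIdeal u.ne_bot
  let _ : Fintype (𝓞 K ⧸ u.asIdeal) := Fintype.ofFinite _
  have hc : ringChar (𝓞 K ⧸ u.asIdeal) ≠ 2 := by
    intro h
    have h3 : ((2 : ℕ) : 𝓞 K ⧸ u.asIdeal) = 0 := by
      rw [← h]
      exact ringChar.Nat.cast_ringChar
    have h4 : Ideal.Quotient.mk u.asIdeal (2 : 𝓞 K) = 0 := by
      rw [map_ofNat]
      exact_mod_cast h3
    rw [Ideal.Quotient.eq_zero_iff_mem, ← u.valuation_lt_one_iff_mem (K := K)] at h4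
    have h5 : u.valuation K (algebraMap (𝓞 K) K 2) < 1 := h4
    rw [map_ofNat, h2] at h5
    exact lt_irrefl _ h5
  obtain ⟨q, hq⟩ := FiniteField.exists_nonsquare hc
  obtain ⟨n, rfl⟩ := Ideal.Quotient.mk_surjective q
  have hn : u.valuation K (algebraMap (𝓞 K) K n) = 1 := by
    rw [u.valuation_eq_one_iff_notMem]
    intro h
    rw [← Ideal.Quotient.eq_zero_iff_mem] at h
    exact hq (h ▸ IsSquare.zero)
  refine ⟨algebraMap (𝓞 K) K n, hn, fun y hy => ?_⟩
  have hy1 : u.valuation K (y ^ 2) = 1 := by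
    have h3 := Valuation.map_sub_eq_of_lt_left (u.valuation K) (x := algebraMap (𝓞 K) K n)
      (y := algebraMap (𝓞 K) K n - y ^ 2) (by rw [hn]; exact hy)
    rw [sub_sub_cancel, hn] at h3
    exact h3
  have hy2 : u.valuation K y = 1 := by
    rw [map_pow] at hy1
    exact Hm.pow_eq_one' two_ne_zero hy1
  obtain ⟨a, ha⟩ := Hm.exists_near_int hy2.le
  apply hq
  refine ⟨Ideal.Quotient.mk _ a, ?_⟩
  rw [← map_mul, Ideal.Quotient.eq, ← u.valuation_lt_one_iff_mem (K := K)]
  have ha1 : u.valuation K (algebraMap (𝓞 K) K a + y) ≤ 1 :=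
    (Valuation.map_add _ _ _).trans (max_le (u.valuation_le_one a) hy2.le)
  have e : algebraMap (𝓞 K) K (n - a * a) = (algebraMap (𝓞 K) K n - y ^ 2) -
      (algebraMap (𝓞 K) K a - y) * (algebraMap (𝓞 K) K a + y) := by
    rw [map_sub, map_mul]
    ring
  change u.valuation K (algebraMap (𝓞 K) K (n - a * a)) < 1
  rw [e]
  refine lt_of_le_of_lt (Valuation.map_sub _ _ _) (max_lt hy ?_)
  rw [map_mul]
  exact lt_of_le_of_lt (mul_le_of_le_one_right' ha1) ha

/-- For every unit `a₀` there is a unit `c` such that `a₀ + c y ^ 2` is never small (`u` not dyadic).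
Proof: a nonsquare `n` of the (finite) residue field of odd characteristic, `c ≡ - a₀ / n`; for `y` not
integral the valuation of `c' y ^ 2` is greater than `1`. -/
theorem exists_ns_unit (h2 : u.valuation K 2 = 1) {a₀ : K} (h0 : u.valuation K a₀ = 1) :
    ∃ c : K, u.valuation K c = 1 ∧ ∀ (c' y : K), u.valuation K (c' - c) < 1 →
      ¬ u.valuation K (a₀ + c' * y ^ 2) < 1 := by
  obtain ⟨n, hn, hns⟩ := exists_nonsq h2
  have hn0 : n ≠ 0 := by
    rintro rfl
    rw [map_zero] at hn
    exact zero_ne_one hn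
  have ha0 : a₀ ≠ 0 := by
    rintro rfl
    rw [map_zero] at h0
    exact zero_ne_one h0
  have hc : u.valuation K (-(a₀ / n)) = 1 := by
    rw [Valuation.map_neg, map_div₀, h0, hn, div_one]
  refine ⟨-(a₀ / n), hc, fun c' y hc' hy => ?_⟩
  have hc1 : u.valuation K c' = 1 := by
    have h3 := Valuation.map_add_eq_of_lt_left (u.valuation K) (x := -(a₀ / n))
      (y := c' - -(a₀ / n)) (by rw [hc]; exact hc')
    rw [add_sub_cancel, hc] at h3
    exact h3
  have hy1 : u.valuation K (y ^ 2) = 1 := by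
    have h3 := Valuation.map_sub_eq_of_lt_right (u.valuation K) (x := a₀ + c' * y ^ 2)
      (y := a₀) (by rw [h0]; exact hy)
    rw [add_sub_cancel_left, map_mul, hc1, one_mul, h0] at h3
    exact h3
  apply hns y
  have e : n - y ^ 2 = (n / a₀) * ((a₀ + c' * y ^ 2) - (c' - -(a₀ / n)) * y ^ 2) := by
    field_simp
    ring
  rw [e, map_mul, map_div₀, hn, h0, div_one, one_mul]
  refine lt_of_le_of_lt (Valuation.map_sub _ _ _) (max_lt hy ?_)
  rw [map_mul, hy1, mul_one]
  exact hc'

end norms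

end Dq
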