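import Pool.Agent.Lib.MP_f80667_ag.Dq.Intp
import Pool.Agent.Lib.MP_f80667_ag.Dq.GoodS
import Pool.Agent.Lib.MP_f80667_ag.Dq.Und
import Pool.Agent.Lib.MP_f80667_ag.Dq.AdjB
import Pool.Agent.Lib.MP_f80667_ag.Dq.DgA

/-! The good places. -/

open Polynomial IsDedekindDomain NumberField
open scoped WithZero

namespace Dq

open ZC Tq Dp

section defs

variable {F : Type} [Field F] [NumberField F] (A B : Matrix (Fin 5) (Fin 5) F) (wv : Fin 5 → F)
  {ι : Type} [Fintype ι] (K : ι → Type) [∀ i, Field (K i)] [∀ i, NumberField (K i)]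
  [∀ i, Algebra F (K i)] (θ : ∀ i, K i)

/-- The place `v` is good for the pencil, the vector `wv` and the zeros `θ i` of `mf A B`. -/
structure Gd (v : HeightOneSpectrum (𝓞 F)) : Prop where
  two : v.valuation F 2 = 1
  a : ∀ i j, v.valuation F (A i j) ≤ 1
  b : ∀ i j, v.valuation F (B i j) ≤ 1
  w : ∀ i, v.valuation F (wv i) ≤ 1
  da : v.valuation F (A + A.transpose).det = 1
  db : v.valuation F (B + B.transpose).det = 1
  sep : ∃ U V : F[X], U * chp A B + V * derivative (chp A B) = 1 ∧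
    (∀ j, v.valuation F (U.coeff j) ≤ 1) ∧ ∀ j, v.valuation F (V.coeff j) ≤ 1
  dl : ∀ i (u : HeightOneSpectrum (𝓞 (K i))), u.under (𝓞 F) = v →
    u.valuation (K i) (aeval (θ i) (dlp A B wv)) = 1
  unr : ∀ i (u : HeightOneSpectrum (𝓞 (K i))), u.under (𝓞 F) = v → ∀ x : F,
    u.valuation (K i) (algebraMap F (K i) x) = v.valuation F x
  intp : ∀ r : F[X], r.degree < (mf A B).degree →
    (∀ i (u : HeightOneSpectrum (𝓞 (K i))), u.under (𝓞 F) = v →
      u.valuation (K i) (aeval (θ i) r) ≤ 1) → ∀ j, v.valuation F (r.coeff j) ≤ 1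
  crt : ∀ τ : ∀ i, HeightOneSpectrum (𝓞 (K i)) → K i,
    (∀ i (u : HeightOneSpectrum (𝓞 (K i))), u.under (𝓞 F) = v → u.valuation (K i) (τ i u) ≤ 1) →
    ∃ r : F[X], r.degree < (mf A B).degree ∧ (∀ j, v.valuation F (r.coeff j) ≤ 1) ∧
      ∀ i (u : HeightOneSpectrum (𝓞 (K i))), u.under (𝓞 F) = v →
        u.valuation (K i) (aeval (θ i) r - τ i u) < 1

end defs

section aux

/-- The determinant of the Gram matrix of a nondegenerate form of the pencil. -/
theorem det_ne_zero_B {F : Type} [Field F] {A B : Matrix (Fin 5) (Fin 5) F}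
    (hB : ND A B (0 : F) 1) : (B + B.transpose).det ≠ 0 := by
  have h1 := nd_iff.1 hB
  have h2 : ∀ M : Matrix (Fin 5) (Fin 5) F, M.map (algebraMap F F) = M := fun M => by
    rw [Algebra.algebraMap_self]
    exact Matrix.map_id M
  rwa [h2, h2, zero_smul, one_smul, zero_add] at h1

theorem det_ne_zero_A {F : Type} [Field F] {A B : Matrix (Fin 5) (Fin 5) F}
    (hA : ND A B (1 : F) 0) : (A + A.transpose).det ≠ 0 := by
  have h1 := nd_iff.1 hA
  have h2 : ∀ M : Matrix (Fin 5) (Fin 5) F, M.map (algebraMap F F) = M := fun M => by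
    rw [Algebra.algebraMap_self]
    exact Matrix.map_id M
  rwa [h2, h2, zero_smul, one_smul, add_zero] at h1

theorem chp_lead {F : Type} [Field F] {A B : Matrix (Fin 5) (Fin 5) F}
    (h : (B + B.transpose).det ≠ 0) : (chp A B).leadingCoeff = -(B + B.transpose).det := by
  have e : chp A B = ((X : F[X]) • (-(B + B.transpose)).map C + (A + A.transpose).map C).det := by
    rw [chp]
    congr 1
    ext1 i j
    simp [Matrix.map_apply]
    ring
  rw [leadingCoeff, chp_natDegree h]
  have h1 := coeff_det_X_add_C_card (-(B + B.transpose)) (A + A.transpose)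
  rw [Fintype.card_fin] at h1
  rw [e, h1, Matrix.det_neg, Fintype.card_fin]
  ring

theorem chp_coeff_zero {F : Type} [Field F] (A B : Matrix (Fin 5) (Fin 5) F) :
    (chp A B).coeff 0 = (A + A.transpose).det := by
  rw [coeff_zero_eq_eval_zero, chp_eval, one_smul, neg_zero, zero_smul, add_zero]

/-- `dlp` and homomorphisms. -/
theorem dlp_map {R S : Type*} [CommRing R] [CommRing S] (f : R →+* S)
    (A B : Matrix (Fin 5) (Fin 5) R) (w : Fin 5 → R) :
    dlp (A.map f) (B.map f) (fun i => f (w i)) = (dlp A B w).map f := by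
  have h1 : mtx (A.map f) (B.map f) = (mtx A B).map (mapRingHom f) := by
    ext1 i j
    simp [mtx, Matrix.map_apply]
  have h2 : (mtx (A.map f) (B.map f)).adjugate = (mtx A B).adjugate.map (mapRingHom f) := by
    rw [h1]
    exact (RingHom.map_adjugate (mapRingHom f) (mtx A B)).symm
  simp only [dlp, h2, dotProduct, Matrix.mulVec, Matrix.map_apply, coe_mapRingHom,
    Polynomial.map_sum, Polynomial.map_mul, map_C]

/-- A monic polynomial of degree five with integral coefficients and a unit as constant coefficient: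
its zeros are units. -/
theorem val_root {K : Type*} [Field K] {Γ : Type*} [LinearOrderedCommGroupWithZero Γ]
    (v : Valuation K Γ) {x : K} {c : ℕ → K} (hc : ∀ j, v (c j) ≤ 1) (h0 : v (c 0) = 1)
    (h : c 0 + c 1 * x + c 2 * x ^ 2 + c 3 * x ^ 3 + c 4 * x ^ 4 + x ^ 5 = 0) : v x = 1 := by
  have hle : v x ≤ 1 := by
    by_contra hcon
    rw [not_le] at hcon
    have hpos : 0 < v x := zero_lt_one.trans hcon
    have h1 : x ^ 5 = -(c 0 + c 1 * x + c 2 * x ^ 2 + c 3 * x ^ 3 + c 4 * x ^ 4) := by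
      linear_combination h
    have hp : ∀ j ≤ 4, v x ^ j ≤ v x ^ 4 := fun j hj => pow_le_pow_right₀ hcon.le hj
    have ht : ∀ j ≤ 4, v (c j * x ^ j) ≤ v x ^ 4 := by
      intro j hj
      rw [map_mul, map_pow]
      exact (mul_le_of_le_one_left' (hc j)).trans (hp j hj)
    have h2 : v (x ^ 5) ≤ v x ^ 4 := by
      rw [h1, Valuation.map_neg]
      have e0 := ht 0 (by norm_num)
      have e1 := ht 1 (by norm_num)
      rw [pow_zero, mul_one] at e0
      rw [pow_one] at e1
      refine Valuation.map_add_le _ (Valuation.map_add_le _ (Valuation.map_add_le _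
        (Valuation.map_add_le _ e0 e1) (ht 2 (by norm_num))) (ht 3 (by norm_num)))
        (ht 4 (by norm_num))
    rw [map_pow] at h2
    have h3 : v x ^ 4 < v x ^ 5 := pow_lt_pow_right₀ hcon (by norm_num)
    exact absurd h2 (not_le.2 h3)
  refine le_antisymm hle ?_
  have h1 : c 0 = -(x * (c 1 + c 2 * x + c 3 * x ^ 2 + c 4 * x ^ 3 + x ^ 4)) := by
    linear_combination h
  have hp : ∀ j, v (x ^ j) ≤ 1 := fun j => by
    rw [map_pow]
    exact pow_le_one₀ zero_le hle
  have ht : ∀ i j, v (c i * x ^ j) ≤ 1 := by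
    intro i j
    rw [map_mul]
    exact mul_le_one' (hc i) (hp j)
  have h2 : v (c 1 + c 2 * x + c 3 * x ^ 2 + c 4 * x ^ 3 + x ^ 4) ≤ 1 := by
    have e1 := ht 2 1
    rw [pow_one] at e1
    exact Valuation.map_add_le _ (Valuation.map_add_le _ (Valuation.map_add_le _
      (Valuation.map_add_le _ (hc 1) e1) (ht 3 2)) (ht 4 3)) (hp 4)
  rw [← h0, h1, Valuation.map_neg, map_mul]
  exact mul_le_of_le_one_right' h2

/-- Finitely many elements are integral at almost all places. -/
theorem fin_int {F : Type} [Field F] [NumberField F] {J : Type*} [Finite J] (x : J → F) :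
    ∃ S : Finset (HeightOneSpectrum (𝓞 F)), ∀ v ∉ S, ∀ j, v.valuation F (x j) ≤ 1 := by
  classical
  have hfin : (⋃ j, HeightOneSpectrum.Support (𝓞 F) (x j)).Finite :=
    Set.finite_iUnion fun j => HeightOneSpectrum.Support.finite (𝓞 F) (x j)
  refine ⟨hfin.toFinset, fun v hv j => ?_⟩
  by_contra hcon
  apply hv
  rw [Set.Finite.mem_toFinset, Set.mem_iUnion]
  exact ⟨j, not_le.1 hcon⟩

/-- The coefficients of a polynomial are integral at almost all places. -/
theorem pol_int {F : Type} [Field F] [NumberField F] (U : F[X]) :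
    ∃ S : Finset (HeightOneSpectrum (𝓞 F)), ∀ v ∉ S, ∀ j, v.valuation F (U.coeff j) ≤ 1 := by
  obtain ⟨S, hS⟩ := fin_int fun j : Fin (U.natDegree + 1) => U.coeff j
  refine ⟨S, fun v hv j => ?_⟩
  by_cases hj : j < U.natDegree + 1
  · exact hS v hv ⟨j, hj⟩
  · rw [coeff_eq_zero_of_natDegree_lt (by omega), map_zero]
    exact zero_le

end aux

variable {F : Type} [Field F] [NumberField F] {A B : Matrix (Fin 5) (Fin 5) F} {wv : Fin 5 → F}
  {ι : Type} [Fintype ι] {K : ι → Type} [∀ i, Field (K i)] [∀ i, NumberField (K i)]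
  [∀ i, Algebra F (K i)] {θ : ∀ i, K i}

omit [NumberField F] in
/-- Degree and leading coefficient (`chp_natDegree`). -/
theorem mf_monic (hB : ND A B (0 : F) 1) : (mf A B).Monic ∧ (mf A B).natDegree = 5 := by
  have h := det_ne_zero_B hB
  have h0 : (chp A B).leadingCoeff ≠ 0 := by
    rw [chp_lead h]
    exact neg_ne_zero.2 h
  refine ⟨?_, ?_⟩
  · rw [Monic]
    unfold mf
    rw [leadingCoeff_mul, leadingCoeff_C, inv_mul_cancel₀ h0]
  · unfold mf
    rw [natDegree_C_mul (inv_ne_zero h0), chp_natDegree h]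

omit [NumberField F] in
/-- `chp A B = c * mf A B` with `c = - det (B + Bᵀ)`, and `mf A B` at `0`. -/
theorem chp_mf (hB : ND A B (0 : F) 1) : chp A B = C (-(B + B.transpose).det) * mf A B ∧
    (mf A B).coeff 0 = -((A + A.transpose).det / (B + B.transpose).det) := by
  have h := det_ne_zero_B hB
  have h0 : -(B + B.transpose).det ≠ 0 := neg_ne_zero.2 h
  refine ⟨?_, ?_⟩
  · unfold mf
    rw [chp_lead h, ← mul_assoc, ← C_mul, mul_inv_cancel₀ h0, C_1, one_mul]
  · unfold mf
    rw [coeff_C_mul, chp_lead h, chp_coeff_zero]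
    field_simp

/-- There is a vector `wv` such that the discriminants are not `0`. Proof: the adjugate of the matrix of
the degenerate member at `θ i` is not `0` (its rank is `4`: `rad_one`) and symmetric, so its quadratic
form does not vanish on `F^5` (`PL.exists_ne` in `Dp/Dens.lean`). -/
theorem exists_wv (hs : Sm (AlgebraicClosure F) A B) (hB : ND A B (0 : F) 1)
    (hres : Res (mf A B) K θ) : ∃ wv : Fin 5 → F, ∀ i, aeval (θ i) (dlp A B wv) ≠ 0 := by
  have hsep := (sep_of_sm hs hB).map (algebraMap F (AlgebraicClosure F))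
  have h2 : (2 : AlgebraicClosure F) ≠ 0 := two_ne_zero
  obtain ⟨v, hv⟩ := exists_dg h2 hs hsep
  have hσ : ∀ i, Nonempty (K i →ₐ[F] AlgebraicClosure F) := fun i => by
    have := hres.finite i
    exact ⟨IsAlgClosed.lift⟩
  let σ : ∀ i, K i →ₐ[F] AlgebraicClosure F := fun i => (hσ i).some
  let f : ι → (Fin 5 → F) → AlgebraicClosure F := fun i w => σ i (aeval (θ i) (dlp A B w))
  have hval : ∀ i w, f i w = dotProduct (fun l => algebraMap F (AlgebraicClosure F) (w l))
      ((gm A B (1 : AlgebraicClosure F) (-σ i (θ i))).adjugate.mulVec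
        fun l => algebraMap F (AlgebraicClosure F) (w l)) := by
    intro i w
    have h3 : f i w = aeval (σ i (θ i)) (dlp A B w) := (aeval_algHom_apply (σ i) (θ i) _).symm
    rw [h3, dlp_aeval, gm, one_smul, neg_smul, ← sub_eq_add_neg]
  have hPL : ∀ i, PL F (f i) := by
    intro i
    have h4 : f i = fun w => ∑ a, algebraMap F (AlgebraicClosure F) (w a) *
        ∑ b, (gm A B (1 : AlgebraicClosure F) (-σ i (θ i))).adjugate a b *
          algebraMap F (AlgebraicClosure F) (w b) := by
      funext w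
      exact hval i w
    have hl : ∀ a : Fin 5, PL F fun w : Fin 5 → F => algebraMap F (AlgebraicClosure F) (w a) :=
      fun a => PL.lin ((Algebra.linearMap F (AlgebraicClosure F)).comp
        (LinearMap.proj (R := F) (φ := fun _ : Fin 5 => F) a))
    rw [h4]
    exact PL.sum _ fun a => (hl a).mul (PL.sum _ fun b => (PL.const _).mul (hl b))
  have hne : ∀ i, ∃ w, f i w ≠ 0 := by
    intro i
    -- the degenerate member
    have hnd : ¬ ND A B (1 : AlgebraicClosure F) (-σ i (θ i)) := by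
      rw [nd_iff, not_not, one_smul, neg_smul, ← sub_eq_add_neg, ← chp_aeval]
      rw [(chp_mf hB).1, map_mul, aeval_algHom_apply (σ i) (θ i) (mf A B), hres.aeval_f i,
        map_zero, mul_zero]
    rw [hv.nd_iff h2] at hnd
    push Not at hnd
    obtain ⟨j, hj⟩ := hnd
    have hother : ∀ l, l ≠ j → mQ A B (1 : AlgebraicClosure F) (-σ i (θ i)) (v l) ≠ 0 := by
      intro l hl h0
      rw [mQ] at hj h0
      apply hv.np l j hl
      linear_combination qv B (v j) * h0 - qv B (v l) * hj
    -- a coordinate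
    obtain ⟨l, hl⟩ : ∃ l, v j l ≠ 0 := by
      by_contra hcon
      push Not at hcon
      exact hv.ind.ne_zero j (funext hcon)
    refine ⟨Pi.single l 1, fun h0 => ?_⟩
    rw [hval] at h0
    have h5 := adj_dg hv (1 : AlgebraicClosure F) (-σ i (θ i))
      (fun m => algebraMap F (AlgebraicClosure F) ((Pi.single l 1 : Fin 5 → F) m))
    rw [h0, mul_zero, Finset.sum_eq_single j] at h5
    · have h6 := mul_eq_zero.1 h5.symm
      rcases h6 with h6 | h6
      · have h7 : dotProduct (v j)
            (fun m => algebraMap F (AlgebraicClosure F) ((Pi.single l 1 : Fin 5 → F) m)) = v j l := by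
          rw [dotProduct, Finset.sum_eq_single l]
          · rw [Pi.single_eq_same, map_one, mul_one]
          · intro m _ hm
            rw [Pi.single_eq_of_ne hm, map_zero, mul_zero]
          · intro h8
            exact absurd (Finset.mem_univ l) h8
        rw [h7] at h6
        exact hl (pow_eq_zero_iff two_ne_zero |>.1 h6)
      · obtain ⟨m, hm, h7⟩ := Finset.prod_eq_zero_iff.1 h6
        exact hother m (Finset.ne_of_mem_erase hm) ((mul_eq_zero.1 h7).resolve_left h2)
    · intro m _ hm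
      have h7 : ∏ j ∈ Finset.univ.erase m,
          (2 * mQ A B (1 : AlgebraicClosure F) (-σ i (θ i)) (v j)) = 0 := by
        refine Finset.prod_eq_zero (Finset.mem_erase.2 ⟨hm.symm, Finset.mem_univ j⟩) ?_
        rw [hj, mul_zero]
      rw [h7, mul_zero]
    · intro h8
      exact absurd (Finset.mem_univ j) h8
  obtain ⟨w, hw⟩ := PL.exists_ne (E := F) f hPL hne
  refine ⟨w, fun i h0 => hw i ?_⟩
  change σ i (aeval (θ i) (dlp A B w)) = 0
  rw [h0, map_zero]

/-- **Almost all places are good.** Proof: finitely many elements are units or integral outside a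
finite set (`Hm.finite_val_ne_one`); `sep_of_sm`; `exists_unr`, `Res.integral`, `Res.exists_crt`;
for `dl`: an element of `K i` is a unit outside finitely many places `u`, take their `under`. -/
theorem exists_gd (hs : Sm (AlgebraicClosure F) A B) (hA : ND A B (1 : F) 0)
    (hB : ND A B (0 : F) 1) (hres : Res (mf A B) K θ)
    (hw : ∀ i, aeval (θ i) (dlp A B wv) ≠ 0) :
    ∃ S : Finset (HeightOneSpectrum (𝓞 F)), ∀ v ∉ S, Gd A B wv K θ v := by
  classical
  obtain ⟨-, U, V, hUV⟩ := sep_of_sm hs hB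
  obtain ⟨Sa, hSa⟩ := fin_int fun p : Fin 5 × Fin 5 => A p.1 p.2
  obtain ⟨Sb, hSb⟩ := fin_int fun p : Fin 5 × Fin 5 => B p.1 p.2
  obtain ⟨Sw, hSw⟩ := fin_int wv
  obtain ⟨SU, hSU⟩ := pol_int U
  obtain ⟨SV, hSV⟩ := pol_int V
  obtain ⟨Si, hSi⟩ := hres.integral
  obtain ⟨Sc, hSc⟩ := hres.exists_crt
  choose Su hSu using fun i => exists_unr F (K i)
  have hun : ∀ x : F, x ≠ 0 → ∃ S : Finset (HeightOneSpectrum (𝓞 F)), ∀ v ∉ S,
      v.valuation F x = 1 := fun x hx =>
    ⟨(Hm.finite_val_ne_one (Units.mk0 x hx)).toFinset, fun v hv => by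
      by_contra hcon
      exact hv ((Set.Finite.mem_toFinset _).2 hcon)⟩
  obtain ⟨S2, hS2⟩ := hun 2 two_ne_zero
  obtain ⟨S3, hS3⟩ := hun _ (det_ne_zero_A hA)
  obtain ⟨S4, hS4⟩ := hun _ (det_ne_zero_B hB)
  let Sd : ι → Finset (HeightOneSpectrum (𝓞 F)) := fun i =>
    (Hm.finite_val_ne_one (Units.mk0 _ (hw i))).toFinset.image fun u => u.under (𝓞 F)
  refine ⟨(Sa ∪ Sb ∪ Sw) ∪ (SU ∪ SV ∪ Si) ∪ (Sc ∪ S2 ∪ S3) ∪
    (S4 ∪ Finset.univ.biUnion Su ∪ Finset.univ.biUnion Sd), fun v hv => ?_⟩
  simp only [Finset.mem_union, not_or] at hv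
  obtain ⟨⟨⟨⟨⟨ha, hb⟩, hwv⟩, ⟨hU, hV⟩, hi⟩, ⟨hc, h2⟩, h3⟩, ⟨h4, hu⟩, hd⟩ := hv
  refine ⟨hS2 v h2, fun i j => hSa v ha (i, j), fun i j => hSb v hb (i, j), hSw v hwv,
    hS3 v h3, hS4 v h4, ⟨U, V, hUV, hSU v hU, hSV v hV⟩, ?_, ?_, hSi v hi, hSc v hc⟩
  · intro i u huv
    by_contra hcon
    apply hd
    refine Finset.mem_biUnion.2 ⟨i, Finset.mem_univ i, Finset.mem_image.2 ⟨u, ?_, huv⟩⟩
    exact (Set.Finite.mem_toFinset _).2 hcon
  · intro i u huv x
    have h5 := hSu i u (fun h6 => hu (Finset.mem_biUnion.2 ⟨i, Finset.mem_univ i, by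
      rwa [huv] at h6⟩)) x
    rw [h5, huv]

variable {v : HeightOneSpectrum (𝓞 F)}

/-- Integrality of the polynomials. -/
theorem Gd.mf_int (hB : ND A B (0 : F) 1) (h : Gd A B wv K θ v) :
    (∀ j, v.valuation F ((mf A B).coeff j) ≤ 1) ∧ v.valuation F ((mf A B).coeff 0) = 1 ∧
      (∀ j, v.valuation F ((chp A B).coeff j) ≤ 1) ∧
      ∀ j, v.valuation F ((dlp A B wv).coeff j) ≤ 1 := by
  let O : Subring F := (v.valuation F).integer
  let A' : Matrix (Fin 5) (Fin 5) O := Matrix.of fun i j => ⟨A i j, h.a i j⟩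
  let B' : Matrix (Fin 5) (Fin 5) O := Matrix.of fun i j => ⟨B i j, h.b i j⟩
  let w' : Fin 5 → O := fun i => ⟨wv i, h.w i⟩
  have hA' : A'.map O.subtype = A := by
    ext i j
    rfl
  have hB' : B'.map O.subtype = B := by
    ext i j
    rfl
  have hw' : (fun i => O.subtype (w' i)) = wv := rfl
  have h1 : ∀ j, v.valuation F ((chp A B).coeff j) ≤ 1 := by
    intro j
    have h2 := chp_map O.subtype A' B'
    rw [hA', hB'] at h2
    rw [h2, coeff_map]
    generalize (chp A' B').coeff j = c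
    exact c.2
  have h3 : ∀ j, v.valuation F ((dlp A B wv).coeff j) ≤ 1 := by
    intro j
    have h2 := dlp_map O.subtype A' B' w'
    rw [hA', hB', hw'] at h2
    rw [h2, coeff_map]
    generalize (dlp A' B' w').coeff j = c
    exact c.2
  refine ⟨fun j => ?_, ?_, h1, h3⟩
  · have h4 : (mf A B).coeff j = (-(B + B.transpose).det)⁻¹ * (chp A B).coeff j := by
      unfold mf
      rw [coeff_C_mul, chp_lead (det_ne_zero_B hB)]
    rw [h4, map_mul, map_inv₀, Valuation.map_neg, h.db, inv_one, one_mul]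
    exact h1 j
  · rw [(chp_mf hB).2, Valuation.map_neg, map_div₀, h.da, h.db, div_one]

/-- The zeros are units. Proof: `θ i` is a zero of the monic integral polynomial `mf A B`, whose
constant coefficient is a unit. -/
theorem Gd.theta (hB : ND A B (0 : F) 1) (hres : Res (mf A B) K θ) (h : Gd A B wv K θ v) (i : ι)
    {u : HeightOneSpectrum (𝓞 (K i))} (hu : u.under (𝓞 F) = v) :
    u.valuation (K i) (θ i) = 1 := by
  obtain ⟨hm, hd⟩ := mf_monic hB
  obtain ⟨h1, h2, -, -⟩ := h.mf_int hB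
  have h3 := hres.aeval_f i
  rw [aeval_eq_sum_range, hd] at h3
  have h5 : (mf A B).coeff 5 = 1 := by
    rw [← hd]
    exact hm.coeff_natDegree
  simp only [Finset.sum_range_succ, Finset.sum_range_zero, Algebra.smul_def, h5, map_one,
    pow_zero, pow_one, mul_one, one_mul, zero_add] at h3
  refine val_root (u.valuation (K i)) (c := fun j => algebraMap F (K i) ((mf A B).coeff j))
    (fun j => ?_) ?_ h3
  · rw [h.unr i u hu]
    exact h1 j
  · rw [h.unr i u hu]
    exact h2

end Dq
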