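import Pool.Agent.Lib.MP_f80667_ag.Dp.Gen
import Pool.Agent.Lib.MP_f80667_ag.Dq.Fl
import Pool.Agent.Lib.MP_f80667_ag.Dq.GoodU

/-! General points of `X` over a field over which `X` has a point. -/

namespace Dq

open ZC Tq Dp

universe u


variable {k : Type u} [Field k] [CharZero k] {Ω : Type u} [Field Ω] [Algebra k Ω] [IsAlgClosed Ω]
  {n : ℕ} {A B : Matrix (Fin n) (Fin n) k} {M : Type u} [Field M] [Algebra k M]

theorem gen_zero (hs : Sm Ω A B) (σ : M →ₐ[k] Ω) (hn : 5 ≤ n) {P : Fin n → M} (hP : P ≠ 0)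
    (zP : Zer (Pl A B) M P) (hN : NS A B P) {ι : Type} [Finite ι] (φ : ι → (Fin n → Ω) →ₗ[Ω] Ω)
    (hφ : ∀ i, φ i ≠ 0) :
    ∃ W : Fin n → M, Zer (Pl A B) M W ∧ ∀ i, φ i (fun j => σ (W j)) ≠ 0 := by
  classical
  have := Fintype.ofFinite ι
  obtain ⟨c, hc0, hc⟩ : ∃ c : ι → Ω × Ω, (∀ i, (c i).1 ≠ 0 ∨ (c i).2 ≠ 0) ∧
      ∀ i (d : Ω × Ω), (d.1 ≠ 0 ∨ d.2 ≠ 0) →
        (∀ y, φ i y = mB A B d.1 d.2 (fun j => σ (P j)) y) → c i = d := by
    have h1 : ∀ i, ∃ c : Ω × Ω, (c.1 ≠ 0 ∨ c.2 ≠ 0) ∧ ∀ d : Ω × Ω, (d.1 ≠ 0 ∨ d.2 ≠ 0) →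
        (∀ y, φ i y = mB A B d.1 d.2 (fun j => σ (P j)) y) → c = d := by
      intro i
      by_cases h : ∃ c : Ω × Ω, (c.1 ≠ 0 ∨ c.2 ≠ 0) ∧
          ∀ y, φ i y = mB A B c.1 c.2 (fun j => σ (P j)) y
      · obtain ⟨c, hc0, hc⟩ := h
        refine ⟨c, hc0, fun d _ hd => ?_⟩
        have h2 := gen_pt hs σ hP zP (c := c.1 - d.1) (d := c.2 - d.2) (fun y => by
          have e1 := hc y
          have e2 := hd y
          rw [e2] at e1
          rw [mB, mB] at e1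
          rw [mB]
          linear_combination -e1)
        exact Prod.ext (sub_eq_zero.1 h2.1) (sub_eq_zero.1 h2.2)
      · refine ⟨(1, 0), Or.inl one_ne_zero, fun d hd0 hd => ?_⟩
        exact absurd ⟨d, hd0, hd⟩ h
    choose c hc using h1
    exact ⟨c, fun i => (hc i).1, fun i => (hc i).2⟩
  obtain ⟨u, g, hT, hND, -, -, hu⟩ := exists_u hs σ hn hP zP hN (Finset.univ.image c) (by
    intro d hd
    obtain ⟨i, -, rfl⟩ := Finset.mem_image.1 hd
    exact hc0 i)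
  obtain ⟨w, hw⟩ := hND P hP
  have hab : qv B u ≠ 0 ∨ -qv A u ≠ 0 := by
    by_contra h
    rw [not_or, not_not, not_not, neg_eq_zero] at h
    exact hT.nu ⟨h.2, h.1⟩
  obtain ⟨H, hH, hHu⟩ : ∃ H, (H = A ∨ H = B) ∧ qv H u ≠ 0 := by
    rcases hab with h | h
    · exact ⟨B, Or.inr rfl, h⟩
    · exact ⟨A, Or.inl rfl, fun h1 => h (by rw [h1, neg_zero])⟩
  -- over `Ω`
  have hab' : σ (qv B u) ≠ 0 ∨ σ (-qv A u) ≠ 0 :=
    hab.imp (fun h => (map_ne_zero σ).2 h) (fun h => (map_ne_zero σ).2 h)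
  have hND' : ND A B (σ (qv B u)) (σ (-qv A u)) := (ND.hom σ).2 hND
  have hT' : Tg A B (σ (qv B u)) (σ (-qv A u)) (fun j => σ (P j)) (fun j => σ (u j)) :=
    { hP := gen_ne σ hP
      aP := by rw [qv_hom, hT.aP, map_zero]
      bP := by rw [qv_hom, hT.bP, map_zero]
      aPu := by rw [bv_hom, hT.aPu, map_zero]
      bPu := by rw [bv_hom, hT.bPu, map_zero]
      qu := by rw [mQ_hom, hT.qu, map_zero]
      nu := by
        rintro ⟨h1, h2⟩
        rw [qv_hom, map_eq_zero] at h1 h2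
        exact hT.nu ⟨h1, h2⟩ }
  have hHu' : qv H (fun j => σ (u j)) ≠ 0 := by
    rw [qv_hom]
    exact (map_ne_zero σ).2 hHu
  have hw' : mB A B (σ (qv B u)) (σ (-qv A u)) (fun j => σ (P j)) (fun j => σ (w j)) ≠ 0 := by
    rw [mB_hom]
    exact (map_ne_zero σ).2 hw
  have hz : ∀ i, ∃ z : Fin n → Ω, φ i (Wf A B H (σ (qv B u)) (σ (-qv A u)) (fun j => σ (P j))
      (fun j => σ (u j)) (fun j => σ (w j)) z) ≠ 0 := by
    intro i
    by_contra hcon
    push Not at hcon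
    obtain ⟨e, he⟩ := fl hs hn hab' hND' hH hT' hHu' hw' (φ i) hcon
    have he0 : e ≠ 0 := by
      rintro rfl
      apply hφ i
      refine LinearMap.ext fun y => ?_
      rw [he y, zero_mul]
      rfl
    have h1 := hc i (e * σ (qv B u), e * σ (-qv A u))
      (hab'.imp (fun h => mul_ne_zero he0 h) (fun h => mul_ne_zero he0 h))
      (fun y => by rw [mB_scale]; exact he y)
    apply hu (c i) (Finset.mem_image_of_mem c (Finset.mem_univ i))
    rw [h1]
    simp only [map_neg]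
    ring
  have := charZero_of_injective_algebraMap (algebraMap k M).injective
  have hF : ∀ i, gen_poly A B H (σ (qv B u)) (σ (-qv A u)) (fun j => σ (P j))
      (fun j => σ (u j)) (fun j => σ (w j)) (φ i) ≠ 0 := by
    intro i h0
    obtain ⟨z, h1⟩ := hz i
    apply h1
    rw [← gen_poly_eval, h0, map_zero]
  obtain ⟨z, hz'⟩ := exists_eval_ne (σ : M →+* Ω) (∏ i, gen_poly A B H (σ (qv B u)) (σ (-qv A u))
    (fun j => σ (P j)) (fun j => σ (u j)) (fun j => σ (w j)) (φ i))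
    (Finset.prod_ne_zero_iff.2 fun i _ => hF i)
  refine ⟨Wf A B H (qv B u) (-qv A u) P u w z, Wf_zer hab hH hT hHu w z, fun i => ?_⟩
  rw [map_prod, Finset.prod_ne_zero_iff] at hz'
  have h1 := hz' i (Finset.mem_univ i)
  rw [gen_poly_eval] at h1
  have h2 := Wf_hom (A := A) (B := B) (H := H) σ (qv B u) (-qv A u) P u w z
  rw [← h2]
  exact h1

/-- The points of `X` over `M` are not in a finite union of hyperplanes over `Ω`. Proof: by
`exists_u` there is `u` such that no `φ i` is a multiple of `mB (qv B u) (-qv A u) (σ P)` (if `φ i` is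
`c₁ bv A P + c₂ bv B P`, `(c₁, c₂) ≠ 0`, add `(c₁, c₂)` to the finite set `s`: the condition
`c₁ qv A u + c₂ qv B u ≠ 0` says that `(c₁, c₂)` and `(qv B u, - qv A u)` are independent; `bv A P`
and `bv B P` are independent by `sm_pt`). Let `H = A` or `B` with `qv H u ≠ 0`, `w` over `M` with
`mB P w ≠ 0`. By `fl` for every `i` there is `z` over `Ω` with `φ i (Wf ... z) ≠ 0`, so the polynomial
`∑ j, φ i (e j) (Wf ... X) j` over `Ω` (`Wf_hom` for `MvPolynomial.aeval`) is not zero; the product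
over `i` of these polynomials does not vanish at some `z` over `M` (`exists_eval_ne`). `W = Wf ... z`
(`W ≠ 0`: if there is no `i` add one functional). -/
theorem gen1 (hs : Sm Ω A B) (σ : M →ₐ[k] Ω) (hn : 5 ≤ n) {P : Fin n → M} (hP : P ≠ 0)
    (zP : Zer (Pl A B) M P) {ι : Type} [Finite ι] (φ : ι → (Fin n → Ω) →ₗ[Ω] Ω)
    (hφ : ∀ i, φ i ≠ 0) :
    ∃ W : Fin n → M, W ≠ 0 ∧ Zer (Pl A B) M W ∧ ∀ i, φ i (fun j => σ (W j)) ≠ 0 := by
  obtain ⟨P', hP', zP', hN⟩ : ∃ P' : Fin n → M, P' ≠ 0 ∧ Zer (Pl A B) M P' ∧ NS A B P' := by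
    rcases exists_ns_pt hs σ hn hP zP with h | ⟨W, -, h1, h2, h3, -⟩
    · exact ⟨P, hP, zP, h⟩
    · exact ⟨W, h1, h2, h3⟩
  obtain ⟨W, zW, hW⟩ := gen_zero hs σ hn hP' zP' hN
    (fun i : Option ι => i.elim (LinearMap.proj (⟨0, by omega⟩ : Fin n)) φ) (by
      rintro (_ | i)
      · intro h
        have h1 := LinearMap.congr_fun h (fun _ => (1 : Ω))
        simp at h1
      · exact hφ i)
  refine ⟨W, ?_, zW, fun i => hW (some i)⟩
  rintro rfl
  apply hW none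
  simp

/-- A third point. Proof: `gen1` with the functionals `mB c.1 c.2 (σ P)` and `mB c.1 c.2 (σ R)`, `c` in
the set `s` of `fin_sing` together with `(1, 0)` and `(0, 1)` (`sm_pt`). The member through `P` and
`W` is `(bv B P W, -bv A P W)`; it is different from all `c ∈ s` since `mB c.1 c.2 P W ≠ 0`. -/
theorem exists_third (hs : Sm Ω A B) (σ : M →ₐ[k] Ω) (hn : 5 ≤ n) {P R : Fin n → M} (hP : P ≠ 0)
    (zP : Zer (Pl A B) M P) (hR : R ≠ 0) (zR : Zer (Pl A B) M R) :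
    ∃ W : Fin n → M, W ≠ 0 ∧ Zer (Pl A B) M W ∧ ND A B (bv B P W) (-bv A P W) ∧
      ND A B (bv B R W) (-bv A R W) := by
  obtain ⟨s, hs0, hnd⟩ := fin_sing hs (by omega : 1 ≤ n)
  have hne : ∀ {S : Fin n → M}, S ≠ 0 → Zer (Pl A B) M S → ∀ c ∈ s,
      mBl A B c.1 c.2 (fun j => σ (S j)) ≠ 0 := by
    intro S hS zS c hc h
    have h1 := gen_pt hs σ hS zS (c := c.1) (d := c.2) (fun y => LinearMap.congr_fun h y)
    rcases hs0 c hc with h2 | h2
    · exact h2 h1.1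
    · exact h2 h1.2
  have hgo : ∀ {S W : Fin n → M}, (∀ c ∈ s, mB A B c.1 c.2 (fun j => σ (S j))
      (fun j => σ (W j)) ≠ 0) → ND A B (bv B S W) (-bv A S W) := by
    intro S W h
    rw [← ND.hom σ]
    apply hnd
    intro c hc h1
    apply h c hc
    rw [mB, bv_hom, bv_hom]
    rw [map_neg] at h1
    linear_combination h1
  obtain ⟨W, hW, zW, h⟩ := gen1 hs σ hn hP zP
    (fun i : Fin s.card ⊕ Fin s.card => i.elim
      (fun i => mBl A B (s.equivFin.symm i).1.1 (s.equivFin.symm i).1.2 (fun j => σ (P j)))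
      (fun i => mBl A B (s.equivFin.symm i).1.1 (s.equivFin.symm i).1.2 (fun j => σ (R j)))) (by
      rintro (i | i)
      · exact hne hP zP _ (s.equivFin.symm i).2
      · exact hne hR zR _ (s.equivFin.symm i).2)
  refine ⟨W, hW, zW, hgo fun c hc => ?_, hgo fun c hc => ?_⟩
  · have h1 := h (Sum.inl (s.equivFin ⟨c, hc⟩))
    simp only [Sum.elim_inl, Equiv.symm_apply_apply] at h1
    exact h1
  · have h1 := h (Sum.inr (s.equivFin ⟨c, hc⟩))
    simp only [Sum.elim_inr, Equiv.symm_apply_apply] at h1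
    exact h1

end Dq
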