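import Pool.Agent.Lib.MP_f80667_ag.Dq.GenrA
import Pool.Agent.Lib.MP_f80667_ag.Tq.EndD

/-! All zero-cycles of degree `0` are combinations of classes of lines on nondegenerate members. -/

open scoped LinearAlgebra.Projectivization

namespace Dq

open ZC Tq Dp

universe u

variable {k : Type u} [Field k] [CharZero k] {Ω : Type u} [Field Ω] [Algebra k Ω]
  [IsAlgClosure k Ω] {n : ℕ} {A B : Matrix (Fin n) (Fin n) k}

/-- The trace of a point over a larger field. -/
private theorem genr_ext {M L : Type u} [Field M] [Field L] [Algebra k M] [Algebra k L]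
    [Algebra M L] [IsScalarTower k M L] [FiniteDimensional k M] [FiniteDimensional k L]
    {P : Fin n → M} (hP : P ≠ 0) (hX : Zer (Pl A B) M P) :
    ∃ h : (fun i => algebraMap M L (P i)) ≠ 0, Zer (Pl A B) L (fun i => algebraMap M L (P i)) ∧
      trPt k Ω (Projectivization.mk L (fun i => algebraMap M L (P i)) h) =
        (Module.finrank M L : ℤ) • trPt k Ω (Projectivization.mk M P hP) := by
  have hcl : IsAlgClosed Ω := IsAlgClosure.isAlgClosed k
  refine ⟨comp_ne (algebraMap M L) hP, ?_, ?_⟩
  · have h1 := (zer_comp (IsScalarTower.toAlgHom k M L) P).2 hX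
    exact h1
  · rw [← mapPt_mk (algebraMap M L) P hP, trPt_tower, natCast_zsmul]

/-- The equations are homogeneous. -/
private theorem genr_hom : ∀ i, (Pl A B i).IsHomogeneous 2 := by
  have hm : ∀ H : Matrix (Fin n) (Fin n) k, (ml H).IsHomogeneous 2 := by
    intro H
    refine MvPolynomial.IsHomogeneous.sum _ _ _ fun i _ =>
      MvPolynomial.IsHomogeneous.sum _ _ _ fun j _ => ?_
    have h1 := ((MvPolynomial.isHomogeneous_C (Fin n) (H i j)).mul
      ((MvPolynomial.isHomogeneous_X k i).mul (MvPolynomial.isHomogeneous_X k j)))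
    simpa using h1
  intro i
  fin_cases i
  · exact hm A
  · exact hm B

/-- Points of even degree. Proof: `exists_quad`: `L ⊇ M` of odd degree `a`, `[L : M₁] = 2`; `g3` for
`L / M₁` and `P` over `L`: `a trPt P ∈ GG` (`trPt_tower`, see `trPt_ext` in `Tq/EndC.lean`), and
`2 trPt P ∈ GG` (`g1`). -/
theorem g_even (hs : Sm Ω A B) (hn : 5 ≤ n) {M : Type u} [Field M] [Algebra k M]
    [FiniteDimensional k M] (hM : 2 ∣ Module.finrank k M) {P : Fin n → M} (hP : P ≠ 0)
    (zP : Zer (Pl A B) M P) : trPt k Ω (Projectivization.mk M P hP) ∈ GG k Ω A B := by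
  have hcl : IsAlgClosed Ω := IsAlgClosure.isAlgClosed k
  obtain ⟨M₁, L, i1, i2, i3, i4, i5, i6, i7, i8, i9, i10, h2, ha⟩ := exists_quad k M hM
  obtain ⟨hPL, hXL, htr⟩ := genr_ext (Ω := Ω) (L := L) hP zP
  have key : trPt k Ω (Projectivization.mk L (fun i => algebraMap M L (P i)) hPL) ∈
      GG k Ω A B := g3 (M := M₁) h2 hs hn hPL hXL
  rw [htr] at key
  have h1 := g1 (Ω := Ω) hs hn hP zP
  obtain ⟨m, hm⟩ := ha
  have h3 := sub_mem key (zsmul_mem h1 (m : ℤ))
  rw [hm] at h3
  have e : ((2 * m + 1 : ℕ) : ℤ) • trPt k Ω (Projectivization.mk M P hP) -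
      (m : ℤ) • ((2 : ℤ) • trPt k Ω (Projectivization.mk M P hP)) =
      trPt k Ω (Projectivization.mk M P hP) := by
    push_cast
    module
  rwa [e] at h3

/-- Points of odd degree. Proof: `common_odd`: `L` over `M` and `K`, both of odd degree (multiply the
degrees); over `L` `g2`; `g1`: twice the points are in `GG`. -/
theorem g_odd (hs : Sm Ω A B) (hn : 5 ≤ n) {M K : Type u} [Field M] [Algebra k M]
    [FiniteDimensional k M] [Field K] [Algebra k K] [FiniteDimensional k K]
    (hM : Odd (Module.finrank k M)) (hK : Odd (Module.finrank k K)) {P : Fin n → M} (hP : P ≠ 0)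
    (zP : Zer (Pl A B) M P) {R : Fin n → K} (hR : R ≠ 0) (zR : Zer (Pl A B) K R) :
    trPt k Ω (Projectivization.mk M P hP) - trPt k Ω (Projectivization.mk K R hR) ∈
      GG k Ω A B := by
  have hcl : IsAlgClosed Ω := IsAlgClosure.isAlgClosed k
  obtain ⟨L, i1, i2, i3, i4, i5, i6, i7, ha⟩ := common_odd k M K hK
  obtain ⟨hPL, hXL, htP⟩ := genr_ext (Ω := Ω) (L := L) hP zP
  obtain ⟨hRL, hXL', htR⟩ := genr_ext (Ω := Ω) (L := L) hR zR
  have e1 : Module.finrank k M * Module.finrank M L =
      Module.finrank k K * Module.finrank K L := by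
    rw [Module.finrank_mul_finrank k M L, Module.finrank_mul_finrank k K L]
  have ha' : Odd (Module.finrank K L) := by
    have h1 : Odd (Module.finrank k K * Module.finrank K L) := e1 ▸ hM.mul ha
    exact (Nat.odd_mul.1 h1).2
  have h1 := g2 (Ω := Ω) hs hn hPL hRL hXL hXL'
  rw [htP, htR] at h1
  have h2 := g1 (Ω := Ω) hs hn hP zP
  have h3 := g1 (Ω := Ω) hs hn hR zR
  generalize hx : trPt k Ω (Projectivization.mk M P hP) = x at h1 h2 ⊢
  generalize hy : trPt k Ω (Projectivization.mk K R hR) = y at h1 h3 ⊢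
  obtain ⟨b, hb⟩ := ha
  obtain ⟨c, hc⟩ := ha'
  rw [hb, hc] at h1
  have h4 := add_mem (sub_mem h1 (zsmul_mem h2 (b : ℤ))) (zsmul_mem h3 (c : ℤ))
  have e2 : ((2 * b + 1 : ℕ) : ℤ) • x - ((2 * c + 1 : ℕ) : ℤ) • y - (b : ℤ) • ((2 : ℤ) • x) +
      (c : ℤ) • ((2 : ℤ) • y) = x - y := by
    push_cast
    module
  rwa [e2] at h4

/-- **Generation.** Proof: `ZC.mem_closure_tr` (the forms are homogeneous of degree `2`): the cycle is a
combination of traces of points. Claim: every `z ∈ cyc` is in `GG` if there is no point of odd degree,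
and if `R` is a point over `K` of odd degree then `z - c trPt R ∈ GG` for some integer `c` of the same
parity as `deg z` (closure induction: `g_even`, `g_odd`). For `deg z = 0`: `c` is even, `g1`. -/
theorem generation (hs : Sm Ω A B) (hn : 5 ≤ n) (z : ℙ Ω (Fin n → Ω) →₀ ℤ)
    (hz : z ∈ cyc0 Ω (Pl A B)) : z ∈ GG k Ω A B := by
  have hcl : IsAlgClosed Ω := IsAlgClosure.isAlgClosed k
  obtain ⟨hzc, hz0⟩ := AddSubgroup.mem_inf.1 hz
  rw [AddMonoidHom.mem_ker] at hz0
  by_cases hodd : ∃ (K : IntermediateField k Ω) (_ : FiniteDimensional k K) (R : ℙ K (Fin n → K)),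
      Odd (Module.finrank k K) ∧ Zer (Pl A B) K R.rep
  · obtain ⟨K, hK, R, hKodd, hR⟩ := hodd
    have key : ∀ w ∈ cyc Ω (Pl A B), ∃ c d : ℤ, deg Ω w = c + 2 * d ∧
        w - c • trPt k Ω R ∈ GG k Ω A B := by
      intro w hw
      refine AddSubgroup.closure_induction (p := fun w _ => ∃ c d : ℤ, deg Ω w =
        c + 2 * d ∧ w - c • trPt k Ω R ∈ GG k Ω A B)
        ?_ ?_ ?_ ?_ (mem_closure_tr genr_hom w hw)
      · rintro t ⟨M, hM, y, hy, rfl⟩
        rcases Nat.even_or_odd (Module.finrank k M) with he | ho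
        · have h1 := g_even (Ω := Ω) hs hn he.two_dvd y.rep_nonzero hy
          rw [Projectivization.mk_rep] at h1
          obtain ⟨d, hd⟩ := he
          refine ⟨0, d, ?_, ?_⟩
          · rw [deg_trPt, hd]
            push_cast
            ring
          · rw [zero_smul, sub_zero]
            exact h1
        · have h1 := g_odd (Ω := Ω) hs hn ho hKodd y.rep_nonzero hy R.rep_nonzero hR
          rw [Projectivization.mk_rep, Projectivization.mk_rep] at h1
          obtain ⟨d, hd⟩ := ho
          refine ⟨1, d, ?_, ?_⟩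
          · rw [deg_trPt, hd]
            push_cast
            ring
          · rw [one_smul]
            exact h1
      · exact ⟨0, 0, by simp, by simp⟩
      · rintro a b _ _ ⟨c, d, h1, h2⟩ ⟨c', d', h1', h2'⟩
        refine ⟨c + c', d + d', by rw [map_add, h1, h1']; ring, ?_⟩
        have h3 := add_mem h2 h2'
        rw [add_smul]
        convert h3 using 1
        abel
      · rintro a _ ⟨c, d, h1, h2⟩
        refine ⟨-c, -d, by rw [map_neg, h1]; ring, ?_⟩
        have h3 := neg_mem h2
        rw [neg_smul]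
        convert h3 using 1
        abel
    obtain ⟨c, d, h1, h2⟩ := key z hzc
    rw [hz0] at h1
    have h3 := g1 (Ω := Ω) hs hn R.rep_nonzero hR
    rw [Projectivization.mk_rep] at h3
    have h4 := sub_mem h2 (zsmul_mem h3 d)
    have h5 : z - c • trPt k Ω R - d • ((2 : ℤ) • trPt k Ω R) = z := by
      have h6 : c = - (2 * d) := by linarith
      rw [h6]
      module
    rwa [h5] at h4
  · push Not at hodd
    refine AddSubgroup.closure_induction (p := fun w _ => w ∈ GG k Ω A B)
      ?_ ?_ ?_ ?_ (mem_closure_tr genr_hom z hzc)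
    · rintro t ⟨M, hM, y, hy, rfl⟩
      rcases Nat.even_or_odd (Module.finrank k M) with he | ho
      · have h1 := g_even (Ω := Ω) hs hn he.two_dvd y.rep_nonzero hy
        rw [Projectivization.mk_rep] at h1
        exact h1
      · exact absurd hy (hodd M hM y ho)
    · exact zero_mem _
    · exact fun a b _ _ h1 h2 => add_mem h1 h2
    · exact fun a _ h1 => neg_mem h1

end Dq
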