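import Pool.Agent.Lib.MP_f80667_ag.Dq.AtomO

/-! The class of a datum is locally constant. -/

open Polynomial IntermediateField Filter Topology
open scoped LinearAlgebra.Projectivization

namespace Dq

open ZC Tq Dp

universe u

section roots

variable {k Ω : Type u} [Field k] [CharZero k] [NormedField Ω] [Algebra k Ω] [IsAlgClosure k Ω]

private theorem NearP_exists_pos_le {ι : Type*} (T : Finset ι) (f : ι → ℝ) (hf : ∀ t ∈ T, 0 < f t) :
    ∃ ρ > 0, ∀ t ∈ T, ρ ≤ f t := by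
  classical
  induction T using Finset.induction_on with
  | empty => exact ⟨1, one_pos, by simp⟩
  | insert a T ha ih =>
    obtain ⟨ρ, h1, h2⟩ := ih (fun t ht => hf t (Finset.mem_insert_of_mem ht))
    refine ⟨min ρ (f a), lt_min h1 (hf a (Finset.mem_insert_self _ _)), fun t ht => ?_⟩
    rcases Finset.mem_insert.1 ht with rfl | ht
    · exact min_le_right _ _
    · exact (min_le_left _ _).trans (h2 t ht)

/-- The combinatorial core: for `P` near `P₀`, the roots of `P` correspond to those of `P₀`. -/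
private theorem NearP_core {N : ℕ} (P₀ : k[X]) (h0 : P₀.Monic) (hN : P₀.natDegree = N)
    (hsep : P₀.Separable) {ε : ℝ} (hε : 0 < ε) : ∃ ε' > 0, ε' ≤ ε ∧
    (∀ y z : Ω, aeval y P₀ = 0 → aeval z P₀ = 0 → ‖y - z‖ < 2 * ε' → y = z) ∧
    ∃ δ > 0, ∀ P : k[X], P.Monic → P.natDegree = N →
      (∀ i, ‖algebraMap k Ω (P.coeff i - P₀.coeff i)‖ < δ) →
      ∃ r : Ω → Ω, (∀ y, aeval y P₀ = 0 → aeval (r y) P = 0 ∧ ‖r y - y‖ < ε') ∧
        ∀ x', aeval x' P = 0 → ∃ y, aeval y P₀ = 0 ∧ r y = x' := by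
  classical
  have : IsAlgClosed Ω := IsAlgClosure.isAlgClosed k
  have hne0 : P₀ ≠ 0 := h0.ne_zero
  set R : Finset Ω := (P₀.aroots Ω).toFinset with hR
  have hmem : ∀ y, y ∈ R ↔ aeval y P₀ = 0 := by
    intro y
    rw [hR, Multiset.mem_toFinset, mem_aroots]
    exact ⟨fun h => h.2, fun h => ⟨hne0, h⟩⟩
  have hcardR : R.card = N := by
    have hnd : (P₀.aroots Ω).Nodup := nodup_roots (hsep.map)
    rw [hR, Multiset.toFinset_card_of_nodup hnd, ← hN, ← h0.natDegree_map (algebraMap k Ω)]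
    exact (IsAlgClosed.splits (P₀.map (algebraMap k Ω))).natDegree_eq_card_roots.symm
  obtain ⟨ρ, hρ, hρle⟩ := NearP_exists_pos_le R.offDiag (fun t => ‖t.1 - t.2‖) (by
    rintro ⟨a, b⟩ hab
    rw [Finset.mem_offDiag] at hab
    exact norm_pos_iff.2 (sub_ne_zero.2 hab.2.2))
  set ε' : ℝ := min ε (ρ / 2) with hε'
  have hε'0 : 0 < ε' := lt_min hε (by linarith)
  have hsepR : ∀ y z : Ω, aeval y P₀ = 0 → aeval z P₀ = 0 → ‖y - z‖ < 2 * ε' → y = z := by
    intro y z hy hz hyz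
    by_contra hne
    have h1 := hρle (y, z) (Finset.mem_offDiag.2 ⟨(hmem y).2 hy, (hmem z).2 hz, hne⟩)
    have h2 : ε' ≤ ρ / 2 := min_le_right _ _
    simp only at h1
    linarith
  refine ⟨ε', hε'0, min_le_left _ _, hsepR, ?_⟩
  have hch : ∀ y : Ω, ∃ δ > 0, aeval y P₀ = 0 → ∀ P : k[X], P.Monic → P.natDegree = N →
      (∀ i, ‖algebraMap k Ω (P.coeff i - P₀.coeff i)‖ < δ) →
      ∃ x' : Ω, aeval x' P = 0 ∧ ‖x' - y‖ < ε' := by
    intro y
    by_cases hy : aeval y P₀ = 0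
    · obtain ⟨δ, h1, h2⟩ := root_near_aux P₀ h0 hN hy hε'0
      exact ⟨δ, h1, fun _ => h2⟩
    · exact ⟨1, one_pos, fun h => absurd h hy⟩
  choose D hD hD2 using hch
  obtain ⟨δ, hδ, hδle⟩ := NearP_exists_pos_le R D (fun t _ => hD t)
  refine ⟨δ, hδ, fun P hP hPN hco => ?_⟩
  have hr : ∀ y : Ω, ∃ x' : Ω, aeval y P₀ = 0 → aeval x' P = 0 ∧ ‖x' - y‖ < ε' := by
    intro y
    by_cases hy : aeval y P₀ = 0
    · obtain ⟨x', h1, h2⟩ := hD2 y hy P hP hPN
        (fun i => lt_of_lt_of_le (hco i) (hδle y ((hmem y).2 hy)))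
      exact ⟨x', fun _ => ⟨h1, h2⟩⟩
    · exact ⟨0, fun h => absurd h hy⟩
  choose r hr using hr
  refine ⟨r, hr, fun x' hx' => ?_⟩
  have hinj : Set.InjOn r R := by
    intro y hy z hz hyz
    have hy' := hr y ((hmem y).1 hy)
    have hz' := hr z ((hmem z).1 hz)
    refine hsepR y z ((hmem y).1 hy) ((hmem z).1 hz) ?_
    rw [← hyz] at hz'
    have h1 : ‖y - z‖ ≤ ‖r y - y‖ + ‖r y - z‖ := by
      rw [norm_sub_rev (r y) y]
      have := norm_add_le (y - r y) (r y - z)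
      simpa using this
    linarith [hy'.2, hz'.2]
  have hsub : R.image r ⊆ (P.aroots Ω).toFinset := by
    intro w hw
    obtain ⟨y, hy, rfl⟩ := Finset.mem_image.1 hw
    rw [Multiset.mem_toFinset, mem_aroots]
    exact ⟨hP.ne_zero, (hr y ((hmem y).1 hy)).1⟩
  have hcard : (P.aroots Ω).toFinset.card ≤ (R.image r).card := by
    rw [Finset.card_image_of_injOn hinj, hcardR]
    refine (Multiset.toFinset_card_le _).trans ?_
    rw [← hPN, ← hP.natDegree_map (algebraMap k Ω)]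
    exact card_roots' _
  have heq := Finset.eq_of_subset_of_card_le hsub hcard
  have hxm : x' ∈ R.image r := by
    rw [heq, Multiset.mem_toFinset, mem_aroots]
    exact ⟨hP.ne_zero, hx'⟩
  obtain ⟨y, hy, hyx⟩ := Finset.mem_image.1 hxm
  exact ⟨y, (hmem y).1 hy, hyx⟩

/-- The roots of `P` and of `P₀` generate the same fields. -/
theorem NearP_fields (h : Lc k Ω) (P₀ : k[X]) (h0 : P₀.Monic)
    (hsep : P₀.Separable) {ε : ℝ} (hε : 0 < ε) : ∃ δ > 0, ∀ P : k[X], P.Monic →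
      P.natDegree = P₀.natDegree →
      (∀ i, ‖algebraMap k Ω (P.coeff i - P₀.coeff i)‖ < δ) →
      ∀ y : Ω, aeval y P = 0 → ∃ x' : Ω, aeval x' P₀ = 0 ∧ ‖y - x'‖ < ε ∧ k⟮y⟯ = k⟮x'⟯ := by
  obtain ⟨ε', hε', hle, hsepR, δ, hδ, hall⟩ := NearP_core (Ω := Ω) P₀ h0 rfl hsep hε
  refine ⟨δ, hδ, fun P hP hPN hco y hy => ?_⟩
  obtain ⟨r, hr, hsur⟩ := hall P hP hPN hco
  obtain ⟨x', hx', hxy⟩ := hsur y hy
  have hyx : ‖y - x'‖ < ε' := by
    rw [← hxy]
    exact (hr x' hx').2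
  have : Normal k Ω := IsAlgClosure.normal k Ω
  have : Algebra.IsAlgebraic k Ω := IsAlgClosure.isAlgebraic
  have : IsGalois k Ω := IsGalois.mk
  refine ⟨x', hx', lt_of_lt_of_le hyx hle, ?_⟩
  have hroot : ∀ (s : Ω ≃ₐ[k] Ω) (w : Ω) (Q : k[X]), aeval w Q = 0 → aeval (s w) Q = 0 := by
    intro s w Q hw
    have h7 := aeval_algHom_apply s.toAlgHom w Q
    rw [hw, map_zero] at h7
    exact h7
  apply le_antisymm
  · rw [IntermediateField.adjoin_simple_le_iff,
      ← InfiniteGalois.fixedField_fixingSubgroup k⟮x'⟯, IntermediateField.mem_fixedField_iff]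
    intro s hs
    have hsx : s x' = x' := by
      rw [IntermediateField.mem_fixingSubgroup_iff] at hs
      exact hs x' (IntermediateField.mem_adjoin_simple_self k x')
    obtain ⟨z, hz, hzx⟩ := hsur _ (hroot s y P hy)
    have h2 : ‖s y - x'‖ < ε' := by
      have h3 : s y - x' = s (y - x') := by rw [map_sub, hsx]
      rw [h3, h.inv]
      exact hyx
    have h4 : ‖s y - z‖ < ε' := by
      rw [← hzx]
      exact (hr z hz).2
    have h5 : z = x' := by
      refine hsepR z x' hz hx' ?_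
      have h6 : z - x' = (s y - x') - (s y - z) := by ring
      rw [h6]
      exact lt_of_le_of_lt (norm_sub_le _ _) (by linarith)
    rw [← hzx, h5, hxy]
  · rw [IntermediateField.adjoin_simple_le_iff,
      ← InfiniteGalois.fixedField_fixingSubgroup k⟮y⟯, IntermediateField.mem_fixedField_iff]
    intro s hs
    have hsy : s y = y := by
      rw [IntermediateField.mem_fixingSubgroup_iff] at hs
      exact hs y (IntermediateField.mem_adjoin_simple_self k y)
    refine hsepR (s x') x' (hroot s x' P₀ hx') hx' ?_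
    have h2 : ‖y - s x'‖ < ε' := by
      have h3 : y - s x' = s (y - x') := by rw [map_sub, hsy]
      rw [h3, h.inv]
      exact hyx
    have h6 : s x' - x' = (y - x') - (y - s x') := by ring
    rw [h6]
    exact lt_of_le_of_lt (norm_sub_le _ _) (by linarith)

end roots

variable {k : Type u} [Field k] [CharZero k] {Ω : Type u} [NormedField Ω] [Algebra k Ω]
  [IsAlgClosure k Ω] {n : ℕ} {A B : Matrix (Fin n) (Fin n) k}

/-- One root. Proof: `line_near` for `K = k⟮x⟯`, the filter `comap (fun y : K => (y : Ω)) (𝓝 x)`,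
`a' = 1`, `b' y = -y`; `mem_line` for another line on the same member; the case that `y` generates a
smaller field does not matter here (`IsM` and `ND` are over `K`). -/
theorem one_near (h : Lc k Ω) (hs : Sm Ω A B) (hn : 5 ≤ n) {x : Ω}
    {t : ℙ k⟮x⟯ (Fin (n * n) → k⟮x⟯)} (ht : Root A B x t) : ∃ ε > 0, ∀ y : k⟮x⟯,
      ‖(y : Ω) - x‖ < ε → ND A B (1 : k⟮x⟯) (-y) ∧ (∃ t', IsM A B 1 (-y) t') ∧
        ∀ t' : ℙ k⟮x⟯ (Fin (n * n) → k⟮x⟯), IsM A B 1 (-y) t' →
          PhL (trPt k Ω t') - PhL (trPt k Ω t) ∈ ratEq Ω (Pl A B) := by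
  have : IsAlgClosed Ω := IsAlgClosure.isAlgClosed k
  have hgen : ((AdjoinSimple.gen k x : k⟮x⟯) : Ω) = x := AdjoinSimple.coe_gen k x
  have hb : Tendsto (fun y : k⟮x⟯ => ((-y : k⟮x⟯) : Ω))
      (comap (fun y : k⟮x⟯ => (y : Ω)) (𝓝 x)) (𝓝 ((-AdjoinSimple.gen k x : k⟮x⟯) : Ω)) := by
    have e1 : ((-AdjoinSimple.gen k x : k⟮x⟯) : Ω) = -x := by
      rw [IntermediateField.coe_neg, hgen]
    rw [e1]
    have h2 : Tendsto (fun y : k⟮x⟯ => (y : Ω)) (comap (fun y : k⟮x⟯ => (y : Ω)) (𝓝 x)) (𝓝 x) :=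
      tendsto_comap
    exact h2.neg
  have ha : Tendsto (fun _ : k⟮x⟯ => ((1 : k⟮x⟯) : Ω))
      (comap (fun y : k⟮x⟯ => (y : Ω)) (𝓝 x)) (𝓝 ((1 : k⟮x⟯) : Ω)) := tendsto_const_nhds
  have h1 := line_near h hs hn k⟮x⟯ ht.2 ht.1 (a' := fun _ => 1) (b' := fun y => -y) ha hb
  rw [eventually_comap, Metric.eventually_nhds_iff] at h1
  obtain ⟨ε, hε, h2⟩ := h1
  refine ⟨ε, hε, fun y hy => ?_⟩
  obtain ⟨h3, t₁, h4, h5⟩ := h2 (y := (y : Ω)) (by rw [dist_eq_norm]; exact hy) y rfl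
  refine ⟨h3, ⟨t₁, h4⟩, fun t' ht' => ?_⟩
  have h6 := mem_line hs (by omega) (Or.inl one_ne_zero) ht' h4
  have h7 := add_mem h6 h5
  rwa [sub_add_sub_cancel] at h7

/-- **Existence of lines for near polynomials.** Proof. Let `ε` be smaller than the `ε` of `one_near`
for all `j` and than a third of the minimal distance of two roots of `P₀`; `δ` from `root_near`,
`root_near'`. Let `y` be a root of `P` in `Ω`, near the root `x'` of `P₀`; `x'` is a conjugate of some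
`x j`, `x' = s (x j)` for an automorphism `s` of `Ω` over `k` (same minimal polynomial; `Ω` is normal),
and `s⁻¹ y` is near `x j` (`h.inv`). The root `y'` of `P` in `k⟮x j⟯` near `x j` is `s⁻¹ y` (unique root
of `P` near `x j`). So `s⁻¹ y ∈ k⟮x j⟯`, and the member `(1, -s⁻¹ y)` has a line over `k⟮x j⟯`; apply
`s`: the member `(1, -y)` has a line over `k⟮x'⟯`; and `k⟮y⟯ = k⟮x'⟯` (`y ∈ k⟮x'⟯`; the other
inclusion: an automorphism which fixes `y` fixes `x'`, the only root of `P₀` near `y`). -/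
theorem dat_lines (h : Lc k Ω) (hs : Sm Ω A B) (hn : 5 ≤ n) {P₀ : k[X]}
    {z : ℙ Ω (Fin n → Ω) →₀ ℤ} (hD : Dat A B P₀ z) : ∃ δ > 0, ∀ P : k[X], P.Monic →
      P.natDegree = P₀.natDegree →
      (∀ i, ‖algebraMap k Ω (P.coeff i - P₀.coeff i)‖ < δ) →
      ∀ y : Ω, aeval y P = 0 → ∃ t, Root A B y t := by
  classical
  have hmon := hD.monic
  have hsep := hD.separable
  obtain ⟨m, x, t, -, hP₀, hR, -⟩ := hD
  have : Normal k Ω := IsAlgClosure.normal k Ω
  have : Algebra.IsAlgebraic k Ω := IsAlgClosure.isAlgebraic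
  choose e he hone using fun j => one_near h hs hn (hR j)
  obtain ⟨ε, hε, hεle⟩ := NearP_exists_pos_le Finset.univ e (fun j _ => he j)
  obtain ⟨δ, hδ, hall⟩ := NearP_fields h P₀ hmon hsep hε
  refine ⟨δ, hδ, fun P hP hPN hco y hy => ?_⟩
  obtain ⟨x', hx', hyx, hfield⟩ := hall P hP hPN hco y hy
  -- `x'` is a conjugate of some `x j`
  obtain ⟨j, hj⟩ : ∃ j, aeval x' (minpoly k (x j)) = 0 := by
    rw [hP₀, map_prod, Finset.prod_eq_zero_iff] at hx'
    obtain ⟨j, -, hj⟩ := hx'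
    exact ⟨j, hj⟩
  obtain ⟨s, hsx⟩ : ∃ s : Ω ≃ₐ[k] Ω, s (x j) = x' :=
    minpoly.exists_algEquiv_of_root' (Algebra.IsAlgebraic.isAlgebraic (x j)) hj
  -- the map from `k⟮x j⟯` to `k⟮y⟯`
  have hmem : ∀ w : Ω, w ∈ k⟮x j⟯ ↔ s w ∈ k⟮y⟯ := by
    intro w
    have h1 : k⟮x'⟯ = k⟮x j⟯.map s.toAlgHom := by
      rw [IntermediateField.adjoin_map, Set.image_singleton]
      change k⟮x'⟯ = k⟮s (x j)⟯
      rw [hsx]
    rw [hfield, h1]
    constructor
    · intro hw
      exact ⟨w, hw, rfl⟩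
    · rintro ⟨w', hw', h2⟩
      have h3 : w' = w := s.injective h2
      rwa [← h3]
  let f : k⟮x j⟯ →ₐ[k] k⟮y⟯ :=
    { toFun := fun w => ⟨s w, (hmem w).1 w.2⟩
      map_one' := Subtype.ext (map_one s)
      map_mul' := fun a b => Subtype.ext (map_mul s _ _)
      map_zero' := Subtype.ext (map_zero s)
      map_add' := fun a b => Subtype.ext (map_add s _ _)
      commutes' := fun c => Subtype.ext (s.commutes c) }
  have hy₁ : s.symm y ∈ k⟮x j⟯ := by
    rw [hmem, s.apply_symm_apply]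
    exact IntermediateField.mem_adjoin_simple_self k y
  have hnear : ‖s.symm y - x j‖ < e j := by
    have h1 : s.symm y - x j = s.symm (y - x') := by
      rw [map_sub, ← hsx, s.symm_apply_apply]
    rw [h1, h.inv]
    exact lt_of_lt_of_le hyx (hεle j (Finset.mem_univ j))
  obtain ⟨hnd, ⟨t', ht'⟩, -⟩ := hone j ⟨s.symm y, hy₁⟩ hnear
  have hf1 : f (-(⟨s.symm y, hy₁⟩ : k⟮x j⟯)) = -AdjoinSimple.gen k y := by
    rw [map_neg]
    congr 1
    apply Subtype.ext
    rw [AdjoinSimple.coe_gen]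
    exact s.apply_symm_apply y
  refine ⟨mapPt (f : k⟮x j⟯ →+* k⟮y⟯) t', ?_, ?_⟩
  · have h1 := ht'.hom f
    rwa [map_one, hf1] at h1
  · have h1 := (ND.hom f (A := A) (B := B)).2 hnd
    rwa [map_one, hf1] at h1

end Dq
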