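import Pool.Agent.Lib.MP_f80667_ag.Dp.RepA
import Pool.Agent.Lib.MP_f80667_ag.Dq.AtomO
import Pool.Agent.Lib.MP_f80667_ag.Dq.Genr
import Pool.Agent.Lib.MP_f80667_ag.Dz.Main

/-! Every zero-cycle of degree `0` is a difference of two data of the same degree. -/

open Polynomial IntermediateField
open scoped LinearAlgebra.Projectivization

namespace Dq

open ZC Tq Dp

universe u

variable {k : Type u} [Field k] [CharZero k] {Ω : Type u} [NormedField Ω] [Algebra k Ω]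
  [IsAlgClosure k Ω] {n : ℕ} {A B : Matrix (Fin n) (Fin n) k}

/-- A combination of classes is a difference of two data; moreover if there is no atom of odd degree
then both degrees are even. Proof: `AddSubgroup.closure_induction` (or the description of
`GG` as a sup, `AddSubgroup.mem_sup`) for the property: `z` is, modulo `ratEq`, a difference of two
data; sums: the sum of two data is a datum after moving the roots, so use the form: there are finite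
lists of atoms `l₁`, `l₂` with `z ~ (sum of l₁) - (sum of l₂)`. Then `Dat.add` for each list. -/
theorem exists_dat (h : Lc k Ω) (hs : Sm Ω A B) (hn : 5 ≤ n) (z : ℙ Ω (Fin n → Ω) →₀ ℤ)
    (hz : z ∈ GG k Ω A B) : ∃ (l₁ l₂ : List (ℕ × (ℙ Ω (Fin n → Ω) →₀ ℤ))),
      (∀ a ∈ l₁, Atom A B a.1 a.2) ∧ (∀ a ∈ l₂, Atom A B a.1 a.2) ∧
      z - ((l₁.map Prod.snd).sum - (l₂.map Prod.snd).sum) ∈ ratEq Ω (Pl A B) := by
  obtain ⟨y, hy, r, hr, hyr⟩ := AddSubgroup.mem_sup.1 hz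
  have key : ∃ (l₁ l₂ : List (ℕ × (ℙ Ω (Fin n → Ω) →₀ ℤ))),
      (∀ a ∈ l₁, Atom A B a.1 a.2) ∧ (∀ a ∈ l₂, Atom A B a.1 a.2) ∧
      y = (l₁.map Prod.snd).sum - (l₂.map Prod.snd).sum := by
    refine AddSubgroup.closure_induction (p := fun y _ =>
      ∃ (l₁ l₂ : List (ℕ × (ℙ Ω (Fin n → Ω) →₀ ℤ))),
      (∀ a ∈ l₁, Atom A B a.1 a.2) ∧ (∀ a ∈ l₂, Atom A B a.1 a.2) ∧
      y = (l₁.map Prod.snd).sum - (l₂.map Prod.snd).sum) ?_ ?_ ?_ ?_ hy
    · rintro w ⟨M, _, _, _, a, b, t, ht, hnd, rfl⟩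
      refine ⟨[(Module.finrank k M, PhL (trPt k Ω t))], [], ?_, by simp, by simp⟩
      intro c hc
      rw [List.mem_singleton] at hc
      subst hc
      exact atom_of h hs hn hnd ht
    · exact ⟨[], [], by simp, by simp, by simp⟩
    · rintro a b _ _ ⟨l₁, l₂, h1, h2, h3⟩ ⟨l₁', l₂', h1', h2', h3'⟩
      refine ⟨l₁ ++ l₁', l₂ ++ l₂', ?_, ?_, ?_⟩
      · intro c hc
        rcases List.mem_append.1 hc with hc | hc
        · exact h1 c hc
        · exact h1' c hc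
      · intro c hc
        rcases List.mem_append.1 hc with hc | hc
        · exact h2 c hc
        · exact h2' c hc
      · rw [h3, h3', List.map_append, List.map_append, List.sum_append, List.sum_append]
        abel
    · rintro a _ ⟨l₁, l₂, h1, h2, h3⟩
      exact ⟨l₂, l₁, h2, h1, by rw [h3]; abel⟩
  obtain ⟨l₁, l₂, h1, h2, h3⟩ := key
  refine ⟨l₁, l₂, h1, h2, ?_⟩
  rw [← h3, ← hyr]
  simpa using hr

/-- **Representation.** Proof: `generation`, `exists_dat`: `z ~ z₁ - z₂` with lists of atoms of total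
degrees `N₁`, `N₂`, and `N₁ = N₂` since `deg z = 0` (`Dat.deg`; `ratEq` has degree `0`). If `N₁` is
even let `N₀ = N₁`; if `N₁` is odd, some atom of `l₁` has odd degree `d`; add it to both lists,
`N₀ = N₁ + d`. For even `N ≥ N₀` add `(N - N₀) / 2` times the atom of degree `2` to both. -/
theorem exists_rep (h : Lc k Ω) (hs : Sm Ω A B) (hn : 5 ≤ n) {z₀ : ℙ Ω (Fin n → Ω) →₀ ℤ}
    (h2 : Atom A B 2 z₀) (z : ℙ Ω (Fin n → Ω) →₀ ℤ) (hz : z ∈ cyc0 Ω (Pl A B)) :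
    ∃ N₀ : ℕ, ∀ N, N₀ ≤ N → Even N → ∃ (P₁ P₂ : k[X]) (z₁ z₂ : ℙ Ω (Fin n → Ω) →₀ ℤ),
      P₁.natDegree = N ∧ P₂.natDegree = N ∧ Dat A B P₁ z₁ ∧ Dat A B P₂ z₂ ∧
      z - (z₁ - z₂) ∈ ratEq Ω (Pl A B) := by
  have hcl : IsAlgClosed Ω := IsAlgClosure.isAlgClosed k
  obtain ⟨l₁, l₂, h1, h3, h5⟩ := exists_dat h hs hn z (generation hs hn z hz)
  obtain ⟨Q₁, hQ1, hD1⟩ := dat_list l₁ h1
  obtain ⟨Q₂, hQ2, hD2⟩ := dat_list l₂ h3
  have hz0 : deg Ω z = 0 := (AddSubgroup.mem_inf.1 hz).2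
  have h6 : deg Ω (z - ((l₁.map Prod.snd).sum - (l₂.map Prod.snd).sum)) = 0 :=
    Dz.ratEq_le_deg (Pl A B) h5
  rw [map_sub, map_sub, hz0, hD1.deg, hD2.deg] at h6
  have hN : Q₂.natDegree = Q₁.natDegree := by
    have h7 : (Q₂.natDegree : ℤ) = Q₁.natDegree := by linarith
    exact_mod_cast h7
  -- the end, from two data of the same even degree
  have fin : ∀ (R₁ R₂ : k[X]) (s₁ s₂ : ℙ Ω (Fin n → Ω) →₀ ℤ), Even R₁.natDegree →
      R₂.natDegree = R₁.natDegree → Dat A B R₁ s₁ → Dat A B R₂ s₂ →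
      z - (s₁ - s₂) ∈ ratEq Ω (Pl A B) →
      ∃ N₀ : ℕ, ∀ N, N₀ ≤ N → Even N → ∃ (P₁ P₂ : k[X]) (z₁ z₂ : ℙ Ω (Fin n → Ω) →₀ ℤ),
        P₁.natDegree = N ∧ P₂.natDegree = N ∧ Dat A B P₁ z₁ ∧ Dat A B P₂ z₂ ∧
        z - (z₁ - z₂) ∈ ratEq Ω (Pl A B) := by
    intro R₁ R₂ s₁ s₂ he hR d1 d2 hr
    refine ⟨R₁.natDegree, fun N hN1 hN2 => ?_⟩
    obtain ⟨m, hm⟩ : ∃ m, N = R₁.natDegree + m * 2 := by
      obtain ⟨c, hc⟩ := he
      obtain ⟨e, he⟩ := hN2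
      exact ⟨e - c, by omega⟩
    obtain ⟨P₁, e1, f1⟩ := d1.add_nsmul h2 m
    obtain ⟨P₂, e2, f2⟩ := d2.add_nsmul h2 m
    refine ⟨P₁, P₂, s₁ + m • z₀, s₂ + m • z₀, by rw [e1, hm], by rw [e2, hm, hR], f1, f2, ?_⟩
    rwa [add_sub_add_right_eq_sub]
  rcases Nat.even_or_odd Q₁.natDegree with he | ho
  · exact fin Q₁ Q₂ _ _ he hN hD1 hD2 h5
  · have ho' := ho
    rw [hQ1] at ho'
    obtain ⟨a, ha, hao⟩ := exists_odd l₁ ho'
    obtain ⟨R₁, e1, f1⟩ := hD1.add (h1 a ha)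
    obtain ⟨R₂, e2, f2⟩ := hD2.add (h1 a ha)
    refine fin R₁ R₂ _ _ ?_ ?_ f1 f2 ?_
    · rw [e1]
      exact ho.add_odd hao
    · rw [e1, e2, hN]
    · rwa [add_sub_add_right_eq_sub]

end Dq
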