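import Pool.Agent.Lib.MP_f80667_ag.Dp.Nu
import Pool.Agent.Lib.MP_f80667_ag.Dq.NearQ
import Pool.Agent.Lib.MP_f80667_ag.Dq.RepA

/-! The local theorems in terms of an absolute value. -/

open Polynomial IntermediateField
open scoped LinearAlgebra.Projectivization

namespace Dq

open ZC Tq Dp

universe u

variable {k : Type u} [Field k] {Ω : Type u} [Field Ω] [Algebra k Ω] {ν : AbsoluteValue Ω ℝ}

variable [CharZero k] [IsAlgClosure k Ω] {n : ℕ} {A B : Matrix (Fin n) (Fin n) k}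

theorem lcv_rep (h : LcV k Ω ν) (hs : Sm Ω A B) (hn : 5 ≤ n)
    {z₀ : ℙ Ω (Fin n → Ω) →₀ ℤ} (h2 : Atom A B 2 z₀) (z : ℙ Ω (Fin n → Ω) →₀ ℤ)
    (hz : z ∈ cyc0 Ω (Pl A B)) :
    ∃ N₀ : ℕ, ∀ N, N₀ ≤ N → Even N → ∃ (P₁ P₂ : k[X]) (z₁ z₂ : ℙ Ω (Fin n → Ω) →₀ ℤ),
      P₁.natDegree = N ∧ P₂.natDegree = N ∧ Dat A B P₁ z₁ ∧ Dat A B P₂ z₂ ∧
      z - (z₁ - z₂) ∈ ratEq Ω (Pl A B) :=
  letI : NormedField Ω := ν.toNormedField
  Dq.exists_rep h.lc hs hn h2 z hz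

theorem lcv_atom (h : LcV k Ω ν) (hs : Sm Ω A B) (hn : 5 ≤ n) {M : Type u} [Field M]
    [Algebra k M] [FiniteDimensional k M] {a b : M} (hnd : ND A B a b)
    {t : ℙ M (Fin (n * n) → M)} (ht : IsM A B a b t) :
    Atom A B (Module.finrank k M) (PhL (trPt k Ω t)) :=
  letI : NormedField Ω := ν.toNormedField
  Dq.atom_of h.lc hs hn hnd ht

theorem lcv_lines (h : LcV k Ω ν) (hs : Sm Ω A B) (hn : 5 ≤ n) {P₀ : k[X]}
    {z : ℙ Ω (Fin n → Ω) →₀ ℤ} (hD : Dat A B P₀ z) : ∃ δ > 0, ∀ P : k[X], P.Monic →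
      P.natDegree = P₀.natDegree →
      (∀ i, ν (algebraMap k Ω (P.coeff i - P₀.coeff i)) < δ) →
      ∀ y : Ω, aeval y P = 0 → ∃ t, Root A B y t :=
  letI : NormedField Ω := ν.toNormedField
  Dq.dat_lines h.lc hs hn hD

theorem lcv_class (h : LcV k Ω ν) (hs : Sm Ω A B) (hn : 5 ≤ n) {P₀ : k[X]}
    {z : ℙ Ω (Fin n → Ω) →₀ ℤ} (hD : Dat A B P₀ z) : ∃ δ > 0, ∀ P : k[X], P.Monic →
      P.natDegree = P₀.natDegree →
      (∀ i, ν (algebraMap k Ω (P.coeff i - P₀.coeff i)) < δ) →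
      ∀ (F : Type u) [Field F] [Algebra F k] [Algebra F Ω] [IsScalarTower F k Ω] (M : Type u)
        [Field M] [Algebra F M] [FiniteDimensional F M] (α : M), F⟮α⟯ = ⊤ →
        (minpoly F α).map (algebraMap F k) = P → ∀ (A₀ B₀ : Matrix (Fin n) (Fin n) F),
        A = A₀.map (algebraMap F k) → B = B₀.map (algebraMap F k) →
        ∀ t : ℙ M (Fin (n * n) → M), IsM A₀ B₀ 1 (-α) t →
          ∑ s : M →ₐ[F] Ω, Ph (mapPt (s : M →+* Ω) t) - z ∈ ratEq Ω (Pl A B) :=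
  letI : NormedField Ω := ν.toNormedField
  Dq.dat_class h.lc hs hn hD

end Dq
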