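import Pool.Agent.Lib.MP_f80667_ag.Dq.PlA
import Pool.Agent.Lib.MP_f80667_ag.Dp.Hm6B

/-! Hasse principle for totally isotropic planes in five variables. -/

open NumberField IsDedekindDomain

namespace Dq

open ZC Dp

/-- The Hasse principle for ternary forms. Proof: `Hm.norm_thm` for `b = - (a 0 * a 1)`,
`c = - (a 0 * a 2)`: at the finite places the form `![a 0, a 1, a 2, a 0 * a 1 * a 2]` is near isotropic
(extend by `0`), so `Hm.mem_LNm_of_NI` (with the order of the variables changed) gives `c ∈ LNm v b`; at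
the real places where `b < 0` the signs of `a 0`, `a 1` agree, so `a 2` has the other sign. If
`c = x ^ 2 - b y ^ 2` then `a 0 x' ^ 2 + a 1 y ^ 2 + a 2 = 0` with `x' = x / a 0`. -/
theorem tern {K : Type} [Field K] [NumberField K] (a : Fin 3 → Kˣ)
    (h : ∀ v : HeightOneSpectrum (𝓞 K), Hm.NI v a)
    (hR : ∀ φ : K →+* ℝ, (∃ i, 0 < φ (a i)) ∧ ∃ i, φ (a i) < 0) :
    ∃ x : Fin 3 → K, x ≠ 0 ∧ ∑ i, (a i : K) * x i ^ 2 = 0 := by
  have h1 : ∀ v : HeightOneSpectrum (𝓞 K), -(a 0 * a 2) ∈ Hm.LNm v (-(a 0 * a 1)) := by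
    intro v
    refine Hm.mem_LNm_of_NI fun ε => ?_
    obtain ⟨x, hx1, ⟨i, hi⟩, hx3⟩ := h v ε
    refine ⟨![x 0, x 1, x 2, 0], fun j => ?_, ?_, ?_⟩
    · fin_cases j
      · exact hx1 0
      · exact hx1 1
      · exact hx1 2
      · simp
    · fin_cases i
      · exact ⟨0, hi⟩
      · exact ⟨1, hi⟩
      · exact ⟨2, hi⟩
    · have e : ∑ i, ((![a 0, a 1, a 2, a 0 * a 1 * a 2] : Fin 4 → Kˣ) i : K) *
          (![x 0, x 1, x 2, 0] : Fin 4 → K) i ^ 2 = ∑ i, (a i : K) * x i ^ 2 := by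
        rw [Fin.sum_univ_four, Fin.sum_univ_three]
        simp
      rw [e]
      exact hx3
  have h2 : ∀ φ : K →+* ℝ, φ ((-(a 0 * a 1) : Kˣ) : K) < 0 → 0 < φ ((-(a 0 * a 2) : Kˣ) : K) := by
    intro φ hφ
    obtain ⟨⟨i, hi⟩, j, hj⟩ := hR φ
    have e1 : φ ((-(a 0 * a 1) : Kˣ) : K) = -(φ (a 0 : K) * φ (a 1 : K)) := by
      rw [Units.val_neg, Units.val_mul, map_neg, map_mul]
    have e2 : φ ((-(a 0 * a 2) : Kˣ) : K) = -(φ (a 0 : K) * φ (a 2 : K)) := by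
      rw [Units.val_neg, Units.val_mul, map_neg, map_mul]
    rw [e1, neg_lt_zero] at hφ
    rw [e2, neg_pos]
    rcases pos_and_pos_or_neg_and_neg_of_mul_pos hφ with ⟨h3, h4⟩ | ⟨h3, h4⟩
    · have h5 : φ (a 2 : K) < 0 := by
        fin_cases j
        · exact absurd h3 (not_lt.2 (le_of_lt hj))
        · exact absurd h4 (not_lt.2 (le_of_lt hj))
        · exact hj
      exact mul_neg_of_pos_of_neg h3 h5
    · have h5 : 0 < φ (a 2 : K) := by
        fin_cases i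
        · exact absurd h3 (not_lt.2 (le_of_lt hi))
        · exact absurd h4 (not_lt.2 (le_of_lt hi))
        · exact hi
      exact mul_neg_of_neg_of_pos h3 h5
  obtain ⟨x, y, hxy⟩ := Hm.norm_thm _ _ h1 h2
  refine ⟨![x / a 0, y, 1], fun h3 => one_ne_zero (congrFun h3 2), ?_⟩
  have h0 : (a 0 : K) ≠ 0 := (a 0).ne_zero
  rw [Units.val_neg, Units.val_mul, Units.val_neg, Units.val_mul] at hxy
  rw [Fin.sum_univ_three]
  show (a 0 : K) * (x / a 0) ^ 2 + (a 1 : K) * y ^ 2 + (a 2 : K) * 1 ^ 2 = 0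
  field_simp
  linear_combination -hxy

/-- A real diagonal form with a zero is indefinite. -/
private theorem indef3 {b : Fin 3 → ℝ} (hb : ∀ i, b i ≠ 0) {v : Fin 3 → ℝ} (hv : v ≠ 0)
    (h : ∑ j, b j * v j ^ 2 = 0) : (∃ i, 0 < b i) ∧ ∃ i, b i < 0 := by
  constructor
  · by_contra hcon
    push Not at hcon
    apply hv
    funext i
    have h1 := (Finset.sum_eq_zero_iff_of_nonpos (fun j _ =>
      mul_nonpos_of_nonpos_of_nonneg (hcon j) (sq_nonneg (v j)))).1 h i (Finset.mem_univ i)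
    exact pow_eq_zero_iff (two_ne_zero) |>.1 ((mul_eq_zero.1 h1).resolve_left (hb i))
  · by_contra hcon
    push Not at hcon
    apply hv
    funext i
    have h1 := (Finset.sum_eq_zero_iff_of_nonneg (fun j _ =>
      mul_nonneg (hcon j) (sq_nonneg (v j)))).1 h i (Finset.mem_univ i)
    exact pow_eq_zero_iff (two_ne_zero) |>.1 ((mul_eq_zero.1 h1).resolve_left (hb i))

/-- **Hasse principle for totally isotropic planes in five variables.** The template is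
`Dp.ti2_global` (`Dp/Hm6B.lean`): a zero `p` by `Hm.isoM` (`m = 5`), `perp_diag5`, `zero_of_ti25`,
`tern`. -/
theorem ti2_global5 {K : Type} [Field K] [NumberField K] (G : Matrix (Fin 5) (Fin 5) K)
    (hnd : ∀ y : Fin 5 → K, y ≠ 0 → ∃ y' : Fin 5 → K, bv G y y' ≠ 0)
    (hw : ∀ w : HeightOneSpectrum (𝓞 K), TI2 (G.map (algebraMap K (w.adicCompletion K))))
    (hR : ∀ φ : K →+* ℝ, TI2 (G.map φ)) : TI2 G := by
  obtain ⟨p, hp, hp0'⟩ := Hm.isoM (m := 5) (by norm_num) G (fun φ => by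
    obtain ⟨x, y, hxy, hx, -, -⟩ := hR φ
    refine ⟨x, hxy.ne_zero 0, ?_⟩
    have h1 := qv_eq_dot (G.map φ) x
    rw [hx] at h1
    exact h1.symm)
  have hp0 : qv G p = 0 := (qv_eq_dot G p).trans hp0'
  obtain ⟨a, C, hE⟩ := perp_diag5 G hnd hp hp0
  have hNI : ∀ w : HeightOneSpectrum (𝓞 K), Hm.NI w a := by
    intro w ε
    obtain ⟨h1, h2, -, h3⟩ := hE (w.adicCompletion K)
    obtain ⟨v, hv, h0⟩ := zero_of_ti25 hp hp0 h1 h2 h3 (hw w)
    exact Hm.near_of_zeroC w a v hv h0 ε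
  have hRe : ∀ φ : K →+* ℝ, (∃ i, 0 < φ (a i)) ∧ ∃ i, φ (a i) < 0 := by
    intro φ
    let _ : Algebra K ℝ := φ.toAlgebra
    obtain ⟨h1, h2, -, h3⟩ := hE ℝ
    obtain ⟨v, hv, h0⟩ := zero_of_ti25 hp hp0 h1 h2 h3 (hR φ)
    exact indef3 (b := fun i => φ (a i)) (fun i => (map_ne_zero φ).2 (a i).ne_zero) hv h0
  obtain ⟨x, hx, hx0⟩ := tern a hNI hRe
  obtain ⟨h1, h2, h3, -⟩ := hE K
  exact ⟨p, fun i => ∑ j, C i j * x j, h3 x hx, hp0, (h1 x).trans hx0, h2 x⟩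

end Dq
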