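import Pool.Agent.Lib.MP_f80667_ag.Dq.WA
import Pool.Agent.Lib.MP_f80667_ag.Dq.PlG
import Pool.Agent.Lib.MP_f80667_ag.Dq.EmbP
import Pool.Agent.Lib.MP_f80667_ag.Dq.Nu
import Pool.Agent.Lib.MP_f80667_ag.Dp.Glob

/-! A member over a number field with lines over all completions contains a line. -/

open NumberField IsDedekindDomain Polynomial IntermediateField
open scoped LinearAlgebra.Projectivization

namespace Dq

open ZC Tq Dp

variable {F : Type} [Field F] [NumberField F] {A B : Matrix (Fin 5) (Fin 5) F}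

omit [NumberField F] in
/-- Smoothness over an extension of the base field. -/
theorem glob_sm5 {K Ω : Type} [Field K] [Field Ω] [Algebra F K] [Algebra K Ω] [Algebra F Ω]
    [IsScalarTower F K Ω] (hs : Sm (AlgebraicClosure F) A B) :
    Sm Ω (A.map (algebraMap F K)) (B.map (algebraMap F K)) := by
  intro x hx hA hB a b h
  refine sm_transfer (E := AlgebraicClosure F) A B (fun y hy0 hy => ?_) x hx hA hB a b h
  rw [Fintype.linearIndependent_iff]
  intro g hg
  obtain ⟨yA, yB⟩ := (zer_iff A B).1 hy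
  have h1 := hs y hy0 yA yB (g 0) (g 1) (fun w => by
    rw [bv_eq_grad, bv_eq_grad, Finset.mul_sum, Finset.mul_sum, ← Finset.sum_add_distrib]
    refine Finset.sum_eq_zero fun j _ => ?_
    have h2 := congrFun hg j
    rw [Finset.sum_apply, Fin.sum_univ_two, Pi.zero_apply, Pi.smul_apply, Pi.smul_apply,
      smul_eq_mul, smul_eq_mul] at h2
    change g 0 * MvPolynomial.aeval y (MvPolynomial.pderiv j (ml A)) +
      g 1 * MvPolynomial.aeval y (MvPolynomial.pderiv j (ml B)) = 0 at h2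
    linear_combination w j * h2)
  intro i
  fin_cases i
  · exact h1.1
  · exact h1.2

/-- The local constants. -/
theorem glob_loc5 {K : Type} [Field K] [CharZero K] {Ω : Type} [Field Ω] [Algebra K Ω]
    [IsAlgClosure K Ω] {ν : AbsoluteValue Ω ℝ} (h : LcV K Ω ν) {A B : Matrix (Fin 5) (Fin 5) K}
    (hs : Sm Ω A B) {P₀ : K[X]} {z : ℙ Ω (Fin 5 → Ω) →₀ ℤ} (hD : Dat A B P₀ z) :
    ∃ δ > 0, ∀ P : K[X], P.Monic → P.natDegree = P₀.natDegree →
      (∀ i, ν (algebraMap K Ω (P.coeff i - P₀.coeff i)) < δ) →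
      (∀ y : Ω, aeval y P = 0 → ∃ t, Root A B y t) ∧
      ∀ (F : Type) [Field F] [Algebra F K] [Algebra F Ω] [IsScalarTower F K Ω] (M : Type)
        [Field M] [Algebra F M] [FiniteDimensional F M] (α : M), F⟮α⟯ = ⊤ →
        (minpoly F α).map (algebraMap F K) = P → ∀ (A₀ B₀ : Matrix (Fin 5) (Fin 5) F),
        A = A₀.map (algebraMap F K) → B = B₀.map (algebraMap F K) →
        ∀ t : ℙ M (Fin (5 * 5) → M), IsM A₀ B₀ 1 (-α) t →
          ∑ s : M →ₐ[F] Ω, Ph (mapPt (s : M →+* Ω) t) - z ∈ ratEq Ω (Pl A B) := by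
  obtain ⟨δ₁, h1, h2⟩ := lcv_lines h hs le_rfl hD
  obtain ⟨δ₂, h3, h4⟩ := lcv_class h hs le_rfl hD
  refine ⟨min δ₁ δ₂, lt_min h1 h3, fun P hP hd hc => ⟨?_, ?_⟩⟩
  · exact h2 P hP hd fun i => (hc i).trans_le (min_le_left _ _)
  · exact h4 P hP hd fun i => (hc i).trans_le (min_le_right _ _)

variable {M : Type} [Field M] [NumberField M] [Algebra F M] {α : M}

/-- At a place above a place where all zeros of the minimal polynomial have lines. -/
theorem tiw_of_root {w : HeightOneSpectrum (𝓞 M)}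
    (hfin : ∀ s : M →ₐ[F] AlgebraicClosure (FK F (w.under (𝓞 F))), ∃ t,
      Root (A.map (algebraMap F (FK F (w.under (𝓞 F)))))
        (B.map (algebraMap F (FK F (w.under (𝓞 F))))) (s α) t) : TIw A B α w := by
  obtain ⟨e, he, hK⟩ := exists_embU F M w
  let s : M →ₐ[F] AlgebraicClosure (FK F (w.under (𝓞 F))) :=
    { e.comp (algebraMap M (w.adicCompletion M)) with
      commutes' := fun x => by
        change e (algebraMap M (w.adicCompletion M) (algebraMap F M x)) = _
        rw [he x, ← IsScalarTower.algebraMap_apply F (FK F (w.under (𝓞 F)))] }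
  obtain ⟨t, ⟨p, x, h⟩, -⟩ := hfin s
  exact ti2_of_root (K := FK F (w.under (𝓞 F)))
    (Ω := AlgebraicClosure (FK F (w.under (𝓞 F)))) α
    (algebraMap M (w.adicCompletion M)) e he hK (p := p) (x := x) h.ind h.qp h.qx h.b

/-- At the real places. -/
theorem tir_of_root
    (hreal : ∀ v : InfinitePlace F, v.IsReal → ∀ s : M →ₐ[F] AlgebraicClosure (IK F v), ∃ t,
      Root (A.map (algebraMap F (IK F v))) (B.map (algebraMap F (IK F v))) (s α) t)
    (φ : M →+* ℝ) : TI2 ((gmM A B α).map φ) := by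
  obtain ⟨v, hv, e, he, hK⟩ := exists_embR F M φ
  let s : M →ₐ[F] AlgebraicClosure (IK F v) :=
    { e.comp φ with
      commutes' := fun x => by
        change e (φ (algebraMap F M x)) = _
        rw [he x, ← IsScalarTower.algebraMap_apply F (IK F v)] }
  obtain ⟨t, ⟨p, x, h⟩, -⟩ := hreal v hv s
  exact ti2_of_root (K := IK F v) (Ω := AlgebraicClosure (IK F v)) α φ e he hK
    (p := p) (x := x) h.ind h.qp h.qx h.b

/-- **Existence of a line over `M`.** -/
theorem exists_line5 (hs : Sm (AlgebraicClosure F) A B) (hnd : ND A B (1 : M) (-α))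
    (hw : ∀ w : HeightOneSpectrum (𝓞 M), TIw A B α w)
    (hR : ∀ φ : M →+* ℝ, TI2 ((gmM A B α).map φ)) :
    ∃ t : ℙ M (Fin (5 * 5) → M), IsM A B 1 (-α) t := by
  have hfd : FiniteDimensional F M := Module.Finite.of_restrictScalars_finite ℚ F M
  have : Algebra.IsAlgebraic F M := Algebra.IsAlgebraic.of_finite F M
  have hG : TI2 (A.map (algebraMap F M) + (-α) • B.map (algebraMap F M)) := by
    refine ti2_global5 _ ?_ hw hR
    intro y hy
    obtain ⟨y', hy'⟩ := hnd y hy
    exact ⟨y', by rwa [glob_bv]⟩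
  obtain ⟨p, x, hi, hp, hx, hpx⟩ := hG
  rw [glob_qv] at hp hx
  rw [glob_bv] at hpx
  exact exists_line hs (IsAlgClosed.lift : M →ₐ[F] AlgebraicClosure F) le_rfl hnd hi hp hx hpx

end Dq
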