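import Pool.Agent.Lib.MP_f80667_ag.Dq.Pen
import Pool.Agent.Lib.MP_f80667_ag.Dr.OutD
import Pool.Agent.Lib.MP_f80667_ag.Fa.Dfs

/-!
The sum condition for local polynomials.

* `SgN θ R₀ i φ`: the local polynomial at the real place of `φ` is negative at `φ (θ i)`.
* `HypH θ δ S P₀ R₀`: for polynomials `P v` over `F` near the local polynomials `P₀ v` (`v ∈ S`) and
  `a v i = P v (θ i)`, and for every set `I` of indices such that the product of the norms of the `δ i`
  is a square, the number of the places of `K i` above `S`, `i ∈ I`, where `a v i` is not a local norm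
  for `δ i`, plus the number of real embeddings of the `K i` where `δ i` and the local polynomial are
  negative, is even.
-/

open Polynomial IsDedekindDomain NumberField
open scoped WithZero

namespace Dq

open ZC

variable {F : Type} [Field F] [NumberField F] {ι : Type} [Fintype ι] {K : ι → Type}
  [∀ i, Field (K i)] [∀ i, NumberField (K i)] [∀ i, Algebra F (K i)]

/-- The local polynomial at the real place of `φ` is negative at `φ (θ i)`. -/
def SgN (θ : ∀ i, K i) (R₀ : ∀ v : InfinitePlace F, (IK F v)[X]) (i : ι) (φ : K i →+* ℝ) : Prop :=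
  ∃ (v : InfinitePlace F) (_ : v.IsReal) (e : IK F v →+* ℝ),
    (∀ x : F, e (algebraMap F (IK F v) x) = φ (algebraMap F (K i) x)) ∧
    ((R₀ v).map e).eval (φ (θ i)) < 0

/-- `P` is a monic polynomial over `F` near `P₀`. -/
def NearPol (v : HeightOneSpectrum (𝓞 F)) (g : ℤᵐ⁰) (P₀ : (v.adicCompletion F)[X]) (P : F[X]) :
    Prop :=
  P.Monic ∧ P.natDegree = P₀.natDegree ∧
    ∀ j, Valued.v (algebraMap F (v.adicCompletion F) (P.coeff j) - P₀.coeff j) < g

/-- The sum condition. -/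
def HypH (θ : ∀ i, K i) (δ : ∀ i, (K i)ˣ) (S : Finset (HeightOneSpectrum (𝓞 F)))
    (P₀ : ∀ v : HeightOneSpectrum (𝓞 F), (v.adicCompletion F)[X])
    (R₀ : ∀ v : InfinitePlace F, (IK F v)[X]) : Prop :=
  ∃ g : HeightOneSpectrum (𝓞 F) → ℤᵐ⁰, (∀ v, g v ≠ 0) ∧
    ∀ (P : HeightOneSpectrum (𝓞 F) → F[X]) (a : HeightOneSpectrum (𝓞 F) → ∀ i, (K i)ˣ),
      (∀ v ∈ S, NearPol v (g v) (P₀ v) (P v) ∧ ∀ i, aeval (θ i) (P v) = (a v i : K i)) →
      ∀ I : Finset ι, IsSquare (∏ i ∈ I, Algebra.norm F (δ i : K i)) →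
        Even (∑ i ∈ I, (∑ v ∈ S, Dr.nF v (a v i) (δ i) + Dr.nR (δ i) (SgN θ R₀ i)))

end Dq
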