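import Pool.Agent.Lib.MP_f80667_ag.Dp.InsP

/-! The absolute value on the algebraic closure of a completion, in terms of the valuation. -/

open NumberField IsDedekindDomain Polynomial
open scoped WithZero

namespace Dq

open ZC Dp

variable (F : Type) [Field F] [NumberField F]

/-- As `Dp.exists_nuP`, and elements of small valuation are small. -/
theorem exists_nuV (v : HeightOneSpectrum (𝓞 F)) :
    ∃ ν : AbsoluteValue (AlgebraicClosure (FK F v)) ℝ, NuP F v ν ∧
      ∀ ε : ℝ, 0 < ε → ∃ g : ℤᵐ⁰, g ≠ 0 ∧ ∀ x : v.adicCompletion F, Valued.v x < g →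
        ν (algebraMap (FK F v) _ (show FK F v from x)) < ε := by
  have hf : Finite ((𝓞 F) ⧸ v.asIdeal) := Pool.Agent.Lib.MP_f80667_ag.LF.finite_quot F v
  let i1 : NontriviallyNormedField (v.adicCompletion F) :=
    Valued.toNontriviallyNormedField (v.adicCompletion F) (WithZero (Multiplicative ℤ))
  have h1 : @ProperSpace (v.adicCompletion F) i1.toNormedField.toMetricSpace.toPseudoMetricSpace := by
    refine Valued.integer.properSpace_iff_completeSpace_and_isDiscreteValuationRing_integer_and_finite_residueField.mpr ?_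
    exact ⟨inferInstance, (inferInstance : IsDiscreteValuationRing (v.adicCompletionIntegers F)),
      Pool.Agent.Lib.MP_f80667_ag.LF.finite_residueField F v⟩
  have h2 : IsUltrametricDist (v.adicCompletion F) := inferInstance
  have hlt : ∀ x y : v.adicCompletion F, Valued.v x < Valued.v y → ‖x‖ < ‖y‖ :=
    fun x y h => Valued.toNormedField.norm_lt_iff.2 h
  let ν : AbsoluteValue (AlgebraicClosure (v.adicCompletion F)) ℝ :=
    spAV (v.adicCompletion F) (AlgebraicClosure (v.adicCompletion F))
  have hν : ∀ x : v.adicCompletion F,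
      ν (algebraMap (v.adicCompletion F) (AlgebraicClosure (v.adicCompletion F)) x) = ‖x‖ :=
    spAV_algebraMap (v.adicCompletion F) (AlgebraicClosure (v.adicCompletion F))
  have hlc : LcV (v.adicCompletion F) (AlgebraicClosure (v.adicCompletion F)) ν :=
    lcV_spAV (v.adicCompletion F) (AlgebraicClosure (v.adicCompletion F))
  have hsm : ∀ ε : ℝ, 0 < ε → ∃ t : v.adicCompletion F, t ≠ 0 ∧ ‖t‖ < ε := by
    intro ε hε
    obtain ⟨x, hx0, hx⟩ := NormedField.exists_norm_lt (v.adicCompletion F) hε
    exact ⟨x, norm_pos_iff.1 hx0, hx⟩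
  refine ⟨ν, ⟨hlc, ?_, ?_⟩, ?_⟩
  · intro ε hε
    obtain ⟨t, ht0, ht⟩ := hsm ε hε
    refine ⟨Valued.v t, by rwa [Ne, map_eq_zero], fun x hx => ?_⟩
    have h3 : Valued.v (algebraMap F (v.adicCompletion F) x) < Valued.v t := by
      rw [Hm.valC]
      exact hx
    have h4 := (hν (algebraMap F (v.adicCompletion F) x)).trans_lt ((hlt _ _ h3).trans ht)
    exact h4
  · intro x ε hε
    obtain ⟨t, ht0, ht⟩ := hsm ε hε
    obtain ⟨y, hy⟩ := Hm.exists_nearC v ht0 x
    have h4 := (hν (algebraMap F (v.adicCompletion F) y - (show v.adicCompletion F from x))).trans_lt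
      ((hlt _ _ hy).trans ht)
    exact ⟨y, h4⟩
  · intro ε hε
    obtain ⟨t, ht0, ht⟩ := hsm ε hε
    refine ⟨Valued.v t, by rwa [Ne, map_eq_zero], fun x hx => ?_⟩
    exact (hν x).trans_lt ((hlt _ _ hx).trans ht)

variable {F}

/-- `F` is dense in the completion. -/
theorem exists_near_val (v : HeightOneSpectrum (𝓞 F)) {g : ℤᵐ⁰} (hg : g ≠ 0)
    (x : v.adicCompletion F) : ∃ y : F,
      Valued.v (algebraMap F (v.adicCompletion F) y - x) < g := by
  obtain ⟨π, hπ⟩ := v.valuation_exists_uniformizer F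
  have h0 : π ≠ 0 := by
    intro h
    rw [h, map_zero] at hπ
    exact WithZero.exp_ne_zero hπ.symm
  have h1 : v.valuation F (π ^ (-WithZero.log g)) = g := by
    rw [map_zpow₀, hπ, ← WithZero.exp_zsmul]
    simp only [smul_eq_mul, mul_neg, mul_one, neg_neg]
    exact WithZero.exp_log hg
  have h2 : (algebraMap F (v.adicCompletion F) (π ^ (-WithZero.log g))) ≠ 0 :=
    (_root_.map_ne_zero _).2 (zpow_ne_zero _ h0)
  obtain ⟨y, hy⟩ := Hm.exists_nearC v h2 x
  refine ⟨y, ?_⟩
  rw [Hm.valC, h1] at hy
  exact hy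

/-- Polynomials over `F` near polynomials over the completion. -/
theorem exists_polyF (v : HeightOneSpectrum (𝓞 F)) {g : ℤᵐ⁰} (hg : g ≠ 0)
    {P₀ : (v.adicCompletion F)[X]} (hP : P₀.Monic) : ∃ P : F[X], P.Monic ∧
      P.natDegree = P₀.natDegree ∧
      ∀ j, Valued.v (algebraMap F (v.adicCompletion F) (P.coeff j) - P₀.coeff j) < g := by
  choose c hc using fun j : ℕ => exists_near_val v hg (P₀.coeff j)
  have hd : (∑ j ∈ Finset.range P₀.natDegree, C (c j) * X ^ j : F[X]).degree <
      ((P₀.natDegree : ℕ) : WithBot ℕ) := by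
    rw [Polynomial.degree_lt_iff_coeff_zero]
    intro m hm
    rw [finsetSum_coeff]
    refine Finset.sum_eq_zero fun j hj => ?_
    rw [coeff_C_mul, coeff_X_pow, if_neg, mul_zero]
    rw [Finset.mem_range] at hj
    omega
  refine ⟨X ^ P₀.natDegree + ∑ j ∈ Finset.range P₀.natDegree, C (c j) * X ^ j,
    monic_X_pow_add hd, ?_, fun j => ?_⟩
  · rw [natDegree_add_eq_left_of_degree_lt, natDegree_X_pow]
    rwa [degree_X_pow]
  · rw [coeff_add, coeff_X_pow, finsetSum_coeff]
    have hz : (0 : ℤᵐ⁰) < g := zero_lt_iff.2 hg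
    rcases lt_trichotomy j P₀.natDegree with h | h | h
    · rw [if_neg (by omega), zero_add, Finset.sum_eq_single j]
      · rw [coeff_C_mul, coeff_X_pow, if_pos rfl, mul_one]
        exact hc j
      · intro b _ hb
        rw [coeff_C_mul, coeff_X_pow, if_neg (Ne.symm hb), mul_zero]
      · intro h'
        exact absurd (Finset.mem_range.2 h) h'
    · rw [if_pos h, Finset.sum_eq_zero, add_zero, map_one, h, hP.coeff_natDegree, sub_self,
        map_zero]
      · exact hz
      · intro b hb
        rw [Finset.mem_range] at hb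
        rw [coeff_C_mul, coeff_X_pow, if_neg (by omega), mul_zero]
    · rw [if_neg (by omega), zero_add, Finset.sum_eq_zero, map_zero,
        coeff_eq_zero_of_natDegree_lt h, sub_self, map_zero]
      · exact hz
      · intro b hb
        rw [Finset.mem_range] at hb
        rw [coeff_C_mul, coeff_X_pow, if_neg (by omega), mul_zero]

end Dq
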