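import Pool.Agent.Lib.MP_f80667_ag.Hm.Defs

/-! Valuations of traces, and unramified places, for an extension of number fields. -/

open IsDedekindDomain NumberField

namespace Dq

variable (F K : Type) [Field F] [NumberField F] [Field K] [NumberField K] [Algebra F K]

/-- The valuations of `F` and `K`. Proof: `valuation_liesOver` or the like in
`Mathlib/NumberTheory/RamificationInertia/Valuation.lean`. -/
theorem exists_ram (u : HeightOneSpectrum (𝓞 K)) : ∃ e : ℕ, 0 < e ∧ ∀ x : F,
    u.valuation K (algebraMap F K x) = (u.under (𝓞 F)).valuation F x ^ e := by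
  have : u.asIdeal.LiesOver (u.under (𝓞 F)).asIdeal := ⟨rfl⟩
  refine ⟨Ideal.ramificationIdx' (u.under (𝓞 F)).asIdeal u.asIdeal, ?_, fun x ↦ ?_⟩
  · exact Nat.pos_of_ne_zero
      (Ideal.IsDedekindDomain.ramificationIdx'_ne_zero_of_liesOver u.asIdeal (u.under (𝓞 F)).ne_bot)
  · exact (HeightOneSpectrum.valuation_liesOver K (u.under (𝓞 F)) u x).symm

/-- There is a place above every place. -/
theorem exists_above (v : HeightOneSpectrum (𝓞 F)) :
    ∃ u : HeightOneSpectrum (𝓞 K), u.under (𝓞 F) = v := by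
  have := v.isMaximal
  obtain ⟨P, hP, hPv⟩ := Ideal.exists_maximal_ideal_liesOver_of_isIntegral (S := 𝓞 K) v.asIdeal
  have hne : P ≠ ⊥ := by
    intro h
    have h1 := hPv.over
    rw [h] at h1
    apply v.ne_bot
    rw [h1]
    exact Ideal.under_bot _ _
  refine ⟨⟨P, hP.isPrime, hne⟩, ?_⟩
  ext1
  exact hPv.over.symm

/-- The places above a place are finitely many. -/
theorem finite_above (v : HeightOneSpectrum (𝓞 F)) :
    {u : HeightOneSpectrum (𝓞 K) | u.under (𝓞 F) = v}.Finite := by
  have := v.isMaximal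
  have h := IsDedekindDomain.primesOver_finite v.asIdeal (𝓞 K)
  refine Set.Finite.of_finite_image (f := HeightOneSpectrum.asIdeal) (h.subset ?_) ?_
  · rintro _ ⟨u, hu, rfl⟩
    refine ⟨u.isPrime, ⟨?_⟩⟩
    have hu' : u.under (𝓞 F) = v := hu
    rw [← hu']
    rfl
  · intro a _ b _ hab
    exact HeightOneSpectrum.ext hab

/-- The trace of an element which is integral at all places above `v` is integral at `v`. Proof: there
is `s ∈ 𝓞 F` with `v.valuation F s = 1` and `s x ∈ 𝓞 K` (the places of `K` where `x` is not integral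
are finitely many and not above `v`; a product of high powers of elements of the places below, which
are different from `v`); `Tr (s x) ∈ 𝓞 F`. -/
theorem val_trace (v : HeightOneSpectrum (𝓞 F)) (x : K)
    (h : ∀ u : HeightOneSpectrum (𝓞 K), u.under (𝓞 F) = v → u.valuation K x ≤ 1) :
    v.valuation F (Algebra.trace F K x) ≤ 1 := by
  classical
  have hfin := HeightOneSpectrum.Support.finite (𝓞 K) x
  -- local multipliers
  have hloc : ∀ u : HeightOneSpectrum (𝓞 K), 1 < u.valuation K x →
      ∃ s : 𝓞 F, v.valuation F (s : F) = 1 ∧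
        u.valuation K (algebraMap F K (s : F)) * u.valuation K x ≤ 1 := by
    intro u hu
    have hne : u.under (𝓞 F) ≠ v := fun h' ↦ absurd (h u h') (not_le.mpr hu)
    have := (u.under (𝓞 F)).isMaximal
    have hnle : ¬ (u.under (𝓞 F)).asIdeal ≤ v.asIdeal := by
      intro hle
      apply hne
      ext1
      exact (u.under (𝓞 F)).isMaximal.eq_of_le v.isPrime.ne_top hle
    obtain ⟨t, ht, htv⟩ := SetLike.not_le_iff_exists.mp hnle
    have ht1 : u.valuation K (algebraMap F K (t : F)) < 1 := by
      obtain ⟨e, he, hee⟩ := exists_ram F K u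
      rw [hee]
      exact pow_lt_one₀ zero_le ((HeightOneSpectrum.valuation_lt_one_iff_mem _ _).mpr ht) he.ne'
    have hx0 : u.valuation K x ≠ 0 := fun h0 ↦ by
      rw [h0] at hu
      exact absurd hu (not_lt.mpr zero_le)
    obtain ⟨n, hn⟩ := exists_pow_lt₀ ht1 (Units.mk0 _ (inv_ne_zero hx0))
    refine ⟨t ^ n, ?_, ?_⟩
    · have : v.valuation F (t : F) = 1 := (HeightOneSpectrum.valuation_eq_one_iff_notMem v).mpr htv
      push_cast
      rw [map_pow, this, one_pow]
    · have h0 : ((t ^ n : 𝓞 F) : F) = (t : F) ^ n := by push_cast; rfl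
      rw [h0, map_pow, map_pow]
      have h1 : (u.valuation K (algebraMap F K (t : F))) ^ n ≤ (u.valuation K x)⁻¹ := hn.le
      calc _ ≤ (u.valuation K x)⁻¹ * u.valuation K x := mul_le_mul_left h1 _
        _ = 1 := inv_mul_cancel₀ hx0
  choose! s hs1 hs2 using hloc
  set S : 𝓞 F := ∏ u ∈ hfin.toFinset, s u with hS
  have hSv : v.valuation F (S : F) = 1 := by
    rw [hS]
    push_cast
    rw [map_prod]
    refine Finset.prod_eq_one fun u hu ↦ hs1 u ?_
    simpa [HeightOneSpectrum.Support] using hu
  have hle : ∀ (u : HeightOneSpectrum (𝓞 K)) (t : 𝓞 F), u.valuation K (algebraMap F K (t : F)) ≤ 1 := by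
    intro u t
    obtain ⟨e, he, hee⟩ := exists_ram F K u
    rw [hee]
    exact pow_le_one₀ zero_le (HeightOneSpectrum.valuation_le_one _ t)
  have hint : ∀ u : HeightOneSpectrum (𝓞 K), u.valuation K (algebraMap F K (S : F) * x) ≤ 1 := by
    intro u
    rw [map_mul]
    by_cases hu : 1 < u.valuation K x
    · have hmem : u ∈ hfin.toFinset := by simpa [HeightOneSpectrum.Support] using hu
      have h0 : (S : F) = (s u : F) * ((∏ w ∈ hfin.toFinset.erase u, s w : 𝓞 F) : F) := by
        rw [hS, ← Finset.mul_prod_erase _ _ hmem]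
        rfl
      rw [h0, map_mul, map_mul, mul_right_comm]
      exact mul_le_one' (hs2 u hu) (hle u _)
    · exact mul_le_one' (hle u S) (not_lt.mp hu)
  obtain ⟨y, hy⟩ := HeightOneSpectrum.mem_integers_of_valuation_le_one K _ hint
  have hT : Algebra.trace F K (algebraMap F K (S : F) * x) = (S : F) * Algebra.trace F K x := by
    rw [← Algebra.smul_def, map_smul, smul_eq_mul]
  have hI : IsIntegral ℤ (Algebra.trace F K (algebraMap F K (S : F) * x)) := by
    rw [← hy]
    exact Algebra.isIntegral_trace y.isIntegral_coe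
  have hle' : v.valuation F (Algebra.trace F K (algebraMap F K (S : F) * x)) ≤ 1 :=
    HeightOneSpectrum.valuation_le_one v (⟨_, hI⟩ : 𝓞 F)
  rw [hT, map_mul, hSv, one_mul] at hle'
  exact hle'

/-- **Almost all places are unramified.** Proof: the different ideal of `𝓞 K / 𝓞 F` is not `0`, so it has
finitely many prime divisors; the other primes are unramified (`not_dvd_differentIdeal_iff`), so the
ramification index is `1`, and then `exists_ram` (the formula with the ramification index). -/
theorem exists_unr : ∃ S : Finset (HeightOneSpectrum (𝓞 F)), ∀ u : HeightOneSpectrum (𝓞 K),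
    u.under (𝓞 F) ∉ S → ∀ x : F,
      u.valuation K (algebraMap F K x) = (u.under (𝓞 F)).valuation F x := by
  classical
  have hne : differentIdeal (𝓞 F) (𝓞 K) ≠ ⊥ := differentIdeal_ne_bot
  have hfin : {u : HeightOneSpectrum (𝓞 K) | u.asIdeal ∣ differentIdeal (𝓞 F) (𝓞 K)}.Finite :=
    Ideal.finite_factors hne
  refine ⟨hfin.toFinset.image fun u ↦ u.under (𝓞 F), fun u hu x ↦ ?_⟩
  have : u.asIdeal.LiesOver (u.under (𝓞 F)).asIdeal := ⟨rfl⟩
  rw [← HeightOneSpectrum.valuation_liesOver K (u.under (𝓞 F)) u x]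
  have hnd : ¬ u.asIdeal ∣ differentIdeal (𝓞 F) (𝓞 K) := by
    intro hd
    apply hu
    rw [Finset.mem_image]
    exact ⟨u, by simpa using hd, rfl⟩
  have := u.isPrime
  have hun := not_dvd_differentIdeal_iff.mp hnd
  have hlo : u.asIdeal.LiesOver (u.asIdeal.under (𝓞 F)) := ⟨rfl⟩
  let := Localization.AtPrime.algebraOfLiesOver (u.asIdeal.under (𝓞 F)) u.asIdeal
  have h1 : Ideal.ramificationIdx' (u.under (𝓞 F)).asIdeal u.asIdeal = 1 := by
    change Ideal.ramificationIdx' (Ideal.comap (algebraMap (𝓞 F) (𝓞 K)) u.asIdeal) u.asIdeal = 1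
    rw [Ideal.IsDedekindDomain.ramificationIdx'_eq_one_iff u.ne_bot Ideal.map_comap_le]
    exact ((Algebra.isUnramifiedAt_iff_map_eq (p := u.asIdeal.under (𝓞 F)) _ _).mp hun).2
  rw [h1, pow_one]

end Dq
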