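import Pool.Agent.Lib.MP_f80667_ag.Dq.Gd
import Pool.Agent.Lib.MP_f80667_ag.Dq.NuV
import Pool.Agent.Lib.MP_f80667_ag.Dq.Hyp
import Pool.Agent.Lib.MP_f80667_ag.Dq.VTr
import Pool.Agent.Lib.MP_f80667_ag.Dr.Out

/-! The polynomial `ρ` and the local polynomials at all places. -/

open Polynomial IsDedekindDomain NumberField
open scoped WithZero

namespace Dq

open ZC Tq Dp

variable {F : Type} [Field F] [NumberField F] {A B : Matrix (Fin 5) (Fin 5) F} {wv : Fin 5 → F}
  {ι : Type} [Fintype ι] {K : ι → Type} [∀ i, Field (K i)] [∀ i, NumberField (K i)]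
  [∀ i, Algebra F (K i)] {θ : ∀ i, K i}

/-- A polynomial over `F` near a local one which does not vanish at the `θ i`. Proof: `exists_polyF`; add
a small constant different from the finitely many values `- P (θ i)` (powers of a uniformiser). -/
theorem exists_polyG (θ : ∀ i, K i) (v : HeightOneSpectrum (𝓞 F)) {g : ℤᵐ⁰} (hg : g ≠ 0)
    {P₀ : (v.adicCompletion F)[X]} (hP : P₀.Monic) (hd : 1 ≤ P₀.natDegree) :
    ∃ P : F[X], NearPol v g P₀ P ∧ ∀ i, aeval (θ i) P ≠ 0 := by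
  classical
  obtain ⟨P, hm, hn, hc⟩ := exists_polyF v hg hP
  obtain ⟨x, hx0, hx⟩ := intp_small v hg
  obtain ⟨π, hπ⟩ := v.valuation_exists_uniformizer F
  have hbad : (⋃ i, {c : F | aeval (θ i) P + algebraMap F (K i) c = 0}).Finite := by
    refine Set.finite_iUnion fun i => Set.Subsingleton.finite fun c hc d hd => ?_
    have h1 : aeval (θ i) P + algebraMap F (K i) c = aeval (θ i) P + algebraMap F (K i) d :=
      (Set.mem_setOf_eq ▸ hc).trans (Set.mem_setOf_eq ▸ hd).symm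
    exact (algebraMap F (K i)).injective (add_left_cancel h1)
  have hinf : (Set.range fun n : ℕ => x * π ^ n).Infinite := by
    refine Set.infinite_range_of_injective fun a b hab => ?_
    have h1 := congrArg (v.valuation F) (mul_left_cancel₀ hx0 hab)
    rw [map_pow, map_pow, hπ, ← WithZero.exp_nsmul, ← WithZero.exp_nsmul] at h1
    have h2 := WithZero.exp_injective h1
    simpa using h2
  obtain ⟨c, ⟨n, rfl⟩, hcn⟩ := (hinf.diff hbad).nonempty
  have hcv : v.valuation F (x * π ^ n) < g := by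
    rw [map_mul, map_pow]
    have h1 : v.valuation F π ^ n ≤ 1 := by
      refine pow_le_one₀ zero_le ?_
      rw [hπ, ← WithZero.exp_zero]
      exact WithZero.exp_le_exp.2 (by norm_num)
    exact (mul_le_of_le_one_right' h1).trans_lt hx
  have hPd : 1 ≤ P.natDegree := hn ▸ hd
  have hlt : (C (x * π ^ n)).degree < P.degree := by
    refine degree_C_le.trans_lt ?_
    rw [← natDegree_pos_iff_degree_pos]
    omega
  refine ⟨P + C (x * π ^ n), ⟨hm.add_of_left hlt, ?_, fun j => ?_⟩, fun i h => ?_⟩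
  · rw [natDegree_add_eq_left_of_degree_lt hlt, hn]
  · have e : algebraMap F (v.adicCompletion F) ((P + C (x * π ^ n)).coeff j) - P₀.coeff j =
        (algebraMap F (v.adicCompletion F) (P.coeff j) - P₀.coeff j) +
          algebraMap F (v.adicCompletion F) ((C (x * π ^ n)).coeff j) := by
      rw [coeff_add, map_add]
      ring
    rw [e]
    refine Valuation.map_add_lt _ (hc j) ?_
    rw [Hm.valC, coeff_C]
    split_ifs
    · exact hcv
    · rw [map_zero]
      exact zero_lt_iff.2 hg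
  · apply hcn
    refine Set.mem_iUnion.2 ⟨i, ?_⟩
    rw [Set.mem_setOf_eq, ← h, map_add, aeval_C]

/-- The data at the places: the local polynomials `P v` over `F`. -/
structure LocP (A B : Matrix (Fin 5) (Fin 5) F) (θ : ∀ i, K i) (δ : ∀ i, (K i)ˣ) (N : ℕ)
    (g : HeightOneSpectrum (𝓞 F) → ℤᵐ⁰) (Sb : Finset (HeightOneSpectrum (𝓞 F)))
    (v₀ : HeightOneSpectrum (𝓞 F)) (P₀ : ∀ v : HeightOneSpectrum (𝓞 F), (v.adicCompletion F)[X])
    (R₀ : ∀ v : InfinitePlace F, (IK F v)[X]) (S' : Finset (HeightOneSpectrum (𝓞 F)))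
    (ρ : F[X]) (P : HeightOneSpectrum (𝓞 F) → F[X]) : Prop where
  sub : ∀ v ∈ Sb, v ∈ S'
  mem : v₀ ∈ S'
  deg : ρ.degree < (mf A B).degree
  mon : ∀ v ∈ S', (P v).Monic ∧ (P v).natDegree = N
  near : ∀ v ∈ Sb, NearPol v (g v) (P₀ v) (P v)
  eis : ∃ π : F, v₀.valuation F π = WithZero.exp (-1 : ℤ) ∧ P v₀ = X ^ N + C π
  aux : ∀ v ∈ S', v ∉ Sb → v ≠ v₀ → ∃ π : F, v.valuation F π = WithZero.exp (-1 : ℤ) ∧
    P v = (X - C π⁻¹) * X ^ (N - 1)
  rem : ∀ v ∈ S', ∀ j, v.valuation F (((P v - ρ) %ₘ mf A B).coeff j) < g v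
  ne : ∀ i, aeval (θ i) ρ ≠ 0
  sgn : ∀ i (φ : K i →+* ℝ), φ (aeval (θ i) ρ) < 0 ↔ SgN θ R₀ i φ
  out : ∀ i (r : (K i)ˣ), (r : K i) = aeval (θ i) ρ →
    ∀ u : HeightOneSpectrum (𝓞 (K i)), u.under (𝓞 F) ∉ S' →
      u.valuation (K i) (r : K i) ≤ 1 ∧ r ∈ Hm.LNm u (δ i)

/-- the value of `X ^ N + π` at a unit -/
theorem rho_eis {L : Type*} [Field L] (w : Valuation L ℤᵐ⁰) {x p : L} (hx : w x = 1)
    (hp : w p = WithZero.exp (-1 : ℤ)) (N : ℕ) : w (x ^ N + p) = 1 := by
  have h1 : w (x ^ N) = 1 := by rw [map_pow, hx, one_pow]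
  have h2 : w p < w (x ^ N) := by
    rw [h1, hp, ← WithZero.exp_zero]
    exact WithZero.exp_lt_exp.2 (by norm_num)
  rw [Valuation.map_add_eq_of_lt_left w h2, h1]

/-- the value of `(X - π⁻¹) X ^ m` at a unit -/
theorem rho_aux {L : Type*} [Field L] (w : Valuation L ℤᵐ⁰) {x p : L} (hx : w x = 1)
    (hp : w p = WithZero.exp (-1 : ℤ)) (m : ℕ) : w ((x - p⁻¹) * x ^ m) = WithZero.exp (1 : ℤ) := by
  have h1 : w p⁻¹ = WithZero.exp (1 : ℤ) := by
    rw [map_inv₀, hp, ← WithZero.exp_neg, neg_neg]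
  have h2 : w x < w p⁻¹ := by
    rw [h1, hx, ← WithZero.exp_zero]
    exact WithZero.exp_lt_exp.2 (by norm_num)
  rw [map_mul, map_pow, hx, one_pow, mul_one, Valuation.map_sub_eq_of_lt_right w h2, h1]

theorem rho_near {v : HeightOneSpectrum (𝓞 F)} {g g' : ℤᵐ⁰} (h : g ≤ g')
    {P₀ : (v.adicCompletion F)[X]} {P : F[X]} (hP : NearPol v g P₀ P) : NearPol v g' P₀ P :=
  ⟨hP.1, hP.2.1, fun j => (hP.2.2 j).trans_le h⟩

/-- **The polynomial `ρ`.** Proof. Let `g₁` be the precision of `HypH`; `P v` for `v ∈ Sb` by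
`exists_polyG` with a precision at most `g v` and `g₁ v`; a uniformiser `π v` of every `v`
(`HeightOneSpectrum.valuation_exists_uniformizer`); `P v₀ = X ^ N + C π`, `P v = (X - C π⁻¹) * X ^ (N - 1)`
for the other `v`; `a v i = P v (θ i)`, which is not `0` (`Gd.theta`, `Gd.unr`, `exists_above`).
`Dr.out` for `S = insert v₀ Sb`: `hS2`, `hSδ`: `Gd.two`, `Gd.dl`; `ha`: valuation `exp 1` (`Gd.unr`,
`Gd.theta`); `H`: `HypH` for `Sb`, and `nF v₀ (a v₀ i) (δ i) = 0` since `a v₀ i` is a unit at all places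
above `v₀` (`unit_mem_LNm`; the index set of the sum over `insert v₀ Sb`); `s i = SgN θ R₀ i`; precisions
from `Res.near` for `g v`. `Res.exists_interp`; the remainder of `P v - ρ` modulo `mf A B` has the values
`a v i - ρ i`. -/
theorem exists_rho (hA : ND A B (1 : F) 0) (hB : ND A B (0 : F) 1) (hres : Res (mf A B) K θ)
    {δ : ∀ i, (K i)ˣ} (hδ : ∀ i, (δ i : K i) = aeval (θ i) (dlp A B wv))
    {Sb : Finset (HeightOneSpectrum (𝓞 F))} (hSb : ∀ v ∉ Sb, Gd A B wv K θ v)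
    {v₀ : HeightOneSpectrum (𝓞 F)} (hv₀ : v₀ ∉ Sb) {N : ℕ} (hN : 2 ≤ N)
    {P₀ : ∀ v : HeightOneSpectrum (𝓞 F), (v.adicCompletion F)[X]}
    (hP₀ : ∀ v ∈ Sb, (P₀ v).Monic ∧ (P₀ v).natDegree = N)
    {R₀ : ∀ v : InfinitePlace F, (IK F v)[X]} (hH : HypH θ δ Sb P₀ R₀)
    (g : HeightOneSpectrum (𝓞 F) → ℤᵐ⁰) (hg : ∀ v, g v ≠ 0) :
    ∃ (S' : Finset (HeightOneSpectrum (𝓞 F))) (ρ : F[X]) (P : HeightOneSpectrum (𝓞 F) → F[X]),
      LocP A B θ δ N g Sb v₀ P₀ R₀ S' ρ P := by
  classical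
  have _ := hA
  obtain ⟨g₁, hg₁, hH'⟩ := hH
  choose π hπ using fun v : HeightOneSpectrum (𝓞 F) => v.valuation_exists_uniformizer F
  have hPb : ∀ v : HeightOneSpectrum (𝓞 F), ∃ P : F[X], v ∈ Sb →
      NearPol v (min (g v) (g₁ v)) (P₀ v) P ∧ ∀ i, aeval (θ i) P ≠ 0 := by
    intro v
    by_cases hv : v ∈ Sb
    · obtain ⟨h1, h2⟩ := hP₀ v hv
      have hmin : min (g v) (g₁ v) ≠ 0 := by
        rcases min_choice (g v) (g₁ v) with h | h
        · rw [h]
          exact hg v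
        · rw [h]
          exact hg₁ v
      obtain ⟨P, hP⟩ := exists_polyG θ v hmin h1 (by omega)
      exact ⟨P, fun _ => hP⟩
    · exact ⟨0, fun h => absurd h hv⟩
  choose Pb hPb using hPb
  -- the local polynomials
  obtain ⟨P, hP⟩ : ∃ P : HeightOneSpectrum (𝓞 F) → F[X], P = fun v =>
      if v ∈ Sb then Pb v else if v = v₀ then X ^ N + C (π v)
        else (X - C (π v)⁻¹) * X ^ (N - 1) := ⟨_, rfl⟩
  have hP1 : ∀ v ∈ Sb, P v = Pb v := fun v hv => by rw [hP]; exact if_pos hv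
  have hP2 : P v₀ = X ^ N + C (π v₀) := by
    rw [hP]
    simp only [if_neg hv₀, if_pos]
  have hP3 : ∀ v, v ∉ Sb → v ≠ v₀ → P v = (X - C (π v)⁻¹) * X ^ (N - 1) := fun v h1 h2 => by
    rw [hP]
    simp only [if_neg h1, if_neg h2]
  have hval2 : ∀ i (u : HeightOneSpectrum (𝓞 (K i))), u.under (𝓞 F) = v₀ →
      u.valuation (K i) (aeval (θ i) (P v₀)) = 1 := by
    intro i u hu
    have hgd := hSb v₀ hv₀
    rw [hP2, map_add, map_pow, aeval_X, aeval_C]
    exact rho_eis _ (hgd.theta hB hres i hu) (by rw [hgd.unr i u hu, hπ]) N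
  have hval3 : ∀ v, v ∉ Sb → v ≠ v₀ → ∀ i (u : HeightOneSpectrum (𝓞 (K i))), u.under (𝓞 F) = v →
      u.valuation (K i) (aeval (θ i) (P v)) = WithZero.exp (1 : ℤ) := by
    intro v h1 h2 i u hu
    have hgd := hSb v h1
    rw [hP3 v h1 h2, map_mul, map_pow, map_sub, aeval_X, aeval_C, map_inv₀]
    exact rho_aux _ (hgd.theta hB hres i hu) (by rw [hgd.unr i u hu, hπ]) (N - 1)
  have hne : ∀ v i, aeval (θ i) (P v) ≠ 0 := by
    intro v i
    by_cases h1 : v ∈ Sb
    · rw [hP1 v h1]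
      exact (hPb v h1).2 i
    · obtain ⟨u, hu⟩ := exists_above F (K i) v
      intro h0
      by_cases h2 : v = v₀
      · subst h2
        have h3 := hval2 i u hu
        rw [h0, map_zero] at h3
        exact zero_ne_one h3
      · have h3 := hval3 v h1 h2 i u hu
        rw [h0, map_zero] at h3
        exact WithZero.exp_ne_zero h3.symm
  choose ε' hε0 hε' using fun v => hres.near v (hg v)
  -- the arithmetic part
  obtain ⟨S', ρ', hSS, hnear, hsgn, hout⟩ := Dr.out K δ (insert v₀ Sb)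
    (fun v hv => (hSb v fun h => hv (Finset.mem_insert_of_mem h)).two)
    (fun i u hu => by
      rw [hδ]
      exact (hSb _ fun h => hu (Finset.mem_insert_of_mem h)).dl i u rfl)
    (fun v i => Units.mk0 (aeval (θ i) (P v)) (hne v i))
    (fun i u hu => by
      rw [Finset.mem_insert, not_or] at hu
      exact ⟨1, odd_one, hval3 _ hu.2 hu.1 i u rfl⟩)
    (fun i => SgN θ R₀ i)
    (fun I hI => by
      have h1 := hH' P (fun v i => Units.mk0 (aeval (θ i) (P v)) (hne v i))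
        (fun v hv => ⟨by
          rw [hP1 v hv]
          exact rho_near (min_le_right _ _) (hPb v hv).1, fun i => rfl⟩) I hI
      have h2 : ∀ i, Dr.nF v₀ (Units.mk0 (aeval (θ i) (P v₀)) (hne v₀ i)) (δ i) = 0 := by
        intro i
        rw [Dr.nF, Nat.card_eq_zero]
        refine Or.inl ⟨?_⟩
        rintro ⟨u, hu, hu'⟩
        have hgd := hSb v₀ hv₀
        refine hu' (unit_mem_LNm ?_ ?_ (hval2 i u hu))
        · have h3 := hgd.unr i u hu 2
          rw [map_ofNat, hgd.two] at h3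
          exact h3
        · rw [hδ]
          exact hgd.dl i u hu
      have h3 : ∀ i, ∑ v ∈ insert v₀ Sb, Dr.nF v (Units.mk0 (aeval (θ i) (P v)) (hne v i)) (δ i) =
          ∑ v ∈ Sb, Dr.nF v (Units.mk0 (aeval (θ i) (P v)) (hne v i)) (δ i) := by
        intro i
        rw [Finset.sum_insert hv₀, h2 i, zero_add]
      simp only [h3]
      exact h1)
    (fun i u => ε' (u.under (𝓞 F)) i u) (fun i u => hε0 _ i u)
  obtain ⟨ρ, hρd, hρ⟩ := hres.exists_interp fun i => (ρ' i : K i)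
  have hmf := hres.monic
  refine ⟨S', ρ, P, ?_⟩
  refine
    { sub := fun v hv => hSS (Finset.mem_insert_of_mem hv)
      mem := hSS (Finset.mem_insert_self _ _)
      deg := hρd
      mon := ?_
      near := fun v hv => ?_
      eis := ⟨π v₀, hπ v₀, hP2⟩
      aux := fun v _ h1 h2 => ⟨π v, hπ v, hP3 v h1 h2⟩
      rem := ?_
      ne := fun i => by
        rw [hρ]
        exact (ρ' i).ne_zero
      sgn := fun i φ => by
        rw [hρ]
        exact hsgn i φ
      out := fun i r hr u hu => ?_ }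
  · intro v _
    by_cases h1 : v ∈ Sb
    · obtain ⟨h2, h3, -⟩ := (hPb v h1).1
      rw [hP1 v h1]
      exact ⟨h2, h3.trans (hP₀ v h1).2⟩
    · by_cases h2 : v = v₀
      · subst h2
        rw [hP2]
        exact ⟨monic_X_pow_add_C _ (by omega), natDegree_X_pow_add_C⟩
      · rw [hP3 v h1 h2]
        refine ⟨(monic_X_sub_C _).mul (monic_X_pow _), ?_⟩
        rw [(monic_X_sub_C _).natDegree_mul (monic_X_pow _), natDegree_X_sub_C, natDegree_X_pow]
        omega
  · rw [hP1 v hv]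
    exact rho_near (min_le_left _ _) (hPb v hv).1
  · intro v hv
    refine hε' v _ (degree_modByMonic_lt _ hmf) fun i u hu => ?_
    have h1 : aeval (θ i) ((P v - ρ) %ₘ mf A B) = aeval (θ i) (P v - ρ) := by
      have h2 := congrArg (aeval (θ i)) (modByMonic_add_div (P v - ρ) (mf A B))
      rw [map_add, map_mul, hres.aeval_f i, zero_mul, add_zero] at h2
      exact h2
    subst hu
    have h3 := hnear i u hv
    rw [h1, map_sub, hρ, Valuation.map_sub_swap]
    exact h3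
  · rw [hρ] at hr
    have h1 : r = ρ' i := Units.ext hr
    rw [h1]
    exact hout i u hu

end Dq
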