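import Pool.Agent.Lib.MP_f80667_ag.Dq.RealD
import Pool.Agent.Lib.MP_f80667_ag.Dq.Rho
import Pool.Agent.Lib.MP_f80667_ag.Dq.GlL
import Pool.Agent.Lib.MP_f80667_ag.Ts.Plc
import Pool.Agent.Lib.MP_f80667_ag.Dr.ZcD
import Pool.Agent.Lib.MP_f80667_ag.Hm.Rl

/-! The data at the real places. -/

open Polynomial IsDedekindDomain NumberField
open scoped WithZero LinearAlgebra.Projectivization

namespace Dq

open ZC Tq Dp

variable {F : Type} [Field F] [NumberField F] {A B : Matrix (Fin 5) (Fin 5) F} {ι : Type}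
  [Fintype ι] {K : ι → Type} [∀ i, Field (K i)] [∀ i, NumberField (K i)]
  [∀ i, Algebra F (K i)] {θ : ∀ i, K i}

section aux

variable {F : Type} [Field F] [NumberField F]

/-- The homomorphism from the completion at a real place to `ℝ` is unique. -/
private theorem hom_unique {v : InfinitePlace F} (hv : v.IsReal) (e e' : IK F v →+* ℝ) :
    e = e' := by
  obtain ⟨e₁, -⟩ := Ts.exists_e v hv
  have key : ∀ (e : IK F v →+* ℝ) (y : IK F v), e y = e₁ y := by
    intro e y
    have h : e.comp (e₁.symm : ℝ →+* IK F v) = RingHom.id ℝ := Subsingleton.elim _ _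
    have h1 := RingHom.congr_fun h (e₁ y)
    rw [RingHom.comp_apply, RingHom.id_apply] at h1
    rw [← h1]
    congr 1
    exact (e₁.symm_apply_apply y).symm
  ext y
  rw [key e, key e']

/-- The real place is determined by the restriction to `F`. -/
private theorem place_unique {v w : InfinitePlace F} (hv : v.IsReal) (hw : w.IsReal)
    (e : IK F v →+* ℝ) (e' : IK F w →+* ℝ)
    (h : ∀ x : F, e (algebraMap F (IK F v) x) = e' (algebraMap F (IK F w) x)) : v = w := by
  obtain ⟨e₁, h₁⟩ := Ts.exists_e v hv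
  obtain ⟨e₂, h₂⟩ := Ts.exists_e w hw
  refine (Ts.emb_eq v w (e.comp (algebraMap F (IK F v))) (e'.comp (algebraMap F (IK F w)))
    (fun x => ?_) (fun x => ?_)).1 (RingHom.ext h)
  · rw [RingHom.comp_apply, hom_unique hv e (e₁ : IK F v →+* ℝ)]
    exact h₁ x
  · rw [RingHom.comp_apply, hom_unique hw e' (e₂ : IK F w →+* ℝ)]
    exact h₂ x

private theorem place_unique' {v w : InfinitePlace F} (hv : v.IsReal) (hw : w.IsReal)
    (e : IK F v →+* ℝ) (e' : IK F w →+* ℝ)
    (h : ∀ x : F, e (algebraMap F (IK F v) x) = e' (algebraMap F (IK F w) x))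
    (R : ∀ v : InfinitePlace F, (IK F v)[X]) : (R v).map e = (R w).map e' := by
  have h1 := place_unique hv hw e e' h
  subst h1
  rw [hom_unique hv e e']

end aux

/-- **The new local polynomial at a real place.** Proof. `real_dat` for `k = IK F v`,
`Ω = AlgebraicClosure (IK F v)`, `e` from `Ts.exists_e`, `Dp.finrank_IK`, `glob_sm5`; `mf` of the matrices
mapped to `IK F v` is the image of `mf A B`. `ρ` and `mf A B` are coprime since `ρ (θ i) ≠ 0`. The sign
condition: a zero `x ∈ IK F v` of `mf A B` is a zero of the minimal polynomial of some `θ i`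
(`Res.prod`), so there is `φ : K i →+* ℝ` with `φ (θ i) = e x`, compatible with `F`; `hs` gives
`φ (ρ (θ i)) < 0 ↔ SgN`, and `SgN` for this `φ` says that `R₀ v` is negative at `x` (the place `v` and the
homomorphism `IK F v →+* ℝ` are determined by their restriction to `F`: `Ts.emb_eq`, and a ring
homomorphism from `ℝ` to `ℝ` is the identity); both values are not `0` (`R₀ v (x) ≠ 0`: the member of a
zero of a datum is nondegenerate). -/
theorem exists_real_dat (hs : Sm (AlgebraicClosure F) A B) (hB : ND A B (0 : F) 1)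
    (hres : Res (mf A B) K θ) {R₀ : ∀ v : InfinitePlace F, (IK F v)[X]} {ρ : F[X]}
    (hρ : ∀ i, aeval (θ i) ρ ≠ 0)
    (hsg : ∀ i (φ : K i →+* ℝ), φ (aeval (θ i) ρ) < 0 ↔ SgN θ R₀ i φ) {v : InfinitePlace F}
    (hv : v.IsReal) {z : ℙ (AlgebraicClosure (IK F v)) (Fin 5 → AlgebraicClosure (IK F v)) →₀ ℤ}
    (hD : Dat (A.map (algebraMap F (IK F v))) (B.map (algebraMap F (IK F v))) (R₀ v) z) {N : ℕ}
    (hN : (R₀ v).natDegree + 12 ≤ N) (he : Even (N - (R₀ v).natDegree)) :
    ∃ (R : (IK F v)[X])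
      (z' : ℙ (AlgebraicClosure (IK F v)) (Fin 5 → AlgebraicClosure (IK F v)) →₀ ℤ),
      R.natDegree = N ∧ (mf A B).map (algebraMap F (IK F v)) ∣ R - ρ.map (algebraMap F (IK F v)) ∧
      Dat (A.map (algebraMap F (IK F v))) (B.map (algebraMap F (IK F v))) R z' ∧
      z' - z ∈ ratEq _ (Pl (A.map (algebraMap F (IK F v))) (B.map (algebraMap F (IK F v)))) ⊔
        normCyc _ (Pl (A.map (algebraMap F (IK F v))) (B.map (algebraMap F (IK F v)))) := by
  have hinj : Function.Injective (algebraMap F (IK F v)) := (algebraMap F (IK F v)).injective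
  have : CharZero (IK F v) := charZero_of_injective_algebraMap hinj
  obtain ⟨e, -⟩ := Ts.exists_e v hv
  have hmf : mf (A.map (algebraMap F (IK F v))) (B.map (algebraMap F (IK F v)))
      = (mf A B).map (algebraMap F (IK F v)) := by
    unfold mf
    rw [chp_map, Polynomial.map_mul, map_C, leadingCoeff_map_of_injective hinj,
      map_inv₀ (algebraMap F (IK F v))]
  have hB' : ND (A.map (algebraMap F (IK F v))) (B.map (algebraMap F (IK F v)))
      (0 : IK F v) 1 := by
    rw [ND_mat]
    have h1 := (ND.hom (A := A) (B := B) (Algebra.ofId F (IK F v)) (a := 0) (b := 1)).2 hB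
    rwa [map_zero, map_one] at h1
  have hcop : IsCoprime ρ (mf A B) := by
    rw [← hres.prod]
    refine IsCoprime.prod_right fun i _ => ?_
    refine ((minpoly.irreducible (hres.int i)).coprime_iff_not_dvd.2 fun hd => ?_).symm
    exact hρ i (by
      obtain ⟨c, hc⟩ := hd
      rw [hc, map_mul, minpoly.aeval, zero_mul])
  have hcop' : IsCoprime (ρ.map (algebraMap F (IK F v)))
      (mf (A.map (algebraMap F (IK F v))) (B.map (algebraMap F (IK F v)))) := by
    rw [hmf]
    exact hcop.map (mapRingHom (algebraMap F (IK F v)))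
  have hsg' : ∀ x : IK F v,
      (mf (A.map (algebraMap F (IK F v))) (B.map (algebraMap F (IK F v)))).eval x = 0 →
      0 < e ((ρ.map (algebraMap F (IK F v))).eval x * (R₀ v).eval x) := by
    intro x hx
    -- `R₀` does not vanish at `x`
    have hR0 : (R₀ v).eval x ≠ 0 := by
      obtain ⟨m, xx, tt, -, hP, hR, -⟩ := hD
      have h1 : IsCoprime (chp (A.map (algebraMap F (IK F v))) (B.map (algebraMap F (IK F v))))
          (R₀ v) := by
        rw [hP]
        exact IsCoprime.prod_right fun j _ => (Dr.root_ln (hR j)).2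
      intro h0
      have h2 : (chp (A.map (algebraMap F (IK F v))) (B.map (algebraMap F (IK F v)))).eval x
          = 0 := by
        unfold mf at hx
        rw [eval_mul, eval_C] at hx
        rcases mul_eq_zero.1 hx with h3 | h3
        · rw [inv_eq_zero, leadingCoeff_eq_zero] at h3
          rw [h3, eval_zero]
        · exact h3
      obtain ⟨p, q, hpq⟩ := h1
      have h3 := congrArg (eval x) hpq
      rw [eval_add, eval_mul, eval_mul, h2, h0, mul_zero, mul_zero, add_zero, eval_one] at h3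
      exact zero_ne_one h3
    -- the factor which vanishes at `x`
    rw [hmf, ← hres.prod, Polynomial.map_prod, eval_prod, Finset.prod_eq_zero_iff] at hx
    obtain ⟨i, -, hi⟩ := hx
    rw [eval_map_algebraMap] at hi
    obtain ⟨ψ, hψ⟩ : ∃ ψ : K i →ₐ[F] IK F v, ψ (θ i) = x := by
      let pb := IntermediateField.adjoin.powerBasis (hres.int i)
      have hgen : pb.gen = IntermediateField.AdjoinSimple.gen F (θ i) := rfl
      let ψ₀ : IntermediateField.adjoin F {θ i} →ₐ[F] IK F v := pb.lift x (by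
        rw [hgen, IntermediateField.minpoly_gen]
        exact hi)
      let E : K i ≃ₐ[F] IntermediateField.adjoin F {θ i} :=
        IntermediateField.topEquiv.symm.trans (IntermediateField.equivOfEq (hres.top i).symm)
      refine ⟨ψ₀.comp (E : K i →ₐ[F] IntermediateField.adjoin F {θ i}), ?_⟩
      have h1 : E (θ i) = pb.gen := rfl
      rw [AlgHom.comp_apply]
      change ψ₀ (E (θ i)) = x
      rw [h1]
      exact pb.lift_gen x _
    let φ : K i →+* ℝ := (e : IK F v →+* ℝ).comp (ψ : K i →+* IK F v)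
    have hφθ : φ (θ i) = e x := by
      change e (ψ (θ i)) = e x
      rw [hψ]
    have hφF : ∀ y : F, (e : IK F v →+* ℝ) (algebraMap F (IK F v) y) = φ (algebraMap F (K i) y) := by
      intro y
      change e (algebraMap F (IK F v) y) = e (ψ (algebraMap F (K i) y))
      rw [ψ.commutes]
    have hφρ : φ (aeval (θ i) ρ) = e ((ρ.map (algebraMap F (IK F v))).eval x) := by
      change e (ψ (aeval (θ i) ρ)) = _
      rw [← aeval_algHom_apply, hψ, eval_map_algebraMap]
    have hφ0 : φ (aeval (θ i) ρ) ≠ 0 := (map_ne_zero φ).2 (hρ i)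
    have hRe : ((R₀ v).map (e : IK F v →+* ℝ)).eval (e x) = e ((R₀ v).eval x) := by
      exact eval_map_apply (e : IK F v →+* ℝ) x
    have hRe0 : e ((R₀ v).eval x) ≠ 0 := (map_ne_zero (e : IK F v →+* ℝ)).2 hR0
    have hiff : φ (aeval (θ i) ρ) < 0 ↔ e ((R₀ v).eval x) < 0 := by
      rw [hsg i φ]
      constructor
      · rintro ⟨v', hv', e', he', hlt⟩
        have h1 := place_unique' hv' hv e' (e : IK F v →+* ℝ)
          (fun y => by rw [he' y, ← hφF y]) R₀
        rw [h1, hφθ, hRe] at hlt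
        exact hlt
      · intro hlt
        exact ⟨v, hv, (e : IK F v →+* ℝ), hφF, by rw [hφθ, hRe]; exact hlt⟩
    rw [map_mul, ← hφρ]
    rcases lt_or_gt_of_ne hφ0 with h1 | h1
    · exact mul_pos_of_neg_of_neg h1 (hiff.1 h1)
    · refine mul_pos h1 ?_
      rcases lt_or_gt_of_ne hRe0 with h2 | h2
      · exact absurd (hiff.2 h2) (not_lt.2 h1.le)
      · exact h2
  obtain ⟨R, z', h1, h2, h3, h4⟩ := real_dat e
    (glob_sm5 (K := IK F v) (Ω := AlgebraicClosure (IK F v)) hs) hB' (finrank_IK F v hv) hD hcop'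
    hsg' hN he
  exact ⟨R, z', h1, by rwa [hmf] at h2, h3, h4⟩

/-- Real polynomials for all real embeddings from polynomials at the real places. Proof: for
`φ : F →+* ℝ` choose the real place `v` and `e : IK F v ≃+* ℝ` with `e (algebraMap F (IK F v) x) = φ x`
(`Hm.exists_real`), `Rr φ = (R v).map e`. If `P : F[X]` is near `Rr φ` for all `φ` then `P` is near `R v`
for all real `v` in the sense of `ν' v` (`NuR.real`: `|e' y|` with a possibly different isomorphism `e'`,
but the isomorphism `IK F v ≃+* ℝ` is unique). -/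
theorem exists_real_pol {R : ∀ v : InfinitePlace F, (IK F v)[X]} {f ρ : F[X]} {N : ℕ}
    (hR : ∀ v : InfinitePlace F, v.IsReal → (R v).Monic ∧ (R v).natDegree = N ∧
      f.map (algebraMap F (IK F v)) ∣ R v - ρ.map (algebraMap F (IK F v)))
    {ν' : ∀ v : InfinitePlace F, AbsoluteValue (AlgebraicClosure (IK F v)) ℝ}
    (hν' : ∀ v, v.IsReal → NuR F v (ν' v)) :
    ∃ Rr : (F →+* ℝ) → ℝ[X], (∀ φ, (Rr φ).Monic ∧ (Rr φ).natDegree = N ∧
        f.map φ ∣ Rr φ - ρ.map φ) ∧
      ∀ (P : F[X]) (ε : ℝ), (∀ (φ : F →+* ℝ) (j : ℕ), |(P.map φ - Rr φ).coeff j| < ε) →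
        ∀ v : InfinitePlace F, v.IsReal → ∀ j, ν' v (algebraMap (IK F v) _
          ((P.map (algebraMap F (IK F v))).coeff j - (R v).coeff j)) < ε := by
  have hex : ∀ φ : F →+* ℝ, ∃ v : InfinitePlace F, v.IsReal ∧ ∃ e : IK F v ≃+* ℝ,
      ∀ x : F, e (algebraMap F (IK F v) x) = φ x := by
    intro φ
    obtain ⟨v, hv, e, he⟩ := Hm.exists_real F F φ
    refine ⟨v, hv, (e.symm : v.Completion ≃+* ℝ), fun x => ?_⟩
    have h1 : e (φ x) = algebraMap F v.Completion x := he x
    change e.symm (algebraMap F v.Completion x) = φ x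
    rw [← h1, RingEquiv.symm_apply_apply]
  choose w hw e he using hex
  have hcomp : ∀ φ : F →+* ℝ, (e φ : IK F (w φ) →+* ℝ).comp (algebraMap F (IK F (w φ))) = φ :=
    fun φ => RingHom.ext (he φ)
  refine ⟨fun φ => (R (w φ)).map (e φ : IK F (w φ) →+* ℝ), fun φ => ⟨?_, ?_, ?_⟩, ?_⟩
  · exact (hR (w φ) (hw φ)).1.map _
  · rw [natDegree_map]
    exact (hR (w φ) (hw φ)).2.1
  · have h1 := Polynomial.map_dvd (e φ : IK F (w φ) →+* ℝ) (hR (w φ) (hw φ)).2.2
    rw [Polynomial.map_map, hcomp, Polynomial.map_sub, Polynomial.map_map, hcomp] at h1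
    exact h1
  · intro P ε hP v hv j
    obtain ⟨e', he'⟩ := (hν' v hv).real
    rw [he']
    have h1 := hP ((e' : IK F v →+* ℝ).comp (algebraMap F (IK F v))) j
    have h2 := place_unique' (hw ((e' : IK F v →+* ℝ).comp (algebraMap F (IK F v)))) hv
      (e ((e' : IK F v →+* ℝ).comp (algebraMap F (IK F v))) : _ →+* ℝ) (e' : IK F v →+* ℝ)
      (fun x => he _ x) R
    beta_reduce at h1
    rw [h2, coeff_sub, coeff_map, coeff_map] at h1
    rw [map_sub, coeff_map]
    exact h1

end Dq
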