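import Pool.Agent.Lib.MP_f80667_ag.Dq.WB

/-! Lines over the completions at the auxiliary places. -/

open Polynomial IsDedekindDomain NumberField
open scoped WithZero

namespace Dq

open ZC Tq Dp

variable {F : Type} [Field F] [NumberField F] {A B : Matrix (Fin 5) (Fin 5) F} {wv : Fin 5 → F}
  {ι : Type} [Fintype ι] {K : ι → Type} [∀ i, Field (K i)] [∀ i, NumberField (K i)]
  [∀ i, Algebra F (K i)] {θ : ∀ i, K i} {M : Type} [Field M] [NumberField M] [Algebra F M]
  {α : M} {w : HeightOneSpectrum (𝓞 M)}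

omit [NumberField F] in
private theorem wd_sum (P : F[X]) (α : M) : aeval α P =
    ∑ i ∈ Finset.range (P.natDegree + 1), algebraMap F M (P.coeff i) * α ^ i := by
  rw [aeval_eq_sum_range]
  exact Finset.sum_congr rfl fun i _ => Algebra.smul_def _ _

/-- The value at an integral element of a polynomial with small coefficients. -/
private theorem wd_lt {e : ℕ} (he : 0 < e) (hev : ∀ x : F, w.valuation M (algebraMap F M x) =
    (w.under (𝓞 F)).valuation F x ^ e) (hα : w.valuation M α ≤ 1) {Q : F[X]}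
    {c : WithZero (Multiplicative ℤ)}
    (hQ : ∀ j, (w.under (𝓞 F)).valuation F (Q.coeff j) < c) :
    w.valuation M (aeval α Q) < c ^ e := by
  have hc : c ≠ 0 := ne_of_gt (lt_of_le_of_lt zero_le' (hQ 0))
  rw [wd_sum]
  refine Valuation.map_sum_lt _ (pow_ne_zero e hc) fun i _ => ?_
  rw [map_mul, map_pow, hev]
  exact lt_of_le_of_lt (mul_le_of_le_one_right' (pow_le_one' hα i))
    (pow_lt_pow_left₀ (hQ i) zero_le' he.ne')

private theorem wd_le {e : ℕ} (hev : ∀ x : F, w.valuation M (algebraMap F M x) =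
    (w.under (𝓞 F)).valuation F x ^ e) (hα : w.valuation M α ≤ 1) {Q : F[X]}
    (hQ : ∀ j, (w.under (𝓞 F)).valuation F (Q.coeff j) ≤ 1) :
    w.valuation M (aeval α Q) ≤ 1 := by
  rw [wd_sum]
  refine Valuation.map_sum_le _ fun i _ => ?_
  rw [map_mul, map_pow, hev]
  exact mul_le_one' (pow_le_one' (hQ i) e) (pow_le_one' hα i)

/-- The value near zero. -/
private theorem wd_near (hα : w.valuation M α < 1) {Q : F[X]}
    (hQ : ∀ j, (w.under (𝓞 F)).valuation F (Q.coeff j) ≤ 1) :
    w.valuation M (aeval α Q - algebraMap F M (Q.coeff 0)) < 1 := by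
  obtain ⟨e, he, hev⟩ := exists_ram F M w
  have h1 : aeval α Q - algebraMap F M (Q.coeff 0) = α * aeval α Q.divX := by
    have h2 := congrArg (aeval α) (X_mul_divX_add Q)
    rw [map_add, map_mul, aeval_X, aeval_C] at h2
    rw [← h2]
    ring
  rw [h1, map_mul]
  refine mul_lt_one_of_lt_of_le hα (wd_le hev hα.le fun j => ?_)
  rw [coeff_divX]
  exact hQ _

/-- If `α` is in the maximal ideal then the member is nondegenerate modulo `w`. -/
private theorem wd_zero (hg : Gd A B wv K θ (w.under (𝓞 F))) (hα : w.valuation M α < 1) :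
    TIw A B α w := by
  obtain ⟨e, he, hev⟩ := exists_ram F M w
  refine w_unit hg hα.le ?_
  have hint : ∀ j, (w.under (𝓞 F)).valuation F ((chp A B).coeff j) ≤ 1 := by
    intro j
    let A' : Matrix (Fin 5) (Fin 5) ((w.under (𝓞 F)).valuation F).integer :=
      Matrix.of fun i j => ⟨A i j, hg.a i j⟩
    let B' : Matrix (Fin 5) (Fin 5) ((w.under (𝓞 F)).valuation F).integer :=
      Matrix.of fun i j => ⟨B i j, hg.b i j⟩
    have h5 := chp_map (((w.under (𝓞 F)).valuation F).integer.subtype) A' B'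
    have h6 : A'.map (((w.under (𝓞 F)).valuation F).integer.subtype) = A :=
      Matrix.ext fun i j => rfl
    have h7 : B'.map (((w.under (𝓞 F)).valuation F).integer.subtype) = B :=
      Matrix.ext fun i j => rfl
    rw [h6, h7] at h5
    rw [h5, coeff_map]
    have h8 : ∀ z : ((w.under (𝓞 F)).valuation F).integer,
        (w.under (𝓞 F)).valuation F (((w.under (𝓞 F)).valuation F).integer.subtype z) ≤ 1 :=
      fun z => z.2
    exact h8 _
  have h0 : (chp A B).coeff 0 = (A + A.transpose).det := by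
    have h1 := chp_aeval A B (0 : F)
    rw [zero_smul, sub_zero] at h1
    rw [coeff_zero_eq_aeval_zero, h1]
    congr 1
  have h2 := wd_near hα hint
  have h3 : w.valuation M (algebraMap F M ((chp A B).coeff 0)) = 1 := by
    rw [hev, h0, hg.da, one_pow]
  have h4 : aeval α (chp A B) = (aeval α (chp A B) - algebraMap F M ((chp A B).coeff 0)) +
      algebraMap F M ((chp A B).coeff 0) := by ring
  rw [h4, Valuation.map_add_eq_of_lt_right _ (by rw [h3]; exact h2), h3]

/-- **The places above `p`.** Proof. If `α` is not integral: `w_nonint`; if `chp A B` is a unit at `α`: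
`w_unit`. Otherwise `w_root`, `Emb.dlp`; `ρ α` is a unit (`Emb.eval`). `|Q α| < |m / d ^ 2|` at `w`
(`exists_ram`), so `Q α + m / d ^ 2 = (m / d ^ 2) u` with a unit `u` and
`mf A B (α) = - ρ α / (Q α + m / d ^ 2) = d ^ 2 * (unit)`; `chp_mf`, `Gd.db`; `w_even`. -/
theorem w_pole (hB : ND A B (0 : F) 1) (hres : Res (mf A B) K θ)
    (hg : Gd A B wv K θ (w.under (𝓞 F))) {ρ Q : F[X]} {m d : F} (hm : m ≠ 0) (hd : d ≠ 0)
    (hρ : ∀ j, (w.under (𝓞 F)).valuation F (ρ.coeff j) ≤ 1)
    (hρu : ∀ i (u : HeightOneSpectrum (𝓞 (K i))), u.under (𝓞 F) = w.under (𝓞 F) →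
      u.valuation (K i) (aeval (θ i) ρ) = 1)
    (hm1 : (w.under (𝓞 F)).valuation F m = 1)
    (hQ : ∀ j, (w.under (𝓞 F)).valuation F (Q.coeff j) <
      (w.under (𝓞 F)).valuation F (m / d ^ 2))
    (h0 : aeval α (ρ + mf A B * (Q + C (m / d ^ 2))) = 0) : TIw A B α w := by
  rcases lt_or_ge 1 (w.valuation M α) with hα | hα
  · exact w_nonint hg hα
  obtain ⟨e, he, hev⟩ := exists_ram F M w
  rcases eq_or_lt_of_le (wd_le hev hα (hg.mf_int hB).2.2.1) with hc | hc
  · exact w_unit hg hα hc
  obtain ⟨i, ε, u, hE⟩ := w_root hB hres hg hα hc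
  -- `ρ` is a unit at `α`
  have hρ1 : w.valuation M (aeval α ρ) = 1 := by
    have h1 := hE.eval hα hρ
    have h2 := hρu i u hE.und
    have h3 : Valued.v (ε (aeval (θ i) ρ)) = 1 := by
      refine le_antisymm ((hE.le _).1 h2.le) (not_lt.1 fun h4 => ?_)
      exact absurd ((und_lt hE.le _).2 h4) (not_lt.2 h2.ge)
    have h5 : Valued.v (algebraMap M (w.adicCompletion M) (aeval α ρ)) = 1 := by
      have h6 : algebraMap M (w.adicCompletion M) (aeval α ρ) =
          (algebraMap M (w.adicCompletion M) (aeval α ρ) - ε (aeval (θ i) ρ)) +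
            ε (aeval (θ i) ρ) := by ring
      rw [h6, Valuation.map_add_eq_of_lt_right _ (by rw [h3]; exact h1), h3]
    rw [← h5]
    exact (HeightOneSpectrum.valuedAdicCompletion_eq_valuation' w _).symm
  have hmd : w.valuation M (algebraMap F M (m / d ^ 2)) =
      (w.under (𝓞 F)).valuation F (m / d ^ 2) ^ e := hev _
  have hQ1 : w.valuation M (aeval α Q) < w.valuation M (algebraMap F M (m / d ^ 2)) := by
    rw [hmd]
    exact wd_lt he hev hα hQ
  have hq : w.valuation M (aeval α Q + algebraMap F M (m / d ^ 2)) =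
      w.valuation M (algebraMap F M (m / d ^ 2)) := Valuation.map_add_eq_of_lt_right _ hQ1
  set q := aeval α Q + algebraMap F M (m / d ^ 2) with hqd
  have hd' : algebraMap F M d ≠ 0 := (_root_.map_ne_zero _).2 hd
  have hm' : algebraMap F M m ≠ 0 := (_root_.map_ne_zero _).2 hm
  have hq0 : q ≠ 0 := by
    intro h1
    rw [h1, map_zero] at hq
    have h2 := (Valuation.zero_iff _).1 hq.symm
    rw [map_div₀, div_eq_zero_iff, map_pow] at h2
    rcases h2 with h2 | h2
    · exact hm' h2
    · exact pow_ne_zero 2 hd' h2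
  have h1 : aeval α ρ + aeval α (mf A B) * q = 0 := by
    rw [hqd]
    simpa using h0
  have h2 : aeval α (chp A B) = algebraMap F M (-(B + B.transpose).det) * aeval α (mf A B) := by
    have h3 := congrArg (aeval α) (chp_mf hB).1
    rw [map_mul, aeval_C] at h3
    exact h3
  refine w_even hg hα (hE.dlp hB hg hα) hd'
    (u := algebraMap F M (-(B + B.transpose).det) * (-aeval α ρ / (q * algebraMap F M d ^ 2))) ?_ ?_
  · rw [map_mul, hev, Valuation.map_neg, hg.db, one_pow, one_mul, map_div₀, Valuation.map_neg, hρ1,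
      map_mul, hq, ← map_mul, ← map_pow, ← map_mul]
    rw [div_mul_cancel₀ m (pow_ne_zero 2 hd), hev, hm1, one_pow, div_one]
  · rw [h2]
    have h3 : aeval α (mf A B) = -aeval α ρ / q := by
      rw [eq_div_iff hq0]
      linear_combination h1
    rw [h3]
    field_simp

/-- **The auxiliary places.** Proof: if `α` is not integral: `w_nonint`. Otherwise
`(α - π⁻¹) α ^ (N - 1)` has valuation less than `1` at `w` (the coefficients of `P` and of the polynomial
differ by elements of valuation less than `1`), and `|α - π⁻¹| > 1`, so `|α| < 1` and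
`chp A B (α)` is near `chp A B (0) = det (A + Aᵀ)`, a unit: `w_unit`. -/
theorem w_aux (hg : Gd A B wv K θ (w.under (𝓞 F))) {P : F[X]} {N : ℕ} (hN : 2 ≤ N) {π : F}
    (hπ0 : π ≠ 0) (hπ : (w.under (𝓞 F)).valuation F π < 1)
    (hP : ∀ j, (w.under (𝓞 F)).valuation F ((P - (X - C π⁻¹) * X ^ (N - 1)).coeff j) < 1)
    (h0 : aeval α P = 0) : TIw A B α w := by
  rcases lt_or_ge 1 (w.valuation M α) with hα | hα
  · exact w_nonint hg hα
  obtain ⟨e, he, hev⟩ := exists_ram F M w
  have h1 := wd_lt he hev hα hP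
  rw [one_pow] at h1
  have h2 : aeval α (P - (X - C π⁻¹) * X ^ (N - 1)) =
      -((α - algebraMap F M π⁻¹) * α ^ (N - 1)) := by
    simp [h0]
  rw [h2, Valuation.map_neg, map_mul, map_pow] at h1
  refine wd_zero hg (lt_of_le_of_ne hα fun h3 => ?_)
  rw [h3, one_pow, mul_one] at h1
  have h4 : 1 < w.valuation M (algebraMap F M π⁻¹) := by
    rw [hev, map_inv₀]
    have h5 : 1 < ((w.under (𝓞 F)).valuation F π)⁻¹ :=
      (one_lt_inv₀ (zero_lt_iff.2 ((Valuation.ne_zero_iff _).2 hπ0))).2 hπ
    exact one_lt_pow₀ h5 he.ne'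
  have h6 : w.valuation M (α - algebraMap F M π⁻¹) = w.valuation M (algebraMap F M π⁻¹) := by
    rw [sub_eq_add_neg, Valuation.map_add_eq_of_lt_right, Valuation.map_neg]
    rw [Valuation.map_neg]
    exact hα.trans_lt h4
  rw [h6] at h1
  exact absurd h1 (not_lt.2 h4.le)

/-- **The Eisenstein place.** Proof: `|α ^ N + (smaller terms)|`: `α` is integral and `|α| < 1`;
`chp A B (α)` is near `det (A + Aᵀ)`: `w_unit`. -/
theorem w_eis (hg : Gd A B wv K θ (w.under (𝓞 F))) {P : F[X]} {N : ℕ} (hN : 1 ≤ N)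
    (hPm : P.Monic) (hPd : P.natDegree = N)
    (hP : ∀ j, (w.under (𝓞 F)).valuation F ((P - X ^ N).coeff j) < 1)
    (h0 : aeval α P = 0) : TIw A B α w := by
  rcases lt_or_ge 1 (w.valuation M α) with hα | hα
  · exact w_nonint hg hα
  obtain ⟨e, he, hev⟩ := exists_ram F M w
  have h1 := wd_lt he hev hα hP
  rw [one_pow] at h1
  have h2 : aeval α (P - X ^ N) = -α ^ N := by
    simp [h0]
  rw [h2, Valuation.map_neg, map_pow] at h1
  refine wd_zero hg (lt_of_le_of_ne hα fun h3 => ?_)
  rw [h3, one_pow] at h1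
  exact absurd h1 (lt_irrefl _)

end Dq
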