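import Pool.Agent.Lib.MP_f80667_ag.Dq.Hvv
import Pool.Agent.Lib.MP_f80667_ag.Dq.WD
import Pool.Agent.Lib.MP_f80667_ag.Dq.GPoly

/-! Lines at all places which are not above the bad ones. -/

open Polynomial IsDedekindDomain NumberField
open scoped WithZero

namespace Dq

open ZC Tq Dp

variable {F : Type} [Field F] [NumberField F] {A B : Matrix (Fin 5) (Fin 5) F} {wv : Fin 5 → F}
  {ι : Type} [Fintype ι] {K : ι → Type} [∀ i, Field (K i)] [∀ i, NumberField (K i)]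
  [∀ i, Algebra F (K i)] {θ : ∀ i, K i}

/-- The properties of the global polynomial `ρ + mf A B * (Q + C (m / d ^ 2))`. `P v`, `v ∈ S'`: local
polynomials, with the precision `g v`; `Hv v`, `v ∈ V`, `v ∉ S'`, with the precision `gv v`. -/
structure GP (A B : Matrix (Fin 5) (Fin 5) F) (N p : ℕ) (S' V : Finset (HeightOneSpectrum (𝓞 F)))
    (P Hv : HeightOneSpectrum (𝓞 F) → F[X]) (g gv : HeightOneSpectrum (𝓞 F) → ℤᵐ⁰)
    (ρ Q : F[X]) (m d : F) : Prop where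
  m0 : m ≠ 0
  d0 : d ≠ 0
  mon : (ρ + mf A B * (Q + C (m / d ^ 2))).Monic
  deg : (ρ + mf A B * (Q + C (m / d ^ 2))).natDegree = N
  pS : ∀ v ∈ S', v.valuation F (p : F) = 1
  pV : ∀ v ∈ V, v.valuation F (p : F) = 1
  near : ∀ v ∈ S', ∀ j,
    v.valuation F ((ρ + mf A B * (Q + C (m / d ^ 2)) - P v).coeff j) < g v
  nearV : ∀ v ∈ V, v ∉ S' → ∀ j, v.valuation F ((Q + C (m / d ^ 2) - Hv v).coeff j) < gv v
  int : ∀ v : HeightOneSpectrum (𝓞 F), v ∉ S' → v.valuation F (p : F) = 1 →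
    ∀ j, v.valuation F ((Q + C (m / d ^ 2)).coeff j) ≤ 1
  pole : ∀ v : HeightOneSpectrum (𝓞 F), v.valuation F (p : F) ≠ 1 → v.valuation F m = 1 ∧
    ∀ j, v.valuation F (Q.coeff j) < v.valuation F (m / d ^ 2)

/-- Integrality of `ρ` outside of `S'`. Proof: `Gd.intp`, `LocP.out`. -/
theorem LocP.int {δ : ∀ i, (K i)ˣ} {N : ℕ} {g : HeightOneSpectrum (𝓞 F) → ℤᵐ⁰}
    {Sb : Finset (HeightOneSpectrum (𝓞 F))} {v₀ : HeightOneSpectrum (𝓞 F)}
    {P₀ : ∀ v : HeightOneSpectrum (𝓞 F), (v.adicCompletion F)[X]}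
    {R₀ : ∀ v : InfinitePlace F, (IK F v)[X]} {S' : Finset (HeightOneSpectrum (𝓞 F))}
    {ρ : F[X]} {P : HeightOneSpectrum (𝓞 F) → F[X]}
    (hL : LocP A B θ δ N g Sb v₀ P₀ R₀ S' ρ P) {v : HeightOneSpectrum (𝓞 F)} (hv : v ∉ S')
    (hg : Gd A B wv K θ v) : ∀ j, v.valuation F (ρ.coeff j) ≤ 1 :=
  hg.intp ρ hL.deg fun i u hu =>
    (hL.out i (Units.mk0 _ (hL.ne i)) rfl u (by rw [hu]; exact hv)).1

/-- **Lines at the places not above `Sb`.** Proof. Let `v = w.under`; `α` is a zero of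
`P = ρ + f * (Q + C (m / d ^ 2))`. `v = v₀`: `w_eis` (`P - X ^ N = (P - P v₀) + C π`). `v ∈ S'`, `v ≠ v₀`:
`w_aux`. `v ∉ S'`, `p` not a unit at `v` (so `v ∉ V` by `pV`): `w_pole` with `LocP.int`, `hV`. `v ∉ S'`, `p` a
unit: `w_out`, `P` is integral at `v` (`LocP.int`, `Gd.mf_int`, `GP.int`); if `v ∈ V`: `hH`; if `v ∉ V`:
`P (θ i) = ρ (θ i)` is a unit (`Res.aeval_f`). -/
theorem tiw_glob (hB : ND A B (0 : F) 1) (hres : Res (mf A B) K θ) {δ : ∀ i, (K i)ˣ} {N : ℕ}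
    (hN : 2 ≤ N) {g gv : HeightOneSpectrum (𝓞 F) → ℤᵐ⁰}
    {Sb : Finset (HeightOneSpectrum (𝓞 F))} (hSb : ∀ v ∉ Sb, Gd A B wv K θ v)
    (hg : ∀ v ∉ Sb, g v ≤ 1)
    {v₀ : HeightOneSpectrum (𝓞 F)}
    {P₀ : ∀ v : HeightOneSpectrum (𝓞 F), (v.adicCompletion F)[X]}
    {R₀ : ∀ v : InfinitePlace F, (IK F v)[X]} {S' V : Finset (HeightOneSpectrum (𝓞 F))}
    {ρ Q : F[X]} {m d : F} {P Hv : HeightOneSpectrum (𝓞 F) → F[X]} {p : ℕ}
    (hL : LocP A B θ δ N g Sb v₀ P₀ R₀ S' ρ P) (hG : GP A B N p S' V P Hv g gv ρ Q m d)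
    (hV : ∀ i (u : HeightOneSpectrum (𝓞 (K i))), u.under (𝓞 F) ∉ V →
      u.valuation (K i) (aeval (θ i) ρ) = 1)
    (hH : ∀ v ∈ V, v ∉ S' → ∀ H : F[X],
      (∀ j, v.valuation F ((H - Hv v).coeff j) < gv v) →
      ∀ i (u : HeightOneSpectrum (𝓞 (K i))), u.under (𝓞 F) = v →
        OutC A B wv θ (ρ + mf A B * H) i u)
    {M : Type} [Field M] [NumberField M] [Algebra F M] {α : M}
    (hα : aeval α (ρ + mf A B * (Q + C (m / d ^ 2))) = 0) {w : HeightOneSpectrum (𝓞 M)}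
    (hw : w.under (𝓞 F) ∉ Sb) : TIw A B α w := by
  have hgd := hSb _ hw
  by_cases h0 : w.under (𝓞 F) = v₀
  · obtain ⟨π, hπ, hP⟩ := hL.eis
    refine w_eis hgd (by omega : 1 ≤ N) hG.mon hG.deg (fun j => ?_) hα
    have h1 := (hG.near v₀ hL.mem j).trans_le (hg v₀ (h0 ▸ hw))
    have h2 : ((ρ + mf A B * (Q + C (m / d ^ 2))) - X ^ N).coeff j =
        ((ρ + mf A B * (Q + C (m / d ^ 2))) - P v₀).coeff j + (C π : F[X]).coeff j := by
      have key : ∀ T : F[X], T - X ^ N = (T - (X ^ N + C π)) + C π := fun T => by ring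
      rw [← coeff_add, hP, key]
    rw [h0, h2]
    refine Valuation.map_add_lt _ h1 ?_
    rw [coeff_C]
    split_ifs
    · rw [hπ, ← WithZero.exp_zero, WithZero.exp_lt_exp]
      norm_num
    · rw [map_zero]
      exact zero_lt_one
  by_cases hS : w.under (𝓞 F) ∈ S'
  · obtain ⟨π, hπ, hP⟩ := hL.aux _ hS hw h0
    refine w_aux hgd hN (π := π) ?_ ?_ (fun j => ?_) hα
    · intro h
      rw [h, map_zero] at hπ
      exact WithZero.exp_ne_zero hπ.symm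
    · rw [hπ, ← WithZero.exp_zero, WithZero.exp_lt_exp]
      norm_num
    · rw [← hP]
      exact (hG.near _ hS j).trans_le (hg _ hw)
  by_cases hp : (w.under (𝓞 F)).valuation F (p : F) = 1
  · have hH1 := hG.int _ hS hp
    have hρ1 := hL.int hS hgd
    have hm1 := (hgd.mf_int hB).1
    refine w_out hB hres hgd hG.mon (fun j => ?_) hα fun i u hu => ?_
    · rw [coeff_add, coeff_mul]
      refine (Valuation.map_add _ _ _).trans (max_le (hρ1 j) ?_)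
      refine Valuation.map_sum_le _ fun x _ => ?_
      rw [map_mul]
      exact mul_le_one' (hm1 _) (hH1 _)
    · by_cases hVv : w.under (𝓞 F) ∈ V
      · exact hH _ hVv hS _ (hG.nearV _ hVv hS) i u hu
      · refine Or.inr (Or.inl ?_)
        rw [map_add, map_mul, hres.aeval_f i, zero_mul, add_zero]
        exact hV i u (by rw [hu]; exact hVv)
  · have hVv : w.under (𝓞 F) ∉ V := fun h => hp (hG.pV _ h)
    exact w_pole hB hres hgd hG.m0 hG.d0 (hL.int hS hgd)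
      (fun i u hu => hV i u (by rw [hu]; exact hVv)) (hG.pole _ hp).1 (hG.pole _ hp).2 hα

end Dq
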