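import Pool.Agent.Lib.MP_f80667_ag.Dq.GlW
import Pool.Agent.Lib.MP_f80667_ag.Dq.GlR
import Pool.Agent.Lib.MP_f80667_ag.Dp.GlobB
import Pool.Agent.Lib.MP_f80667_ag.Dp.WaP

/-! Lines over number fields with given classes at finitely many places, in five variables. -/

open NumberField IsDedekindDomain Polynomial IntermediateField
open scoped WithZero LinearAlgebra.Projectivization

namespace Dq

open ZC Tq Dp

variable {F : Type} [Field F] [NumberField F] {A B : Matrix (Fin 5) (Fin 5) F} {wv : Fin 5 → F}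
  {ι : Type} [Fintype ι] {K : ι → Type} [∀ i, Field (K i)] [∀ i, NumberField (K i)]
  [∀ i, Algebra F (K i)] {θ : ∀ i, K i}

/-- The local polynomials and precisions at a bad place: `g` such that a polynomial over `F` near a
polynomial near `P₀` has the required properties. -/
theorem exists_prec (hs : Sm (AlgebraicClosure F) A B) (v : HeightOneSpectrum (𝓞 F))
    {P₀ : (FK F v)[X]} {z : ℙ (AlgebraicClosure (FK F v)) (Fin 5 → AlgebraicClosure (FK F v)) →₀ ℤ}
    (hD : Dat (A.map (algebraMap F (FK F v))) (B.map (algebraMap F (FK F v))) P₀ z) :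
    ∃ g : ℤᵐ⁰, g ≠ 0 ∧ ∀ P P' : F[X], NearPol v g P₀ P' → P.Monic → P.natDegree = P₀.natDegree →
      (∀ j, v.valuation F ((P - P').coeff j) < g) →
      (∀ y : AlgebraicClosure (FK F v), aeval y P = 0 → ∃ t,
        Root (A.map (algebraMap F (FK F v))) (B.map (algebraMap F (FK F v))) y t) ∧
      ∀ (M : Type) [Field M] [Algebra F M] [FiniteDimensional F M] (α : M), F⟮α⟯ = ⊤ →
        minpoly F α = P → ∀ t : ℙ M (Fin (5 * 5) → M), IsM A B 1 (-α) t →
          ∑ s : M →ₐ[F] AlgebraicClosure (FK F v), Ph (mapPt (s : M →+* _) t) - z ∈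
            ratEq _ (Pl (A.map (algebraMap F (FK F v))) (B.map (algebraMap F (FK F v)))) := by
  have c1 : CharZero (FK F v) := charZero_of_injective_algebraMap (algebraMap F (FK F v)).injective
  obtain ⟨ν, hν, hsm⟩ := exists_nuV F v
  obtain ⟨δ, hδ, key⟩ := glob_loc5 hν.lc (glob_sm5 hs) hD
  obtain ⟨g, hg, hg'⟩ := hsm δ hδ
  refine ⟨g, hg, fun P P' hP' hPm hPd hPP => ?_⟩
  have hclose : ∀ j, ν (algebraMap (FK F v) (AlgebraicClosure (FK F v))
      ((P.map (algebraMap F (FK F v))).coeff j - P₀.coeff j)) < δ := by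
    intro j
    have h1 : Valued.v (algebraMap F (v.adicCompletion F) (P.coeff j) -
        (show (v.adicCompletion F)[X] from P₀).coeff j) < g := by
      have h2 : algebraMap F (v.adicCompletion F) (P.coeff j) -
          (show (v.adicCompletion F)[X] from P₀).coeff j =
          algebraMap F (v.adicCompletion F) ((P - P').coeff j) +
          (algebraMap F (v.adicCompletion F) (P'.coeff j) -
            (show (v.adicCompletion F)[X] from P₀).coeff j) := by
        rw [coeff_sub, map_sub]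
        ring
      rw [h2]
      refine lt_of_le_of_lt (Valuation.map_add _ _ _) (max_lt ?_ (hP'.2.2 j))
      rw [Hm.valC]
      exact hPP j
    have h3 := hg' _ h1
    rw [coeff_map]
    exact h3
  obtain ⟨k1, k2⟩ := key (P.map (algebraMap F (FK F v))) (hPm.map _)
    (by rw [hPm.natDegree_map, hPd]) hclose
  refine ⟨fun y hy => k1 y (by rwa [aeval_map_algebraMap]), fun M _ _ _ α hα hmin t ht => ?_⟩
  exact k2 F M α hα (by rw [hmin]) A B rfl rfl t ht

omit [NumberField F] in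
/-- The member of a generator of a field of degree greater than `5` is nondegenerate. -/
theorem nd_of_big (hB : ND A B (0 : F) 1) {M : Type} [Field M] [Algebra F M] {α : M}
    (hd : 5 < (minpoly F α).natDegree) : ND A B (1 : M) (-α) := by
  have hdet := det_ne_zero_B hB
  have h5 : (chp A B).natDegree = 5 := chp_natDegree hdet
  have h3 : chp A B ≠ 0 := by
    intro h4
    rw [h4, natDegree_zero] at h5
    omega
  have h1 : aeval α (chp A B) ≠ 0 := by
    intro h0
    have h2 : minpoly F α ∣ chp A B := minpoly.dvd F α h0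
    have h4 := natDegree_le_of_dvd h2 h3
    omega
  rw [chp_aeval] at h1
  rw [nd_iff, one_smul, neg_smul, ← sub_eq_add_neg]
  exact h1

/-- **Lines over number fields with given classes.** -/
theorem exists_glob5 (hs : Sm (AlgebraicClosure F) A B) (hA : ND A B (1 : F) 0)
    (hB : ND A B (0 : F) 1) (hres : Res (mf A B) K θ)
    {δ : ∀ i, (K i)ˣ} (hδ : ∀ i, (δ i : K i) = aeval (θ i) (dlp A B wv))
    {Sb : Finset (HeightOneSpectrum (𝓞 F))} (hSb : ∀ v ∉ Sb, Gd A B wv K θ v) {N : ℕ}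
    (hN : 15 ≤ N) (P₀ : ∀ v : HeightOneSpectrum (𝓞 F), (FK F v)[X])
    (R₀ : ∀ v : InfinitePlace F, (IK F v)[X])
    (z : ∀ v : HeightOneSpectrum (𝓞 F), ℙ (AlgebraicClosure (FK F v))
      (Fin 5 → AlgebraicClosure (FK F v)) →₀ ℤ)
    (z' : ∀ v : InfinitePlace F, ℙ (AlgebraicClosure (IK F v))
      (Fin 5 → AlgebraicClosure (IK F v)) →₀ ℤ)
    (hP : ∀ v ∈ Sb, (P₀ v).natDegree = N ∧
      Dat (A.map (algebraMap F (FK F v))) (B.map (algebraMap F (FK F v))) (P₀ v) (z v))
    (hR : ∀ v, v.IsReal → (R₀ v).natDegree + 12 ≤ N ∧ Even (N - (R₀ v).natDegree) ∧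
      Dat (A.map (algebraMap F (IK F v))) (B.map (algebraMap F (IK F v))) (R₀ v) (z' v))
    (hH : HypH θ δ Sb P₀ R₀) :
    ∃ (M : Type) (_ : Field M) (_ : Algebra F M) (_ : FiniteDimensional F M) (α : M)
      (t : ℙ M (Fin (5 * 5) → M)), Module.finrank F M = N ∧ IsM A B 1 (-α) t ∧
      (∀ v ∈ Sb, ∑ s : M →ₐ[F] AlgebraicClosure (FK F v), Ph (mapPt (s : M →+* _) t) - z v ∈
        ratEq _ (Pl (A.map (algebraMap F (FK F v))) (B.map (algebraMap F (FK F v))))) ∧
      ∀ v, v.IsReal → ∑ s : M →ₐ[F] AlgebraicClosure (IK F v), Ph (mapPt (s : M →+* _) t) - z' v ∈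
        ratEq _ (Pl (A.map (algebraMap F (IK F v))) (B.map (algebraMap F (IK F v)))) ⊔
          normCyc _ (Pl (A.map (algebraMap F (IK F v))) (B.map (algebraMap F (IK F v)))) := by
  classical
  have c1 : ∀ v : HeightOneSpectrum (𝓞 F), CharZero (FK F v) := fun v =>
    charZero_of_injective_algebraMap (algebraMap F (FK F v)).injective
  -- precisions at the bad places
  have hg₀ : ∀ v : HeightOneSpectrum (𝓞 F), ∃ g : ℤᵐ⁰, g ≠ 0 ∧ (v ∉ Sb → g = WithZero.exp (-1 : ℤ)) ∧
      (v ∈ Sb → ∀ P P' : F[X], NearPol v g (P₀ v) P' → P.Monic → P.natDegree = N →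
      (∀ j, v.valuation F ((P - P').coeff j) < g) →
      (∀ y : AlgebraicClosure (FK F v), aeval y P = 0 → ∃ t,
        Root (A.map (algebraMap F (FK F v))) (B.map (algebraMap F (FK F v))) y t) ∧
      ∀ (M : Type) [Field M] [Algebra F M] [FiniteDimensional F M] (α : M), F⟮α⟯ = ⊤ →
        minpoly F α = P → ∀ t : ℙ M (Fin (5 * 5) → M), IsM A B 1 (-α) t →
          ∑ s : M →ₐ[F] AlgebraicClosure (FK F v), Ph (mapPt (s : M →+* _) t) - z v ∈
            ratEq _ (Pl (A.map (algebraMap F (FK F v))) (B.map (algebraMap F (FK F v))))) := by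
    intro v
    by_cases hv : v ∈ Sb
    · obtain ⟨g, hg, h1⟩ := exists_prec hs v (hP v hv).2
      refine ⟨g, hg, fun h => absurd hv h, fun _ P P' a b c e => ?_⟩
      exact h1 P P' a b (by rw [c, (hP v hv).1]) e
    · exact ⟨WithZero.exp (-1 : ℤ), WithZero.exp_ne_zero, fun _ => rfl, fun h => absurd h hv⟩
  choose g hg0 hgn hgb using hg₀
  -- the Eisenstein place
  obtain ⟨v₀, hv₀⟩ := exists_notMem F Sb
  obtain ⟨S', ρ, P, hL⟩ := exists_rho hA hB hres hδ hSb hv₀ (N := N) (by omega) (P₀ := P₀)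
    (fun v hv => ⟨(hP v hv).2.monic, (hP v hv).1⟩) hH g hg0
  -- the places where `ρ` is not a unit
  obtain ⟨V, hV⟩ := exists_V (K := K) (θ := θ) (ρ := ρ) hL.ne
  have hHv : ∀ v : HeightOneSpectrum (𝓞 F), ∃ (Hv : F[X]) (gv : ℤᵐ⁰), gv ≠ 0 ∧ gv ≤ 1 ∧
      (v ∈ V → v ∉ S' → Hv.Monic ∧ Hv.natDegree = N - 5 ∧
      (∀ j, v.valuation F (Hv.coeff j) ≤ 1) ∧
      ∀ H : F[X], (∀ j, v.valuation F ((H - Hv).coeff j) < gv) →
        ∀ i (u : HeightOneSpectrum (𝓞 (K i))), u.under (𝓞 F) = v →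
          OutC A B wv θ (ρ + mf A B * H) i u) := by
    intro v
    by_cases hv : v ∉ S'
    · obtain ⟨Hv, gv, h1, h2, h3, h4, h5, h6⟩ := exists_Hv hB hres hδ
        (hSb v fun h => hv (hL.sub v h)) hL.deg hL.ne
        (fun i r hr u hu => hL.out i r hr u (by rwa [hu])) hN
      exact ⟨Hv, gv, h4, h5, fun _ _ => ⟨h1, h2, h3, h6⟩⟩
    · exact ⟨0, 1, one_ne_zero, le_rfl, fun _ h => absurd h hv⟩
  choose Hv gv hgv0 hgv1 hHv using hHv
  -- the real places
  have hRR : ∀ v : InfinitePlace F, ∃ (R : (IK F v)[X])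
      (z₂ : ℙ (AlgebraicClosure (IK F v)) (Fin 5 → AlgebraicClosure (IK F v)) →₀ ℤ), v.IsReal →
      R.natDegree = N ∧ (mf A B).map (algebraMap F (IK F v)) ∣ R - ρ.map (algebraMap F (IK F v)) ∧
      Dat (A.map (algebraMap F (IK F v))) (B.map (algebraMap F (IK F v))) R z₂ ∧
      z₂ - z' v ∈ ratEq _ (Pl (A.map (algebraMap F (IK F v))) (B.map (algebraMap F (IK F v)))) ⊔
        normCyc _ (Pl (A.map (algebraMap F (IK F v))) (B.map (algebraMap F (IK F v)))) := by
    intro v
    by_cases hv : v.IsReal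
    · have c2 : CharZero (IK F v) :=
        charZero_of_injective_algebraMap (algebraMap F (IK F v)).injective
      obtain ⟨R, z₂, h⟩ := exists_real_dat hs hB hres hL.ne hL.sgn hv (hR v hv).2.2 (hR v hv).1
        (hR v hv).2.1
      exact ⟨R, z₂, fun _ => h⟩
    · exact ⟨0, 0, fun h => absurd h hv⟩
  choose R z₂ hRR using hRR
  have c2 : ∀ v : InfinitePlace F, CharZero (IK F v) := fun v =>
    charZero_of_injective_algebraMap (algebraMap F (IK F v)).injective
  obtain ⟨ν', hν'⟩ : ∃ ν' : ∀ v : InfinitePlace F, AbsoluteValue (AlgebraicClosure (IK F v)) ℝ,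
      ∀ v, v.IsReal → NuR F v (ν' v) := by
    refine ⟨fun v => if h : v.IsReal then (exists_nuR F v h).choose else AbsoluteValue.trivial,
      fun v hv => ?_⟩
    change NuR F v (if h : v.IsReal then (exists_nuR F v h).choose else AbsoluteValue.trivial)
    rw [dif_pos hv]
    exact (exists_nuR F v hv).choose_spec
  have hloc : ∀ v ∈ {v : InfinitePlace F | v.IsReal}, ∃ δ > 0, ∀ δ', 0 < δ' → δ' ≤ δ →
      ∀ P : (IK F v)[X], P.Monic → P.natDegree = (R v).natDegree →
      (∀ i, ν' v (algebraMap (IK F v) (AlgebraicClosure (IK F v)) (P.coeff i - (R v).coeff i)) < δ') →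
      (∀ y : AlgebraicClosure (IK F v), aeval y P = 0 → ∃ t,
        Root (A.map (algebraMap F (IK F v))) (B.map (algebraMap F (IK F v))) y t) ∧
      ∀ (M : Type) [Field M] [Algebra F M] [FiniteDimensional F M] (α : M), F⟮α⟯ = ⊤ →
        (minpoly F α).map (algebraMap F (IK F v)) = P →
        ∀ t : ℙ M (Fin (5 * 5) → M), IsM A B 1 (-α) t →
          ∑ s : M →ₐ[F] AlgebraicClosure (IK F v), Ph (mapPt (s : M →+* _) t) - z₂ v ∈
            ratEq _ (Pl (A.map (algebraMap F (IK F v))) (B.map (algebraMap F (IK F v)))) := by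
    intro v hv
    obtain ⟨δ, h1, h2⟩ := glob_loc5 (hν' v hv).lc (glob_sm5 hs) (hRR v hv).2.2.1
    refine ⟨δ, h1, fun δ' _ hle P hP hd hc => ?_⟩
    obtain ⟨h3, h4⟩ := h2 P hP hd fun i => (hc i).trans_le hle
    exact ⟨h3, fun M _ _ _ α hα hmin t ht => h4 F M α hα hmin A B rfl rfl t ht⟩
  obtain ⟨δ₂, hδ₂, k2⟩ := glob_min {v : InfinitePlace F | v.IsReal} (Set.toFinite _) _ hloc
  obtain ⟨Rr, hRr, hRc⟩ := exists_real_pol (f := mf A B) (ρ := ρ) (N := N) (R := R)
    (fun v hv => ⟨(hRR v hv).2.2.1.monic, (hRR v hv).1, (hRR v hv).2.1⟩) hν'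
  -- the prime number
  obtain ⟨p, hp, hpu⟩ := exists_prime_unit F (S' ∪ V)
  have hdisj : Disjoint S' (V \ S') := Finset.disjoint_sdiff
  obtain ⟨fm, fd⟩ := mf_monic hB
  set G : HeightOneSpectrum (𝓞 F) → ℤᵐ⁰ := fun v => if v ∈ S' then g v else gv v with hGdef
  have hG0 : ∀ v, G v ≠ 0 := by
    intro v
    change (if v ∈ S' then g v else gv v) ≠ 0
    split_ifs
    · exact hg0 v
    · exact hgv0 v
  have hGS : ∀ v ∈ S', G v = g v := fun v hv => if_pos hv
  have hGV : ∀ v, v ∉ S' → G v = gv v := fun v hv => if_neg hv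
  obtain ⟨Q, m, d, -, -, m0, d0, Pm, Pd, q1, q2, q3, q4, q5⟩ := exists_gpoly hdisj hp
    (fun v hv => hpu v (Finset.mem_union_left _ hv))
    (fun v hv => hpu v (Finset.mem_union_right _ (Finset.mem_sdiff.1 hv).1)) fm fd hL.deg
    (N := N) (by omega) P hL.mon G hG0
    (fun v hv => by rw [hGV v (Finset.mem_sdiff.1 hv).2]; exact hgv1 v)
    (fun v hv j => by rw [hGS v hv]; exact hL.rem v hv j) Hv
    (fun v hv => ⟨(hHv v (Finset.mem_sdiff.1 hv).1 (Finset.mem_sdiff.1 hv).2).1,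
      (hHv v (Finset.mem_sdiff.1 hv).1 (Finset.mem_sdiff.1 hv).2).2.1⟩)
    (fun v hv => (hHv v (Finset.mem_sdiff.1 hv).1 (Finset.mem_sdiff.1 hv).2).2.2.1) Rr hRr hδ₂
  have hGP : GP A B N p S' V P Hv g gv ρ Q m d :=
    { m0 := m0, d0 := d0, mon := Pm, deg := Pd
      pS := fun v hv => hpu v (Finset.mem_union_left _ hv)
      pV := fun v hv => hpu v (Finset.mem_union_right _ hv)
      near := fun v hv j => by rw [← hGS v hv]; exact q1 v hv j
      nearV := fun v hv hv' j => by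
        rw [← hGV v hv']
        exact q2 v (Finset.mem_sdiff.2 ⟨hv, hv'⟩) j
      int := fun v hv hvp => q3 v hv hvp
      pole := q4 }
  obtain ⟨Pp, hPp⟩ : ∃ Pp : F[X], Pp = ρ + mf A B * (Q + C (m / d ^ 2)) := exists_eq
  have nearP : ∀ v ∈ S', ∀ j, v.valuation F ((Pp - P v).coeff j) < g v := by
    rw [hPp]
    exact hGP.near
  rw [← hPp] at Pm Pd q5
  -- irreducibility
  have hirr : Irreducible Pp := by
    obtain ⟨π, hπ, hPv⟩ := hL.eis
    have h1 : ∀ j, v₀.valuation F ((Pp - (X ^ N + C π)).coeff j) < WithZero.exp (-1 : ℤ) := by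
      intro j
      have h2 := nearP v₀ hL.mem j
      rw [hPv, hgn v₀ hv₀] at h2
      exact h2
    have hlt : (WithZero.exp (-1 : ℤ) : ℤᵐ⁰) < 1 := by
      rw [← WithZero.exp_zero]
      exact WithZero.exp_lt_exp.2 (by norm_num)
    refine irr_of_eis F v₀ Pp Pm (by rw [Pd]; omega) (fun j hj => ?_) ?_
    · rw [Pd] at hj
      have h2 := h1 j
      rw [coeff_sub, coeff_add, coeff_X_pow, if_neg (by omega), zero_add] at h2
      have h3 : Pp.coeff j = (Pp.coeff j - (C π).coeff j) + (C π).coeff j := by ring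
      rw [h3]
      refine lt_of_le_of_lt (Valuation.map_add _ _ _) (max_lt (h2.trans hlt) ?_)
      rw [coeff_C]
      split_ifs
      · rw [hπ]
        exact hlt
      · rw [map_zero]
        exact zero_lt_one
    · have h2 := h1 0
      rw [coeff_sub, coeff_add, coeff_X_pow, if_neg (by omega), zero_add, coeff_C_zero] at h2
      have h3 : Pp.coeff 0 = (Pp.coeff 0 - π) + π := by ring
      rw [h3, Valuation.map_add_eq_of_lt_right _ (by rwa [hπ]), hπ]
  obtain ⟨M, iM, aM, hfd, α, htop, hmin, hfr⟩ : ∃ (M : Type) (_ : Field M) (_ : Algebra F M)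
      (_ : FiniteDimensional F M) (α : M), F⟮α⟯ = ⊤ ∧ minpoly F α = Pp ∧
        Module.finrank F M = N := by
    have : Fact (Irreducible Pp) := ⟨hirr⟩
    have hfd : FiniteDimensional F (AdjoinRoot Pp) := Pm.finite_adjoinRoot
    refine ⟨AdjoinRoot Pp, inferInstance, inferInstance, hfd, AdjoinRoot.root Pp, ?_, ?_, ?_⟩
    · rw [← IntermediateField.toSubalgebra_injective.eq_iff,
        IntermediateField.adjoin_simple_toSubalgebra_of_isAlgebraic
          (Algebra.IsAlgebraic.isAlgebraic _), IntermediateField.top_toSubalgebra]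
      exact AdjoinRoot.adjoinRoot_eq_top
    · rw [AdjoinRoot.minpoly_root hirr.ne_zero, Pm.leadingCoeff, inv_one, C_1, mul_one]
    · rw [← Pd]
      exact (AdjoinRoot.powerBasis hirr.ne_zero).finrank
  have hnf : NumberField M := NumberField.of_module_finite F M
  have hroot0 : aeval α Pp = 0 := by
    rw [← hmin]
    exact minpoly.aeval F α
  have hroot : ∀ {Ω : Type} [Field Ω] [Algebra F Ω] (s : M →ₐ[F] Ω), aeval (s α) Pp = 0 :=
    fun s => by rw [aeval_algHom_apply, hroot0, map_zero]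
  have r1 : ∀ v ∈ Sb, ∀ s : M →ₐ[F] AlgebraicClosure (FK F v), ∃ t,
      Root (A.map (algebraMap F (FK F v))) (B.map (algebraMap F (FK F v))) (s α) t :=
    fun v hv s => (hgb v hv Pp (P v) (hL.near v hv) Pm Pd
      (fun j => nearP v (hL.sub v hv) j)).1 _ (hroot s)
  have r1' : ∀ v ∈ Sb, ∀ t : ℙ M (Fin (5 * 5) → M), IsM A B 1 (-α) t →
      ∑ s : M →ₐ[F] AlgebraicClosure (FK F v), Ph (mapPt (s : M →+* _) t) - z v ∈
        ratEq _ (Pl (A.map (algebraMap F (FK F v))) (B.map (algebraMap F (FK F v)))) :=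
    fun v hv => (hgb v hv Pp (P v) (hL.near v hv) Pm Pd
      (fun j => nearP v (hL.sub v hv) j)).2 M α htop hmin
  have r2 : ∀ v : InfinitePlace F, v.IsReal → ∀ s : M →ₐ[F] AlgebraicClosure (IK F v), ∃ t,
      Root (A.map (algebraMap F (IK F v))) (B.map (algebraMap F (IK F v))) (s α) t :=
    fun v hv s => (k2 v hv (Pp.map (algebraMap F (IK F v))) (Pm.map _)
      (by rw [Pm.natDegree_map, Pd, (hRR v hv).1]) (hRc Pp δ₂ q5 v hv)).1 _
        (by rw [aeval_map_algebraMap]; exact hroot s)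
  have r2' : ∀ v : InfinitePlace F, v.IsReal → ∀ t : ℙ M (Fin (5 * 5) → M), IsM A B 1 (-α) t →
      ∑ s : M →ₐ[F] AlgebraicClosure (IK F v), Ph (mapPt (s : M →+* _) t) - z₂ v ∈
        ratEq _ (Pl (A.map (algebraMap F (IK F v))) (B.map (algebraMap F (IK F v)))) :=
    fun v hv => (k2 v hv (Pp.map (algebraMap F (IK F v))) (Pm.map _)
      (by rw [Pm.natDegree_map, Pd, (hRR v hv).1]) (hRc Pp δ₂ q5 v hv)).2 M α htop
        (by rw [hmin])
  -- nondegeneracy over `M`
  have hnd : ND A B (1 : M) (-α) :=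
    nd_of_big hB (α := α) (by rw [hmin, Pd]; omega)
  obtain ⟨t, ht⟩ := exists_line5 hs hnd (fun w => by
      by_cases hw : w.under (𝓞 F) ∈ Sb
      · exact tiw_of_root (r1 _ hw)
      · exact tiw_glob hB hres (by omega) hSb (fun v hv => by
            rw [hgn v hv, ← WithZero.exp_zero]
            exact WithZero.exp_le_exp.2 (by norm_num)) hL hGP hV
          (fun v hv hv' => (hHv v hv hv').2.2.2) (by rw [← hPp]; exact hroot0) hw)
    (tir_of_root r2)
  refine ⟨M, iM, aM, hfd, α, t, hfr, ht, fun v hv => ?_, fun v hv => ?_⟩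
  · exact r1' v hv t ht
  · have h1 := r2' v hv t ht
    have h2 := add_mem (AddSubgroup.mem_sup_left h1) (hRR v hv).2.2.2
    rw [sub_add_sub_cancel] at h2
    exact h2

end Dq
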