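import Pool.Agent.Lib.MP_f80667_ag.Dq.WB

/-!
Lines over the completions at the places outside of the finite set. `DRt u P θ`: the polynomial `P` over
`K` has near `θ` two conjugate zeros over the unramified quadratic extension of `K_u`.
-/

open Polynomial IsDedekindDomain NumberField
open scoped WithZero

namespace Dq

open ZC Tq Dp

section wc

variable {E Γ : Type*} [Field E] [LinearOrderedCommGroupWithZero Γ] (v : Valuation E Γ)

/-- A zero of a power series with integral coefficients near a double zero. -/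
theorem wc_core {a0 a1 a2 b x p : E} (hp : p ≠ 0) (hx : v x < 1) (h0 : v a0 = v p ^ 2)
    (h1 : v a1 < v p) (h2 : v a2 = 1) (hb : v b ≤ 1)
    (h : a0 + a1 * x + a2 * x ^ 2 + x ^ 3 * b = 0) :
    v x = v p ∧ v (a0 + a2 * x ^ 2) < v p ^ 2 := by
  have hvp : 0 < v p := (Valuation.pos_iff v).2 hp
  have hb3 : v (x ^ 3 * b) ≤ v x ^ 3 := by
    rw [map_mul, map_pow]
    exact mul_le_of_le_one_right' hb
  have e1 : a0 = -(a1 * x + a2 * x ^ 2 + x ^ 3 * b) := by linear_combination h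
  have e2 : a2 * x ^ 2 = -(a0 + a1 * x + x ^ 3 * b) := by linear_combination h
  have e3 : a0 + a2 * x ^ 2 = -(a1 * x + x ^ 3 * b) := by linear_combination h
  have hxp : v x = v p := by
    rcases lt_trichotomy (v x) (v p) with h3 | h3 | h3
    · exfalso
      have k1 : v (a1 * x) < v p ^ 2 := by
        rw [map_mul, pow_two]
        exact mul_lt_mul'' h1 h3 zero_le zero_le
      have k2 : v (a2 * x ^ 2) < v p ^ 2 := by
        rw [map_mul, h2, one_mul, map_pow]
        exact pow_lt_pow_left₀ h3 zero_le two_ne_zero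
      have k3 : v (x ^ 3 * b) < v p ^ 2 := by
        refine lt_of_le_of_lt hb3 (lt_of_le_of_lt ?_ (pow_lt_pow_left₀ h3 zero_le two_ne_zero))
        exact pow_le_pow_right_of_le_one' hx.le (by norm_num)
      have k4 : v a0 < v p ^ 2 := by
        rw [e1, Valuation.map_neg]
        exact Valuation.map_add_lt v (Valuation.map_add_lt v k1 k2) k3
      rw [h0] at k4
      exact lt_irrefl _ k4
    · exact h3
    · exfalso
      have hvx : 0 < v x := lt_trans hvp h3
      have k1 : v (a1 * x) < v x ^ 2 := by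
        rw [map_mul, pow_two]
        exact mul_lt_mul_of_pos_right (lt_trans h1 h3) hvx
      have k2 : v a0 < v x ^ 2 := by
        rw [h0]
        exact pow_lt_pow_left₀ h3 zero_le two_ne_zero
      have k3 : v (x ^ 3 * b) < v x ^ 2 := by
        refine lt_of_le_of_lt hb3 ?_
        exact pow_lt_pow_right_of_lt_one₀ hvx hx (by norm_num)
      have k4 : v (a2 * x ^ 2) < v x ^ 2 := by
        rw [e2, Valuation.map_neg]
        exact Valuation.map_add_lt v (Valuation.map_add_lt v k2 k1) k3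
      rw [map_mul, h2, one_mul, map_pow] at k4
      exact lt_irrefl _ k4
  refine ⟨hxp, ?_⟩
  have k1 : v (a1 * x) < v p ^ 2 := by
    rw [map_mul, pow_two, hxp]
    exact mul_lt_mul_of_pos_right h1 hvp
  have k3 : v (x ^ 3 * b) < v p ^ 2 := by
    refine lt_of_le_of_lt hb3 ?_
    rw [hxp]
    rw [hxp] at hx
    exact pow_lt_pow_right_of_lt_one₀ hvp hx (by norm_num)
  rw [e3, Valuation.map_neg]
  exact Valuation.map_add_lt v k1 k3

variable {k : Type*} [Field k]

theorem wc_eval_le (ε : k →+* E) {x : E} (hx : v x ≤ 1) {R : k[X]}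
    (hR : ∀ j, v (ε (R.coeff j)) ≤ 1) : v (R.eval₂ ε x) ≤ 1 := by
  rw [eval₂_eq_sum, Polynomial.sum]
  refine Valuation.map_sum_le _ fun j _ => ?_
  rw [map_mul, map_pow]
  exact mul_le_one' (hR j) (pow_le_one' hx j)

omit [LinearOrderedCommGroupWithZero Γ] in
theorem wc_divX (ε : k →+* E) (x : E) (T : k[X]) :
    T.eval₂ ε x = T.divX.eval₂ ε x * x + ε (T.coeff 0) := by
  conv_lhs => rw [← divX_mul_X_add T]
  rw [eval₂_add, eval₂_mul, eval₂_X, eval₂_C]

omit [LinearOrderedCommGroupWithZero Γ] in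
theorem wc_split (ε : k →+* E) (x : E) (T : k[X]) :
    T.eval₂ ε x = ε (T.coeff 0) + ε (T.coeff 1) * x + ε (T.coeff 2) * x ^ 2 +
      x ^ 3 * T.divX.divX.divX.eval₂ ε x := by
  rw [wc_divX ε x T, wc_divX ε x T.divX, wc_divX ε x T.divX.divX]
  simp only [coeff_divX]
  ring

theorem wc_taylor_int {P : E[X]} (hP : ∀ j, v (P.coeff j) ≤ 1) {r : E} (hr : v r ≤ 1) (j : ℕ) :
    v ((taylor r P).coeff j) ≤ 1 := by
  obtain ⟨P0, hP0⟩ : ∃ P0 : v.integer[X], P0.map (v.integer.subtype) = P := by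
    have h1 : P ∈ lifts (v.integer.subtype) :=
      (lifts_iff_coeff_lifts P).2 (fun n => ⟨⟨P.coeff n, hP n⟩, rfl⟩)
    exact (mem_lifts P).1 h1
  have hr' : r = v.integer.subtype ⟨r, hr⟩ := rfl
  rw [← hP0, hr', ← map_taylor, coeff_map]
  exact ((taylor (⟨r, hr⟩ : v.integer) P0).coeff j).2

end wc

/-- `P (θ + T) = a₀ + a₁ T + a₂ T ^ 2 + ...` with `|a₀| = |π| ^ 2`, `|a₁| < |π|`, `|a₂| = 1`, and
`- (a₀ / π ^ 2) / a₂` is not a square modulo `u`. -/
def DRt {K : Type} [Field K] [NumberField K] (u : HeightOneSpectrum (𝓞 K)) (P : K[X]) (θ : K) :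
    Prop :=
  ∃ π : K, π ≠ 0 ∧ u.valuation K π < 1 ∧
    u.valuation K ((taylor θ P).coeff 0) = u.valuation K π ^ 2 ∧
    u.valuation K ((taylor θ P).coeff 1) < u.valuation K π ∧
    u.valuation K ((taylor θ P).coeff 2) = 1 ∧
    ∀ y : K, ¬ u.valuation K ((taylor θ P).coeff 0 + (taylor θ P).coeff 2 * (π * y) ^ 2) <
      u.valuation K π ^ 2

section emb

variable {M K : Type} [Field M] [NumberField M] [Field K] [NumberField K]
  {w : HeightOneSpectrum (𝓞 M)} {ι : K →+* w.adicCompletion M} {u : HeightOneSpectrum (𝓞 K)}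

theorem wc_lt (h : ∀ x : K, u.valuation K x ≤ 1 ↔ Valued.v (ι x) ≤ 1) {a b : K} (hb : b ≠ 0) :
    u.valuation K a < u.valuation K b ↔ Valued.v (ι a) < Valued.v (ι b) := by
  have h1 := und_lt h (a / b)
  have h2 : u.valuation K b ≠ 0 := (Valuation.ne_zero_iff _).2 hb
  have h3 : Valued.v (ι b) ≠ 0 := (Valuation.ne_zero_iff _).2 ((map_ne_zero ι).2 hb)
  rwa [map_div₀, map_div₀, map_div₀, div_lt_one₀ (zero_lt_iff.2 h2),
    div_lt_one₀ (zero_lt_iff.2 h3)] at h1

theorem wc_one (h : ∀ x : K, u.valuation K x ≤ 1 ↔ Valued.v (ι x) ≤ 1) {a : K} :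
    u.valuation K a = 1 ↔ Valued.v (ι a) = 1 := by
  have h1 := und_lt h a
  have h2 := h a
  constructor
  · intro h3
    refine le_antisymm (h2.1 h3.le) (not_lt.1 fun h4 => ?_)
    exact absurd (h1.2 h4) (by rw [h3]; exact lt_irrefl _)
  · intro h3
    refine le_antisymm (h2.2 h3.le) (not_lt.1 fun h4 => ?_)
    exact absurd (h1.1 h4) (by rw [h3]; exact lt_irrefl _)

theorem wc_eq (h : ∀ x : K, u.valuation K x ≤ 1 ↔ Valued.v (ι x) ≤ 1) {a b : K} (hb : b ≠ 0)
    (e : u.valuation K a = u.valuation K b) : Valued.v (ι a) = Valued.v (ι b) := by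
  have h2 : u.valuation K b ≠ 0 := (Valuation.ne_zero_iff _).2 hb
  have h3 : Valued.v (ι b) ≠ 0 := (Valuation.ne_zero_iff _).2 ((map_ne_zero ι).2 hb)
  have h4 : u.valuation K (a / b) = 1 := by rw [map_div₀, e, div_self h2]
  have h5 := (wc_one h).1 h4
  rw [map_div₀, map_div₀] at h5
  exact (div_eq_one_iff_eq h3).1 h5

end emb

variable {F : Type} [Field F] [NumberField F] {A B : Matrix (Fin 5) (Fin 5) F} {wv : Fin 5 → F}
  {ι : Type} [Fintype ι] {K : ι → Type} [∀ i, Field (K i)] [∀ i, NumberField (K i)]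
  [∀ i, Algebra F (K i)] {θ : ∀ i, K i} {M : Type} [Field M] [NumberField M] [Algebra F M]
  {α : M} {w : HeightOneSpectrum (𝓞 M)}

omit [Fintype ι] in
/-- The expansion at `θ i` vanishes at `α - ε (θ i)`. -/
theorem wc_zero {i : ι} {ε : K i →+* w.adicCompletion M} {u : HeightOneSpectrum (𝓞 (K i))}
    (h : Emb (F := F) θ α w i ε u) {P : F[X]} (h0 : aeval α P = 0) :
    (taylor (θ i) (P.map (algebraMap F (K i)))).eval₂ ε
      (algebraMap M (w.adicCompletion M) α - ε (θ i)) = 0 := by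
  have hcomp : ε.comp (algebraMap F (K i)) =
      (algebraMap M (w.adicCompletion M)).comp (algebraMap F M) := RingHom.ext h.com
  rw [← eval_map, map_taylor, taylor_eval, sub_add_cancel, Polynomial.map_map, hcomp, eval_map,
    ← hom_eval₂, ← aeval_def, h0, map_zero]

/-- **A zero of `P` near a double zero.** Proof. Let `e = ε (θ i)`, `x = α - e` (in the completion
`E` of `M`), `p = ε π`, `a j = ε ((taylor (θ i) P).coeff j)`; `0 = P α = a 0 + a 1 x + a 2 x ^ 2 + x ^ 3 b`
with `b` integral. If `|x| < |p|` then `a 0` dominates, if `|x| > |p|` then `a 2 x ^ 2` dominates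
(`|a 1 x| < |p| |x|`, `|x| < 1`), contradictions. So `|x| = |p|`, and `z = x / p` is a unit with
`|a 0 + a 2 (p z) ^ 2| < |p| ^ 2`. So `- (a 0 / p ^ 2) / a 2`, an element of `K i` which is not a square
modulo `u`, is a square modulo `w` (`z`). The residue field of `u` is finite, so the quotient of two
nonsquare units of `K i` is a square modulo `u`; hence every unit of `K i` is a square modulo `w`. -/
theorem dr_sq {i : ι} {ε : K i →+* w.adicCompletion M} {u : HeightOneSpectrum (𝓞 (K i))}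
    (h : Emb (F := F) θ α w i ε u) (hu2 : u.valuation (K i) 2 = 1) {P : F[X]}
    (hP : ∀ j, (w.under (𝓞 F)).valuation F (P.coeff j) ≤ 1)
    (hθ : u.valuation (K i) (θ i) ≤ 1) (h0 : aeval α P = 0)
    (hD : DRt u (P.map (algebraMap F (K i))) (θ i)) {x : K i} (hx : u.valuation (K i) x = 1) :
    ∃ y : w.adicCompletion M, Valued.v (ε x - y ^ 2) < 1 := by
  by_cases hxs : ∃ y, u.valuation (K i) (x - y ^ 2) < 1
  · obtain ⟨y, hy⟩ := hxs
    exact ⟨ε y, by rw [← map_pow, ← map_sub]; exact (und_lt h.le _).1 hy⟩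
  obtain ⟨π, hπ0, hπ1, d0, d1, d2, dn⟩ := hD
  have hT := wc_zero h h0
  have hPi : ∀ j, u.valuation (K i) ((P.map (algebraMap F (K i))).coeff j) ≤ 1 := by
    intro j
    obtain ⟨e, -, he⟩ := exists_ram F (K i) u
    rw [coeff_map, he, h.und]
    exact pow_le_one' (hP j) e
  have hTi := wc_taylor_int (u.valuation (K i)) hPi hθ
  obtain ⟨T, hTd⟩ : ∃ T, T = taylor (θ i) (P.map (algebraMap F (K i))) := ⟨_, rfl⟩
  rw [← hTd] at d0 d1 d2 dn hT hTi
  obtain ⟨ξ, hξ⟩ : ∃ ξ, ξ = algebraMap M (w.adicCompletion M) α - ε (θ i) := ⟨_, rfl⟩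
  have hξ1 : Valued.v ξ < 1 := by rw [hξ]; exact h.near
  rw [← hξ, wc_split] at hT
  have hb : Valued.v (T.divX.divX.divX.eval₂ ε ξ) ≤ 1 := by
    refine wc_eval_le _ ε hξ1.le fun j => ?_
    rw [coeff_divX, coeff_divX, coeff_divX]
    exact (h.le _).1 (hTi _)
  have hεπ : ε π ≠ 0 := (map_ne_zero ε).2 hπ0
  have k0 : Valued.v (ε (T.coeff 0)) = Valued.v (ε π) ^ 2 := by
    rw [← map_pow, ← map_pow]
    exact wc_eq h.le (pow_ne_zero 2 hπ0) (by rw [d0, map_pow])
  obtain ⟨hxp, hlt⟩ := wc_core Valued.v hεπ hξ1 k0 ((wc_lt h.le hπ0).1 d1)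
    ((wc_one h.le).1 d2) hb hT
  -- the nonsquare unit
  obtain ⟨c, hc⟩ : ∃ c, c = -(T.coeff 0 / (T.coeff 2 * π ^ 2)) := ⟨_, rfl⟩
  have ht2 : T.coeff 2 ≠ 0 := by
    intro h3
    rw [h3, map_zero] at d2
    exact zero_ne_one d2
  have hvπ : u.valuation (K i) π ≠ 0 := (Valuation.ne_zero_iff _).2 hπ0
  have hc1 : u.valuation (K i) c = 1 := by
    rw [hc, Valuation.map_neg, map_div₀, map_mul, d0, d2, one_mul, map_pow]
    exact div_self (pow_ne_zero 2 hvπ)
  have hcn : ¬ ∃ y, u.valuation (K i) (c - y ^ 2) < 1 := by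
    rintro ⟨y, hy⟩
    apply dn y
    have e1 : T.coeff 0 + T.coeff 2 * (π * y) ^ 2 = -(T.coeff 2 * π ^ 2) * (c - y ^ 2) := by
      rw [hc]
      field_simp
      ring
    rw [e1, map_mul, Valuation.map_neg, map_mul, d2, one_mul, map_pow]
    have h3 : 0 < u.valuation (K i) π ^ 2 := zero_lt_iff.2 (pow_ne_zero 2 hvπ)
    calc u.valuation (K i) π ^ 2 * u.valuation (K i) (c - y ^ 2)
        < u.valuation (K i) π ^ 2 * 1 := mul_lt_mul_of_pos_left hy h3
      _ = u.valuation (K i) π ^ 2 := mul_one _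
  have hx0 : x ≠ 0 := by
    intro h3
    rw [h3, map_zero] at hx
    exact zero_ne_one hx
  have hc0 : c ≠ 0 := by
    intro h3
    rw [h3, map_zero] at hc1
    exact zero_ne_one hc1
  have hX : u.valuation (K i) ((Units.mk0 x hx0 : (K i)ˣ) : K i) = 1 := hx
  have hC : u.valuation (K i) ((Units.mk0 c hc0 : (K i)ˣ) : K i) = 1 := hc1
  have hXC := Hm.mul_mem_LSq hu2 hX hC (fun h3 => hxs ((mem_LSq_iff hu2 hX).1 h3))
    (fun h3 => hcn ((mem_LSq_iff hu2 hC).1 h3))
  have hXC1 : u.valuation (K i) ((Units.mk0 x hx0 * Units.mk0 c hc0 : (K i)ˣ) : K i) = 1 := by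
    rw [Units.val_mul, map_mul, hX, hC, mul_one]
  obtain ⟨y, hy⟩ := (mem_LSq_iff hu2 hXC1).1 hXC
  rw [Units.val_mul, Units.val_mk0, Units.val_mk0, und_lt h.le, map_sub, map_mul, map_pow] at hy
  -- the square root of `ε c`
  obtain ⟨z, hz⟩ : ∃ z, z = ξ / ε π := ⟨_, rfl⟩
  have hvεπ : Valued.v (ε π) ≠ 0 := (Valuation.ne_zero_iff _).2 hεπ
  have hz1 : Valued.v z = 1 := by
    rw [hz, map_div₀, hxp, div_self hvεπ]
  have hz0 : z ≠ 0 := by
    intro h3
    rw [h3, map_zero] at hz1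
    exact zero_ne_one hz1
  have hεt2 : ε (T.coeff 2) ≠ 0 := (map_ne_zero ε).2 ht2
  have hcz : Valued.v (z ^ 2 - ε c) < 1 := by
    have e1 : z ^ 2 - ε c = (ε (T.coeff 0) + ε (T.coeff 2) * ξ ^ 2) /
        (ε (T.coeff 2) * ε π ^ 2) := by
      rw [hz, hc, map_neg, map_div₀, map_mul, map_pow]
      field_simp
      ring
    rw [e1, map_div₀, map_mul, (wc_one h.le).1 d2, one_mul, map_pow]
    exact (div_lt_one₀ (zero_lt_iff.2 (pow_ne_zero 2 hvεπ))).2 hlt
  refine ⟨ε y / z, ?_⟩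
  have e2 : ε x - (ε y / z) ^ 2 = (ε x * (z ^ 2 - ε c) + (ε x * ε c - ε y ^ 2)) / z ^ 2 := by
    field_simp
    ring
  rw [e2, map_div₀, map_pow, hz1, one_pow, div_one]
  refine Valuation.map_add_lt _ ?_ hy
  rw [map_mul, (wc_one h.le).1 hx, one_mul]
  exact hcz

/-- A zero of a monic polynomial which is integral below is integral. -/
theorem wc_int {P : F[X]} (hP : P.Monic)
    (hPi : ∀ j, (w.under (𝓞 F)).valuation F (P.coeff j) ≤ 1) (h0 : aeval α P = 0) :
    w.valuation M α ≤ 1 := by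
  obtain ⟨e, -, he⟩ := exists_ram F M w
  have hint : ∀ j, w.valuation M (algebraMap F M (P.coeff j)) ≤ 1 := by
    intro j
    rw [he]
    exact pow_le_one' (hPi j) e
  by_contra hcon
  rw [not_le] at hcon
  have h1 : aeval α P = α ^ P.natDegree + ∑ j ∈ Finset.range P.natDegree,
      algebraMap F M (P.coeff j) * α ^ j := by
    rw [aeval_def, eval₂_eq_sum_range, Finset.sum_range_succ, coeff_natDegree, hP.leadingCoeff,
      map_one, one_mul, add_comm]
  rw [h1] at h0
  have hn : P.natDegree ≠ 0 := by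
    intro hn
    rw [hn] at h0
    simp at h0
  have h2 : w.valuation M (∑ j ∈ Finset.range P.natDegree,
      algebraMap F M (P.coeff j) * α ^ j) < w.valuation M α ^ P.natDegree := by
    refine Valuation.map_sum_lt _ ?_ fun j hj => ?_
    · exact pow_ne_zero _ (ne_of_gt (lt_trans zero_lt_one hcon))
    · rw [map_mul, map_pow]
      refine lt_of_le_of_lt (mul_le_of_le_one_left' (hint j)) ?_
      exact pow_lt_pow_right₀ hcon (Finset.mem_range.1 hj)
  have h3 : α ^ P.natDegree = -(∑ j ∈ Finset.range P.natDegree,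
      algebraMap F M (P.coeff j) * α ^ j) := by linear_combination h0
  rw [← map_pow, h3, Valuation.map_neg] at h2
  exact lt_irrefl _ h2

/-- **Places outside of the finite set.** Proof. `α` is integral (`P` is monic and integral). If
`chp A B` is a unit at `α`: `w_unit`. Otherwise `w_root`, `Emb.dlp`; if `δ` is a square at `u` then it is
a square modulo `w` (`Emb.eval` for `dlp A B wv`), `w_sq`. If `P (θ i)` is a unit then so is `P α`
(`Emb.eval`), a contradiction. In the third case `dr_sq` for `x = aeval (θ i) (dlp A B wv)`, `w_sq`. -/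
theorem w_out (hB : ND A B (0 : F) 1) (hres : Res (mf A B) K θ)
    (hg : Gd A B wv K θ (w.under (𝓞 F))) {P : F[X]} (hP : P.Monic)
    (hPi : ∀ j, (w.under (𝓞 F)).valuation F (P.coeff j) ≤ 1) (h0 : aeval α P = 0)
    (h : ∀ i (u : HeightOneSpectrum (𝓞 (K i))), u.under (𝓞 F) = w.under (𝓞 F) →
      (∃ y : K i, u.valuation (K i) (aeval (θ i) (dlp A B wv) - y ^ 2) < 1) ∨
      u.valuation (K i) (aeval (θ i) P) = 1 ∨ DRt u (P.map (algebraMap F (K i))) (θ i)) :
    TIw A B α w := by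
  have hα := wc_int hP hPi h0
  obtain ⟨-, -, hci, hdi⟩ := hg.mf_int hB
  have hle : w.valuation M (aeval α (chp A B)) ≤ 1 := by
    rw [aeval_def]
    refine wc_eval_le _ _ hα fun j => ?_
    obtain ⟨e, -, he⟩ := exists_ram F M w
    rw [he]
    exact pow_le_one' (hci j) e
  rcases eq_or_lt_of_le hle with h1 | h1
  · exact w_unit hg hα h1
  obtain ⟨i, ε, u, hE⟩ := w_root hB hres hg hα h1
  have hd1 := hE.dlp hB hg hα
  have hev := hE.eval hα hdi
  have hfin : (∃ y : w.adicCompletion M, Valued.v (ε (aeval (θ i) (dlp A B wv)) - y ^ 2) < 1) →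
      TIw A B α w := by
    rintro ⟨y, hy⟩
    refine w_sq hg hα hd1 (y := y) ?_
    have e1 : algebraMap M (w.adicCompletion M) (aeval α (dlp A B wv)) - y ^ 2 =
        (algebraMap M (w.adicCompletion M) (aeval α (dlp A B wv)) -
          ε (aeval (θ i) (dlp A B wv))) + (ε (aeval (θ i) (dlp A B wv)) - y ^ 2) := by ring
    rw [e1]
    exact Valuation.map_add_lt _ hev hy
  rcases h i u hE.und with h2 | h2 | h2
  · obtain ⟨y, hy⟩ := h2
    refine hfin ⟨ε y, ?_⟩
    rw [← map_pow, ← map_sub]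
    exact (und_lt hE.le _).1 hy
  · exfalso
    have h3 := hE.eval hα hPi
    rw [h0, map_zero, zero_sub, Valuation.map_neg, (wc_one hE.le).1 h2] at h3
    exact lt_irrefl _ h3
  · refine hfin (dr_sq hE ?_ hPi ?_ h0 h2 (hg.dl i u hE.und))
    · have h3 := hg.unr i u hE.und 2
      rw [map_ofNat, hg.two] at h3
      exact h3
    · exact (hg.theta hB hres i hE.und).le

end Dq
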