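import Pool.Agent.Lib.MP_f80667_ag.Dq.Rho
import Pool.Agent.Lib.MP_f80667_ag.Dq.WC

/-! The polynomials `H v` at the places where `ρ` is not a unit: the double zero. -/

open Polynomial IsDedekindDomain NumberField
open scoped WithZero

namespace Dq

open ZC Tq Dp

variable {F : Type} [Field F] [NumberField F] {A B : Matrix (Fin 5) (Fin 5) F} {wv : Fin 5 → F}
  {ι : Type} [Fintype ι] {K : ι → Type} [∀ i, Field (K i)] [∀ i, NumberField (K i)]
  [∀ i, Algebra F (K i)] {θ : ∀ i, K i}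

/-- The condition of `w_out` at a place `u`. -/
def OutC (A B : Matrix (Fin 5) (Fin 5) F) (wv : Fin 5 → F) (θ : ∀ i, K i) (P : F[X]) (i : ι)
    (u : HeightOneSpectrum (𝓞 (K i))) : Prop :=
  (∃ y : K i, u.valuation (K i) (aeval (θ i) (dlp A B wv) - y ^ 2) < 1) ∨
    u.valuation (K i) (aeval (θ i) P) = 1 ∨ DRt u (P.map (algebraMap F (K i))) (θ i)

/-- A nonzero lower bound. -/
theorem hv_bound {α : Type*} (s : Finset α) (g : α → ℤᵐ⁰) (hg : ∀ a ∈ s, g a ≠ 0) :
    ∃ b : ℤᵐ⁰, b ≠ 0 ∧ b ≤ 1 ∧ ∀ a ∈ s, b ≤ g a := by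
  classical
  induction s using Finset.induction_on with
  | empty => exact ⟨1, one_ne_zero, le_rfl, by simp⟩
  | insert a s ha ih =>
    obtain ⟨b, hb0, hb1, hb⟩ := ih fun c hc => hg c (Finset.mem_insert_of_mem hc)
    refine ⟨min b (g a), ?_, (min_le_left _ _).trans hb1, fun c hc => ?_⟩
    · rcases min_choice b (g a) with h | h
      · rw [h]; exact hb0
      · rw [h]; exact hg a (Finset.mem_insert_self a s)
    · rcases Finset.mem_insert.1 hc with rfl | hc
      · exact min_le_right _ _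
      · exact (min_le_left _ _).trans (hb c hc)

/-- The local choice of the second coefficient. -/
theorem hv_loc {K : Type} [Field K] [NumberField K] {u : HeightOneSpectrum (𝓞 K)}
    (h2 : u.valuation K 2 = 1) {δ r : Kˣ} (hδ : u.valuation K (δ : K) = 1)
    (hr1 : u.valuation K (r : K) ≤ 1) (hr : r ∈ Hm.LNm u δ) :
    ∃ c : K, u.valuation K c = 1 ∧ ∀ a1 a2 : K, u.valuation K a1 < u.valuation K (r : K) →
      u.valuation K (a2 - c) < 1 →
      (∃ y, u.valuation K ((δ : K) - y ^ 2) < 1) ∨ u.valuation K (r : K) = 1 ∨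
        ∃ π : K, π ≠ 0 ∧ u.valuation K π < 1 ∧ u.valuation K (r : K) = u.valuation K π ^ 2 ∧
          u.valuation K a1 < u.valuation K π ∧ u.valuation K a2 = 1 ∧
          ∀ y, ¬ u.valuation K ((r : K) + a2 * (π * y) ^ 2) < u.valuation K π ^ 2 := by
  by_cases hs : ∃ y, u.valuation K ((δ : K) - y ^ 2) < 1
  · exact ⟨1, map_one _, fun _ _ _ _ => Or.inl hs⟩
  by_cases hr2 : u.valuation K (r : K) = 1
  · exact ⟨1, map_one _, fun _ _ _ _ => Or.inr (Or.inl hr2)⟩
  obtain ⟨m, hm⟩ := even_of_LNm h2 hδ (fun h => hs ((mem_LSq_iff h2 hδ).1 h)) hr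
  obtain ⟨π, hπ⟩ := u.valuation_surjective K (WithZero.exp m)
  have hπv : u.valuation K π ≠ 0 := by
    rw [hπ]
    exact WithZero.exp_ne_zero
  have hπ0 : π ≠ 0 := (Valuation.ne_zero_iff _).1 hπv
  have hrπ : u.valuation K (r : K) = u.valuation K π ^ 2 := by rw [hm, hπ]
  have hπ1 : u.valuation K π < 1 := by
    by_contra hcon
    push Not at hcon
    apply hr2
    refine le_antisymm hr1 ?_
    rw [hrπ]
    exact one_le_pow₀ hcon
  have h0 : u.valuation K ((r : K) / π ^ 2) = 1 := by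
    rw [map_div₀, map_pow, hrπ]
    exact div_self (pow_ne_zero 2 hπv)
  obtain ⟨c, hc, hns⟩ := exists_ns_unit h2 h0
  refine ⟨c, hc, fun a1 a2 h1 h3 => Or.inr (Or.inr ⟨π, hπ0, hπ1, hrπ, ?_, ?_, fun y hy => ?_⟩)⟩
  · refine h1.trans_le ?_
    rw [hrπ, pow_two]
    exact mul_le_of_le_one_left' hπ1.le
  · have e : a2 = (a2 - c) + c := by ring
    rw [e, Valuation.map_add_eq_of_lt_right _ (by rw [hc]; exact h3), hc]
  · apply hns a2 y h3
    have e : (r : K) + a2 * (π * y) ^ 2 = π ^ 2 * ((r : K) / π ^ 2 + a2 * y ^ 2) := by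
      field_simp
    rw [e, map_mul, map_pow] at hy
    have h4 : 0 < u.valuation K π ^ 2 := zero_lt_iff.2 (pow_ne_zero 2 hπv)
    by_contra hcon
    push Not at hcon
    refine absurd hy (not_lt.2 ?_)
    exact le_mul_of_one_le_right' hcon

section int

variable {F : Type} [Field F] [NumberField F] (v : HeightOneSpectrum (𝓞 F))

theorem hv_nat (n : ℕ) : v.valuation F ((n : F) + 1) ≤ 1 := by
  have h5 : ((n : F) + 1) = algebraMap (𝓞 F) F ((n : 𝓞 F) + 1) := by
    rw [map_add, map_natCast, map_one]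
  rw [h5]
  exact HeightOneSpectrum.valuation_le_one _ _

theorem hv_der {g : ℤᵐ⁰} {q : F[X]} (hq : ∀ j, v.valuation F (q.coeff j) ≤ g) (j : ℕ) :
    v.valuation F ((derivative q).coeff j) ≤ g := by
  rw [coeff_derivative, map_mul]
  exact (mul_le_of_le_one_right' (hv_nat v j)).trans (hq _)

theorem hv_der' {g : ℤᵐ⁰} {q : F[X]} (hq : ∀ j, v.valuation F (q.coeff j) < g) (j : ℕ) :
    v.valuation F ((derivative q).coeff j) < g := by
  rw [coeff_derivative, map_mul]
  exact (mul_le_of_le_one_right' (hv_nat v j)).trans_lt (hq _)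

theorem hv_mul {p q : F[X]} (hp : ∀ j, v.valuation F (p.coeff j) ≤ 1)
    (hq : ∀ j, v.valuation F (q.coeff j) ≤ 1) (j : ℕ) : v.valuation F ((p * q).coeff j) ≤ 1 := by
  rw [coeff_mul]
  refine Valuation.map_sum_le _ fun x _ => ?_
  rw [map_mul]
  exact mul_le_one' (hp _) (hq _)

theorem hv_add {p q : F[X]} (hp : ∀ j, v.valuation F (p.coeff j) ≤ 1)
    (hq : ∀ j, v.valuation F (q.coeff j) ≤ 1) (j : ℕ) : v.valuation F ((p + q).coeff j) ≤ 1 := by
  rw [coeff_add]
  exact (Valuation.map_add _ _ _).trans (max_le (hp j) (hq j))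

theorem hv_Xpow (n j : ℕ) : v.valuation F ((X ^ n : F[X]).coeff j) ≤ 1 := by
  rw [coeff_X_pow]
  split_ifs
  · rw [map_one]
  · rw [map_zero]
    exact zero_le

variable {v} {K : Type} [Field K] [NumberField K] [Algebra F K] {u : HeightOneSpectrum (𝓞 K)}
  {θ : K}

theorem hv_eval (hu : ∀ x : F, u.valuation K (algebraMap F K x) = v.valuation F x)
    (hθ : u.valuation K θ = 1) {q : F[X]} (hq : ∀ j, v.valuation F (q.coeff j) ≤ 1) :
    u.valuation K (aeval θ q) ≤ 1 := by
  rw [aeval_eq_sum_range]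
  refine Valuation.map_sum_le _ fun j _ => ?_
  rw [Algebra.smul_def, map_mul, map_pow, hθ, one_pow, mul_one, hu]
  exact hq j

theorem hv_eval' (hu : ∀ x : F, u.valuation K (algebraMap F K x) = v.valuation F x)
    (hθ : u.valuation K θ = 1) {q : F[X]} {g : ℤᵐ⁰} (hg : g ≠ 0)
    (hq : ∀ j, v.valuation F (q.coeff j) < g) : u.valuation K (aeval θ q) < g := by
  rw [aeval_eq_sum_range]
  refine Valuation.map_sum_lt _ hg fun j _ => ?_
  rw [Algebra.smul_def, map_mul, map_pow, hθ, one_pow, mul_one, hu]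
  exact hq j

theorem hv_tay (hu : ∀ x : F, u.valuation K (algebraMap F K x) = v.valuation F x)
    (hθ : u.valuation K θ = 1) {q : F[X]} (hq : ∀ j, v.valuation F (q.coeff j) ≤ 1) (j : ℕ) :
    u.valuation K ((taylor θ (q.map (algebraMap F K))).coeff j) ≤ 1 := by
  refine wc_taylor_int _ (fun j => ?_) hθ.le j
  rw [coeff_map, hu]
  exact hq j

end int

/-- The places where `ρ` is not a unit are finitely many. -/
theorem exists_V {ρ : F[X]} (hρ : ∀ i, aeval (θ i) ρ ≠ 0) :
    ∃ V : Finset (HeightOneSpectrum (𝓞 F)), ∀ i (u : HeightOneSpectrum (𝓞 (K i))),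
      u.under (𝓞 F) ∉ V → u.valuation (K i) (aeval (θ i) ρ) = 1 := by
  classical
  have hfin : ∀ i, {u : HeightOneSpectrum (𝓞 (K i)) |
      u.valuation (K i) (aeval (θ i) ρ) ≠ 1}.Finite :=
    fun i => Hm.finite_val_ne_one (Units.mk0 _ (hρ i))
  have h2 : (⋃ i, (fun u : HeightOneSpectrum (𝓞 (K i)) => u.under (𝓞 F)) ''
      {u | u.valuation (K i) (aeval (θ i) ρ) ≠ 1}).Finite :=
    Set.finite_iUnion fun i => (hfin i).image _
  refine ⟨h2.toFinset, fun i u hu => ?_⟩
  by_contra h3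
  exact hu (h2.mem_toFinset.2 (Set.mem_iUnion.2 ⟨i, u, h3, rfl⟩))

/-- Taylor coefficients at a zero of `f`. Proof: product rule. -/
theorem taylor_gl {F E : Type*} [Field F] [Field E] [Algebra F E] {f ρ H : F[X]} {e : E}
    (hf : aeval e f = 0) :
    (taylor e ((ρ + f * H).map (algebraMap F E))).coeff 0 = aeval e ρ ∧
    (taylor e ((ρ + f * H).map (algebraMap F E))).coeff 1 =
      aeval e (derivative ρ) + aeval e (derivative f) * aeval e H ∧
    (taylor e ((ρ + f * H).map (algebraMap F E))).coeff 2 =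
      (taylor e (ρ.map (algebraMap F E))).coeff 2 +
        (taylor e (f.map (algebraMap F E))).coeff 2 * aeval e H +
        aeval e (derivative f) * aeval e (derivative H) := by
  have h1 : (ρ + f * H).map (algebraMap F E) =
      ρ.map (algebraMap F E) + f.map (algebraMap F E) * H.map (algebraMap F E) := by
    rw [Polynomial.map_add, Polynomial.map_mul]
  have hev : ∀ q : F[X], (q.map (algebraMap F E)).eval e = aeval e q := fun q => by
    rw [eval_map, aeval_def]
  have hc1 : ∀ q : F[X], (taylor e (q.map (algebraMap F E))).coeff 1 = aeval e (derivative q) :=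
    fun q => by rw [taylor_coeff_one, derivative_map, hev]
  have hf0 : (taylor e (f.map (algebraMap F E))).coeff 0 = 0 := by
    rw [taylor_coeff_zero, hev, hf]
  refine ⟨?_, ?_, ?_⟩
  · rw [taylor_coeff_zero, h1, eval_add, eval_mul, hev, hev, hf, zero_mul, add_zero]
  · rw [hc1, derivative_add, derivative_mul, map_add, map_add, map_mul, map_mul, hf, zero_mul,
      add_zero]
  · rw [h1, map_add, taylor_mul, coeff_add, coeff_mul,
      Finset.Nat.sum_antidiagonal_eq_sum_range_succ_mk, Finset.sum_range_succ,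
      Finset.sum_range_succ, Finset.sum_range_one, hf0, zero_mul, zero_add, hc1, hc1,
      taylor_coeff_zero (f := H.map (algebraMap F E)), hev]
    ring

/-- **The double zero.** Proof. `f = mf A B`, `f' (θ i)` is a unit at all places above `v` (`Gd.sep`,
`chp_mf`). Let `H₀` be the polynomial of degree less than `5` with
`H₀ (θ i) = - ρ' (θ i) / f' (θ i)` (`Res.exists_interp`), integral at `v` (`Gd.intp`); `ρ` is integral at
`v` too. Let `H v = H₀ + f * (X ^ (N - 10) + r)` with `deg r < 5`, `r` integral at `v` (`Gd.crt`), so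
`H v (θ i) = H₀ (θ i)` and `(H v)' (θ i) = H₀' (θ i) + f' (θ i) (θ i ^ (N - 10) + r (θ i))`; so for
`P = ρ + f * H v` the Taylor coefficients at `θ i` (`taylor_gl`) are `a₀ = ρ (θ i)`, `a₁ = 0`, and `a₂`,
which is near a given unit `c i u` for a suitable choice of `r (θ i)` modulo `u`. For the `(i, u)` where
the first condition of `OutC` fails, `ρ (θ i)` has valuation `exp (m) ^ 2` (`even_of_LNm` with
`mem_LSq_iff`), `m ≤ 0`. If `m < 0` let `π ∈ F` with `v.valuation π = exp m` (a power of a uniformiser),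
which has the same valuation at `u` (`Gd.unr`), and take `c i u` from `exists_ns_unit` for
`a₀ / π ^ 2`. The precision: `gv ≤ exp m` for all these `(i, u)` (finitely many) and `gv < 1`: if
`|H - H v| < gv` then `|a₁| < |π|`, and `a₂` changes by an element of valuation less than `1`. -/
theorem exists_Hv (hB : ND A B (0 : F) 1) (hres : Res (mf A B) K θ) {δ : ∀ i, (K i)ˣ}
    (hδ : ∀ i, (δ i : K i) = aeval (θ i) (dlp A B wv)) {v : HeightOneSpectrum (𝓞 F)}
    (hv : Gd A B wv K θ v) {ρ : F[X]} (hρd : ρ.degree < (mf A B).degree)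
    (hρ0 : ∀ i, aeval (θ i) ρ ≠ 0)
    (hρ : ∀ i (r : (K i)ˣ), (r : K i) = aeval (θ i) ρ →
      ∀ u : HeightOneSpectrum (𝓞 (K i)), u.under (𝓞 F) = v →
        u.valuation (K i) (r : K i) ≤ 1 ∧ r ∈ Hm.LNm u (δ i)) {N : ℕ} (hN : 15 ≤ N) :
    ∃ (Hv : F[X]) (gv : ℤᵐ⁰), Hv.Monic ∧ Hv.natDegree = N - 5 ∧
      (∀ j, v.valuation F (Hv.coeff j) ≤ 1) ∧ gv ≠ 0 ∧ gv ≤ 1 ∧
      ∀ H : F[X], (∀ j, v.valuation F ((H - Hv).coeff j) < gv) →
        ∀ i (u : HeightOneSpectrum (𝓞 (K i))), u.under (𝓞 F) = v →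
          OutC A B wv θ (ρ + mf A B * H) i u := by
  classical
  obtain ⟨hfm, hf5⟩ := mf_monic (A := A) hB
  obtain ⟨hmi, -, -, -⟩ := hv.mf_int hB
  have hfd : (mf A B).degree = ((5 : ℕ) : WithBot ℕ) := by
    rw [degree_eq_natDegree hfm.ne_zero, hf5]
  have hun := hv.unr
  have hθ : ∀ i (u : HeightOneSpectrum (𝓞 (K i))), u.under (𝓞 F) = v →
      u.valuation (K i) (θ i) = 1 := fun i u hu => hv.theta hB hres i hu
  have hf0 : ∀ i, aeval (θ i) (mf A B) = 0 := hres.aeval_f
  -- the derivative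
  obtain ⟨U, V, hUV, -, hV⟩ := hv.sep
  obtain ⟨hchp, -⟩ := chp_mf (A := A) hB
  have hd1 : ∀ i (u : HeightOneSpectrum (𝓞 (K i))), u.under (𝓞 F) = v →
      u.valuation (K i) (aeval (θ i) (derivative (mf A B))) = 1 := by
    intro i u hu
    have h1 := congrArg (aeval (θ i)) hUV
    rw [hchp, derivative_C_mul, map_add, map_mul, map_mul, map_mul, map_mul, hf0 i, mul_zero,
      mul_zero, zero_add, aeval_C, map_one] at h1
    have h2 := congrArg (u.valuation (K i)) h1
    rw [map_mul, map_mul, hun i u hu, Valuation.map_neg, hv.db, one_mul, map_one] at h2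
    refine le_antisymm (hv_eval (hun i u hu) (hθ i u hu) (hv_der v hmi)) ?_
    rw [← h2]
    exact mul_le_of_le_one_left' (hv_eval (hun i u hu) (hθ i u hu) hV)
  have hd0 : ∀ i, aeval (θ i) (derivative (mf A B)) ≠ 0 := by
    intro i h0
    obtain ⟨u, hu⟩ := exists_above F (K i) v
    have h1 := hd1 i u hu
    rw [h0, map_zero] at h1
    exact zero_ne_one h1
  have hρi : ∀ j, v.valuation F (ρ.coeff j) ≤ 1 :=
    hv.intp ρ hρd fun i u hu => (hρ i (Units.mk0 _ (hρ0 i)) rfl u hu).1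
  obtain ⟨H₀, hH₀d, hH₀⟩ := hres.exists_interp fun i =>
    -(aeval (θ i) (derivative ρ)) / aeval (θ i) (derivative (mf A B))
  have hH₀i : ∀ j, v.valuation F (H₀.coeff j) ≤ 1 := by
    refine hv.intp H₀ hH₀d fun i u hu => ?_
    rw [hH₀ i, map_div₀, Valuation.map_neg, hd1 i u hu, div_one]
    exact hv_eval (hun i u hu) (hθ i u hu) (hv_der v hρi)
  -- the precision
  have hg : ∃ gv : ℤᵐ⁰, gv ≠ 0 ∧ gv ≤ 1 ∧ ∀ i (u : HeightOneSpectrum (𝓞 (K i))),
      u.under (𝓞 F) = v → gv ≤ u.valuation (K i) (aeval (θ i) ρ) := by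
    have h1 : ∀ i, ∃ b : ℤᵐ⁰, b ≠ 0 ∧ b ≤ 1 ∧ ∀ u ∈ (finite_above F (K i) v).toFinset,
        b ≤ u.valuation (K i) (aeval (θ i) ρ) := fun i =>
      hv_bound _ _ fun u _ => (Valuation.ne_zero_iff _).2 (hρ0 i)
    choose b hb0 hb1 hb using h1
    obtain ⟨g, hg0, hg1, hg⟩ := hv_bound Finset.univ b fun i _ => hb0 i
    exact ⟨g, hg0, hg1, fun i u hu => (hg i (Finset.mem_univ i)).trans
      (hb i u ((Set.Finite.mem_toFinset _).2 hu))⟩
  obtain ⟨gv, hgv0, hgv1, hgv⟩ := hg
  -- the local data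
  have hloc := fun i (u : {u : HeightOneSpectrum (𝓞 (K i)) // u.under (𝓞 F) = v}) =>
    hv_loc (u := u.1) (δ := δ i) (r := Units.mk0 _ (hρ0 i))
      (by
        have h1 := hun i u.1 u.2 2
        rw [map_ofNat] at h1
        rw [h1, hv.two])
      (by rw [hδ i]; exact hv.dl i u.1 u.2)
      (hρ i (Units.mk0 _ (hρ0 i)) rfl u.1 u.2).1 (hρ i (Units.mk0 _ (hρ0 i)) rfl u.1 u.2).2
  choose c hc1 hc using hloc
  obtain ⟨r, hrd, hri, hrτ⟩ := hv.crt (fun i u => if h : u.under (𝓞 F) = v then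
    (c i ⟨u, h⟩ - ((taylor (θ i) (ρ.map (algebraMap F (K i)))).coeff 2 +
      (taylor (θ i) ((mf A B).map (algebraMap F (K i)))).coeff 2 * aeval (θ i) H₀ +
      aeval (θ i) (derivative (mf A B)) * aeval (θ i) (derivative H₀))) /
      aeval (θ i) (derivative (mf A B)) ^ 2 - θ i ^ (N - 10) else 0) (by
    intro i u hu
    rw [dif_pos hu]
    have hs : ∀ {x y : K i}, u.valuation (K i) x ≤ 1 → u.valuation (K i) y ≤ 1 →
        u.valuation (K i) (x - y) ≤ 1 := fun hx hy =>
      (Valuation.map_sub _ _ _).trans (max_le hx hy)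
    have ha : ∀ {x y : K i}, u.valuation (K i) x ≤ 1 → u.valuation (K i) y ≤ 1 →
        u.valuation (K i) (x + y) ≤ 1 := fun hx hy =>
      (Valuation.map_add _ _ _).trans (max_le hx hy)
    have hm : ∀ {x y : K i}, u.valuation (K i) x ≤ 1 → u.valuation (K i) y ≤ 1 →
        u.valuation (K i) (x * y) ≤ 1 := fun hx hy => by
      rw [map_mul]
      exact mul_le_one' hx hy
    refine hs ?_ (by rw [map_pow, hθ i u hu, one_pow])
    rw [map_div₀, map_pow, hd1 i u hu, one_pow, div_one]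
    refine hs (hc1 i ⟨u, hu⟩).le (ha (ha (hv_tay (hun i u hu) (hθ i u hu) hρi 2)
      (hm (hv_tay (hun i u hu) (hθ i u hu) hmi 2) (hv_eval (hun i u hu) (hθ i u hu) hH₀i)))
      (hm (hd1 i u hu).le (hv_eval (hun i u hu) (hθ i u hu) (hv_der v hH₀i)))))
  have hrN : r.degree < ((N - 10 : ℕ) : WithBot ℕ) := by
    refine hrd.trans_le ?_
    rw [hfd]
    exact_mod_cast (show 5 ≤ N - 10 by omega)
  have hm1 : (X ^ (N - 10) + r).Monic := monic_X_pow_add hrN
  have hn1 : (X ^ (N - 10) + r).natDegree = N - 10  := by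
    refine natDegree_eq_of_degree_eq_some ?_
    rw [degree_add_eq_left_of_degree_lt (by rw [degree_X_pow]; exact hrN), degree_X_pow]
  have hm2 : (mf A B * (X ^ (N - 10) + r)).Monic := hfm.mul hm1
  have hn2 : (mf A B * (X ^ (N - 10) + r)).natDegree = N - 5 := by
    rw [hfm.natDegree_mul hm1, hf5, hn1]
    omega
  have hlt : H₀.degree < (mf A B * (X ^ (N - 10) + r)).degree := by
    rw [degree_eq_natDegree hm2.ne_zero, hn2]
    refine hH₀d.trans_le ?_
    rw [hfd]
    exact_mod_cast (show 5 ≤ N - 5 by omega)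
  refine ⟨H₀ + mf A B * (X ^ (N - 10) + r), gv, hm2.add_of_right hlt, ?_,
    hv_add v hH₀i (hv_mul v hmi (hv_add v (hv_Xpow v _) hri)), hgv0, hgv1, ?_⟩
  · rw [natDegree_add_eq_right_of_degree_lt hlt, hn2]
  intro H hH i u hu
  obtain ⟨E, hE⟩ : ∃ E, E = H - (H₀ + mf A B * (X ^ (N - 10) + r)) := ⟨_, rfl⟩
  rw [← hE] at hH
  have hHE : H = (H₀ + mf A B * (X ^ (N - 10) + r)) + E := by rw [hE]; ring
  obtain ⟨t0, t1, t2⟩ := taylor_gl (ρ := ρ) (H := H) (hf0 i)
  have ev1 : aeval (θ i) H = aeval (θ i) H₀ + aeval (θ i) E := by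
    rw [hHE, map_add, map_add, map_mul, hf0 i, zero_mul, add_zero]
  have ev2 : aeval (θ i) (derivative H) = aeval (θ i) (derivative H₀) +
      aeval (θ i) (derivative (mf A B)) * (θ i ^ (N - 10) + aeval (θ i) r) +
      aeval (θ i) (derivative E) := by
    rw [hHE, derivative_add, derivative_add, derivative_mul, map_add, map_add, map_add, map_mul,
      map_mul, hf0 i, zero_mul, add_zero, map_add, map_pow, aeval_X]
  have hE1 : u.valuation (K i) (aeval (θ i) E) < gv :=
    hv_eval' (hun i u hu) (hθ i u hu) hgv0 hH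
  have hE2 : u.valuation (K i) (aeval (θ i) (derivative E)) < gv :=
    hv_eval' (hun i u hu) (hθ i u hu) hgv0 (hv_der' v hH)
  have k1 : u.valuation (K i) (aeval (θ i) (derivative ρ) +
      aeval (θ i) (derivative (mf A B)) * aeval (θ i) H) < u.valuation (K i) (aeval (θ i) ρ) := by
    have e : aeval (θ i) (derivative ρ) + aeval (θ i) (derivative (mf A B)) * aeval (θ i) H =
        aeval (θ i) (derivative (mf A B)) * aeval (θ i) E := by
      rw [ev1, hH₀ i]
      have := hd0 i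
      field_simp
      ring
    rw [e, map_mul, hd1 i u hu, one_mul]
    exact hE1.trans_le (hgv i u hu)
  have k2 : u.valuation (K i) ((taylor (θ i) (ρ.map (algebraMap F (K i)))).coeff 2 +
        (taylor (θ i) ((mf A B).map (algebraMap F (K i)))).coeff 2 * aeval (θ i) H +
        aeval (θ i) (derivative (mf A B)) * aeval (θ i) (derivative H) - c i ⟨u, hu⟩) < 1 := by
    have h1 := hrτ i u hu
    rw [dif_pos hu] at h1
    have e : (taylor (θ i) (ρ.map (algebraMap F (K i)))).coeff 2 +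
        (taylor (θ i) ((mf A B).map (algebraMap F (K i)))).coeff 2 * aeval (θ i) H +
        aeval (θ i) (derivative (mf A B)) * aeval (θ i) (derivative H) - c i ⟨u, hu⟩ =
        ((taylor (θ i) ((mf A B).map (algebraMap F (K i)))).coeff 2 * aeval (θ i) E +
          aeval (θ i) (derivative (mf A B)) * aeval (θ i) (derivative E)) +
        aeval (θ i) (derivative (mf A B)) ^ 2 * (aeval (θ i) r -
          ((c i ⟨u, hu⟩ - ((taylor (θ i) (ρ.map (algebraMap F (K i)))).coeff 2 +
      (taylor (θ i) ((mf A B).map (algebraMap F (K i)))).coeff 2 * aeval (θ i) H₀ +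
      aeval (θ i) (derivative (mf A B)) * aeval (θ i) (derivative H₀))) /
      aeval (θ i) (derivative (mf A B)) ^ 2 - θ i ^ (N - 10))) := by
      rw [ev1, ev2]
      have := hd0 i
      field_simp
      ring
    rw [e]
    refine Valuation.map_add_lt _ (Valuation.map_add_lt _ ?_ ?_) ?_
    · rw [map_mul]
      exact ((mul_le_of_le_one_left' (hv_tay (hun i u hu) (hθ i u hu) hmi 2)).trans_lt
        hE1).trans_le hgv1
    · rw [map_mul, hd1 i u hu, one_mul]
      exact hE2.trans_le hgv1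
    · rw [map_mul, map_pow, hd1 i u hu, one_pow, one_mul]
      exact h1
  rcases hc i ⟨u, hu⟩ _ _ k1 k2 with h | h | ⟨π, h0, h1, h3, h4, h5, h6⟩
  · left
    rw [← hδ i]
    exact h
  · right
    left
    rw [map_add, map_mul, hf0 i, zero_mul, add_zero]
    exact h
  · right
    right
    refine ⟨π, h0, h1, ?_, ?_, ?_, ?_⟩
    · rw [t0]
      exact h3
    · rw [t1]
      exact h4
    · rw [t2]
      exact h5
    · rw [t0, t2]
      exact h6

end Dq
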