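import Pool.Agent.Lib.MP_f80667_ag.Dq.Pen
import Pool.Agent.Lib.MP_f80667_ag.Dq.VTr
import Pool.Agent.Lib.MP_f80667_ag.Hm.WA

/-! Interpolation of polynomials at the `θ i`, and valuations. -/

open Polynomial IsDedekindDomain NumberField
open scoped WithZero

namespace Dq

section one

variable {F : Type} [Field F] {f : F[X]} {ι : Type} [Fintype ι] {K : ι → Type}
  [∀ i, Field (K i)] [∀ i, Algebra F (K i)] {θ : ∀ i, K i}

theorem Res.aeval_f (h : Res f K θ) (i : ι) : aeval (θ i) f = 0 := by
  rw [← h.prod, map_prod]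
  exact Finset.prod_eq_zero (Finset.mem_univ i) (minpoly.aeval F (θ i))

/-- Proof: `minpoly F (θ i)` divides `r` (`minpoly.dvd`) and they are pairwise coprime. -/
theorem Res.dvd (h : Res f K θ) {r : F[X]} (hr : ∀ i, aeval (θ i) r = 0) : f ∣ r := by
  rw [← h.prod]
  refine Finset.prod_dvd_of_coprime (fun i _ j _ hij => ?_) fun i _ => minpoly.dvd F (θ i) (hr i)
  have hi := minpoly.irreducible (h.int i)
  have hj := minpoly.irreducible (h.int j)
  refine (hi.coprime_iff_not_dvd).2 fun hd => hij (h.inj i j ?_)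
  exact eq_of_monic_of_associated (minpoly.monic (h.int i)) (minpoly.monic (h.int j))
    (hi.associated_of_dvd hj hd)

theorem Res.monic (h : Res f K θ) : f.Monic := by
  rw [← h.prod]
  exact monic_prod_of_monic _ _ fun i _ => minpoly.monic (h.int i)

theorem Res.finite (h : Res f K θ) (i : ι) : FiniteDimensional F (K i) := by
  have h1 := IntermediateField.adjoin.finiteDimensional (h.int i)
  rw [h.top i] at h1
  exact Module.Finite.equiv (IntermediateField.topEquiv (F := F) (E := K i)).toLinearEquiv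

theorem Res.finrank (h : Res f K θ) (i : ι) :
    Module.finrank F (K i) = (minpoly F (θ i)).natDegree := by
  rw [← IntermediateField.adjoin.finrank (h.int i), h.top i]
  exact ((IntermediateField.topEquiv (F := F) (E := K i)).toLinearEquiv.finrank_eq).symm

theorem Res.sum_deg (h : Res f K θ) :
    ∑ i, (minpoly F (θ i)).natDegree = f.natDegree := by
  rw [← h.prod, natDegree_prod_of_monic _ _ fun i _ => minpoly.monic (h.int i)]

/-- Proof: `Res.dvd`, degrees. -/
theorem Res.ext (h : Res f K θ) {r s : F[X]} (hr : r.degree < f.degree) (hs : s.degree < f.degree)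
    (e : ∀ i, aeval (θ i) r = aeval (θ i) s) : r = s := by
  refine sub_eq_zero.1 (eq_zero_of_dvd_of_degree_lt (h.dvd (r := r - s) fun i => ?_) ?_)
  · rw [map_sub, e i, sub_self]
  · exact (degree_sub_le _ _).trans_lt (max_lt hr hs)

/-- the values at the `θ i` -/
noncomputable def evL (f : F[X]) (K : ι → Type) [∀ i, Field (K i)] [∀ i, Algebra F (K i)]
    (θ : ∀ i, K i) : degreeLT F f.natDegree →ₗ[F] (∀ i, K i) :=
  (LinearMap.pi fun i => (aeval (θ i) : F[X] →ₐ[F] K i).toLinearMap).comp
    (degreeLT F f.natDegree).subtype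

theorem Res.mem_lt (h : Res f K θ) {r : F[X]} :
    r ∈ degreeLT F f.natDegree ↔ r.degree < f.degree := by
  rw [mem_degreeLT, degree_eq_natDegree h.monic.ne_zero]

theorem Res.evL_inj (h : Res f K θ) : Function.Injective (evL f K θ) := by
  intro r s hrs
  refine Subtype.ext (h.ext (h.mem_lt.1 r.2) (h.mem_lt.1 s.2) fun i => ?_)
  exact congrFun hrs i

theorem Res.evL_surj (h : Res f K θ) : Function.Surjective (evL f K θ) := by
  have hfin : ∀ i, FiniteDimensional F (K i) := h.finite
  have hfin2 : FiniteDimensional F (degreeLT F f.natDegree) :=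
    Module.Finite.equiv (degreeLTEquiv F f.natDegree).symm
  refine (LinearMap.injective_iff_surjective_of_finrank_eq_finrank ?_).1 h.evL_inj
  rw [Module.finrank_pi_fintype, (degreeLTEquiv F f.natDegree).finrank_eq,
    Module.finrank_fin_fun, ← h.sum_deg]
  exact Finset.sum_congr rfl fun i _ => (h.finrank i).symm

/-- Interpolation. Proof: dimensions (`Res.ext`: the linear map from the polynomials of degree less
than `deg f` to `∏ K i` is injective) or the Chinese remainder theorem. -/
theorem Res.exists_interp (h : Res f K θ) (b : ∀ i, K i) :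
    ∃ r : F[X], r.degree < f.degree ∧ ∀ i, aeval (θ i) r = b i := by
  obtain ⟨r, hr⟩ := h.evL_surj b
  exact ⟨r, h.mem_lt.1 r.2, fun i => congrFun hr i⟩

end one

section two

variable {F : Type} [Field F] [NumberField F] {f : F[X]} {ι : Type} [Fintype ι] {K : ι → Type}
  [∀ i, Field (K i)] [∀ i, NumberField (K i)] [∀ i, Algebra F (K i)] {θ : ∀ i, K i}

/-- The coefficients of a polynomial from its values. Proof: the map of `exists_interp` is a linear
isomorphism; a linear functional on `∏ K i` is a sum of `b ↦ Tr (c i * b i)` (nondegeneracy of the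
trace form, `traceForm_nondegenerate`). -/
theorem Res.exists_tr (h : Res f K θ) : ∃ c : ℕ → ∀ i, K i, ∀ r : F[X], r.degree < f.degree →
    ∀ j, r.coeff j = ∑ i, Algebra.trace F (K i) (c j i * aeval (θ i) r) := by
  classical
  have hfin : ∀ i, FiniteDimensional F (K i) := h.finite
  let e : degreeLT F f.natDegree ≃ₗ[F] (∀ i, K i) :=
    LinearEquiv.ofBijective (evL f K θ) ⟨h.evL_inj, h.evL_surj⟩
  have key : ∀ (j : ℕ) (i : ι), ∃ c : K i, ∀ b : K i,
      ((e.symm (Pi.single i b) : degreeLT F f.natDegree) : F[X]).coeff j =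
        Algebra.trace F (K i) (c * b) := by
    intro j i
    let l : K i →ₗ[F] F := ((lcoeff F j).comp (degreeLT F f.natDegree).subtype).comp
      (e.symm.toLinearMap.comp (LinearMap.single F K i))
    refine ⟨((Algebra.traceForm F (K i)).toDual (traceForm_nondegenerate F (K i))).symm l,
      fun b => ?_⟩
    have h1 := LinearMap.BilinForm.apply_toDual_symm_apply
      (hB := traceForm_nondegenerate F (K i)) l b
    exact h1.symm
  choose c hc using key
  refine ⟨c, fun r hr j => ?_⟩
  have h1 : e.symm (fun i => aeval (θ i) r) = ⟨r, h.mem_lt.2 hr⟩ := by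
    rw [LinearEquiv.symm_apply_eq]
    rfl
  have h2 : (fun i => aeval (θ i) r) = ∑ i, Pi.single i (aeval (θ i) r) :=
    (Finset.univ_sum_single _).symm
  have h3 : r.coeff j = ((e.symm (fun i => aeval (θ i) r) : degreeLT F f.natDegree) :
      F[X]).coeff j := by
    rw [h1]
  rw [h3, h2, map_sum, AddSubmonoidClass.coe_finsetSum, finsetSum_coeff]
  exact Finset.sum_congr rfl fun i _ => hc j i _

/-- An element of small valuation. -/
theorem intp_small (v : HeightOneSpectrum (𝓞 F)) {g : ℤᵐ⁰} (hg : g ≠ 0) :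
    ∃ x : F, x ≠ 0 ∧ v.valuation F x < g := by
  obtain ⟨x, hx⟩ := v.valuation_surjective F (g * WithZero.exp (-1 : ℤ))
  have h0 : v.valuation F x ≠ 0 := by
    rw [hx]
    exact mul_ne_zero hg WithZero.exp_ne_zero
  refine ⟨x, (Valuation.ne_zero_iff _).1 h0, ?_⟩
  rw [hx]
  have h1 : (WithZero.exp (-1 : ℤ) : ℤᵐ⁰) < 1 := by
    rw [← WithZero.exp_zero]
    exact WithZero.exp_lt_exp.2 (by norm_num)
  calc g * WithZero.exp (-1 : ℤ) < g * 1 := by
        exact mul_lt_mul_of_pos_left h1 (zero_lt_iff.2 hg)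
    _ = g := mul_one g

/-- Polynomials with small values have small coefficients. Proof: `exists_tr`, `val_trace` for
`c j i * aeval (θ i) r / π ^ m` with an element `π ∈ F` of valuation `exp (-1)` at `v`
(`exists_ram`; only `j < deg f` matter). -/
theorem Res.near (h : Res f K θ) (v : HeightOneSpectrum (𝓞 F)) {g : ℤᵐ⁰} (hg : g ≠ 0) :
    ∃ ε : ∀ i, HeightOneSpectrum (𝓞 (K i)) → ℤᵐ⁰, (∀ i u, ε i u ≠ 0) ∧
      ∀ r : F[X], r.degree < f.degree →
        (∀ i (u : HeightOneSpectrum (𝓞 (K i))), u.under (𝓞 F) = v →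
          u.valuation (K i) (aeval (θ i) r) < ε i u) → ∀ j, v.valuation F (r.coeff j) < g := by
  obtain ⟨c, hc⟩ := h.exists_tr
  obtain ⟨x, hx0, hx⟩ := intp_small v hg
  have hx' : ∀ i, algebraMap F (K i) x ≠ 0 := fun i => (_root_.map_ne_zero _).2 hx0
  let m : ∀ i, HeightOneSpectrum (𝓞 (K i)) → ℤᵐ⁰ := fun i u =>
    ∏ j ∈ Finset.range f.natDegree, max 1 (u.valuation (K i) (c j i))
  have hm1 : ∀ i u, 1 ≤ m i u := fun i u =>
    Finset.one_le_prod' fun j _ => le_max_left _ _
  have hm : ∀ i u, ∀ j < f.natDegree, u.valuation (K i) (c j i) ≤ m i u := fun i u j hj =>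
    (le_max_right _ _).trans (Finset.single_le_prod' (f := fun j =>
      max 1 (u.valuation (K i) (c j i))) (fun j _ => le_max_left _ _) (Finset.mem_range.2 hj))
  have hm0 : ∀ i u, m i u ≠ 0 := fun i u => (zero_lt_one.trans_le (hm1 i u)).ne'
  refine ⟨fun i u => u.valuation (K i) (algebraMap F (K i) x) * (m i u)⁻¹, fun i u =>
    mul_ne_zero ((Valuation.ne_zero_iff _).2 (hx' i)) (inv_ne_zero (hm0 i u)),
    fun r hr hr' j => ?_⟩
  by_cases hj : j < f.natDegree
  · have h1 : r.coeff j = x * ∑ i, Algebra.trace F (K i) (c j i * aeval (θ i) r *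
        (algebraMap F (K i) x)⁻¹) := by
      rw [hc r hr j, Finset.mul_sum]
      refine Finset.sum_congr rfl fun i _ => ?_
      rw [← map_inv₀, mul_comm _ (algebraMap F (K i) x⁻¹), ← Algebra.smul_def, map_smul,
        smul_eq_mul, mul_inv_cancel_left₀ hx0]
    rw [h1, map_mul]
    refine lt_of_le_of_lt ?_ hx
    refine mul_le_of_le_one_right' (Valuation.map_sum_le _ fun i _ => ?_)
    refine val_trace F (K i) v _ fun u hu => ?_
    rw [map_mul, map_mul, map_inv₀]
    have h2 : u.valuation (K i) (algebraMap F (K i) x) ≠ 0 :=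
      (Valuation.ne_zero_iff _).2 (hx' i)
    rw [← div_eq_mul_inv, div_le_one₀ (zero_lt_iff.2 h2)]
    calc u.valuation (K i) (c j i) * u.valuation (K i) (aeval (θ i) r)
        ≤ m i u * (u.valuation (K i) (algebraMap F (K i) x) * (m i u)⁻¹) :=
          mul_le_mul' (hm i u j hj) (hr' i u hu).le
      _ = u.valuation (K i) (algebraMap F (K i) x) := by
          rw [mul_comm, inv_mul_cancel_right₀ (hm0 i u)]
  · rw [coeff_eq_zero_of_degree_lt, map_zero]
    · exact zero_lt_iff.2 hg
    · refine hr.trans_le ?_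
      rw [degree_eq_natDegree h.monic.ne_zero]
      exact_mod_cast not_lt.1 hj

/-- Proof: `exists_tr`, `val_trace` where all `c j i`, `j < deg f`, are integral. -/
theorem Res.integral (h : Res f K θ) : ∃ S : Finset (HeightOneSpectrum (𝓞 F)), ∀ v ∉ S,
    ∀ r : F[X], r.degree < f.degree →
      (∀ i (u : HeightOneSpectrum (𝓞 (K i))), u.under (𝓞 F) = v →
        u.valuation (K i) (aeval (θ i) r) ≤ 1) → ∀ j, v.valuation F (r.coeff j) ≤ 1 := by
  classical
  obtain ⟨c, hc⟩ := h.exists_tr
  have hfin : ∀ i, (⋃ j ∈ Finset.range f.natDegree,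
      HeightOneSpectrum.Support (𝓞 (K i)) (c j i)).Finite := fun i =>
    Set.Finite.biUnion (Finset.finite_toSet _) fun j _ =>
      HeightOneSpectrum.Support.finite (𝓞 (K i)) (c j i)
  refine ⟨Finset.univ.biUnion fun i => (hfin i).toFinset.image fun u => u.under (𝓞 F),
    fun v hv r hr hr' j => ?_⟩
  by_cases hj : j < f.natDegree
  · rw [hc r hr j]
    refine Valuation.map_sum_le _ fun i _ => val_trace F (K i) v _ fun u hu => ?_
    rw [map_mul]
    refine mul_le_one' ?_ (hr' i u hu)
    by_contra hcon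
    refine hv (Finset.mem_biUnion.2 ⟨i, Finset.mem_univ i, Finset.mem_image.2 ⟨u, ?_, hu⟩⟩)
    rw [Set.Finite.mem_toFinset]
    exact Set.mem_biUnion (Finset.mem_coe.2 (Finset.mem_range.2 hj)) (not_le.1 hcon)
  · rw [coeff_eq_zero_of_degree_lt, map_zero]
    · exact zero_le_one
    · refine hr.trans_le ?_
      rw [degree_eq_natDegree h.monic.ne_zero]
      exact_mod_cast not_lt.1 hj

/-- Given values modulo the places above `v`. Proof: the Chinese remainder theorem in `K i` (an element
near given ones, integral at all places above `v`: `Hm.wapr`), `exists_interp`, `Res.integral`. -/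
theorem Res.exists_crt (h : Res f K θ) : ∃ S : Finset (HeightOneSpectrum (𝓞 F)), ∀ v ∉ S,
    ∀ τ : ∀ i, HeightOneSpectrum (𝓞 (K i)) → K i,
      (∀ i (u : HeightOneSpectrum (𝓞 (K i))), u.under (𝓞 F) = v → u.valuation (K i) (τ i u) ≤ 1) →
      ∃ r : F[X], r.degree < f.degree ∧ (∀ j, v.valuation F (r.coeff j) ≤ 1) ∧
        ∀ i (u : HeightOneSpectrum (𝓞 (K i))), u.under (𝓞 F) = v →
          u.valuation (K i) (aeval (θ i) r - τ i u) < 1 := by
  obtain ⟨S, hS⟩ := h.integral
  refine ⟨S, fun v hv τ hτ => ?_⟩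
  have h1 : ∀ i, ∃ b : K i, ∀ u : HeightOneSpectrum (𝓞 (K i)), u.under (𝓞 F) = v →
      u.valuation (K i) (b - τ i u) < 1 := by
    intro i
    obtain ⟨b, hb, -⟩ := Hm.wapr (finite_above F (K i) v).toFinset (τ i) (fun _ => 0)
      (fun _ => 1) (fun _ => one_ne_zero) 1 one_pos
    exact ⟨b, fun u hu => hb u ((finite_above F (K i) v).mem_toFinset.2 hu)⟩
  choose b hb using h1
  obtain ⟨r, hr, hrb⟩ := h.exists_interp b
  refine ⟨r, hr, hS v hv r hr fun i u hu => ?_, fun i u hu => ?_⟩
  · rw [hrb i]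
    have h2 : b i = (b i - τ i u) + τ i u := by ring
    rw [h2]
    exact Valuation.map_add_le _ (hb i u hu).le (hτ i u hu)
  · rw [hrb i]
    exact hb i u hu

end two

end Dq
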