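import Pool.Agent.Lib.MP_f80667_ag.Dq.Dg
import Pool.Agent.Lib.MP_f80667_ag.Dp.HensT

/-!
Lifting of points and tangent vectors from the residue field. `qr A x`, `br A x y`: the quadratic form
and the polar form of a matrix over a commutative ring.
-/

open IsLocalRing

namespace Dq

open ZC Tq Dp Matrix

universe u

section defs

variable {R : Type*} [CommRing R] {n : ℕ}

/-- The quadratic form of a matrix. -/
def qr (A : Matrix (Fin n) (Fin n) R) (x : Fin n → R) : R := x ⬝ᵥ (A *ᵥ x)

/-- Its polar form. -/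
def br (A : Matrix (Fin n) (Fin n) R) (x y : Fin n → R) : R := x ⬝ᵥ (A *ᵥ y) + y ⬝ᵥ (A *ᵥ x)

/-- Proof: `ht_qv`, `ht_hom`. -/
theorem qv_map_qr {K : Type*} [Field K] (f : R →+* K) (A : Matrix (Fin n) (Fin n) R)
    (x : Fin n → R) : qv (A.map f) (fun i => f (x i)) = f (qr A x) := by
  rw [qr, ← ht_hom, ht_qv]

theorem bv_map_br {K : Type*} [Field K] (f : R →+* K) (A : Matrix (Fin n) (Fin n) R)
    (x y : Fin n → R) : bv (A.map f) (fun i => f (x i)) (fun i => f (y i)) = f (br A x y) := by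
  rw [br, map_add, ← ht_hom, ← ht_hom, ← ht_bv, add_comm]

end defs

/-- A quadratic form plus a linear form, as a polynomial. -/
noncomputable def qlpoly {R : Type*} [CommRing R] {n : ℕ} (A : Matrix (Fin n) (Fin n) R)
    (l : Fin n → R) : MvPolynomial (Fin n) R :=
  Pool.Agent.Lib.MP_f80667_ag.qpoly A + ∑ i, MvPolynomial.C (l i) * MvPolynomial.X i

theorem eval_qlpoly {R : Type*} [CommRing R] {n : ℕ} (A : Matrix (Fin n) (Fin n) R)
    (l x : Fin n → R) : MvPolynomial.eval x (qlpoly A l) = x ⬝ᵥ (A *ᵥ x) + l ⬝ᵥ x := by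
  rw [qlpoly, map_add, Pool.Agent.Lib.MP_f80667_ag.eval_qpoly]
  simp only [map_sum, map_mul, MvPolynomial.eval_X, MvPolynomial.eval_C, dotProduct]

theorem eval_pderiv_qlpoly {R : Type*} [CommRing R] {n : ℕ} (A : Matrix (Fin n) (Fin n) R)
    (l x : Fin n → R) (j : Fin n) :
    MvPolynomial.eval x (MvPolynomial.pderiv j (qlpoly A l)) = ((A + Aᵀ) *ᵥ x) j + l j := by
  classical
  rw [qlpoly, map_add, map_add, Pool.Agent.Lib.MP_f80667_ag.eval_pderiv_qpoly]
  congr 1
  rw [map_sum, map_sum, Finset.sum_eq_single j]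
  · rw [MvPolynomial.pderiv_C_mul, MvPolynomial.pderiv_X_self]
    simp
  · intro i _ hi
    rw [MvPolynomial.pderiv_C_mul, MvPolynomial.pderiv_X_of_ne hi]
    simp
  · intro h
    exact absurd (Finset.mem_univ j) h

/-- A nonsingular zero of quadratic forms plus linear forms over the residue field lifts. -/
theorem hensel_ql {O : Type*} [CommRing O] [IsLocalRing O]
    [IsAdicComplete (IsLocalRing.maximalIdeal O) O] {r n : ℕ}
    (A : Fin r → Matrix (Fin n) (Fin n) O) (l : Fin r → Fin n → O)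
    (x : Fin n → IsLocalRing.ResidueField O)
    (hx : ∀ k, x ⬝ᵥ ((A k).map (IsLocalRing.residue O) *ᵥ x) +
      (fun i => IsLocalRing.residue O (l k i)) ⬝ᵥ x = 0)
    (hlin : LinearIndependent (IsLocalRing.ResidueField O)
      (fun k => ((A k).map (IsLocalRing.residue O) +
        ((A k).map (IsLocalRing.residue O))ᵀ) *ᵥ x + fun i => IsLocalRing.residue O (l k i))) :
    ∃ y : Fin n → O, (∀ i, IsLocalRing.residue O (y i) = x i) ∧
      ∀ k, y ⬝ᵥ (A k *ᵥ y) + l k ⬝ᵥ y = 0 := by
  classical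
  have hsurj : Function.Surjective (IsLocalRing.residue O) := IsLocalRing.residue_surjective
  choose a ha using fun i => hsurj (x i)
  obtain ⟨J, hJ⟩ : ∃ J : Matrix (Fin r) (Fin n) (IsLocalRing.ResidueField O),
      J = Matrix.of fun k j => (((A k).map (IsLocalRing.residue O) +
        ((A k).map (IsLocalRing.residue O))ᵀ) *ᵥ x + fun i => IsLocalRing.residue O (l k i)) j :=
    ⟨_, rfl⟩
  obtain ⟨W, hW⟩ := Pool.Agent.Lib.MP_f80667_ag.exists_right_inverse_of_row J
    (by rw [hJ]; exact hlin)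
  choose w hw using fun (i : Fin n) (j : Fin r) => hsurj (W i j)
  have hker : ∀ z : O, z ∈ IsLocalRing.maximalIdeal O ↔ IsLocalRing.residue O z = 0 := fun z =>
    (IsLocalRing.residue_eq_zero_iff z).symm
  have hA : ∀ k, IsLocalRing.residue O (a ⬝ᵥ (A k *ᵥ a) + l k ⬝ᵥ a) = 0 := by
    intro k
    rw [← hx k]
    simp only [dotProduct, mulVec, map_add, map_sum, map_mul, ha, Matrix.map_apply]
  have hD : ∀ k j, IsLocalRing.residue O (((A k + (A k)ᵀ) *ᵥ a) j + l k j) = J k j := by
    intro k j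
    simp only [hJ, Matrix.of_apply, Pi.add_apply, mulVec, dotProduct, map_sum, map_mul, ha,
      Matrix.add_apply, Matrix.transpose_apply, map_add, Matrix.map_apply]
  obtain ⟨b, hb1, hb2⟩ := Pool.Agent.Lib.MP_f80667_ag.hensel (IsLocalRing.maximalIdeal O)
    (fun k => qlpoly (A k) (l k)) a w
    (fun k => by rw [eval_qlpoly, hker]; exact hA k) (by
      intro i j
      rw [hker, map_sub, map_sum]
      have h1 : ∀ k, IsLocalRing.residue O
          (MvPolynomial.eval a (MvPolynomial.pderiv k (qlpoly (A i) (l i))) * w k j) =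
          J i k * W k j := by
        intro k
        rw [map_mul, eval_pderiv_qlpoly, hD, hw]
      rw [Finset.sum_congr rfl fun k _ => h1 k, ← Matrix.mul_apply, hW, Matrix.one_apply]
      split_ifs <;> simp)
  refine ⟨b, fun i => ?_, fun k => ?_⟩
  · have h1 := (hker _).1 (hb1 i)
    rw [map_sub, sub_eq_zero] at h1
    rw [h1, ha]
  · have h1 := hb2 k
    rwa [eval_qlpoly] at h1

/-- The value of a row of the Jacobian matrix. -/
theorem dot_jac {F : Type*} [Field F] {n : ℕ} (M : Matrix (Fin n) (Fin n) F) (x y : Fin n → F) :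
    y ⬝ᵥ ((M + Mᵀ) *ᵥ x) = bv M x y := by
  rw [add_mulVec, dotProduct_add, ← ht_bv, dotProduct_mulVec y Mᵀ, vecMul_transpose,
    dotProduct_comm (M *ᵥ y)]

variable {R : Type u} [CommRing R] [IsDomain R] [IsLocalRing R]
  [IsAdicComplete (maximalIdeal R) R] {n : ℕ} {A B : Matrix (Fin n) (Fin n) R}

/-- Proof: `hensel_quad` (`HensQ.lean`) for the two forms; the differentials at `T` are independent by
smoothness. -/
theorem lift0 (hs : Sm (AlgebraicClosure (ResidueField R)) (A.map (residue R)) (B.map (residue R)))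
    {T : Fin n → ResidueField R} (hT : T ≠ 0) (aT : qv (A.map (residue R)) T = 0)
    (bT : qv (B.map (residue R)) T = 0) :
    ∃ T' : Fin n → R, (∀ i, residue R (T' i) = T i) ∧ qr A T' = 0 ∧ qr B T' = 0 := by
  obtain ⟨y, hy1, hy2⟩ := Pool.Agent.Lib.MP_f80667_ag.hensel_quad ![A, B] T (fun i => by
    fin_cases i
    · show T ⬝ᵥ (A.map (residue R) *ᵥ T) = 0
      rw [ht_qv, aT]
    · show T ⬝ᵥ (B.map (residue R) *ᵥ T) = 0
      rw [ht_qv, bT]) (by
    rw [Fintype.linearIndependent_iff]
    intro g hg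
    rw [Fin.sum_univ_two] at hg
    have key : ∀ y : Fin n → ResidueField R, mB (A.map (residue R)) (B.map (residue R))
        (g 0) (g 1) T y = 0 := by
      intro y
      have h1 := congrArg (fun v => y ⬝ᵥ v) hg
      simp only [dotProduct_add, dotProduct_smul, smul_eq_mul, dotProduct_zero, dot_jac,
        cons_val] at h1
      exact h1
    obtain ⟨e0, e1⟩ := sm_pt (Ω := AlgebraicClosure (ResidueField R)) hs
      (Algebra.ofId _ _) hT aT bT key
    intro i
    fin_cases i
    · exact e0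
    · exact e1)
  exact ⟨y, hy1, hy2 0, hy2 1⟩

end Dq
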