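import Pool.Agent.Lib.MP_f80667_ag.Dq.Lift

/-! Lifting of a point on a given member. -/

open IsLocalRing

namespace Dq

open ZC Tq Dp Matrix

universe u

section mix

open MvPolynomial Pool.Agent.Lib.MP_f80667_ag

/-- The linear form with given coefficients, as a polynomial. -/
noncomputable def lpoly {R : Type*} [CommRing R] {n : ℕ} (c : Fin n → R) :
    MvPolynomial (Fin n) R := ∑ j, C (c j) * X j

theorem eval_lpoly {R : Type*} [CommRing R] {n : ℕ} (c x : Fin n → R) :
    eval x (lpoly c) = c ⬝ᵥ x := by
  simp only [lpoly, map_sum, map_mul, eval_X, eval_C, dotProduct]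

theorem eval_pderiv_lpoly {R : Type*} [CommRing R] {n : ℕ} (c x : Fin n → R) (l : Fin n) :
    eval x (pderiv l (lpoly c)) = c l := by
  classical
  have h1 : ∀ j, eval x (pderiv l (C (c j) * X j : MvPolynomial (Fin n) R)) =
      if j = l then c j else 0 := by
    intro j
    rw [Derivation.leibniz, pderiv_C, pderiv_X]
    simp only [smul_eq_mul, mul_zero, add_zero, map_mul, eval_C, Pi.single_apply]
    split_ifs <;> simp
  simp only [lpoly, map_sum, h1, Finset.sum_ite_eq', Finset.mem_univ, if_true]

/-- **Lifting of a nonsingular zero of inhomogeneous quadratic polynomials** `qr (A k) x + c k x`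
(quadratic and linear forms). -/
theorem hensel_mix {O : Type*} [CommRing O] [IsLocalRing O] [IsAdicComplete (maximalIdeal O) O]
    {r n : ℕ} (A : Fin r → Matrix (Fin n) (Fin n) O) (c : Fin r → Fin n → O) (T : Fin n → O)
    (h0 : ∀ k, residue O (qr (A k) T + c k ⬝ᵥ T) = 0)
    (hlin : ∀ g : Fin r → ResidueField O,
      (∀ y : Fin n → O, ∑ k, g k * residue O (br (A k) T y + c k ⬝ᵥ y) = 0) → ∀ k, g k = 0) :
    ∃ T' : Fin n → O, (∀ i, residue O (T' i) = residue O (T i)) ∧
      ∀ k, qr (A k) T' + c k ⬝ᵥ T' = 0 := by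
  classical
  have hsurj : Function.Surjective (residue O) := residue_surjective
  obtain ⟨J, hJ⟩ : ∃ J : Matrix (Fin r) (Fin n) (ResidueField O),
      J = Matrix.of fun k l => residue O (((A k + (A k)ᵀ) *ᵥ T) l + c k l) := ⟨_, rfl⟩
  have hrow : ∀ k (y : Fin n → O), ∑ l, J k l * residue O (y l) =
      residue O (br (A k) T y + c k ⬝ᵥ y) := by
    intro k y
    have e1 : br (A k) T y = ((A k + (A k)ᵀ) *ᵥ T) ⬝ᵥ y := by
      rw [br, Matrix.add_mulVec, add_dotProduct, Matrix.mulVec_transpose, ← Matrix.dotProduct_mulVec,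
        dotProduct_comm y, add_comm]
    rw [e1, ← add_dotProduct, dotProduct, map_sum]
    refine Finset.sum_congr rfl fun l _ => ?_
    rw [map_mul, hJ, Matrix.of_apply, Pi.add_apply]
  obtain ⟨W, hW⟩ := exists_right_inverse_of_row J (by
    rw [Fintype.linearIndependent_iff]
    intro g hg
    refine hlin g fun y => ?_
    have h1 : ∀ k, g k * residue O (br (A k) T y + c k ⬝ᵥ y) =
        ∑ l, g k * (J k l * residue O (y l)) := fun k => by rw [← hrow, Finset.mul_sum]
    rw [Finset.sum_congr rfl fun k _ => h1 k, Finset.sum_comm]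
    refine Finset.sum_eq_zero fun l _ => ?_
    have h2 := congrFun hg l
    simp only [Finset.sum_apply, Pi.smul_apply, smul_eq_mul, Pi.zero_apply, Matrix.row_apply] at h2
    have h3 : ∑ k, g k * (J k l * residue O (y l)) = (∑ k, g k * J k l) * residue O (y l) := by
      rw [Finset.sum_mul]
      exact Finset.sum_congr rfl fun k _ => by ring
    rw [h3, h2, zero_mul])
  choose w hw using fun (i : Fin n) (j : Fin r) => hsurj (W i j)
  have hker : ∀ z : O, z ∈ maximalIdeal O ↔ residue O z = 0 := fun z =>
    (residue_eq_zero_iff z).symm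
  obtain ⟨b, hb1, hb2⟩ := hensel (maximalIdeal O) (fun k => qpoly (A k) + lpoly (c k)) T w
    (fun k => by
      rw [map_add, eval_qpoly, eval_lpoly, hker]
      exact h0 k) (by
      intro i j
      rw [hker, map_sub, map_sum]
      have h1 : ∀ k, residue O (eval T (pderiv k (qpoly (A i) + lpoly (c i))) * w k j) =
          J i k * W k j := by
        intro k
        rw [map_mul, map_add, map_add, eval_pderiv_qpoly, eval_pderiv_lpoly, hw, hJ,
          Matrix.of_apply]
      rw [Finset.sum_congr rfl fun k _ => h1 k, ← Matrix.mul_apply, hW, Matrix.one_apply]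
      split_ifs <;> simp)
  refine ⟨b, fun i => ?_, fun k => ?_⟩
  · have h1 := (hker _).1 (hb1 i)
    rw [map_sub, sub_eq_zero] at h1
    exact h1
  · have h1 := hb2 k
    rwa [map_add, eval_qpoly, eval_lpoly] at h1

end mix

/-- The independence of the three functionals. -/
theorem lift1_jac {k : Type*} [Field k] {n : ℕ} {A B : Matrix (Fin n) (Fin n) k} {a b : k}
    (hnd : ND A B a b) {P T : Fin n → k} (aP : qv A P = 0) (bP : qv B P = 0) (hT : T ≠ 0)
    (aT : qv A T = 0) (bT : qv B T = 0) (hPT : bv A P T ≠ 0 ∨ bv B P T ≠ 0)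
    (h : mB A B a b P T = 0) {α β γ : k}
    (h1 : ∀ y : Fin n → k, α * bv A T y + β * bv B T y + γ * mB A B a b P y = 0) :
    α = 0 ∧ β = 0 ∧ γ = 0 := by
  have hab : a ≠ 0 ∨ b ≠ 0 := by
    by_contra hcon
    push Not at hcon
    obtain ⟨y, hy⟩ := hnd T hT
    exact hy (by rw [mB, hcon.1, hcon.2, zero_mul, zero_mul, add_zero])
  have h2 := h1 P
  rw [bv_comm A T P, bv_comm B T P, mB_self, mQ, aP, bP] at h2
  rw [mB] at h
  have hdet : α * b - β * a = 0 := by
    rcases hPT with h3 | h3
    · refine (mul_eq_zero.1 (?_ : (α * b - β * a) * bv A P T = 0)).resolve_right h3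
      linear_combination b * h2 - β * h
    · refine (mul_eq_zero.1 (?_ : (α * b - β * a) * bv B P T = 0)).resolve_right h3
      linear_combination α * h - a * h2
  obtain ⟨e, he1, he2⟩ : ∃ e : k, α = e * a ∧ β = e * b := by
    rcases hab with h3 | h3
    · refine ⟨α / a, by rw [div_mul_cancel₀ _ h3], ?_⟩
      rw [div_mul_eq_mul_div, eq_div_iff h3]
      linear_combination -hdet
    · refine ⟨β / b, ?_, by rw [div_mul_cancel₀ _ h3]⟩
      rw [div_mul_eq_mul_div, eq_div_iff h3]
      linear_combination hdet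
  have h3 : ∀ y : Fin n → k, mB A B a b (e • T + γ • P) y = 0 := by
    intro y
    have h4 := h1 y
    rw [mB_add, mB_smul, mB_smul, mB, ← h4, he1, he2]
    ring
  have h4 : e • T + γ • P = 0 := by
    by_contra h5
    obtain ⟨y, hy⟩ := hnd _ h5
    exact hy (h3 y)
  have hγ : γ = 0 := by
    by_contra hγ
    have h5 : P = (-(e / γ)) • T := by
      have h6 : γ • P = (-e) • T := by
        rw [neg_smul]
        exact eq_neg_of_add_eq_zero_right h4
      have h7 : P = γ⁻¹ • (γ • P) := by rw [smul_smul, inv_mul_cancel₀ hγ, one_smul]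
      rw [h7, h6, smul_smul]
      congr 1
      field_simp
    rcases hPT with h6 | h6
    · exact h6 (by rw [h5, bv_smul, bv_self, aT]; ring)
    · exact h6 (by rw [h5, bv_smul, bv_self, bT]; ring)
  rw [hγ, zero_smul, add_zero] at h4
  have he : e = 0 := (smul_eq_zero.1 h4).resolve_right hT
  exact ⟨by rw [he1, he, zero_mul], by rw [he2, he, zero_mul], hγ⟩

variable {R : Type u} [CommRing R] [IsDomain R] [IsLocalRing R]
  [IsAdicComplete (maximalIdeal R) R] {n : ℕ} {A B : Matrix (Fin n) (Fin n) R}

/-- Proof: `hensel` (`Hens.lean`) for the polynomials `qr A x`, `qr B x` and the linear form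
`a br A P x + b br B P x` in the `n` variables `x`, with a right inverse of the Jacobian matrix
(`exists_right_inverse_of_row`, as in `hensel_quad`, `tg_lift`). Independence of the three functionals
`bv A T`, `bv B T`, `mB P` over the residue field: let `α bv A T + β bv B T = γ mB P`. `γ = 0`:
smoothness at `T`. `γ = 1`: the value at `P` gives `α bv A T P + β bv B T P = 2 mQ P = 0`, and
`a bv A P T + b bv B P T = 0`, and `(bv A P T, bv B P T) ≠ 0`, so `(α, β) = e (a, b)` and
`mB (P - e T) = 0`, so `P = e T` (`ND`), and `bv A P T = 2 e qv A T = 0`, the same for `B`, against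
`hPT`. (`2` need not be invertible.) -/
theorem lift1 (hs : Sm (AlgebraicClosure (ResidueField R)) (A.map (residue R)) (B.map (residue R)))
    {P : Fin n → R} {a b : R}
    (hnd : ND (A.map (residue R)) (B.map (residue R)) (residue R a) (residue R b))
    (aP : qr A P = 0) (bP : qr B P = 0) {T : Fin n → ResidueField R} (hT : T ≠ 0)
    (aT : qv (A.map (residue R)) T = 0) (bT : qv (B.map (residue R)) T = 0)
    (hPT : bv (A.map (residue R)) (fun i => residue R (P i)) T ≠ 0 ∨
      bv (B.map (residue R)) (fun i => residue R (P i)) T ≠ 0)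
    (h : mB (A.map (residue R)) (B.map (residue R)) (residue R a) (residue R b)
      (fun i => residue R (P i)) T = 0) :
    ∃ T' : Fin n → R, (∀ i, residue R (T' i) = T i) ∧ qr A T' = 0 ∧ qr B T' = 0 ∧
      a * br A P T' + b * br B P T' = 0 := by
  have _ := hs
  have hsurj : Function.Surjective (residue R) := residue_surjective
  choose T0 hT0 using fun i => hsurj (T i)
  obtain rfl : T = fun i => residue R (T0 i) := funext fun i => (hT0 i).symm
  obtain ⟨c, hc⟩ : ∃ c : Fin n → R, ∀ x : Fin n → R, c ⬝ᵥ x = a * br A P x + b * br B P x := by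
    refine ⟨a • ((A + Aᵀ) *ᵥ P) + b • ((B + Bᵀ) *ᵥ P), fun x => ?_⟩
    have e1 : ∀ M : Matrix (Fin n) (Fin n) R, ((M + Mᵀ) *ᵥ P) ⬝ᵥ x = br M P x := by
      intro M
      rw [br, Matrix.add_mulVec, add_dotProduct, Matrix.mulVec_transpose, ← Matrix.dotProduct_mulVec,
        dotProduct_comm x, add_comm]
    rw [add_dotProduct, smul_dotProduct, smul_dotProduct, e1, e1, smul_eq_mul, smul_eq_mul]
  have hq0 : ∀ x : Fin n → R, qr (0 : Matrix (Fin n) (Fin n) R) x = 0 := fun x => by
    rw [qr, Matrix.zero_mulVec, dotProduct_zero]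
  have hb0 : ∀ x y : Fin n → R, br (0 : Matrix (Fin n) (Fin n) R) x y = 0 := fun x y => by
    rw [br, Matrix.zero_mulVec, Matrix.zero_mulVec, dotProduct_zero, dotProduct_zero, add_zero]
  have hmB : ∀ x : Fin n → R, residue R (a * br A P x + b * br B P x) =
      mB (A.map (residue R)) (B.map (residue R)) (residue R a) (residue R b)
        (fun i => residue R (P i)) (fun i => residue R (x i)) := by
    intro x
    rw [mB, bv_map_br, bv_map_br, map_add, map_mul, map_mul]
  obtain ⟨T', h1, h2⟩ := hensel_mix ![A, B, 0] ![0, 0, c] T0 (by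
    intro k
    fin_cases k
    · show residue R (qr A T0 + 0 ⬝ᵥ T0) = 0
      rw [zero_dotProduct, add_zero, ← qv_map_qr]
      exact aT
    · show residue R (qr B T0 + 0 ⬝ᵥ T0) = 0
      rw [zero_dotProduct, add_zero, ← qv_map_qr]
      exact bT
    · show residue R (qr 0 T0 + c ⬝ᵥ T0) = 0
      rw [hq0, zero_add, hc, hmB]
      exact h) (by
    intro g hg
    have aP' : qv (A.map (residue R)) (fun i => residue R (P i)) = 0 := by
      rw [qv_map_qr, aP, map_zero]
    have bP' : qv (B.map (residue R)) (fun i => residue R (P i)) = 0 := by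
      rw [qv_map_qr, bP, map_zero]
    obtain ⟨e0, e1, e2⟩ := lift1_jac hnd aP' bP' hT aT bT hPT h (α := g 0) (β := g 1) (γ := g 2)
      (fun y => by
        choose y0 hy0 using fun i => hsurj (y i)
        obtain rfl : y = fun i => residue R (y0 i) := funext fun i => (hy0 i).symm
        have h1 := hg y0
        rw [Fin.sum_univ_three] at h1
        simp only [Matrix.cons_val, zero_dotProduct, add_zero] at h1
        rw [hb0, zero_add, hc, hmB] at h1
        rw [bv_map_br, bv_map_br]
        exact h1)
    intro k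
    fin_cases k
    · exact e0
    · exact e1
    · exact e2)
  refine ⟨T', h1, ?_, ?_, ?_⟩
  · have := h2 0
    simpa using this
  · have := h2 1
    simpa using this
  · have h3 : qr 0 T' + c ⬝ᵥ T' = 0 := h2 2
    rwa [hq0, zero_add, hc] at h3

end Dq
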