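import Pool.Agent.Lib.MP_f80667_ag.Dq.Lift

/-! Lifting of a tangent vector. -/

open IsLocalRing

namespace Dq

open ZC Tq Dp Matrix

universe u

/-- The functional `br A P` and ring homomorphisms. -/
theorem jac_map {R K : Type*} [CommRing R] [CommRing K] {n : ℕ} (f : R →+* K)
    (A : Matrix (Fin n) (Fin n) R) (P : Fin n → R) : (fun i => f (((A + Aᵀ) *ᵥ P) i)) =
      (A.map f + (A.map f)ᵀ) *ᵥ fun i => f (P i) := by
  funext i
  simp only [mulVec, dotProduct, map_sum, map_mul, Matrix.add_apply, Matrix.transpose_apply,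
    map_add, Matrix.map_apply]

theorem jac_br {R : Type*} [CommRing R] {n : ℕ} (A : Matrix (Fin n) (Fin n) R)
    (P y : Fin n → R) : ((A + Aᵀ) *ᵥ P) ⬝ᵥ y = br A P y := by
  rw [dotProduct_comm, add_mulVec, dotProduct_add, br, dotProduct_mulVec y Aᵀ, vecMul_transpose,
    dotProduct_comm (A *ᵥ y), add_comm]

theorem row_l {R K : Type*} [CommRing R] [Field K] {n : ℕ} (f : R →+* K)
    (A : Matrix (Fin n) (Fin n) R) (P : Fin n → R) (u y : Fin n → K) :
    y ⬝ᵥ (((0 : Matrix (Fin n) (Fin n) R).map f + ((0 : Matrix (Fin n) (Fin n) R).map f)ᵀ) *ᵥ u +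
      (fun i => f (((A + Aᵀ) *ᵥ P) i))) = bv (A.map f) (fun i => f (P i)) y := by
  have h0 : (0 : Matrix (Fin n) (Fin n) R).map f = 0 := by
    ext i j
    simp only [Matrix.map_apply, Matrix.zero_apply, map_zero]
  rw [h0, transpose_zero, add_zero, zero_mulVec, zero_add, jac_map, dot_jac]

theorem comb_map {R K : Type*} [CommRing R] [Field K] {n : ℕ} (f : R →+* K)
    (A B : Matrix (Fin n) (Fin n) R) (a b : R) :
    (a • A + b • B).map f = f a • A.map f + f b • B.map f := by
  ext i j
  simp only [Matrix.map_apply, Matrix.add_apply, Matrix.smul_apply, smul_eq_mul, map_add, map_mul]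

theorem row_q {R K : Type*} [CommRing R] [Field K] {n : ℕ} (f : R →+* K)
    (A B : Matrix (Fin n) (Fin n) R) (a b : R) (u y : Fin n → K) :
    y ⬝ᵥ (((a • A + b • B).map f + ((a • A + b • B).map f)ᵀ) *ᵥ u +
      (fun i => f ((0 : Fin n → R) i))) = mB (A.map f) (B.map f) (f a) (f b) u y := by
  have h2 : (fun i => f ((0 : Fin n → R) i)) = 0 := by
    funext i
    exact map_zero _
  have h3 : (a • A + b • B).map f + ((a • A + b • B).map f)ᵀ =
      f a • (A.map f + (A.map f)ᵀ) + f b • (B.map f + (B.map f)ᵀ) := by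
    rw [comb_map, transpose_add, transpose_smul, transpose_smul, smul_add, smul_add]
    abel
  rw [h2, add_zero, h3, add_mulVec, dotProduct_add, smul_mulVec, smul_mulVec,
    dotProduct_smul, dotProduct_smul, dot_jac, dot_jac, smul_eq_mul, smul_eq_mul, mB]

variable {R : Type u} [CommRing R] [IsDomain R] [IsLocalRing R]
  [IsAdicComplete (maximalIdeal R) R] {n : ℕ} {A B : Matrix (Fin n) (Fin n) R}

/-- Proof: `hensel` for the linear forms `br A P x`, `br B P x` and the quadratic polynomial
`a qr A x + b qr B x`. Independence of the functionals `bv A P`, `bv B P`, `mB u` over the residue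
field: a relation evaluated at `g` shows that the coefficient of `mB u` is `0`; then smoothness at
`P`. -/
theorem lift2 (hs : Sm (AlgebraicClosure (ResidueField R)) (A.map (residue R)) (B.map (residue R)))
    {P : Fin n → R} (hP : (fun i => residue R (P i)) ≠ 0) (aP : qr A P = 0) (bP : qr B P = 0)
    {a b : R} {u : Fin n → ResidueField R}
    (hu : u ∈ TP (A.map (residue R)) (B.map (residue R)) (fun i => residue R (P i)))
    (hQ : mQ (A.map (residue R)) (B.map (residue R)) (residue R a) (residue R b) u = 0)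
    (hg : ∃ g ∈ TP (A.map (residue R)) (B.map (residue R)) (fun i => residue R (P i)),
      mB (A.map (residue R)) (B.map (residue R)) (residue R a) (residue R b) u g ≠ 0) :
    ∃ u' : Fin n → R, (∀ i, residue R (u' i) = u i) ∧ br A P u' = 0 ∧ br B P u' = 0 ∧
      a * qr A u' + b * qr B u' = 0 := by
  have hmap := comb_map (residue R) A B a b
  have h0 : (0 : Matrix (Fin n) (Fin n) R).map (residue R) = 0 := by
    ext i j
    simp only [Matrix.map_apply, Matrix.zero_apply, map_zero]
  have hu' := mem_TP.1 hu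
  obtain ⟨g, hgT, hg0⟩ := hg
  have hgT' := mem_TP.1 hgT
  obtain ⟨y, hy1, hy2⟩ := hensel_ql ![0, 0, a • A + b • B]
    ![(A + Aᵀ) *ᵥ P, (B + Bᵀ) *ᵥ P, 0] u (fun i => by
    fin_cases i
    · show u ⬝ᵥ ((0 : Matrix (Fin n) (Fin n) R).map (residue R) *ᵥ u) +
        (fun i => residue R (((A + Aᵀ) *ᵥ P) i)) ⬝ᵥ u = 0
      rw [h0, zero_mulVec, dotProduct_zero, zero_add, jac_map, dotProduct_comm, dot_jac]
      exact hu'.1
    · show u ⬝ᵥ ((0 : Matrix (Fin n) (Fin n) R).map (residue R) *ᵥ u) +
        (fun i => residue R (((B + Bᵀ) *ᵥ P) i)) ⬝ᵥ u = 0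
      rw [h0, zero_mulVec, dotProduct_zero, zero_add, jac_map, dotProduct_comm, dot_jac]
      exact hu'.2
    · show u ⬝ᵥ ((a • A + b • B).map (residue R) *ᵥ u) +
        (fun i => residue R ((0 : Fin n → R) i)) ⬝ᵥ u = 0
      have h1 : (fun i => residue R ((0 : Fin n → R) i)) = 0 := by
        funext i
        exact map_zero _
      rw [h1, zero_dotProduct, add_zero, hmap, add_mulVec, dotProduct_add, smul_mulVec,
        smul_mulVec, dotProduct_smul, dotProduct_smul, ht_qv, ht_qv, smul_eq_mul, smul_eq_mul]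
      exact hQ) (by
    rw [Fintype.linearIndependent_iff]
    intro c hc
    rw [Fin.sum_univ_three] at hc
    have key : ∀ y : Fin n → ResidueField R,
        c 0 * bv (A.map (residue R)) (fun i => residue R (P i)) y +
        c 1 * bv (B.map (residue R)) (fun i => residue R (P i)) y +
        c 2 * mB (A.map (residue R)) (B.map (residue R)) (residue R a) (residue R b) u y = 0 := by
      intro y
      have h1 := congrArg (fun v => y ⬝ᵥ v) hc
      simp only [dotProduct_zero] at h1
      rw [dotProduct_add, dotProduct_add, dotProduct_smul, dotProduct_smul, dotProduct_smul,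
        smul_eq_mul, smul_eq_mul, smul_eq_mul] at h1
      rw [← row_l (residue R) A P u y, ← row_l (residue R) B P u y,
        ← row_q (residue R) A B a b u y]
      exact h1
    have c2 : c 2 = 0 := by
      have h1 := key g
      rw [hgT'.1, hgT'.2, mul_zero, mul_zero, zero_add, zero_add] at h1
      exact (mul_eq_zero.1 h1).resolve_right hg0
    obtain ⟨c0, c1⟩ := sm_pt (Ω := AlgebraicClosure (ResidueField R)) hs
      (Algebra.ofId _ _) hP (a := c 0) (b := c 1) (by rw [qv_map_qr, aP, map_zero])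
      (by rw [qv_map_qr, bP, map_zero]) (fun y => by
        have h1 := key y
        rw [c2, zero_mul, add_zero] at h1
        exact h1)
    intro i
    fin_cases i
    · exact c0
    · exact c1
    · exact c2)
  refine ⟨y, hy1, ?_, ?_, ?_⟩
  · have h1 : y ⬝ᵥ ((0 : Matrix (Fin n) (Fin n) R) *ᵥ y) + ((A + Aᵀ) *ᵥ P) ⬝ᵥ y = 0 := hy2 0
    rwa [zero_mulVec, dotProduct_zero, zero_add, jac_br] at h1
  · have h1 : y ⬝ᵥ ((0 : Matrix (Fin n) (Fin n) R) *ᵥ y) + ((B + Bᵀ) *ᵥ P) ⬝ᵥ y = 0 := hy2 1
    rwa [zero_mulVec, dotProduct_zero, zero_add, jac_br] at h1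
  · have h1 : y ⬝ᵥ ((a • A + b • B) *ᵥ y) + (0 : Fin n → R) ⬝ᵥ y = 0 := hy2 2
    rwa [zero_dotProduct, add_zero, add_mulVec, dotProduct_add, smul_mulVec,
      smul_mulVec, dotProduct_smul, dotProduct_smul, smul_eq_mul, smul_eq_mul] at h1

end Dq
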