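import Pool.Agent.Lib.MP_f80667_ag.Dp.LineA
import Pool.Agent.Lib.MP_f80667_ag.Dq.Iso

/-! For at least five variables: Lines on a nondegenerate member which is known to contain a plane of zeros. -/

open scoped LinearAlgebra.Projectivization

namespace Dq

open ZC Tq Dp

universe u

variable {k : Type u} [Field k] [CharZero k] {Ω : Type u} [Field Ω] [Algebra k Ω] [IsAlgClosed Ω]
  {n : ℕ} {A B : Matrix (Fin n) (Fin n) k} {M : Type u} [Field M] [Algebra k M]

/-- A totally isotropic plane gives a line which is not contained in `X`. Proof: if `p` and `x` span a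
line in `X`: `Q = mQ a b` on the orthogonal space `U` of `p` (dimension `n - 1`) has the zero `x`, which
is not orthogonal to `U` (`ND`: `x` is not a multiple of `p`). If the other form `H` (`A` or `B` with
`(a, b)`, `H` independent) vanishes at all zeros of `Q` in `U` then `H = c Q` on `U` by `lemZ`, against
`no_sub`. So there is `y ∈ U` with `Q y = 0`, `qv H y ≠ 0`, and `p`, `y` span a line. -/
theorem exists_line (hs : Sm Ω A B) (σ : M →ₐ[k] Ω) (hn : 5 ≤ n) {a b : M} (hnd : ND A B a b)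
    {p x : Fin n → M} (hi : LinearIndependent M ![p, x]) (hp : mQ A B a b p = 0)
    (hx : mQ A B a b x = 0) (hpx : mB A B a b p x = 0) : ∃ t, IsM A B a b t := by
  have : CharZero M := charZero_of_injective_algebraMap (algebraMap k M).injective
  have hp0 : p ≠ 0 := hi.ne_zero 0
  have hx0 : x ≠ 0 := hi.ne_zero 1
  have hi' : LinearIndependent M ![x, p] := by
    rw [LinearIndependent.pair_iff] at hi ⊢
    intro s t hst
    exact (hi t s (by rw [add_comm]; exact hst)).symm
  by_cases h1 : ∃ H, (H = A ∨ H = B) ∧ qv H p ≠ 0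
  · obtain ⟨H, hH, h2⟩ := h1
    exact ⟨_, p, x, hi, hp, hx, hpx, H, hH, tn_ne_zero hi h2, rfl⟩
  push Not at h1
  have hab : a ≠ 0 ∨ b ≠ 0 := by
    obtain ⟨y, hy⟩ := hnd p hp0
    by_contra hcon
    push Not at hcon
    apply hy
    rw [mB, hcon.1, hcon.2]
    ring
  obtain ⟨H, hH, hdet⟩ : ∃ H, (H = A ∨ H = B) ∧ (H = A ∧ b ≠ 0 ∨ H = B ∧ a ≠ 0) := by
    rcases hab with h | h
    · exact ⟨B, Or.inr rfl, Or.inr ⟨rfl, h⟩⟩
    · exact ⟨A, Or.inl rfl, Or.inl ⟨rfl, h⟩⟩
  obtain ⟨g, hg, hxg⟩ := lna_g hnd hi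
  obtain ⟨c, d, hcd, hHm⟩ : ∃ c d : M, (∀ e : M, c - e * a ≠ 0 ∨ d - e * b ≠ 0) ∧
      ∀ y : Fin n → M, qv H y = mQ A B c d y := by
    rcases hdet with ⟨rfl, hb⟩ | ⟨rfl, ha⟩
    · refine ⟨1, 0, fun e => ?_, fun y => by rw [mQ]; ring⟩
      by_cases he : e = 0
      · left
        rw [he]
        simp
      · right
        rw [zero_sub]
        exact neg_ne_zero.2 (mul_ne_zero he hb)
    · refine ⟨0, 1, fun e => ?_, fun y => by rw [mQ]; ring⟩
      by_cases he : e = 0
      · right
        rw [he]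
        simp
      · left
        rw [zero_sub]
        exact neg_ne_zero.2 (mul_ne_zero he ha)
  obtain ⟨y, hyU, hQy, hHy⟩ : ∃ y ∈ LinearMap.ker (mBl A B a b p), mQ A B a b y = 0 ∧
      qv H y ≠ 0 := by
    by_contra hcon
    push Not at hcon
    obtain ⟨e, he⟩ := lemZ (K := M) two_ne_zero (s₀ := 2) two_ne_zero (by norm_num) (by norm_num)
      (LinearMap.ker (mBl A B a b p)) (mqf A B a b) (mqf A B c d) (e := x) (g := g) hpx hg hx
      (by rw [mqf_polar]; exact hxg) (fun u hu hQu => by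
        rw [mqf_apply, ← hHm]
        exact hcon u hu hQu)
    obtain ⟨z, hz, hz'⟩ := rad_sub two_ne_zero hs σ hn (hcd e) (LinearMap.ker (mBl A B a b p))
      (by have := lna_rank (A := A) (B := B) a b p; omega)
    apply hz'
    have h3 := he z hz
    rw [mqf_apply, mqf_apply, mQ, mQ] at h3
    rw [mQ]
    linear_combination h3
  have hpy : LinearIndependent M ![y, p] := by
    have h4 : LinearIndependent M ![p, y] := lna_ind hp0 (mqf A B c d)
      (by rw [mqf_apply, ← hHm]; exact h1 H hH) (by rw [mqf_apply, ← hHm]; exact hHy)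
    rw [LinearIndependent.pair_iff] at h4 ⊢
    intro s t hst
    exact (h4 t s (by rw [add_comm]; exact hst)).symm
  exact ⟨_, y, p, hpy, hQy, hp, by rw [mB_comm]; exact hyU, H, hH, tn_ne_zero hpy hHy, rfl⟩

end Dq
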