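import Pool.Agent.Lib.MP_f80667_ag.Dq.Lift2
import Pool.Agent.Lib.MP_f80667_ag.Dq.FinB1
import Pool.Agent.Lib.MP_f80667_ag.Dq.Dbl

/-!
The classes of the points over a complete discrete valuation ring with smooth reduction. `Ring R` with
fraction field `L`, a finite extension of `k`; the matrices `A`, `B` over `R` are given by matrices `A₀`,
`B₀` over `k`. `Loc`: these data. `Pt A B P`: the vector `P` over `R` is a point of `X` with nonzero
reduction. `Eqv`: the points are rationally equivalent.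
-/

open IsLocalRing
open scoped LinearAlgebra.Projectivization

namespace Dq

open ZC Tq Dp Matrix

universe u

section defs

variable {R : Type u} [CommRing R] [IsLocalRing R]

/-- A point over `R`. -/
structure Pt (A B : Matrix (Fin 5) (Fin 5) R) (P : Fin 5 → R) : Prop where
  ne : (fun i => residue R (P i)) ≠ 0
  a : qr A P = 0
  b : qr B P = 0

end defs

variable {k : Type u} [Field k] [CharZero k] {Ω : Type u} [Field Ω] [Algebra k Ω] [IsAlgClosed Ω]
  {A₀ B₀ : Matrix (Fin 5) (Fin 5) k} {R L : Type u} [CommRing R] [IsDomain R]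
  [IsDiscreteValuationRing R] [IsAdicComplete (maximalIdeal R) R] [Finite (ResidueField R)]
  [Field L] [Algebra R L] [IsFractionRing R L] [Algebra k L] [FiniteDimensional k L]
  {A B : Matrix (Fin 5) (Fin 5) R}

variable (k Ω L) in
/-- The classes of two points are equal. -/
def Eqv (A₀ B₀ : Matrix (Fin 5) (Fin 5) k) (P T : Fin 5 → R) : Prop :=
  ∀ (hP : (fun i => algebraMap R L (P i)) ≠ 0) (hT : (fun i => algebraMap R L (T i)) ≠ 0),
    trPt k Ω (Projectivization.mk L _ hP) - trPt k Ω (Projectivization.mk L _ hT) ∈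
      ratEq Ω (Pl A₀ B₀)

omit [IsDomain R] [IsDiscreteValuationRing R] [IsAdicComplete (maximalIdeal R) R]
  [Finite (ResidueField R)] in
theorem Pt.ne' [IsDomain R] [IsLocalRing R] {P : Fin 5 → R} (h : Pt A B P) :
    (fun i => algebraMap R L (P i)) ≠ 0 := by
  intro h0
  apply h.ne
  funext i
  have h1 : algebraMap R L (P i) = 0 := congrFun h0 i
  rw [(map_eq_zero_iff _ (IsFractionRing.injective R L)).1 h1]
  exact map_zero _

omit [CharZero k] [IsDomain R] [IsDiscreteValuationRing R] [IsAdicComplete (maximalIdeal R) R]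
  [Finite (ResidueField R)] [IsFractionRing R L] [FiniteDimensional k L] in
/-- The quadratic form over `L`. -/
theorem loc_qv {H₀ : Matrix (Fin 5) (Fin 5) k} {H : Matrix (Fin 5) (Fin 5) R}
    (hH : H.map (algebraMap R L) = H₀.map (algebraMap k L)) (x : Fin 5 → R) :
    qv H₀ (fun i => algebraMap R L (x i)) = algebraMap R L (qr H x) := by
  rw [← finb_qv (F := k) (k := L) (Ω := L) H₀, ← hH, qv_map_qr]

omit [CharZero k] [IsDomain R] [IsDiscreteValuationRing R] [IsAdicComplete (maximalIdeal R) R]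
  [Finite (ResidueField R)] [IsFractionRing R L] [FiniteDimensional k L] in
/-- The polar form over `L`. -/
theorem loc_bv {H₀ : Matrix (Fin 5) (Fin 5) k} {H : Matrix (Fin 5) (Fin 5) R}
    (hH : H.map (algebraMap R L) = H₀.map (algebraMap k L)) (x y : Fin 5 → R) :
    bv H₀ (fun i => algebraMap R L (x i)) (fun i => algebraMap R L (y i)) =
      algebraMap R L (br H x y) := by
  rw [← finb_bv (F := k) (k := L) (Ω := L) H₀, ← hH, bv_map_br]

/-- Tangent lines. Proof: let `a = br B P T`, `b = - br A P T`; by `Rl` the pair of residues is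
`c (pr1 l, pr2 l)` with `c ≠ 0` (`prop_of_mB` or `exists_pr`, `rl_unique`). `lift2` gives `u'` over `R`
which lifts `u`; over `L` (`qv_map_qr`, `bv_map_br`; the matrices `A₀`, `B₀` over `L` by `hA`, `hB`,
`Tg_of_mat` in `Dp/GoodV.lean`) the line through `P` and `u'` is tangent to `X` at `P` and on the member
through `P` and `T`; `u'` is not on `X` since `u` is not. `propT`. -/
theorem loc_tan (hs : Sm Ω A₀ B₀) (hA : A.map (algebraMap R L) = A₀.map (algebraMap k L))
    (hB : B.map (algebraMap R L) = B₀.map (algebraMap k L))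
    (hs' : Sm (AlgebraicClosure (ResidueField R)) (A.map (residue R)) (B.map (residue R)))
    {P T : Fin 5 → R} (hP : Pt A B P) (hT : Pt A B T) {l : Option (ResidueField R)}
    (hl : Rl (A.map (residue R)) (B.map (residue R)) (fun i => residue R (P i))
      (fun i => residue R (T i)) l)
    (hu : ∃ u ∈ TP (A.map (residue R)) (B.map (residue R)) (fun i => residue R (P i)),
      mQ (A.map (residue R)) (B.map (residue R)) (pr1 l) (pr2 l) u = 0 ∧
      ¬ (qv (A.map (residue R)) u = 0 ∧ qv (B.map (residue R)) u = 0) ∧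
      ∃ g ∈ TP (A.map (residue R)) (B.map (residue R)) (fun i => residue R (P i)),
        mB (A.map (residue R)) (B.map (residue R)) (pr1 l) (pr2 l) u g ≠ 0) :
    Eqv k Ω L A₀ B₀ P T := by
  intro hP' hT'
  obtain ⟨u, hu1, hu2, hu3, g, hg1, hg2⟩ := hu
  obtain ⟨c, hc, hc1, hc2⟩ := prop_of_mB (pr_ne l) hl.1 hl.2
  have ea : residue R (br B P T) = bv (B.map (residue R)) (fun i => residue R (P i))
      (fun i => residue R (T i)) := (bv_map_br _ _ _ _).symm
  have eb : residue R (-br A P T) = -bv (A.map (residue R)) (fun i => residue R (P i))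
      (fun i => residue R (T i)) := by rw [map_neg, bv_map_br]
  rw [← ea] at hc1
  rw [← eb] at hc2
  rw [hc1, hc2, mQ_scale] at hu2
  rw [hc1, hc2, mB_scale] at hg2
  obtain ⟨u', hr, h1, h2, h3⟩ := lift2 hs' hP.ne hP.a hP.b (a := br B P T) (b := -br A P T) hu1
    ((mul_eq_zero.1 hu2).resolve_left hc) ⟨g, hg1, right_ne_zero_of_mul hg2⟩
  have hinj := IsFractionRing.injective R L
  have zT : Zer (Pl A₀ B₀) L (fun i => algebraMap R L (T i)) := by
    rw [zer_iff, loc_qv hA, loc_qv hB, hT.a, hT.b, map_zero]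
    exact ⟨rfl, rfl⟩
  have hne : bv A₀ (fun i => algebraMap R L (P i)) (fun i => algebraMap R L (T i)) ≠ 0 ∨
      bv B₀ (fun i => algebraMap R L (P i)) (fun i => algebraMap R L (T i)) ≠ 0 := by
    rw [loc_bv hA, loc_bv hB, Ne, Ne, map_eq_zero_iff _ hinj, map_eq_zero_iff _ hinj]
    rcases hl.1 with h | h
    · left
      intro h0
      rw [bv_map_br, h0, map_zero] at h
      exact h rfl
    · right
      intro h0
      rw [bv_map_br, h0, map_zero] at h
      exact h rfl
  have key := propT (k := k) (Ω := Ω) hs (by norm_num : 5 ≤ 5) hT' zT hne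
    (u := fun i => algebraMap R L (u' i))
    ⟨hP', by rw [loc_qv hA, hP.a, map_zero], by rw [loc_qv hB, hP.b, map_zero],
      by rw [loc_bv hA, h1, map_zero], by rw [loc_bv hB, h2, map_zero],
      by
        rw [mQ, loc_qv hA, loc_qv hB, loc_bv hA, loc_bv hB, ← map_mul, ← map_neg, ← map_mul,
          ← map_add, h3, map_zero],
      by
        rintro ⟨h4, h5⟩
        rw [loc_qv hA, map_eq_zero_iff _ hinj] at h4
        rw [loc_qv hB, map_eq_zero_iff _ hinj] at h5
        apply hu3
        have e : u = fun i => residue R (u' i) := funext fun i => (hr i).symm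
        rw [e, qv_map_qr, qv_map_qr, h4, h5, map_zero]
        exact ⟨rfl, rfl⟩⟩
  rw [← neg_sub]
  exact AddSubgroup.neg_mem _ key

/-- Two pairs of points on the same member. Proof: `pt_cls` for both pairs, with the line through `P`
and `T` as the line of the member (`Lm.pt` or the tensor of the first pair). -/
theorem loc_pair (hs : Sm Ω A₀ B₀) (hA : A.map (algebraMap R L) = A₀.map (algebraMap k L))
    (hB : B.map (algebraMap R L) = B₀.map (algebraMap k L)) {P T P' T' : Fin 5 → R}
    (hP : Pt A B P) (hT : Pt A B T) (hP' : Pt A B P') (hT' : Pt A B T') {a b : R}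
    (hab : a ≠ 0 ∨ b ≠ 0) (h : br A P T ≠ 0 ∨ br B P T ≠ 0)
    (hPT : a * br A P T + b * br B P T = 0) (h' : br A P' T' ≠ 0 ∨ br B P' T' ≠ 0)
    (hPT' : a * br A P' T' + b * br B P' T' = 0) :
    (trPt k Ω (Projectivization.mk L _ hP.ne') + trPt k Ω (Projectivization.mk L _ hT.ne')) -
      (trPt k Ω (Projectivization.mk L _ hP'.ne') + trPt k Ω (Projectivization.mk L _ hT'.ne')) ∈
        ratEq Ω (Pl A₀ B₀) := by
  have hc0 : CharZero L := charZero_of_injective_algebraMap (algebraMap k L).injective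
  have hinj := IsFractionRing.injective R L
  have hz : ∀ {T : Fin 5 → R}, Pt A B T → Zer (Pl A₀ B₀) L (fun i => algebraMap R L (T i)) := by
    intro T hT
    rw [zer_iff, loc_qv hA, loc_qv hB, hT.a, hT.b, map_zero]
    exact ⟨rfl, rfl⟩
  have hn : ∀ {P T : Fin 5 → R}, br A P T ≠ 0 ∨ br B P T ≠ 0 →
      bv A₀ (fun i => algebraMap R L (P i)) (fun i => algebraMap R L (T i)) ≠ 0 ∨
      bv B₀ (fun i => algebraMap R L (P i)) (fun i => algebraMap R L (T i)) ≠ 0 := by
    intro P T h
    rwa [loc_bv hA, loc_bv hB, Ne, Ne, map_eq_zero_iff _ hinj, map_eq_zero_iff _ hinj]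
  have hm : ∀ {P T : Fin 5 → R}, a * br A P T + b * br B P T = 0 →
      mB A₀ B₀ (algebraMap R L a) (algebraMap R L b) (fun i => algebraMap R L (P i))
        (fun i => algebraMap R L (T i)) = 0 := by
    intro P T h
    rw [mB, loc_bv hA, loc_bv hB, ← map_mul, ← map_mul, ← map_add, h, map_zero]
  have hab' : algebraMap R L a ≠ 0 ∨ algebraMap R L b ≠ 0 := by
    rwa [Ne, Ne, map_eq_zero_iff _ hinj, map_eq_zero_iff _ hinj]
  obtain ⟨hsq, hL⟩ := Lm.pt (A := A₀) (B := B₀) ((zer_iff _ _).1 (hz hP)).1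
    ((zer_iff _ _).1 (hz hP)).2 ((zer_iff _ _).1 (hz hT)).1 ((zer_iff _ _).1 (hz hT)).2 (hn h)
  obtain ⟨c, hc, h1, h2⟩ := prop_of_mB hab' (hn h) (hm hPT)
  have hL' := hL.scale hc
  rw [← h1, ← h2] at hL'
  have k1 := pt_cls (k := k) (Ω := Ω) hs (by norm_num : 5 ≤ 5) hab' hP.ne' hT.ne' (hz hP) (hz hT)
    (hn h) (hm hPT) ⟨_, _, hL'⟩
  have k2 := pt_cls (k := k) (Ω := Ω) hs (by norm_num : 5 ≤ 5) hab' hP'.ne' hT'.ne' (hz hP')
    (hz hT') (hn h') (hm hPT') ⟨_, _, hL'⟩
  have k3 := AddSubgroup.sub_mem _ k2 k1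
  rwa [sub_sub_sub_cancel_left] at k3

end Dq
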