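import Pool.Agent.Lib.MP_f80667_ag.Dq.LocA
import Pool.Agent.Lib.MP_f80667_ag.Dq.FinD3
import Pool.Agent.Lib.MP_f80667_ag.Dp.FfA

/-! Primitive vectors, points with the same reduction. -/

open IsLocalRing
open scoped LinearAlgebra.Projectivization

namespace Dq

open ZC Tq Dp Matrix

universe u

/-- Every point has a primitive vector. Proof: divide by an entry such that the quotients of all
entries by it are in `R` (`ValuationRing.isInteger_or_isInteger`, induction or a maximum of the
valuations). -/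
theorem exists_prim {R L : Type u} [CommRing R] [IsDomain R] [IsDiscreteValuationRing R] [Field L]
    [Algebra R L] [IsFractionRing R L] {n : ℕ} {P : Fin n → L} (hP : P ≠ 0) :
    ∃ (c : L) (P₁ : Fin n → R), c ≠ 0 ∧ (fun i => residue R (P₁ i)) ≠ 0 ∧
      P = fun i => c * algebraMap R L (P₁ i) := by
  obtain ⟨j₀, hj₀⟩ : ∃ i, P i ≠ 0 := by
    by_contra hcon
    push Not at hcon
    exact hP (funext hcon)
  have : Nonempty (Fin n) := ⟨j₀⟩
  obtain ⟨i, hi⟩ := Finite.exists_max fun j => ValuationRing.valuation R L (P j)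
  have hPi : P i ≠ 0 := by
    intro h0
    have h1 := hi j₀
    rw [h0, map_zero, le_zero_iff, map_eq_zero] at h1
    exact hj₀ h1
  have hint : ∀ j, ∃ b : R, algebraMap R L b = P j / P i := by
    intro j
    rw [← ValuationRing.mem_integer_iff, Valuation.mem_integer_iff, map_div₀]
    exact div_le_one_of_le₀ (hi j) zero_le
  choose b hb using hint
  refine ⟨P i, b, hPi, ?_, ?_⟩
  · intro h0
    have h1 : b i = 1 := by
      apply IsFractionRing.injective R L
      rw [hb, div_self hPi, map_one]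
    have h2 : residue R (b i) = 0 := congrFun h0 i
    rw [h1, map_one] at h2
    exact one_ne_zero h2
  · funext j
    rw [hb, mul_div_cancel₀ _ hPi]

variable {k : Type u} [Field k] [CharZero k] {Ω : Type u} [Field Ω] [Algebra k Ω] [IsAlgClosed Ω]
  {A₀ B₀ : Matrix (Fin 5) (Fin 5) k} {R L : Type u} [CommRing R] [IsDomain R]
  [IsDiscreteValuationRing R] [IsAdicComplete (maximalIdeal R) R] [Finite (ResidueField R)]
  [Field L] [Algebra R L] [IsFractionRing R L] [Algebra k L] [FiniteDimensional k L]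
  {A B : Matrix (Fin 5) (Fin 5) R}

/-- Points with the same reduction. Proof: `exists_tan` for the reduction, `lift0` for `T`, `loc_tan`
for `P` and `P'`. -/
theorem loc_same (hs : Sm Ω A₀ B₀) (hA : A.map (algebraMap R L) = A₀.map (algebraMap k L))
    (hB : B.map (algebraMap R L) = B₀.map (algebraMap k L))
    (hs' : Sm (AlgebraicClosure (ResidueField R)) (A.map (residue R)) (B.map (residue R)))
    (h2 : (2 : ResidueField R) ≠ 0) (hq : 1000 ≤ Nat.card (ResidueField R))
    {v : Fin 5 → Fin 5 → AlgebraicClosure (ResidueField R)}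
    (hv : DG (A.map (residue R)) (B.map (residue R)) v) {P P' : Fin 5 → R} (hP : Pt A B P)
    (hP' : Pt A B P')
    (hW : (fun i => residue R (P i)) ∈ WS (A.map (residue R)) (B.map (residue R)))
    (h : (fun i => residue R (P' i)) = fun i => residue R (P i)) : Eqv k Ω L A₀ B₀ P P' := by
  obtain ⟨l, -, T₀, hT₀, hr, hu⟩ := exists_tan h2 hs' hv hq hW
  obtain ⟨T, hT, aT, bT⟩ := lift0 hs' hT₀.1 hT₀.2.1 hT₀.2.2.1
  have e : T₀ = fun i => residue R (T i) := funext fun i => (hT i).symm
  have hT' : Pt A B T := ⟨by rw [← e]; exact hT₀.1, aT, bT⟩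
  rw [e] at hr
  have k1 := loc_tan (k := k) (Ω := Ω) (L := L) hs hA hB hs' hP hT' hr hu
  rw [← h] at hr hu
  have k2 := loc_tan (k := k) (Ω := Ω) (L := L) hs hA hB hs' hP' hT' hr hu
  intro e1 e2
  have k3 := AddSubgroup.sub_mem _ (k1 e1 hT'.ne') (k2 e2 hT'.ne')
  rwa [sub_sub_sub_cancel_right] at k3

omit [CharZero k] [FiniteDimensional k L] in
/-- Proof: `exists_zero5` over the residue field, `lift0`. -/
theorem exists_pt_dvr (hA : A.map (algebraMap R L) = A₀.map (algebraMap k L))
    (hB : B.map (algebraMap R L) = B₀.map (algebraMap k L))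
    (hs' : Sm (AlgebraicClosure (ResidueField R)) (A.map (residue R)) (B.map (residue R))) :
    ∃ P : Fin 5 → L, P ≠ 0 ∧ Zer (Pl A₀ B₀) L P := by
  obtain ⟨e, -, he, ae, be⟩ := exists_zero5 (⊤ : Submodule (ResidueField R)
    (Fin 5 → ResidueField R)) (by rw [finrank_top, Module.finrank_fin_fun])
    (mqf (A.map (residue R)) (B.map (residue R)) 1 0)
    (mqf (A.map (residue R)) (B.map (residue R)) 0 1)
  rw [mqf_apply, mQ, one_mul, zero_mul, add_zero] at ae
  rw [mqf_apply, mQ, one_mul, zero_mul, zero_add] at be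
  obtain ⟨T, hT, aT, bT⟩ := lift0 hs' he ae be
  have hT' : Pt A B T := ⟨by
    rw [show (fun i => residue R (T i)) = e from funext hT]
    exact he, aT, bT⟩
  refine ⟨fun i => algebraMap R L (T i), hT'.ne', ?_⟩
  rw [zer_iff, loc_qv hA, loc_qv hB, aT, bT, map_zero]
  exact ⟨rfl, rfl⟩

end Dq
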