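import Pool.Agent.Lib.MP_f80667_ag.Dq.Lift1
import Pool.Agent.Lib.MP_f80667_ag.Dq.LocB0
import Pool.Agent.Lib.MP_f80667_ag.Dq.FinD

/-! The classes of the points with reduction in `WS`. -/

open IsLocalRing
open scoped LinearAlgebra.Projectivization

namespace Dq

open ZC Tq Dp Matrix

universe u

variable {k : Type u} [Field k] [CharZero k] {Ω : Type u} [Field Ω] [Algebra k Ω] [IsAlgClosed Ω]
  {A₀ B₀ : Matrix (Fin 5) (Fin 5) k} {R L : Type u} [CommRing R] [IsDomain R]
  [IsDiscreteValuationRing R] [IsAdicComplete (maximalIdeal R) R] [Finite (ResidueField R)]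
  [Field L] [Algebra R L] [IsFractionRing R L] [Algebra k L] [FiniteDimensional k L]
  {A B : Matrix (Fin 5) (Fin 5) R}

/-- Points with reduction in `WS`. Proof: `ffc` for `V = (ℙ Ω (Fin 5 → Ω) →₀ ℤ) ⧸ ratEq Ω (Pl A₀ B₀)`
and the class `x T` of a lift of `T ∈ WS` (`lift0`; `0` outside `WS`); by `loc_same` the class of every
`Pt` with reduction `T ∈ WS` is `x T`. `h0`: `Dq.dbl` over `L`. `h1`: lift `P`, `P'` by `lift0`, lift
`pr1 l`, `pr2 l` to `a`, `b` in `R`, `lift1` for `T` and `T'` (`Rl` gives the hypotheses, `mB` of the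
lifted pair), `loc_pair`. `h2'`: `loc_tan`. -/
theorem loc_ws (hs : Sm Ω A₀ B₀) (hA : A.map (algebraMap R L) = A₀.map (algebraMap k L))
    (hB : B.map (algebraMap R L) = B₀.map (algebraMap k L))
    (hs' : Sm (AlgebraicClosure (ResidueField R)) (A.map (residue R)) (B.map (residue R)))
    (h2 : (2 : ResidueField R) ≠ 0) (hq : 1000 ≤ Nat.card (ResidueField R))
    {v : Fin 5 → Fin 5 → AlgebraicClosure (ResidueField R)}
    (hv : DG (A.map (residue R)) (B.map (residue R)) v) {P P' : Fin 5 → R} (hP : Pt A B P)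
    (hP' : Pt A B P')
    (hW : (fun i => residue R (P i)) ∈ WS (A.map (residue R)) (B.map (residue R)))
    (hW' : (fun i => residue R (P' i)) ∈ WS (A.map (residue R)) (B.map (residue R))) :
    Eqv k Ω L A₀ B₀ P P' := by
  classical
  -- lifts of the points with `NS`
  have hlift : ∀ T : Fin 5 → ResidueField R, ∃ T' : Fin 5 → R,
      T ∈ WS (A.map (residue R)) (B.map (residue R)) →
        Pt A B T' ∧ (fun i => residue R (T' i)) = T := by
    intro T
    by_cases hT : T ∈ WS (A.map (residue R)) (B.map (residue R))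
    · obtain ⟨T', h1, h3, h4⟩ := lift0 hs' hT.1 hT.2.1 hT.2.2.1
      have e : (fun i => residue R (T' i)) = T := funext h1
      exact ⟨T', fun _ => ⟨⟨by rw [e]; exact hT.1, h3, h4⟩, e⟩⟩
    · exact ⟨0, fun h => absurd h hT⟩
  choose τ hτ using hlift
  -- the classes
  obtain ⟨cl, hcl⟩ : ∃ cl : (Fin 5 → R) → (ℙ Ω (Fin 5 → Ω) →₀ ℤ) ⧸ ratEq Ω (Pl A₀ B₀),
      ∀ (T : Fin 5 → R) (h : (fun i => algebraMap R L (T i)) ≠ 0),
        cl T = QuotientAddGroup.mk (trPt k Ω (Projectivization.mk L _ h)) :=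
    ⟨fun T => if h : (fun i => algebraMap R L (T i)) ≠ 0 then
      QuotientAddGroup.mk (trPt k Ω (Projectivization.mk L _ h)) else 0, fun T h => dif_pos h⟩
  have hE : ∀ {Q T : Fin 5 → R}, Pt A B Q → Pt A B T → Eqv k Ω L A₀ B₀ Q T → cl Q = cl T := by
    intro Q T hQ hT h
    rw [hcl Q hQ.ne', hcl T hT.ne', QuotientAddGroup.eq_iff_sub_mem]
    exact h _ _
  have hS : ∀ {Q : Fin 5 → R}, Pt A B Q →
      (fun i => residue R (Q i)) ∈ WS (A.map (residue R)) (B.map (residue R)) →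
        cl Q = cl (τ fun i => residue R (Q i)) := by
    intro Q hQ hQW
    obtain ⟨h3, h4⟩ := hτ _ hQW
    exact hE hQ h3 (loc_same hs hA hB hs' h2 hq hv hQ h3 hQW h4)
  have hz : ∀ {T : Fin 5 → R}, Pt A B T → Zer (Pl A₀ B₀) L (fun i => algebraMap R L (T i)) := by
    intro T hT
    rw [zer_iff, loc_qv hA, loc_qv hB, hT.a, hT.b, map_zero]
    exact ⟨rfl, rfl⟩
  have key := ffc (Ω := AlgebraicClosure (ResidueField R)) h2 hs' hv hq (fun T => cl (τ T))
    (fun Q hQ T hT => by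
      obtain ⟨h3, -⟩ := hτ Q hQ
      obtain ⟨h4, -⟩ := hτ T hT
      have h5 := dbl (k := k) (Ω := Ω) hs le_rfl h3.ne' h4.ne' (hz h3) (hz h4)
      change 2 • cl (τ Q) = 2 • cl (τ T)
      rw [hcl _ h3.ne', hcl _ h4.ne', ← QuotientAddGroup.mk_nsmul, ← QuotientAddGroup.mk_nsmul,
        QuotientAddGroup.eq_iff_sub_mem]
      exact_mod_cast h5)
    (fun Q hQ T hT Q' hQ' T' hT' l hl hr hr' => by
      obtain ⟨h3, e3⟩ := hτ Q hQ
      obtain ⟨h4, e4⟩ := hτ Q' hQ'
      obtain ⟨a, ha⟩ := residue_surjective (pr1 l)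
      obtain ⟨b, hb⟩ := residue_surjective (pr2 l)
      have hab : a ≠ 0 ∨ b ≠ 0 := by
        rcases pr_ne l with h | h
        · exact Or.inl fun h0 => h (by rw [← ha, h0, map_zero])
        · exact Or.inr fun h0 => h (by rw [← hb, h0, map_zero])
      have hnd : ND (A.map (residue R)) (B.map (residue R)) (residue R a) (residue R b) := by
        rw [ha, hb]
        exact hl
      have hne : ∀ {Y Z : Fin 5 → R}, (bv (A.map (residue R)) (fun i => residue R (Y i))
          (fun i => residue R (Z i)) ≠ 0 ∨ bv (B.map (residue R)) (fun i => residue R (Y i))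
          (fun i => residue R (Z i)) ≠ 0) → br A Y Z ≠ 0 ∨ br B Y Z ≠ 0 := by
        intro Y Z h
        rw [bv_map_br, bv_map_br] at h
        rcases h with h | h
        · exact Or.inl fun h0 => h (by rw [h0, map_zero])
        · exact Or.inr fun h0 => h (by rw [h0, map_zero])
      obtain ⟨T₁, k1, k2, k3, k4⟩ := lift1 hs' (P := τ Q) (a := a) (b := b) hnd h3.a h3.b hT.1
        hT.2.1 hT.2.2.1 (by rw [e3]; exact hr.1) (by rw [e3, ha, hb]; exact hr.2)
      obtain ⟨T₂, m1, m2, m3, m4⟩ := lift1 hs' (P := τ Q') (a := a) (b := b) hnd h4.a h4.b hT'.1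
        hT'.2.1 hT'.2.2.1 (by rw [e4]; exact hr'.1) (by rw [e4, ha, hb]; exact hr'.2)
      have f1 : (fun i => residue R (T₁ i)) = T := funext k1
      have f2 : (fun i => residue R (T₂ i)) = T' := funext m1
      have p1 : Pt A B T₁ := ⟨by rw [f1]; exact hT.1, k2, k3⟩
      have p2 : Pt A B T₂ := ⟨by rw [f2]; exact hT'.1, m2, m3⟩
      have g1 := hS p1 (by rw [f1]; exact hT)
      have g2 := hS p2 (by rw [f2]; exact hT')
      rw [f1] at g1
      rw [f2] at g2
      have h5 := loc_pair (k := k) (Ω := Ω) (L := L) hs hA hB h3 p1 h4 p2 hab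
        (hne (by rw [e3, f1]; exact hr.1)) k4 (hne (by rw [e4, f2]; exact hr'.1)) m4
      change cl (τ Q) + cl (τ T) = cl (τ Q') + cl (τ T')
      rw [← g1, ← g2, hcl _ h3.ne', hcl _ h4.ne', hcl _ p1.ne', hcl _ p2.ne',
        ← QuotientAddGroup.mk_add, ← QuotientAddGroup.mk_add, QuotientAddGroup.eq_iff_sub_mem]
      exact h5)
    (fun Q hQ T hT l hl hr hu => by
      obtain ⟨h3, e3⟩ := hτ Q hQ
      obtain ⟨h4, e4⟩ := hτ T hT
      exact hE h3 h4 (loc_tan (l := l) hs hA hB hs' h3 h4 (by rw [e3, e4]; exact hr)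
        (by rw [e3]; exact hu)))
  intro hP₁ hP₂
  have h3 := key _ hW _ hW'
  change cl (τ _) = cl (τ _) at h3
  rw [← hS hP hW, ← hS hP' hW', hcl _ hP₁, hcl _ hP₂, QuotientAddGroup.eq_iff_sub_mem] at h3
  exact h3

end Dq
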