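import Pool.Agent.Lib.MP_f80667_ag.Dq.LocB
import Pool.Agent.Lib.MP_f80667_ag.Dq.DgB

/-! All points of `X` over a complete discrete valuation ring with smooth reduction have the same
class. -/

open IsLocalRing
open scoped LinearAlgebra.Projectivization

namespace Dq

open ZC Tq Dp Matrix

universe u

variable {k : Type u} [Field k] [CharZero k] {Ω : Type u} [Field Ω] [Algebra k Ω] [IsAlgClosed Ω]
  {A₀ B₀ : Matrix (Fin 5) (Fin 5) k} {R L : Type u} [CommRing R] [IsDomain R]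
  [IsDiscreteValuationRing R] [IsAdicComplete (maximalIdeal R) R] [Finite (ResidueField R)]
  [Field L] [Algebra R L] [IsFractionRing R L] [Algebra k L] [FiniteDimensional k L]
  {A B : Matrix (Fin 5) (Fin 5) R}

/-- Every point has the class of a point with reduction in `WS`. -/
theorem pp_ws (hs : Sm Ω A₀ B₀) (hA : A.map (algebraMap R L) = A₀.map (algebraMap k L))
    (hB : B.map (algebraMap R L) = B₀.map (algebraMap k L))
    (hs' : Sm (AlgebraicClosure (ResidueField R)) (A.map (residue R)) (B.map (residue R)))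
    (h2 : (2 : ResidueField R) ≠ 0) (hq : 1000 ≤ Nat.card (ResidueField R))
    {v : Fin 5 → Fin 5 → AlgebraicClosure (ResidueField R)}
    (hv : DG (A.map (residue R)) (B.map (residue R)) v) {P : Fin 5 → R} (hP : Pt A B P) :
    ∃ T : Fin 5 → R, Pt A B T ∧
      (fun i => residue R (T i)) ∈ WS (A.map (residue R)) (B.map (residue R)) ∧
      Eqv k Ω L A₀ B₀ P T := by
  classical
  have : Fintype (ResidueField R) := Fintype.ofFinite _
  obtain ⟨l, hl⟩ : ∃ l, l ∈ LS (A.map (residue R)) (B.map (residue R)) := by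
    by_contra hcon
    push Not at hcon
    have h3 := hv.card_le (rad_two_ne h2)
    have h4 : (LS (A.map (residue R)) (B.map (residue R)))ᶜ = Set.univ :=
      Set.eq_univ_of_forall fun l => hcon l
    rw [h4, Set.ncard_univ, Nat.card_eq_fintype_card, Fintype.card_option] at h3
    rw [Nat.card_eq_fintype_card] at hq
    omega
  have aP : qv (A.map (residue R)) (fun i => residue R (P i)) = 0 := by
    rw [qv_map_qr, hP.a, map_zero]
  have bP : qv (B.map (residue R)) (fun i => residue R (P i)) = 0 := by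
    rw [qv_map_qr, hP.b, map_zero]
  obtain ⟨T, hT, hr⟩ := exists_rl h2 hs' hv hq hP.ne aP bP hl
  obtain ⟨S, hS, hr'⟩ := exists_rl h2 hs' hv hq hT.1 hT.2.1 hT.2.2.1 hl
  obtain ⟨a, ha⟩ := residue_surjective (pr1 l)
  obtain ⟨b, hb⟩ := residue_surjective (pr2 l)
  have hab : a ≠ 0 ∨ b ≠ 0 := by
    rcases pr_ne l with h | h
    · exact Or.inl fun h0 => h (by rw [← ha, h0, map_zero])
    · exact Or.inr fun h0 => h (by rw [← hb, h0, map_zero])
  have hnd : ND (A.map (residue R)) (B.map (residue R)) (residue R a) (residue R b) := by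
    rw [ha, hb]
    exact hl
  have hne : ∀ {Y Z : Fin 5 → R}, (bv (A.map (residue R)) (fun i => residue R (Y i))
      (fun i => residue R (Z i)) ≠ 0 ∨ bv (B.map (residue R)) (fun i => residue R (Y i))
      (fun i => residue R (Z i)) ≠ 0) → br A Y Z ≠ 0 ∨ br B Y Z ≠ 0 := by
    intro Y Z h
    rw [bv_map_br, bv_map_br] at h
    rcases h with h | h
    · exact Or.inl fun h0 => h (by rw [h0, map_zero])
    · exact Or.inr fun h0 => h (by rw [h0, map_zero])
  obtain ⟨T₁, k1, k2, k3, k4⟩ := lift1 hs' (P := P) (a := a) (b := b) hnd hP.a hP.b hT.1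
    hT.2.1 hT.2.2.1 hr.1 (by rw [ha, hb]; exact hr.2)
  have f1 : (fun i => residue R (T₁ i)) = T := funext k1
  have p1 : Pt A B T₁ := ⟨by rw [f1]; exact hT.1, k2, k3⟩
  obtain ⟨T₂, m1, m2, m3, m4⟩ := lift1 hs' (P := T₁) (a := a) (b := b) hnd p1.a p1.b hS.1
    hS.2.1 hS.2.2.1 (by rw [f1]; exact hr'.1) (by rw [f1, ha, hb]; exact hr'.2)
  have f2 : (fun i => residue R (T₂ i)) = S := funext m1
  have p2 : Pt A B T₂ := ⟨by rw [f2]; exact hS.1, m2, m3⟩
  refine ⟨T₂, p2, by rw [f2]; exact hS, ?_⟩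
  intro hP' hT'
  have h5 := loc_pair (k := k) (Ω := Ω) (L := L) hs hA hB hP p1 p1 p2 hab
    (hne (by rw [f1]; exact hr.1)) k4 (hne (by rw [f1, f2]; exact hr'.1)) m4
  have e : ∀ x y z : ℙ Ω (Fin 5 → Ω) →₀ ℤ, x + y - (y + z) = x - z := fun x y z => by abel
  rwa [e] at h5

/-- All points. Proof: let `l ∈ LS` (`DG.card_le`), `T ∈ WS` with `Rl P T l` (`exists_rl` for the
reduction of `P`), `T₁`, `T₂` with `T₁ ∈ WS`, `Rl T T₁ l` (`exists_rl` for `T`). Lift `pr1 l`, `pr2 l` to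
`a`, `b`, `lift1` for `P` and `T`, and for a lift of `T` (`lift0`) and `T₁`; `loc_pair` and `loc_ws`
show that `P` has the class of the points with reduction in `WS`. -/
theorem pp_pt (hs : Sm Ω A₀ B₀) (hA : A.map (algebraMap R L) = A₀.map (algebraMap k L))
    (hB : B.map (algebraMap R L) = B₀.map (algebraMap k L))
    (hs' : Sm (AlgebraicClosure (ResidueField R)) (A.map (residue R)) (B.map (residue R)))
    (h2 : (2 : ResidueField R) ≠ 0) (hq : 1000 ≤ Nat.card (ResidueField R))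
    {v : Fin 5 → Fin 5 → AlgebraicClosure (ResidueField R)}
    (hv : DG (A.map (residue R)) (B.map (residue R)) v) {P P' : Fin 5 → R} (hP : Pt A B P)
    (hP' : Pt A B P') : Eqv k Ω L A₀ B₀ P P' := by
  obtain ⟨T, hT, hW, hE⟩ := pp_ws (k := k) (Ω := Ω) (L := L) hs hA hB hs' h2 hq hv hP
  obtain ⟨T', hT', hW', hE'⟩ := pp_ws (k := k) (Ω := Ω) (L := L) hs hA hB hs' h2 hq hv hP'
  have h := loc_ws (k := k) (Ω := Ω) (L := L) hs hA hB hs' h2 hq hv hT hT' hW hW'
  intro h3 h4
  have k1 := hE h3 hT.ne'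
  have k2 := h hT.ne' hT'.ne'
  have k3 := hE' h4 hT'.ne'
  have k4 := AddSubgroup.sub_mem _ (AddSubgroup.add_mem _ k1 k2) k3
  have e : ∀ x y z w : ℙ Ω (Fin 5 → Ω) →₀ ℤ, x - y + (y - z) - (w - z) = x - w :=
    fun x y z w => by abel
  rwa [e] at k4

/-- Proof: `exists_dg` (with `Ω = AlgebraicClosure (ResidueField R)`, `SepR.map`), `exists_prim`,
`pp_pt`. -/
theorem pp_dvr (hs : Sm Ω A₀ B₀) (hA : A.map (algebraMap R L) = A₀.map (algebraMap k L))
    (hB : B.map (algebraMap R L) = B₀.map (algebraMap k L))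
    (hs' : Sm (AlgebraicClosure (ResidueField R)) (A.map (residue R)) (B.map (residue R)))
    (h2 : (2 : ResidueField R) ≠ 0) (hq : 1000 ≤ Nat.card (ResidueField R))
    (hS : SepR (A.map (residue R)) (B.map (residue R))) {P P' : Fin 5 → L} (hP : P ≠ 0)
    (hP' : P' ≠ 0) (zP : Zer (Pl A₀ B₀) L P) (zP' : Zer (Pl A₀ B₀) L P') :
    trPt k Ω (Projectivization.mk L P hP) - trPt k Ω (Projectivization.mk L P' hP') ∈
      ratEq Ω (Pl A₀ B₀) := by
  obtain ⟨v, hv⟩ := exists_dg (k := ResidueField R) (Ω := AlgebraicClosure (ResidueField R))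
    (rad_two_ne h2) hs' (hS.map _)
  have key : ∀ {Q : Fin 5 → L} (hQ : Q ≠ 0), Zer (Pl A₀ B₀) L Q → ∃ (Q₁ : Fin 5 → R)
      (h : Pt A B Q₁), Projectivization.mk L Q hQ = Projectivization.mk L _ (h.ne' (L := L)) := by
    intro Q hQ zQ
    obtain ⟨c, Q₁, hc, hr, e⟩ := exists_prim (R := R) hQ
    have hinj := IsFractionRing.injective R L
    have e' : Q = c • fun i => algebraMap R L (Q₁ i) := e
    have h3 := (zer_iff _ _).1 zQ
    rw [e', qv_smul, qv_smul, loc_qv hA, loc_qv hB] at h3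
    have h : Pt A B Q₁ := by
      refine ⟨hr, ?_, ?_⟩
      · exact (map_eq_zero_iff _ hinj).1 ((mul_eq_zero.1 h3.1).resolve_left (pow_ne_zero 2 hc))
      · exact (map_eq_zero_iff _ hinj).1 ((mul_eq_zero.1 h3.2).resolve_left (pow_ne_zero 2 hc))
    refine ⟨Q₁, h, ?_⟩
    rw [Projectivization.mk_eq_mk_iff']
    exact ⟨c, e'.symm⟩
  obtain ⟨Q, hQ, e⟩ := key hP zP
  obtain ⟨Q', hQ', e'⟩ := key hP' zP'
  rw [e, e']
  exact pp_pt (k := k) (Ω := Ω) (L := L) hs hA hB hs' h2 hq hv hQ hQ' _ _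

end Dq
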