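import Pool.Agent.Lib.MP_f80667_ag.Dp.Pad
import Pool.Agent.Lib.MP_f80667_ag.Dq.Nu
import Pool.Agent.Lib.MP_f80667_ag.Dq.LineA

/-! Atoms of degree two. -/

open scoped LinearAlgebra.Projectivization

namespace Dq

open ZC Tq Dp

universe u

variable {k : Type u} [Field k] [CharZero k] {Ω : Type u} [Field Ω] [Algebra k Ω]
  [IsAlgClosure k Ω] {n : ℕ} {A B : Matrix (Fin n) (Fin n) k}

/-- Proof: `Ts.exists_nd1` (a nondegenerate member over `k`, `(a, b) = (1, t)`), `ND.hom`,
`plane_closed`, `exists_line`. -/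
theorem pad_closed (hs : Sm Ω A B) (hn : 5 ≤ n) (M : Type u) [Field M] [Algebra k M]
    [FiniteDimensional k M] [IsAlgClosed M] : ∃ (a b : M) (t : ℙ M (Fin (n * n) → M)),
      ND A B a b ∧ IsM A B a b t := by
  have : IsAlgClosed Ω := IsAlgClosure.isAlgClosed k
  have : CharZero M := charZero_of_injective_algebraMap (algebraMap k M).injective
  obtain ⟨t, ht⟩ := Ts.exists_nd1 hs (by omega)
  have hnd : ND A B (1 : k) t := by
    intro x hx
    obtain ⟨y, hy⟩ := ht x hx
    exact ⟨y, by rwa [mB, one_mul]⟩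
  have hnd' : ND A B (Algebra.ofId k M 1) (Algebra.ofId k M t) := (ND.hom _).2 hnd
  obtain ⟨p, x, h1, h2, h3, h4⟩ := plane_closed (A := A) (B := B) (by omega)
    (Algebra.ofId k M 1) (Algebra.ofId k M t)
  obtain ⟨t', ht'⟩ := exists_line hs (IsAlgClosed.lift : M →ₐ[k] Ω) hn hnd' h1 h2 h3 h4
  exact ⟨_, _, t', hnd', ht'⟩

/-- Proof. A nondegenerate member over `k` (`Ts.exists_nd1`); a zero `p` over `k` (`hiso` for the
restriction to five basis vectors); `y₁`, `y₂` in the orthogonal space of `p` with `y₁`, `y₂`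
orthogonal, `Q y₁ ≠ 0`, `Q y₂ ≠ 0` (`no_sub` twice: the orthogonal spaces of `p` and of `p`, `y₁` have
dimensions `n - 1`, `n - 2`). Let `c = - Q y₁ / Q y₂`. If `c` is not a square let `M = k(√c)`, if it is a
square let `M = k(√c₀)` for a nonsquare `c₀`. Over `M` let `s ^ 2 = c`: `x = y₁ + s y₂` is a zero
orthogonal to `p`, and independent of `p` (`mB y₁ x = 2 Q y₁ ≠ 0`, `mB y₁ p = 0`). `exists_line` over
`M`. -/
theorem pad_iso (hs : Sm Ω A B) (hn : 5 ≤ n)
    (hiso : ∀ G : Matrix (Fin 5) (Fin 5) k, ∃ x : Fin 5 → k, x ≠ 0 ∧ qv G x = 0)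
    (hsq : ∃ c : k, ¬ IsSquare c) : ∃ (M : Type u) (_ : Field M) (_ : Algebra k M)
      (_ : FiniteDimensional k M) (a b : M) (t : ℙ M (Fin (n * n) → M)),
      Module.finrank k M = 2 ∧ ND A B a b ∧ IsM A B a b t := by
  have hcl : IsAlgClosed Ω := IsAlgClosure.isAlgClosed k
  obtain ⟨t, ht⟩ := Ts.exists_nd1 hs (by omega)
  have hnd : ND A B (1 : k) t := by
    intro x hx
    obtain ⟨y, hy⟩ := ht x hx
    exact ⟨y, by rwa [mB, one_mul]⟩
  -- a zero
  obtain ⟨p, hp0, hp⟩ : ∃ p : Fin n → k, p ≠ 0 ∧ mQ A B 1 t p = 0 := by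
    have h5 : 5 ≤ n := by omega
    obtain ⟨x, hx0, hx⟩ := hiso (fun i j => A (Fin.castLE h5 i) (Fin.castLE h5 j) +
      t * B (Fin.castLE h5 i) (Fin.castLE h5 j))
    refine ⟨Function.extend (Fin.castLE h5) x 0, ?_, ?_⟩
    · intro h0
      apply hx0
      funext i
      have h1 := congrFun h0 (Fin.castLE h5 i)
      rwa [(Fin.castLE_injective h5).extend_apply] at h1
    · rw [mQ, Pad_qv h5 A x, Pad_qv h5 B x, one_mul, Finset.mul_sum, ← Finset.sum_add_distrib,
        ← hx, qv]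
      refine Finset.sum_congr rfl fun i _ => ?_
      rw [Finset.mul_sum, ← Finset.sum_add_distrib]
      refine Finset.sum_congr rfl fun j _ => ?_
      rw [Algebra.algebraMap_self, RingHom.id_apply]
      ring
  obtain ⟨y1, hy1U, hy1⟩ := nd_sub hn hnd
    (LinearMap.ker (mBl A B 1 t p)) (by
      have h1 := LinearMap.finrank_range_add_finrank_ker (mBl A B 1 t p)
      have h2 := Submodule.finrank_le (LinearMap.range (mBl A B 1 t p))
      rw [Module.finrank_self] at h2
      rw [Module.finrank_fin_fun] at h1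
      omega)
  obtain ⟨y2, hy2U, hy2⟩ := nd_sub hn hnd
    (LinearMap.ker ((mBl A B 1 t p).prod (mBl A B 1 t y1))) (by
      have h1 := LinearMap.finrank_range_add_finrank_ker ((mBl A B 1 t p).prod (mBl A B 1 t y1))
      have h2 := Submodule.finrank_le (LinearMap.range ((mBl A B 1 t p).prod (mBl A B 1 t y1)))
      rw [Module.finrank_prod, Module.finrank_self] at h2
      rw [Module.finrank_fin_fun] at h1
      omega)
  have hb1 : mB A B 1 t p y1 = 0 := hy1U
  rw [LinearMap.mem_ker, LinearMap.prod_apply] at hy2U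
  obtain ⟨hb2, hb3⟩ := Prod.mk_eq_zero.1 hy2U
  rw [mBl_apply] at hb2 hb3
  obtain ⟨M, i1, i2, i3, s, hM, hs2⟩ := Pad_ext hsq (-mQ A B 1 t y1 / mQ A B 1 t y2)
  have : CharZero M := charZero_of_injective_algebraMap (algebraMap k M).injective
  set f : k →ₐ[k] M := Algebra.ofId k M with hf
  have hnd' : ND A B (f 1) (f t) := (ND.hom _).2 hnd
  have hQp : mQ A B (f 1) (f t) (fun i => f (p i)) = 0 := by rw [mQ_hom, hp, map_zero]
  have hB1 : mB A B (f 1) (f t) (fun i => f (p i)) (fun i => f (y1 i)) = 0 := by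
    rw [mB_hom, hb1, map_zero]
  have hB2 : mB A B (f 1) (f t) (fun i => f (p i)) (fun i => f (y2 i)) = 0 := by
    rw [mB_hom, hb2, map_zero]
  have hB3 : mB A B (f 1) (f t) (fun i => f (y1 i)) (fun i => f (y2 i)) = 0 := by
    rw [mB_hom, hb3, map_zero]
  have hQ1 := mQ_hom (A := A) (B := B) f 1 t y1
  have hQ2 := mQ_hom (A := A) (B := B) f 1 t y2
  have hne1 : f (mQ A B 1 t y1) ≠ 0 := (map_ne_zero f).2 hy1
  have hs3 : s ^ 2 * f (mQ A B 1 t y2) = -f (mQ A B 1 t y1) := by
    have h1 : s ^ 2 = f (-mQ A B 1 t y1 / mQ A B 1 t y2) := hs2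
    rw [h1, ← map_mul, div_mul_cancel₀ _ hy2, map_neg]
  obtain ⟨t', ht'⟩ := exists_line hs (IsAlgClosed.lift : M →ₐ[k] Ω) hn hnd'
    (p := fun i => f (p i)) (x := (fun i => f (y1 i)) + s • fun i => f (y2 i)) (by
      rw [LinearIndependent.pair_iff]
      intro α β hαβ
      have h1 : mB A B (f 1) (f t) (fun i => f (y1 i))
          (α • (fun i => f (p i)) + β • ((fun i => f (y1 i)) + s • fun i => f (y2 i))) = 0 := by
        rw [hαβ]
        exact (mBl A B (f 1) (f t) (fun i => f (y1 i))).map_zero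
      rw [mB_add_right, mB_smul_right, mB_smul_right, mB_add_right, mB_smul_right, hB3,
        mB_self, mB_comm, hB1, hQ1, mul_zero, mul_zero, zero_add, add_zero] at h1
      have hβ : β = 0 :=
        (mul_eq_zero.1 h1).resolve_right (mul_ne_zero two_ne_zero hne1)
      refine ⟨?_, hβ⟩
      rw [hβ, zero_smul, add_zero] at hαβ
      refine (smul_eq_zero.1 hαβ).resolve_right ?_
      exact comp_ne (f : k →+* M) hp0) hQp (by
      rw [mQ_add, mQ_smul, mB_smul_right, hB3, hQ1, hQ2, hs3]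
      ring) (by
      rw [mB_add_right, mB_smul_right, hB1, hB2]
      ring)
  exact ⟨M, i1, i2, i3, _, _, t', hM, hnd', ht'⟩

end Dq
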