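import Pool.Agent.Lib.MP_f80667_ag.Dq.Dg
import Pool.Agent.Lib.MP_f80667_ag.Hm.Defs

/-!
The degenerate members of a pencil of quadratic forms in five variables.

* `mtx A B`: the matrix of the polar form of the member `(1, -T)`; `chp A B` is its determinant.
* `mf A B`: the monic multiple of `chp A B`.
* `dlp A B w`: the discriminant of the restriction of the member `(1, -T)` to the space `w · x = 0`.
* `Res f K θ`: the `K i` are generated by the zeros `θ i` of the separable monic polynomial `f`, one for
  every irreducible factor.
-/

open Polynomial IsDedekindDomain NumberField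

namespace Dq

section ring

variable {R : Type*} [CommRing R]

/-- The matrix of the polar form of the member `(1, -T)`. -/
noncomputable def mtx (A B : Matrix (Fin 5) (Fin 5) R) : Matrix (Fin 5) (Fin 5) R[X] :=
  (A + A.transpose).map C - (X : R[X]) • (B + B.transpose).map C

theorem chp_eq (A B : Matrix (Fin 5) (Fin 5) R) : chp A B = (mtx A B).det := rfl

/-- The discriminant of the restriction of the member `(1, -T)` to the space `w · x = 0`. -/
noncomputable def dlp (A B : Matrix (Fin 5) (Fin 5) R) (w : Fin 5 → R) : R[X] :=
  dotProduct (fun i => C (w i)) ((mtx A B).adjugate.mulVec fun i => C (w i))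

/-- The value of `dlp`. -/
theorem dlp_aeval {S : Type*} [CommRing S] [Algebra R S] (A B : Matrix (Fin 5) (Fin 5) R)
    (w : Fin 5 → R) (t : S) : aeval t (dlp A B w) = dotProduct (fun i => algebraMap R S (w i))
      (((A + A.transpose).map (algebraMap R S) -
        t • (B + B.transpose).map (algebraMap R S)).adjugate.mulVec
          fun i => algebraMap R S (w i)) := by
  have h1 : ((mtx A B).map (aeval t : R[X] →ₐ[R] S)) = (A + A.transpose).map (algebraMap R S) -
      t • (B + B.transpose).map (algebraMap R S) := by
    ext i j
    simp [mtx, aeval_C]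
  have h2 : ((mtx A B).adjugate).map (aeval t : R[X] →ₐ[R] S) =
      ((A + A.transpose).map (algebraMap R S) -
        t • (B + B.transpose).map (algebraMap R S)).adjugate := by
    rw [← h1]
    exact (AlgHom.map_adjugate (aeval t : R[X] →ₐ[R] S) (mtx A B))
  rw [← h2]
  simp only [dlp, dotProduct, Matrix.mulVec, map_sum, map_mul, aeval_C, Matrix.map_apply]

/-- The value of `chp`. -/
theorem chp_aeval {S : Type*} [CommRing S] [Algebra R S] (A B : Matrix (Fin 5) (Fin 5) R) (t : S) :
    aeval t (chp A B) = ((A + A.transpose).map (algebraMap R S) -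
      t • (B + B.transpose).map (algebraMap R S)).det := by
  have h1 : ((mtx A B).map (aeval t : R[X] →ₐ[R] S)) = (A + A.transpose).map (algebraMap R S) -
      t • (B + B.transpose).map (algebraMap R S) := by
    ext i j
    simp [mtx, aeval_C]
  rw [chp_eq, ← h1]
  exact AlgHom.map_det (aeval t : R[X] →ₐ[R] S) (mtx A B)

end ring

section field

variable {F : Type} [Field F]

/-- The monic multiple of `chp A B`. -/
noncomputable def mf (A B : Matrix (Fin 5) (Fin 5) F) : F[X] :=
  C (chp A B).leadingCoeff⁻¹ * chp A B

/-- `K i`, `θ i`: the fields generated by the zeros of `f`, one for every irreducible factor. -/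
structure Res (f : F[X]) {ι : Type} [Fintype ι] (K : ι → Type) [∀ i, Field (K i)]
    [∀ i, Algebra F (K i)] (θ : ∀ i, K i) : Prop where
  int : ∀ i, IsIntegral F (θ i)
  top : ∀ i, IntermediateField.adjoin F {θ i} = ⊤
  inj : ∀ i j, minpoly F (θ i) = minpoly F (θ j) → i = j
  prod : ∏ i, minpoly F (θ i) = f

/-- Proof: `K i = AdjoinRoot g` for the irreducible monic factors `g` of `f`
(`UniqueFactorizationMonoid.normalizedFactors`, `Polynomial.Separable.squarefree`). -/
theorem exists_res [NumberField F] {f : F[X]} (hf : f.Monic) (hs : f.Separable) :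
    ∃ (ι : Type) (_ : Fintype ι) (K : ι → Type) (_ : ∀ i, Field (K i))
      (_ : ∀ i, NumberField (K i)) (_ : ∀ i, Algebra F (K i)) (θ : ∀ i, K i), Res f K θ := by
  classical
  have hf0 : f ≠ 0 := hf.ne_zero
  have hirr : ∀ g : {g // g ∈ (UniqueFactorizationMonoid.normalizedFactors f).toFinset},
      Irreducible g.1 := fun g =>
    UniqueFactorizationMonoid.irreducible_of_normalized_factor _ (Multiset.mem_toFinset.1 g.2)
  have hmon : ∀ g : {g // g ∈ (UniqueFactorizationMonoid.normalizedFactors f).toFinset},
      g.1.Monic := fun g => by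
    have h1 := UniqueFactorizationMonoid.normalize_normalized_factor _
      (Multiset.mem_toFinset.1 g.2)
    exact (normalize_eq_self_iff_monic (hirr g).ne_zero).1 h1
  have hfact : ∀ g : {g // g ∈ (UniqueFactorizationMonoid.normalizedFactors f).toFinset},
      Fact (Irreducible g.1) := fun g => ⟨hirr g⟩
  have hmin : ∀ g : {g // g ∈ (UniqueFactorizationMonoid.normalizedFactors f).toFinset},
      minpoly F (AdjoinRoot.root g.1) = g.1 := fun g => by
    rw [AdjoinRoot.minpoly_root (hirr g).ne_zero, (hmon g).leadingCoeff, inv_one, map_one, mul_one]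
  refine ⟨{g // g ∈ (UniqueFactorizationMonoid.normalizedFactors f).toFinset}, inferInstance,
    fun g => AdjoinRoot g.1, fun g => inferInstance, fun g => ?_, fun g => inferInstance,
    fun g => AdjoinRoot.root g.1, ?_, ?_, ?_, ?_⟩
  · have : Module.Finite F (AdjoinRoot g.1) := (hmon g).finite_adjoinRoot
    exact NumberField.of_module_finite F (AdjoinRoot g.1)
  · exact fun g => AdjoinRoot.isIntegral_root (hirr g).ne_zero
  · exact fun g => IntermediateField.adjoin_root_eq_top g.1
  · intro g g' h
    rw [hmin, hmin] at h
    exact Subtype.ext h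
  · rw [Finset.prod_congr rfl fun g _ => hmin g]
    rw [Finset.prod_coe_sort _ (fun g : F[X] => g)]
    change (Multiset.map (fun g : F[X] => g)
      (UniqueFactorizationMonoid.normalizedFactors f).toFinset.val).prod = f
    rw [Multiset.toFinset_val, Multiset.dedup_eq_self.2
      ((UniqueFactorizationMonoid.squarefree_iff_nodup_normalizedFactors hf0).1 hs.squarefree),
      Multiset.map_id', UniqueFactorizationMonoid.prod_normalizedFactors_eq hf0,
      hf.normalize_eq_self]

end field

end Dq
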