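import Pool.Agent.Lib.MP_f80667_ag.Dq.DgB

/-! The characteristic polynomial of a smooth pencil is separable. -/

open Polynomial

namespace Dq

open ZC Tq Dp

universe u

section aux

open Matrix Module

/-- A symmetric pencil `S - T H` with `det H ≠ 0` has a separable determinant, if the radical of a
member has dimension at most `1` (`h2`) and is anisotropic (`h1`). Proof: for `K = H⁻¹ S`, a vector
`r = K v - e v` with `K r = e r` has `(r, H r) = (v, (S - e H) r) = 0`, so `r = 0`; so the generalized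
eigenspaces of `K` are the eigenspaces, of dimension at most `1`. -/
theorem sep_aux {E : Type*} [Field E] [IsAlgClosed E] {n : ℕ} {S H : Matrix (Fin n) (Fin n) E}
    (hS : S.transpose = S) (hH : H.transpose = H) (hd : H.det ≠ 0)
    (h1 : ∀ (e : E) (r : Fin n → E), r ≠ 0 → S *ᵥ r = e • (H *ᵥ r) → r ⬝ᵥ (H *ᵥ r) ≠ 0)
    (h2 : ∀ (e : E) (r r' : Fin n → E), LinearIndependent E ![r, r'] →
      S *ᵥ r = e • (H *ᵥ r) → S *ᵥ r' = e • (H *ᵥ r') → False) :
    (S.map C - (X : E[X]) • H.map C).det.Separable := by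
  classical
  have hu : IsUnit H.det := isUnit_iff_ne_zero.2 hd
  obtain ⟨K, hK⟩ : ∃ K, K = H⁻¹ * S := ⟨_, rfl⟩
  have hHK : H * K = S := by rw [hK, ← Matrix.mul_assoc, Matrix.mul_nonsing_inv _ hu, Matrix.one_mul]
  have hinj : ∀ u v : Fin n → E, H *ᵥ u = H *ᵥ v → u = v := by
    intro u v h
    have : H⁻¹ *ᵥ (H *ᵥ u) = H⁻¹ *ᵥ (H *ᵥ v) := by rw [h]
    rwa [mulVec_mulVec, mulVec_mulVec, Matrix.nonsing_inv_mul _ hu, one_mulVec, one_mulVec] at this
  have hKe : ∀ (e : E) (r : Fin n → E), K *ᵥ r = e • r ↔ S *ᵥ r = e • (H *ᵥ r) := by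
    intro e r
    rw [← hHK, ← mulVec_mulVec, ← mulVec_smul]
    exact ⟨fun h => by rw [h], fun h => hinj _ _ h⟩
  -- the key step
  have key : ∀ (e : E) (v : Fin n → E), K *ᵥ (K *ᵥ v - e • v) = e • (K *ᵥ v - e • v) →
      K *ᵥ v - e • v = 0 := by
    intro e v hv
    by_contra h0
    have h3 := (hKe _ _).1 hv
    refine h1 e _ h0 h3 ?_
    obtain ⟨r, hr⟩ : ∃ r, r = K *ᵥ v - e • v := ⟨_, rfl⟩
    rw [← hr] at h3 ⊢
    have e1 : H *ᵥ r = S *ᵥ v - e • (H *ᵥ v) := by
      rw [hr, mulVec_sub, mulVec_mulVec, hHK, mulVec_smul]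
    have sy : ∀ {M : Matrix (Fin n) (Fin n) E}, M.transpose = M → ∀ u w : Fin n → E,
        u ⬝ᵥ (M *ᵥ w) = (M *ᵥ u) ⬝ᵥ w := by
      intro M hM u w
      rw [dotProduct_mulVec, ← mulVec_transpose, hM]
    rw [e1, dotProduct_sub, dotProduct_smul, sy hS, sy hH, h3, smul_dotProduct, sub_self]
  have key2 : ∀ (e : E) (m : ℕ) (v : Fin n → E), ((toLin' K - e • 1) ^ m) v = 0 →
      K *ᵥ v = e • v := by
    intro e m
    induction m with
    | zero =>
      intro v h
      have : v = 0 := by simpa using h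
      rw [this, mulVec_zero, smul_zero]
    | succ m ih =>
      intro v h
      rw [pow_succ] at h
      have h3 := ih _ h
      have h4 : (toLin' K - e • (1 : End E (Fin n → E))) v = K *ᵥ v - e • v := by
        simp
      rw [h4] at h3
      exact sub_eq_zero.1 (key e v h3)
  have hfin : ∀ e : E, finrank E (Module.End.maxGenEigenspace (toLin' K) e) ≤ 1 := by
    intro e
    by_contra h4
    rw [not_le] at h4
    have : Nontrivial (Module.End.maxGenEigenspace (toLin' K) e) :=
      Module.nontrivial_of_finrank_pos (R := E) (lt_trans Nat.zero_lt_one h4)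
    obtain ⟨x, hx⟩ := exists_ne (0 : Module.End.maxGenEigenspace (toLin' K) e)
    obtain ⟨y, hy⟩ := exists_linearIndependent_pair_of_one_lt_finrank h4 hx
    have hxy := hy.map' (Submodule.subtype _) (Submodule.ker_subtype _)
    have e1 : (Submodule.subtype (Module.End.maxGenEigenspace (toLin' K) e)) ∘
        ![x, y] = ![(x : Fin n → E), (y : Fin n → E)] := by
      funext i
      fin_cases i <;> rfl
    rw [e1] at hxy
    have mem : ∀ z : Module.End.maxGenEigenspace (toLin' K) e, S *ᵥ (z : Fin n → E) = e • (H *ᵥ z) := by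
      intro z
      obtain ⟨m, hm⟩ := (Module.End.mem_maxGenEigenspace _ _ _).1 z.2
      exact (hKe _ _).1 (key2 e m _ hm)
    exact h2 e _ _ hxy (mem x) (mem y)
  have hch : K.charpoly.Separable := by
    rw [← nodup_roots_iff_of_splits K.charpoly_monic.ne_zero (IsAlgClosed.splits _),
      Multiset.nodup_iff_count_le_one]
    intro e
    rw [count_roots, ← Matrix.charpoly_toLin', ← LinearMap.finrank_maxGenEigenspace_eq]
    exact hfin e
  have hdet : (S.map C - (X : E[X]) • H.map C).det =
      C (H.det * (-1) ^ n) * K.charpoly := by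
    have e1 : S.map C - (X : E[X]) • H.map C = H.map C * (-(charmatrix K)) := by
      have e2 : S.map (C : E →+* E[X]) = H.map C * K.map C := by rw [← Matrix.map_mul, hHK]
      have e3 : H.map (C : E →+* E[X]) * Matrix.scalar (Fin n) (X : E[X]) = (X : E[X]) • H.map C := by
        ext1 i j
        rw [Matrix.scalar_apply, Matrix.mul_diagonal, Matrix.smul_apply, smul_eq_mul, mul_comm]
      rw [e2, charmatrix, RingHom.mapMatrix_apply, neg_sub, Matrix.mul_sub, e3]
    rw [e1, det_mul, det_neg, Fintype.card_fin, ← RingHom.mapMatrix_apply, ← RingHom.map_det,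
      Matrix.charpoly]
    simp only [map_mul, map_pow, map_neg, map_one]
    ring
  rw [hdet]
  have hc : IsUnit (C (H.det * (-1) ^ n) : E[X]) :=
    (isUnit_iff_ne_zero.2 (mul_ne_zero hd (pow_ne_zero _ (neg_ne_zero.2 one_ne_zero)))).map C
  exact hch.unit_mul hc

end aux

/-- Proof. `det (B + Bᵀ) ≠ 0` by `ND A B 0 1`. Separability: over `Ω` the radical of a member has
dimension at most `1` (`rad_le`), and a vector `r ≠ 0` in it has `qv B r ≠ 0` (otherwise `r` is a
singular point of `X`); now `sep_aux`. -/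
theorem sep_of_sm {k : Type u} [Field k] [CharZero k] {Ω : Type u} [Field Ω] [Algebra k Ω]
    [IsAlgClosed Ω] {A B : Matrix (Fin 5) (Fin 5) k} (hs : Sm Ω A B) (hB : ND A B (0 : k) 1) :
    SepR A B := by
  have hd : (B + B.transpose).det ≠ 0 := by
    have h1 := nd_iff.1 hB
    have h2 : ∀ M : Matrix (Fin 5) (Fin 5) k, M.map (algebraMap k k) = M := fun M => by
      rw [Algebra.algebraMap_self]
      exact Matrix.map_id M
    rwa [h2, h2, zero_smul, one_smul, zero_add] at h1
  have hO : CharZero Ω := charZero_of_injective_algebraMap (algebraMap k Ω).injective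
  refine ⟨isUnit_iff_ne_zero.2 hd, ?_⟩
  rw [← separable_map (algebraMap k Ω), ← chp_map]
  have hm : ∀ M : Matrix (Fin 5) (Fin 5) k, M.map (algebraMap k Ω) + (M.map (algebraMap k Ω)).transpose
      = (M + M.transpose).map (algebraMap k Ω) := fun M => by
    ext i j
    simp
  have hr : ∀ (e : Ω) (r : Fin 5 → Ω),
      Matrix.mulVec ((A + A.transpose).map (algebraMap k Ω)) r =
        e • Matrix.mulVec ((B + B.transpose).map (algebraMap k Ω)) r →
      ∀ y : Fin 5 → Ω, 1 * bv A r y + (-e) * bv B r y = 0 := by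
    intro e r h
    refine Ts.nd_of_mulVec ?_
    rw [Matrix.add_mulVec, Matrix.smul_mulVec, Matrix.smul_mulVec, h, one_smul, neg_smul,
      add_neg_cancel]
  rw [chp, hm, hm]
  refine sep_aux ?_ ?_ ?_ ?_ ?_
  · ext i j
    simp [add_comm]
  · ext i j
    simp [add_comm]
  · rw [← RingHom.mapMatrix_apply, ← RingHom.map_det]
    exact (_root_.map_ne_zero _).2 hd
  · intro e r hr0 h h0
    have h1 := hr e r h
    have b0 : bv B r r = 0 := by
      rw [Ts.nd_bv_dot, dotProduct_comm]
      exact h0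
    have a0 : bv A r r = 0 := by
      have := h1 r
      rw [b0] at this
      linear_combination this
    rw [bv_self] at a0 b0
    exact one_ne_zero (hs r hr0 ((mul_eq_zero.1 a0).resolve_left two_ne_zero)
      ((mul_eq_zero.1 b0).resolve_left two_ne_zero) 1 (-e) h1).1
  · intro e r r' hl h h'
    exact Tq.rad_le hs (AlgHom.id k Ω) (Or.inl one_ne_zero) hl (hr e r h) (hr e r' h')

end Dq
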