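import Pool.Agent.Lib.MP_f80667_ag.Dq.RealQ
import Pool.Agent.Lib.MP_f80667_ag.Dq.Pen
import Pool.Agent.Lib.MP_f80667_ag.Dq.Pad
import Pool.Agent.Lib.MP_f80667_ag.Dq.SepF
import Pool.Agent.Lib.MP_f80667_ag.ZC.Conn

/-! The local data at a real place can be changed such that the polynomial has given values. -/

open Polynomial IntermediateField
open scoped LinearAlgebra.Projectivization

namespace Dq

open ZC Tq Dp

variable {k : Type} [Field k] [CharZero k] {Ω : Type} [Field Ω] [Algebra k Ω]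
  [IsAlgClosure k Ω] {A B : Matrix (Fin 5) (Fin 5) k}

omit [CharZero k] in
private theorem rd_hom : ∀ i, (Pl A B i).IsHomogeneous 2 := by
  have hm : ∀ H : Matrix (Fin 5) (Fin 5) k, (ml H).IsHomogeneous 2 := by
    intro H
    refine MvPolynomial.IsHomogeneous.sum _ _ _ fun i _ =>
      MvPolynomial.IsHomogeneous.sum _ _ _ fun j _ => ?_
    have h1 := ((MvPolynomial.isHomogeneous_C (Fin 5) (H i j)).mul
      ((MvPolynomial.isHomogeneous_X k i).mul (MvPolynomial.isHomogeneous_X k j)))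
    simpa using h1
  intro i
  fin_cases i
  · exact hm A
  · exact hm B

omit [CharZero k] in
private theorem rd_top (h2 : Module.finrank k Ω = 2) {x : Ω} (hx : ∀ y : k, algebraMap k Ω y ≠ x) :
    k⟮x⟯ = ⊤ := by
  have hfd : FiniteDimensional k Ω := Module.finite_of_finrank_pos (by omega)
  have h1 := Module.finrank_mul_finrank k k⟮x⟯ Ω
  rw [h2] at h1
  have h3 : Module.finrank k k⟮x⟯ ∣ 2 := ⟨_, h1.symm⟩
  rcases (Nat.dvd_prime Nat.prime_two).1 h3 with h4 | h4
  · have h5 : k⟮x⟯ = ⊥ := IntermediateField.finrank_eq_one_iff.1 h4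
    have h6 : x ∈ k⟮x⟯ := mem_adjoin_simple_self k x
    rw [h5, IntermediateField.mem_bot] at h6
    obtain ⟨y, hy⟩ := h6
    exact absurd hy (hx y)
  · rw [h4] at h1
    have h6 : Module.finrank k⟮x⟯ Ω = 1 := by omega
    rw [← IntermediateField.finrank_eq_one_iff_eq_top]
    exact h6

omit [CharZero k] in
private theorem rd_closed {K : IntermediateField k Ω} (hK : K = ⊤) : IsAlgClosed K := by
  subst hK
  have : IsAlgClosed Ω := IsAlgClosure.isAlgClosed k
  exact IsAlgClosed.of_ringEquiv Ω _ (IntermediateField.topEquiv (F := k) (E := Ω)).symm.toRingEquiv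

private theorem rd_norm (h2 : Module.finrank k Ω = 2) {K : IntermediateField k Ω}
    [FiniteDimensional k K] (hK : K = ⊤) (y : ℙ K (Fin 5 → K)) (hy : Zer (Pl A B) K y.rep) :
    trPt k Ω y ∈ normCyc Ω (Pl A B) := by
  have hfd : FiniteDimensional k Ω := Module.finite_of_finrank_pos (by omega)
  rw [trPt_top K hK y]
  refine AddSubgroup.subset_closure ⟨mapPt (K.val : K →+* Ω) y, ?_, rfl⟩
  exact (zer_mapPt rd_hom K.val y).2 hy

/-- A line over `Ω` gives a norm. Proof: `k⟮x⟯` has degree `2` over `k`, so it is isomorphic to `Ω`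
(here `Ω` has degree `2` over `k`); over `Ω` the tensor `t` gives two points `x₁`, `x₂` of `X`
(`Ct` or `Tq` lemmas on `Ph` of a tensor over an algebraically closed field), and
`PhL (trPt k Ω t)` is the sum of the norms of `x₁` and `x₂`. -/
theorem norm_atom (h2 : Module.finrank k Ω = 2) {x : Ω} (hx : ∀ y : k, algebraMap k Ω y ≠ x)
    {t : ℙ k⟮x⟯ (Fin (5 * 5) → k⟮x⟯)} (ht : Root A B x t) :
    PhL (trPt k Ω t) ∈ ratEq Ω (Pl A B) ⊔ normCyc Ω (Pl A B) := by
  have hK := rd_top h2 hx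
  have : IsAlgClosed k⟮x⟯ := rd_closed hK
  have : CharZero k⟮x⟯ := charZero_of_injective_algebraMap (algebraMap k k⟮x⟯).injective
  have : IsAlgClosed Ω := IsAlgClosure.isAlgClosed k
  obtain ⟨p, y, hL⟩ := ht.1
  obtain ⟨p', y', hL', hp', -⟩ := hL.exists_np
  obtain ⟨a, b, ha, hb, hs, hza, hzb, hab⟩ := (hL'.isT (Or.inl one_ne_zero) hp').roots
  have h1 := PhL_tr (k := k) (Ω := Ω) ha hb hs (c := 1) (one_smul _ _).symm
  rw [hab, h1]
  refine AddSubgroup.mem_sup_right (add_mem (rd_norm h2 hK _ ?_) (rd_norm h2 hK _ ?_))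
  · exact zer_mk_rep rd_hom ha hza
  · exact zer_mk_rep rd_hom hb hzb

/-- Twice a zero-cycle is a norm. Proof: for `z ∈ cyc` the cycle `2 z` is the sum of the norms of the
points of `z` with their multiplicities (the Galois group has order `2`; see `ZC/Conn.lean`). -/
theorem two_cyc (h2 : Module.finrank k Ω = 2) {z : ℙ Ω (Fin 5 → Ω) →₀ ℤ}
    (hz : z ∈ cyc Ω (Pl A B)) : (2 : ℕ) • z ∈ normCyc Ω (Pl A B) := by
  have hfd : FiniteDimensional k Ω := Module.finite_of_finrank_pos (by omega)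
  refine AddSubgroup.closure_induction
    (p := fun z _ => (2 : ℕ) • z ∈ normCyc Ω (Pl A B)) ?_ ?_ ?_ ?_ (mem_closure_tr rd_hom z hz)
  · rintro t ⟨K, hK, y, hy, rfl⟩
    have h1 := Module.finrank_mul_finrank k K Ω
    rw [h2] at h1
    have h3 : Module.finrank k K ∣ 2 := ⟨_, h1.symm⟩
    rcases (Nat.dvd_prime Nat.prime_two).1 h3 with h4 | h4
    · have h5 : K = ⊥ := IntermediateField.finrank_eq_one_iff.1 h4
      obtain ⟨φ, hφ⟩ := trPt_bot K h5 y
      rw [hφ]
      have h6 := two_mem_norm rd_hom h2 _ ((zer_mapPt rd_hom φ y).2 hy)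
      have h7 : (2 : ℕ) • trPt k Ω (mapPt (φ : K →+* k) y) =
          (2 : ℤ) • trPt k Ω (mapPt (φ : K →+* k) y) := by
        rw [two_nsmul, two_zsmul]
      rw [h7]
      exact h6
    · have h5 : K = ⊤ := by
        rw [h4] at h1
        have h6 : Module.finrank K Ω = 1 := by omega
        rw [← IntermediateField.finrank_eq_one_iff_eq_top]
        exact h6
      exact nsmul_mem (rd_norm h2 h5 y hy) 2
  · rw [smul_zero]
    exact zero_mem _
  · intro a b _ _ ha hb
    rw [smul_add]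
    exact add_mem ha hb
  · intro a _ ha
    rw [smul_neg]
    exact neg_mem ha

/-- There is a line over `k⟮x⟯` for every `x` not in `k`, if the member is nondegenerate. Proof:
`k⟮x⟯ ≅ Ω` is algebraically closed, `plane_closed`, `exists_line`. -/
theorem exists_root_of_two (hs : Sm Ω A B) (h2 : Module.finrank k Ω = 2) {x : Ω}
    (hx : ∀ y : k, algebraMap k Ω y ≠ x) (hc : aeval x (chp A B) ≠ 0) :
    ∃ t, Root A B x t := by
  have hK := rd_top h2 hx
  have : IsAlgClosed k⟮x⟯ := rd_closed hK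
  have : CharZero k⟮x⟯ := charZero_of_injective_algebraMap (algebraMap k k⟮x⟯).injective
  have : IsAlgClosed Ω := IsAlgClosure.isAlgClosed k
  have hnd : ND A B (1 : k⟮x⟯) (-AdjoinSimple.gen k x) := by
    rw [nd_iff]
    intro h0
    apply hc
    have h1 := chp_aeval A B (AdjoinSimple.gen k x)
    have h3 : aeval (AdjoinSimple.gen k x) (chp A B) = 0 := by
      rw [h1, ← h0]
      congr 1
      rw [one_smul, neg_smul, sub_eq_add_neg]
    have h4 := aeval_algHom_apply k⟮x⟯.val (AdjoinSimple.gen k x) (chp A B)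
    rw [h3, map_zero] at h4
    exact h4
  obtain ⟨p, y, h5, h6, h7, h8⟩ := plane_closed (A := A) (B := B) (E := k⟮x⟯) (by norm_num) 1
    (-AdjoinSimple.gen k x)
  obtain ⟨t, ht⟩ := exists_line hs k⟮x⟯.val le_rfl hnd h5 h6 h7 h8
  exact ⟨t, ht, hnd⟩

omit [CharZero k] in
private theorem rd_dat {J : Type} [Fintype J] (x : J → Ω)
    (t : ∀ j, ℙ k⟮x j⟯ (Fin (5 * 5) → k⟮x j⟯))
    (h1 : ∀ i j, minpoly k (x i) = minpoly k (x j) → i = j) (hR : ∀ j, Root A B (x j) (t j)) :
    Dat A B (∏ j, minpoly k (x j)) (∑ j, PhL (trPt k Ω (t j))) := by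
  let e := Fintype.equivFin J
  refine ⟨Fintype.card J, fun i => x (e.symm i), fun i => t (e.symm i), ?_, ?_, ?_, ?_⟩
  · intro i j h
    exact e.symm.injective (h1 _ _ h)
  · exact (e.symm.prod_comp (fun j => minpoly k (x j))).symm
  · exact fun j => hR _
  · rw [e.symm.sum_comp (fun j => PhL (trPt k Ω (t j))), sub_self]
    exact zero_mem _

omit [CharZero k] in
private theorem rd_posQ (e : k ≃+* ℝ) {f ρ P : k[X]} (hf : f.Monic) (hs : f.Separable)
    (hρ : IsCoprime ρ f) (hP : IsCoprime P f)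
    (hsg : ∀ x : k, f.eval x = 0 → 0 < e (ρ.eval x * P.eval x)) {N : ℕ}
    (hN : 2 * f.natDegree + 2 ≤ N) (he : Even N) : ∃ Q : k[X], Q.Monic ∧ Q.natDegree = N ∧
      (∀ x : k, 0 < e (Q.eval x)) ∧ Q.Separable ∧ f ∣ Q * P - ρ := by
  have hev : ∀ (g : k[X]) (x : ℝ), (g.map (e : k →+* ℝ)).eval x = e (g.eval (e.symm x)) := by
    intro g x
    have h1 : (g.map (e : k →+* ℝ)).eval ((e : k →+* ℝ) (e.symm x)) =
        (e : k →+* ℝ) (g.eval (e.symm x)) := by
      rw [eval_map, eval₂_hom]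
    have h2 : (e : k →+* ℝ) (e.symm x) = x := e.apply_symm_apply x
    rw [h2] at h1
    exact h1
  have hev' : ∀ (g : ℝ[X]) (x : k), e ((g.map (e.symm : ℝ →+* k)).eval x) = g.eval (e x) := by
    intro g x
    have h1 : (g.map (e.symm : ℝ →+* k)).eval ((e.symm : ℝ →+* k) (e x)) =
        (e.symm : ℝ →+* k) (g.eval (e x)) := by
      rw [eval_map, eval₂_hom]
    have h2 : (e.symm : ℝ →+* k) (e x) = x := e.symm_apply_apply x
    rw [h2] at h1
    rw [h1]
    exact e.apply_symm_apply _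
  have hmm : ∀ g : k[X], (g.map (e : k →+* ℝ)).map (e.symm : ℝ →+* k) = g := by
    intro g
    rw [Polynomial.map_map]
    have : (e.symm : ℝ →+* k).comp (e : k →+* ℝ) = RingHom.id k := by
      ext x
      exact e.symm_apply_apply x
    rw [this, Polynomial.map_id]
  obtain ⟨Q, h1, h2, h3, h4, h5⟩ := exists_posQ (f := f.map (e : k →+* ℝ))
    (ρ := ρ.map (e : k →+* ℝ)) (P := P.map (e : k →+* ℝ)) (hf.map _) hs.map
    (hρ.map (mapRingHom (e : k →+* ℝ))) (hP.map (mapRingHom (e : k →+* ℝ)))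
    (fun x hx => by
      rw [hev] at hx
      rw [hev, hev, ← map_mul]
      exact hsg _ ((map_eq_zero_iff e e.injective).1 hx)) (N := N)
    (by rw [natDegree_map]; exact hN) he
  refine ⟨Q.map (e.symm : ℝ →+* k), h1.map _, by rw [natDegree_map, h2], fun x => ?_, h4.map, ?_⟩
  · rw [hev']
    exact h3 _
  · have h6 := map_dvd (mapRingHom (e.symm : ℝ →+* k)) h5
    rw [map_sub, map_mul] at h6
    simp only [coe_mapRingHom, hmm] at h6
    exact h6

private theorem rd_fac {Q : k[X]} (hQ : Q.Monic) (hs : Q.Separable) : ∃ (J : Type) (_ : Fintype J)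
    (y : J → Ω), (∀ i j, minpoly k (y i) = minpoly k (y j) → i = j) ∧
      ∏ j, minpoly k (y j) = Q := by
  classical
  have : IsAlgClosed Ω := IsAlgClosure.isAlgClosed k
  have hf0 : Q ≠ 0 := hQ.ne_zero
  have hirr : ∀ g : {g // g ∈ (UniqueFactorizationMonoid.normalizedFactors Q).toFinset},
      Irreducible g.1 := fun g =>
    UniqueFactorizationMonoid.irreducible_of_normalized_factor _ (Multiset.mem_toFinset.1 g.2)
  have hmon : ∀ g : {g // g ∈ (UniqueFactorizationMonoid.normalizedFactors Q).toFinset},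
      g.1.Monic := fun g => by
    have h1 := UniqueFactorizationMonoid.normalize_normalized_factor _
      (Multiset.mem_toFinset.1 g.2)
    exact (normalize_eq_self_iff_monic (hirr g).ne_zero).1 h1
  have hroot : ∀ g : {g // g ∈ (UniqueFactorizationMonoid.normalizedFactors Q).toFinset},
      ∃ y : Ω, aeval y g.1 = 0 := fun g =>
    IsAlgClosed.exists_aeval_eq_zero Ω g.1 (degree_pos_of_irreducible (hirr g)).ne'
  choose y hy using hroot
  have hmin : ∀ g : {g // g ∈ (UniqueFactorizationMonoid.normalizedFactors Q).toFinset},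
      minpoly k (y g) = g.1 := fun g =>
    (minpoly.eq_of_irreducible_of_monic (hirr g) (hy g) (hmon g)).symm
  refine ⟨{g // g ∈ (UniqueFactorizationMonoid.normalizedFactors Q).toFinset}, inferInstance,
    y, ?_, ?_⟩
  · intro g g' h
    rw [hmin, hmin] at h
    exact Subtype.ext h
  · rw [Finset.prod_congr rfl fun g _ => hmin g]
    rw [Finset.prod_coe_sort _ (fun g : k[X] => g)]
    change (Multiset.map (fun g : k[X] => g)
      (UniqueFactorizationMonoid.normalizedFactors Q).toFinset.val).prod = Q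
    rw [Multiset.toFinset_val, Multiset.dedup_eq_self.2
      ((UniqueFactorizationMonoid.squarefree_iff_nodup_normalizedFactors hf0).1 hs.squarefree),
      Multiset.map_id', UniqueFactorizationMonoid.prod_normalizedFactors_eq hf0,
      hQ.normalize_eq_self]

omit [CharZero k] in
private theorem rd_pos (e : k ≃+* ℝ) {g : k[X]} (hm : g.Monic) (hd : 0 < g.natDegree)
    (h0 : ∀ y, g.eval y ≠ 0) (y : k) : 0 < e (g.eval y) := by
  have hev : ∀ (x : ℝ), (g.map (e : k →+* ℝ)).eval x = e (g.eval (e.symm x)) := by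
    intro x
    have h1 : (g.map (e : k →+* ℝ)).eval ((e : k →+* ℝ) (e.symm x)) =
        (e : k →+* ℝ) (g.eval (e.symm x)) := by
      rw [eval_map, eval₂_hom]
    have h2 : (e : k →+* ℝ) (e.symm x) = x := e.apply_symm_apply x
    rw [h2] at h1
    exact h1
  by_contra hcon
  have h1 : ∃ a, (g.map (e : k →+* ℝ)).eval a ≤ 0 := by
    refine ⟨e y, ?_⟩
    rw [hev, e.symm_apply_apply]
    exact not_lt.1 hcon
  have h2 : ∃ b, 0 ≤ (g.map (e : k →+* ℝ)).eval b := by
    have hG : (g.map (e : k →+* ℝ)).Monic := hm.map _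
    have h3 := (g.map (e : k →+* ℝ)).tendsto_atTop_of_leadingCoeff_nonneg
      (by
        rw [← natDegree_pos_iff_degree_pos, natDegree_map]
        exact hd) (by rw [hG.leadingCoeff]; exact zero_le_one)
    exact (h3.eventually_ge_atTop 0).exists
  obtain ⟨c, hc⟩ := mem_range_of_exists_le_of_exists_ge
    (g.map (e : k →+* ℝ)).continuous h1 h2
  have hc' : (g.map (e : k →+* ℝ)).eval c = 0 := hc
  rw [hev] at hc'
  exact h0 _ ((map_eq_zero_iff e e.injective).1 hc')

omit [CharZero k] in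
private theorem rd_chp {x : Ω} {t : ℙ k⟮x⟯ (Fin (5 * 5) → k⟮x⟯)} (h : Root A B x t) :
    aeval x (chp A B) ≠ 0 := by
  have h1 := nd_iff.1 h.2
  intro h0
  apply h1
  have h2 := chp_aeval A B (AdjoinSimple.gen k x)
  have h4 := aeval_algHom_apply k⟮x⟯.val (AdjoinSimple.gen k x) (chp A B)
  have h5 : k⟮x⟯.val (AdjoinSimple.gen k x) = x := rfl
  rw [h5, h0] at h4
  have h6 : aeval (AdjoinSimple.gen k x) (chp A B) = 0 :=
    (map_eq_zero_iff k⟮x⟯.val k⟮x⟯.val.injective).1 h4.symm
  rw [← h6, h2]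
  congr 1
  rw [one_smul, neg_smul, sub_eq_add_neg]

omit [CharZero k] in
private theorem rd_mf0 (h0 : chp A B ≠ 0) : ∃ c : k, c ≠ 0 ∧ mf A B = C c * chp A B ∧
    (mf A B).Monic := by
  have h1 : mf A B = C (chp A B).leadingCoeff⁻¹ * chp A B := by unfold mf; rfl
  generalize mf A B = f at h1 ⊢
  generalize chp A B = q at h0 h1 ⊢
  have hlc : q.leadingCoeff ≠ 0 := leadingCoeff_ne_zero.2 h0
  refine ⟨_, inv_ne_zero hlc, h1, ?_⟩
  rw [h1, Monic, leadingCoeff_mul, leadingCoeff_C]
  exact inv_mul_cancel₀ hlc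

/-- **Change of the datum.** Proof. Let `e : k ≃+* ℝ`. The real zeros `x j ∈ k` of the datum of `R₀`: let
`P` be the product of the `X - x j`; `R₀ = P * R₁` with `R₁` positive on `k` (a product of irreducible
quadratic monic polynomials). `exists_posQ` (transported by `e`) for `mf A B`, `ρ` and `P`, and the degree
`N - deg P`; the sign condition from `hsg` (`P` and `R₀` have the same sign). `R = Q * P`. The datum
of `R`: the `x j` with the old tensors, and one zero `y` of every irreducible factor of `Q` (all of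
degree `2`, different since `Q` is separable), `exists_root_of_two` (`Q` is coprime to `mf A B` since `ρ`
is). The cycles: `norm_atom` for the zeros not in `k` of both data. -/
theorem real_dat (e : k ≃+* ℝ) (hs : Sm Ω A B) (hB : ND A B (0 : k) 1)
    (h2 : Module.finrank k Ω = 2) {R₀ : k[X]}
    {z : ℙ Ω (Fin 5 → Ω) →₀ ℤ} (hD : Dat A B R₀ z) {ρ : k[X]} (hρ : IsCoprime ρ (mf A B))
    (hsg : ∀ x : k, (mf A B).eval x = 0 → 0 < e (ρ.eval x * R₀.eval x)) {N : ℕ}
    (hN : R₀.natDegree + 12 ≤ N) (he : Even (N - R₀.natDegree)) :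
    ∃ (R : k[X]) (z' : ℙ Ω (Fin 5 → Ω) →₀ ℤ), R.natDegree = N ∧ mf A B ∣ R - ρ ∧ Dat A B R z' ∧
      z' - z ∈ ratEq Ω (Pl A B) ⊔ normCyc Ω (Pl A B) := by
  classical
  have hcl : IsAlgClosed Ω := IsAlgClosure.isAlgClosed k
  have hfd : FiniteDimensional k Ω := Module.finite_of_finrank_pos (by omega)
  -- `mf A B`
  obtain ⟨hdB, hsep⟩ := sep_of_sm (Ω := Ω) hs hB
  have hnd5 := chp_natDegree (A := A) hdB.ne_zero
  have hchp0 : chp A B ≠ 0 := by
    intro h0
    rw [h0, natDegree_zero] at hnd5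
    omega
  obtain ⟨c₀, hc₀, hmf, hmon⟩ := rd_mf0 hchp0
  have hdeg : (mf A B).natDegree = 5 := by
    rw [hmf, natDegree_C_mul hc₀, hnd5]
  have hmsep : (mf A B).Separable := by
    rw [hmf]
    exact hsep.unit_mul (isUnit_C.2 (isUnit_iff_ne_zero.2 hc₀))
  have hmfx : ∀ y : Ω, aeval y (mf A B) = algebraMap k Ω c₀ * aeval y (chp A B) := by
    intro y
    rw [hmf, map_mul, aeval_C]
  obtain ⟨m, x, t, hx, hP, hR, hz⟩ := hD
  have hint : ∀ y : Ω, IsIntegral k y := fun y => dat_int y
  let J₁ := {j : Fin m // ∃ y : k, algebraMap k Ω y = x j}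
  let J₂ := {j : Fin m // ¬ ∃ y : k, algebraMap k Ω y = x j}
  set P : k[X] := ∏ j : J₁, minpoly k (x j.1) with hPd
  set R₁ : k[X] := ∏ j : J₂, minpoly k (x j.1) with hR₁
  have hPR : R₀ = P * R₁ := by
    rw [hP, hPd, hR₁]
    exact (Fintype.prod_subtype_mul_prod_subtype (fun j => ∃ y : k, algebraMap k Ω y = x j)
      (fun j => minpoly k (x j))).symm
  have hPm : P.Monic := monic_prod_of_monic _ _ fun j _ => minpoly.monic (hint _)
  have hRm : R₁.Monic := monic_prod_of_monic _ _ fun j _ => minpoly.monic (hint _)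
  have hdR : R₀.natDegree = P.natDegree + R₁.natDegree := by
    rw [hPR, hPm.natDegree_mul hRm]
  have hx2 : ∀ j : J₂, ∀ y : k, algebraMap k Ω y ≠ x j.1 := fun j y hy => j.2 ⟨y, hy⟩
  have hd2 : ∀ j : J₂, (minpoly k (x j.1)).natDegree = 2 := by
    intro j
    rw [← IntermediateField.adjoin.finrank (hint _), rd_top h2 (hx2 j),
      IntermediateField.finrank_top', h2]
  have hRe : Even R₁.natDegree := by
    rw [hR₁, natDegree_prod_of_monic _ _ fun j _ => minpoly.monic (hint _),
      Finset.sum_congr rfl fun j _ => hd2 j, Finset.sum_const, smul_eq_mul]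
    exact even_two.mul_left _
  -- a root in `k` of a minimal polynomial
  have hrk : ∀ (y : Ω) (a : k), (minpoly k y).eval a = 0 → algebraMap k Ω a = y := by
    intro y a ha
    have h3 : (X - C a) ∣ minpoly k y := dvd_iff_isRoot.2 ha
    have h4 := (irreducible_X_sub_C a).dvd_symm (minpoly.irreducible (hint y)) h3
    obtain ⟨q, hq⟩ := h4
    have h5 : aeval y (X - C a) = 0 := by
      rw [hq, map_mul, minpoly.aeval, zero_mul]
    rw [map_sub, aeval_X, aeval_C, sub_eq_zero] at h5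
    exact h5.symm
  have hRpos : ∀ a : k, 0 < e (R₁.eval a) := by
    intro a
    rw [hR₁, eval_prod, map_prod]
    refine Finset.prod_pos fun j _ => ?_
    refine rd_pos e (minpoly.monic (hint _)) (by rw [hd2 j]; norm_num) (fun b hb => ?_) a
    exact hx2 j b (hrk _ _ hb)
  have hPc : IsCoprime P (mf A B) := by
    rw [hPd]
    refine IsCoprime.prod_left fun j _ => ?_
    rw [(minpoly.irreducible (hint _)).coprime_iff_not_dvd]
    rintro ⟨q, hq⟩
    have h3 := hmfx (x j.1)
    rw [hq, map_mul, minpoly.aeval, zero_mul] at h3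
    rcases mul_eq_zero.1 h3.symm with h4 | h4
    · exact hc₀ ((map_eq_zero _).1 h4)
    · exact rd_chp (hR j.1) h4
  -- the positive polynomial
  obtain ⟨Q, hQm, hQd, hQp, hQs, hQf⟩ := rd_posQ e hmon hmsep hρ hPc (fun a ha => by
    have h3 := hsg a ha
    rw [hPR, eval_mul, ← mul_assoc, map_mul] at h3
    exact (pos_iff_pos_of_mul_pos h3).2 (hRpos a)) (N := N - P.natDegree) (by omega) (by
      obtain ⟨c, hc⟩ := he
      obtain ⟨d, hd⟩ := hRe
      exact ⟨c + d, by omega⟩)
  obtain ⟨J', hJ', y, hy1, hy2⟩ := rd_fac (Ω := Ω) hQm hQs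
  have hQy : ∀ j, minpoly k (y j) ∣ Q := fun j => by
    rw [← hy2]
    exact Finset.dvd_prod_of_mem _ (Finset.mem_univ j)
  have hyk : ∀ j, ∀ a : k, algebraMap k Ω a ≠ y j := by
    intro j a ha
    obtain ⟨q, hq⟩ := hQy j
    have h3 := hQp a
    have h4 : (minpoly k (y j)).eval a = 0 := by
      have h5 : aeval (algebraMap k Ω a) (minpoly k (y j)) = 0 := by
        rw [ha]
        exact minpoly.aeval _ _
      rw [aeval_algebraMap_apply, map_eq_zero] at h5
      rw [← coe_aeval_eq_eval]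
      exact h5
    rw [hq, eval_mul, h4, zero_mul, map_zero] at h3
    exact lt_irrefl _ h3
  have hQc : IsCoprime Q (mf A B) := by
    obtain ⟨q, hq⟩ := hQf
    have h3 : IsCoprime (Q * P) (mf A B) := by
      have h4 : Q * P = ρ + mf A B * q := by rw [← hq]; ring
      rw [h4]
      exact IsCoprime.add_mul_left_left hρ q
    exact h3.of_mul_left_left
  have hyc : ∀ j, aeval (y j) (chp A B) ≠ 0 := by
    intro j h0
    obtain ⟨a, b, hab⟩ := hQc
    obtain ⟨q, hq⟩ := hQy j
    have h3 := congrArg (aeval (y j)) hab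
    rw [map_add, map_mul, map_mul, hmfx, h0, mul_zero, mul_zero, add_zero, hq, map_mul,
      minpoly.aeval, zero_mul, mul_zero, map_one] at h3
    exact zero_ne_one h3
  choose s hs' using fun j => exists_root_of_two hs h2 (hyk j) (hyc j)
  let X' : J₁ ⊕ J' → (Σ x : Ω, ℙ k⟮x⟯ (Fin (5 * 5) → k⟮x⟯)) :=
    Sum.elim (fun j => ⟨x j.1, t j.1⟩) (fun j => ⟨y j, s j⟩)
  have hdat := rd_dat (A := A) (B := B) (fun j => (X' j).1) (fun j => (X' j).2) (by
    have hne : ∀ (i : J₁) (j : J'), minpoly k (x i.1) ≠ minpoly k (y j) := by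
      rintro ⟨i, a, ha⟩ j hij
      refine hyk j a (hrk _ _ ?_)
      rw [← hij]
      change (minpoly k (x i)).eval a = 0
      rw [← ha]
      have h5 := minpoly.aeval k (algebraMap k Ω a)
      rw [aeval_algebraMap_apply, map_eq_zero] at h5
      rw [← coe_aeval_eq_eval]
      exact h5
    rintro (i | i) (j | j) hij
    · exact congrArg Sum.inl (Subtype.ext (hx _ _ hij))
    · exact absurd hij (hne i j)
    · exact absurd hij.symm (hne j i)
    · exact congrArg Sum.inr (hy1 _ _ hij)) (by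
    rintro (i | i)
    · exact hR i.1
    · exact hs' i)
  have hprod : ∏ j, minpoly k (X' j).1 = P * Q := by
    rw [Fintype.prod_sum_type, hPd, ← hy2]
    rfl
  rw [hprod] at hdat
  refine ⟨P * Q, _, ?_, ?_, hdat, ?_⟩
  · rw [hPm.natDegree_mul hQm, hQd]
    omega
  · rw [mul_comm]
    exact hQf
  · have h3 : ∑ j, PhL (trPt k Ω (X' j).2) =
        ∑ j : J₁, PhL (trPt k Ω (t j.1)) + ∑ j : J', PhL (trPt k Ω (s j)) := by
      rw [Fintype.sum_sum_type]
      rfl
    have h4 : ∑ j, PhL (trPt k Ω (t j)) =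
        ∑ j : J₁, PhL (trPt k Ω (t j.1)) + ∑ j : J₂, PhL (trPt k Ω (t j.1)) :=
      (Fintype.sum_subtype_add_sum_subtype (fun j => ∃ y : k, algebraMap k Ω y = x j)
        (fun j => PhL (trPt k Ω (t j)))).symm
    have h5 : ∑ j, PhL (trPt k Ω (X' j).2) - z = -(z - ∑ j, PhL (trPt k Ω (t j))) +
        (∑ j : J', PhL (trPt k Ω (s j)) - ∑ j : J₂, PhL (trPt k Ω (t j.1))) := by
      rw [h3, h4]
      abel
    rw [h5]
    refine add_mem (AddSubgroup.mem_sup_left (neg_mem hz)) (sub_mem ?_ ?_)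
    · exact sum_mem fun j _ => norm_atom h2 (hyk j) (hs' j)
    · exact sum_mem fun j _ => norm_atom h2 (hx2 j) (hR j.1)

end Dq
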