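import Mathlib

/-! Positive real polynomials with given values. -/

open Polynomial

namespace Dq

private theorem rq_coprime {f g : ℝ[X]} (h : ∀ z : ℂ, aeval z f = 0 → aeval z g ≠ 0) :
    IsCoprime f g := by
  rw [Polynomial.isCoprime_iff_aeval_ne_zero_of_isAlgClosed ℝ ℂ]
  intro z
  by_contra hcon
  push Not at hcon
  exact h z hcon.1 hcon.2

private theorem rq_not_both {f g : ℝ[X]} (h : IsCoprime f g) (z : ℂ) (hf : aeval z f = 0) :
    aeval z g ≠ 0 := by
  intro hg
  obtain ⟨a, b, hab⟩ := h
  have h1 := congrArg (aeval z) hab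
  rw [map_add, map_mul, map_mul, hf, hg, mul_zero, mul_zero, add_zero, map_one] at h1
  exact zero_ne_one h1

private theorem rq_conj (f : ℝ[X]) (z : ℂ) : aeval ((starRingEnd ℂ) z) f = (starRingEnd ℂ) (aeval z f) :=
  Polynomial.aeval_conj f z

/-- Square roots modulo `f`. Proof: `f` is a product of pairwise coprime irreducible factors `g` of
degree `1` or `2` (`Irreducible.degree_le_two`); for `g = X - a` a real square root of
`ρ.eval a / P.eval a > 0`; for `deg g = 2` the field `ℝ[X] / g` is isomorphic to `ℂ`, every element is a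
square (a complex zero `z` of `g`; `U = s X + t` with `U.eval z` a square root of
`ρ.eval z / P.eval z`). Chinese remainder theorem. -/
theorem exists_sqrt_mod {f ρ P : ℝ[X]} (hf : f.Monic) (hs : f.Separable) (hρ : IsCoprime ρ f)
    (hP : IsCoprime P f) (hsg : ∀ x : ℝ, f.eval x = 0 → 0 < ρ.eval x * P.eval x) :
    ∃ U : ℝ[X], U.degree < f.degree ∧ f ∣ U ^ 2 * P - ρ ∧ IsCoprime U f := by
  classical
  set F : ℂ[X] := f.map (algebraMap ℝ ℂ) with hF
  have hF0 : F ≠ 0 := (hf.map _).ne_zero
  have hFs : F.Separable := hs.map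
  set s : Finset ℂ := F.roots.toFinset with hsdef
  have hmem : ∀ z, z ∈ s ↔ aeval z f = 0 := by
    intro z
    rw [hsdef, Multiset.mem_toFinset, mem_roots hF0, IsRoot.def, hF, eval_map_algebraMap]
  have hcard : s.card = f.natDegree := by
    rw [hsdef, Multiset.toFinset_card_of_nodup (nodup_roots hFs),
      IsAlgClosed.card_roots_eq_natDegree, hF, natDegree_map]
  -- the values
  have hex : ∀ z : ℂ, ∃ w : ℂ, w ^ 2 * aeval z P = aeval z ρ ∨ aeval z P = 0 := by
    intro z
    by_cases h0 : aeval z P = 0
    · exact ⟨0, Or.inr h0⟩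
    · obtain ⟨w, hw⟩ := IsAlgClosed.exists_pow_nat_eq (aeval z ρ / aeval z P) (n := 2) (by norm_num)
      exact ⟨w, Or.inl (by rw [hw, div_mul_cancel₀ _ h0])⟩
  choose q hq using hex
  let r : ℂ → ℂ := fun z => if 0 < z.im then q z else if z.im < 0 then
    (starRingEnd ℂ) (q ((starRingEnd ℂ) z)) else ((Real.sqrt (ρ.eval z.re / P.eval z.re) : ℝ) : ℂ)
  have hrc : ∀ z, (starRingEnd ℂ) (r ((starRingEnd ℂ) z)) = r z := by
    intro z
    rcases lt_trichotomy z.im 0 with h | h | h
    · have h1 : 0 < ((starRingEnd ℂ) z).im := by rw [Complex.conj_im]; linarith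
      simp only [r]
      rw [if_pos h1, if_neg (not_lt.2 h.le), if_pos h]
    · have h1 : ((starRingEnd ℂ) z).im = 0 := by rw [Complex.conj_im, h, neg_zero]
      simp only [r]
      rw [if_neg (by rw [h1]; exact lt_irrefl _), if_neg (by rw [h1]; exact lt_irrefl _),
        if_neg (by rw [h]; exact lt_irrefl _), if_neg (by rw [h]; exact lt_irrefl _),
        Complex.conj_ofReal, Complex.conj_re]
    · have h1 : ((starRingEnd ℂ) z).im < 0 := by rw [Complex.conj_im]; linarith
      simp only [r]
      rw [if_neg (not_lt.2 h1.le), if_pos h1, if_pos h, Complex.conj_conj, Complex.conj_conj]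
  have hrs : ∀ z ∈ s, r z ^ 2 * aeval z P = aeval z ρ := by
    intro z hz
    rw [hmem] at hz
    have hP0 : aeval z P ≠ 0 := rq_not_both hP.symm z hz
    rcases lt_trichotomy z.im 0 with h | h | h
    · simp only [r]
      rw [if_neg (not_lt.2 h.le), if_pos h]
      have hz' : aeval ((starRingEnd ℂ) z) f = 0 := by rw [rq_conj, hz, map_zero]
      have hP' : aeval ((starRingEnd ℂ) z) P ≠ 0 := rq_not_both hP.symm _ hz'
      have h2 := (hq ((starRingEnd ℂ) z)).resolve_right hP'
      have h3 := congrArg (starRingEnd ℂ) h2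
      rw [map_mul, map_pow, ← rq_conj, ← rq_conj, Complex.conj_conj] at h3
      exact h3
    · have hzr : z = ((z.re : ℝ) : ℂ) := by
        apply Complex.ext
        · simp
        · simp [h]
      have hfr : f.eval z.re = 0 := by
        rw [hzr] at hz
        have h1 : aeval ((z.re : ℝ) : ℂ) f = ((f.eval z.re : ℝ) : ℂ) := by
          have := Polynomial.aeval_algebraMap_apply ℂ z.re f
          rw [Polynomial.coe_aeval_eq_eval] at this
          exact this
        rw [h1] at hz
        exact_mod_cast hz
      have hpos := hsg z.re hfr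
      have hev : ∀ g : ℝ[X], aeval z g = ((g.eval z.re : ℝ) : ℂ) := by
        intro g
        conv_lhs => rw [hzr]
        have := Polynomial.aeval_algebraMap_apply ℂ z.re g
        rw [Polynomial.coe_aeval_eq_eval] at this
        exact this
      simp only [r]
      rw [if_neg (by rw [h]; exact lt_irrefl _), if_neg (by rw [h]; exact lt_irrefl _), hev, hev]
      have hPr : P.eval z.re ≠ 0 := by
        intro h0
        rw [h0, mul_zero] at hpos
        exact lt_irrefl _ hpos
      have hdiv : 0 ≤ ρ.eval z.re / P.eval z.re := by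
        rw [div_eq_mul_inv]
        rcases lt_or_gt_of_ne hPr with h5 | h5
        · have h6 : ρ.eval z.re < 0 := by
            by_contra h7
            have := mul_nonpos_of_nonneg_of_nonpos (not_lt.1 h7) h5.le
            linarith
          exact mul_nonneg_of_nonpos_of_nonpos h6.le (inv_nonpos.2 h5.le)
        · have h6 : 0 < ρ.eval z.re := by
            by_contra h7
            have := mul_nonpos_of_nonpos_of_nonneg (not_lt.1 h7) h5.le
            linarith
          exact mul_nonneg h6.le (inv_nonneg.2 h5.le)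
      have h8 : Real.sqrt (ρ.eval z.re / P.eval z.re) ^ 2 * P.eval z.re = ρ.eval z.re := by
        rw [Real.sq_sqrt hdiv, div_mul_cancel₀ _ hPr]
      exact_mod_cast h8
    · simp only [r]
      rw [if_pos h]
      exact (hq z).resolve_right hP0
  -- the interpolation polynomial
  set V : ℂ[X] := Lagrange.interpolate s id r with hV
  have hinj : Set.InjOn (id : ℂ → ℂ) s := Function.injective_id.injOn
  have hVdeg : V.degree < s.card := Lagrange.degree_interpolate_lt r hinj
  have hVev : ∀ z ∈ s, V.eval z = r z := fun z hz =>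
    Lagrange.eval_interpolate_at_node r hinj hz
  have hVc : V.map (starRingEnd ℂ) = V := by
    refine Polynomial.eq_of_degrees_lt_of_eval_finset_eq s ?_ hVdeg fun z hz => ?_
    · rw [degree_map]
      exact hVdeg
    · have hz' : (starRingEnd ℂ) z ∈ s := by
        rw [hmem] at hz ⊢
        rw [rq_conj, hz, map_zero]
      have h1 : (V.map (starRingEnd ℂ)).eval z = (starRingEnd ℂ) (V.eval ((starRingEnd ℂ) z)) := by
        have := Polynomial.eval_map_apply (p := V) (starRingEnd ℂ) ((starRingEnd ℂ) z)
        rw [Complex.conj_conj] at this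
        exact this
      rw [h1, hVev _ hz', hVev _ hz, hrc]
  have hlift : V ∈ Polynomial.lifts (algebraMap ℝ ℂ) := by
    rw [Polynomial.lifts_iff_coeff_lifts]
    intro n
    have h1 : (starRingEnd ℂ) (V.coeff n) = V.coeff n := by
      have := congrArg (fun W : ℂ[X] => W.coeff n) hVc
      simp only [coeff_map] at this
      exact this
    obtain ⟨x, hx⟩ := Complex.conj_eq_iff_real.1 h1
    exact ⟨x, hx.symm⟩
  obtain ⟨U, hU⟩ := Polynomial.mem_lifts V |>.1 hlift
  have hUev : ∀ z ∈ s, aeval z U = r z := by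
    intro z hz
    rw [← hVev z hz, ← hU, eval_map_algebraMap]
  have hdvd : f ∣ U ^ 2 * P - ρ := by
    rw [← Polynomial.map_dvd_map' (algebraMap ℝ ℂ)]
    have h1 : F = ∏ z ∈ s, (X - C z) := by
      have h2 := Polynomial.prod_multiset_X_sub_C_of_monic_of_roots_card_eq (hf.map (algebraMap ℝ ℂ))
        IsAlgClosed.card_roots_eq_natDegree
      rw [← hF] at h2
      rw [hsdef]
      change F = (Multiset.map (fun z => X - C z) F.roots.toFinset.val).prod
      rw [Multiset.toFinset_val, (nodup_roots hFs).dedup, h2]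
    rw [← hF, h1]
    refine Finset.prod_dvd_of_coprime ?_ fun z hz => ?_
    · intro z _ z' _ hzz
      exact (Polynomial.pairwise_coprime_X_sub_C Function.injective_id) hzz
    · rw [Polynomial.dvd_iff_isRoot, IsRoot.def, eval_map_algebraMap, map_sub, map_mul, map_pow,
        hUev z hz, hrs z hz, sub_self]
  refine ⟨U, ?_, hdvd, ?_⟩
  · have h1 : U.degree = V.degree := by rw [← hU, degree_map]
    rw [h1, Polynomial.degree_eq_natDegree hf.ne_zero, ← hcard]
    exact hVdeg
  · obtain ⟨h, hh⟩ := hdvd
    have h1 : ρ = U ^ 2 * P + f * (-h) := by linear_combination -hh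
    rw [h1] at hρ
    have h2 : IsCoprime (U ^ 2 * P) f := IsCoprime.of_add_mul_left_left hρ
    exact (IsCoprime.of_mul_left_left h2).of_isCoprime_of_dvd_left (dvd_pow_self U two_ne_zero)

/-- A member of the pencil `G + c f ^ 2` is separable for all but finitely many `c`. Proof: a common
zero `x` (in an algebraic closure) of `G + c f ^ 2` and its derivative `G' + 2 c f f'` is not a zero of
`f` (else of `G`), and `V = f G' - 2 f' G` vanishes at `x`; `V ≠ 0` (its coefficient of degree
`deg G + deg f - 1` is `(deg G - 2 deg f) * leadingCoeff`), and `c = - G x / (f x) ^ 2`. -/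
theorem separable_pencil {f G : ℝ[X]} (hf : f.Monic) (hG : G.Monic)
    (hd : 2 * f.natDegree < G.natDegree) (hc : IsCoprime G f) :
    {c : ℝ | ¬ (G + C c * f ^ 2).Separable}.Finite := by
  set V : ℝ[X] := f * derivative G - 2 * derivative f * G with hV
  have hV0 : V ≠ 0 := by
    intro h0
    have hGd : 1 ≤ G.natDegree := by omega
    have h1 : (f * derivative G).coeff (f.natDegree + (G.natDegree - 1)) = G.natDegree := by
      have h2 : (derivative G).natDegree ≤ G.natDegree - 1 := natDegree_derivative_le G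
      rw [coeff_mul_add_eq_of_natDegree_le le_rfl h2, hf.coeff_natDegree, one_mul, coeff_derivative,
        Nat.sub_add_cancel hGd, hG.coeff_natDegree, one_mul, Nat.cast_sub hGd]
      push_cast
      ring
    have h3 : (2 * derivative f * G).coeff (f.natDegree + (G.natDegree - 1)) = 2 * f.natDegree := by
      rcases Nat.eq_zero_or_pos f.natDegree with h4 | h4
      · have h5 : derivative f = 0 := by
          rw [hf.natDegree_eq_zero.1 h4, derivative_one]
        rw [h5, mul_zero, zero_mul, coeff_zero, h4, Nat.cast_zero, mul_zero]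
      · have h6 : (2 * derivative f : ℝ[X]).natDegree ≤ f.natDegree - 1 := by
          refine (natDegree_mul_le).trans ?_
          have h7 : (2 : ℝ[X]).natDegree = 0 := natDegree_ofNat 2
          rw [h7, zero_add]
          exact natDegree_derivative_le f
        have h8 : f.natDegree + (G.natDegree - 1) = (f.natDegree - 1) + G.natDegree := by omega
        rw [h8, coeff_mul_add_eq_of_natDegree_le h6 le_rfl, hG.coeff_natDegree, mul_one]
        have h9 : (2 * derivative f : ℝ[X]) = C 2 * derivative f := by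
          rw [← C_ofNat]
        rw [h9, coeff_C_mul, coeff_derivative, Nat.sub_add_cancel h4, hf.coeff_natDegree, one_mul,
          Nat.cast_sub h4]
        push_cast
        ring
    have h10 := congrArg (fun W : ℝ[X] => W.coeff (f.natDegree + (G.natDegree - 1))) h0
    simp only [hV, coeff_sub, coeff_zero] at h10
    rw [h1, h3] at h10
    have h11 : (G.natDegree : ℝ) = 2 * f.natDegree := by linarith
    have h12 : G.natDegree = 2 * f.natDegree := by exact_mod_cast h11
    omega
  -- the bad values
  have hfin : (V.rootSet ℂ).Finite := V.rootSet_finite ℂ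
  have himg := hfin.image fun z : ℂ => -(aeval z G) / (aeval z f) ^ 2
  refine (himg.preimage (f := ((↑) : ℝ → ℂ)) Complex.ofReal_injective.injOn).subset ?_
  intro c hcs
  rw [Set.mem_ofPred_eq, Polynomial.separable_def] at hcs
  rw [Set.mem_preimage, Set.mem_image]
  obtain ⟨z, hz1, hz2⟩ : ∃ z : ℂ, aeval z (G + C c * f ^ 2) = 0 ∧
      aeval z (derivative (G + C c * f ^ 2)) = 0 := by
    by_contra hcon
    push Not at hcon
    exact hcs (rq_coprime hcon)
  have hz3 : aeval z G + (c : ℂ) * aeval z f ^ 2 = 0 := by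
    rw [map_add, map_mul, map_pow, aeval_C] at hz1
    exact hz1
  have hz4 : aeval z (derivative G) + (c : ℂ) * (2 * aeval z f * aeval z (derivative f)) = 0 := by
    rw [derivative_add, derivative_C_mul, derivative_pow, map_add, map_mul, aeval_C, map_mul,
      map_mul, map_pow] at hz2
    simp only [Nat.cast_ofNat, Nat.add_one_sub_one, pow_one, map_ofNat] at hz2
    exact hz2
  have hfz : aeval z f ≠ 0 := by
    intro h0
    rw [h0] at hz3
    have hG0 : aeval z G = 0 := by
      rw [← hz3]; ring
    exact rq_not_both hc z hG0 h0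
  refine ⟨z, ?_, ?_⟩
  · rw [mem_rootSet]
    refine ⟨hV0, ?_⟩
    rw [hV, map_sub, map_mul, map_mul, map_mul, map_ofNat]
    linear_combination (aeval z f) * hz4 - 2 * (aeval z (derivative f)) * hz3
  · have hfz2 : aeval z f ^ 2 ≠ 0 := pow_ne_zero 2 hfz
    rw [div_eq_iff hfz2]
    linear_combination -hz3

/-- **Positive polynomials.** Proof. `U` from `exists_sqrt_mod`, `2 k = N - 2 deg f ≥ 2`,
`Q = U ^ 2 + f ^ 2 * (X ^ (2 * k) + C c)` with `c > 0` such that `Q` is separable
(`separable_pencil` for `G = U ^ 2 + f ^ 2 * X ^ (2 * k)`). -/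
theorem exists_posQ {f ρ P : ℝ[X]} (hf : f.Monic) (hs : f.Separable) (hρ : IsCoprime ρ f)
    (hP : IsCoprime P f) (hsg : ∀ x : ℝ, f.eval x = 0 → 0 < ρ.eval x * P.eval x) {N : ℕ}
    (hN : 2 * f.natDegree + 2 ≤ N) (he : Even N) : ∃ Q : ℝ[X], Q.Monic ∧ Q.natDegree = N ∧
      (∀ x : ℝ, 0 < Q.eval x) ∧ Q.Separable ∧ f ∣ Q * P - ρ := by
  obtain ⟨U, hUd, hUdvd, hUc⟩ := exists_sqrt_mod hf hs hρ hP hsg
  obtain ⟨k', hk'⟩ := he
  obtain ⟨k, hk⟩ : ∃ k, N = 2 * f.natDegree + 2 * k := ⟨k' - f.natDegree, by omega⟩
  have hk1 : 1 ≤ k := by omega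
  -- the leading part
  have hM : ((X : ℝ[X]) ^ (2 * k) * f ^ 2).Monic := (monic_X_pow _).mul (hf.pow 2)
  have hMd : ((X : ℝ[X]) ^ (2 * k) * f ^ 2).natDegree = N := by
    rw [(monic_X_pow (2 * k)).natDegree_mul (hf.pow 2), natDegree_X_pow, hf.natDegree_pow, hk]
    ring
  have hdegM : ((X : ℝ[X]) ^ (2 * k) * f ^ 2).degree = N := by
    rw [degree_eq_natDegree hM.ne_zero, hMd]
  have hU2 : (U ^ 2).degree < (N : WithBot ℕ) := by
    rcases eq_or_ne U 0 with h0 | h0
    · rw [h0, zero_pow two_ne_zero, degree_zero]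
      exact WithBot.bot_lt_coe _
    · rw [degree_eq_natDegree (pow_ne_zero 2 h0), natDegree_pow]
      rw [degree_eq_natDegree h0, degree_eq_natDegree hf.ne_zero] at hUd
      have h1 : U.natDegree < f.natDegree := by exact_mod_cast hUd
      have h2 : 2 * U.natDegree < N := by omega
      exact_mod_cast h2
  set G : ℝ[X] := X ^ (2 * k) * f ^ 2 + U ^ 2 with hG
  have hGm : G.Monic := hM.add_of_left (by rw [hdegM]; exact hU2)
  have hGd : G.degree = N := by
    rw [hG, degree_add_eq_left_of_degree_lt (by rw [hdegM]; exact hU2), hdegM]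
  have hGn : G.natDegree = N := natDegree_eq_of_degree_eq_some hGd
  have hGc : IsCoprime G f := by
    have h1 : G = U ^ 2 + f * (X ^ (2 * k) * f) := by rw [hG]; ring
    rw [h1]
    exact IsCoprime.add_mul_left_left (hUc.pow_left) _
  have hbad := separable_pencil hf hGm (by rw [hGn]; omega) hGc
  obtain ⟨c, hc0, hcs⟩ : ∃ c : ℝ, 0 < c ∧ (G + C c * f ^ 2).Separable := by
    by_contra hcon
    push Not at hcon
    exact (Set.Ioi_infinite (0 : ℝ)) (hbad.subset fun c hc => hcon c hc)
  have hcd : (C c * f ^ 2).degree < (N : WithBot ℕ) := by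
    rw [degree_C_mul hc0.ne', degree_eq_natDegree (hf.pow 2).ne_zero, hf.natDegree_pow]
    have h2 : 2 * f.natDegree < N := by omega
    exact_mod_cast h2
  refine ⟨G + C c * f ^ 2, hGm.add_of_left (by rw [hGd]; exact hcd), ?_, ?_, hcs, ?_⟩
  · apply natDegree_eq_of_degree_eq_some
    rw [degree_add_eq_left_of_degree_lt (by rw [hGd]; exact hcd), hGd]
  · intro x
    rw [hG, eval_add, eval_add, eval_mul, eval_mul, eval_pow, eval_pow, eval_pow, eval_X, eval_C]
    have h1 : 0 ≤ x ^ (2 * k) := by
      rw [pow_mul]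
      positivity
    by_cases hfx : f.eval x = 0
    · have hUx : U.eval x ≠ 0 := by
        intro h0
        obtain ⟨a, b, hab⟩ := hUc
        have h2 := congrArg (fun W : ℝ[X] => W.eval x) hab
        simp only [eval_add, eval_mul, eval_one, h0, hfx, mul_zero, add_zero] at h2
        exact zero_ne_one h2
      rw [hfx]
      have : 0 < U.eval x ^ 2 := by positivity
      nlinarith
    · have h2 : 0 < f.eval x ^ 2 := by positivity
      have h3 : 0 ≤ x ^ (2 * k) * f.eval x ^ 2 := by positivity
      have h4 : 0 < c * f.eval x ^ 2 := by positivity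
      have h5 : 0 ≤ U.eval x ^ 2 := by positivity
      linarith
  · have h1 : (G + C c * f ^ 2) * P - ρ = (U ^ 2 * P - ρ) + f * ((X ^ (2 * k) * f + C c * f) * P) := by
      rw [hG]; ring
    rw [h1]
    exact dvd_add hUdvd (dvd_mul_right _ _)

end Dq
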