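import Pool.Agent.Lib.MP_f80667_ag.Dq.Dbl
import Pool.Agent.Lib.MP_f80667_ag.Dp.Pad

/-! The group of cycles of degree `0` modulo rational equivalence has finite exponent. -/

open Polynomial IntermediateField
open scoped LinearAlgebra.Projectivization

namespace Dq

open ZC Tq Dp

universe u

section alg

private theorem RepM0_fac {M : Type*} [Field M] (p : M[X]) (hp : p ≠ 0) (h : 0 < p.natDegree) :
    ∃ q : M[X], Irreducible q ∧ q ∣ p := by
  refine WfDvdMonoid.exists_irreducible_factor ?_ hp
  intro hu
  rw [natDegree_eq_zero_of_isUnit hu] at h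
  exact absurd h (lt_irrefl 0)

/-- Two finite extensions have a common extension whose degree over the first is at most the degree
of the second. -/
theorem RepM0_common (k : Type u) [Field k] [CharZero k] (M K₁ : Type u) [Field M] [Field K₁]
    [Algebra k M] [Algebra k K₁] [FiniteDimensional k M] [FiniteDimensional k K₁] :
    ∃ (L : Type u) (_ : Field L) (_ : Algebra k L) (_ : Algebra M L) (_ : Algebra K₁ L)
      (_ : IsScalarTower k M L) (_ : IsScalarTower k K₁ L) (_ : FiniteDimensional k L),
      0 < Module.finrank M L ∧ Module.finrank M L ≤ Module.finrank k K₁ := by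
  let pb : PowerBasis k K₁ := Field.powerBasisOfFiniteOfSeparable k K₁
  have hd : (minpoly k pb.gen).natDegree = Module.finrank k K₁ := by
    rw [pb.natDegree_minpoly, pb.finrank]
  have hd' : ((minpoly k pb.gen).map (algebraMap k M)).natDegree = Module.finrank k K₁ := by
    rw [natDegree_map, hd]
  have hne : (minpoly k pb.gen).map (algebraMap k M) ≠ 0 :=
    Polynomial.map_ne_zero (minpoly.ne_zero (pb.isIntegral_gen))
  obtain ⟨q, hq, hqp⟩ := RepM0_fac _ hne (by rw [hd']; exact Module.finrank_pos)
  have : Fact (Irreducible q) := ⟨hq⟩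
  have hroot : aeval (AdjoinRoot.root q) (minpoly k pb.gen) = 0 := by
    have h1 : aeval (AdjoinRoot.root q) ((minpoly k pb.gen).map (algebraMap k M)) = 0 := by
      obtain ⟨r, hr⟩ := hqp
      rw [hr, map_mul, AdjoinRoot.aeval_eq, AdjoinRoot.mk_self, zero_mul]
    rwa [aeval_map_algebraMap] at h1
  let φ : K₁ →ₐ[k] AdjoinRoot q := pb.lift (AdjoinRoot.root q) hroot
  let : Algebra K₁ (AdjoinRoot q) := φ.toRingHom.toAlgebra
  have : IsScalarTower k K₁ (AdjoinRoot q) := IsScalarTower.of_algebraMap_eq fun x =>
    (φ.commutes x).symm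
  have : FiniteDimensional M (AdjoinRoot q) := (AdjoinRoot.powerBasis hq.ne_zero).finite
  refine ⟨AdjoinRoot q, inferInstance, inferInstance, inferInstance, inferInstance, inferInstance,
    inferInstance, Module.Finite.trans M (AdjoinRoot q), Module.finrank_pos, ?_⟩
  rw [(AdjoinRoot.powerBasis hq.ne_zero).finrank, AdjoinRoot.powerBasis_dim, ← hd']
  exact natDegree_le_of_dvd hqp hne

variable {k : Type u} [Field k] [CharZero k] {Ω : Type u} [Field Ω] [Algebra k Ω]
  [IsAlgClosure k Ω] {n : ℕ} {A B : Matrix (Fin n) (Fin n) k}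

/-- The trace of a point over a larger field. -/
private theorem RepM0_ext {M L : Type u} [Field M] [Field L] [Algebra k M] [Algebra k L]
    [Algebra M L] [IsScalarTower k M L] [FiniteDimensional k M] [FiniteDimensional k L]
    {P : Fin n → M} (hP : P ≠ 0) (hX : Zer (Pl A B) M P) :
    ∃ h : (fun i => algebraMap M L (P i)) ≠ 0, Zer (Pl A B) L (fun i => algebraMap M L (P i)) ∧
      trPt k Ω (Projectivization.mk L (fun i => algebraMap M L (P i)) h) =
        (Module.finrank M L : ℤ) • trPt k Ω (Projectivization.mk M P hP) := by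
  have hcl : IsAlgClosed Ω := IsAlgClosure.isAlgClosed k
  refine ⟨comp_ne (algebraMap M L) hP, ?_, ?_⟩
  · have h1 := (zer_comp (IsScalarTower.toAlgHom k M L) P).2 hX
    exact h1
  · rw [← mapPt_mk (algebraMap M L) P hP, trPt_tower, natCast_zsmul]

/-- The equations are homogeneous. -/
private theorem RepM0_hom : ∀ i, (Pl A B i).IsHomogeneous 2 := by
  have hm : ∀ H : Matrix (Fin n) (Fin n) k, (ml H).IsHomogeneous 2 := by
    intro H
    refine MvPolynomial.IsHomogeneous.sum _ _ _ fun i _ =>
      MvPolynomial.IsHomogeneous.sum _ _ _ fun j _ => ?_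
    have h1 := ((MvPolynomial.isHomogeneous_C (Fin n) (H i j)).mul
      ((MvPolynomial.isHomogeneous_X k i).mul (MvPolynomial.isHomogeneous_X k j)))
    simpa using h1
  intro i
  fin_cases i
  · exact hm A
  · exact hm B

/-- There is a point over a finite extension. -/
theorem RepM0_pt (hn : 4 ≤ n) : ∃ (K : IntermediateField k Ω) (_ : FiniteDimensional k K)
    (R : ℙ K (Fin n → K)), Zer (Pl A B) K R.rep := by
  have hcl : IsAlgClosed Ω := IsAlgClosure.isAlgClosed k
  have hc : CharZero Ω := charZero_of_injective_algebraMap (algebraMap k Ω).injective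
  obtain ⟨p, x, hpx, h1, h2, h3⟩ := plane_closed (A := A) (B := B) hn (1 : Ω) 0
  obtain ⟨s, t, hst, h0⟩ := exists_zero_two (qv B p) (bv B p x) (qv B x)
  have hv : s • p + t • x ≠ 0 := by
    intro h5
    rw [LinearIndependent.pair_iff] at hpx
    have h6 := hpx s t h5
    rcases hst with h7 | h7
    · exact h7 h6.1
    · exact h7 h6.2
  have hA : qv A (s • p + t • x) = 0 := by
    have e := mQ_lin (A := A) (B := B) (1 : Ω) 0 s t p x
    rw [h1, h2, h3, mQ] at e
    linear_combination e
  have hB : qv B (s • p + t • x) = 0 := by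
    rw [qv_lin, h0]
  have hZ : Zer (Pl A B) Ω (s • p + t • x) := (zer_iff A B).2 ⟨hA, hB⟩
  obtain ⟨K, hK, y, hy, -⟩ := exists_min_field (k := k) (Projectivization.mk Ω _ hv)
  refine ⟨K, hK, y, ?_⟩
  rw [← zer_mapPt RepM0_hom K.val, hy]
  exact zer_mk_rep RepM0_hom hv hZ

/-- Two points of different degrees. -/
theorem RepM0_two (hs : Sm Ω A B) (hn : 5 ≤ n) {M K : Type u} [Field M] [Algebra k M]
    [FiniteDimensional k M] [Field K] [Algebra k K] [FiniteDimensional k K] {P : Fin n → M}
    (hP : P ≠ 0) (zP : Zer (Pl A B) M P) {R : Fin n → K} (hR : R ≠ 0) (zR : Zer (Pl A B) K R) :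
    ((2 * (Module.finrank k K).factorial : ℕ) : ℤ) • trPt k Ω (Projectivization.mk M P hP) -
      ((2 * (Module.finrank k K - 1).factorial * Module.finrank k M : ℕ) : ℤ) •
        trPt k Ω (Projectivization.mk K R hR) ∈ ratEq Ω (Pl A B) := by
  have hcl : IsAlgClosed Ω := IsAlgClosure.isAlgClosed k
  obtain ⟨L, i1, i2, i3, i4, i5, i6, i7, hpos, hle⟩ := RepM0_common k M K
  obtain ⟨hPL, hXL, htP⟩ := RepM0_ext (Ω := Ω) (L := L) hP zP
  obtain ⟨hRL, hXL', htR⟩ := RepM0_ext (Ω := Ω) (L := L) hR zR
  have e1 : Module.finrank k M * Module.finrank M L =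
      Module.finrank k K * Module.finrank K L := by
    rw [Module.finrank_mul_finrank k M L, Module.finrank_mul_finrank k K L]
  have h1 := dbl (k := k) (Ω := Ω) hs hn hPL hRL hXL hXL'
  rw [htP, htR] at h1
  have hd : 0 < Module.finrank k K := Module.finrank_pos
  have hfac : Module.finrank k K * (Module.finrank k K - 1).factorial =
      (Module.finrank k K).factorial := Nat.mul_factorial_pred hd.ne'
  obtain ⟨e', he'⟩ : Module.finrank M L ∣ (Module.finrank k K).factorial :=
    Nat.dvd_factorial hpos hle
  generalize trPt k Ω (Projectivization.mk M P hP) = x at h1 ⊢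
  generalize trPt k Ω (Projectivization.mk K R hR) = y at h1 ⊢
  generalize Module.finrank k K = d at *
  generalize Module.finrank M L = c at *
  generalize Module.finrank K L = c' at *
  generalize Module.finrank k M = m at *
  have e2 : c' * e' = (d - 1).factorial * m := by
    apply Nat.eq_of_mul_eq_mul_left hd
    calc d * (c' * e') = (d * c') * e' := by ring
      _ = m * (c * e') := by rw [← e1]; ring
      _ = d * ((d - 1).factorial * m) := by rw [← he', ← hfac]; ring
  have h2 := zsmul_mem h1 (e' : ℤ)
  have e3 : (e' : ℤ) • ((2 : ℤ) • (c : ℤ) • x - (2 : ℤ) • (c' : ℤ) • y) =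
      ((2 * d.factorial : ℕ) : ℤ) • x - ((2 * (d - 1).factorial * m : ℕ) : ℤ) • y := by
    have e4 : 2 * (d - 1).factorial * m = 2 * (c' * e') := by rw [e2]; ring
    rw [e4, he']
    push_cast
    module
  rwa [e3] at h2

/-- **`F^1` has finite exponent.** Proof. `X` has a point over `Ω` (`plane_closed` gives a plane on the
member `(1, 0)`, and `B` has a zero on it: `Tq.exists_zero_two`; or `Ts`/`Tq` lemmas), so a point `R`
over a finite extension `L` of `k` (the field generated by the coordinates of a representative with one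
coordinate `1`). Let `d = [L : k]`, `e = 2 * d!`. Claim: for `M / k` finite and a point `P` of `X` over
`M`: `e • trPt P - (2 * (d - 1)! * [M : k]) • trPt R ∈ ratEq`. Proof of the claim: there is an extension
`N` of `M` which contains a copy of `L` (over `k`) with `c = [N : M] ≤ d` (`L = k⟮α⟯` by the primitive
element theorem, `N = AdjoinRoot` of an irreducible factor over `M` of the minimal polynomial of `α`;
compare `common_odd` in `Tq/EndD.lean`); `dbl` over `N` for the points `P`, `R`, and `trPt_tower`
(see `genr_ext` in `Dp/Genr.lean`): `2 c trPt P - 2 [N : L] trPt R ∈ ratEq`; multiply by `d! / c` and use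
`[N : L] d = c [M : k]`. Now let `z ∈ cyc0`. By `ZC.mem_closure_tr` (`genr_hom` in `Dp/Genr.lean`) `z` is
a combination of traces of points, so by the claim `e • z` is modulo `ratEq` a multiple
`(2 * (d - 1)! * deg z) • trPt R = 0` (closure induction for the statement: `z ∈ cyc` implies
`e • z - (2 * (d - 1)! * deg z) • trPt R ∈ ratEq`). -/
theorem exists_exp (hs : Sm Ω A B) (hn : 5 ≤ n) :
    ∃ e : ℕ, 0 < e ∧ ∀ z ∈ cyc0 Ω (Pl A B), e • z ∈ ratEq Ω (Pl A B) := by
  have hcl : IsAlgClosed Ω := IsAlgClosure.isAlgClosed k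
  obtain ⟨K, hK, R, hR⟩ := RepM0_pt (k := k) (Ω := Ω) (A := A) (B := B) (by omega)
  refine ⟨2 * (Module.finrank k K).factorial,
    Nat.mul_pos Nat.two_pos (Nat.factorial_pos _), fun z hz => ?_⟩
  obtain ⟨hzc, hz0⟩ := AddSubgroup.mem_inf.1 hz
  rw [AddMonoidHom.mem_ker] at hz0
  have key : ∀ w ∈ cyc Ω (Pl A B), ((2 * (Module.finrank k K).factorial : ℕ) : ℤ) • w -
      (((2 * (Module.finrank k K - 1).factorial : ℕ) : ℤ) * deg Ω w) • trPt k Ω R ∈
        ratEq Ω (Pl A B) := by
    intro w hw
    refine AddSubgroup.closure_induction (p := fun w _ =>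
      ((2 * (Module.finrank k K).factorial : ℕ) : ℤ) • w -
      (((2 * (Module.finrank k K - 1).factorial : ℕ) : ℤ) * deg Ω w) • trPt k Ω R ∈
        ratEq Ω (Pl A B)) ?_ ?_ ?_ ?_ (mem_closure_tr RepM0_hom w hw)
    · rintro t ⟨M, hM, y, hy, rfl⟩
      have h1 := RepM0_two (k := k) (Ω := Ω) hs hn y.rep_nonzero hy R.rep_nonzero hR
      rw [Projectivization.mk_rep, Projectivization.mk_rep] at h1
      rw [deg_trPt]
      convert h1 using 3
      push_cast
      ring
    · rw [map_zero, mul_zero, zero_smul, smul_zero, sub_zero]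
      exact zero_mem _
    · intro a b _ _ h1 h2
      have h3 := add_mem h1 h2
      rw [map_add]
      convert h3 using 1
      module
    · intro a _ h1
      have h3 := neg_mem h1
      rw [map_neg]
      convert h3 using 1
      module
  have h1 := key z hzc
  rw [hz0, mul_zero, zero_smul, sub_zero, natCast_zsmul] at h1
  exact h1

end alg

end Dq
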