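import Pool.Agent.Lib.MP_f80667_ag.Dq.Nu
import Pool.Agent.Lib.MP_f80667_ag.Dq.Dbl
import Pool.Agent.Lib.MP_f80667_ag.Dq.RepM0

/-! Every zero-cycle of degree `0` is, up to a large multiple of a given sum of atoms, a datum. -/

open Polynomial IntermediateField
open scoped LinearAlgebra.Projectivization

namespace Dq

open ZC Tq Dp

universe u

variable {k : Type u} [Field k] [CharZero k] {Ω : Type u} [NormedField Ω] [Algebra k Ω]
  [IsAlgClosure k Ω] {n : ℕ} {A B : Matrix (Fin n) (Fin n) k}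

/-- The cycle of a datum is a zero-cycle up to rational equivalence. -/
theorem RepM_cyc {P₀ : k[X]} {z : ℙ Ω (Fin n → Ω) →₀ ℤ} (h : Dat A B P₀ z) :
    ∃ c ∈ cyc Ω (Pl A B), z - c ∈ ratEq Ω (Pl A B) := by
  have : IsAlgClosed Ω := IsAlgClosure.isAlgClosed k
  obtain ⟨m, x, t, -, -, hR, hz⟩ := h
  refine ⟨_, sum_mem fun j _ => ?_, hz⟩
  have : CharZero k⟮x j⟯ :=
    charZero_of_injective_algebraMap (algebraMap k k⟮x j⟯).injective
  obtain ⟨p, y, hL⟩ := (hR j).1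
  obtain ⟨p', y', hL', hp', -⟩ := hL.exists_np
  exact (Ts.PhL_mem (F := k) (Ω := Ω) (hL'.isT (Or.inl one_ne_zero) hp')).1

/-- Multiples of a list of atoms. -/
theorem RepM_mul (l : List (ℕ × (ℙ Ω (Fin n → Ω) →₀ ℤ))) (hl : ∀ a ∈ l, Atom A B a.1 a.2)
    (c : ℕ) : ∃ l' : List (ℕ × (ℙ Ω (Fin n → Ω) →₀ ℤ)), (∀ a ∈ l', Atom A B a.1 a.2) ∧
      (l'.map Prod.fst).sum = c * (l.map Prod.fst).sum ∧
      (l'.map Prod.snd).sum = c • (l.map Prod.snd).sum := by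
  induction c with
  | zero => exact ⟨[], by simp, by simp, by simp⟩
  | succ c ih =>
    obtain ⟨l', h1, h2, h3⟩ := ih
    refine ⟨l' ++ l, ?_, ?_, ?_⟩
    · intro a ha
      rcases List.mem_append.1 ha with ha | ha
      · exact h1 a ha
      · exact hl a ha
    · rw [List.map_append, List.sum_append, h2]
      ring
    · rw [List.map_append, List.sum_append, h3, succ_nsmul]

/-- **Representation by one datum.** Proof: `generation`, `exists_dat`: `z ~ s₁ - s₂` with the sums of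
lists of atoms `l₁`, `l₂` of the same total degree `d` (degrees: `dat_list`, `Dat.deg`,
`Dz.ratEq_le_deg`, see `exists_rep`). Let `e` be the exponent, `s₀`, `N₀` the sum and the total degree of
`l₀`. The cycle `N₀ s₂ - d s₀` has degree `0` modulo `ratEq`; it is in `cyc0` modulo `ratEq`: the sum of a
list of atoms is in `cyc` modulo `ratEq` (`PhL` of a trace: `Ts.PhL_mem`, or the `Dat` of `dat_list`;
`ratEq ≤` degree `0`). So `e N₀ s₂ ~ e d s₀` and `z ~ s₁ + (e N₀ - 1) s₂ - e d s₀`. Let `m₀ = e d`. For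
`m ≥ m₀`: `z + m s₀ ~ s₁ + (e N₀ - 1) s₂ + (m - e d) s₀`, the sum of a list of atoms of total degree
`d + (e N₀ - 1) d + (m - e d) N₀ = m N₀`; `dat_list`. -/
theorem exists_repM (h : Lc k Ω) (hs : Sm Ω A B) (hn : 5 ≤ n)
    (l₀ : List (ℕ × (ℙ Ω (Fin n → Ω) →₀ ℤ))) (hl₀ : ∀ a ∈ l₀, Atom A B a.1 a.2)
    (h0 : 0 < (l₀.map Prod.fst).sum) (z : ℙ Ω (Fin n → Ω) →₀ ℤ) (hz : z ∈ cyc0 Ω (Pl A B)) :
    ∃ m₀ : ℕ, ∀ m, m₀ ≤ m → ∃ (P : k[X]) (z' : ℙ Ω (Fin n → Ω) →₀ ℤ),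
      P.natDegree = m * (l₀.map Prod.fst).sum ∧ Dat A B P z' ∧
      z + m • (l₀.map Prod.snd).sum - z' ∈ ratEq Ω (Pl A B) := by
  have hcl : IsAlgClosed Ω := IsAlgClosure.isAlgClosed k
  obtain ⟨l₁, l₂, h1, h2, h3⟩ := exists_dat h hs hn z (generation hs hn z hz)
  obtain ⟨e, he, hexp⟩ := exists_exp hs hn
  obtain ⟨Q₁, hQ1, hD1⟩ := dat_list l₁ h1
  obtain ⟨Q₂, hQ2, hD2⟩ := dat_list l₂ h2
  obtain ⟨Q₀, hQ0, hD0⟩ := dat_list l₀ hl₀
  obtain ⟨c₂, hc2, hc2'⟩ := RepM_cyc hD2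
  obtain ⟨c₀, hc0, hc0'⟩ := RepM_cyc hD0
  have hz0 : deg Ω z = 0 := (AddSubgroup.mem_inf.1 hz).2
  have h6 : deg Ω (z - ((l₁.map Prod.snd).sum - (l₂.map Prod.snd).sum)) = 0 :=
    Dz.ratEq_le_deg (Pl A B) h3
  rw [map_sub, map_sub, hz0, hD1.deg, hD2.deg, hQ1, hQ2] at h6
  have h7 : deg Ω ((l₂.map Prod.snd).sum - c₂) = 0 := Dz.ratEq_le_deg (Pl A B) hc2'
  have h8 : deg Ω ((l₀.map Prod.snd).sum - c₀) = 0 := Dz.ratEq_le_deg (Pl A B) hc0'
  rw [map_sub, hD2.deg, hQ2] at h7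
  rw [map_sub, hD0.deg, hQ0] at h8
  obtain ⟨a, ha⟩ : ∃ a, e * (l₀.map Prod.fst).sum = a + 1 :=
    ⟨e * (l₀.map Prod.fst).sum - 1, by have := Nat.mul_pos he h0; omega⟩
  have hdd : ((l₁.map Prod.fst).sum : ℤ) = ((l₂.map Prod.fst).sum : ℤ) := by linarith
  have hdd' : (l₁.map Prod.fst).sum = (l₂.map Prod.fst).sum := by exact_mod_cast hdd
  have e1 : e • ((l₀.map Prod.fst).sum • (l₂.map Prod.snd).sum -
      (l₂.map Prod.fst).sum • (l₀.map Prod.snd).sum) ∈ ratEq Ω (Pl A B) := by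
    have k1 : (l₀.map Prod.fst).sum • c₂ - (l₂.map Prod.fst).sum • c₀ ∈ cyc0 Ω (Pl A B) := by
      refine AddSubgroup.mem_inf.2 ⟨sub_mem (nsmul_mem hc2 _) (nsmul_mem hc0 _), ?_⟩
      show deg Ω _ = 0
      rw [map_sub, map_nsmul, map_nsmul, nsmul_eq_mul, nsmul_eq_mul]
      have k2 : deg Ω c₂ = 2 * ((l₂.map Prod.fst).sum : ℤ) := by linarith
      have k3 : deg Ω c₀ = 2 * ((l₀.map Prod.fst).sum : ℤ) := by linarith
      rw [k2, k3]
      ring
    have k4 := hexp _ k1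
    have k5 : e • ((l₀.map Prod.fst).sum • ((l₂.map Prod.snd).sum - c₂) -
        (l₂.map Prod.fst).sum • ((l₀.map Prod.snd).sum - c₀)) ∈ ratEq Ω (Pl A B) :=
      nsmul_mem (sub_mem (nsmul_mem hc2' _) (nsmul_mem hc0' _)) _
    have k6 := add_mem k4 k5
    rw [← nsmul_add] at k6
    convert k6 using 2
    rw [nsmul_sub, nsmul_sub]
    abel
  refine ⟨e * (l₂.map Prod.fst).sum, fun m hm => ?_⟩
  obtain ⟨b, rfl⟩ := Nat.exists_eq_add_of_le hm
  obtain ⟨l₂', g1, g2, g3⟩ := RepM_mul l₂ h2 a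
  obtain ⟨l₀', g4, g5, g6⟩ := RepM_mul l₀ hl₀ b
  obtain ⟨P, hP, hD⟩ := dat_list (l₁ ++ (l₂' ++ l₀')) (A := A) (B := B) (fun c hc => by
    rcases List.mem_append.1 hc with hc | hc
    · exact h1 c hc
    · rcases List.mem_append.1 hc with hc | hc
      · exact g1 c hc
      · exact g4 c hc)
  refine ⟨P, _, ?_, hD, ?_⟩
  · rw [hP, List.map_append, List.map_append, List.sum_append, List.sum_append, g2, g5, hdd']
    have k7 : e * (l₂.map Prod.fst).sum * (l₀.map Prod.fst).sum =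
        (a + 1) * (l₂.map Prod.fst).sum := by
      rw [← ha]
      ring
    rw [add_mul, k7]
    ring
  · rw [List.map_append, List.map_append, List.sum_append, List.sum_append, g3, g6]
    have k8 := sub_mem h3 e1
    rw [nsmul_sub, ← mul_nsmul', ← mul_nsmul', ha, succ_nsmul] at k8
    convert k8 using 1
    rw [add_nsmul]
    abel

end Dq
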