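import Pool.Agent.Lib.MP_f80667_ag.Dq.AtomK
import Pool.Agent.Lib.MP_f80667_ag.Dq.Pad
import Pool.Agent.Lib.MP_f80667_ag.Dp.Surj

/-! The local data at the places of a number field. -/

open NumberField IsDedekindDomain
open scoped LinearAlgebra.Projectivization

namespace Dq

open ZC Tq Dp

private theorem repV_lc {F k Ω : Type} [Field F] [CharZero F] [Field k] [CharZero k] [Algebra F k]
    [NormedField Ω] [Algebra F Ω] [Algebra k Ω] [IsScalarTower F k Ω] [IsAlgClosure k Ω]
    (h : Lc k Ω) {n : ℕ} (hn : 5 ≤ n) {A B : Matrix (Fin n) (Fin n) F}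
    (hs : Sm Ω (A.map (algebraMap F k)) (B.map (algebraMap F k))) {K : Type} [Field K]
    [Algebra F K] [FiniteDimensional F K] {a b : K} (hnd : ND A B a b)
    {t : ℙ K (Fin (n * n) → K)} (ht : IsM A B a b t) (z : ℙ Ω (Fin n → Ω) →₀ ℤ)
    (hz : z ∈ cyc0 Ω (Pl (A.map (algebraMap F k)) (B.map (algebraMap F k)))) :
    ∃ m₀ : ℕ, ∀ m, m₀ ≤ m → ∃ (P : Polynomial k) (z' : ℙ Ω (Fin n → Ω) →₀ ℤ),
      P.natDegree = m * Module.finrank F K ∧
      Dat (A.map (algebraMap F k)) (B.map (algebraMap F k)) P z' ∧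
      z + m • (∑ σ : K →ₐ[F] Ω, Ph (mapPt (σ : K →+* Ω) t)) - z' ∈
        ratEq Ω (Pl (A.map (algebraMap F k)) (B.map (algebraMap F k))) := by
  obtain ⟨l₀, h1, h2, h3⟩ := atoms_of_line h hn hs hnd ht
  have h0 : 0 < (l₀.map Prod.fst).sum := by
    rw [h2]
    exact Module.finrank_pos
  obtain ⟨m₀, hm⟩ := exists_repM h hs hn l₀ h1 h0 z hz
  refine ⟨m₀, fun m hmm => ?_⟩
  obtain ⟨P, z', e1, e2, e3⟩ := hm m hmm
  rw [h2] at e1
  rw [h3] at e3
  exact ⟨P, z', e1, e2, e3⟩

/-- `exists_repM` in terms of an absolute value, for the atoms given by a line over a finite extension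
`K` of `F`. Proof: `atoms_of_line`, `exists_repM` for the normed field `ν.toNormedField` (see `Dq/Nu.lean`). -/
theorem lcv_repM {F k Ω : Type} [Field F] [CharZero F] [Field k] [CharZero k] [Algebra F k]
    [Field Ω] [Algebra F Ω] [Algebra k Ω] [IsScalarTower F k Ω] [IsAlgClosure k Ω]
    {ν : AbsoluteValue Ω ℝ} (h : LcV k Ω ν) {n : ℕ} (hn : 5 ≤ n) {A B : Matrix (Fin n) (Fin n) F}
    (hs : Sm Ω (A.map (algebraMap F k)) (B.map (algebraMap F k))) {K : Type} [Field K]
    [Algebra F K] [FiniteDimensional F K] {a b : K} (hnd : ND A B a b)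
    {t : ℙ K (Fin (n * n) → K)} (ht : IsM A B a b t) (z : ℙ Ω (Fin n → Ω) →₀ ℤ)
    (hz : z ∈ cyc0 Ω (Pl (A.map (algebraMap F k)) (B.map (algebraMap F k)))) :
    ∃ m₀ : ℕ, ∀ m, m₀ ≤ m → ∃ (P : Polynomial k) (z' : ℙ Ω (Fin n → Ω) →₀ ℤ),
      P.natDegree = m * Module.finrank F K ∧
      Dat (A.map (algebraMap F k)) (B.map (algebraMap F k)) P z' ∧
      z + m • (∑ σ : K →ₐ[F] Ω, Ph (mapPt (σ : K →+* Ω) t)) - z' ∈
        ratEq Ω (Pl (A.map (algebraMap F k)) (B.map (algebraMap F k))) :=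
  letI : NormedField Ω := ν.toNormedField
  repV_lc h.lc hn hs hnd ht z hz

variable {F : Type} [Field F] [NumberField F] {n : ℕ} {A B : Matrix (Fin n) (Fin n) F}

/-- There is a finite extension over which a nondegenerate member contains a line. Proof: over
`AlgebraicClosure F` `pad_closed` (or `plane_closed`, `exists_line`, `Ts.exists_nd1`) gives the member
`(1, t)` with `t : F` and a line; the coordinates of `p`, `x` generate a finite extension `K` of `F`
inside `AlgebraicClosure F`, over which `p`, `x` span a line (`Lm` descends: all conditions are equations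
and inequalities; `exists_line` over `K` again). -/
theorem exists_line_fin (hs : Sm (AlgebraicClosure F) A B) (hn : 5 ≤ n) :
    ∃ (K : Type) (_ : Field K) (_ : Algebra F K) (_ : FiniteDimensional F K) (a b : K)
      (t : ℙ K (Fin (n * n) → K)), ND A B a b ∧ IsM A B a b t := by
  obtain ⟨t, ht⟩ := Ts.exists_nd1 hs (by omega)
  have hnd : ND A B (1 : F) t := by
    intro x hx
    obtain ⟨y, hy⟩ := ht x hx
    exact ⟨y, by rwa [mB, one_mul]⟩
  obtain ⟨p, x, h1, h2, h3, h4⟩ := plane_closed (A := A) (B := B) (E := AlgebraicClosure F)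
    (by omega) (Algebra.ofId F _ 1) (Algebra.ofId F _ t)
  let S : Set (AlgebraicClosure F) := Set.range p ∪ Set.range x
  let K : IntermediateField F (AlgebraicClosure F) := IntermediateField.adjoin F S
  have hS : S.Finite := (Set.finite_range p).union (Set.finite_range x)
  have hfin : FiniteDimensional F K := by
    have := hS.to_subtype
    exact IntermediateField.finiteDimensional_adjoin fun y _ =>
      (Algebra.IsAlgebraic.isAlgebraic y).isIntegral
  have hp : ∀ i, p i ∈ K := fun i => IntermediateField.subset_adjoin F S (Or.inl ⟨i, rfl⟩)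
  have hx : ∀ i, x i ∈ K := fun i => IntermediateField.subset_adjoin F S (Or.inr ⟨i, rfl⟩)
  let p' : Fin n → K := fun i => ⟨p i, hp i⟩
  let x' : Fin n → K := fun i => ⟨x i, hx i⟩
  let f : K →ₐ[F] AlgebraicClosure F := K.val
  have hf : Function.Injective f := f.injective
  have hf1 : f (Algebra.ofId F K 1) = Algebra.ofId F (AlgebraicClosure F) 1 := by
    rw [map_one, map_one, map_one]
  have hft : f (Algebra.ofId F K t) = Algebra.ofId F (AlgebraicClosure F) t := rfl
  have hnd' : ND A B (Algebra.ofId F K 1) (Algebra.ofId F K t) := (ND.hom _).2 hnd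
  have hi : LinearIndependent K ![p', x'] := by
    rw [LinearIndependent.pair_iff] at h1 ⊢
    intro α β hαβ
    have h5 : f α • p + f β • x = 0 := by
      funext i
      have h6 := congrArg f (congrFun hαβ i)
      rw [Pi.zero_apply, map_zero] at h6
      exact h6
    obtain ⟨h7, h8⟩ := h1 _ _ h5
    exact ⟨hf (h7.trans (map_zero f).symm), hf (h8.trans (map_zero f).symm)⟩
  have e1 : mQ A B (Algebra.ofId F K 1) (Algebra.ofId F K t) p' = 0 := by
    apply hf
    rw [← mQ_hom, hf1, hft, map_zero]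
    exact h2
  have e2 : mQ A B (Algebra.ofId F K 1) (Algebra.ofId F K t) x' = 0 := by
    apply hf
    rw [← mQ_hom, hf1, hft, map_zero]
    exact h3
  have e3 : mB A B (Algebra.ofId F K 1) (Algebra.ofId F K t) p' x' = 0 := by
    apply hf
    rw [← mB_hom, hf1, hft, map_zero]
    exact h4
  obtain ⟨t', ht'⟩ := exists_line hs f hn hnd' hi e1 e2 e3
  exact ⟨K, inferInstance, inferInstance, hfin, _, _, t', hnd', ht'⟩

private theorem repV_rat {E : Type} [Field E] [Algebra F E]
    {c : ℙ (AlgebraicClosure E) (Fin n → AlgebraicClosure E) →₀ ℤ} :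
    c ∈ ratEq (AlgebraicClosure E) (hE E (Pl A B)) ↔
      c ∈ ratEq (AlgebraicClosure E) (Pl (A.map (algebraMap F E)) (B.map (algebraMap F E))) := by
  rw [Ts.hE_Pl]

private theorem repV_cyc {E : Type} [Field E] [Algebra F E]
    {c : ℙ (AlgebraicClosure E) (Fin n → AlgebraicClosure E) →₀ ℤ} :
    c ∈ cyc0 (AlgebraicClosure E) (hE E (Pl A B)) ↔
      c ∈ cyc0 (AlgebraicClosure E) (Pl (A.map (algebraMap F E)) (B.map (algebraMap F E))) := by
  rw [Ts.hE_Pl]

/-- The local data at a finite place. Proof: as `Dp.rep_FK`: `exists_nuP`, `lcv_repM`, `Ts.sm_ext`,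
`Ts.hE_Pl`. -/
theorem repM_FK (hn : 5 ≤ n) (hs : ∀ x : Fin n → AlgebraicClosure F, x ≠ 0 →
      Zer (Pl A B) (AlgebraicClosure F) x →
      LinearIndependent (AlgebraicClosure F) fun (i : Fin 2) (j : Fin n) =>
        MvPolynomial.aeval x (MvPolynomial.pderiv j (Pl A B i)))
    {K : Type} [Field K] [Algebra F K] [FiniteDimensional F K] {a b : K} (hnd : ND A B a b)
    {t : ℙ K (Fin (n * n) → K)} (ht : IsM A B a b t)
    (v : HeightOneSpectrum (𝓞 F)) (z : Z1 (FK F v) (hE (FK F v) (Pl A B))) :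
    ∃ m₀ : ℕ, ∀ m, m₀ ≤ m → ∃ (P : Polynomial (FK F v))
      (z' : ℙ (AlgebraicClosure (FK F v)) (Fin n → AlgebraicClosure (FK F v)) →₀ ℤ),
      P.natDegree = m * Module.finrank F K ∧
      Dat (A.map (algebraMap F (FK F v))) (B.map (algebraMap F (FK F v))) P z' ∧
      z.1 + m • (∑ σ : K →ₐ[F] AlgebraicClosure (FK F v), Ph (mapPt (σ : K →+* _) t)) - z' ∈
        ratEq (AlgebraicClosure (FK F v)) (hE (FK F v) (Pl A B)) := by
  have : CharZero (FK F v) :=
    charZero_of_injective_algebraMap (algebraMap F (FK F v)).injective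
  have hsK : Sm (AlgebraicClosure (FK F v)) (A.map (algebraMap F (FK F v)))
      (B.map (algebraMap F (FK F v))) :=
    Ts.sm_ext A B hs (FK F v) (AlgebraicClosure (FK F v)) (algebraMap F (FK F v))
  obtain ⟨ν, hν⟩ := exists_nuP F v
  have hz : z.1 ∈ cyc0 (AlgebraicClosure (FK F v)) (Pl (A.map (algebraMap F (FK F v)))
      (B.map (algebraMap F (FK F v)))) := repV_cyc.1 z.2
  obtain ⟨m₀, hm⟩ := lcv_repM hν.lc hn hsK hnd ht z.1 hz
  refine ⟨m₀, fun m hmm => ?_⟩
  obtain ⟨P, z', e1, e2, e3⟩ := hm m hmm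
  exact ⟨P, z', e1, e2, repV_rat.2 e3⟩

/-- The same at a real place. Proof: `exists_nuR`. -/
theorem repM_IK (hn : 5 ≤ n) (hs : ∀ x : Fin n → AlgebraicClosure F, x ≠ 0 →
      Zer (Pl A B) (AlgebraicClosure F) x →
      LinearIndependent (AlgebraicClosure F) fun (i : Fin 2) (j : Fin n) =>
        MvPolynomial.aeval x (MvPolynomial.pderiv j (Pl A B i)))
    {K : Type} [Field K] [Algebra F K] [FiniteDimensional F K] {a b : K} (hnd : ND A B a b)
    {t : ℙ K (Fin (n * n) → K)} (ht : IsM A B a b t)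
    (v : InfinitePlace F) (hv : v.IsReal) (z : Z1 (IK F v) (hE (IK F v) (Pl A B))) :
    ∃ m₀ : ℕ, ∀ m, m₀ ≤ m → ∃ (P : Polynomial (IK F v))
      (z' : ℙ (AlgebraicClosure (IK F v)) (Fin n → AlgebraicClosure (IK F v)) →₀ ℤ),
      P.natDegree = m * Module.finrank F K ∧
      Dat (A.map (algebraMap F (IK F v))) (B.map (algebraMap F (IK F v))) P z' ∧
      z.1 + m • (∑ σ : K →ₐ[F] AlgebraicClosure (IK F v), Ph (mapPt (σ : K →+* _) t)) - z' ∈
        ratEq (AlgebraicClosure (IK F v)) (hE (IK F v) (Pl A B)) := by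
  have : CharZero (IK F v) :=
    charZero_of_injective_algebraMap (algebraMap F (IK F v)).injective
  have hsK : Sm (AlgebraicClosure (IK F v)) (A.map (algebraMap F (IK F v)))
      (B.map (algebraMap F (IK F v))) :=
    Ts.sm_ext A B hs (IK F v) (AlgebraicClosure (IK F v)) (algebraMap F (IK F v))
  obtain ⟨ν, hν⟩ := exists_nuR F v hv
  have hz : z.1 ∈ cyc0 (AlgebraicClosure (IK F v)) (Pl (A.map (algebraMap F (IK F v)))
      (B.map (algebraMap F (IK F v)))) := repV_cyc.1 z.2
  obtain ⟨m₀, hm⟩ := lcv_repM hν.lc hn hsK hnd ht z.1 hz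
  refine ⟨m₀, fun m hmm => ?_⟩
  obtain ⟨P, z', e1, e2, e3⟩ := hm m hmm
  exact ⟨P, z', e1, e2, repV_rat.2 e3⟩

end Dq
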