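import Pool.Agent.Lib.MP_f80667_ag.Hm.WA
import Pool.Agent.Lib.MP_f80667_ag.Hm.GenS

/-! Strong approximation away from the places above a prime number. -/

open IsDedekindDomain NumberField
open scoped WithZero

namespace Dq

variable (F : Type) [Field F] [NumberField F]

variable {F} in
theorem val_nat_le (v : HeightOneSpectrum (𝓞 F)) (n : ℕ) : v.valuation F (n : F) ≤ 1 := by
  have e : algebraMap (𝓞 F) F n = (n : F) := map_natCast (algebraMap (𝓞 F) F) n
  rw [← e]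
  exact v.valuation_le_one _

variable {F} in
theorem val_int_le (v : HeightOneSpectrum (𝓞 F)) (n : ℤ) : v.valuation F (n : F) ≤ 1 := by
  have e : algebraMap (𝓞 F) F n = (n : F) := map_intCast (algebraMap (𝓞 F) F) n
  rw [← e]
  exact v.valuation_le_one _

variable {F} in
/-- The prime number below a place. -/
theorem exists_below (v : HeightOneSpectrum (𝓞 F)) :
    ∃ q : ℕ, q.Prime ∧ v.valuation F (q : F) < 1 := by
  have hm : v.asIdeal.IsMaximal := v.isMaximal
  let _ : Field (𝓞 F ⧸ v.asIdeal) := Ideal.Quotient.field v.asIdeal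
  have : Finite (𝓞 F ⧸ v.asIdeal) := Ideal.finiteQuotientOfFreeOfNeBot v.asIdeal v.ne_bot
  obtain ⟨q, hq⟩ := CharP.exists (𝓞 F ⧸ v.asIdeal)
  have hqp : q.Prime := (CharP.char_is_prime_or_zero (𝓞 F ⧸ v.asIdeal) q).resolve_right (by
    rintro rfl
    have := CharP.charP_to_charZero (𝓞 F ⧸ v.asIdeal)
    exact not_finite (𝓞 F ⧸ v.asIdeal))
  refine ⟨q, hqp, ?_⟩
  have h1 : (q : 𝓞 F) ∈ v.asIdeal := by
    rw [← Ideal.Quotient.eq_zero_iff_mem, map_natCast]
    exact CharP.cast_eq_zero _ q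
  have h2 : v.valuation F (algebraMap (𝓞 F) F (q : 𝓞 F)) < 1 :=
    (HeightOneSpectrum.valuation_lt_one_iff_mem (K := F) v (q : 𝓞 F)).2 h1
  have e : algebraMap (𝓞 F) F (q : 𝓞 F) = (q : F) := map_natCast (algebraMap (𝓞 F) F) q
  rwa [e] at h2

variable {F} in
theorem val_coprime {v : HeightOneSpectrum (𝓞 F)} {m n : ℕ} (h : Nat.Coprime m n)
    (hm : v.valuation F (m : F) < 1) : v.valuation F (n : F) = 1 := by
  refine le_antisymm (val_nat_le v n) ?_
  by_contra hn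
  rw [not_le] at hn
  have h1 : Int.gcd (m : ℤ) (n : ℤ) = 1 := by
    rw [Int.gcd_natCast_natCast]
    exact h
  have h2 := Int.gcd_eq_gcd_ab (m : ℤ) (n : ℤ)
  rw [h1] at h2
  have h3 : (1 : F) = (m : F) * (Int.gcdA m n : ℤ) + (n : F) * (Int.gcdB m n : ℤ) := by
    have := congrArg (fun z : ℤ => (z : F)) h2
    push_cast at this
    exact this
  have h4 : v.valuation F (1 : F) < 1 := by
    rw [h3]
    refine lt_of_le_of_lt (Valuation.map_add _ _ _) (max_lt ?_ ?_)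
    · rw [map_mul]
      exact lt_of_le_of_lt (mul_le_of_le_one_right' (val_int_le v _)) hm
    · rw [map_mul]
      exact lt_of_le_of_lt (mul_le_of_le_one_right' (val_int_le v _)) hn
  rw [map_one] at h4
  exact lt_irrefl _ h4

/-- A prime number which is a unit at given places. -/
theorem exists_prime_unit (S : Finset (HeightOneSpectrum (𝓞 F))) :
    ∃ p : ℕ, p.Prime ∧ ∀ v ∈ S, v.valuation F (p : F) = 1 := by
  choose q hq hqv using (fun v : HeightOneSpectrum (𝓞 F) => exists_below v)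
  obtain ⟨p, hp, hpp⟩ := Nat.exists_infinite_primes (S.sup q + 1)
  refine ⟨p, hpp, fun v hv => ?_⟩
  have h1 : q v ≤ S.sup q := Finset.le_sup hv
  have h2 : q v ≠ p := by omega
  exact val_coprime ((Nat.coprime_primes (hq v) hpp).2 h2) (hqv v)

/-- Small powers. -/
theorem exists_pow_small {a b : ℤᵐ⁰} (ha : a < 1) (hb : b ≠ 0) : ∃ n : ℕ, a ^ n < b := by
  obtain ⟨n, hn⟩ := exists_pow_lt₀ ha (Units.mk0 b hb)
  exact ⟨n, hn⟩

/-- The natural numbers `m` which are small at the places of `S` and units at the places above `p`.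
Proof: a product of high powers of the prime numbers below the places of `S` (different from `p`). -/
theorem exists_small {S : Finset (HeightOneSpectrum (𝓞 F))} {p : ℕ} (hp : p.Prime)
    (hpS : ∀ v ∈ S, v.valuation F (p : F) = 1) (g : HeightOneSpectrum (𝓞 F) → ℤᵐ⁰)
    (hg : ∀ v, g v ≠ 0) : ∃ m : ℕ, 0 < m ∧ Nat.Coprime m p ∧
      (∀ v ∈ S, v.valuation F (m : F) < g v) ∧
      ∀ v : HeightOneSpectrum (𝓞 F), v.valuation F (p : F) ≠ 1 → v.valuation F (m : F) = 1 := by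
  classical
  choose q hq hqv using (fun v : HeightOneSpectrum (𝓞 F) => exists_below v)
  choose N hN using (fun v : HeightOneSpectrum (𝓞 F) => exists_pow_small (hqv v) (hg v))
  have hcop : Nat.Coprime (∏ v ∈ S, q v ^ N v) p := by
    refine Nat.Coprime.prod_left fun v hv => Nat.Coprime.pow_left _ ?_
    refine (Nat.coprime_primes (hq v) hp).2 ?_
    intro h
    have h1 := hqv v
    rw [h, hpS v hv] at h1
    exact lt_irrefl _ h1
  refine ⟨∏ v ∈ S, q v ^ N v, Finset.prod_pos fun v _ => Nat.pow_pos (hq v).pos, hcop, ?_, ?_⟩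
  · intro v hv
    obtain ⟨c, hc⟩ : q v ^ N v ∣ ∏ v ∈ S, q v ^ N v := Finset.dvd_prod_of_mem (fun v => q v ^ N v) hv
    rw [hc, Nat.cast_mul, Nat.cast_pow, map_mul, map_pow]
    exact lt_of_le_of_lt (mul_le_of_le_one_right' (val_nat_le v _)) (hN v)
  · intro v hv
    exact val_coprime hcop.symm (lt_of_le_of_ne (val_nat_le v p) hv)

/-- Negative powers are small. -/
theorem exists_exp_small (a : ℤᵐ⁰) {b : ℤᵐ⁰} (hb : b ≠ 0) :
    ∃ n : ℕ, WithZero.exp (-(n : ℤ)) * a < b := by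
  by_cases ha : a = 0
  · exact ⟨0, by rw [ha, mul_zero]; exact zero_lt_iff.2 hb⟩
  obtain ⟨i, hi⟩ : ∃ i : ℤ, a = WithZero.exp i := ⟨WithZero.log a, (WithZero.exp_log ha).symm⟩
  obtain ⟨j, hj⟩ : ∃ j : ℤ, b = WithZero.exp j := ⟨WithZero.log b, (WithZero.exp_log hb).symm⟩
  refine ⟨(i - j + 1).toNat, ?_⟩
  rw [hi, hj, ← WithZero.exp_add, WithZero.exp_lt_exp]
  omega

/-- Approximation with integrality outside `S`. -/
theorem approx_int (S : Finset (HeightOneSpectrum (𝓞 F))) (c : HeightOneSpectrum (𝓞 F) → F)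
    (g : HeightOneSpectrum (𝓞 F) → ℤᵐ⁰) (hg : ∀ v, g v ≠ 0) :
    ∃ x : F, (∀ v ∈ S, v.valuation F (x - c v) < g v) ∧ ∀ v ∉ S, v.valuation F x ≤ 1 := by
  classical
  obtain ⟨x₀, hx₀, -⟩ := Hm.wapr S c (fun _ => 0) g hg 1 one_pos
  by_cases h0 : x₀ = 0
  · exact ⟨x₀, hx₀, fun v _ => by rw [h0, map_zero]; exact zero_le⟩
  have hfin := Hm.finite_val_ne_one (Units.mk0 x₀ h0)
  obtain ⟨D, hD⟩ : ∃ D : Finset (HeightOneSpectrum (𝓞 F)), ∀ v, v ∈ D ↔ v.valuation F x₀ ≠ 1 :=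
    ⟨hfin.toFinset, fun v => by
      rw [Set.Finite.mem_toFinset]
      rfl⟩
  choose e1 he1 using (fun v : HeightOneSpectrum (𝓞 F) =>
    exists_exp_small (v.valuation F (c v)) (hg v))
  choose e2 he2 using (fun v : HeightOneSpectrum (𝓞 F) =>
    exists_exp_small (v.valuation F x₀) (one_ne_zero : (1 : ℤᵐ⁰) ≠ 0))
  obtain ⟨s, hs⟩ := IsDedekindDomain.exists_forall_sub_mem_ideal (s := S ∪ D)
    (fun v : HeightOneSpectrum (𝓞 F) => v.asIdeal) (fun v => max (e1 v) (e2 v))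
    (fun v _ => v.prime) (fun v _ w _ hvw heq => hvw (HeightOneSpectrum.ext heq))
    (fun v => if (v : HeightOneSpectrum (𝓞 F)) ∈ S then 1 else 0)
  have hval : ∀ (v : HeightOneSpectrum (𝓞 F)) (r : 𝓞 F) (n : ℕ), r ∈ v.asIdeal ^ n →
      v.valuation F (algebraMap (𝓞 F) F r) ≤ WithZero.exp (-(n : ℤ)) := by
    intro v r n hr
    rw [HeightOneSpectrum.valuation_of_algebraMap]
    exact (v.intValuation_le_pow_iff_mem r n).2 hr
  have hs1 : ∀ v : HeightOneSpectrum (𝓞 F), v.valuation F (algebraMap (𝓞 F) F s) ≤ 1 :=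
    fun v => v.valuation_le_one s
  refine ⟨algebraMap (𝓞 F) F s * x₀, ?_, ?_⟩
  · intro v hv
    have h1 := hs v (Finset.mem_union_left _ hv)
    rw [if_pos hv] at h1
    have h2 := hval v _ _ h1
    have h3 : v.valuation F (algebraMap (𝓞 F) F (s - 1) * c v) < g v := by
      rw [map_mul]
      refine lt_of_le_of_lt (mul_le_mul_left h2 _) (lt_of_le_of_lt (mul_le_mul_left ?_ _) (he1 v))
      rw [WithZero.exp_le_exp]
      omega
    have e : algebraMap (𝓞 F) F s * x₀ - c v =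
        algebraMap (𝓞 F) F s * (x₀ - c v) + algebraMap (𝓞 F) F (s - 1) * c v := by
      rw [map_sub, map_one]
      ring
    rw [e]
    refine lt_of_le_of_lt (Valuation.map_add _ _ _) (max_lt ?_ h3)
    rw [map_mul]
    exact lt_of_le_of_lt (mul_le_of_le_one_left' (hs1 v)) (hx₀ v hv)
  · intro v hv
    rw [map_mul]
    by_cases hvD : v ∈ D
    · have h1 := hs v (Finset.mem_union_right _ hvD)
      rw [if_neg hv, sub_zero] at h1
      have h2 := hval v _ _ h1
      refine (lt_of_le_of_lt (mul_le_mul_left h2 _) (lt_of_le_of_lt (mul_le_mul_left ?_ _)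
        (he2 v))).le
      rw [WithZero.exp_le_exp]
      omega
    · rw [hD, not_not] at hvD
      rw [hvD, mul_one]
      exact hs1 v

/-- Strong approximation, see `strong`. -/
theorem strong' {S : Finset (HeightOneSpectrum (𝓞 F))} {p : ℕ} (hp : p.Prime)
    (hpS : ∀ v ∈ S, v.valuation F (p : F) = 1) (g : HeightOneSpectrum (𝓞 F) → ℤᵐ⁰)
    (hg : ∀ v, g v ≠ 0) (τ : (F →+* ℝ) → ℝ) {ε : ℝ}
    (hε : 0 < ε) : ∃ y : F, (∀ v ∈ S, v.valuation F y < g v) ∧
      (∀ v : HeightOneSpectrum (𝓞 F), v.valuation F (p : F) = 1 → v.valuation F y ≤ 1) ∧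
      ∀ φ : F →+* ℝ, |φ y - τ φ| < ε := by
  classical
  obtain ⟨m, hm0, hmp, hmS, -⟩ := exists_small F hp hpS g hg
  obtain ⟨y₀, -, hy₀⟩ := Hm.wapr (∅ : Finset (HeightOneSpectrum (𝓞 F))) (fun _ => 0) τ g hg (ε / 2)
    (half_pos hε)
  obtain ⟨b, hb0, hb⟩ : ∃ b : ℕ, 0 < b ∧ IsIntegral ℤ ((b : F) * y₀) := by
    obtain ⟨z, hz, hzi'⟩ := exists_integral_multiples ℤ ℚ ({y₀} : Finset F)
    have hzi := hzi' y₀ (Finset.mem_singleton_self _)
    refine ⟨z.natAbs, Int.natAbs_pos.2 hz, ?_⟩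
    rw [zsmul_eq_mul] at hzi
    rcases Int.natAbs_eq z with h | h
    · rw [h] at hzi
      simpa using hzi
    · rw [h] at hzi
      have := hzi.neg
      simpa using this
  obtain ⟨a, ha⟩ : ∃ a : 𝓞 F, algebraMap (𝓞 F) F a = (b : F) * y₀ := ⟨⟨_, hb⟩, rfl⟩
  have hfinE : Finite (F →+* ℝ) := by
    refine Finite.of_injective (fun φ : F →+* ℝ => Complex.ofRealHom.comp φ) ?_
    intro φ ψ h
    ext x
    have := congrArg (fun f : F →+* ℂ => f x) h
    exact Complex.ofReal_injective this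
  obtain ⟨B, hB⟩ : ∃ B : ℝ, ∀ φ : F →+* ℝ, |φ ((b : F) * y₀)| ≤ B := by
    obtain ⟨B, hB⟩ := (Set.finite_range fun φ : F →+* ℝ => |φ ((b : F) * y₀)|).bddAbove
    exact ⟨B, fun φ => hB ⟨φ, rfl⟩⟩
  obtain ⟨k, hk⟩ := pow_unbounded_of_one_lt (m * (|B| + 1) / ε)
    (by exact_mod_cast hp.one_lt : (1 : ℝ) < p)
  have hmR : (0 : ℝ) < m := by exact_mod_cast hm0
  have hbR : (0 : ℝ) < b := by exact_mod_cast hb0
  have hpR : (0 : ℝ) < (p : ℝ) ^ k := pow_pos (by exact_mod_cast hp.pos) k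
  obtain ⟨j, hj⟩ : ∃ j : ℤ, |(p : ℝ) ^ k / (m * b) - j| ≤ 1 / 2 := ⟨_, abs_sub_round _⟩
  refine ⟨(m : F) * j / (p : F) ^ k * algebraMap (𝓞 F) F a, ?_, ?_, ?_⟩
  · intro v hv
    rw [map_mul, map_div₀, map_mul, map_pow, hpS v hv, one_pow, div_one]
    refine lt_of_le_of_lt (mul_le_of_le_one_right' (v.valuation_le_one a)) ?_
    exact lt_of_le_of_lt (mul_le_of_le_one_right' (val_int_le v j)) (hmS v hv)
  · intro v hv
    rw [map_mul, map_div₀, map_mul, map_pow, hv, one_pow, div_one]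
    exact mul_le_one' (mul_le_one' (val_nat_le v m) (val_int_le v j)) (v.valuation_le_one a)
  · intro φ
    have h1 : φ ((m : F) * j / (p : F) ^ k * algebraMap (𝓞 F) F a) =
        (m : ℝ) * j / (p : ℝ) ^ k * φ ((b : F) * y₀) := by
      rw [ha, map_mul, map_div₀, map_mul, map_pow, map_natCast, map_natCast, map_intCast]
    have h2 : φ y₀ = φ ((b : F) * y₀) / b := by
      rw [map_mul, map_natCast]
      field_simp
    have h3 : |φ ((m : F) * j / (p : F) ^ k * algebraMap (𝓞 F) F a) - φ y₀| < ε / 2 := by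
      have e : φ ((m : F) * j / (p : F) ^ k * algebraMap (𝓞 F) F a) - φ y₀ =
          -(m / (p : ℝ) ^ k * ((p : ℝ) ^ k / (m * b) - j)) * φ ((b : F) * y₀) := by
        rw [h1, h2]
        field_simp
        ring
      rw [e, abs_mul, abs_neg, abs_mul, abs_of_pos (div_pos hmR hpR)]
      have h4 : |φ ((b : F) * y₀)| < |B| + 1 :=
        lt_of_le_of_lt ((hB φ).trans (le_abs_self B)) (lt_add_one _)
      have h5 : (m : ℝ) / (p : ℝ) ^ k * (|B| + 1) < ε := by
        rw [div_mul_eq_mul_div, div_lt_iff₀ hpR]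
        rw [div_lt_iff₀ hε] at hk
        linarith [mul_comm ε ((p : ℝ) ^ k)]
      have h6 : 0 < (m : ℝ) / (p : ℝ) ^ k := div_pos hmR hpR
      calc (m : ℝ) / (p : ℝ) ^ k * |(p : ℝ) ^ k / (m * b) - j| * |φ ((b : F) * y₀)|
          ≤ (m : ℝ) / (p : ℝ) ^ k * (1 / 2) * (|B| + 1) := by
            apply mul_le_mul (mul_le_mul_of_nonneg_left hj h6.le) h4.le (abs_nonneg _)
            positivity
        _ = ((m : ℝ) / (p : ℝ) ^ k * (|B| + 1)) / 2 := by ring
        _ < ε / 2 := by linarith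
    have h7 := hy₀ φ
    calc |φ ((m : F) * j / (p : F) ^ k * algebraMap (𝓞 F) F a) - τ φ|
        = |(φ ((m : F) * j / (p : F) ^ k * algebraMap (𝓞 F) F a) - φ y₀) + (φ y₀ - τ φ)| := by
          rw [sub_add_sub_cancel]
      _ ≤ _ := abs_add_le _ _
      _ < ε / 2 + ε / 2 := add_lt_add h3 h7
      _ = ε := add_halves ε

/-- **Strong approximation** away from the places above `p`. Proof. (1) There is `x₁` with
`v.valuation (x₁ - c v) < g v` for `v ∈ S` and `v.valuation x₁ ≤ 1` for all other `v` with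
`v.valuation p = 1`: let `x₀` be near the `c v` (`Hm.wapr`); `b x₀ ∈ 𝓞 F` for a natural number `b ≠ 0`;
replace `x₀` by `x₀ * (1 - a)`, where `a : ℤ` is near `0` at the places of `S` and near `1` at the other
places where `x₀` is not integral and `p` is a unit — as these may lie above the same prime number,
use the Chinese remainder theorem in `𝓞 F`: `s ∈ 𝓞 F` near `1` at `S` and near `0` at the other
places where `x₀` is not integral, `x₁ = s x₀`. (2) Let `y₀ = a / b ∈ F`, `a ∈ 𝓞 F`, `b : ℕ`, with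
`|φ y₀ - (τ φ - φ x₁)| < ε / 2` (`Hm.wapr`), and `m` as in `exists_small` for the precision `g v` and `1`.
For large `k` let `j` be the integer nearest to `p ^ k / (m b)`; `y = (m j / p ^ k) a` is near `y₀` at all
real places, small at `S`, integral where `p` is a unit. `x = x₁ + y`. -/
theorem strong {S : Finset (HeightOneSpectrum (𝓞 F))} {p : ℕ} (hp : p.Prime)
    (hpS : ∀ v ∈ S, v.valuation F (p : F) = 1) (c : HeightOneSpectrum (𝓞 F) → F)
    (g : HeightOneSpectrum (𝓞 F) → ℤᵐ⁰) (hg : ∀ v, g v ≠ 0) (τ : (F →+* ℝ) → ℝ) {ε : ℝ}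
    (hε : 0 < ε) : ∃ x : F, (∀ v ∈ S, v.valuation F (x - c v) < g v) ∧
      (∀ v : HeightOneSpectrum (𝓞 F), v ∉ S → v.valuation F (p : F) = 1 → v.valuation F x ≤ 1) ∧
      ∀ φ : F →+* ℝ, |φ x - τ φ| < ε := by
  obtain ⟨x₁, h1, h2⟩ := approx_int F S c g hg
  obtain ⟨y, h3, h4, h5⟩ := strong' F hp hpS g hg (fun φ => τ φ - φ x₁) hε
  refine ⟨x₁ + y, ?_, ?_, ?_⟩
  · intro v hv
    have e : x₁ + y - c v = (x₁ - c v) + y := by ring
    rw [e]
    exact lt_of_le_of_lt (Valuation.map_add _ _ _) (max_lt (h1 v hv) (h3 v hv))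
  · intro v hv hpv
    exact (Valuation.map_add _ _ _).trans (max_le (h2 v hv) (h4 v hpv))
  · intro φ
    have h6 := h5 φ
    have e : φ (x₁ + y) - τ φ = φ y - (τ φ - φ x₁) := by
      rw [map_add]
      ring
    rw [e]
    exact h6

/-- An element `m / d ^ 2` which is small at `S` and at the real places, integral outside `p`, and large
at the places above `p`. Proof: `m` from `exists_small`, `d = p ^ k` with `k` large (the places above `p`
are finitely many). -/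
theorem exists_dom {S : Finset (HeightOneSpectrum (𝓞 F))} {p : ℕ} (hp : p.Prime)
    (hpS : ∀ v ∈ S, v.valuation F (p : F) = 1) (g : HeightOneSpectrum (𝓞 F) → ℤᵐ⁰)
    (hg : ∀ v, g v ≠ 0) (b : HeightOneSpectrum (𝓞 F) → ℤᵐ⁰) {ε : ℝ} (hε : 0 < ε) :
    ∃ m d : F, m ≠ 0 ∧ d ≠ 0 ∧ (∀ v ∈ S, v.valuation F (m / d ^ 2) < g v) ∧
      (∀ v : HeightOneSpectrum (𝓞 F), v.valuation F (p : F) = 1 →
        v.valuation F (m / d ^ 2) ≤ 1) ∧
      (∀ v : HeightOneSpectrum (𝓞 F), v.valuation F (p : F) ≠ 1 →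
         v.valuation F m = 1 ∧ b v < v.valuation F (m / d ^ 2)) ∧
      ∀ φ : F →+* ℝ, |φ (m / d ^ 2)| < ε := by
  classical
  obtain ⟨m, hm0, hmp, hmS, hmu⟩ := exists_small F hp hpS g hg
  have hp0 : (p : F) ≠ 0 := Nat.cast_ne_zero.2 hp.ne_zero
  have hm0' : (m : F) ≠ 0 := Nat.cast_ne_zero.2 hm0.ne'
  have hfin := Hm.finite_val_ne_one (Units.mk0 (p : F) hp0)
  obtain ⟨D, hD⟩ : ∃ D : Finset (HeightOneSpectrum (𝓞 F)),
      ∀ v, v ∈ D ↔ v.valuation F (p : F) ≠ 1 :=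
    ⟨hfin.toFinset, fun v => by
      rw [Set.Finite.mem_toFinset]
      rfl⟩
  have hex : ∀ v : HeightOneSpectrum (𝓞 F), ∃ n : ℕ, v ∈ D →
      v.valuation F (p : F) ^ n * b v < 1 := by
    intro v
    by_cases hv : v ∈ D
    · have h1 : v.valuation F (p : F) < 1 := lt_of_le_of_ne (val_nat_le v p) ((hD v).1 hv)
      by_cases hb : b v = 0
      · exact ⟨0, fun _ => by rw [hb, mul_zero]; exact zero_lt_one⟩
      · obtain ⟨n, hn⟩ := exists_pow_small h1 (inv_ne_zero hb)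
        refine ⟨n, fun _ => ?_⟩
        have := mul_lt_mul_of_pos_right hn (zero_lt_iff.2 hb)
        rwa [inv_mul_cancel₀ hb] at this
    · exact ⟨0, fun h => absurd h hv⟩
  choose n hn using hex
  obtain ⟨k0, hk0⟩ := pow_unbounded_of_one_lt ((m : ℝ) / ε)
    (by exact_mod_cast hp.one_lt : (1 : ℝ) < p)
  obtain ⟨k, hk1, hk2⟩ : ∃ k : ℕ, k0 ≤ k ∧ ∀ v ∈ D, n v ≤ k :=
    ⟨max k0 (D.sup n), le_max_left _ _, fun v hv => (Finset.le_sup hv).trans (le_max_right _ _)⟩
  refine ⟨m, (p : F) ^ k, hm0', pow_ne_zero k hp0, ?_, ?_, ?_, ?_⟩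
  · intro v hv
    rw [map_div₀, map_pow, map_pow, hpS v hv, one_pow, one_pow, div_one]
    exact hmS v hv
  · intro v hv
    rw [map_div₀, map_pow, map_pow, hv, one_pow, one_pow, div_one]
    exact val_nat_le v m
  · intro v hv
    have hv1 := hmu v hv
    refine ⟨hv1, ?_⟩
    have hvp : v.valuation F (p : F) ≤ 1 := val_nat_le v p
    have hvp0 : 0 < v.valuation F (p : F) := zero_lt_iff.2 ((Valuation.ne_zero_iff _).2 hp0)
    rw [map_div₀, map_pow, map_pow, hv1, ← pow_mul, lt_div_iff₀ (pow_pos hvp0 _), mul_comm]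
    have hvD : v ∈ D := (hD v).2 hv
    refine lt_of_le_of_lt (mul_le_mul_left ?_ _) (hn v hvD)
    refine pow_le_pow_right_of_le_one' hvp ?_
    have := hk2 v hvD
    omega
  · intro φ
    have hpR : (1 : ℝ) < p := by exact_mod_cast hp.one_lt
    have hpos : (0 : ℝ) < ((p : ℝ) ^ k) ^ 2 := by positivity
    rw [map_div₀, map_pow, map_pow, map_natCast, map_natCast, abs_of_nonneg (by positivity),
      div_lt_iff₀ hpos]
    rw [div_lt_iff₀ hε] at hk0
    have h1 : (p : ℝ) ^ k0 ≤ ((p : ℝ) ^ k) ^ 2 := by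
      rw [← pow_mul]
      exact pow_le_pow_right₀ hpR.le (by omega)
    nlinarith

end Dq
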