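import Pool.Agent.Lib.MP_f80667_ag.Dq.SepF
import Pool.Agent.Lib.MP_f80667_ag.Dp.SprG

/-! Good reduction at almost all places. -/

open Polynomial IsDedekindDomain NumberField

namespace Dq

open ZC Tq Dp

/-- Finitely many elements are integral at almost all places. -/
theorem g5_int (F : Type) [Field F] [NumberField F] (T : Finset F) :
    ∃ S : Finset (HeightOneSpectrum (𝓞 F)), ∀ v ∉ S, ∀ t ∈ T,
      algebraMap F (v.adicCompletion F) t ∈
        Set.range (algebraMap (v.adicCompletionIntegers F) (v.adicCompletion F)) := by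
  classical
  have hfin : ∀ t : F, {v : HeightOneSpectrum (𝓞 F) | 1 < v.valuation F t}.Finite := by
    intro t
    by_cases h0 : t = 0
    · refine Set.Finite.subset Set.finite_empty ?_
      intro v hv
      rw [Set.mem_ofPred_eq, h0, map_zero] at hv
      exact absurd hv (by simp)
    · refine (Hm.finite_val_ne_one (Units.mk0 t h0)).subset ?_
      intro v hv
      exact ne_of_gt hv
  refine ⟨T.biUnion fun t => (hfin t).toFinset, fun v hv t ht => ?_⟩
  have h1 : v.valuation F t ≤ 1 := by
    by_contra hc
    apply hv
    rw [Finset.mem_biUnion]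
    exact ⟨t, ht, (hfin t).mem_toFinset.2 (not_le.1 hc)⟩
  have h2 : algebraMap F (v.adicCompletion F) t ∈ v.adicCompletionIntegers F := by
    rw [HeightOneSpectrum.mem_adicCompletionIntegers]
    have h3 := HeightOneSpectrum.valuedAdicCompletion_eq_valuation' v t
    exact h3.le.trans h1
  exact ⟨⟨_, h2⟩, rfl⟩

/-- Descent of `SepR` along an injective homomorphism. -/
theorem sepR_descend {R S T : Type*} [CommRing R] [CommRing S] [CommRing T] (f : S →+* T)
    (hf : Function.Injective f) (g : R →+* T) {A B : Matrix (Fin 5) (Fin 5) R}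
    {A' B' : Matrix (Fin 5) (Fin 5) S} (hA : A'.map f = A.map g) (hB : B'.map f = B.map g)
    (U V : R[X]) (hUV : U * chp A B + V * derivative (chp A B) = 1) (d : R)
    (hd : (B + B.transpose).det * d = 1) (hdr : g d ∈ Set.range f)
    (hU : ∀ n, g (U.coeff n) ∈ Set.range f) (hV : ∀ n, g (V.coeff n) ∈ Set.range f) :
    SepR A' B' := by
  have hlift : ∀ P : R[X], (∀ n, g (P.coeff n) ∈ Set.range f) → ∃ P' : S[X], P'.map f = P.map g := by
    intro P hP
    have h1 : P.map g ∈ lifts f := by
      rw [lifts_iff_coeff_lifts]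
      intro n
      rw [coeff_map]
      exact hP n
    exact (mem_lifts _).1 h1
  obtain ⟨U', hU'⟩ := hlift U hU
  obtain ⟨V', hV'⟩ := hlift V hV
  obtain ⟨d', hd'⟩ := hdr
  refine ⟨?_, ?_⟩
  · refine IsUnit.of_mul_eq_one d' ?_
    apply hf
    have e1 : f (B' + B'.transpose).det = g (B + B.transpose).det := by
      have e2 : ∀ i j, f (B' i j) = g (B i j) := fun i j => congrFun (congrFun hB i) j
      have e3 : f.mapMatrix (B' + B'.transpose) = g.mapMatrix (B + B.transpose) := by
        ext i j
        rw [RingHom.mapMatrix_apply, RingHom.mapMatrix_apply, Matrix.map_apply, Matrix.map_apply,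
          Matrix.add_apply, Matrix.add_apply, Matrix.transpose_apply, Matrix.transpose_apply,
          map_add, map_add, e2, e2]
      rw [RingHom.map_det, RingHom.map_det, e3]
    rw [map_mul, e1, hd', ← map_mul, hd, map_one, map_one]
  · refine ⟨U', V', ?_⟩
    apply map_injective f hf
    have e1 : (chp A' B').map f = (chp A B).map g := by
      rw [← chp_map, ← chp_map, hA, hB]
    rw [Polynomial.map_add, Polynomial.map_mul, Polynomial.map_mul, ← derivative_map, e1, hU',
      hV', derivative_map, ← Polynomial.map_mul, ← Polynomial.map_mul, ← Polynomial.map_add, hUV,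
      Polynomial.map_one, Polynomial.map_one]

/-- **Good reduction at almost all places.** Proof: `exists_good`; the coefficients of the polynomials
`U`, `V` with `U * chp A B + V * derivative (chp A B) = 1` and `det (B + Bᵀ)⁻¹` are integral at almost
all places (as in the proof of `exists_good`), and `algebraMap` from `v.adicCompletionIntegers F` to
`v.adicCompletion F` is injective, so the identities hold over `v.adicCompletionIntegers F`. -/
theorem exists_good5 (F : Type) [Field F] [NumberField F] {A B : Matrix (Fin 5) (Fin 5) F}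
    (hs : Sm (AlgebraicClosure F) A B) (hB : ND A B (0 : F) 1) :
    ∃ S : Finset (HeightOneSpectrum (𝓞 F)), ∀ v ∉ S,
      ∃ A' B' : Matrix (Fin 5) (Fin 5) (v.adicCompletionIntegers F),
        A'.map (algebraMap _ (v.adicCompletion F)) = A.map (algebraMap F (v.adicCompletion F)) ∧
        B'.map (algebraMap _ (v.adicCompletion F)) = B.map (algebraMap F (v.adicCompletion F)) ∧
        SmR A' B' ∧ SepR A' B' := by
  classical
  have hsep := sep_of_sm hs hB
  obtain ⟨hdu, U, V, hUV⟩ := hsep
  obtain ⟨S₀, hS₀⟩ := exists_good F (smR_of (E := AlgebraicClosure F) hs)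
  obtain ⟨S₁, hS₁⟩ := g5_int F (insert ((B + B.transpose).det⁻¹)
    (insert 0 (U.support.image U.coeff ∪ V.support.image V.coeff)))
  refine ⟨S₀ ∪ S₁, fun v hv => ?_⟩
  rw [Finset.mem_union, not_or] at hv
  obtain ⟨A', B', h1, h2, h3⟩ := hS₀ v hv.1
  have h4 := hS₁ v hv.2
  refine ⟨A', B', h1, h2, h3, ?_⟩
  have hco : ∀ P : F[X], P.support.image P.coeff ⊆ (insert ((B + B.transpose).det⁻¹)
      (insert 0 (U.support.image U.coeff ∪ V.support.image V.coeff))) →
      ∀ n, algebraMap F (v.adicCompletion F) (P.coeff n) ∈
        Set.range (algebraMap (v.adicCompletionIntegers F) (v.adicCompletion F)) := by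
    intro P hP n
    by_cases hn : P.coeff n = 0
    · rw [hn]
      exact h4 0 (Finset.mem_insert_of_mem (Finset.mem_insert_self _ _))
    · exact h4 _ (hP (Finset.mem_image.2 ⟨n, mem_support_iff.2 hn, rfl⟩))
  refine sepR_descend (algebraMap (v.adicCompletionIntegers F) (v.adicCompletion F))
    (IsFractionRing.injective _ _) (algebraMap F (v.adicCompletion F)) h1 h2 U V hUV
    ((B + B.transpose).det⁻¹) (mul_inv_cancel₀ hdu.ne_zero) (h4 _ (Finset.mem_insert_self _ _))
    (hco U ?_) (hco V ?_)
  · exact (Finset.subset_union_left.trans (Finset.subset_insert _ _)).trans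
      (Finset.subset_insert _ _)
  · exact (Finset.subset_union_right.trans (Finset.subset_insert _ _)).trans
      (Finset.subset_insert _ _)

end Dq
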