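import Mathlib

/-!
The second moment of the quadratic character over all binary quadratic forms. The points of the
projective line over `κ` are the elements of `Option κ`: `some t` is `(1, t)` and `none` is `(0, 1)`.
-/

namespace Dq

variable {κ : Type*} [Field κ]

/-- The first coordinate of a point of the projective line. -/
def pr1 (l : Option κ) : κ := l.elim 0 fun _ => 1

/-- The second coordinate of a point of the projective line. -/
def pr2 (l : Option κ) : κ := l.elim 1 id

@[simp] theorem pr1_some (t : κ) : pr1 (some t) = 1 := rfl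

@[simp] theorem pr1_none : pr1 (none : Option κ) = 0 := rfl

@[simp] theorem pr2_some (t : κ) : pr2 (some t) = t := rfl

@[simp] theorem pr2_none : pr2 (none : Option κ) = 1 := rfl

theorem pr_ne (l : Option κ) : pr1 l ≠ 0 ∨ pr2 l ≠ 0 := by
  cases l with
  | none => exact Or.inr one_ne_zero
  | some t => exact Or.inl one_ne_zero

/-- Every nonzero pair is a multiple of exactly one point. -/
theorem exists_pr {a b : κ} (h : a ≠ 0 ∨ b ≠ 0) :
    ∃ (l : Option κ) (c : κ), c ≠ 0 ∧ a = c * pr1 l ∧ b = c * pr2 l := by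
  by_cases ha : a = 0
  · refine ⟨none, b, h.resolve_left (fun h1 => h1 ha), ?_, ?_⟩
    · rw [ha, pr1_none, mul_zero]
    · rw [pr2_none, mul_one]
  · refine ⟨some (b / a), a, ha, ?_, ?_⟩
    · rw [pr1_some, mul_one]
    · rw [pr2_some, mul_div_cancel₀ _ ha]

theorem pr_inj {l l' : Option κ} (h : pr1 l * pr2 l' = pr1 l' * pr2 l) : l = l' := by
  cases l <;> cases l' <;> simp_all

/-- The value of the binary quadratic form with the coefficients `d`. -/
def ev (d : Fin 3 → κ) (l : Option κ) : κ :=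
  d 0 * pr1 l ^ 2 + d 1 * (pr1 l * pr2 l) + d 2 * pr2 l ^ 2

theorem ev_add (d e : Fin 3 → κ) (l : Option κ) : ev (d + e) l = ev d l + ev e l := by
  simp only [ev, Pi.add_apply]
  ring

theorem ev_smul (c : κ) (d : Fin 3 → κ) (l : Option κ) : ev (c • d) l = c * ev d l := by
  simp only [ev, Pi.smul_apply, smul_eq_mul]
  ring

theorem exists_ev_one (l : Option κ) : ∃ e : Fin 3 → κ, ev e l = 1 := by
  cases l with
  | none => exact ⟨![0, 0, 1], by simp [ev]⟩
  | some t => exact ⟨![1, 0, 0], by simp [ev]⟩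

theorem exists_ev_sep {l m : Option κ} (h : l ≠ m) :
    ∃ e : Fin 3 → κ, ev e l = 1 ∧ ev e m = 0 := by
  have hδ : pr1 l * pr2 m - pr1 m * pr2 l ≠ 0 := fun h0 => h (pr_inj (sub_eq_zero.mp h0))
  refine ⟨((pr1 l * pr2 m - pr1 m * pr2 l) ^ 2)⁻¹ •
    ![pr2 m ^ 2, - (2 * pr1 m * pr2 m), pr1 m ^ 2], ?_, ?_⟩
  · rw [ev_smul, ev]
    simp only [Matrix.cons_val]
    rw [inv_mul_eq_one₀ (pow_ne_zero 2 hδ)]
    ring
  · rw [ev_smul, ev]
    simp only [Matrix.cons_val]
    rw [mul_eq_zero]
    right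
    ring

section

variable [Fintype κ] [DecidableEq κ]

theorem sum_char_shift (h2 : ringChar κ ≠ 2) (x : κ) :
    ∑ t : κ, quadraticChar κ (x + t) = 0 := by
  rw [← quadraticChar_sum_zero h2]
  exact Fintype.sum_equiv (Equiv.addLeft x) _ _ fun t => rfl

theorem sum_char_sq : ∑ t : κ, quadraticChar κ t ^ 2 = (Fintype.card κ : ℤ) - 1 := by
  have h : ∀ t : κ, quadraticChar κ t ^ 2 = 1 - (if t = 0 then (1 : ℤ) else 0) := by
    intro t
    by_cases ht : t = 0
    · subst ht
      rw [MulChar.map_zero, if_pos rfl]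
      norm_num
    · rw [quadraticChar_sq_one ht, if_neg ht, sub_zero]
  rw [Finset.sum_congr rfl fun t _ => h t, Finset.sum_sub_distrib, Finset.sum_ite_eq' Finset.univ 0,
    if_pos (Finset.mem_univ 0)]
  simp

theorem sum_char_sq_shift (x : κ) :
    ∑ t : κ, quadraticChar κ (x + t) ^ 2 = (Fintype.card κ : ℤ) - 1 := by
  rw [← sum_char_sq]
  exact Fintype.sum_equiv (Equiv.addLeft x) _ _ fun t => rfl

theorem gl_ne (h2 : ringChar κ ≠ 2) {l m : Option κ} (h : l ≠ m) :
    ∑ d : Fin 3 → κ, quadraticChar κ (ev d l) * quadraticChar κ (ev d m) = 0 := by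
  obtain ⟨e, hel, hem⟩ := exists_ev_sep h
  have hs : ∀ t : κ, ∑ d : Fin 3 → κ, quadraticChar κ (ev d l) * quadraticChar κ (ev d m) =
      ∑ d : Fin 3 → κ, quadraticChar κ (ev d l + t) * quadraticChar κ (ev d m) := by
    intro t
    refine (Fintype.sum_equiv (Equiv.addRight (t • e)) _ _ fun d => ?_).symm
    rw [Equiv.coe_addRight, ev_add, ev_add, ev_smul, ev_smul, hel, hem, mul_one, mul_zero, add_zero]
  have hq : (Fintype.card κ : ℤ) *
      ∑ d : Fin 3 → κ, quadraticChar κ (ev d l) * quadraticChar κ (ev d m) = 0 := by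
    calc (Fintype.card κ : ℤ) *
        ∑ d : Fin 3 → κ, quadraticChar κ (ev d l) * quadraticChar κ (ev d m)
        = ∑ _t : κ, ∑ d : Fin 3 → κ, quadraticChar κ (ev d l) * quadraticChar κ (ev d m) := by
          rw [Finset.sum_const, Finset.card_univ, nsmul_eq_mul]
      _ = ∑ t : κ, ∑ d : Fin 3 → κ, quadraticChar κ (ev d l + t) * quadraticChar κ (ev d m) :=
          Finset.sum_congr rfl fun t _ => hs t
      _ = ∑ d : Fin 3 → κ, ∑ t : κ, quadraticChar κ (ev d l + t) * quadraticChar κ (ev d m) :=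
          Finset.sum_comm
      _ = 0 := by
          refine Finset.sum_eq_zero fun d _ => ?_
          rw [← Finset.sum_mul, sum_char_shift h2, zero_mul]
  exact (mul_eq_zero.mp hq).resolve_left (by exact_mod_cast Fintype.card_ne_zero)

theorem gl_eq (l : Option κ) :
    ∑ d : Fin 3 → κ, quadraticChar κ (ev d l) ^ 2 =
      (Fintype.card κ : ℤ) ^ 2 * ((Fintype.card κ : ℤ) - 1) := by
  obtain ⟨e, hel⟩ := exists_ev_one l
  have hs : ∀ t : κ, ∑ d : Fin 3 → κ, quadraticChar κ (ev d l) ^ 2 =
      ∑ d : Fin 3 → κ, quadraticChar κ (ev d l + t) ^ 2 := by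
    intro t
    refine (Fintype.sum_equiv (Equiv.addRight (t • e)) _ _ fun d => ?_).symm
    rw [Equiv.coe_addRight, ev_add, ev_smul, hel, mul_one]
  have hq : (Fintype.card κ : ℤ) * ∑ d : Fin 3 → κ, quadraticChar κ (ev d l) ^ 2 =
      (Fintype.card κ : ℤ) * ((Fintype.card κ : ℤ) ^ 2 * ((Fintype.card κ : ℤ) - 1)) := by
    calc (Fintype.card κ : ℤ) * ∑ d : Fin 3 → κ, quadraticChar κ (ev d l) ^ 2
        = ∑ _t : κ, ∑ d : Fin 3 → κ, quadraticChar κ (ev d l) ^ 2 := by
          rw [Finset.sum_const, Finset.card_univ, nsmul_eq_mul]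
      _ = ∑ t : κ, ∑ d : Fin 3 → κ, quadraticChar κ (ev d l + t) ^ 2 :=
          Finset.sum_congr rfl fun t _ => hs t
      _ = ∑ d : Fin 3 → κ, ∑ t : κ, quadraticChar κ (ev d l + t) ^ 2 := Finset.sum_comm
      _ = ∑ _d : Fin 3 → κ, ((Fintype.card κ : ℤ) - 1) :=
          Finset.sum_congr rfl fun d _ => sum_char_sq_shift _
      _ = _ := by
          rw [Finset.sum_const, Finset.card_univ, nsmul_eq_mul, Fintype.card_fun, Fintype.card_fin]
          push_cast
          ring
  exact mul_left_cancel₀ (by exact_mod_cast Fintype.card_ne_zero) hq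

end

/-- **The second moment.** Proof. Expand the square and exchange the sums:
`∑ l, ∑ m, f l f m ∑ d, χ (ev d l) χ (ev d m)`. For `l ≠ m` the map `d ↦ (ev d l, ev d m)` from `κ³` to
`κ²` is linear and onto (`pr_inj`: the two functionals are independent), so all fibres have the same
number of elements `q` and the inner sum is `q (∑ x, χ x) ^ 2 = 0` (`quadraticChar_sum_zero`). For
`l = m` the map `d ↦ ev d l` is linear and onto, its fibres have `q ^ 2` elements, and the inner sum is
`q ^ 2 ∑ x, χ x ^ 2 = q ^ 2 (q - 1)`. There are `q + 1` points `l`. -/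
theorem sm_bound [Fintype κ] [DecidableEq κ] (h2 : ringChar κ ≠ 2) (f : Option κ → ℤ)
    (hf : ∀ l, |f l| ≤ 1) :
    ∑ d : Fin 3 → κ, (∑ l, f l * quadraticChar κ (ev d l)) ^ 2 ≤
      ((Fintype.card κ : ℤ) + 1) * (Fintype.card κ : ℤ) ^ 2 * ((Fintype.card κ : ℤ) - 1) := by
  have hexp : ∀ d : Fin 3 → κ, (∑ l, f l * quadraticChar κ (ev d l)) ^ 2 =
      ∑ l, ∑ m, (f l * f m) * (quadraticChar κ (ev d l) * quadraticChar κ (ev d m)) := by
    intro d
    rw [sq, Finset.sum_mul_sum]
    exact Finset.sum_congr rfl fun l _ => Finset.sum_congr rfl fun m _ => by ring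
  have hq1 : (0 : ℤ) ≤ (Fintype.card κ : ℤ) ^ 2 * ((Fintype.card κ : ℤ) - 1) := by
    have h1 : (1 : ℤ) ≤ (Fintype.card κ : ℤ) := by exact_mod_cast Fintype.card_pos
    exact mul_nonneg (sq_nonneg _) (sub_nonneg.mpr h1)
  calc ∑ d : Fin 3 → κ, (∑ l, f l * quadraticChar κ (ev d l)) ^ 2
      = ∑ d : Fin 3 → κ, ∑ l, ∑ m,
          (f l * f m) * (quadraticChar κ (ev d l) * quadraticChar κ (ev d m)) :=
        Finset.sum_congr rfl fun d _ => hexp d
    _ = ∑ l, ∑ m, (f l * f m) *
          ∑ d : Fin 3 → κ, quadraticChar κ (ev d l) * quadraticChar κ (ev d m) := by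
        rw [Finset.sum_comm]
        refine Finset.sum_congr rfl fun l _ => ?_
        rw [Finset.sum_comm]
        refine Finset.sum_congr rfl fun m _ => ?_
        rw [Finset.mul_sum]
    _ = ∑ l : Option κ, (f l * f l) *
          ((Fintype.card κ : ℤ) ^ 2 * ((Fintype.card κ : ℤ) - 1)) := by
        refine Finset.sum_congr rfl fun l _ => ?_
        rw [Finset.sum_eq_single l]
        · rw [← gl_eq l]
          congr 1
          exact Finset.sum_congr rfl fun d _ => by rw [sq]
        · intro m _ hm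
          rw [gl_ne h2 hm.symm, mul_zero]
        · intro h
          exact absurd (Finset.mem_univ l) h
    _ ≤ ∑ _l : Option κ, ((Fintype.card κ : ℤ) ^ 2 * ((Fintype.card κ : ℤ) - 1)) := by
        refine Finset.sum_le_sum fun l _ => ?_
        have h1 : f l * f l ≤ 1 := by
          have := hf l
          rw [abs_le] at this
          nlinarith [this.1, this.2]
        calc f l * f l * ((Fintype.card κ : ℤ) ^ 2 * ((Fintype.card κ : ℤ) - 1))
            ≤ 1 * ((Fintype.card κ : ℤ) ^ 2 * ((Fintype.card κ : ℤ) - 1)) :=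
              mul_le_mul_of_nonneg_right h1 hq1
          _ = _ := one_mul _
    _ = _ := by
        rw [Finset.sum_const, Finset.card_univ, Fintype.card_option, nsmul_eq_mul]
        push_cast
        ring

end Dq
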