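import Pool.Agent.Lib.MP_f80667_ag.Dq.NS
import Pool.Agent.Lib.MP_f80667_ag.Dp.Tang

/-! Every point of `X` is rationally equivalent to a point with `NS`. -/

open scoped LinearAlgebra.Projectivization

namespace Dq

open ZC Tq Dp

universe u

variable {k : Type u} [Field k] [CharZero k] {Ω : Type u} [Field Ω] [Algebra k Ω] [IsAlgClosed Ω]
  {n : ℕ} {A B : Matrix (Fin n) (Fin n) k} {M : Type u} [Field M] [Algebra k M]

omit [CharZero k] in
/-- the polar form of a member which vanishes on a subspace -/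
theorem sp_pol {a b : M} {U : Submodule M (Fin n → M)} (hT : ∀ u ∈ U, mQ A B a b u = 0) :
    ∀ x ∈ U, ∀ y ∈ U, mB A B a b x y = 0 := by
  intro x hx y hy
  have h3 := hT (x + y) (U.add_mem hx hy)
  rw [mQ_add, hT x hx, hT y hy] at h3
  simpa using h3

/-- a member which vanishes on the tangent space vanishes on it after extension of the field -/
theorem sp_ext (hs : Sm Ω A B) (σ : M →ₐ[k] Ω) {P : Fin n → M} (hP : P ≠ 0) (aP : qv A P = 0)
    (bP : qv B P = 0) {a b : M} (hT : ∀ u ∈ TP A B P, mQ A B a b u = 0) :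
    ∀ u ∈ TP A B (fun j => σ (P j)), mQ A B (σ a) (σ b) u = 0 := by
  classical
  have : CharZero Ω := charZero_of_injective_algebraMap (algebraMap k Ω).injective
  obtain ⟨e, he1, he2⟩ := TP_surj hs σ hP aP bP 1 0
  obtain ⟨f, hf1, hf2⟩ := TP_surj hs σ hP aP bP 0 1
  -- the projections of the unit vectors
  set π : Fin n → Fin n → M := fun i => Pi.single i 1 + (-bv A P (Pi.single i 1)) • e +
    (-bv B P (Pi.single i 1)) • f with hπ
  have hπT : ∀ i, π i ∈ TP A B P := by
    intro i
    refine ⟨?_, ?_⟩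
    · rw [hπ]
      simp only
      rw [bv_add_right, bv_add_right, bv_smul_right, bv_smul_right, he1, hf1]
      ring
    · rw [hπ]
      simp only
      rw [bv_add_right, bv_add_right, bv_smul_right, bv_smul_right, he2, hf2]
      ring
  set S : Submodule Ω (Fin n → Ω) := Submodule.span Ω (Set.range fun i j => σ (π i j)) with hS
  have h1 : ∀ i, ∀ x ∈ S, mB A B (σ a) (σ b) (fun j => σ (π i j)) x = 0 := by
    intro i x hx
    induction hx using Submodule.span_induction with
    | mem x hx =>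
      obtain ⟨i', rfl⟩ := hx
      rw [mB_hom, sp_pol hT _ (hπT i) _ (hπT i'), map_zero]
    | zero =>
      have h := mB_smul_right (A := A) (B := B) (σ a) (σ b) (0 : Ω) (fun j => σ (π i j))
        (0 : Fin n → Ω)
      rwa [zero_smul, zero_mul] at h
    | add x y _ _ hx hy => rw [mB_add_right, hx, hy, add_zero]
    | smul c x _ hx => rw [mB_smul_right, hx, mul_zero]
  have h2 : ∀ x ∈ S, ∀ y ∈ S, mB A B (σ a) (σ b) x y = 0 := by
    intro x hx y hy
    induction hx using Submodule.span_induction with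
    | mem x hx =>
      obtain ⟨i', rfl⟩ := hx
      exact h1 i' y hy
    | zero =>
      have h := mB_smul (A := A) (B := B) (σ a) (σ b) (0 : Ω) (0 : Fin n → Ω) y
      rwa [zero_smul, zero_mul] at h
    | add x y _ _ hx hy => rw [mB_add, hx, hy, add_zero]
    | smul c x _ hx => rw [mB_smul, hx, mul_zero]
  intro u hu
  have hbv : ∀ H : Matrix (Fin n) (Fin n) k, ∑ i, u i * σ (bv H P (Pi.single i 1)) =
      bv H (fun j => σ (P j)) u := by
    intro H
    have h3 : u = ∑ i, u i • (Pi.single i (1 : Ω) : Fin n → Ω) := by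
      funext j
      simp [Finset.sum_apply, Pi.single_apply]
    have h4 : bv H (fun j => σ (P j)) u = bvl H (fun j => σ (P j)) u := rfl
    rw [h4]
    conv_rhs => rw [h3]
    rw [map_sum]
    refine Finset.sum_congr rfl fun i _ => ?_
    rw [map_smul, smul_eq_mul]
    congr 1
    have h5 : (Pi.single i (1 : Ω) : Fin n → Ω) = fun j => σ ((Pi.single i (1 : M) : Fin n → M) j) := by
      funext j
      by_cases hj : j = i
      · subst hj
        simp
      · simp [Pi.single_eq_of_ne hj]
    rw [h5]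
    exact (bv_hom σ P (Pi.single i 1)).symm
  have huS : u ∈ S := by
    have h3 : u = ∑ i, u i • (fun j => σ (π i j)) := by
      funext j
      rw [Finset.sum_apply]
      have h4 : ∀ i, (u i • fun j => σ (π i j)) j = u i * (Pi.single i (1 : Ω) : Fin n → Ω) j +
          (-(u i * σ (bv A P (Pi.single i 1)))) * σ (e j) +
          (-(u i * σ (bv B P (Pi.single i 1)))) * σ (f j) := by
        intro i
        rw [hπ]
        simp only [Pi.smul_apply, Pi.add_apply, smul_eq_mul, map_add, map_mul, map_neg]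
        have h5 : σ ((Pi.single i (1 : M) : Fin n → M) j) = (Pi.single i (1 : Ω) : Fin n → Ω) j := by
          by_cases hj : j = i
          · subst hj
            simp
          · simp [Pi.single_eq_of_ne hj]
        rw [h5]
        ring
      rw [Finset.sum_congr rfl fun i _ => h4 i, Finset.sum_add_distrib, Finset.sum_add_distrib,
        ← Finset.sum_mul, ← Finset.sum_mul, Finset.sum_neg_distrib, Finset.sum_neg_distrib, hbv A,
        hbv B, hu.1, hu.2]
      simp [Pi.single_apply]
    rw [h3]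
    exact Submodule.sum_mem _ fun i _ => Submodule.smul_mem _ _ (Submodule.subset_span ⟨i, rfl⟩)
  have h3 := h2 u huS u huS
  rw [mB_self] at h3
  exact (mul_eq_zero.1 h3).resolve_left two_ne_zero

/-- Proof. `ns_six` if `n ≥ 6`. Let `n = 5` and suppose that the member `q = (a, b) ≠ 0` over `M`
vanishes on `T = TP A B P` (of dimension `3`, `TP_rank`). (1) `q` is degenerate (`nd_sub`): let `r ≠ 0`
over `M` be a radical vector of `q`; `r ∈ T` by `rad_mem`. Let `H = A` if `b ≠ 0` and `H = B` otherwise: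
`q`, `H` are independent, and a vector on which `mB a b` and `bv H` (with `P`) vanish is in `T`.
`qv H r ≠ 0`: otherwise `r` is on `X` and in the radical of `q` (`sm_pt`). (2) The orthogonal space
`N` of `P` for `q` has dimension at least `4`, so there is `y ∈ N`, `y ∉ T`. There is `t ∈ T` with
`mB a b y t ≠ 0`: otherwise the orthogonal space of `T` contains `T` and `y`, so has dimension at least
`4`, and `3 + 4 ≤ 5 + 1` by `LinearMap.BilinForm.finrank_add_finrank_orthogonal` and `rad_one`. Let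
`y' = y - (mQ a b y / mB a b y t) t`: `mQ a b y' = 0`, `mB a b P y' = 0`, `y' ∉ T`, so `bv H P y' ≠ 0`.
(3) For `t : M` let
`W t = -(t ^ 2 qv H r + t bv H r y' + qv H y') P + (t bv H P y') r + bv H P y' y'`. Then
`mQ a b (W t) = 0`, `qv H (W t) = 0`, so `W t` is on `X`; `mB a b P (W t) = 0`,
`bv H P (W t) = bv H P y' ^ 2 ≠ 0` (`bv H P r = 0`), in particular `W t ≠ 0`. The member through `P` and
`W t` is a multiple of `(a, b)` (`prop_of_mB`), and `r ∈ T`, `mQ a b r = 0`, `qv H r ≠ 0`, so
`Tg ... P r`. (4) The family `φ` of `exists_NF`; `φ i (σ (W t))` is a polynomial in `t` of degree at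
most `2` with coefficients `- σ(qv H r) φ i (σ P)` (`t²`) and
`- σ(bv H r y') φ i (σ P) + σ(bv H P y') φ i (σ r)` (`t`), so it is not zero by `NF.pt` (for `σ P`,
`σ a`, `σ b`, `σ r`; that the member `(σ a, σ b)` vanishes on `TP A B (σ P)`: this space is spanned by
the `σ u`, `u ∈ TP A B P`, by the dimensions). Choose `t : ℕ` (or in the infinite field `M`) which is
not a zero of the product of these polynomials; `W t` satisfies `NS` by `NF.ns`. -/
theorem exists_ns_pt (hs : Sm Ω A B) (σ : M →ₐ[k] Ω) (hn : 5 ≤ n) {P : Fin n → M} (hP : P ≠ 0)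
    (zP : Zer (Pl A B) M P) : NS A B P ∨ ∃ W u : Fin n → M, W ≠ 0 ∧ Zer (Pl A B) M W ∧ NS A B W ∧
      (bv A P W ≠ 0 ∨ bv B P W ≠ 0) ∧ Tg A B (bv B P W) (-bv A P W) P u := by
  classical
  by_cases hns : NS A B P
  · exact Or.inl hns
  refine Or.inr ?_
  have h2 : (2 : k) ≠ 0 := two_ne_zero
  have : CharZero M := charZero_of_injective_algebraMap (algebraMap k M).injective
  have : CharZero Ω := charZero_of_injective_algebraMap (algebraMap k Ω).injective
  obtain ⟨aP, bP⟩ := (zer_iff A B).1 zP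
  unfold NS at hns
  push Not at hns
  obtain ⟨a, b, hab, hT⟩ := hns
  have hrank := TP_rank hs σ hP aP bP
  -- the member is degenerate
  obtain ⟨r, hr0, hr⟩ : ∃ r : Fin n → M, r ≠ 0 ∧ ∀ y, mB A B a b r y = 0 := by
    by_contra hcon
    push Not at hcon
    obtain ⟨y, hy, hy0⟩ := nd_sub hn (a := a) (b := b) (A := A) (B := B) hcon (TP A B P) (by omega)
    exact hy0 (hT y hy)
  have hrT : r ∈ TP A B P := rad_mem h2 hs σ hn hab (TP A B P) (by omega) hT hr
  have h2M : (2 : M) ≠ 0 := two_ne_zero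
  have hqr : mQ A B a b r = 0 := by
    have h1 := hr r
    rw [mB_self] at h1
    exact (mul_eq_zero.1 h1).resolve_left h2M
  -- an independent member
  obtain ⟨H, hH, kb, kq⟩ : ∃ H : Matrix (Fin n) (Fin n) k, (H = A ∨ H = B) ∧
      (∀ x y : Fin n → M, mB A B a b x y = 0 → bv H x y = 0 → bv A x y = 0 ∧ bv B x y = 0) ∧
      (∀ x : Fin n → M, mQ A B a b x = 0 → qv H x = 0 → qv A x = 0 ∧ qv B x = 0) := by
    by_cases hb : b = 0
    · have ha : a ≠ 0 := hab.resolve_right fun h => h hb
      refine ⟨B, Or.inr rfl, fun x y h1 h3 => ⟨?_, h3⟩, fun x h1 h3 => ⟨?_, h3⟩⟩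
      · rw [mB, h3, mul_zero, add_zero] at h1
        exact (mul_eq_zero.1 h1).resolve_left ha
      · rw [mQ, h3, mul_zero, add_zero] at h1
        exact (mul_eq_zero.1 h1).resolve_left ha
    · refine ⟨A, Or.inl rfl, fun x y h1 h3 => ⟨h3, ?_⟩, fun x h1 h3 => ⟨h3, ?_⟩⟩
      · rw [mB, h3, mul_zero, zero_add] at h1
        exact (mul_eq_zero.1 h1).resolve_left hb
      · rw [mQ, h3, mul_zero, zero_add] at h1
        exact (mul_eq_zero.1 h1).resolve_left hb
  have hHP : qv H P = 0 := by
    rcases hH with rfl | rfl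
    · exact aP
    · exact bP
  have hHT : ∀ u ∈ TP A B P, bv H P u = 0 := by
    intro u hu
    rcases hH with rfl | rfl
    · exact hu.1
    · exact hu.2
  have hmT : ∀ u ∈ TP A B P, mB A B a b P u = 0 := by
    intro u hu
    rw [mB, hu.1, hu.2, mul_zero, mul_zero, add_zero]
  have hHr : qv H r ≠ 0 := by
    intro h0
    obtain ⟨h1, h3⟩ := kq r hqr h0
    obtain ⟨h4, h5⟩ := sm_pt hs σ hr0 h1 h3 hr
    rcases hab with h6 | h6
    · exact h6 h4
    · exact h6 h5
  -- a vector in the tangent space of the member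
  obtain ⟨y, hy1, hy2⟩ := TP_surj hs σ hP aP bP b (-a)
  have hyP : mB A B a b P y = 0 := by
    rw [mB, hy1, hy2]
    ring
  have hyH : bv H P y ≠ 0 := by
    intro h0
    obtain ⟨h1, h3⟩ := kb P y hyP h0
    rw [hy1] at h1
    rw [hy2, neg_eq_zero] at h3
    rcases hab with h6 | h6
    · exact h6 h3
    · exact h6 h1
  have hyT : y ∉ TP A B P := fun h => hyH (hHT y h)
  obtain ⟨t, ht, hyt⟩ : ∃ t ∈ TP A B P, mB A B a b y t ≠ 0 := by
    by_contra hcon
    push Not at hcon
    have hrefl : (bvB A B a b).IsRefl := by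
      intro x y h
      rw [bvB_apply] at h ⊢
      rw [bv_comm A y x, bv_comm B y x]
      exact h
    have hle : TP A B P ⊔ Submodule.span M {y} ≤ (bvB A B a b).orthogonal (TP A B P) := by
      refine sup_le ?_ ?_
      · intro z hz
        rw [LinearMap.BilinForm.mem_orthogonal_iff]
        intro x hx
        change bvB A B a b x z = 0
        exact sp_pol hT x hx z hz
      · rw [Submodule.span_singleton_le_iff_mem, LinearMap.BilinForm.mem_orthogonal_iff]
        intro x hx
        change bvB A B a b x y = 0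
        have := hcon x hx
        rw [mB_comm] at this
        exact this
    have h1 := LinearMap.BilinForm.finrank_add_finrank_orthogonal hrefl (TP A B P)
    have h3 := rad_one h2 hs σ hab (TP A B P)
    have h4 : Module.finrank M (TP A B P) < Module.finrank M
        (TP A B P ⊔ Submodule.span M {y} : Submodule M (Fin n → M)) := by
      refine Submodule.finrank_lt_finrank_of_lt (lt_of_le_of_ne le_sup_left fun he => hyT ?_)
      rw [he]
      exact Submodule.mem_sup_right (Submodule.mem_span_singleton_self y)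
    have h5 := Submodule.finrank_mono hle
    rw [Module.finrank_fin_fun] at h1
    omega
  -- correct the value
  obtain ⟨y', hy'q, hy'P, hy'H⟩ : ∃ y' : Fin n → M, mQ A B a b y' = 0 ∧ mB A B a b P y' = 0 ∧
      bv H P y' ≠ 0 := by
    refine ⟨y + (-(mQ A B a b y / mB A B a b y t)) • t, ?_, ?_, ?_⟩
    · rw [mQ_add, mQ_smul, hT t ht, mB_smul_right]
      field_simp
      ring
    · rw [mB_add_right, mB_smul_right, hyP, hmT t ht]
      ring
    · rw [bv_add_right, bv_smul_right, hHT t ht, mul_zero, add_zero]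
      exact hyH
  have hPr : mB A B a b P r = 0 := hmT r hrT
  have hHPr : bv H P r = 0 := hHT r hrT
  set κ : M := bv H P y' with hκ
  set ρ : M := qv H r with hρ
  set β : M := bv H r y' with hβ
  set γ : M := qv H y' with hγ
  have hmP : mQ A B a b P = 0 := by rw [mQ, aP, bP, mul_zero, mul_zero, add_zero]
  obtain ⟨W, hW⟩ : ∃ W : M → Fin n → M, ∀ t,
      W t = -(t ^ 2 * ρ + t * β + γ) • P + (t * κ) • r + κ • y' := ⟨_, fun _ => rfl⟩
  have hmW : ∀ t, mQ A B a b (W t) = 0 := by
    intro t
    rw [hW, mQ_add, mQ_lin, mB_add, mB_smul, mB_smul, mB_smul_right, mB_smul_right, mQ_smul, hmP,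
      hqr, hy'q, hPr, hy'P, hr y']
    ring
  have hHW : ∀ t, qv H (W t) = 0 := by
    intro t
    rw [hW, qv_add, qv_lin, bv_add, bv_smul, bv_smul, bv_smul_right, bv_smul_right, qv_smul, hHP,
      hHPr, ← hρ, ← hκ, ← hβ, ← hγ]
    ring
  have hPW : ∀ t, mB A B a b P (W t) = 0 := by
    intro t
    rw [hW, mB_add_right, mB_add_right, mB_smul_right, mB_smul_right, mB_smul_right, mB_self, hmP,
      hPr, hy'P]
    ring
  have hHPW : ∀ t, bv H P (W t) = κ ^ 2 := by
    intro t
    rw [hW, bv_add_right, bv_add_right, bv_smul_right, bv_smul_right, bv_smul_right, bv_self, hHP,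
      hHPr, ← hκ]
    ring
  have hκ2 : κ ^ 2 ≠ 0 := pow_ne_zero 2 hy'H
  have hbv0 : ∀ H' : Matrix (Fin n) (Fin n) k, bv H' P (0 : Fin n → M) = 0 := by
    intro H'
    have h1 := bv_smul_right H' (0 : M) P (0 : Fin n → M)
    rwa [zero_smul, zero_mul] at h1
  -- the choice of the parameter
  obtain ⟨m, φ, hφ⟩ := exists_NF (Ω := Ω) h2 hs hn
  set σP : Fin n → Ω := fun j => σ (P j) with hσP
  set σr : Fin n → Ω := fun j => σ (r j) with hσr
  set σy : Fin n → Ω := fun j => σ (y' j) with hσy
  have hσP0 : σP ≠ 0 := by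
    intro h0
    exact hP (funext fun i => (map_eq_zero σ).1 (congrFun h0 i))
  have hσr0 : σr ≠ 0 := by
    intro h0
    exact hr0 (funext fun i => (map_eq_zero σ).1 (congrFun h0 i))
  have hσab : σ a ≠ 0 ∨ σ b ≠ 0 := by
    rcases hab with h | h
    · exact Or.inl ((map_ne_zero σ).2 h)
    · exact Or.inr ((map_ne_zero σ).2 h)
  have hpt : ∀ i, φ i σP ≠ 0 ∨ φ i σr ≠ 0 := fun i =>
    hφ.pt i σP hσP0 ((zer_iff A B).2 ⟨by rw [hσP, qv_hom, aP, map_zero],
      by rw [hσP, qv_hom, bP, map_zero]⟩) (σ a) (σ b) hσab (sp_ext hs σ hP aP bP hT) σr hσr0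
      (rad_ext σ hr)
  let pp : Fin m → Polynomial Ω := fun i =>
    Polynomial.C (-(σ ρ * φ i σP)) * Polynomial.X ^ 2 +
      Polynomial.C (-(σ β * φ i σP) + σ κ * φ i σr) * Polynomial.X +
      Polynomial.C (-(σ γ * φ i σP) + σ κ * φ i σy)
  have hpp : ∀ i, pp i ≠ 0 := by
    intro i h0
    have c2 := congrArg (fun q => Polynomial.coeff q 2) h0
    have c1 := congrArg (fun q => Polynomial.coeff q 1) h0
    simp only [pp, Polynomial.coeff_add, Polynomial.coeff_C_mul, Polynomial.coeff_X_pow,
      Polynomial.coeff_X, Polynomial.coeff_C, Polynomial.coeff_zero] at c2 c1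
    norm_num at c2 c1
    have c3 : φ i σP = 0 := by
      rcases c2 with h | h
      · exact absurd h hHr
      · exact h
    rw [c3] at c1
    rcases hpt i with h | h
    · exact h c3
    · have hκ0 : σ κ ≠ 0 := (map_ne_zero σ).2 hy'H
      apply mul_ne_zero hκ0 h
      linear_combination c1
  have hprod : ∏ i, pp i ≠ 0 := Finset.prod_ne_zero_iff.2 fun i _ => hpp i
  obtain ⟨N, hN⟩ : ∃ N : ℕ, (∏ i, pp i).eval (N : Ω) ≠ 0 := by
    by_contra hcon
    push Not at hcon
    apply hprod
    refine Polynomial.eq_zero_of_infinite_isRoot _ ?_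
    refine (Set.infinite_range_of_injective (Nat.cast_injective (R := Ω))).mono ?_
    rintro _ ⟨N, rfl⟩
    exact hcon N
  rw [Polynomial.eval_prod, Finset.prod_ne_zero_iff] at hN
  have hWσ : ∀ i, φ i (fun j => σ (W (N : M) j)) ≠ 0 := by
    intro i
    have h1 : (fun j => σ (W (N : M) j)) =
        -((N : Ω) ^ 2 * σ ρ + (N : Ω) * σ β + σ γ) • σP + ((N : Ω) * σ κ) • σr + σ κ • σy := by
      funext j
      rw [hW]
      simp only [hσP, hσr, hσy, Pi.add_apply, Pi.smul_apply, smul_eq_mul, map_add, map_mul,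
        map_neg, map_pow, map_natCast]
    rw [h1, map_add, map_add, map_smul, map_smul, map_smul, smul_eq_mul, smul_eq_mul, smul_eq_mul]
    have h3 := hN i (Finset.mem_univ i)
    intro h4
    apply h3
    simp only [pp, Polynomial.eval_add, Polynomial.eval_mul, Polynomial.eval_C,
      Polynomial.eval_pow, Polynomial.eval_X]
    linear_combination h4
  set w : Fin n → M := W (N : M) with hw
  have hwA := (kq w (hmW _) (hHW _))
  have hzw : Zer (Pl A B) M w := (zer_iff A B).2 hwA
  have hw0 : w ≠ 0 := by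
    intro h0
    have h1 := hHPW (N : M)
    rw [← hw, h0, hbv0] at h1
    exact hκ2 h1.symm
  have hbw : bv A P w ≠ 0 ∨ bv B P w ≠ 0 := by
    by_contra hcon
    push Not at hcon
    have h1 := hHPW (N : M)
    rw [← hw] at h1
    rcases hH with rfl | rfl
    · exact hκ2 (by rw [← h1]; exact hcon.1)
    · exact hκ2 (by rw [← h1]; exact hcon.2)
  obtain ⟨c, hc, hc1, hc2⟩ := prop_of_mB hab hbw (hPW (N : M))
  refine ⟨w, r, hw0, hzw, hφ.ns M σ w hw0 hzw hWσ, hbw, ⟨hP, aP, bP, hrT.1, hrT.2, ?_, ?_⟩⟩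
  · have h1 : c * mQ A B (bv B P w) (-bv A P w) r = 0 := by
      rw [← mQ_scale, ← hc1, ← hc2]
      exact hqr
    exact (mul_eq_zero.1 h1).resolve_left hc
  · rintro ⟨h1, h3⟩
    apply hHr
    rcases hH with rfl | rfl
    · exact h1
    · exact h3

/-- Proof: `exists_ns_pt`, `propT`. -/
theorem exists_ns [FiniteDimensional k M] (hs : Sm Ω A B) (hn : 5 ≤ n) {P : Fin n → M} (hP : P ≠ 0)
    (zP : Zer (Pl A B) M P) : ∃ (W : Fin n → M) (hW : W ≠ 0), Zer (Pl A B) M W ∧ NS A B W ∧
      trPt k Ω (Projectivization.mk M W hW) - trPt k Ω (Projectivization.mk M P hP) ∈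
        ratEq Ω (Pl A B) := by
  obtain ⟨σ, -⟩ : ∃ σ : M →ₐ[k] Ω, True := ⟨IsAlgClosed.lift, trivial⟩
  rcases exists_ns_pt hs σ hn hP zP with h | ⟨W, u, hW, zW, h, h1, h2⟩
  · exact ⟨P, hP, zP, h, by rw [sub_self]; exact AddSubgroup.zero_mem _⟩
  · exact ⟨W, hW, zW, h, propT hs hn hW zW h1 h2⟩

end Dq
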