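import Pool.Agent.Lib.MP_f80667_ag.Dq.Glob5
import Pool.Agent.Lib.MP_f80667_ag.Dq.RepV
import Pool.Agent.Lib.MP_f80667_ag.Dp.Surj

/-! The image of the diagonal map for smooth intersections of two quadrics in five variables. -/

open NumberField IsDedekindDomain
open scoped LinearAlgebra.Projectivization

namespace Dq

open ZC Tq Dp

section aux

variable {K : Type} [Field K] {m : ℕ} {κ : Type} {h : κ → MvPolynomial (Fin m) K}

theorem surj5_eqb {x y : Z1 K h} (H : x.1 - y.1 ∈ ratEq (AlgebraicClosure K) h ⊔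
    normCyc (AlgebraicClosure K) h) : G1b.cls x = G1b.cls y := by
  refine QuotientAddGroup.eq.2 ?_
  rw [AddSubgroup.mem_addSubgroupOf]
  have h1 := AddSubgroup.neg_mem _ H
  rw [neg_sub, sub_eq_neg_add] at h1
  exact h1

end aux

variable {F : Type} [Field F] [NumberField F] {A B : Matrix (Fin 5) (Fin 5) F}

/-- A tensor over `M` and a multiple of a tensor over `M'`, of the same degree, give a zero-cycle of
degree `0` over `F`. -/
theorem exists_cyc5 (hh : ∀ j, ∃ d, (Pl A B j).IsHomogeneous d) {M M' : Type} [Field M]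
    [Algebra F M] [FiniteDimensional F M] [Field M'] [Algebra F M'] [FiniteDimensional F M']
    {m : ℕ} (hd : Module.finrank F M = m * Module.finrank F M') {a b : M} (hab : a ≠ 0 ∨ b ≠ 0)
    {a' b' : M'} (hab' : a' ≠ 0 ∨ b' ≠ 0) {t : ℙ M (Fin (5 * 5) → M)}
    {t' : ℙ M' (Fin (5 * 5) → M')} (ht : IsM A B a b t) (ht' : IsM A B a' b' t') :
    ∃ c : Z1 F (Pl A B), ∀ (E : Type) [Field E] [Algebra F E],
      (bcZ E hh c).1 = ∑ σ : M →ₐ[F] AlgebraicClosure E, Ph (mapPt (σ : M →+* _) t) -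
        m • ∑ σ : M' →ₐ[F] AlgebraicClosure E, Ph (mapPt (σ : M' →+* _) t') := by
  have : CharZero M := charZero_of_injective_algebraMap (algebraMap F M).injective
  have : CharZero M' := charZero_of_injective_algebraMap (algebraMap F M').injective
  obtain ⟨q, y, hL⟩ := ht
  obtain ⟨p, x, hL1, hp, -⟩ := hL.exists_np
  have hT := hL1.isT hab hp
  obtain ⟨q', y', hL'⟩ := ht'
  obtain ⟨p', x', hL1', hp', -⟩ := hL'.exists_np
  have hT' := hL1'.isT hab' hp'
  have h1 := Ts.PhL_mem (F := F) (Ω := AlgebraicClosure F) hT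
  have h2 := Ts.PhL_mem (F := F) (Ω := AlgebraicClosure F) hT'
  have h3 : PhL (trPt F (AlgebraicClosure F) t) - m • PhL (trPt F (AlgebraicClosure F) t') ∈
      D0 F (Pl A B) := by
    refine AddSubgroup.mem_inf.2 ⟨sub_mem h1.1 (nsmul_mem h2.1 m), ?_⟩
    rw [AddMonoidHom.mem_ker, map_sub, map_nsmul, h1.2, h2.2, hd]
    push_cast
    rw [nsmul_eq_mul]
    ring
  refine ⟨⟨_, h3⟩, fun E _ _ => ?_⟩
  have h4 := Ts.bc_PhL (emb' F E) hT
  have h5 := Ts.bc_PhL (emb' F E) hT'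
  have h6 := map_sub (bc (N := 5) (emb' F E)) (PhL (trPt F (AlgebraicClosure F) t))
    (m • PhL (trPt F (AlgebraicClosure F) t'))
  rw [map_nsmul, h4, h5] at h6
  exact h6

omit [NumberField F] in
theorem surj5_rat {E : Type} [Field E] [Algebra F E]
    {c : ℙ (AlgebraicClosure E) (Fin 5 → AlgebraicClosure E) →₀ ℤ} :
    c ∈ ratEq (AlgebraicClosure E) (hE E (Pl A B)) ↔
      c ∈ ratEq (AlgebraicClosure E) (Pl (A.map (algebraMap F E)) (B.map (algebraMap F E))) := by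
  rw [Ts.hE_Pl]

omit [NumberField F] in
theorem surj5_ratn {E : Type} [Field E] [Algebra F E]
    {c : ℙ (AlgebraicClosure E) (Fin 5 → AlgebraicClosure E) →₀ ℤ} :
    c ∈ ratEq (AlgebraicClosure E) (hE E (Pl A B)) ⊔
        normCyc (AlgebraicClosure E) (hE E (Pl A B)) ↔
      c ∈ ratEq (AlgebraicClosure E) (Pl (A.map (algebraMap F E)) (B.map (algebraMap F E))) ⊔
        normCyc (AlgebraicClosure E) (Pl (A.map (algebraMap F E)) (B.map (algebraMap F E))) := by
  rw [Ts.hE_Pl]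

/-- Even multiples of the cycle of a line are norms at the real places. -/
theorem even_norm (hh : ∀ j, ∃ d, (Pl A B j).IsHomogeneous d) (v : InfinitePlace F)
    (hv : v.IsReal) {K₀ : Type} [Field K₀] [Algebra F K₀]
    [FiniteDimensional F K₀] {a b : K₀} (hab : a ≠ 0 ∨ b ≠ 0) {t : ℙ K₀ (Fin (5 * 5) → K₀)}
    (ht : IsM A B a b t) {m : ℕ} (hm : Even m) :
    m • (∑ σ : K₀ →ₐ[F] AlgebraicClosure (IK F v),
      Ph (mapPt (σ : K₀ →+* AlgebraicClosure (IK F v)) t)) ∈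
      normCyc (AlgebraicClosure (IK F v))
        (Pl (A.map (algebraMap F (IK F v))) (B.map (algebraMap F (IK F v)))) := by
  have : CharZero (IK F v) := charZero_of_injective_algebraMap (algebraMap F (IK F v)).injective
  have : CharZero K₀ := charZero_of_injective_algebraMap (algebraMap F K₀).injective
  obtain ⟨q, y, hL⟩ := ht
  obtain ⟨p, x, hL1, hp, -⟩ := hL.exists_np
  have hT := hL1.isT hab hp
  have h1 := Ts.PhL_mem (F := F) (Ω := AlgebraicClosure F) hT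
  have h2 : bc (emb' F (IK F v)) (PhL (trPt F (AlgebraicClosure F) t)) ∈
      cyc (AlgebraicClosure (IK F v)) (hE (IK F v) (Pl A B)) :=
    bc_mem (emb' F (IK F v)) hh h1.1
  rw [Ts.bc_PhL (emb' F (IK F v)) hT, Ts.hE_Pl] at h2
  obtain ⟨k, rfl⟩ := hm
  have h3 := nsmul_mem (two_cyc (finrank_IK F v hv) h2) k
  rw [← mul_nsmul'] at h3
  rw [← mul_two]
  exact h3

/-- **The image of the diagonal map.** `z1`, `z2`: representatives of the local classes; the condition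
`H` on all local data with these classes. -/
theorem surj5 (hs : ∀ x : Fin 5 → AlgebraicClosure F, x ≠ 0 →
      Zer (Pl A B) (AlgebraicClosure F) x →
      LinearIndependent (AlgebraicClosure F) fun (i : Fin 2) (j : Fin 5) =>
        MvPolynomial.aeval x (MvPolynomial.pderiv j (Pl A B i)))
    (hA : ND A B (1 : F) 0) (hB : ND A B (0 : F) 1)
    (hh : ∀ j, ∃ d, (Pl A B j).IsHomogeneous d) {wv : Fin 5 → F}
    {ι : Type} [Fintype ι] {K : ι → Type} [∀ i, Field (K i)] [∀ i, NumberField (K i)]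
    [∀ i, Algebra F (K i)] {θ : ∀ i, K i} (hres : Res (mf A B) K θ)
    {δ : ∀ i, (K i)ˣ} (hδ : ∀ i, (δ i : K i) = Polynomial.aeval (θ i) (dlp A B wv))
    {Sb : Finset (HeightOneSpectrum (𝓞 F))} (hSb : ∀ v ∉ Sb, Gd A B wv K θ v)
    (hSb1 : ∀ v ∉ Sb, Subsingleton (G1 (FK F v) (hE (FK F v) (Pl A B))))
    (z1 : ∀ v : HeightOneSpectrum (𝓞 F), Z1 (FK F v) (hE (FK F v) (Pl A B)))
    (z2 : ∀ v : InfinitePlace F, Z1 (IK F v) (hE (IK F v) (Pl A B)))
    (H : ∀ (K₀ : Type) [Field K₀] [Algebra F K₀] [FiniteDimensional F K₀] (a b : K₀)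
      (t : ℙ K₀ (Fin (5 * 5) → K₀)), ND A B a b → IsM A B a b t → ∀ m m' : ℕ, Even m → Even m' →
      ∀ (P₀ : ∀ v : HeightOneSpectrum (𝓞 F), Polynomial (FK F v))
        (R₀ : ∀ v : InfinitePlace F, Polynomial (IK F v))
        (w₁ : ∀ v : HeightOneSpectrum (𝓞 F), ℙ (AlgebraicClosure (FK F v))
          (Fin 5 → AlgebraicClosure (FK F v)) →₀ ℤ)
        (w₂ : ∀ v : InfinitePlace F, ℙ (AlgebraicClosure (IK F v))
          (Fin 5 → AlgebraicClosure (IK F v)) →₀ ℤ),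
      (∀ v ∈ Sb, (P₀ v).natDegree = m * Module.finrank F K₀ ∧
        Dat (A.map (algebraMap F (FK F v))) (B.map (algebraMap F (FK F v))) (P₀ v) (w₁ v) ∧
        (z1 v).1 + m • (∑ σ : K₀ →ₐ[F] AlgebraicClosure (FK F v),
          Ph (mapPt (σ : K₀ →+* _) t)) - w₁ v ∈
            ratEq (AlgebraicClosure (FK F v)) (hE (FK F v) (Pl A B))) →
      (∀ v, v.IsReal → (R₀ v).natDegree = m' * Module.finrank F K₀ ∧
        Dat (A.map (algebraMap F (IK F v))) (B.map (algebraMap F (IK F v))) (R₀ v) (w₂ v) ∧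
        (z2 v).1 + m' • (∑ σ : K₀ →ₐ[F] AlgebraicClosure (IK F v),
          Ph (mapPt (σ : K₀ →+* _) t)) - w₂ v ∈
            ratEq (AlgebraicClosure (IK F v)) (hE (IK F v) (Pl A B))) →
      HypH θ δ Sb P₀ R₀) :
    ∃ c : G1 F (Pl A B), dl (h := Pl A B) hh c = (fun v => G1.cls (z1 v), fun v =>
      G1b.cls (z2 v)) := by
  classical
  have hsF : Sm (AlgebraicClosure F) A B := by
    have h := Ts.sm_ext A B hs F (AlgebraicClosure F) (RingHom.id F)
    have e : ∀ H : Matrix (Fin 5) (Fin 5) F, H.map (RingHom.id F) = H := fun H => rfl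
    rwa [e, e] at h
  obtain ⟨K₀, _, _, _, a, b, t₀, hnd, ht₀⟩ := exists_line_fin (F := F) (n := 5) hsF le_rfl
  have hab : a ≠ 0 ∨ b ≠ 0 := by
    by_contra hcon
    push Not at hcon
    obtain ⟨y, hy⟩ := hnd (fun _ => 1) (fun h0 => one_ne_zero (congrFun h0 0))
    rw [hcon.1, hcon.2, mB, zero_mul, zero_mul, add_zero] at hy
    exact hy rfl
  have hfr : 0 < Module.finrank F K₀ := Module.finrank_pos
  choose N1 hN1 using fun v => repM_FK le_rfl hs hnd ht₀ v (z1 v)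
  have hN2 : ∀ v : InfinitePlace F, ∃ m₀ : ℕ, v.IsReal → ∀ m, m₀ ≤ m →
      ∃ (P : Polynomial (IK F v))
      (z' : ℙ (AlgebraicClosure (IK F v)) (Fin 5 → AlgebraicClosure (IK F v)) →₀ ℤ),
      P.natDegree = m * Module.finrank F K₀ ∧
      Dat (A.map (algebraMap F (IK F v))) (B.map (algebraMap F (IK F v))) P z' ∧
      (z2 v).1 + m • (∑ σ : K₀ →ₐ[F] AlgebraicClosure (IK F v), Ph (mapPt (σ : K₀ →+* _) t₀)) -
        z' ∈ ratEq (AlgebraicClosure (IK F v)) (hE (IK F v) (Pl A B)) := by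
    intro v
    by_cases hv : v.IsReal
    · obtain ⟨m₀, h⟩ := repM_IK le_rfl hs hnd ht₀ v hv (z2 v)
      exact ⟨m₀, fun _ => h⟩
    · exact ⟨0, fun h => absurd h hv⟩
  choose N2 hN2 using hN2
  obtain ⟨m', hm'ev, hm'⟩ : ∃ m' : ℕ, Even m' ∧ ∀ v, N2 v ≤ m' := by
    refine ⟨2 * ∑ v, N2 v, even_two_mul _, fun v => ?_⟩
    have h1 : N2 v ≤ ∑ v, N2 v :=
      Finset.single_le_sum (fun _ _ => Nat.zero_le _) (Finset.mem_univ v)
    omega
  obtain ⟨m, hmev, hm15, hm, hmm⟩ : ∃ m : ℕ, Even m ∧ m' + 16 ≤ m ∧ (∀ v ∈ Sb, N1 v ≤ m) ∧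
      m' ≤ m := by
    refine ⟨2 * (∑ v ∈ Sb, N1 v + m' + 16), even_two_mul _, by omega, fun v hv => ?_, by omega⟩
    have h1 : N1 v ≤ ∑ v ∈ Sb, N1 v := Finset.single_le_sum (fun _ _ => Nat.zero_le _) hv
    omega
  have hfam1 : ∀ v : HeightOneSpectrum (𝓞 F), ∃ (P : Polynomial (FK F v))
      (w : ℙ (AlgebraicClosure (FK F v)) (Fin 5 → AlgebraicClosure (FK F v)) →₀ ℤ), v ∈ Sb →
      P.natDegree = m * Module.finrank F K₀ ∧
      Dat (A.map (algebraMap F (FK F v))) (B.map (algebraMap F (FK F v))) P w ∧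
      (z1 v).1 + m • (∑ σ : K₀ →ₐ[F] AlgebraicClosure (FK F v), Ph (mapPt (σ : K₀ →+* _) t₀)) -
        w ∈ ratEq (AlgebraicClosure (FK F v)) (hE (FK F v) (Pl A B)) := by
    intro v
    by_cases hv : v ∈ Sb
    · obtain ⟨P, w, h⟩ := hN1 v m (hm v hv)
      exact ⟨P, w, fun _ => h⟩
    · exact ⟨0, 0, fun h => absurd h hv⟩
  have hfam2 : ∀ v : InfinitePlace F, ∃ (P : Polynomial (IK F v))
      (w : ℙ (AlgebraicClosure (IK F v)) (Fin 5 → AlgebraicClosure (IK F v)) →₀ ℤ), v.IsReal →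
      P.natDegree = m' * Module.finrank F K₀ ∧
      Dat (A.map (algebraMap F (IK F v))) (B.map (algebraMap F (IK F v))) P w ∧
      (z2 v).1 + m' • (∑ σ : K₀ →ₐ[F] AlgebraicClosure (IK F v), Ph (mapPt (σ : K₀ →+* _) t₀)) -
        w ∈ ratEq (AlgebraicClosure (IK F v)) (hE (IK F v) (Pl A B)) := by
    intro v
    by_cases hv : v.IsReal
    · obtain ⟨P, w, h⟩ := hN2 v hv m' (hm' v)
      exact ⟨P, w, fun _ => h⟩
    · exact ⟨0, 0, fun h => absurd h hv⟩
  choose P₀ w₁ hP using hfam1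
  choose R₀ w₂ hQ using hfam2
  have hHyp := H K₀ a b t₀ hnd ht₀ m m' hmev hm'ev P₀ R₀ w₁ w₂ hP hQ
  have hle1 : (m' + 16) * Module.finrank F K₀ ≤ m * Module.finrank F K₀ :=
    Nat.mul_le_mul_right _ hm15
  have hle2 : m' * Module.finrank F K₀ + 16 ≤ (m' + 16) * Module.finrank F K₀ := by
    nlinarith
  obtain ⟨M, _, _, _, α, t, hM, ht, ht1, ht2⟩ := exists_glob5 hsF hA hB hres hδ hSb
    (N := m * Module.finrank F K₀) (by omega) P₀ R₀ w₁ w₂
    (fun v hv => ⟨(hP v hv).1, (hP v hv).2.1⟩)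
    (fun v hv => ⟨by rw [(hQ v hv).1]; omega, by
      rw [(hQ v hv).1, ← Nat.sub_mul]
      exact (hmev.tsub hm'ev).mul_right _, (hQ v hv).2.1⟩) hHyp
  obtain ⟨c, hc⟩ := exists_cyc5 hh hM (Or.inl one_ne_zero) hab ht ht₀
  refine ⟨G1.cls c, Prod.ext (funext fun v => ?_) (funext fun v => ?_)⟩
  · change dl1 (FK F v) hh (G1.cls c) = G1.cls (z1 v)
    by_cases hv : v ∈ Sb
    · rw [dl1_cls]
      refine surj6_eq ?_
      have h1 := sub_mem (ht1 v hv) (surj5_rat.1 (hP v hv).2.2)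
      rw [hc]
      refine surj5_rat.2 ?_
      convert h1 using 1
      abel
    · have h1 : Subsingleton (G1 (FK F v) (hE (FK F v) (Pl A B))) := hSb1 v hv
      exact Subsingleton.elim _ _
  · change dl1b (IK F v) hh (G1.cls c) = G1b.cls (z2 v)
    by_cases hv : v.IsReal
    · rw [dl1b_cls]
      refine surj5_eqb ?_
      have h1 := sub_mem (ht2 v hv) (AddSubgroup.mem_sup_left (surj5_rat.1 (hQ v hv).2.2))
      have h2 := even_norm hh v hv hab ht₀ (hmev.tsub hm'ev)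
      have h3 := sub_mem h1 (AddSubgroup.mem_sup_right h2)
      rw [hc]
      refine surj5_ratn.2 ?_
      convert h3 using 1
      rw [sub_nsmul _ hmm]
      abel
    · have h1 := (sub_G1b (A := fun i : Fin 0 => (i.elim0 : Matrix (Fin 0) (Fin 0)
        (MvPolynomial (Fin 5) F))) hh v (Or.inl (InfinitePlace.not_isReal_iff_isComplex.1 hv))).1
      exact Subsingleton.elim _ _

end Dq
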