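import Pool.Agent.Lib.MP_f80667_ag.Dq.ULk
import Pool.Agent.Lib.MP_f80667_ag.Dq.Lift

/-!
Totally isotropic planes of quadratic forms in five variables over the fraction field `E` of a complete
discrete valuation ring `R` with finite residue field of characteristic not `2`.
-/

open IsLocalRing

namespace Dq

open ZC Dp Matrix

universe u

variable {R E : Type u} [CommRing R] [IsDomain R] [IsDiscreteValuationRing R]
  [IsAdicComplete (maximalIdeal R) R] [Finite (ResidueField R)] [Field E] [Algebra R E]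
  [IsFractionRing R E] {G : Matrix (Fin 5) (Fin 5) R}

/-- the index of the three equations among the five of `htM` -/
private def ulI : Fin 3 → Fin 5 := ![0, 2, 4]

private theorem ul_lin {k : Type u} [Field k] {A B : Matrix (Fin 5) (Fin 5) k} {a b : k}
    (ha : a = 1) (hb : b = 0) {p x : Fin 5 → k}
    (hr : ∀ α β : k, (∀ y, bv A (α • p + β • x) y = 0) → α = 0 ∧ β = 0) :
    LinearIndependent k (fun i : Fin 3 => (htN A B a b (ulI i) + (htN A B a b (ulI i))ᵀ) *ᵥ
      (Sum.elim p x ∘ finSumFinEquiv.symm)) := by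
  rw [Fintype.linearIndependent_iff]
  intro g hg
  have key : ∀ w : Fin 5 ⊕ Fin 5 → k, ∑ i : Fin 3, g i *
      (w ⬝ᵥ (htM A B a b (ulI i) *ᵥ Sum.elim p x) +
        Sum.elim p x ⬝ᵥ (htM A B a b (ulI i) *ᵥ w)) = 0 := by
    intro w
    have h1 : (w ∘ finSumFinEquiv.symm) ⬝ᵥ (∑ i : Fin 3, g i • ((htN A B a b (ulI i) +
        (htN A B a b (ulI i))ᵀ) *ᵥ (Sum.elim p x ∘ finSumFinEquiv.symm))) = 0 := by
      rw [hg, dotProduct_zero]
    rw [dotProduct_sum] at h1
    rw [← h1]
    refine Finset.sum_congr rfl fun i _ => ?_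
    rw [dotProduct_smul, smul_eq_mul, add_mulVec, dotProduct_add, ht_bil]
    congr 2
    rw [dotProduct_mulVec (w ∘ _), vecMul_transpose, dotProduct_comm (htN A B a b _ *ᵥ _), ht_bil]
  have k1 : ∀ y : Fin 5 → k, g 0 * bv A p y + g 1 * bv A x y = 0 := by
    intro y
    have h1 := key (Sum.elim y 0)
    have v1 := ht_val A B a b y 0 p x
    have v2 := ht_val A B a b p x y 0
    simp only [funext_iff] at v1 v2
    simp only [v1, v2, Fin.sum_univ_three, ulI, cons_val, zero_dotProduct, mulVec_zero,
      dotProduct_zero] at h1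
    rw [← ht_bv, ← ht_bv]
    linear_combination h1
  have k2 : ∀ y : Fin 5 → k, g 1 * bv A p y + g 2 * bv A x y = 0 := by
    subst ha hb
    intro y
    have h1 := key (Sum.elim 0 y)
    have v1 := ht_val A B 1 0 0 y p x
    have v2 := ht_val A B 1 0 p x 0 y
    simp only [funext_iff] at v1 v2
    simp only [v1, v2, Fin.sum_univ_three, ulI, cons_val, zero_dotProduct, mulVec_zero,
      dotProduct_zero] at h1
    rw [← ht_bv, ← ht_bv]
    linear_combination h1
  have hlin : ∀ α β : k, ∀ y, bv A (α • p + β • x) y = α * bv A p y + β * bv A x y := by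
    intro α β y
    rw [bv_add, bv_smul, bv_smul]
  obtain ⟨e0, e1⟩ := hr (g 0) (g 1) (fun y => by rw [hlin, k1])
  obtain ⟨-, e2⟩ := hr (g 1) (g 2) (fun y => by rw [hlin, k2])
  intro i
  fin_cases i
  · exact e0
  · exact e1
  · exact e2

private theorem ul_rad {k : Type*} [Field k] {n : ℕ} {A : Matrix (Fin n) (Fin n) k}
    {z : Fin n → k} (h : ∀ y, bv A z y = 0) : (A + Aᵀ) *ᵥ z = 0 := by
  refine dotProduct_eq_zero _ fun y => ?_
  rw [← h y, ← ht_bv, add_mulVec, add_dotProduct, dotProduct_comm (A *ᵥ z) y,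
    mulVec_transpose, ← dotProduct_mulVec]

private theorem ul_map (M : Matrix (Fin 5) (Fin 5) R) :
    (M + Mᵀ).map (residue R) = M.map (residue R) + (M.map (residue R))ᵀ := by
  ext i j
  simp

/-- Lifting of a plane which does not meet the radical. Proof: `hensel_quad` (`HensQ.lean`) for the three
forms `qr G p`, `qr G x`, `br G p x` in the `10` variables `(p, x)` (template `Dp/HensT.lean`); a relation
`α bv p y + γ bv x y = 0`, `γ bv p y + β bv x y = 0` for all `y` gives `α = γ = β = 0` by `hr`. Linear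
independence over `E`: a relation between the lifts can be scaled such that one coefficient is a unit
and the other in `R` (or a `2`-minor is a unit). -/
theorem lift_plane {p x : Fin 5 → ResidueField R}
    (hi : LinearIndependent (ResidueField R) ![p, x]) (hp : qv (G.map (residue R)) p = 0)
    (hx : qv (G.map (residue R)) x = 0) (hpx : bv (G.map (residue R)) p x = 0)
    (hr : ∀ a b : ResidueField R, (∀ y, bv (G.map (residue R)) (a • p + b • x) y = 0) →
      a = 0 ∧ b = 0) : TI2 (G.map (algebraMap R E)) := by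
  have hlin := ul_lin (A := G.map (residue R)) (B := (0 : Matrix (Fin 5) (Fin 5) R).map (residue R))
    (map_one (residue R)) (map_zero (residue R)) hr
  obtain ⟨y, hy1, hy2⟩ := Pool.Agent.Lib.MP_f80667_ag.hensel_quad
    (fun i => htN G 0 1 0 (ulI i))
    (Sum.elim p x ∘ finSumFinEquiv.symm) (fun i => by
      rw [htN_map, ht_bil]
      have v := ht_val (G.map (residue R)) ((0 : Matrix (Fin 5) (Fin 5) R).map (residue R))
        (residue R 1) (residue R 0) p x p x
      simp only [funext_iff] at v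
      rw [v]
      have e1 := ht_bv (G.map (residue R)) p x
      rw [← ht_qv] at hp hx
      fin_cases i
      · exact hp
      · show p ⬝ᵥ _ + x ⬝ᵥ _ = 0
        rw [← hpx, ← e1, add_comm]
      · show residue R 1 * (x ⬝ᵥ _) + residue R 0 * (x ⬝ᵥ _) = 0
        rw [map_zero, zero_mul, add_zero, hx, mul_zero]) (by
      simp only [htN_map]
      exact hlin)
  obtain ⟨P0, hP0⟩ : ∃ P0 : Fin 5 → R, P0 = fun i => y (finSumFinEquiv (Sum.inl i)) := ⟨_, rfl⟩
  obtain ⟨u0, hu0⟩ : ∃ u0 : Fin 5 → R, u0 = fun i => y (finSumFinEquiv (Sum.inr i)) := ⟨_, rfl⟩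
  have hy : y = Sum.elim P0 u0 ∘ finSumFinEquiv.symm := by
    funext i
    obtain ⟨j, rfl⟩ := finSumFinEquiv.surjective i
    rcases j with j | j <;>
      simp only [hP0, hu0, Function.comp_apply, Equiv.symm_apply_apply, Sum.elim_inl, Sum.elim_inr]
  have hrP : ∀ i, residue R (P0 i) = p i := by
    intro i
    rw [hP0]
    simp only [hy1, Function.comp_apply, Equiv.symm_apply_apply, Sum.elim_inl]
  have hru : ∀ i, residue R (u0 i) = x i := by
    intro i
    rw [hu0]
    simp only [hy1, Function.comp_apply, Equiv.symm_apply_apply, Sum.elim_inr]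
  have hv : ∀ i, Sum.elim P0 u0 ⬝ᵥ (htM G 0 1 0 (ulI i) *ᵥ Sum.elim P0 u0) = 0 := by
    intro i
    have := hy2 i
    rwa [hy, ht_bil] at this
  have v := ht_val G 0 1 0 P0 u0 P0 u0
  simp only [funext_iff] at v
  have f0 := (v 0).symm.trans (hv 0)
  have f1 := (v 2).symm.trans (hv 1)
  have f2 := (v 4).symm.trans (hv 2)
  simp only [Matrix.cons_val, one_mul, zero_mul, add_zero] at f0 f1 f2
  have hinj : Function.Injective (algebraMap R E) := IsFractionRing.injective R E
  have hA : ∀ z : Fin 5 → R, qv (G.map (algebraMap R E)) (fun i => algebraMap R E (z i)) =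
      algebraMap R E (z ⬝ᵥ (G *ᵥ z)) := by
    intro z
    rw [← ht_qv, ht_hom]
  have hAb : ∀ z w : Fin 5 → R, bv (G.map (algebraMap R E)) (fun i => algebraMap R E (z i))
      (fun i => algebraMap R E (w i)) = algebraMap R E (z ⬝ᵥ (G *ᵥ w) + w ⬝ᵥ (G *ᵥ z)) := by
    intro z w
    rw [← ht_bv, ht_hom, ht_hom, ← map_add, add_comm]
  refine ⟨fun i => algebraMap R E (P0 i), fun i => algebraMap R E (u0 i), ?_, ?_, ?_, ?_⟩
  · rw [LinearIndependent.pair_iff] at hi ⊢
    intro α β hαβ
    by_contra hcon
    have hab : α ≠ 0 ∨ β ≠ 0 := by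
      by_contra h
      push Not at h
      exact hcon h
    obtain ⟨c, a', b', hc, ha, hb, hab'⟩ : ∃ (c : E) (a' b' : R), c ≠ 0 ∧
        c * α = algebraMap R E a' ∧ c * β = algebraMap R E b' ∧ (a' = 1 ∨ b' = 1) := by
      by_cases h0 : β = 0
      · have h1 : α ≠ 0 := hab.resolve_right (not_not.2 h0)
        exact ⟨α⁻¹, 1, 0, inv_ne_zero h1, by rw [inv_mul_cancel₀ h1, map_one],
          by rw [h0, mul_zero, map_zero], Or.inl rfl⟩
      by_cases h1 : α = 0
      · exact ⟨β⁻¹, 0, 1, inv_ne_zero h0, by rw [h1, mul_zero, map_zero],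
          by rw [inv_mul_cancel₀ h0, map_one], Or.inr rfl⟩
      rcases ValuationRing.isInteger_or_isInteger R (α / β) with ⟨t, ht⟩ | ⟨t, ht⟩
      · exact ⟨β⁻¹, t, 1, inv_ne_zero h0, by rw [ht, div_eq_inv_mul],
          by rw [inv_mul_cancel₀ h0, map_one], Or.inr rfl⟩
      · exact ⟨α⁻¹, 1, t, inv_ne_zero h1, by rw [inv_mul_cancel₀ h1, map_one],
          by rw [ht, inv_div, div_eq_inv_mul], Or.inl rfl⟩
    have h1 : ∀ i, a' * P0 i + b' * u0 i = 0 := by
      intro i
      apply hinj
      have h2 := congrFun hαβ i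
      simp only [Pi.add_apply, Pi.smul_apply, smul_eq_mul, Pi.zero_apply] at h2
      rw [map_add, map_mul, map_mul, ← ha, ← hb, map_zero]
      linear_combination c * h2
    obtain ⟨h3, h4⟩ := hi (residue R a') (residue R b') (by
      funext i
      have h2 := congrArg (residue R) (h1 i)
      rw [map_add, map_mul, map_mul, hrP, hru, map_zero] at h2
      exact h2)
    rcases hab' with h | h
    · rw [h, map_one] at h3
      exact one_ne_zero h3
    · rw [h, map_one] at h4
      exact one_ne_zero h4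
  · rw [hA, f0, map_zero]
  · rw [hA, f2, map_zero]
  · rw [hAb, f1, map_zero]

/-- Proof: `uk_unit`, `lift_plane`. -/
theorem ul_unit (h2 : (2 : ResidueField R) ≠ 0) (hG : IsUnit (G + Gᵀ).det) :
    TI2 (G.map (algebraMap R E)) := by
  have hd : (G.map (residue R) + (G.map (residue R))ᵀ).det ≠ 0 := by
    have h1 := (hG.map (residue R)).ne_zero
    rwa [RingHom.map_det, RingHom.mapMatrix_apply, ul_map] at h1
  obtain ⟨p, x, hi, hp, hx, hpx⟩ := uk_unit h2 hd
  refine lift_plane hi hp hx hpx fun a b hab => ?_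
  have h1 := eq_zero_of_mulVec_eq_zero hd (ul_rad hab)
  exact LinearIndependent.pair_iff.1 hi a b h1

/-- Proof: `uk_sq`, `lift_plane`. A vector `r` of the radical of the reduction `M` of `G + Gᵀ` with
`w · r = 0` is `0`: if `r ≠ 0` then `det M = 0`, so `y = M.adjugate w` is in the radical too
(`M y = det M • w`), `w · y ≠ 0`, and `r`, `y` are independent; then the rank is at most `3` and the
adjugate is `0`, a contradiction. -/
theorem ul_sq (h2 : (2 : ResidueField R) ≠ 0) {w : Fin 5 → R}
    (hw : IsUnit (w ⬝ᵥ ((G + Gᵀ).adjugate *ᵥ w)))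
    (hs : IsSquare (residue R (w ⬝ᵥ ((G + Gᵀ).adjugate *ᵥ w)))) :
    TI2 (G.map (algebraMap R E)) := by
  have e : residue R (w ⬝ᵥ ((G + Gᵀ).adjugate *ᵥ w)) = (fun i => residue R (w i)) ⬝ᵥ
      ((G.map (residue R) + (G.map (residue R))ᵀ).adjugate *ᵥ fun i => residue R (w i)) := by
    rw [← ul_map, ← RingHom.mapMatrix_apply, ← RingHom.map_adjugate, RingHom.mapMatrix_apply,
      ht_hom]
  have hw' := (hw.map (residue R)).ne_zero
  rw [e] at hw' hs
  obtain ⟨p, x, hi, hp, hx, hpx, hwp, hwx⟩ := uk_sq h2 hw' hs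
  refine lift_plane hi hp hx hpx fun a b hab => ?_
  have h1 := ul_rad hab
  have h3 : (fun i => residue R (w i)) ⬝ᵥ (a • p + b • x) = 0 := by
    rw [dotProduct_add, dotProduct_smul, dotProduct_smul, hwp, hwx, smul_zero, smul_zero, add_zero]
  have h4 : a • p + b • x = 0 := by
    by_contra h0
    apply hw'
    have h5 : (G.map (residue R) + (G.map (residue R))ᵀ).adjugate *ᵥ
        (fun i => residue R (w i)) = 0 := by
      rw [← cramer_eq_adjugate_mulVec]
      funext i
      rw [cramer_apply, Pi.zero_apply, ← exists_vecMul_eq_zero_iff]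
      refine ⟨a • p + b • x, h0, ?_⟩
      have h6 : (a • p + b • x) ᵥ* (G.map (residue R) + (G.map (residue R))ᵀ) = 0 := by
        rw [← mulVec_transpose, transpose_add, transpose_transpose, add_comm]
        exact h1
      funext j
      rw [vecMul, Pi.zero_apply]
      by_cases hj : j = i
      · subst hj
        rw [dotProduct_comm] at h3
        rw [← h3]
        congr 1
        funext l
        rw [updateCol_self]
      · have h7 := congrFun h6 j
        rw [vecMul, Pi.zero_apply] at h7
        rw [← h7]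
        congr 1
        funext l
        rw [updateCol_ne hj]
    rw [h5, dotProduct_zero]
  exact LinearIndependent.pair_iff.1 hi a b h4

end Dq
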