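import Pool.Agent.Lib.MP_f80667_ag.Dq.UL

/-! The case of even valuation of the discriminant. -/

open IsLocalRing

namespace Dq

open ZC Dp Matrix

universe u

/-- Totally isotropic planes and changes of variables. -/
theorem ti2_of_map {E : Type*} [Field E] {G G' Q : Matrix (Fin 5) (Fin 5) E} (hQ : Q.det ≠ 0)
    (h : ∀ x, qv G (Q *ᵥ x) = qv G' x) (h' : TI2 G') : TI2 G := by
  obtain ⟨p, x, hli, hp, hx, hpx⟩ := h'
  have hb : ∀ y z : Fin 5 → E, bv G (Q *ᵥ y) (Q *ᵥ z) = bv G' y z := by
    intro y z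
    have h1 := qv_add (A := G) (Q *ᵥ y) (Q *ᵥ z)
    have h2 := qv_add (A := G') y z
    rw [← Matrix.mulVec_add, h, h, h, h2] at h1
    linear_combination -h1
  refine ⟨Q *ᵥ p, Q *ᵥ x, ?_, by rw [h, hp], by rw [h, hx], by rw [hb, hpx]⟩
  have hinj : Function.Injective (Q.mulVecLin) := by
    rw [Matrix.coe_mulVecLin]
    exact Matrix.mulVec_injective_iff_isUnit.2
      ((Matrix.isUnit_iff_isUnit_det Q).2 (isUnit_iff_ne_zero.2 hQ))
  have h3 := hli.map' Q.mulVecLin (LinearMap.ker_eq_bot.2 hinj)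
  have h4 : (Q.mulVecLin ∘ ![p, x]) = ![Q *ᵥ p, Q *ᵥ x] := by
    funext i
    fin_cases i <;> rfl
  rw [h4] at h3
  exact h3

/-- Multiples. -/
theorem ti2_smul {E : Type*} [Field E] {n : ℕ} {G : Matrix (Fin n) (Fin n) E} {c : E} (hc : c ≠ 0)
    (h : TI2 (c • G)) : TI2 G := by
  obtain ⟨p, x, hli, hp, hx, hpx⟩ := h
  have h1 : ∀ y : Fin n → E, qv (c • G) y = c * qv G y := by
    intro y
    simp only [qv, Matrix.smul_apply, smul_eq_mul, Algebra.algebraMap_self, RingHom.id_apply,
      Finset.mul_sum, mul_assoc]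
  have h2 : ∀ y z : Fin n → E, bv (c • G) y z = c * bv G y z := by
    intro y z
    simp only [bv, Matrix.smul_apply, smul_eq_mul, Algebra.algebraMap_self, RingHom.id_apply,
      Finset.mul_sum, mul_assoc]
  rw [h1] at hp hx
  rw [h2] at hpx
  exact ⟨p, x, hli, (mul_eq_zero.1 hp).resolve_left hc, (mul_eq_zero.1 hx).resolve_left hc,
    (mul_eq_zero.1 hpx).resolve_left hc⟩

/-- The value of the form as a product with the matrix of the polar form. -/
theorem two_qv {E : Type*} [Field E] {n : ℕ} (G : Matrix (Fin n) (Fin n) E) (x : Fin n → E) :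
    2 * qv G x = x ⬝ᵥ ((G + Gᵀ) *ᵥ x) := by
  have h1 : qv G x = x ⬝ᵥ (G *ᵥ x) := ZC.qv_eq_dot G x
  rw [Matrix.add_mulVec, dotProduct_add, Matrix.mulVec_transpose, dotProduct_comm x (x ᵥ* G),
    ← Matrix.dotProduct_mulVec, ← h1]
  ring

/-- Change of variables in a product. -/
theorem dot_conj {E : Type*} [Field E] {n : ℕ} (Q M : Matrix (Fin n) (Fin n) E) (x : Fin n → E) :
    (Q *ᵥ x) ⬝ᵥ (M *ᵥ (Q *ᵥ x)) = x ⬝ᵥ ((Qᵀ * M * Q) *ᵥ x) := by
  rw [← Matrix.mulVec_mulVec, ← Matrix.mulVec_mulVec, Matrix.dotProduct_mulVec x,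
    Matrix.vecMul_transpose]

section mat

variable {S : Type*} [CommRing S]

/-- The columns. -/
def ulP (w r : Fin 5 → S) (j : Fin 5) : Matrix (Fin 5) (Fin 5) S :=
  w j • 1 - Matrix.of (fun a k => (Pi.single j 1 : Fin 5 → S) a * w k) +
    Matrix.of (fun a k => r a * (Pi.single j 1 : Fin 5 → S) k)

theorem ulP_det (w r : Fin 5 → S) (j : Fin 5) (hj : IsUnit (w j)) :
    (ulP w r j).det = w j ^ 3 * (w ⬝ᵥ r) := by
  obtain ⟨v, hv⟩ := hj
  have h2 : w j * ((v⁻¹ : Sˣ) : S) = 1 := by rw [← hv, Units.mul_inv]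
  have h1 : ulP w r j = w j • (1 +
      (Matrix.of (fun a (k : Fin 2) => (![-(Pi.single j 1 : Fin 5 → S) a, r a] : Fin 2 → S) k)) *
      (Matrix.of (fun (k : Fin 2) b => ((v⁻¹ : Sˣ) : S) *
        (![w b, (Pi.single j 1 : Fin 5 → S) b] : Fin 2 → S) k))) := by
    ext a b
    simp only [ulP, Matrix.add_apply, Matrix.sub_apply, Matrix.smul_apply, Matrix.of_apply,
      Matrix.mul_apply, Fin.sum_univ_two, smul_eq_mul, Matrix.cons_val_zero,
      Matrix.cons_val_one]
    linear_combination ((Pi.single j (1 : S) : Fin 5 → S) a * w b -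
      r a * (Pi.single j (1 : S) : Fin 5 → S) b) * h2
  rw [h1, Matrix.det_smul, Matrix.det_one_add_mul_comm, Matrix.det_fin_two]
  have e00 : ∑ b, ((v⁻¹ : Sˣ) : S) * w b * -(Pi.single j (1 : S) : Fin 5 → S) b = -1 := by
    rw [Finset.sum_eq_single j]
    · rw [Pi.single_eq_same]
      linear_combination -h2
    · intro b _ hb
      rw [Pi.single_eq_of_ne hb]
      ring
    · intro h
      exact absurd (Finset.mem_univ _) h
  have e01 : ∑ b, ((v⁻¹ : Sˣ) : S) * w b * r b = ((v⁻¹ : Sˣ) : S) * (w ⬝ᵥ r) := by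
    rw [dotProduct, Finset.mul_sum]
    exact Finset.sum_congr rfl fun b _ => mul_assoc _ _ _
  have e10 : ∑ b, ((v⁻¹ : Sˣ) : S) * (Pi.single j (1 : S) : Fin 5 → S) b *
      -(Pi.single j (1 : S) : Fin 5 → S) b = -((v⁻¹ : Sˣ) : S) := by
    rw [Finset.sum_eq_single j]
    · rw [Pi.single_eq_same]
      ring
    · intro b _ hb
      rw [Pi.single_eq_of_ne hb]
      ring
    · intro h
      exact absurd (Finset.mem_univ _) h
  have e11 : ∑ b, ((v⁻¹ : Sˣ) : S) * (Pi.single j (1 : S) : Fin 5 → S) b * r b =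
      ((v⁻¹ : Sˣ) : S) * r j := by
    rw [Finset.sum_eq_single j]
    · rw [Pi.single_eq_same]
      ring
    · intro b _ hb
      rw [Pi.single_eq_of_ne hb]
      ring
    · intro h
      exact absurd (Finset.mem_univ _) h
  simp only [Matrix.add_apply, Matrix.mul_apply, Matrix.of_apply, Matrix.cons_val_zero,
    Matrix.cons_val_one, Matrix.one_apply_eq, ne_eq, zero_ne_one, one_ne_zero, not_false_eq_true,
    Matrix.one_apply_ne, e00, e01, e10, e11, Fintype.card_fin]
  have h3 : w j ^ 2 * ((v⁻¹ : Sˣ) : S) ^ 2 = 1 := by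
    rw [← mul_pow, h2, one_pow]
  linear_combination (w j ^ 3 * (w ⬝ᵥ r)) * h3

/-- Column `k ≠ j` is orthogonal to `w`. -/
theorem ulP_orth (w r : Fin 5 → S) {j k : Fin 5} (hk : k ≠ j) :
    ∑ a, ulP w r j a k * w a = 0 := by
  have h1 : ∀ a, ulP w r j a k * w a = w j * w a * (1 : Matrix (Fin 5) (Fin 5) S) a k -
      (Pi.single j 1 : Fin 5 → S) a * w a * w k := by
    intro a
    simp only [ulP, Matrix.add_apply, Matrix.sub_apply, Matrix.smul_apply, Matrix.of_apply,
      smul_eq_mul, Pi.single_eq_of_ne hk]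
    ring
  rw [Finset.sum_congr rfl fun a _ => h1 a, Finset.sum_sub_distrib, Finset.sum_eq_single k,
    Finset.sum_eq_single j]
  · rw [Pi.single_eq_same, Matrix.one_apply_eq]
    ring
  · intro b _ hb
    rw [Pi.single_eq_of_ne hb]
    ring
  · intro h
    exact absurd (Finset.mem_univ _) h
  · intro b _ hb
    rw [Matrix.one_apply_ne hb]
    ring
  · intro h
    exact absurd (Finset.mem_univ _) h

/-- Column `j` is `r`. -/
theorem ulP_col (w r : Fin 5 → S) (j a : Fin 5) : ulP w r j a j = r a := by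
  simp only [ulP, Matrix.add_apply, Matrix.sub_apply, Matrix.smul_apply, Matrix.of_apply,
    smul_eq_mul, Pi.single_eq_same]
  by_cases h : a = j
  · subst h
    rw [Matrix.one_apply_eq, Pi.single_eq_same]
    ring
  · rw [Matrix.one_apply_ne h, Pi.single_eq_of_ne h]
    ring

/-- The Gram matrix of the columns. -/
theorem ulP_gram (M : Matrix (Fin 5) (Fin 5) S) (hM : Mᵀ = M) (w : Fin 5 → S) (j : Fin 5) {c u : S}
    (hd : M.det = c ^ 2 * u) :
    ∃ N : Matrix (Fin 5) (Fin 5) S, Nᵀ = N ∧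
      (ulP w (M.adjugate *ᵥ w) j)ᵀ * M * ulP w (M.adjugate *ᵥ w) j =
        Matrix.diagonal (fun i => if i = j then c else 1) * N *
          Matrix.diagonal (fun i => if i = j then c else 1) := by
  set r := M.adjugate *ᵥ w with hr
  set P := ulP w r j with hP
  set G := Pᵀ * M * P with hG
  have hGs : Gᵀ = G := by
    rw [hG, Matrix.transpose_mul, Matrix.transpose_mul, Matrix.transpose_transpose, hM,
      Matrix.mul_assoc]
  have hMr : M *ᵥ r = M.det • w := by
    rw [hr, Matrix.mulVec_mulVec, Matrix.mul_adjugate, Matrix.smul_mulVec, Matrix.one_mulVec]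
  have hcol : ∀ k, G k j = M.det * ∑ a, P a k * w a := by
    intro k
    have h1 : G k j = ∑ a, P a k * (M *ᵥ r) a := by
      rw [hG, Matrix.mul_assoc, Matrix.mul_apply]
      refine Finset.sum_congr rfl fun a _ => ?_
      rw [Matrix.transpose_apply]
      congr 1
      rw [Matrix.mul_apply, Matrix.mulVec, dotProduct]
      exact Finset.sum_congr rfl fun b _ => by rw [hP, ulP_col]
    rw [h1, hMr, Finset.mul_sum]
    exact Finset.sum_congr rfl fun a _ => by rw [Pi.smul_apply, smul_eq_mul]; ring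
  have hz : ∀ k, k ≠ j → G k j = 0 := by
    intro k hk
    rw [hcol k, hP, ulP_orth w r hk, mul_zero]
  have hz' : ∀ k, k ≠ j → G j k = 0 := by
    intro k hk
    rw [← hGs, Matrix.transpose_apply]
    exact hz k hk
  have hjj : G j j = c ^ 2 * (u * (w ⬝ᵥ r)) := by
    rw [hcol j, hd]
    have h1 : ∑ a, P a j * w a = w ⬝ᵥ r := by
      rw [dotProduct]
      exact Finset.sum_congr rfl fun a _ => by rw [hP, ulP_col, mul_comm]
    rw [h1]
    ring
  refine ⟨Matrix.of fun k l => if k = j ∧ l = j then u * (w ⬝ᵥ r) else G k l, ?_, ?_⟩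
  · ext k l
    rw [Matrix.transpose_apply, Matrix.of_apply, Matrix.of_apply]
    by_cases h1 : k = j ∧ l = j
    · rw [if_pos h1, if_pos ⟨h1.2, h1.1⟩]
    · rw [if_neg h1, if_neg fun h2 => h1 ⟨h2.2, h2.1⟩]
      rw [← hGs, Matrix.transpose_apply, hGs]
  · ext k l
    rw [Matrix.mul_diagonal, Matrix.diagonal_mul, Matrix.of_apply]
    by_cases hk : k = j
    · by_cases hl : l = j
      · rw [if_pos hk, if_pos hl, if_pos ⟨hk, hl⟩, hk, hl, hjj]
        ring
      · rw [if_pos hk, if_neg hl, if_neg fun h => hl h.2, hk, hz' l hl]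
        ring
    · by_cases hl : l = j
      · rw [if_neg hk, if_pos hl, if_neg fun h => hk h.1, hl, hz k hk]
        ring
      · rw [if_neg hk, if_neg hl, if_neg fun h => hk h.1]
        ring

end mat

variable {R E : Type u} [CommRing R] [IsDomain R] [IsDiscreteValuationRing R]
  [IsAdicComplete (maximalIdeal R) R] [Finite (ResidueField R)] [Field E] [Algebra R E]
  [IsFractionRing R E] {G : Matrix (Fin 5) (Fin 5) R}

/-- Proof. Let `M = G + Gᵀ`, `δ = w · M.adjugate w` (a unit), `r = M.adjugate w`. Then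
`M r = det M • w`, `w · r = δ`, and `rᵀ M r = det M * δ = c ^ 2 u δ`. Some `w j` is a unit (`w` is not
`0` modulo the maximal ideal). The vectors `u i = w j e i - w i e j` (`i ≠ j`) satisfy `w · u i = 0`, so
`r` is orthogonal to them. Let `Q` be the matrix over `E` with the columns `u i` (`i ≠ j`) and `r / c`
(column `j`): `Qᵀ M Q` has entries in `R` (those of the `u i`, `0`, and `u δ`), and
`det Q = w j ^ 3 δ / c` up to sign (multiply `Q` from the left by the matrix with the rows `e i`
(`i ≠ j`) and `w`), so `det (Qᵀ M Q) = det M * (w j ^ 3 δ) ^ 2 / c ^ 2` is a unit. `2` is a unit of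
`R`, so the form `qv G (Q x)` has a matrix `G'` over `R` (half of `Qᵀ M Q`), and `ul_unit`, `ti2_of_map`
apply. -/
theorem ul_even (h2 : (2 : ResidueField R) ≠ 0) {w : Fin 5 → R}
    (hw : IsUnit (w ⬝ᵥ ((G + Gᵀ).adjugate *ᵥ w))) {c u : R} (hc : c ≠ 0) (hu : IsUnit u)
    (hd : (G + Gᵀ).det = c ^ 2 * u) : TI2 (G.map (algebraMap R E)) := by
  set M := G + Gᵀ with hM
  have hMs : Mᵀ = M := by rw [hM, Matrix.transpose_add, Matrix.transpose_transpose, add_comm]
  obtain ⟨j, hj⟩ : ∃ j, IsUnit (w j) := by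
    by_contra hcon
    push Not at hcon
    have h3 : w ⬝ᵥ (M.adjugate *ᵥ w) ∈ maximalIdeal R := by
      rw [dotProduct]
      refine Ideal.sum_mem _ fun i _ => Ideal.mul_mem_right _ _ ?_
      exact (mem_maximalIdeal _).2 (hcon i)
    exact (mem_maximalIdeal _).1 h3 hw
  obtain ⟨N, hN, hgram⟩ := ulP_gram M hMs w j hd
  set r := M.adjugate *ᵥ w with hr
  set P := ulP w r j with hP
  have hPd : P.det = w j ^ 3 * (w ⬝ᵥ r) := ulP_det w r j hj
  have hDd : (Matrix.diagonal (fun i : Fin 5 => if i = j then c else 1)).det = c := by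
    rw [Matrix.det_diagonal, Finset.prod_ite_eq' Finset.univ j]
    simp
  have hNu : IsUnit N.det := by
    have h3 := congrArg Matrix.det hgram
    rw [Matrix.det_mul, Matrix.det_mul, Matrix.det_mul, Matrix.det_mul, hDd, Matrix.det_transpose,
      hPd, hd] at h3
    have h4 : c ^ 2 * N.det = c ^ 2 * ((w j ^ 3 * (w ⬝ᵥ r)) ^ 2 * u) := by
      linear_combination -h3
    rw [mul_left_cancel₀ (pow_ne_zero 2 hc) h4]
    exact (((hj.pow 3).mul hw).pow 2).mul hu
  have h2u : IsUnit (2 : R) := by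
    by_contra h3
    apply h2
    have h4 : residue R 2 = 0 := (residue_eq_zero_iff _).2 ((mem_maximalIdeal _).2 h3)
    rwa [map_ofNat] at h4
  obtain ⟨t, ht⟩ := h2u
  have ht2 : (2 : R) * ((t⁻¹ : Rˣ) : R) = 1 := by rw [← ht, Units.mul_inv]
  have hG' : (((t⁻¹ : Rˣ) : R) • N) + (((t⁻¹ : Rˣ) : R) • N)ᵀ = N := by
    rw [Matrix.transpose_smul, hN, ← add_smul, ← two_mul, ht2, one_smul]
  have h5 : TI2 ((((t⁻¹ : Rˣ) : R) • N).map (algebraMap R E)) := by
    apply ul_unit h2
    rw [hG']
    exact hNu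
  have hcE : algebraMap R E c ≠ 0 := by
    intro h3
    exact hc ((IsFractionRing.injective R E) (by rw [h3, map_zero]))
  -- the matrix over `E`
  set D : Matrix (Fin 5) (Fin 5) E :=
    Matrix.diagonal (fun i => if i = j then (algebraMap R E c)⁻¹ else 1) with hD
  have hDD : (Matrix.diagonal (fun i : Fin 5 => if i = j then c else 1)).map (algebraMap R E) * D =
      1 := by
    rw [hD, Matrix.diagonal_map (map_zero _), Matrix.diagonal_mul_diagonal, ← Matrix.diagonal_one]
    congr 1
    funext i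
    by_cases h : i = j
    · simp [h, hcE]
    · simp [h]
  have hDD' : D * (Matrix.diagonal (fun i : Fin 5 => if i = j then c else 1)).map
      (algebraMap R E) = 1 := by
    rw [hD, Matrix.diagonal_map (map_zero _), Matrix.diagonal_mul_diagonal, ← Matrix.diagonal_one]
    congr 1
    funext i
    by_cases h : i = j
    · simp [h, hcE]
    · simp [h]
  have hDt : Dᵀ = D := Matrix.diagonal_transpose _
  have hQM : (P.map (algebraMap R E) * D)ᵀ * M.map (algebraMap R E) *
      (P.map (algebraMap R E) * D) = N.map (algebraMap R E) := by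
    have h3 := congrArg (fun A => A.map (algebraMap R E)) hgram
    simp only [Matrix.map_mul] at h3
    rw [Matrix.transpose_map] at h3
    calc (P.map (algebraMap R E) * D)ᵀ * M.map (algebraMap R E) * (P.map (algebraMap R E) * D)
        = D * ((P.map (algebraMap R E))ᵀ * M.map (algebraMap R E) * P.map (algebraMap R E)) * D := by
          rw [Matrix.transpose_mul, hDt]
          simp only [Matrix.mul_assoc]
      _ = (D * (Matrix.diagonal (fun i : Fin 5 => if i = j then c else 1)).map (algebraMap R E)) *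
          N.map (algebraMap R E) *
          ((Matrix.diagonal (fun i : Fin 5 => if i = j then c else 1)).map (algebraMap R E) * D) := by
          rw [h3]
          simp only [Matrix.mul_assoc]
      _ = N.map (algebraMap R E) := by rw [hDD, hDD', Matrix.one_mul, Matrix.mul_one]
  have h2E : (2 : E) ≠ 0 := by
    intro h3
    have h4 := congrArg (algebraMap R E) ht2
    rw [map_mul, map_ofNat, h3, zero_mul, map_one] at h4
    exact zero_ne_one h4
  refine ti2_of_map (Q := P.map (algebraMap R E) * D) ?_ (fun x => ?_) h5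
  · rw [Matrix.det_mul]
    refine mul_ne_zero ?_ ?_
    · have h3 : (P.map (algebraMap R E)).det = algebraMap R E P.det :=
        (RingHom.map_det (algebraMap R E) P).symm
      rw [h3, hPd]
      exact (((hj.pow 3).mul hw).map (algebraMap R E)).ne_zero
    · intro h3
      have h4 := congrArg Matrix.det hDD
      rw [Matrix.det_mul, h3, mul_zero, Matrix.det_one] at h4
      exact zero_ne_one h4
  · apply mul_left_cancel₀ h2E
    rw [two_qv, two_qv]
    have h3 : G.map (algebraMap R E) + (G.map (algebraMap R E))ᵀ = M.map (algebraMap R E) := by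
      rw [hM, Matrix.map_add _ (map_add _), Matrix.transpose_map]
    have h4 : (((t⁻¹ : Rˣ) : R) • N).map (algebraMap R E) +
        ((((t⁻¹ : Rˣ) : R) • N).map (algebraMap R E))ᵀ = N.map (algebraMap R E) := by
      rw [← Matrix.transpose_map, ← Matrix.map_add _ (map_add _), hG']
    rw [h3, h4, ← hQM]
    exact dot_conj _ _ x

end Dq
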