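import Pool.Agent.Lib.MP_f80667_ag.Dp.FfA
import Pool.Agent.Lib.MP_f80667_ag.Dp.Hm6

/-!
Totally isotropic planes of quadratic forms in five variables over finite fields. `G` is the matrix of
the form, `G + Gᵀ` the matrix of the polar form.
-/

namespace Dq

open ZC Dp Matrix

universe u

section ulk

variable {K : Type*} [Field K] {G : Matrix (Fin 5) (Fin 5) K}

/-- The quadratic form of a matrix. -/
noncomputable def ulkQ (G : Matrix (Fin 5) (Fin 5) K) : QuadraticMap K (Fin 5 → K) K :=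
  G.toQuadraticForm'

theorem ulkQ_apply (x : Fin 5 → K) : ulkQ G x = qv G x := by
  rw [ulkQ, Matrix.toQuadraticForm', LinearMap.BilinMap.toQuadraticMap_apply,
    Matrix.toLinearMap₂'_apply']
  simp only [dotProduct, mulVec, qv, Finset.mul_sum, Algebra.algebraMap_self, RingHom.id_apply]
  refine Finset.sum_congr rfl fun i _ => Finset.sum_congr rfl fun j _ => ?_
  ring

theorem ulk_bv (x y : Fin 5 → K) : bv G x y = x ⬝ᵥ ((G + Gᵀ) *ᵥ y) := by
  rw [add_mulVec, dotProduct_add, dotProduct_mulVec x Gᵀ, vecMul_transpose, dotProduct_comm (G *ᵥ x)]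
  simp only [dotProduct, mulVec, bv, Finset.mul_sum, Algebra.algebraMap_self, RingHom.id_apply,
    ← Finset.sum_add_distrib]
  refine Finset.sum_congr rfl fun i _ => Finset.sum_congr rfl fun j _ => ?_
  ring

/-- The functional `bv G p`. -/
def ulkB (G : Matrix (Fin 5) (Fin 5) K) (p : Fin 5 → K) : (Fin 5 → K) →ₗ[K] K where
  toFun := fun y => bv G p y
  map_add' := fun x y => bv_add_right G p x y
  map_smul' := fun c x => bv_smul_right G c p x

/-- The functional `w · x`. -/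
def ulkW (w : Fin 5 → K) : (Fin 5 → K) →ₗ[K] K where
  toFun := fun y => w ⬝ᵥ y
  map_add' := fun x y => dotProduct_add w x y
  map_smul' := fun c x => dotProduct_smul c w x

theorem ulk_finrank {m : ℕ} (L : (Fin 5 → K) →ₗ[K] (Fin m → K)) :
    5 ≤ Module.finrank K (LinearMap.ker L) + m := by
  have h1 := LinearMap.finrank_range_add_finrank_ker L
  have h2 := Submodule.finrank_le (LinearMap.range L)
  rw [Module.finrank_fin_fun] at h1 h2
  omega

theorem ulk_self (x : Fin 5 → K) : bv G x x = 2 * qv G x := by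
  simp only [bv, qv, Finset.mul_sum]
  refine Finset.sum_congr rfl fun i _ => Finset.sum_congr rfl fun j _ => ?_
  ring

/-- Independence of a pair. -/
theorem ulk_li {p x g : Fin 5 → K} (hpg : bv G g p ≠ 0) (hx : x ≠ 0) (hxg : bv G g x = 0) :
    LinearIndependent K ![p, x] := by
  rw [LinearIndependent.pair_iff]
  intro s t hst
  have h1 : bv G g (s • p + t • x) = 0 := by
    rw [hst]
    exact (ulkB G g).map_zero
  rw [bv_add_right, bv_smul_right, bv_smul_right, hxg, mul_zero, add_zero] at h1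
  have hs : s = 0 := (mul_eq_zero.1 h1).resolve_right hpg
  refine ⟨hs, ?_⟩
  rw [hs, zero_smul, zero_add] at hst
  exact (smul_eq_zero.1 hst).resolve_right hx

/-- A matrix with a kernel of dimension at least `2` has adjugate `0`. -/
theorem ulk_adj (M : Matrix (Fin 5) (Fin 5) K) {a p : Fin 5 → K}
    (hli : LinearIndependent K ![a, p]) (ha : M *ᵥ a = 0) (hp : M *ᵥ p = 0) : M.adjugate = 0 := by
  have ha0 : a ≠ 0 := hli.ne_zero 0
  rw [LinearIndependent.pair_iff] at hli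
  ext i j
  rw [adjugate_apply, Matrix.zero_apply]
  obtain ⟨z, hz, hzi, hMz⟩ : ∃ z : Fin 5 → K, z ≠ 0 ∧ z i = 0 ∧ M *ᵥ z = 0 := by
    by_cases h : a i = 0
    · exact ⟨a, ha0, h, ha⟩
    · refine ⟨(-p i) • a + a i • p, ?_, ?_, ?_⟩
      · intro h0
        exact h (hli _ _ h0).2
      · simp only [Pi.add_apply, Pi.smul_apply, smul_eq_mul]
        ring
      · rw [mulVec_add, mulVec_smul, mulVec_smul, ha, hp, smul_zero, smul_zero, add_zero]
  apply Matrix.exists_mulVec_eq_zero_iff.1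
  refine ⟨z, hz, ?_⟩
  funext r
  by_cases hr : r = j
  · subst hr
    simp only [mulVec, updateRow_self, single_dotProduct, one_mul, hzi, Pi.zero_apply]
  · have h1 := congrFun hMz r
    simp only [mulVec] at h1 ⊢
    rw [updateRow_ne hr]
    exact h1

/-- The columns. -/
def ulkM (p g y z e : Fin 5 → K) : Matrix (Fin 5) (Fin 5) K :=
  fun i j => (![p, g, y, z, e] : Fin 5 → Fin 5 → K) j i

/-- The Gram matrix. -/
theorem ulk_gram (G : Matrix (Fin 5) (Fin 5) K) (p g y z e : Fin 5 → K) (i j : Fin 5) :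
    ((ulkM p g y z e)ᵀ * (G + Gᵀ) * ulkM p g y z e) i j =
      bv G ((![p, g, y, z, e] : Fin 5 → Fin 5 → K) i)
        ((![p, g, y, z, e] : Fin 5 → Fin 5 → K) j) := by
  rw [ulk_bv, Matrix.mul_assoc, Matrix.mul_apply]
  simp only [dotProduct, transpose_apply, ulkM, Matrix.mul_apply, mulVec]

/-- The Gram determinant. -/
theorem ulk_det {w p g y z e : Fin 5 → K} (hw : w ᵥ* ulkM p g y z e = Pi.single 4 1)
    (hpp : bv G p p = 0) (hpy : bv G p y = 0) (hpz : bv G p z = 0) (hgy : bv G g y = 0)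
    (hgz : bv G g z = 0) (hyz : bv G y z = 0) :
    (ulkM p g y z e).det ^ 2 * (w ⬝ᵥ ((G + Gᵀ).adjugate *ᵥ w)) =
      -(bv G p g) ^ 2 * (bv G y y * bv G z z) := by
  set Q := ulkM p g y z e with hQ
  have h1 : Q.adjugate 4 = Q.det • w := by
    have h2 : (w ᵥ* Q) ᵥ* Q.adjugate = Pi.single 4 1 ᵥ* Q.adjugate := by rw [hw]
    rw [vecMul_vecMul, mul_adjugate, vecMul_smul, vecMul_one, single_one_vecMul] at h2
    exact h2.symm
  have h3 : (Qᵀ * (G + Gᵀ) * Q).adjugate 4 4 = Q.det ^ 2 * (w ⬝ᵥ ((G + Gᵀ).adjugate *ᵥ w)) := by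
    rw [adjugate_mul_distrib, adjugate_mul_distrib, ← adjugate_transpose, Matrix.mul_apply']
    have h4 : (fun j => ((G + Gᵀ).adjugate * Q.adjugateᵀ) j 4) =
        (G + Gᵀ).adjugate *ᵥ (Q.adjugate 4) := by
      funext j
      simp only [Matrix.mul_apply, mulVec, dotProduct, transpose_apply]
    rw [h4, h1, mulVec_smul, smul_dotProduct, dotProduct_smul, smul_eq_mul, smul_eq_mul]
    ring
  have h5 : (Qᵀ * (G + Gᵀ) * Q).submatrix (Fin.succAbove (4 : Fin 5)) (Fin.succAbove (4 : Fin 5)) =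
      !![0, bv G p g, 0, 0; bv G p g, bv G g g, 0, 0; 0, 0, bv G y y, 0; 0, 0, 0, bv G z z] := by
    ext i j
    rw [submatrix_apply, hQ, ulk_gram]
    fin_cases i <;> fin_cases j
    · exact hpp
    · rfl
    · exact hpy
    · exact hpz
    · exact bv_comm G g p
    · rfl
    · exact hgy
    · exact hgz
    · exact (bv_comm G y p).trans hpy
    · exact (bv_comm G y g).trans hgy
    · rfl
    · exact hyz
    · exact (bv_comm G z p).trans hpz
    · exact (bv_comm G z g).trans hgz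
    · exact (bv_comm G z y).trans hyz
    · rfl
  rw [← h3, adjugate_fin_succ_eq_det_submatrix, h5]
  simp [Matrix.det_succ_row_zero, Fin.sum_univ_succ, Fin.succAbove]
  ring

end ulk

variable {κ : Type u} [Field κ] [Finite κ] {G : Matrix (Fin 5) (Fin 5) κ}

/-- Proof: a zero `p` (`exists_zero3`); `g` with `bv G p g ≠ 0`; the space orthogonal to `p` and `g`
has dimension at least `3` and meets the line of `p` in `0`; it contains a zero (`exists_zero3`). -/
theorem uk_unit (h2 : (2 : κ) ≠ 0) (hG : (G + Gᵀ).det ≠ 0) : TI2 G := by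
  have _ := h2
  obtain ⟨p, -, hp0, hp⟩ := exists_zero3 (⊤ : Submodule κ (Fin 5 → κ)) (by simp) (ulkQ G)
  rw [ulkQ_apply] at hp
  obtain ⟨g, hg⟩ : ∃ g, bv G g p ≠ 0 := by
    by_contra hcon
    push Not at hcon
    apply hG
    apply Matrix.exists_mulVec_eq_zero_iff.1
    refine ⟨p, hp0, ?_⟩
    funext i
    have h1 := hcon (Pi.single i 1)
    rw [ulk_bv, single_dotProduct, one_mul] at h1
    exact h1
  have h3 := ulk_finrank (LinearMap.pi ![ulkB G p, ulkB G g])
  obtain ⟨x, hx, hx0, hqx⟩ := exists_zero3 (LinearMap.ker (LinearMap.pi ![ulkB G p, ulkB G g]))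
    (by omega) (ulkQ G)
  rw [ulkQ_apply] at hqx
  rw [LinearMap.mem_ker] at hx
  have e0 : bv G p x = 0 := congrFun hx 0
  have e1 : bv G g x = 0 := congrFun hx 1
  exact ⟨p, x, ulk_li hg hx0 e1, hp, hqx, e0⟩

/-- A plane in the space `w · x = 0`, if the restriction of the form to this space is nondegenerate with
square discriminant. Proof. Let `U` be this space (`w ≠ 0`, dimension `4`). A zero `p ∈ U`
(`exists_zero3`); `g ∈ U` with `bv G p g ≠ 0` (otherwise the restriction is degenerate: Gram matrix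
below); `U' ⊆ U` the space orthogonal to `p` and `g`, dimension `2`, with an orthogonal basis `y`, `z`.
With `e`, `w · e = 1`, and `Q` the matrix with the columns `p, g, y, z, e`: `wᵀ Q = (0, 0, 0, 0, 1)`,
so the last row of `Q.adjugate` is `det Q` times `wᵀ`, and the last diagonal entry of
`(Qᵀ (G + Gᵀ) Q).adjugate = Q.adjugate (G + Gᵀ).adjugate (Q.adjugate)ᵀ` (`Matrix.adjugate_mul_distrib`)
is `(det Q) ^ 2 * wᵀ (G + Gᵀ).adjugate w`; it is the Gram determinant of `p, g, y, z`, i.e.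
`- (bv p g) ^ 2 * (2 qv y) * (2 qv z)` after replacing `g` by `g - c p` with `qv g = 0`. So
`- qv y * qv z` is a square and `y`, `z` span a zero `x` of the form, orthogonal to `p`. -/
theorem uk_sq (h2 : (2 : κ) ≠ 0) {w : Fin 5 → κ} (hw : w ⬝ᵥ ((G + Gᵀ).adjugate *ᵥ w) ≠ 0)
    (hs : IsSquare (w ⬝ᵥ ((G + Gᵀ).adjugate *ᵥ w))) :
    ∃ p x : Fin 5 → κ, LinearIndependent κ ![p, x] ∧ qv G p = 0 ∧ qv G x = 0 ∧ bv G p x = 0 ∧
      w ⬝ᵥ p = 0 ∧ w ⬝ᵥ x = 0 := by
  obtain ⟨e, he⟩ : ∃ e : Fin 5 → κ, w ⬝ᵥ e = 1 := by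
    have hw0 : w ≠ 0 := by
      intro h
      rw [h, zero_dotProduct] at hw
      exact hw rfl
    obtain ⟨j, hj⟩ := Function.ne_iff.1 hw0
    refine ⟨Pi.single j (w j)⁻¹, ?_⟩
    rw [dotProduct_single]
    exact mul_inv_cancel₀ hj
  have h3 := ulk_finrank (LinearMap.pi ![ulkW w, 0])
  obtain ⟨p, hp1, hp0, hp⟩ := exists_zero3 (LinearMap.ker (LinearMap.pi ![ulkW w, 0]))
    (by omega) (ulkQ G)
  rw [ulkQ_apply] at hp
  rw [LinearMap.mem_ker] at hp1
  have hwp : w ⬝ᵥ p = 0 := congrFun hp1 0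
  have hpp : bv G p p = 0 := by rw [ulk_self, hp, mul_zero]
  obtain ⟨g, hwg, hg⟩ : ∃ g, w ⬝ᵥ g = 0 ∧ bv G p g ≠ 0 := by
    by_contra hcon
    push Not at hcon
    have h4 : ∀ y, bv G p y = (w ⬝ᵥ y) * bv G p e := by
      intro y
      have h5 := hcon (y + (-(w ⬝ᵥ y)) • e) (by
        rw [dotProduct_add, dotProduct_smul, he, smul_eq_mul, mul_one, add_neg_cancel])
      rw [bv_add_right, bv_smul_right] at h5
      linear_combination h5
    set a := (G + Gᵀ).adjugate *ᵥ w with ha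
    have hMa : (G + Gᵀ) *ᵥ a = (G + Gᵀ).det • w := by
      rw [ha, mulVec_mulVec, mul_adjugate, smul_mulVec, one_mulVec]
    have h5 : (w ⬝ᵥ a) * bv G p e = 0 := by
      rw [← h4, ulk_bv, hMa, dotProduct_smul, dotProduct_comm, hwp, smul_zero]
    have h6 : bv G p e = 0 := (mul_eq_zero.1 h5).resolve_left hw
    have h7 : ∀ y, bv G p y = 0 := by
      intro y
      rw [h4, h6, mul_zero]
    have hMp : (G + Gᵀ) *ᵥ p = 0 := by
      funext i
      have h1 := h7 (Pi.single i 1)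
      rw [bv_comm, ulk_bv, single_dotProduct, one_mul] at h1
      exact h1
    have hdet : (G + Gᵀ).det = 0 := Matrix.exists_mulVec_eq_zero_iff.1 ⟨p, hp0, hMp⟩
    rw [hdet, zero_smul] at hMa
    have hli : LinearIndependent κ ![a, p] := by
      rw [LinearIndependent.pair_iff]
      intro s t hst
      have h1 : w ⬝ᵥ (s • a + t • p) = 0 := by rw [hst, dotProduct_zero]
      rw [dotProduct_add, dotProduct_smul, dotProduct_smul, hwp, smul_zero, add_zero,
        smul_eq_mul] at h1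
      have h8 : s = 0 := (mul_eq_zero.1 h1).resolve_right hw
      refine ⟨h8, ?_⟩
      rw [h8, zero_smul, zero_add] at hst
      exact (smul_eq_zero.1 hst).resolve_right hp0
    have h8 := ulk_adj _ hli hMa hMp
    apply hw
    rw [ha, h8, zero_mulVec, dotProduct_zero]
  have hg' : bv G g p ≠ 0 := by rwa [bv_comm]
  -- a zero orthogonal to `p`, `g` and `w`
  suffices h : ∃ x : Fin 5 → κ, x ≠ 0 ∧ w ⬝ᵥ x = 0 ∧ bv G p x = 0 ∧ bv G g x = 0 ∧ qv G x = 0 by
    obtain ⟨x, hx0, hwx, hpx, hgx, hx⟩ := h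
    exact ⟨p, x, ulk_li hg' hx0 hgx, hp, hx, hpx, hwp, hwx⟩
  by_contra hcon
  have hcon' : ∀ x : Fin 5 → κ, x ≠ 0 → w ⬝ᵥ x = 0 → bv G p x = 0 → bv G g x = 0 →
      qv G x ≠ 0 := fun x h3 h4 h5 h6 h7 => hcon ⟨x, h3, h4, h5, h6, h7⟩
  have h4 := ulk_finrank (LinearMap.pi ![ulkW w, ulkB G p, ulkB G g])
  obtain ⟨b, hb⟩ := exists_linearIndependent_of_le_finrank
    (R := κ) (M := LinearMap.ker (LinearMap.pi ![ulkW w, ulkB G p, ulkB G g])) (n := 2) (by omega)
  have hb1 : ∀ i, w ⬝ᵥ (b i : Fin 5 → κ) = 0 ∧ bv G p (b i : Fin 5 → κ) = 0 ∧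
      bv G g (b i : Fin 5 → κ) = 0 := by
    intro i
    have h5 := LinearMap.mem_ker.1 (b i).2
    exact ⟨congrFun h5 0, congrFun h5 1, congrFun h5 2⟩
  obtain ⟨y, hy⟩ : ∃ y : Fin 5 → κ, y = b 0 := ⟨_, rfl⟩
  obtain ⟨z0, hz0⟩ : ∃ z : Fin 5 → κ, z = b 1 := ⟨_, rfl⟩
  have hli : ∀ s t : κ, s • y + t • z0 = 0 → s = 0 ∧ t = 0 := by
    intro s t hst
    have h5 : ∑ i, (![s, t] : Fin 2 → κ) i • b i = 0 := by
      apply Subtype.ext
      rw [Fin.sum_univ_two]
      rw [hy, hz0] at hst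
      exact hst
    have h6 := Fintype.linearIndependent_iff.1 hb _ h5
    exact ⟨h6 0, h6 1⟩
  obtain ⟨hwy, hpy, hgy⟩ := hb1 0
  obtain ⟨hwz, hpz, hgz⟩ := hb1 1
  rw [← hy] at hwy hpy hgy
  rw [← hz0] at hwz hpz hgz
  have hy0 : y ≠ 0 := by
    intro h
    have h5 := hli 1 0 (by rw [h, smul_zero, zero_smul, add_zero])
    exact one_ne_zero h5.1
  have hqy := hcon' y hy0 hwy hpy hgy
  have hyy : bv G y y ≠ 0 := by
    rw [ulk_self]
    exact mul_ne_zero h2 hqy
  obtain ⟨c, hc⟩ : ∃ c, c = -(bv G y z0 / bv G y y) := ⟨_, rfl⟩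
  obtain ⟨z, hz⟩ : ∃ z, z = c • y + z0 := ⟨_, rfl⟩
  have hyz : bv G y z = 0 := by
    rw [hz, bv_add_right, bv_smul_right, hc]
    field_simp
    ring
  have hwz' : w ⬝ᵥ z = 0 := by
    rw [hz, dotProduct_add, dotProduct_smul, hwy, hwz, smul_zero, add_zero]
  have hpz' : bv G p z = 0 := by
    rw [hz, bv_add_right, bv_smul_right, hpy, hpz, mul_zero, add_zero]
  have hgz' : bv G g z = 0 := by
    rw [hz, bv_add_right, bv_smul_right, hgy, hgz, mul_zero, add_zero]
  have hwQ : w ᵥ* ulkM p g y z e = Pi.single 4 1 := by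
    funext j
    fin_cases j
    · exact hwp
    · exact hwg
    · exact hwy
    · exact hwz'
    · exact he
  have hdet := ulk_det (G := G) hwQ hpp hpy hpz' hgy hgz' hyz
  obtain ⟨s, hs⟩ := hs
  rw [hs] at hdet
  obtain ⟨d, hd⟩ : ∃ d, d = (ulkM p g y z e).det := ⟨_, rfl⟩
  rw [← hd] at hdet
  -- a zero
  have hzz : bv G z z = -(d * s / bv G p g) ^ 2 / bv G y y := by
    field_simp
    linear_combination hdet
  obtain ⟨x, hx⟩ : ∃ x, x = (d * s / bv G p g / bv G y y) • y + z := ⟨_, rfl⟩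
  have hxx : bv G x x = 0 := by
    have hzy : bv G z y = 0 := by rw [bv_comm, hyz]
    rw [hx, bv_add, bv_smul, bv_add_right, bv_add_right, bv_smul_right, bv_smul_right, hyz, hzy,
      hzz]
    field_simp
    ring
  have hqx : qv G x = 0 := by
    rw [ulk_self] at hxx
    exact (mul_eq_zero.1 hxx).resolve_left h2
  refine hcon' x ?_ ?_ ?_ ?_ hqx
  · intro h
    rw [hx, hz, ← add_assoc, ← add_smul] at h
    have h5 := hli (d * s / bv G p g / bv G y y + c) 1 (by rw [one_smul]; exact h)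
    exact one_ne_zero h5.2
  · rw [hx, dotProduct_add, dotProduct_smul, hwy, hwz', smul_zero, add_zero]
  · rw [hx, bv_add_right, bv_smul_right, hpy, hpz', mul_zero, add_zero]
  · rw [hx, bv_add_right, bv_smul_right, hgy, hgz', mul_zero, add_zero]

end Dq
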