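import Pool.Agent.Lib.MP_f80667_ag.Dq.Gd
import Pool.Agent.Lib.MP_f80667_ag.Dq.ULe

/-!
Lines over the completions at the places above good places: the cases which do not need the zeros.
`gmM A B α` is the matrix of the member `(1, -α)`.
-/

open Polynomial IsDedekindDomain NumberField
open scoped WithZero

namespace Dq

open ZC Tq Dp

/-- The member `(1, -α)`. -/
def gmM {F M : Type} [Field F] [Field M] [Algebra F M] (A B : Matrix (Fin 5) (Fin 5) F) (α : M) :
    Matrix (Fin 5) (Fin 5) M := A.map (algebraMap F M) + (-α) • B.map (algebraMap F M)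

/-- The member contains a line over the completion at `w`. -/
def TIw {F M : Type} [Field F] [Field M] [NumberField M] [Algebra F M]
    (A B : Matrix (Fin 5) (Fin 5) F) (α : M) (w : HeightOneSpectrum (𝓞 M)) : Prop :=
  TI2 ((gmM A B α).map (algebraMap M (w.adicCompletion M)))

variable {F : Type} [Field F] [NumberField F] {A B : Matrix (Fin 5) (Fin 5) F} {wv : Fin 5 → F}
  {ι : Type} [Fintype ι] {K : ι → Type} [∀ i, Field (K i)] [∀ i, NumberField (K i)]
  [∀ i, Algebra F (K i)] {θ : ∀ i, K i} {M : Type} [Field M] [NumberField M] [Algebra F M]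
  {α : M} {w : HeightOneSpectrum (𝓞 M)}

/-- The entries of a matrix with integral entries and of an integral vector lift to the integers. -/
private theorem wa_lift {M : Type} [Field M] [NumberField M] (w : HeightOneSpectrum (𝓞 M))
    (G0 : Matrix (Fin 5) (Fin 5) M) (w0 : Fin 5 → M) (hG : ∀ i j, w.valuation M (G0 i j) ≤ 1)
    (hw : ∀ i, w.valuation M (w0 i) ≤ 1) :
    ∃ (G : Matrix (Fin 5) (Fin 5) (w.adicCompletionIntegers M))
      (w' : Fin 5 → w.adicCompletionIntegers M),
      G.map (algebraMap _ (w.adicCompletion M)) = G0.map (algebraMap M (w.adicCompletion M)) ∧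
      algebraMap _ (w.adicCompletion M) (G + G.transpose).det =
        algebraMap M (w.adicCompletion M) (G0 + G0.transpose).det ∧
      algebraMap _ (w.adicCompletion M)
        (dotProduct w' ((G + G.transpose).adjugate.mulVec w')) =
          algebraMap M (w.adicCompletion M)
            (dotProduct w0 ((G0 + G0.transpose).adjugate.mulVec w0)) := by
  have hint : ∀ t : M, w.valuation M t ≤ 1 → ∃ x : w.adicCompletionIntegers M,
      algebraMap _ (w.adicCompletion M) x = algebraMap M (w.adicCompletion M) t := by
    intro t h1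
    have h2 : algebraMap M (w.adicCompletion M) t ∈ w.adicCompletionIntegers M := by
      rw [HeightOneSpectrum.mem_adicCompletionIntegers]
      have h3 := HeightOneSpectrum.valuedAdicCompletion_eq_valuation' w t
      exact h3.le.trans h1
    exact ⟨⟨_, h2⟩, rfl⟩
  choose G hG' using fun i j => hint _ (hG i j)
  choose w' hw' using fun i => hint _ (hw i)
  have e0 : (Matrix.of G).map (algebraMap _ (w.adicCompletion M)) =
      G0.map (algebraMap M (w.adicCompletion M)) := Matrix.ext fun i j => hG' i j
  have e1 : (Matrix.of G + (Matrix.of G).transpose).map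
      (algebraMap (w.adicCompletionIntegers M) (w.adicCompletion M)) =
      (G0 + G0.transpose).map (algebraMap M (w.adicCompletion M)) := by
    ext i j
    simp only [Matrix.map_apply, Matrix.add_apply, Matrix.transpose_apply, Matrix.of_apply,
      map_add, hG']
  refine ⟨Matrix.of G, w', e0, ?_, ?_⟩
  · rw [RingHom.map_det, RingHom.map_det, RingHom.mapMatrix_apply, RingHom.mapMatrix_apply, e1]
  · rw [RingHom.map_dotProduct, RingHom.map_dotProduct]
    have e2 : (fun i => algebraMap (w.adicCompletionIntegers M) (w.adicCompletion M) (w' i)) =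
        fun i => algebraMap M (w.adicCompletion M) (w0 i) := funext hw'
    have e3 : ∀ (S : Type) [CommRing S] (f : S →+* w.adicCompletion M)
        (N : Matrix (Fin 5) (Fin 5) S) (v : Fin 5 → S),
        (f ∘ (N.adjugate.mulVec v)) = (N.map f).adjugate.mulVec (fun i => f (v i)) := by
      intro S _ f N v
      funext i
      rw [Function.comp_apply, RingHom.map_mulVec, ← RingHom.mapMatrix_apply f N.adjugate,
        RingHom.map_adjugate, RingHom.mapMatrix_apply]
      rfl
    rw [e3, e3, e1, e2]
    exact congrArg (fun z => dotProduct z (((G0 + G0.transpose).map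
      (algebraMap M (w.adicCompletion M))).adjugate.mulVec fun i =>
        algebraMap M (w.adicCompletion M) (w0 i))) e2

/-- The entries of the member at an integral point are integral. -/
private theorem wa_entry (hg : Gd A B wv K θ (w.under (𝓞 F))) {s : M}
    (hs : w.valuation M s ≤ 1) :
    (∀ i j, w.valuation M ((A.map (algebraMap F M) + (-s) • B.map (algebraMap F M)) i j) ≤ 1) ∧
    (∀ i j, w.valuation M ((B.map (algebraMap F M) + (-s) • A.map (algebraMap F M)) i j) ≤ 1) ∧
    ∀ i, w.valuation M (algebraMap F M (wv i)) ≤ 1 := by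
  obtain ⟨e, he, hev⟩ := exists_ram F M w
  have h1 : ∀ x : F, (w.under (𝓞 F)).valuation F x ≤ 1 →
      w.valuation M (algebraMap F M x) ≤ 1 := by
    intro x hx
    rw [hev]
    exact pow_le_one' hx e
  have h2 : ∀ x y : F, (w.under (𝓞 F)).valuation F x ≤ 1 → (w.under (𝓞 F)).valuation F y ≤ 1 →
      w.valuation M (algebraMap F M x + (-s) * algebraMap F M y) ≤ 1 := by
    intro x y hx hy
    refine (Valuation.map_add _ _ _).trans (max_le (h1 x hx) ?_)
    rw [map_mul, Valuation.map_neg]
    exact mul_le_one' hs (h1 y hy)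
  exact ⟨fun i j => h2 _ _ (hg.a i j) (hg.b i j), fun i j => h2 _ _ (hg.b i j) (hg.a i j),
    fun i => h1 _ (hg.w i)⟩

private theorem wa_sym {N M' : Matrix (Fin 5) (Fin 5) F} (s : M) :
    (N.map (algebraMap F M) + (-s) • M'.map (algebraMap F M)) +
      (N.map (algebraMap F M) + (-s) • M'.map (algebraMap F M)).transpose =
    (N + N.transpose).map (algebraMap F M) - s • (M' + M'.transpose).map (algebraMap F M) := by
  ext i j
  simp only [Matrix.add_apply, Matrix.sub_apply, Matrix.smul_apply, Matrix.map_apply,
    Matrix.transpose_apply, smul_eq_mul, map_add]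
  ring

private theorem wa_unit {x : w.adicCompletionIntegers M} {t : M}
    (h : algebraMap _ (w.adicCompletion M) x = algebraMap M (w.adicCompletion M) t)
    (ht : w.valuation M t = 1) : IsUnit x := by
  rw [HeightOneSpectrum.adicCompletionIntegers.isUnit_iff_valued_eq_one]
  have h1 : (x : w.adicCompletion M) = algebraMap M (w.adicCompletion M) t := h
  rw [h1]
  exact (HeightOneSpectrum.valuedAdicCompletion_eq_valuation' w t).trans ht

/-- The member as a matrix over the integers of the completion. Proof: the entries of `A`, `B`, `wv` are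
integral at `v = w.under`, so at `w` (`exists_ram`); `algebraMap` from the integers to the completion is
injective; `chp_aeval`, `dlp_aeval`. -/
theorem exists_int (hg : Gd A B wv K θ (w.under (𝓞 F))) (hα : w.valuation M α ≤ 1) :
    ∃ (G : Matrix (Fin 5) (Fin 5) (w.adicCompletionIntegers M))
      (w' : Fin 5 → w.adicCompletionIntegers M),
      G.map (algebraMap _ (w.adicCompletion M)) =
        (gmM A B α).map (algebraMap M (w.adicCompletion M)) ∧
      algebraMap _ (w.adicCompletion M) (G + G.transpose).det =
        algebraMap M (w.adicCompletion M) (aeval α (chp A B)) ∧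
      algebraMap _ (w.adicCompletion M)
        (dotProduct w' ((G + G.transpose).adjugate.mulVec w')) =
          algebraMap M (w.adicCompletion M) (aeval α (dlp A B wv)) := by
  obtain ⟨h1, -, h3⟩ := wa_entry (w := w) hg hα
  obtain ⟨G, w', e1, e2, e3⟩ := wa_lift w (gmM A B α) (fun i => algebraMap F M (wv i)) h1 h3
  refine ⟨G, w', e1, ?_, ?_⟩
  · rw [e2, chp_aeval, gmM, wa_sym]
  · rw [e3, dlp_aeval, gmM, wa_sym]

/-- The residue characteristic is not `2`. -/
theorem two_ne_res (hg : Gd A B wv K θ (w.under (𝓞 F))) :
    (2 : IsLocalRing.ResidueField (w.adicCompletionIntegers M)) ≠ 0 := by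
  obtain ⟨e, he, hev⟩ := exists_ram F M w
  have h1 : w.valuation M (2 : M) = 1 := by
    have h2 := hev 2
    rw [map_ofNat, hg.two, one_pow] at h2
    exact h2
  have h2 : IsUnit (2 : w.adicCompletionIntegers M) :=
    wa_unit (t := 2) (by rw [map_ofNat, map_ofNat]) h1
  have h3 := (h2.map (IsLocalRing.residue (w.adicCompletionIntegers M))).ne_zero
  rwa [map_ofNat] at h3

/-- Proof: the member is `- α • (B - α⁻¹ A)`; the matrix of `B - α⁻¹ A` is over the integers, its
determinant is a unit (`db`, `α⁻¹` in the maximal ideal); `ul_unit`, `ti2_smul`. -/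
theorem w_nonint (hg : Gd A B wv K θ (w.under (𝓞 F))) (hα : 1 < w.valuation M α) :
    TIw A B α w := by
  have h0 : α ≠ 0 := by
    rintro rfl
    rw [map_zero] at hα
    exact absurd hα (by simp)
  have ha : w.valuation M α⁻¹ < 1 := by
    rw [map_inv₀]
    exact inv_lt_one_of_one_lt₀ hα
  obtain ⟨-, h2, h3⟩ := wa_entry (w := w) hg ha.le
  obtain ⟨G, w', e1, e2, -⟩ := wa_lift w (B.map (algebraMap F M) + (-α⁻¹) • A.map (algebraMap F M))
    (fun i => algebraMap F M (wv i)) h2 h3
  rw [wa_sym] at e2
  -- the determinant is a unit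
  obtain ⟨e, he, hev⟩ := exists_ram F M w
  have hdB : w.valuation M ((B + B.transpose).map (algebraMap F M)).det = 1 := by
    rw [← RingHom.mapMatrix_apply, ← RingHom.map_det, hev, hg.db, one_pow]
  have hbint : ∀ i j, w.valuation M ((B.map (algebraMap F M)) i j) ≤ 1 := by
    intro i j
    rw [Matrix.map_apply, hev]
    exact pow_le_one' (hg.b i j) e
  obtain ⟨G1, -, f1, f2, -⟩ := wa_lift w (B.map (algebraMap F M))
    (fun i => algebraMap F M (wv i)) hbint h3
  have hu1 : IsUnit (G1 + G1.transpose).det := by
    refine wa_unit f2 ?_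
    rw [← hdB]
    congr 2
    ext i j
    simp only [Matrix.add_apply, Matrix.map_apply, Matrix.transpose_apply, map_add]
  have hres : ∀ i j, IsLocalRing.residue _ (G i j) = IsLocalRing.residue _ (G1 i j) := by
    intro i j
    rw [← sub_eq_zero, ← map_sub, IsLocalRing.residue_eq_zero_iff,
      Pool.Agent.Lib.MP_f80667_ag.LF.mem_max_iff]
    have g1 : algebraMap (w.adicCompletionIntegers M) (w.adicCompletion M) (G i j) =
        algebraMap M (w.adicCompletion M)
          ((B.map (algebraMap F M) + (-α⁻¹) • A.map (algebraMap F M)) i j) :=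
      congrFun (congrFun e1 i) j
    have g2 : algebraMap (w.adicCompletionIntegers M) (w.adicCompletion M) (G1 i j) =
        algebraMap M (w.adicCompletion M) ((B.map (algebraMap F M)) i j) :=
      congrFun (congrFun f1 i) j
    have g3 : ((G i j - G1 i j : w.adicCompletionIntegers M) : w.adicCompletion M) =
        algebraMap M (w.adicCompletion M) (-α⁻¹ * algebraMap F M (A i j)) := by
      have g4 : ((G i j - G1 i j : w.adicCompletionIntegers M) : w.adicCompletion M) =
        algebraMap (w.adicCompletionIntegers M) (w.adicCompletion M) (G i j) -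
          algebraMap (w.adicCompletionIntegers M) (w.adicCompletion M) (G1 i j) := rfl
      rw [g4, g1, g2, ← map_sub]
      congr 1
      simp only [Matrix.add_apply, Matrix.smul_apply, smul_eq_mul, Matrix.map_apply]
      ring
    rw [g3]
    have g7 : w.valuation M (-α⁻¹ * algebraMap F M (A i j)) < 1 := by
      rw [map_mul, Valuation.map_neg]
      refine mul_lt_one_of_lt_of_le ha ?_
      rw [hev]
      exact pow_le_one' (hg.a i j) e
    exact (HeightOneSpectrum.valuedAdicCompletion_eq_valuation' w _).trans_lt g7
  have hu : IsUnit (G + G.transpose).det := by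
    refine isUnit_of_map_unit (IsLocalRing.residue (w.adicCompletionIntegers M)) _ ?_
    have g5 : IsLocalRing.residue (w.adicCompletionIntegers M) (G + G.transpose).det =
        IsLocalRing.residue (w.adicCompletionIntegers M) (G1 + G1.transpose).det := by
      rw [RingHom.map_det, RingHom.map_det]
      congr 1
      ext i j
      simp only [RingHom.mapMatrix_apply, Matrix.map_apply, Matrix.add_apply,
        Matrix.transpose_apply, map_add, hres]
    rw [g5]
    exact hu1.map _
  have h5 := ul_unit (E := w.adicCompletion M) (two_ne_res hg) hu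
  rw [e1] at h5
  unfold TIw
  refine ti2_smul (c := algebraMap M (w.adicCompletion M) (-α⁻¹)) ?_ ?_
  · rw [Ne, map_eq_zero]
    exact neg_ne_zero.2 (inv_ne_zero h0)
  · convert h5 using 1
    ext i j
    simp only [gmM, Matrix.smul_apply, Matrix.map_apply, Matrix.add_apply, smul_eq_mul]
    rw [← map_mul]
    have g6 : α⁻¹ * α = 1 := inv_mul_cancel₀ h0
    have g8 : algebraMap F M (B i j) + -α⁻¹ * algebraMap F M (A i j) =
        -α⁻¹ * (algebraMap F M (A i j) + -α * algebraMap F M (B i j)) := by
      linear_combination (-algebraMap F M (B i j)) * g6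
    rw [g8]

/-- Proof: `exists_int`, `ul_unit`. -/
theorem w_unit (hg : Gd A B wv K θ (w.under (𝓞 F))) (hα : w.valuation M α ≤ 1)
    (hd : w.valuation M (aeval α (chp A B)) = 1) : TIw A B α w := by
  obtain ⟨G, w', e1, e2, -⟩ := exists_int hg hα
  have h5 := ul_unit (E := w.adicCompletion M) (two_ne_res hg) (wa_unit e2 hd)
  rw [e1] at h5
  exact h5

/-- Proof: `exists_int`, `ul_sq`. -/
theorem w_sq (hg : Gd A B wv K θ (w.under (𝓞 F))) (hα : w.valuation M α ≤ 1)
    (hd : w.valuation M (aeval α (dlp A B wv)) = 1) {y : w.adicCompletion M}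
    (hy : Valued.v (algebraMap M (w.adicCompletion M) (aeval α (dlp A B wv)) - y ^ 2) < 1) :
    TIw A B α w := by
  obtain ⟨G, w', e1, -, e3⟩ := exists_int hg hα
  have hv1 : Valued.v (algebraMap M (w.adicCompletion M) (aeval α (dlp A B wv))) = 1 :=
    (HeightOneSpectrum.valuedAdicCompletion_eq_valuation' w _).trans hd
  have hy1 : Valued.v y ≤ 1 := by
    by_contra hcon
    have h1 : 1 < Valued.v y := not_le.1 hcon
    have h2 : (1 : WithZero (Multiplicative ℤ)) < Valued.v (y ^ 2) := by
      rw [map_pow]
      exact one_lt_pow₀ h1 (by norm_num)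
    have h3 : Valued.v (y ^ 2) ≤ 1 := by
      have h4 : y ^ 2 = algebraMap M (w.adicCompletion M) (aeval α (dlp A B wv)) -
          (algebraMap M (w.adicCompletion M) (aeval α (dlp A B wv)) - y ^ 2) := by ring
      rw [h4]
      exact (Valuation.map_sub _ _ _).trans (max_le hv1.le hy.le)
    exact absurd h3 (not_le.2 h2)
  let y' : w.adicCompletionIntegers M :=
    ⟨y, (HeightOneSpectrum.mem_adicCompletionIntegers _ _ _).2 hy1⟩
  have hs : IsSquare (IsLocalRing.residue (w.adicCompletionIntegers M)
      (dotProduct w' ((G + G.transpose).adjugate.mulVec w'))) := by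
    refine ⟨IsLocalRing.residue _ y', ?_⟩
    rw [← map_mul, ← sub_eq_zero, ← map_sub, IsLocalRing.residue_eq_zero_iff,
      Pool.Agent.Lib.MP_f80667_ag.LF.mem_max_iff]
    have h6 : ((dotProduct w' ((G + G.transpose).adjugate.mulVec w') - y' * y' :
        w.adicCompletionIntegers M) : w.adicCompletion M) =
        algebraMap M (w.adicCompletion M) (aeval α (dlp A B wv)) - y ^ 2 := by
      rw [← e3, pow_two]
      rfl
    rw [h6]
    exact hy
  have h5 := ul_sq (E := w.adicCompletion M) (two_ne_res hg) (wa_unit e3 hd) hs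
  rw [e1] at h5
  exact h5

/-- Proof: `exists_int`, `ul_even`. -/
theorem w_even (hg : Gd A B wv K θ (w.under (𝓞 F))) (hα : w.valuation M α ≤ 1)
    (hd : w.valuation M (aeval α (dlp A B wv)) = 1) {c u : M} (hc : c ≠ 0)
    (hu : w.valuation M u = 1) (h : aeval α (chp A B) = c ^ 2 * u) : TIw A B α w := by
  obtain ⟨G, w', e1, e2, e3⟩ := exists_int hg hα
  have hcv : ∀ x : M, Valued.v (algebraMap M (w.adicCompletion M) x) = w.valuation M x :=
    fun x => HeightOneSpectrum.valuedAdicCompletion_eq_valuation' w x
  have hdv : Valued.v (algebraMap M (w.adicCompletion M) (aeval α (chp A B))) ≤ 1 := by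
    rw [← e2]
    exact (HeightOneSpectrum.mem_adicCompletionIntegers _ _ _).1 (G + G.transpose).det.2
  have hc1 : w.valuation M c ≤ 1 := by
    rw [hcv, h, map_mul, map_pow, hu, mul_one] at hdv
    by_contra hcon
    exact absurd hdv (not_le.2 (one_lt_pow₀ (not_le.1 hcon) (by norm_num)))
  let c' : w.adicCompletionIntegers M := ⟨algebraMap M (w.adicCompletion M) c,
    (HeightOneSpectrum.mem_adicCompletionIntegers _ _ _).2 ((hcv c).le.trans hc1)⟩
  let u' : w.adicCompletionIntegers M := ⟨algebraMap M (w.adicCompletion M) u,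
    (HeightOneSpectrum.mem_adicCompletionIntegers _ _ _).2 ((hcv u).le.trans hu.le)⟩
  have hc' : c' ≠ 0 := by
    intro h0
    have h7 : algebraMap M (w.adicCompletion M) c = 0 := congrArg Subtype.val h0
    exact hc ((map_eq_zero _).1 h7)
  have hu' : IsUnit u' := wa_unit (t := u) rfl hu
  have hd' : (G + G.transpose).det = c' ^ 2 * u' := by
    apply IsFractionRing.injective (w.adicCompletionIntegers M) (w.adicCompletion M)
    rw [e2, h, map_mul, map_mul, map_pow, map_pow]
    rfl
  have h5 := ul_even (E := w.adicCompletion M) (two_ne_res hg) (wa_unit e3 hd) hc' hu' hd'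
  rw [e1] at h5
  exact h5

end Dq
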