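import Pool.Agent.Lib.MP_f80667_ag.Dq.WA
import Pool.Agent.Lib.MP_f80667_ag.Dq.VTr

/-! The zeros of `mf A B` near an element of `M`. -/

open Polynomial IsDedekindDomain NumberField
open scoped WithZero

namespace Dq

open ZC Tq Dp

section aux

open HeightOneSpectrum Pool.Agent.Lib.MP_f80667_ag.LF

variable {F M : Type} [Field F] [NumberField F] [Field M] [NumberField M] [Algebra F M]
  {w : HeightOneSpectrum (𝓞 M)}

/-- The embedding of `F` in the completion. -/
noncomputable def wbF (F : Type) {M : Type} [Field F] [Field M] [NumberField M]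
    [Algebra F M] (w : HeightOneSpectrum (𝓞 M)) : F →+* w.adicCompletion M :=
  (algebraMap M (w.adicCompletion M)).comp (algebraMap F M)

theorem wb_val (w : HeightOneSpectrum (𝓞 M)) (x : M) :
    Valued.v (algebraMap M (w.adicCompletion M) x) = w.valuation M x :=
  valuedAdicCompletion_eq_valuation' w x

theorem wb_int {x : F} (hx : (w.under (𝓞 F)).valuation F x ≤ 1) :
    Valued.v (wbF F w x) ≤ 1 := by
  obtain ⟨e, -, h⟩ := exists_ram F M w
  rw [wbF, RingHom.comp_apply, wb_val, h]
  exact pow_le_one' hx e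

/-- The polynomial over the integers of the completion. -/
theorem wb_lift {r : F[X]} (hr : ∀ j, (w.under (𝓞 F)).valuation F (r.coeff j) ≤ 1) :
    ∃ P : (w.adicCompletionIntegers M)[X],
      P.map (algebraMap (w.adicCompletionIntegers M) (w.adicCompletion M)) = r.map (wbF F w) := by
  have h1 : r.map (wbF F w) ∈
      Polynomial.lifts (algebraMap (w.adicCompletionIntegers M) (w.adicCompletion M)) := by
    refine (Polynomial.lifts_iff_coeff_lifts _).2 fun n => ?_
    refine ⟨⟨wbF F w (r.coeff n), wb_int (hr n)⟩, ?_⟩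
    rw [coeff_map]
    rfl
  obtain ⟨P, hP⟩ := (Polynomial.mem_lifts _).1 h1
  exact ⟨P, hP⟩

omit [NumberField F] in
theorem wb_eval {r : F[X]} {P : (w.adicCompletionIntegers M)[X]}
    (hP : P.map (algebraMap (w.adicCompletionIntegers M) (w.adicCompletion M)) =
      r.map (wbF F w)) (x : w.adicCompletionIntegers M) :
    ((P.eval x : w.adicCompletionIntegers M) : w.adicCompletion M) =
      r.eval₂ (wbF F w) (x : w.adicCompletion M) := by
  have h1 := congrArg (fun p => p.eval (x : w.adicCompletion M)) hP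
  beta_reduce at h1
  rw [eval_map (wbF F w), eval_map] at h1
  rw [← h1]
  exact (eval₂_at_apply (algebraMap (w.adicCompletionIntegers M) (w.adicCompletion M)) x).symm

omit [NumberField F] in
theorem wb_aeval (r : F[X]) (α : M) : algebraMap M (w.adicCompletion M) (aeval α r) =
    r.eval₂ (wbF F w) (algebraMap M (w.adicCompletion M) α) := by
  rw [aeval_def, hom_eval₂]
  rfl

/-- Values at near points. -/
theorem wb_near {r : F[X]} (hr : ∀ j, (w.under (𝓞 F)).valuation F (r.coeff j) ≤ 1)
    {x y : w.adicCompletion M} (hx : Valued.v x ≤ 1) (hxy : Valued.v (x - y) < 1) :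
    Valued.v (r.eval₂ (wbF F w) x - r.eval₂ (wbF F w) y) < 1 := by
  obtain ⟨P, hP⟩ := wb_lift hr
  have hy : Valued.v y ≤ 1 := by
    have e : y = x - (x - y) := by ring
    rw [e]
    exact (Valuation.map_sub _ _ _).trans (max_le hx hxy.le)
  let x' : w.adicCompletionIntegers M := ⟨x, hx⟩
  let y' : w.adicCompletionIntegers M := ⟨y, hy⟩
  have h1 : x' - y' ∈ IsLocalRing.maximalIdeal (w.adicCompletionIntegers M) :=
    (mem_max_iff M w).2 hxy
  have h2 : P.eval x' - P.eval y' ∈ IsLocalRing.maximalIdeal (w.adicCompletionIntegers M) :=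
    Ideal.mem_of_dvd _ (Polynomial.sub_dvd_eval_sub x' y' P) h1
  have h3 := (mem_max_iff M w).1 h2
  have h4 : ((P.eval x' - P.eval y' : w.adicCompletionIntegers M) : w.adicCompletion M) =
      r.eval₂ (wbF F w) x - r.eval₂ (wbF F w) y := by
    rw [← wb_eval hP x', ← wb_eval hP y']
    rfl
  rwa [h4] at h3

omit [NumberField F] in
/-- The embedding given by a zero. -/
theorem wb_hom {K : Type} [Field K] [Algebra F K] {θ : K} (hint : IsIntegral F θ)
    (htop : IntermediateField.adjoin F {θ} = ⊤) {e : w.adicCompletion M}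
    (he : (minpoly F θ).eval₂ (wbF F w) e = 0) :
    ∃ ε : K →+* w.adicCompletion M, (∀ x : F, ε (algebraMap F K x) = wbF F w x) ∧ ε θ = e := by
  have hs : Function.Surjective (aeval θ : F[X] →ₐ[F] K).toRingHom := by
    intro x
    have h1 : x ∈ (IntermediateField.adjoin F {θ}).toSubalgebra := by
      rw [htop]
      trivial
    rw [IntermediateField.adjoin_simple_toSubalgebra_of_isAlgebraic hint.isAlgebraic,
      Algebra.adjoin_singleton_eq_range_aeval] at h1
    exact h1
  have hk : RingHom.ker (aeval θ : F[X] →ₐ[F] K).toRingHom ≤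
      RingHom.ker (eval₂RingHom (wbF F w) e) := by
    intro p hp
    rw [RingHom.mem_ker] at hp ⊢
    obtain ⟨c, rfl⟩ := minpoly.dvd F θ hp
    rw [map_mul, coe_eval₂RingHom, he, zero_mul]
  refine ⟨RingHom.liftOfSurjective _ hs ⟨_, hk⟩, fun x => ?_, ?_⟩
  · have h1 := RingHom.liftOfSurjective_comp_apply _ hs ⟨_, hk⟩ (C x)
    rw [coe_eval₂RingHom, eval₂_C] at h1
    exact (congrArg (RingHom.liftOfSurjective _ hs ⟨_, hk⟩) (aeval_C θ x).symm).trans h1
  · have h1 := RingHom.liftOfSurjective_comp_apply _ hs ⟨_, hk⟩ X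
    rw [coe_eval₂RingHom, eval₂_X] at h1
    exact (congrArg (RingHom.liftOfSurjective _ hs ⟨_, hk⟩) (aeval_X θ).symm).trans h1

end aux

open Pool.Agent.Lib.MP_f80667_ag.LF

variable {F : Type} [Field F] [NumberField F] {A B : Matrix (Fin 5) (Fin 5) F} {wv : Fin 5 → F}
  {ι : Type} [Fintype ι] {K : ι → Type} [∀ i, Field (K i)] [∀ i, NumberField (K i)]
  [∀ i, Algebra F (K i)] {θ : ∀ i, K i} {M : Type} [Field M] [NumberField M] [Algebra F M]

/-- `ε` is an embedding of `K i` over `F` with the place `u`, such that `ε (θ i)` is near `α`. -/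
structure Emb (θ : ∀ i, K i) (α : M) (w : HeightOneSpectrum (𝓞 M)) (i : ι)
    (ε : K i →+* w.adicCompletion M) (u : HeightOneSpectrum (𝓞 (K i))) : Prop where
  com : ∀ x : F, ε (algebraMap F (K i) x) =
    algebraMap M (w.adicCompletion M) (algebraMap F M x)
  und : u.under (𝓞 F) = w.under (𝓞 F)
  le : ∀ x : K i, u.valuation (K i) x ≤ 1 ↔ Valued.v (ε x) ≤ 1
  near : Valued.v (algebraMap M (w.adicCompletion M) α - ε (θ i)) < 1

variable {α : M} {w : HeightOneSpectrum (𝓞 M)}

/-- Proof. Over the integers of the completion the polynomial `mf A B` has at `α` a value in the maximal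
ideal and a unit derivative (`Gd.sep`, `chp_mf`), so by Hensel it has a zero `e` near `α`. By
`Res.prod` `e` is a zero of `minpoly F (θ i)` for some `i`; this gives `ε` with `ε (θ i) = e`
(`IntermediateField` or `AdjoinRoot` lifts; `Res.top`). `exists_und`, `und_under`. -/
theorem w_root (hB : ND A B (0 : F) 1) (hres : Res (mf A B) K θ)
    (hg : Gd A B wv K θ (w.under (𝓞 F))) (hα : w.valuation M α ≤ 1)
    (hd : w.valuation M (aeval α (chp A B)) < 1) :
    ∃ i ε u, Emb (F := F) θ α w i ε u := by
  obtain ⟨hmi, -, hci, -⟩ := hg.mf_int hB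
  obtain ⟨U, V, hUV, hU, hV⟩ := hg.sep
  obtain ⟨P, hP⟩ := wb_lift hmi
  let a : w.adicCompletionIntegers M := ⟨algebraMap M (w.adicCompletion M) α, by
    rw [HeightOneSpectrum.mem_adicCompletionIntegers, wb_val]
    exact hα⟩
  have hc0 : Valued.v (wbF F w (-(B + B.transpose).det)) = 1 := by
    obtain ⟨n, -, h⟩ := exists_ram F M w
    rw [wbF, RingHom.comp_apply, wb_val, h, Valuation.map_neg, hg.db, one_pow]
  obtain ⟨hchp, -⟩ := chp_mf hB
  have hval : ∀ r : F[X], (r.eval₂ (wbF F w) (a : w.adicCompletion M)) =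
      algebraMap M (w.adicCompletion M) (aeval α r) := fun r => (wb_aeval r α).symm
  have hPm : P.Monic := by
    refine Polynomial.monic_of_injective
      (f := algebraMap (w.adicCompletionIntegers M) (w.adicCompletion M)) Subtype.val_injective ?_
    rw [hP]
    exact (mf_monic hB).1.map _
  have e1 : wbF F w (-(B + B.transpose).det) * (mf A B).eval₂ (wbF F w) (a : w.adicCompletion M) =
      (chp A B).eval₂ (wbF F w) (a : w.adicCompletion M) := by
    conv_rhs => rw [hchp, eval₂_mul, eval₂_C]
  have e2 : wbF F w (-(B + B.transpose).det) *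
      (derivative (mf A B)).eval₂ (wbF F w) (a : w.adicCompletion M) =
      (derivative (chp A B)).eval₂ (wbF F w) (a : w.adicCompletion M) := by
    conv_rhs => rw [hchp, derivative_C_mul, eval₂_mul, eval₂_C]
  have hchp1 : Valued.v ((chp A B).eval₂ (wbF F w) (a : w.adicCompletion M)) < 1 := by
    rw [hval, wb_val]
    exact hd
  have h1 : P.eval a ∈ IsLocalRing.maximalIdeal (w.adicCompletionIntegers M) := by
    rw [mem_max_iff M w, wb_eval hP]
    have h := congrArg Valued.v e1
    rw [map_mul, hc0, one_mul] at h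
    rw [h]
    exact hchp1
  have hle : ∀ r : F[X], (∀ j, (w.under (𝓞 F)).valuation F (r.coeff j) ≤ 1) →
      Valued.v (r.eval₂ (wbF F w) (a : w.adicCompletion M)) ≤ 1 := by
    intro r hr
    obtain ⟨Q, hQ⟩ := wb_lift hr
    rw [← wb_eval hQ]
    exact (Q.eval a).2
  have hder : Valued.v ((derivative (chp A B)).eval₂ (wbF F w) (a : w.adicCompletion M)) = 1 := by
    have h2 := congrArg (fun p => p.eval₂ (wbF F w) (a : w.adicCompletion M)) hUV
    simp only [eval₂_add, eval₂_mul, eval₂_one] at h2
    set u₁ := U.eval₂ (wbF F w) (a : w.adicCompletion M)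
    set u₂ := V.eval₂ (wbF F w) (a : w.adicCompletion M)
    set c₁ := (chp A B).eval₂ (wbF F w) (a : w.adicCompletion M)
    set c₂ := (derivative (chp A B)).eval₂ (wbF F w) (a : w.adicCompletion M) with hc₂
    have hu₁ : Valued.v u₁ ≤ 1 := hle U hU
    have hu₂ : Valued.v u₂ ≤ 1 := hle V hV
    have hc₂' : Valued.v c₂ ≤ 1 := by
      refine hle _ fun j => ?_
      rw [coeff_derivative, map_mul]
      refine mul_le_one' (hci _) ?_
      have h5 : ((j : F) + 1) = algebraMap (𝓞 F) F ((j : 𝓞 F) + 1) := by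
        rw [map_add, map_natCast, map_one]
      rw [h5]
      exact HeightOneSpectrum.valuation_le_one _ _
    have h3 : Valued.v (u₁ * c₁) < 1 := by
      rw [map_mul]
      exact (mul_le_of_le_one_left' hu₁).trans_lt hchp1
    have h4 : Valued.v (u₂ * c₂) = 1 := by
      have e : u₂ * c₂ = 1 - u₁ * c₁ := by rw [← h2]; ring
      rw [e]
      have h6 := Valuation.map_one_sub_of_lt (v := (Valued.v : Valuation (w.adicCompletion M) _)) h3
      exact h6
    rw [map_mul] at h4
    refine le_antisymm hc₂' ?_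
    rw [← h4]
    exact mul_le_of_le_one_left' hu₂
  have h2 : IsUnit (P.derivative.eval a) := by
    have hP' : P.derivative.map (algebraMap (w.adicCompletionIntegers M) (w.adicCompletion M)) =
        (derivative (mf A B)).map (wbF F w) := by
      rw [← derivative_map, hP, derivative_map]
    rw [HeightOneSpectrum.adicCompletionIntegers.isUnit_iff_valued_eq_one, wb_eval hP']
    have h := congrArg Valued.v e2
    rw [map_mul, hc0, one_mul] at h
    rw [h]
    exact hder
  obtain ⟨e, he, hea⟩ := HenselianRing.is_henselian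
    (I := IsLocalRing.maximalIdeal (w.adicCompletionIntegers M)) P hPm a h1
    (h2.map (Ideal.Quotient.mk _))
  have h3 : (mf A B).eval₂ (wbF F w) (e : w.adicCompletion M) = 0 := by
    rw [← wb_eval hP, he.eq_zero]
    rfl
  rw [← hres.prod, eval₂_finsetProd, Finset.prod_eq_zero_iff] at h3
  obtain ⟨i, -, hi⟩ := h3
  obtain ⟨ε, hε, hεθ⟩ := wb_hom (hres.int i) (hres.top i) hi
  obtain ⟨u, hu⟩ := exists_und w ε
  refine ⟨i, ε, u, hε, und_under hu hε, hu, ?_⟩
  rw [hεθ]
  have h4 := (mem_max_iff M w).1 hea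
  have e5 : algebraMap M (w.adicCompletion M) α - (e : w.adicCompletion M) =
      -((e - a : w.adicCompletionIntegers M) : w.adicCompletion M) := by
    change _ = -((e : w.adicCompletion M) - algebraMap M (w.adicCompletion M) α)
    ring
  rw [e5, Valuation.map_neg]
  exact h4

/-- The values of a polynomial which is integral at `v` at `α` and at `θ i`. -/
theorem Emb.eval {i : ι} {ε : K i →+* w.adicCompletion M} {u : HeightOneSpectrum (𝓞 (K i))}
    (h : Emb (F := F) θ α w i ε u) (hα : w.valuation M α ≤ 1) {r : F[X]}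
    (hr : ∀ j, (w.under (𝓞 F)).valuation F (r.coeff j) ≤ 1) :
    Valued.v (algebraMap M (w.adicCompletion M) (aeval α r) - ε (aeval (θ i) r)) < 1 := by
  have h1 : ε (aeval (θ i) r) = r.eval₂ (wbF F w) (ε (θ i)) := by
    rw [aeval_def, hom_eval₂]
    congr 1
    exact RingHom.ext h.com
  rw [h1, wb_aeval]
  refine wb_near hr ?_ h.near
  rw [wb_val]
  exact hα

/-- Proof: `Emb.eval`, `Gd.dl`, `Gd.mf_int`. -/
theorem Emb.dlp (hB : ND A B (0 : F) 1) (hg : Gd A B wv K θ (w.under (𝓞 F))) {i : ι}
    {ε : K i →+* w.adicCompletion M} {u : HeightOneSpectrum (𝓞 (K i))}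
    (h : Emb (F := F) θ α w i ε u) (hα : w.valuation M α ≤ 1) :
    w.valuation M (aeval α (dlp A B wv)) = 1 := by
  have h1 := h.eval hα (hg.mf_int hB).2.2.2
  have h2 := hg.dl i u h.und
  have h3 : Valued.v (ε (aeval (θ i) (Dq.dlp A B wv))) = 1 := by
    refine le_antisymm ((h.le _).1 h2.le) ?_
    have h4 := (h.le (aeval (θ i) (Dq.dlp A B wv))⁻¹).1 (by rw [map_inv₀, h2, inv_one])
    rw [map_inv₀, map_inv₀] at h4
    have h5 : Valued.v (ε (aeval (θ i) (Dq.dlp A B wv))) ≠ 0 := by
      rw [Valuation.ne_zero_iff, map_ne_zero_iff ε ε.injective]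
      intro h6
      rw [h6, map_zero] at h2
      exact zero_ne_one h2
    exact (inv_le_one₀ (zero_lt_iff.2 h5)).1 h4
  rw [← wb_val]
  have e : algebraMap M (w.adicCompletion M) (aeval α (Dq.dlp A B wv)) =
      (algebraMap M (w.adicCompletion M) (aeval α (Dq.dlp A B wv)) -
        ε (aeval (θ i) (Dq.dlp A B wv))) + ε (aeval (θ i) (Dq.dlp A B wv)) := by ring
  rw [e, Valuation.map_add_eq_of_lt_right _ (by rw [h3]; exact h1), h3]

end Dq
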